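import Pool.Agent.MP_94f265_co.ST.OpF

/-!
# Parts of the run
-/

namespace Pool.Agent.MMS

open Pool.Agent.MM1

theorem beq_iff (a b : ℕ) : (Nat.beq a b = true) = (a = b) := propext ⟨Nat.eq_of_beq_eq_true, fun h => by
  subst h; exact Nat.beq_refl a⟩

theorem q4eq_eq : ∀ {l l' : List Q4}, q4eq l l' = true → l = l' := by
  intro l
  induction l with
  | nil => intro l' h; cases l' with
    | nil => rfl
    | cons e l' => simp [q4eq] at h
  | cons e l ih =>
    intro l' h
    cases l' with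
    | nil => simp [q4eq] at h
    | cons e' l' =>
      obtain ⟨a, b, c, d⟩ := e
      obtain ⟨a', b', c', d'⟩ := e'
      simp only [q4eq, Bool.and_eq_true, beq_iff] at h
      obtain ⟨⟨rfl, rfl⟩, ⟨rfl, rfl⟩, h5⟩ := h
      rw [ih h5]

theorem ceq_eq {c c' : Ctx} (h : ceq c c' = true) : c = c' := by
  cases c <;> cases c' <;> simp only [ceq, Bool.and_eq_true, beq_iff, Bool.false_eq_true] at h
  · obtain ⟨⟨rfl, rfl⟩, rfl, rfl⟩ := h; rfl
  · obtain ⟨⟨rfl, rfl⟩, rfl, rfl⟩ := h; rfl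
  · obtain ⟨⟨rfl, rfl⟩, rfl, rfl⟩ := h; rfl
  · rw [q4eq_eq h]
  · obtain ⟨⟨rfl, rfl⟩, ⟨rfl, rfl⟩, rfl⟩ := h; rfl
  · obtain ⟨rfl, rfl, rfl⟩ := h; rfl

theorem ceqL_eq : ∀ {l l' : List Ctx}, ceqL l l' = true → l = l' := by
  intro l
  induction l with
  | nil => intro l' h; cases l' with
    | nil => rfl
    | cons e l' => simp [ceqL] at h
  | cons c l ih =>
    intro l' h
    cases l' with
    | nil => simp [ceqL] at h
    | cons c' l' =>
      simp only [ceqL, Bool.and_eq_true] at h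
      rw [ceq_eq h.1, ih h.2]

theorem chkPart_sound {prog : List ℕ} {st0 st1 : List Ctx} {f : List (ℕ × ℕ) → List Ctx → Bool}
    (h : chkPart prog st0 st1 f = true) : ∃ us fr, OkS st0 [] [] st1 us fr ∧ f us fr = true := by
  unfold chkPart at h
  rw [frunE_eq prog endK st0 [] []] at h
  cases hr : mrun (opsE prog) st0 [] [] with
  | none =>
    rw [hr] at h
    exact absurd h (by simp [thenK])
  | some x =>
    obtain ⟨st, us, fr⟩ := x
    rw [hr] at h
    have h' : (ceqL st st1 && f us fr) = true := h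
    simp only [Bool.and_eq_true] at h'
    obtain ⟨h1, h2⟩ := h'
    have e := ceqL_eq h1
    subst e
    exact ⟨us, fr, mrun_sound _ _ _ _ _ _ _ hr, h2⟩

theorem OkS_shift {st st' : List Ctx} {us' : List (ℕ × ℕ)} {fr' : List Ctx} (h : OkS st [] [] st' us' fr')
    (us : List (ℕ × ℕ)) (fr : List Ctx) : OkS st us fr st' (us' ++ us) (fr' ++ fr) := by
  have h1 := OkS_append h [] us fr
  rwa [List.append_nil, List.append_nil] at h1

/-- meaning of a whole run which empties the stack -/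
theorem OkS_final {st0 : List Ctx} {us : List (ℕ × ℕ)} {fr : List Ctx} (h : OkS st0 [] [] [] us fr)
    {G : Multiset (ℝ × ℝ)} (hG : RzL st0 G) : ∃ F A, RzL fr F ∧
      A + owedL fr = (nums us : Multiset ℕ) + owedL st0 ∧ Cut G (unitsM A + F) := by
  obtain ⟨ua, fa, e1, e2, s⟩ := h
  rw [List.append_nil] at e1 e2
  subst e1 e2
  obtain ⟨F1, F2, A, f1, f2, a, c⟩ := s G hG
  simp only [RzL] at f1
  subst f1
  refine ⟨F2, A, f2, ?_, ?_⟩
  · rw [← a]
    simp [owedL]
  · rw [zero_add] at c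
    exact c

end Pool.Agent.MMS
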