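import Pool.Agent.MP_94f265_co.ST.Plan
import Pool.Agent.MP_94f265_co.MM2.Placed

/-!
# Phase 1: an explicit list of placed rectangles with integer coordinates over a common denominator
-/

namespace Pool.Agent.MMS

open Pool.Agent.MM1

/-- corners `x1, x2, y1, y2` -/
abbrev R4 : Type := ℕ × ℕ × ℕ × ℕ

def sepb (p q : R4) : Bool :=
  Nat.ble p.2.1 q.1 || (Nat.ble q.2.1 p.1 || (Nat.ble p.2.2.2 q.2.2.1 || Nat.ble q.2.2.2 p.2.2.1))

def allSep (p : R4) : List R4 → Bool
  | [] => true
  | q :: l => sepb p q && allSep p l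

def pairb : List R4 → Bool
  | [] => true
  | p :: l => allSep p l && pairb l

def inb (D : ℕ) (p : R4) : Bool :=
  Nat.ble p.1 p.2.1 && (Nat.ble p.2.1 D && (Nat.ble p.2.2.1 p.2.2.2 && Nat.ble p.2.2.2 D))

def allIn (D : ℕ) : List R4 → Bool
  | [] => true
  | q :: l => inb D q && allIn D l

def areaN : List R4 → ℕ
  | [] => 0
  | p :: l => (p.2.1 - p.1) * (p.2.2.2 - p.2.2.1) + areaN l

/-- the items are `R_k, R_(k+1), ...` -/
def dimsb (D : ℕ) : ℕ → List R4 → Bool
  | _, [] => true
  | k, p :: l =>
    ((Nat.beq ((p.2.1 - p.1) * k) D && Nat.beq ((p.2.2.2 - p.2.2.1) * (k + 1)) D) ||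
      (Nat.beq ((p.2.1 - p.1) * (k + 1)) D && Nat.beq ((p.2.2.2 - p.2.2.1) * k) D)) && dimsb D (k + 1) l

def chk1 (D : ℕ) (items boxes : List R4) : Bool :=
  (Nat.ble 1 D && dimsb D 1 items) && (allIn D (items ++ boxes) &&
    (Nat.beq (areaN (items ++ boxes)) (D * D) && pairb (items ++ boxes)))

/-- the side lengths -/
noncomputable def side (D : ℕ) (p : R4) : ℝ × ℝ :=
  (((p.2.1 - p.1 : ℕ) : ℝ) / (D : ℝ), ((p.2.2.2 - p.2.2.1 : ℕ) : ℝ) / (D : ℝ))

noncomputable def toPR (D : ℕ) (p : R4) : PR :=
  ⟨(p.1 : ℝ) / D, (p.2.2.1 : ℝ) / D, (side D p).1, (side D p).2⟩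

theorem allSep_mem {p : R4} {l : List R4} (h : allSep p l = true) : ∀ q ∈ l, sepb p q = true := by
  induction l with
  | nil => intro q hq; simp at hq
  | cons a l ih =>
    simp only [allSep, Bool.and_eq_true] at h
    intro q hq
    rcases List.mem_cons.1 hq with rfl | hq
    · exact h.1
    · exact ih h.2 q hq

theorem allIn_mem {D : ℕ} {l : List R4} (h : allIn D l = true) : ∀ q ∈ l, inb D q = true := by
  induction l with
  | nil => intro q hq; simp at hq
  | cons a l ih =>
    simp only [allIn, Bool.and_eq_true] at h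
    intro q hq
    rcases List.mem_cons.1 hq with rfl | hq
    · exact h.1
    · exact ih h.2 q hq

theorem side_x {D : ℕ} {p : R4} (h : inb D p = true) : (p.1 : ℝ) / D + (side D p).1 = (p.2.1 : ℝ) / D := by
  simp only [inb, Bool.and_eq_true, Nat.ble_eq] at h
  unfold side
  rw [Nat.cast_sub h.1]
  ring

theorem side_y {D : ℕ} {p : R4} (h : inb D p = true) : (p.2.2.1 : ℝ) / D + (side D p).2 = (p.2.2.2 : ℝ) / D := by
  simp only [inb, Bool.and_eq_true, Nat.ble_eq] at h
  unfold side
  rw [Nat.cast_sub h.2.2.1]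
  ring

theorem sepb_Sep {D : ℕ} (hD : 0 < D) {p q : R4} (hp : inb D p = true) (hq : inb D q = true)
    (h : sepb p q = true) : (toPR D p).Sep (toPR D q) := by
  have hD' : (0 : ℝ) < D := by exact_mod_cast hD
  unfold PR.Sep toPR
  simp only
  rw [side_x hp, side_x hq, side_y hp, side_y hq]
  simp only [sepb, Bool.or_eq_true, Nat.ble_eq] at h
  rcases h with h | h | h | h
  · left; exact div_le_div_of_nonneg_right (by exact_mod_cast h) hD'.le
  · right; left; exact div_le_div_of_nonneg_right (by exact_mod_cast h) hD'.le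
  · right; right; left; exact div_le_div_of_nonneg_right (by exact_mod_cast h) hD'.le
  · right; right; right; exact div_le_div_of_nonneg_right (by exact_mod_cast h) hD'.le

theorem pairb_pairwise {D : ℕ} (hD : 0 < D) : ∀ {l : List R4}, allIn D l = true → pairb l = true →
    (l.map (toPR D)).Pairwise PR.Sep
  | [], _, _ => by simp
  | p :: l, hin, h => by
      simp only [pairb, Bool.and_eq_true] at h
      have hin' := hin
      simp only [allIn, Bool.and_eq_true] at hin'
      rw [List.map_cons, List.pairwise_cons]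
      refine ⟨?_, pairb_pairwise hD hin'.2 h.2⟩
      intro a ha
      obtain ⟨q, hq, rfl⟩ := List.mem_map.1 ha
      exact sepb_Sep hD hin'.1 (allIn_mem hin'.2 q hq) (allSep_mem h.1 q hq)

theorem sub_unit {D : ℕ} (hD : 0 < D) {p : R4} (hp : inb D p = true) : (toPR D p).Sub ⟨0, 0, 1, 1⟩ := by
  have hD' : (0 : ℝ) < D := by exact_mod_cast hD
  have h := hp
  simp only [inb, Bool.and_eq_true, Nat.ble_eq] at h
  refine ⟨?_, ?_, ?_, ?_⟩
  · simp only [toPR]; positivity
  · simp only [toPR]; rw [side_x hp, zero_add, div_le_one hD']; exact_mod_cast h.2.1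
  · simp only [toPR]; positivity
  · simp only [toPR]; rw [side_y hp, zero_add, div_le_one hD']; exact_mod_cast h.2.2.2

theorem areaN_eq {D : ℕ} (hD : 0 < D) (l : List R4) :
    ((l.map (toPR D)).map (fun q => q.a * q.b)).sum = (areaN l : ℝ) / ((D : ℝ) * D) := by
  have hD' : (D : ℝ) ≠ 0 := by positivity
  induction l with
  | nil => simp [areaN]
  | cons p l ih =>
    rw [List.map_cons, List.map_cons, List.sum_cons, ih]
    simp only [toPR, side, areaN]
    push_cast
    field_simp

theorem dims_units {D : ℕ} (hD : 0 < D) : ∀ (l : List R4) (k : ℕ), 1 ≤ k → dimsb D k l = true →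
    Cut ((l.map (side D) : List (ℝ × ℝ)) : Multiset (ℝ × ℝ)) (units (List.range' k l.length))
  | [], _, _, _ => Cut.refl _
  | p :: l, k, hk, h => by
      have hD' : (0 : ℝ) < D := by exact_mod_cast hD
      have hk' : (0 : ℝ) < k := by exact_mod_cast hk
      simp only [dimsb, Bool.and_eq_true, Bool.or_eq_true, Nat.beq_eq] at h
      have ih := dims_units hD l (k + 1) (by omega) h.2
      have h1 : Cut {side D p} {U k} := by
        have key : ∀ a c : ℕ, a * c = D → 0 < c → ((a : ℕ) : ℝ) / (D : ℝ) = 1 / (c : ℝ) := by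
          intro a c h0 hc
          have hc' : (0 : ℝ) < c := by exact_mod_cast hc
          rw [div_eq_div_iff hD'.ne' hc'.ne', one_mul]
          exact_mod_cast h0
        rcases h.1 with ⟨e1, e2⟩ | ⟨e1, e2⟩
        · refine Cut.of_eq ?_
          unfold side U
          rw [key _ _ e1 hk, key _ _ e2 (by omega)]
          push_cast
          rfl
        · refine (Cut.swap (side D p).1 (side D p).2).trans (Cut.of_eq ?_)
          unfold side U
          simp only
          rw [key _ _ e1 (by omega), key _ _ e2 hk]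
          push_cast
          rfl
      have e : List.range' k (p :: l).length = [k] ++ List.range' (k + 1) l.length := by
        rw [List.length_cons, List.range'_succ]
        rfl
      rw [e, units_append]
      have e2 : ((((p :: l).map (side D) : List (ℝ × ℝ))) : Multiset (ℝ × ℝ)) =
          {side D p} + ((l.map (side D) : List (ℝ × ℝ)) : Multiset (ℝ × ℝ)) := by
        rw [List.map_cons, ← Multiset.cons_coe, Multiset.singleton_add]
      rw [e2]
      exact Cut.add h1 ih

/-- PHASE 1: soundness of the checker. -/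
theorem phase1_sound {D : ℕ} {items boxes : List R4} (h : chk1 D items boxes = true) :
    Cut {((1 : ℝ), (1 : ℝ))} (units (List.range' 1 items.length) +
      ((boxes.map (side D) : List (ℝ × ℝ)) : Multiset (ℝ × ℝ))) := by
  simp only [chk1, Bool.and_eq_true, Nat.ble_eq, Nat.beq_eq] at h
  obtain ⟨⟨hD, hdim⟩, hin, harea, hpair⟩ := h
  have hD' : (0 : ℝ) < D := by exact_mod_cast hD
  have key := cut_of_placed 1 1 ((items ++ boxes).map (toPR D)) (pairb_pairwise hD hin hpair) ?_ ?_
  · refine key.trans ?_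
    have e : (((items ++ boxes).map (toPR D)).map PR.dims : List (ℝ × ℝ)) =
        items.map (side D) ++ boxes.map (side D) := by
      rw [List.map_map, List.map_append]
      rfl
    rw [e, ← Multiset.coe_add]
    exact Cut.add (dims_units hD items 1 le_rfl hdim) (Cut.refl _)
  · intro q hq
    obtain ⟨p, hp, rfl⟩ := List.mem_map.1 hq
    exact sub_unit hD (allIn_mem hin p hp)
  · rw [areaN_eq hD, harea]
    push_cast
    field_simp

/-- enclosure of a free box of phase 1 -/
def encB (D : ℕ) (p : R4) : Ctx :=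
  .pc (fl (SC * (p.2.1 - p.1)) D) (ce (SC * (p.2.1 - p.1)) D)
    (fl (SC * (p.2.2.2 - p.2.2.1)) D) (ce (SC * (p.2.2.2 - p.2.2.1)) D)

theorem encB_Rz {D : ℕ} (hD : 0 < D) (p : R4) : Rz (encB D p) {side D p} :=
  ⟨_, _, In_frac _ _ hD, In_frac _ _ hD, rfl⟩

theorem encB_RzL {D : ℕ} (hD : 0 < D) (l : List R4) :
    RzL (l.map (encB D)) ((l.map (side D) : List (ℝ × ℝ)) : Multiset (ℝ × ℝ)) := by
  induction l with
  | nil => rfl
  | cons p l ih =>
    refine ⟨{side D p}, _, encB_Rz hD p, ih, ?_⟩
    rw [List.map_cons, ← Multiset.cons_coe, Multiset.singleton_add]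

end Pool.Agent.MMS
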