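import Pool.Agent.MP_94f265_co.MM2.TStepO
import Pool.Agent.MP_94f265_co.MM2.Placed
import Pool.Agent.MP_94f265_co.ST.Part
import Pool.Agent.MP_94f265_co.ST.Phase1

/-!
# From the free contexts of the machine to the objects of the tail
-/

namespace Pool.Agent.MMS

open Pool.Agent.MM1 Pool.Agent.MM2

/-! ## Owed pieces -/

/-- The owed pieces of `Q` can be cut into the units with numbers in `A`. -/
def OwedOK (Q : Multiset Obj) (A : Multiset ℕ) : Prop :=
  ∃ LS : Multiset (Finset ℕ), Multiset.Rel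
    (fun p S => Cut {p} (S.val.map (fun k : ℕ => (1 / (k : ℝ), 1 / ((k : ℝ) + 1))))) (owedR Q) LS ∧
    (LS.map Finset.val).sum = A

theorem OwedOK_zero : OwedOK 0 0 := ⟨0, by rw [owedR_zero]; exact Multiset.Rel.zero, by simp⟩

theorem OwedOK_add {Q R : Multiset Obj} {A B : Multiset ℕ} (h : OwedOK Q A) (h' : OwedOK R B) :
    OwedOK (Q + R) (A + B) := by
  obtain ⟨L, h1, h2⟩ := h
  obtain ⟨M, h3, h4⟩ := h'
  refine ⟨L + M, ?_, ?_⟩
  · rw [owedR_add]; exact Multiset.Rel.add h1 h3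
  · rw [Multiset.map_add, Multiset.sum_add, h2, h4]

theorem OwedOK_plain (s : Multiset (ℝ × ℝ)) : OwedOK (s.map plainObj) 0 :=
  ⟨0, by rw [owedR_plain]; exact Multiset.Rel.zero, by simp⟩

/-! ## Chains as objects -/

/-- the object of the flat dominoes `k, k+2, ...` (`m` of them) in a strip of thickness `w` -/
noncomputable def flatObj (w : ℝ) (k m : ℕ) : Obj :=
  ⟨w, (List.range m).map (fun j : ℕ => (1 / (((k + 2 * j : ℕ) : ℝ) + 1), Lg (k + 2 * j)))⟩

/-- the object of the upright dominoes `k, k+2, ...` (`m` of them) in a strip of thickness `w` -/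
noncomputable def upObj (w : ℝ) (k m : ℕ) : Obj :=
  ⟨w, (List.range m).map (fun j : ℕ => (Lg (k + 2 * j), 1 / (((k + 2 * j : ℕ) : ℝ) + 1)))⟩

theorem T_succ_last (c m : ℕ) : T c (m + 1) = T c m + 1 / ((c : ℝ) + 2 * (m : ℝ)) := by
  unfold T
  rw [Finset.sum_range_succ]

theorem flatObj_len (w : ℝ) (k m : ℕ) : (flatObj w k m).len = T k m + T (k + 2) m := by
  unfold flatObj Obj.len
  simp only [List.map_map]
  induction m with
  | zero => simp [T]
  | succ m ih =>
    rw [List.range_succ, List.map_append, List.sum_append, ih, T_succ_last, T_succ_last]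
    simp only [List.map_cons, List.map_nil, List.sum_cons, List.sum_nil, Function.comp_apply, Lg]
    push_cast
    have : (k : ℝ) + 2 * (m : ℝ) + 2 = (k : ℝ) + 2 + 2 * m := by ring
    rw [this]
    ring

theorem upObj_len (w : ℝ) (k m : ℕ) : (upObj w k m).len = T (k + 1) m := by
  unfold upObj Obj.len
  simp only [List.map_map]
  induction m with
  | zero => simp [T]
  | succ m ih =>
    rw [List.range_succ, List.map_append, List.sum_append, ih, T_succ_last]
    simp only [List.map_cons, List.map_nil, List.sum_cons, List.sum_nil, Function.comp_apply]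
    push_cast
    have : (k : ℝ) + 2 * (m : ℝ) + 1 = (k : ℝ) + 1 + 2 * m := by ring
    rw [this]
    ring

theorem flatObj_rect (w : ℝ) (k m : ℕ) : (flatObj w k m).rect = (w, T k m + T (k + 2) m) := by
  unfold Obj.rect
  rw [flatObj_len]
  rfl

theorem upObj_rect (w : ℝ) (k m : ℕ) : (upObj w k m).rect = (w, T (k + 1) m) := by
  unfold Obj.rect
  rw [upObj_len]
  rfl

/-- sum of the pairs -/
theorem pairs_sum (k m : ℕ) :
    (Multiset.map Finset.val (((List.range m).map (fun j : ℕ => (({k + 2 * j, k + 2 * j + 1} : Finset ℕ))) :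
      List (Finset ℕ)) : Multiset (Finset ℕ))).sum = (List.range' k (2 * m) : Multiset ℕ) := by
  induction m with
  | zero => simp
  | succ m ih =>
    have e : (List.range' k (2 * (m + 1)) : Multiset ℕ) =
        (List.range' k (2 * m) : Multiset ℕ) + ((([k + 2 * m, k + 2 * m + 1] : List ℕ)) : Multiset ℕ) := by
      rw [show 2 * (m + 1) = 2 * m + 2 by ring, ← List.range'_append_1, ← Multiset.coe_add]
      rfl
    rw [List.range_succ, List.map_append, ← Multiset.coe_add, Multiset.map_add, Multiset.sum_add, ih, e]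
    congr 1
    have hne : k + 2 * m ∉ ({k + 2 * m + 1} : Finset ℕ) := by simp
    simp only [List.map_cons, List.map_nil, Multiset.coe_singleton, Multiset.map_singleton,
      Multiset.sum_singleton]
    rw [Finset.insert_val_of_notMem hne]
    rfl

theorem unit_pair (k : ℕ) : (({k, k + 1} : Finset ℕ).val.map (fun k : ℕ => (1 / (k : ℝ), 1 / ((k : ℝ) + 1)))) =
    units [k, k + 1] := by
  have hne : k ∉ ({k + 1} : Finset ℕ) := by simp
  rw [Finset.insert_val_of_notMem hne]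
  simp only [Finset.singleton_val, Multiset.map_cons, Multiset.map_singleton, units, U, List.map_cons,
    List.map_nil]
  rfl

theorem owed_pairs {f : ℕ → ℝ × ℝ} {k : ℕ} (o : Obj) (m : ℕ)
    (ho : o.run = (List.range m).map f)
    (hf : ∀ j, Cut {f j} (units [k + 2 * j, k + 2 * j + 1])) (hf0 : ∀ j, (f j).1 ≠ 0) :
    OwedOK {o} (List.range' k (2 * m) : Multiset ℕ) := by
  refine ⟨_, ?_, pairs_sum k m⟩
  have e : owedR {o} = (((List.range m).map f : List (ℝ × ℝ)) : Multiset (ℝ × ℝ)) := by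
    classical
    unfold owedR
    rw [owed_single, ho]
    rw [Multiset.filter_eq_self]
    intro p hp
    simp only [Multiset.mem_coe, List.mem_map] at hp
    obtain ⟨j, _, rfl⟩ := hp
    exact hf0 j
  rw [e]
  rw [← Multiset.map_coe, ← Multiset.map_coe, Multiset.rel_map]
  refine Multiset.rel_refl_of_refl_on ?_
  intro j _
  rw [unit_pair]
  exact hf j

theorem owed_flat (w : ℝ) {k : ℕ} (m : ℕ) (hk : 1 ≤ k) :
    OwedOK {flatObj w k m} (List.range' k (2 * m) : Multiset ℕ) := by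
  refine owed_pairs (k := k) _ m rfl ?_ ?_
  · intro j
    exact cut_domino (k + 2 * j) (by omega)
  · intro j
    simp only
    positivity

theorem owed_up (w : ℝ) {k : ℕ} (m : ℕ) (hk : 1 ≤ k) :
    OwedOK {upObj w k m} (List.range' k (2 * m) : Multiset ℕ) := by
  refine owed_pairs (k := k) _ m rfl ?_ ?_
  · intro j
    exact (Cut.swap _ _).trans (cut_domino (k + 2 * j) (by omega))
  · intro j
    simp only [Lg]
    have : (0 : ℝ) < ((k + 2 * j : ℕ) : ℝ) := by exact_mod_cast (by omega : 0 < k + 2 * j)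
    positivity

/-! ## Invariants of an object given by a convex decreasing run -/

theorem potL_range' (t : ℝ) (f : ℕ → ℝ × ℝ) : ∀ (m a : ℕ), Obj.potL t ((List.range' a m).map f) =
    (List.range' a (m - 1)).map (fun j : ℕ => ((f j).1 - (f (j + 1)).1, t - (f j).1)) := by
  intro m
  induction m with
  | zero => intro a; simp [Obj.potL]
  | succ m ih =>
    intro a
    cases m with
    | zero => simp [Obj.potL]
    | succ m =>
      have h := ih (a + 1)
      rw [List.range'_succ, List.map_cons] at h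
      rw [List.range'_succ, List.range'_succ, List.map_cons, List.map_cons, Obj.potL, h]
      simp only [Nat.add_sub_cancel]
      rw [List.range'_succ, List.map_cons]

theorem potL_range (t : ℝ) (f : ℕ → ℝ × ℝ) (m : ℕ) : Obj.potL t ((List.range m).map f) =
    (List.range (m - 1)).map (fun j : ℕ => ((f j).1 - (f (j + 1)).1, t - (f j).1)) := by
  rw [List.range_eq_range', potL_range', ← List.range_eq_range']

theorem obj_inv {T0 w : ℝ} {m : ℕ} {f : ℕ → ℝ × ℝ} (hm : 1 ≤ m)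
    (h0 : ∀ j, 0 ≤ (f j).1) (hL : ∀ j, 0 ≤ (f j).2)
    (hanti : ∀ j, (f (j + 1)).1 < (f j).1) (hLanti : ∀ j, (f (j + 1)).2 ≤ (f j).2)
    (hgap : ∀ j, (f (j + 1)).1 - (f (j + 2)).1 ≤ (f j).1 - (f (j + 1)).1)
    (h1 : (f 0).1 < w) (h2 : w - (f (m - 1)).1 < T0)
    (h3 : 51 / 50 * (w - (f (m - 1)).1) ≤ (f (m - 1)).2)
    (h4 : 2 ≤ m → 4 * (w - (f (m - 1)).1) ≤ (f (m - 1)).2)
    (h5 : 2 ≤ m → (f 0).1 - (f 1).1 ≤ (w - (f 0).1) / 20) :
    OInv T0 ⟨w, (List.range m).map f⟩ := by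
  have ha : ∀ i j, i ≤ j → (f j).1 ≤ (f i).1 := by
    intro i j hij
    induction j, hij using Nat.le_induction with
    | base => exact le_rfl
    | succ j _ ih => exact (hanti j).le.trans ih
  have hb : ∀ i j, i ≤ j → (f j).2 ≤ (f i).2 := by
    intro i j hij
    induction j, hij using Nat.le_induction with
    | base => exact le_rfl
    | succ j _ ih => exact (hLanti j).trans ih
  have hg : ∀ j, (f j).1 - (f (j + 1)).1 ≤ (f 0).1 - (f 1).1 := by
    intro j
    induction j with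
    | zero => exact le_rfl
    | succ j ih => exact (hgap j).trans ih
  have hmem : ∀ p ∈ (List.range m).map f, ∃ j, j < m ∧ p = f j := by
    intro p hp
    obtain ⟨j, hj, rfl⟩ := List.mem_map.1 hp
    exact ⟨j, List.mem_range.1 hj, rfl⟩
  have hpot : ∀ p ∈ (⟨w, (List.range m).map f⟩ : Obj).pot, ∃ j, j + 1 < m ∧
      p = ((f j).1 - (f (j + 1)).1, w - (f j).1) := by
    intro p hp
    unfold Obj.pot at hp
    rw [potL_range] at hp
    obtain ⟨j, hj, rfl⟩ := List.mem_map.1 hp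
    have := List.mem_range.1 hj
    exact ⟨j, by omega, rfl⟩
  refine ⟨⟨?_, ?_, ?_, ?_⟩, ?_, ?_, ?_, ?_, ?_, ?_⟩
  · obtain ⟨n, rfl⟩ : ∃ n, m = n + 1 := ⟨m - 1, by omega⟩
    simp [List.range_succ]
  · intro p hp
    obtain ⟨j, hj, rfl⟩ := hmem p hp
    exact ⟨h0 j, (ha 0 j (Nat.zero_le _)).trans h1.le⟩
  · intro p hp
    obtain ⟨j, hj, rfl⟩ := hmem p hp
    exact hL j
  · rw [List.pairwise_map]
    exact List.pairwise_lt_range.imp (fun {i j} h => ha i j h.le)
  · intro p hp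
    obtain ⟨j, hj, rfl⟩ := hmem p hp
    have := ha 0 j (Nat.zero_le _)
    simp only
    linarith
  · intro p hp
    obtain ⟨j, hj, rfl⟩ := hmem p hp
    have := ha j (m - 1) (by omega)
    simp only
    linarith
  · intro p hp
    obtain ⟨j, hj, rfl⟩ := hmem p hp
    have := ha j (m - 1) (by omega)
    have := hb j (m - 1) (by omega)
    simp only
    linarith
  · intro hl p hp
    simp only [List.length_map, List.length_range] at hl
    obtain ⟨j, hj, rfl⟩ := hmem p hp
    have := ha j (m - 1) (by omega)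
    have := hb j (m - 1) (by omega)
    have := h4 hl
    simp only
    linarith
  · intro p hp
    obtain ⟨j, hj, rfl⟩ := hpot p hp
    have e1 := hg j
    have e2 := h5 (by omega)
    have e3 := ha 0 j (Nat.zero_le _)
    simp only
    linarith
  · intro p hp
    obtain ⟨j, hj, rfl⟩ := hpot p hp
    have := hanti j
    simp only
    linarith

theorem inv_step {x : ℝ} (hx : 0 < x) : 1 / (x + 2) - 1 / (x + 4) ≤ 1 / x - 1 / (x + 2) := by
  have e : 1 / x - 1 / (x + 2) - (1 / (x + 2) - 1 / (x + 4)) = 8 / (x * (x + 2) * (x + 4)) := by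
    field_simp
    ring
  have : 0 ≤ 8 / (x * (x + 2) * (x + 4)) := by positivity
  linarith

/-- the invariants of a flat chain from its two ends -/
theorem flatObj_inv {T0 w : ℝ} {k m : ℕ} (hk : 1 ≤ k) (hm : 1 ≤ m)
    (h1 : 1 / ((k : ℝ) + 1) < w) (h2 : w - 1 / (((k + 2 * (m - 1) : ℕ) : ℝ) + 1) < T0)
    (h3 : 51 / 50 * (w - 1 / (((k + 2 * (m - 1) : ℕ) : ℝ) + 1)) ≤ Lg (k + 2 * (m - 1)))
    (h4 : 2 ≤ m → 4 * (w - 1 / (((k + 2 * (m - 1) : ℕ) : ℝ) + 1)) ≤ Lg (k + 2 * (m - 1)))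
    (h5 : 2 ≤ m → 1 / ((k : ℝ) + 1) - 1 / ((k : ℝ) + 3) ≤ (w - 1 / ((k : ℝ) + 1)) / 20) :
    OInv T0 (flatObj w k m) := by
  have hk' : (1 : ℝ) ≤ k := by exact_mod_cast hk
  refine obj_inv hm ?_ ?_ ?_ ?_ ?_ ?_ ?_ ?_ ?_ ?_
  · intro j; simp only; positivity
  · intro j; exact Lg_nonneg _
  · intro j
    simp only
    push_cast
    have hj : (0 : ℝ) ≤ j := Nat.cast_nonneg j
    exact one_div_lt_one_div_of_lt (by positivity) (by linarith)
  · intro j
    exact Lg_anti2 (by omega) (by omega)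
  · intro j
    simp only
    push_cast
    have hj : (0 : ℝ) ≤ j := Nat.cast_nonneg j
    have := inv_step (x := (k : ℝ) + 2 * j + 1) (by positivity)
    have e1 : (k : ℝ) + 2 * ((j : ℝ) + 1) + 1 = (k : ℝ) + 2 * j + 1 + 2 := by ring
    have e2 : (k : ℝ) + 2 * ((j : ℝ) + 2) + 1 = (k : ℝ) + 2 * j + 1 + 4 := by ring
    rw [e1, e2]
    exact this
  · simpa using h1
  · exact h2
  · exact h3
  · exact h4
  · intro hm2
    have := h5 hm2
    simp only
    push_cast
    rw [show (k : ℝ) + 0 + 1 = k + 1 by ring, show (k : ℝ) + 2 + 1 = k + 3 by ring]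
    exact this

/-- the invariants of an upright chain from its two ends -/
theorem upObj_inv {T0 w : ℝ} {k m : ℕ} (hk : 1 ≤ k) (hm : 1 ≤ m)
    (h1 : Lg k < w) (h2 : w - Lg (k + 2 * (m - 1)) < T0)
    (h3 : 51 / 50 * (w - Lg (k + 2 * (m - 1))) ≤ 1 / (((k + 2 * (m - 1) : ℕ) : ℝ) + 1))
    (h4 : 2 ≤ m → 4 * (w - Lg (k + 2 * (m - 1))) ≤ 1 / (((k + 2 * (m - 1) : ℕ) : ℝ) + 1))
    (h5 : 2 ≤ m → Lg k - Lg (k + 2) ≤ (w - Lg k) / 20) :
    OInv T0 (upObj w k m) := by
  have hk' : (1 : ℝ) ≤ k := by exact_mod_cast hk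
  refine obj_inv hm ?_ ?_ ?_ ?_ ?_ ?_ ?_ ?_ ?_ ?_
  · intro j; exact Lg_nonneg _
  · intro j; simp only; positivity
  · intro j
    simp only [Lg]
    push_cast
    have hj : (0 : ℝ) ≤ j := Nat.cast_nonneg j
    have g1 : 1 / ((k : ℝ) + 2 * ((j : ℝ) + 1)) < 1 / ((k : ℝ) + 2 * j) :=
      one_div_lt_one_div_of_lt (by positivity) (by linarith)
    have g2 : 1 / ((k : ℝ) + 2 * ((j : ℝ) + 1) + 2) < 1 / ((k : ℝ) + 2 * j + 2) :=
      one_div_lt_one_div_of_lt (by positivity) (by linarith)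
    linarith
  · intro j
    simp only
    push_cast
    have hj : (0 : ℝ) ≤ j := Nat.cast_nonneg j
    exact one_div_le_one_div_of_le (by positivity) (by linarith)
  · intro j
    simp only [Lg]
    push_cast
    have hj : (0 : ℝ) ≤ j := Nat.cast_nonneg j
    have g1 := inv_step (x := (k : ℝ) + 2 * j) (by positivity)
    have g2 := inv_step (x := (k : ℝ) + 2 * j + 2) (by positivity)
    have e1 : (k : ℝ) + 2 * ((j : ℝ) + 1) = (k : ℝ) + 2 * j + 2 := by ring
    have e2 : (k : ℝ) + 2 * ((j : ℝ) + 2) = (k : ℝ) + 2 * j + 4 := by ring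
    have e3 : (k : ℝ) + 2 * j + 2 + 2 = (k : ℝ) + 2 * j + 4 := by ring
    have e4 : (k : ℝ) + 2 * j + 2 + 4 = (k : ℝ) + 2 * j + 4 + 2 := by ring
    rw [e3, e4] at g2
    rw [e1, e2, e3]
    linarith
  · simpa using h1
  · exact h2
  · exact h3
  · exact h4
  · exact h5

theorem flatObj_cells (w : ℝ) (k m : ℕ) : (flatObj w k m).cells =
    (List.range m).map (fun j : ℕ => (w - 1 / (((k + 2 * j : ℕ) : ℝ) + 1), Lg (k + 2 * j))) := by
  unfold flatObj Obj.cells
  rw [List.map_map]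
  rfl

theorem upObj_cells (w : ℝ) (k m : ℕ) : (upObj w k m).cells =
    (List.range m).map (fun j : ℕ => (w - Lg (k + 2 * j), 1 / (((k + 2 * j : ℕ) : ℝ) + 1))) := by
  unfold upObj Obj.cells
  rw [List.map_map]
  rfl

theorem flatObj_pot (w : ℝ) (k m : ℕ) : (flatObj w k m).pot =
    (List.range (m - 1)).map (fun j : ℕ => (1 / (((k + 2 * j : ℕ) : ℝ) + 1) - 1 / (((k + 2 * (j + 1) : ℕ) : ℝ) + 1),
      w - 1 / (((k + 2 * j : ℕ) : ℝ) + 1))) := by
  unfold flatObj Obj.pot
  rw [potL_range]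

theorem upObj_pot (w : ℝ) (k m : ℕ) : (upObj w k m).pot =
    (List.range (m - 1)).map (fun j : ℕ => (Lg (k + 2 * j) - Lg (k + 2 * (j + 1)), w - Lg (k + 2 * j))) := by
  unfold upObj Obj.pot
  rw [potL_range]

/-! ## Pieces -/

open Classical in
/-- A free rectangle as an object; two halves if it is nearly a square, nothing if it is degenerate. -/
noncomputable def pieceQ (p : ℝ × ℝ) : Multiset Obj :=
  if p.1 = 0 ∨ p.2 = 0 then 0 else
  if 51 / 50 * min p.1 p.2 ≤ max p.1 p.2 then {plainObj (min p.1 p.2, max p.1 p.2)} else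
  {plainObj (max p.1 p.2 / 2, min p.1 p.2)} + {plainObj (max p.1 p.2 / 2, min p.1 p.2)}

theorem cut_minmax (a b : ℝ) : Cut {(a, b)} {(min a b, max a b)} := by
  rcases le_total a b with h | h
  · rw [min_eq_left h, max_eq_right h]; exact Cut.refl _
  · rw [min_eq_right h, max_eq_left h]; exact Cut.swap _ _

theorem rects_plain_single (p : ℝ × ℝ) : rects {plainObj p} = {p} := by
  rw [rects_single, plainObj_rect]

theorem cut_drop1 {p : ℝ × ℝ} (h : p.1 * p.2 = 0) : Cut {p} 0 := by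
  have := Cut.drop 0 {p} (fun d hd => by
    rw [Multiset.mem_singleton.1 hd]; exact h)
  rwa [zero_add] at this

theorem piece_cut {a b : ℝ} (ha : 0 ≤ a) (hb : 0 ≤ b) : Cut {(a, b)} (rects (pieceQ (a, b))) := by
  unfold pieceQ
  simp only
  split_ifs with h1 h2
  · rw [rects_zero]
    refine cut_drop1 ?_
    rcases h1 with h | h <;> simp [h]
  · rw [rects_plain_single]
    exact cut_minmax a b
  · rw [rects_add, rects_plain_single]
    refine (cut_minmax a b).trans ?_
    have hM : 0 ≤ max a b / 2 := by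
      have := le_max_left a b
      linarith
    have h := Cut.split' (a := max a b / 2) (b := max a b / 2) (c := min a b) hM hM
    rw [show max a b / 2 + max a b / 2 = max a b by ring] at h
    refine h.trans ?_
    exact Cut.add (F := {(min a b, max a b / 2)}) (G := {(max a b / 2, min a b)}) (Cut.swap _ _) (Cut.swap _ _)

theorem piece_owed (p : ℝ × ℝ) : OwedOK (pieceQ p) 0 := by
  have h1 : ∀ q : ℝ × ℝ, OwedOK {plainObj q} 0 := by
    intro q
    have := OwedOK_plain {q}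
    rwa [Multiset.map_singleton] at this
  unfold pieceQ
  split_ifs
  · exact OwedOK_zero
  · exact h1 _
  · have := OwedOK_add (h1 (max p.1 p.2 / 2, min p.1 p.2)) (h1 (max p.1 p.2 / 2, min p.1 p.2))
    rwa [add_zero] at this

theorem plain_inv {T0 a b : ℝ} (ha : 0 < a) (hT : a < T0) (hab : 51 / 50 * a ≤ b) :
    OInv T0 (plainObj (a, b)) := by
  have hb : 0 ≤ b := by linarith
  refine ⟨plainObj_ok _ ha.le hb, ?_, ?_, ?_, ?_, ?_, ?_⟩
  · intro p hp
    simp only [plainObj, List.mem_singleton] at hp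
    subst hp
    simpa [plainObj] using ha
  · intro p hp
    simp only [plainObj, List.mem_singleton] at hp
    subst hp
    simpa [plainObj] using hT
  · intro p hp
    simp only [plainObj, List.mem_singleton] at hp
    subst hp
    simpa [plainObj] using hab
  · intro h
    simp [plainObj] at h
  · intro p hp
    rw [plainObj_pot] at hp
    simp at hp
  · intro p hp
    rw [plainObj_pot] at hp
    simp at hp

/-- the objects of a nonnegative piece which is thinner than `T0` satisfy the invariants -/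
theorem piece_inv {T0 a b : ℝ} (ha : 0 ≤ a) (hb : 0 ≤ b) (hT : min a b < T0) :
    ∀ o ∈ pieceQ (a, b), OInv T0 o := by
  unfold pieceQ
  simp only
  split_ifs with h1 h2
  · intro o ho; simp at ho
  · intro o ho
    rw [Multiset.mem_singleton] at ho
    subst ho
    have h3 : 0 < min a b := by
      rcases lt_or_eq_of_le ha with h | h
      · rcases lt_or_eq_of_le hb with h' | h'
        · exact lt_min h h'
        · exact absurd (Or.inr h'.symm) h1
      · exact absurd (Or.inl h.symm) h1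
    exact plain_inv h3 hT h2
  · intro o ho
    have h3 : 0 < min a b := by
      rcases lt_or_eq_of_le ha with h | h
      · rcases lt_or_eq_of_le hb with h' | h'
        · exact lt_min h h'
        · exact absurd (Or.inr h'.symm) h1
      · exact absurd (Or.inl h.symm) h1
    have h4 : min a b ≤ max a b := (min_le_left a b).trans (le_max_left a b)
    push Not at h2
    have h5 : OInv T0 (plainObj (max a b / 2, min a b)) := plain_inv (by linarith) (by linarith) (by linarith)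
    rw [Multiset.mem_add, Multiset.mem_singleton, or_self] at ho
    rw [ho]; exact h5

/-- the objects of a multiset of pieces -/
noncomputable def piecesQ (s : Multiset (ℝ × ℝ)) : Multiset Obj := (s.map pieceQ).sum

theorem piecesQ_zero : piecesQ 0 = 0 := by simp [piecesQ]
theorem piecesQ_cons (p : ℝ × ℝ) (s : Multiset (ℝ × ℝ)) : piecesQ (p ::ₘ s) = pieceQ p + piecesQ s := by
  simp [piecesQ]
theorem piecesQ_add (s t : Multiset (ℝ × ℝ)) : piecesQ (s + t) = piecesQ s + piecesQ t := by simp [piecesQ]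
theorem piecesQ_single (p : ℝ × ℝ) : piecesQ {p} = pieceQ p := by simp [piecesQ]

theorem pieces_cut (s : Multiset (ℝ × ℝ)) (h : ∀ p ∈ s, 0 ≤ p.1 ∧ 0 ≤ p.2) : Cut s (rects (piecesQ s)) := by
  induction s using Multiset.induction_on with
  | empty => rw [piecesQ_zero, rects_zero]; exact Cut.refl 0
  | cons p s ih =>
    rw [piecesQ_cons, rects_add, ← Multiset.singleton_add]
    refine Cut.add ?_ (ih (fun q hq => h q (Multiset.mem_cons_of_mem hq)))
    obtain ⟨h1, h2⟩ := h p (Multiset.mem_cons_self _ _)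
    exact piece_cut h1 h2

theorem pieces_owed (s : Multiset (ℝ × ℝ)) : OwedOK (piecesQ s) 0 := by
  induction s using Multiset.induction_on with
  | empty => rw [piecesQ_zero]; exact OwedOK_zero
  | cons p s ih =>
    rw [piecesQ_cons]
    have := OwedOK_add (piece_owed p) ih
    rwa [add_zero] at this

theorem pieces_inv {T0 : ℝ} (s : Multiset (ℝ × ℝ)) (h : ∀ p ∈ s, 0 ≤ p.1 ∧ 0 ≤ p.2 ∧ min p.1 p.2 < T0) :
    ∀ o ∈ piecesQ s, OInv T0 o := by
  induction s using Multiset.induction_on with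
  | empty => intro o ho; simp [piecesQ] at ho
  | cons p s ih =>
    intro o ho
    rw [piecesQ_cons, Multiset.mem_add] at ho
    rcases ho with ho | ho
    · obtain ⟨h1, h2, h3⟩ := h p (Multiset.mem_cons_self _ _)
      exact piece_inv h1 h2 h3 o ho
    · exact ih (fun q hq => h q (Multiset.mem_cons_of_mem hq)) o ho

/-! ## Chains cut into blocks -/

/-- consecutive flat blocks with `ms` dominoes -/
noncomputable def flatBl (w : ℝ) : ℕ → List ℕ → Multiset Obj
  | _, [] => 0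
  | k, m :: ms => {flatObj w k m} + flatBl w (k + 2 * m) ms

/-- consecutive upright blocks with `ms` dominoes -/
noncomputable def upBl (w : ℝ) : ℕ → List ℕ → Multiset Obj
  | _, [] => 0
  | k, m :: ms => {upObj w k m} + upBl w (k + 2 * m) ms

theorem range'_split2 (k s t : ℕ) : (List.range' k (2 * (s + t)) : Multiset ℕ) =
    (List.range' k (2 * s) : Multiset ℕ) + (List.range' (k + 2 * s) (2 * t) : Multiset ℕ) := by
  have := range'_split k s (s + t) (by omega)
  rwa [Nat.add_sub_cancel_left] at this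

theorem flatBl_cut (w : ℝ) : ∀ (ms : List ℕ) (k : ℕ),
    Cut {(w, T k ms.sum + T (k + 2) ms.sum)} (rects (flatBl w k ms)) := by
  intro ms
  induction ms with
  | nil =>
    intro k
    rw [flatBl, rects_zero]
    refine cut_drop1 ?_
    simp [T]
  | cons m ms ih =>
    intro k
    rw [flatBl, rects_add, rects_single, flatObj_rect, List.sum_cons, T_add, T_add]
    have e : T k m + T (k + 2 * m) ms.sum + (T (k + 2) m + T (k + 2 + 2 * m) ms.sum) =
        (T k m + T (k + 2) m) + (T (k + 2 * m) ms.sum + T (k + 2 * m + 2) ms.sum) := by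
      rw [show k + 2 + 2 * m = k + 2 * m + 2 by ring]
      ring
    rw [e]
    refine (cut_two (add_nonneg (T_nonneg _ _) (T_nonneg _ _)) (add_nonneg (T_nonneg _ _) (T_nonneg _ _))).trans
      (Cut.add (Cut.refl _) (ih (k + 2 * m)))

theorem upBl_cut (w : ℝ) : ∀ (ms : List ℕ) (k : ℕ),
    Cut {(w, T (k + 1) ms.sum)} (rects (upBl w k ms)) := by
  intro ms
  induction ms with
  | nil =>
    intro k
    rw [upBl, rects_zero]
    refine cut_drop1 ?_
    simp [T]
  | cons m ms ih =>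
    intro k
    rw [upBl, rects_add, rects_single, upObj_rect, List.sum_cons, T_add]
    rw [show k + 1 + 2 * m = k + 2 * m + 1 by ring]
    exact (cut_two (T_nonneg _ _) (T_nonneg _ _)).trans (Cut.add (Cut.refl _) (ih (k + 2 * m)))

theorem flatBl_owed (w : ℝ) : ∀ (ms : List ℕ) (k : ℕ), 1 ≤ k →
    OwedOK (flatBl w k ms) (List.range' k (2 * ms.sum) : Multiset ℕ) := by
  intro ms
  induction ms with
  | nil => intro k _; simpa [flatBl] using OwedOK_zero
  | cons m ms ih =>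
    intro k hk
    rw [flatBl, List.sum_cons, range'_split2]
    exact OwedOK_add (owed_flat w m hk) (ih (k + 2 * m) (by omega))

theorem upBl_owed (w : ℝ) : ∀ (ms : List ℕ) (k : ℕ), 1 ≤ k →
    OwedOK (upBl w k ms) (List.range' k (2 * ms.sum) : Multiset ℕ) := by
  intro ms
  induction ms with
  | nil => intro k _; simpa [upBl] using OwedOK_zero
  | cons m ms ih =>
    intro k hk
    rw [upBl, List.sum_cons, range'_split2]
    exact OwedOK_add (owed_up w m hk) (ih (k + 2 * m) (by omega))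

/-! ## Free contexts -/

/-- Every realisation of the free contexts can be cut into the rectangles of objects (with property `P`), some
units, and `B` (the box). -/
def FreeOK (fr : List Ctx) (P : Multiset Obj → Multiset (ℝ × ℝ) → Prop) : Prop :=
  ∀ G, RzL fr G → ∃ Q B A A', P Q B ∧ OwedOK Q A' ∧ A + A' = owedL fr ∧ Cut G (unitsM A + (rects Q + B))

/-- the sum of two properties -/
def PAdd (P P' : Multiset Obj → Multiset (ℝ × ℝ) → Prop) (Q : Multiset Obj) (B : Multiset (ℝ × ℝ)) : Prop :=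
  ∃ Q1 B1 Q2 B2, P Q1 B1 ∧ P' Q2 B2 ∧ Q = Q1 + Q2 ∧ B = B1 + B2

theorem FreeOK.mono {fr : List Ctx} {P P' : Multiset Obj → Multiset (ℝ × ℝ) → Prop} (h : FreeOK fr P)
    (h' : ∀ Q B, P Q B → P' Q B) : FreeOK fr P' := by
  intro G hG
  obtain ⟨Q, B, A, A', h1, h2⟩ := h G hG
  exact ⟨Q, B, A, A', h' Q B h1, h2⟩

theorem FreeOK_nil : FreeOK [] (fun Q B => Q = 0 ∧ B = 0) := by
  intro G hG
  simp only [RzL] at hG
  subst hG
  exact ⟨0, 0, 0, 0, ⟨rfl, rfl⟩, OwedOK_zero, rfl, Cut.of_eq (by simp [unitsM, rects])⟩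

theorem FreeOK_append {l l' : List Ctx} {P P' : Multiset Obj → Multiset (ℝ × ℝ) → Prop} (h : FreeOK l P)
    (h' : FreeOK l' P') : FreeOK (l ++ l') (PAdd P P') := by
  intro G hG
  obtain ⟨G1, G2, g1, g2, rfl⟩ := RzL_split hG
  obtain ⟨Q1, B1, A1, A1', a1, a2, a3, a4⟩ := h G1 g1
  obtain ⟨Q2, B2, A2, A2', b1, b2, b3, b4⟩ := h' G2 g2
  refine ⟨Q1 + Q2, B1 + B2, A1 + A2, A1' + A2', ⟨Q1, B1, Q2, B2, a1, b1, rfl, rfl⟩, OwedOK_add a2 b2, ?_, ?_⟩
  · rw [owedL_append, ← a3, ← b3]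
    abel
  · refine (Cut.add a4 b4).trans (Cut.of_eq ?_)
    rw [unitsM_add, rects_add]
    abel

theorem FreeOK_cons {c : Ctx} {l : List Ctx} {P P' : Multiset Obj → Multiset (ℝ × ℝ) → Prop} (h : FreeOK [c] P)
    (h' : FreeOK l P') : FreeOK (c :: l) (PAdd P P') := FreeOK_append h h'

/-- one context -/
theorem FreeOK_single {c : Ctx} {P : Multiset Obj → Multiset (ℝ × ℝ) → Prop}
    (h : ∀ G, Rz c G → ∃ Q B A A', P Q B ∧ OwedOK Q A' ∧ A + A' = owed c ∧ Cut G (unitsM A + (rects Q + B))) :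
    FreeOK [c] P := by
  rintro G ⟨G1, G2, h1, h2, rfl⟩
  simp only [RzL] at h2
  subst h2
  obtain ⟨Q, B, A, A', e1, e2, e3, e4⟩ := h G1 h1
  refine ⟨Q, B, A, A', e1, e2, ?_, ?_⟩
  · simpa [owedL] using e3
  · rwa [add_zero]

/-! ## Parts -/

/-- The meaning of a part: from the stack `st` to the stack `st'`, using the numbers `U`. -/
def OkP (st st' : List Ctx) (U : Multiset ℕ) (P : Multiset Obj → Multiset (ℝ × ℝ) → Prop) : Prop :=
  ∀ G, RzL st G → ∃ F Q B A A', RzL st' F ∧ P Q B ∧ OwedOK Q A' ∧ A + (owedL st' + A') = U + owedL st ∧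
    Cut G (unitsM A + (F + (rects Q + B)))

theorem OkP_of {st st' : List Ctx} {us : List (ℕ × ℕ)} {fr : List Ctx}
    {P : Multiset Obj → Multiset (ℝ × ℝ) → Prop} (h : OkS st [] [] st' us fr) (hf : FreeOK fr P) :
    OkP st st' (nums us : Multiset ℕ) P := by
  obtain ⟨ua, fa, e1, e2, s⟩ := h
  rw [List.append_nil] at e1 e2
  subst e1 e2
  intro G hG
  obtain ⟨F1, F2, A, f1, f2, a, c⟩ := s G hG
  obtain ⟨Q, B, A1, A1', p, o, oa, oc⟩ := hf F2 f2
  refine ⟨F1, Q, B, A + A1, A1', f1, p, o, ?_, ?_⟩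
  · rw [← a, ← oa]
    abel
  · refine c.trans (((Cut.add (Cut.refl F1) oc).add_left _).trans (Cut.of_eq ?_))
    rw [unitsM_add]
    abel

theorem OkP_trans {st st1 st2 : List Ctx} {U U' : Multiset ℕ} {P P' : Multiset Obj → Multiset (ℝ × ℝ) → Prop}
    (h : OkP st st1 U P) (h' : OkP st1 st2 U' P') : OkP st st2 (U + U') (PAdd P P') := by
  intro G hG
  obtain ⟨F, Q, B, A, A', f, p, o, a, c⟩ := h G hG
  obtain ⟨F', Q', B', A2, A2', f', p', o', a', c'⟩ := h' F f
  refine ⟨F', Q + Q', B + B', A + A2, A' + A2', f', ⟨Q, B, Q', B', p, p', rfl, rfl⟩, OwedOK_add o o', ?_, ?_⟩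
  · calc A + A2 + (owedL st2 + (A' + A2')) = A + A' + (A2 + (owedL st2 + A2')) := by abel
      _ = A + (owedL st1 + A') + U' := by rw [a']; abel
      _ = _ := by rw [a]; abel
  · refine c.trans (((Cut.add c' (Cut.refl _)).add_left _).trans (Cut.of_eq ?_))
    rw [unitsM_add, rects_add]
    abel

theorem OkP.mono {st st' : List Ctx} {U : Multiset ℕ} {P P' : Multiset Obj → Multiset (ℝ × ℝ) → Prop}
    (h : OkP st st' U P) (h' : ∀ Q B, P Q B → P' Q B) : OkP st st' U P' := by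
  intro G hG
  obtain ⟨F, Q, B, A, A', f, p, o⟩ := h G hG
  exact ⟨F, Q, B, A, A', f, h' Q B p, o⟩

/-- a placed unit is a unit -/
theorem units_rel (A : Multiset ℕ) : Multiset.Rel
    (fun p S => Cut {p} (S.val.map (fun k : ℕ => (1 / (k : ℝ), 1 / ((k : ℝ) + 1))))) (unitsM A)
    (A.map (fun k => ({k} : Finset ℕ))) := by
  unfold unitsM
  rw [Multiset.rel_map]
  refine Multiset.rel_refl_of_refl_on ?_
  intro k _
  refine Cut.of_eq ?_
  simp [U]

theorem units_sum (A : Multiset ℕ) : ((A.map (fun k => ({k} : Finset ℕ))).map Finset.val).sum = A := by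
  induction A using Multiset.induction_on with
  | empty => simp
  | cons k A ih =>
    rw [Multiset.map_cons, Multiset.map_cons, Multiset.sum_cons, ih, Finset.singleton_val,
      Multiset.singleton_add]

/-- The geometric field of `StartOK` (with `B` for the box). -/
theorem geo_final {n1 : ℕ} {G0 : Multiset (ℝ × ℝ)} {st0 : List Ctx} {V : Multiset ℕ}
    {P : Multiset Obj → Multiset (ℝ × ℝ) → Prop}
    (hroots : Cut {(1, 1)} (units (List.range' 1 n1) + G0)) (hrz : RzL st0 G0) (how : owedL st0 = 0)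
    (hok : OkP st0 [] V P) (hV : (List.range' 1 n1 : Multiset ℕ) + V = (Finset.Ico 1 MM2.NN).val) :
    ∃ Q B, P Q B ∧ ∃ (P0 : Multiset (ℝ × ℝ)) (LS : Multiset (Finset ℕ)),
      Cut {(1, 1)} (P0 + rects Q + B) ∧
      Multiset.Rel (fun p S => Cut {p} (S.val.map (fun k : ℕ => (1 / (k : ℝ), 1 / ((k : ℝ) + 1)))))
        (P0 + owedR Q) LS ∧
      (LS.map Finset.val).sum = (Finset.Ico 1 MM2.NN).val := by
  obtain ⟨F, Q, B, A, A', f, p, o, a, c⟩ := hok G0 hrz
  simp only [RzL] at f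
  subst f
  obtain ⟨LS, l1, l2⟩ := o
  refine ⟨Q, B, p, unitsM ((List.range' 1 n1 : Multiset ℕ) + A),
    ((List.range' 1 n1 : Multiset ℕ) + A).map (fun k => ({k} : Finset ℕ)) + LS, ?_, ?_, ?_⟩
  · refine hroots.trans ((c.add_left _).trans (Cut.of_eq ?_))
    rw [units_eq, unitsM_add]
    abel
  · exact Multiset.Rel.add (units_rel _) l1
  · rw [Multiset.map_add, Multiset.sum_add, units_sum, l2, ← hV]
    simp only [owedL, zero_add, how, add_zero] at a
    rw [← a]
    abel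

/-! ## The box -/

theorem In.pos' {lo hi : ℕ} {x : ℝ} (h : In lo hi x) (h1 : 1 ≤ lo) : 0 < x := by
  have e : (1 : ℝ) ≤ (lo : ℝ) := by exact_mod_cast h1
  have e2 : 0 < x * (SC : ℝ) := by linarith [h.1]
  exact pos_of_mul_pos_left e2 SC_pos.le

theorem box_ok {al ah bl bh : ℕ} {a b : ℝ} (ha : In al ah a) (hb : In bl bh b) (h1 : 1 ≤ al) (h2 : 1 ≤ bl)
    (h3 : ah ≤ 2 * bl) (h4 : bh ≤ 2 * al) (h5 : SC * SC ≤ 20 * MM2.NN * (al * bl)) :
    0 < min a b ∧ min a b ≤ max a b ∧ max a b ≤ 2 * min a b ∧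
      (1 / 20) / (MM2.NN : ℝ) ≤ min a b * max a b := by
  have pa := In.pos' ha h1
  have pb := In.pos' hb h2
  have hSC := SC_pos
  have e3 : (ah : ℝ) ≤ 2 * (bl : ℝ) := by exact_mod_cast h3
  have e4 : (bh : ℝ) ≤ 2 * (al : ℝ) := by exact_mod_cast h4
  have e5 : (SC : ℝ) * SC ≤ 20 * MM2.NN * (al * bl) := by exact_mod_cast h5
  have f1 : a ≤ 2 * b := by
    have : a * SC ≤ (2 * b) * SC := by linarith [ha.2, hb.1]
    exact le_of_mul_le_mul_right this hSC
  have f2 : b ≤ 2 * a := by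
    have : b * SC ≤ (2 * a) * SC := by linarith [ha.1, hb.2]
    exact le_of_mul_le_mul_right this hSC
  refine ⟨lt_min pa pb, (min_le_left a b).trans (le_max_left a b), ?_, ?_⟩
  · rcases le_total a b with h | h
    · rw [min_eq_left h, max_eq_right h]; exact f2
    · rw [min_eq_right h, max_eq_left h]; exact f1
  · rw [min_mul_max]
    have hN : (0 : ℝ) < (MM2.NN : ℝ) := by unfold MM2.NN; norm_num
    rw [div_le_iff₀ hN]
    have hal : (0 : ℝ) ≤ (al : ℝ) := Nat.cast_nonneg _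
    have hbl : (0 : ℝ) ≤ (bl : ℝ) := Nat.cast_nonneg _
    have g1 : (al : ℝ) * bl ≤ (a * SC) * (b * SC) :=
      mul_le_mul ha.1 hb.1 hbl (by positivity)
    have g2 : (SC : ℝ) * SC ≤ 20 * MM2.NN * ((a * SC) * (b * SC)) :=
      e5.trans (mul_le_mul_of_nonneg_left g1 (by positivity))
    have g3 : (SC : ℝ) * SC * 1 ≤ (SC : ℝ) * SC * (20 * MM2.NN * (a * b)) := by
      calc (SC : ℝ) * SC * 1 = SC * SC := by ring
        _ ≤ _ := g2
        _ = _ := by ring
    have g4 := le_of_mul_le_mul_left g3 (by positivity : (0 : ℝ) < (SC : ℝ) * SC)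
    nlinarith

/-- everything that is needed about the final objects and the box -/
structure FinProp (Q : Multiset Obj) (B : Multiset (ℝ × ℝ)) : Prop where
  box : ∃ a b : ℝ, B = {(a, b)} ∧ 0 < min a b ∧ max a b ≤ 2 * min a b ∧
    (1 / 20) / (MM2.NN : ℝ) ≤ min a b * max a b
  obj : ∀ o ∈ Q, OInv (MM2.Th (i0 - 1)) o
  load : ∀ K, i0 ≤ K → lenK K (cellsOf Q) + (53 / 50) * lenK K (potOf Q) ≤ betaK K * (3 / K)
  psi0 : (301 / 100) * (Q.map (fun o => ∑ K ∈ touched o, MM2.Th (K - 1))).sum +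
    (302 / 100) * ((cellsOf Q).map (fun c => (52 / (kc c.1 : ℝ)) * MM2.Th (kc c.1 - 1))).sum +
    (16 / 5) * ((potOf Q).map (fun p => MM2.Th (kc p.1 - 1))).sum ≤ 61 / 10000
  potk : ∀ p ∈ potOf Q, i0 ≤ kc p.1

/-- The start state exists. -/
theorem startOK_of {n1 : ℕ} {G0 : Multiset (ℝ × ℝ)} {st0 : List Ctx} {V : Multiset ℕ}
    {P : Multiset Obj → Multiset (ℝ × ℝ) → Prop}
    (hroots : Cut {(1, 1)} (units (List.range' 1 n1) + G0)) (hrz : RzL st0 G0) (how : owedL st0 = 0)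
    (hok : OkP st0 [] V P) (hV : (List.range' 1 n1 : Multiset ℕ) + V = (Finset.Ico 1 MM2.NN).val)
    (hP : ∀ Q B, P Q B → FinProp Q B) : ∃ Q X Y, StartOK Q X Y := by
  obtain ⟨Q, B, p, P0, LS, c, r, e⟩ := geo_final hroots hrz how hok hV
  have h := hP Q B p
  obtain ⟨a, b, rfl, b1, b2, b3⟩ := h.box
  refine ⟨Q, min a b, max a b, h.obj, h.load, h.psi0, h.potk,
    ⟨b1, (min_le_left a b).trans (le_max_left a b), b2, b3⟩, P0, LS, ?_, r, e⟩
  exact c.trans (Cut.add_left (cut_minmax a b) _)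

/-- the sum of a family of properties -/
def PSum (P : ℕ → Multiset Obj → Multiset (ℝ × ℝ) → Prop) : ℕ → Multiset Obj → Multiset (ℝ × ℝ) → Prop
  | 0 => fun Q B => Q = 0 ∧ B = 0
  | n + 1 => PAdd (PSum P n) (P n)

theorem OkP_refl (st : List Ctx) : OkP st st 0 (fun Q B => Q = 0 ∧ B = 0) := by
  intro G hG
  refine ⟨G, 0, 0, 0, 0, hG, ⟨rfl, rfl⟩, OwedOK_zero, by simp, Cut.of_eq ?_⟩
  simp [unitsM, rects]

/-- the parts together -/
theorem OkP_chain (S : ℕ → List Ctx) (U : ℕ → Multiset ℕ) (P : ℕ → Multiset Obj → Multiset (ℝ × ℝ) → Prop)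
    (n : ℕ) (h : ∀ i < n, OkP (S i) (S (i + 1)) (U i) (P i)) :
    OkP (S 0) (S n) (∑ i ∈ Finset.range n, U i) (PSum P n) := by
  induction n with
  | zero => simpa [PSum] using OkP_refl (S 0)
  | succ n ih =>
    rw [Finset.sum_range_succ]
    exact OkP_trans (ih (fun i hi => h i (by omega))) (h n (by omega))

theorem owedL_encB (D : ℕ) (l : List R4) : owedL (l.map (encB D)) = 0 := by
  induction l with
  | nil => rfl
  | cons p l ih =>
    rw [List.map_cons, owedL, ih]
    rfl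

/-- the roots -/
theorem roots_ok {D : ℕ} {items boxes : List R4} {st0 : List Ctx} (h : chk1 D items boxes = true)
    (hc : ceqL st0 (boxes.map (encB D)) = true) :
    Cut {((1 : ℝ), (1 : ℝ))} (units (List.range' 1 items.length) +
      ((boxes.map (side D) : List (ℝ × ℝ)) : Multiset (ℝ × ℝ))) ∧
    RzL st0 ((boxes.map (side D) : List (ℝ × ℝ)) : Multiset (ℝ × ℝ)) ∧ owedL st0 = 0 := by
  rw [ceqL_eq hc]
  have hD : 0 < D := by
    have h' := h
    simp only [chk1, Bool.and_eq_true, Nat.ble_eq] at h'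
    exact h'.1.1
  exact ⟨phase1_sound h, encB_RzL hD boxes, owedL_encB D boxes⟩

/-! ## The single contexts -/

theorem free_pieces {c : Ctx} {R : Multiset (ℝ × ℝ) → Prop} (ho : owed c = 0)
    (h : ∀ G, Rz c G → R G ∧ ∀ p ∈ G, 0 ≤ p.1 ∧ 0 ≤ p.2) :
    FreeOK [c] (fun Q B => B = 0 ∧ ∃ G, R G ∧ Q = piecesQ G) := by
  refine FreeOK_single fun G hG => ?_
  obtain ⟨h1, h2⟩ := h G hG
  refine ⟨piecesQ G, 0, 0, 0, ⟨rfl, G, h1, rfl⟩, pieces_owed G, by rw [ho, add_zero], ?_⟩
  rw [unitsM_zero, zero_add, add_zero]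
  exact pieces_cut G h2

theorem free_pc (al ah bl bh : ℕ) : FreeOK [.pc al ah bl bh]
    (fun Q B => B = 0 ∧ ∃ a b, In al ah a ∧ In bl bh b ∧ Q = pieceQ (a, b)) := by
  refine (free_pieces (R := fun G => ∃ a b, In al ah a ∧ In bl bh b ∧ G = {(a, b)}) rfl ?_).mono ?_
  · rintro G ⟨a, b, ha, hb, rfl⟩
    refine ⟨⟨a, b, ha, hb, rfl⟩, fun p hp => ?_⟩
    rw [Multiset.mem_singleton.1 hp]
    exact ⟨ha.nonneg, hb.nonneg⟩
  · rintro Q B ⟨hB, G, ⟨a, b, ha, hb, rfl⟩, rfl⟩
    exact ⟨hB, a, b, ha, hb, piecesQ_single _⟩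

/-- the box -/
theorem free_box (al ah bl bh : ℕ) : FreeOK [.pc al ah bl bh]
    (fun Q B => Q = 0 ∧ ∃ a b, In al ah a ∧ In bl bh b ∧ B = {(a, b)}) := by
  refine FreeOK_single ?_
  rintro G ⟨a, b, ha, hb, rfl⟩
  refine ⟨0, {(a, b)}, 0, 0, ⟨rfl, a, b, ha, hb, rfl⟩, OwedOK_zero, rfl, Cut.of_eq ?_⟩
  simp [unitsM, rects]

theorem free_ls (l : List Q4) : FreeOK [.ls l]
    (fun Q B => B = 0 ∧ ∃ l' : List (ℝ × ℝ), List.Forall₂ In4 l l' ∧ Q = piecesQ (l' : Multiset (ℝ × ℝ))) := by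
  refine (free_pieces (R := fun G => ∃ l' : List (ℝ × ℝ), List.Forall₂ In4 l l' ∧ G = (l' : Multiset (ℝ × ℝ)))
    rfl ?_).mono ?_
  · rintro G ⟨l', hl, rfl⟩
    refine ⟨⟨l', hl, rfl⟩, fun p hp => ?_⟩
    rw [Multiset.mem_coe] at hp
    induction hl with
    | nil => simp at hp
    | cons h _ ih =>
      rcases List.mem_cons.1 hp with rfl | hp
      · exact ⟨h.1.nonneg, h.2.nonneg⟩
      · exact ih hp
  · rintro Q B ⟨hB, G, ⟨l', hl, rfl⟩, rfl⟩
    exact ⟨hB, l', hl, rfl⟩

theorem free_mc {Hl Hh k J m : ℕ} (hk : 1 ≤ k) (hJ : 1 ≤ J) (hH : TThi k J ≤ Hl) : FreeOK [.mc Hl Hh k J m]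
    (fun Q B => B = 0 ∧ ∃ H, In Hl Hh H ∧ Q = piecesQ (mcv H k J m)) := by
  refine (free_pieces (R := fun G => ∃ H, In Hl Hh H ∧ G = mcv H k J m) rfl ?_).mono ?_
  · rintro G ⟨H, hl, rfl⟩
    refine ⟨⟨H, hl, rfl⟩, fun p hp => ?_⟩
    unfold mcv at hp
    obtain ⟨j, _, rfl⟩ := Multiset.mem_map.1 hp
    have h1 := In.le hl (In_TT k J hk hJ) hH
    have h2 := T_anti k (k + 2 * (j * J)) J (by omega) hk
    have h3 := T_anti (k + 2) (k + 2 * (j * J) + 2) J (by omega) (by omega)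
    refine ⟨?_, ?_⟩
    · simp only; positivity
    · simp only; linarith
  · rintro Q B ⟨hB, G, ⟨H, hl, rfl⟩, rfl⟩
    exact ⟨hB, H, hl, rfl⟩

theorem free_bt {k J K : ℕ} (hk : 1 ≤ k) : FreeOK [.bt k J K]
    (fun Q B => B = 0 ∧ Q = piecesQ (wBits (wa k J) (wb k J) J K)) := by
  refine (free_pieces (R := fun G => G = wBits (wa k J) (wb k J) J K) rfl ?_).mono ?_
  · rintro G h
    have h' : G = wBits (wa k J) (wb k J) J K := h
    subst h'
    refine ⟨rfl, fun p hp => ?_⟩
    unfold wBits at hp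
    obtain ⟨⟨r, t⟩, _, rfl⟩ := Multiset.mem_map.1 hp
    refine ⟨?_, ?_⟩
    · have := Xc_mono k J r (r + 1) (t + 1) (by omega)
      simp only
      linarith
    · have := Hc_anti k J (r + 1) t hk
      simp only
      linarith
  · rintro Q B ⟨hB, G, rfl, rfl⟩
    exact ⟨hB, rfl⟩

theorem free_ch {wl wh k : ℕ} (ms : List ℕ) : FreeOK [.ch wl wh k ms.sum]
    (fun Q B => B = 0 ∧ ∃ w, In wl wh w ∧ 1 ≤ k ∧ 1 / ((k : ℝ) + 1) ≤ w ∧ Q = flatBl w k ms) := by
  refine FreeOK_single ?_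
  rintro G ⟨w, hw, hk, hw1, rfl⟩
  refine ⟨flatBl w k ms, 0, 0, _, ⟨rfl, w, hw, hk, hw1, rfl⟩, flatBl_owed w ms k hk, ?_, ?_⟩
  · rw [zero_add]; rfl
  · rw [unitsM_zero, zero_add, add_zero]
    exact flatBl_cut w ms k

theorem free_uch {wl wh k : ℕ} (ms : List ℕ) : FreeOK [.uch wl wh k ms.sum]
    (fun Q B => B = 0 ∧ ∃ w, In wl wh w ∧ 1 ≤ k ∧ Lg k ≤ w ∧ Q = upBl w k ms) := by
  refine FreeOK_single ?_
  rintro G ⟨w, hw, hk, hw1, rfl⟩
  refine ⟨upBl w k ms, 0, 0, _, ⟨rfl, w, hw, hk, hw1, rfl⟩, upBl_owed w ms k hk, ?_, ?_⟩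
  · rw [zero_add]; rfl
  · rw [unitsM_zero, zero_add, add_zero]
    exact upBl_cut w ms k

end Pool.Agent.MMS
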