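import Pool.Agent.MP_94f265_co.ST.Base

/-!
# Sorting by big numbers: definitions (no Mathlib)

A vector is one number, its fields have 32 bits.
-/

namespace Pool.Agent.MMS.Sv

/-- all-ones mask of `r` fields -/
noncomputable def ones (r : Nat) : Nat := Nat.sub (Nat.shiftLeft (nat_lit 1) (Nat.mul (nat_lit 32) r)) (nat_lit 1)

/-- `x`, `x` shifted by `q` fields, by `2 q`, ...: `j` doublings -/
noncomputable def repD (j : Nat) : Nat → Nat → Nat :=
  Nat.rec (motive := fun _ => Nat → Nat → Nat) (fun _ x => x)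
    (fun _ f q x => frc x (f (Nat.mul (nat_lit 2) q) (Nat.lor x (Nat.shiftLeft x (Nat.mul (nat_lit 32) q))))) j

/-- the lower partners of the stage `(a, b)` of the network, `b ≤ a < t`, `2 ^ t` fields -/
noncomputable def lowM (t a b : Nat) : Nat :=
  Bool.rec (motive := fun _ => Nat)
    (repD (Nat.sub t (Nat.add a (nat_lit 1))) (Nat.pow (nat_lit 2) (Nat.add a (nat_lit 1)))
      (Nat.land (ones (Nat.sub (Nat.pow (nat_lit 2) (Nat.add a (nat_lit 1))) (Nat.pow (nat_lit 2) b)))
        (repD (Nat.sub a b) (Nat.pow (nat_lit 2) (Nat.add b (nat_lit 1)))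
          (Nat.shiftLeft (ones (Nat.pow (nat_lit 2) b)) (Nat.mul (nat_lit 32) (Nat.pow (nat_lit 2) b))))))
    (repD (Nat.sub t (Nat.add a (nat_lit 1))) (Nat.pow (nat_lit 2) (Nat.add a (nat_lit 1)))
      (ones (Nat.pow (nat_lit 2) a)))
    (Nat.beq a b)

/-- `D` and the new vector -/
noncomputable def st5 (sw x D : Nat) : Nat := frc D (Nat.xor x (Nat.lor D (Nat.shiftLeft D sw)))

noncomputable def st4 (sw x g : Nat) : Nat :=
  st5 sw x (Nat.land (Nat.xor x (Nat.shiftRight x sw)) (Nat.sub (Nat.shiftLeft g (nat_lit 32)) g))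

/-- the two checks of `g` -/
noncomputable def st3 (nw sw x g : Nat) : Nat :=
  Bool.rec (motive := fun _ => Nat) x
    (Bool.rec (motive := fun _ => Nat) x (st4 sw x g) (Nat.beq (Nat.shiftRight g (Nat.sub nw sw)) (nat_lit 0)))
    (Nat.beq (Nat.land g (Nat.shiftLeft g sw)) (nat_lit 0))

/-- `F` = mask of the lower partners, `EF` = its lowest bits -/
noncomputable def st2 (nw sw F EF x : Nat) : Nat :=
  frc EF (frc (Nat.land (Nat.shiftRight (Nat.sub (Nat.add (Nat.land x F) (Nat.shiftLeft EF (nat_lit 31)))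
      (Nat.land (Nat.shiftRight x sw) F)) (nat_lit 31)) EF)
    (st3 nw sw x (Nat.land (Nat.shiftRight (Nat.sub (Nat.add (Nat.land x F) (Nat.shiftLeft EF (nat_lit 31)))
      (Nat.land (Nat.shiftRight x sw) F)) (nat_lit 31)) EF)))

/-- one stage: distance `sw` bits, `nw` bits in all -/
noncomputable def st1 (nw E sw F x : Nat) : Nat := frc F (st2 nw sw F (Nat.land E F) x)

/-- inner loop: `b = m - 1, ..., 0` -/
noncomputable def netI (t nw E a : Nat) (m : Nat) : Nat → Nat :=
  Nat.rec (motive := fun _ => Nat → Nat) (fun x => x)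
    (fun b f x => frc x (f (st1 nw E (Nat.mul (nat_lit 32) (Nat.pow (nat_lit 2) b)) (lowM t a b) x))) m

/-- outer loop: `a = 0, ..., m - 1` -/
noncomputable def netO (t nw E : Nat) (m : Nat) : Nat → Nat :=
  Nat.rec (motive := fun _ => Nat → Nat) (fun x => x)
    (fun a f x => netI t nw E a (Nat.add a (nat_lit 1)) (f x)) m

/-- **Sort** of `2 ^ t` fields. -/
noncomputable def netSort (t x : Nat) : Nat :=
  netO t (Nat.mul (nat_lit 32) (Nat.pow (nat_lit 2) t)) (repD t (nat_lit 1) (nat_lit 1)) t x

/-! ## packing of a list of intervals -/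

noncomputable def thenB (b : Bool) (x : Bool) : Bool := Bool.rec (motive := fun _ => Bool) false x b

/-- one more element is in `acc` (`sh` bits); 128 elements go to `big` (`pos` bits) -/
noncomputable def pk2 (f : Nat → Nat → Nat → Nat → (Nat → Nat → Bool) → Bool) (acc sh pos big : Nat) (K : Nat → Nat → Bool) : Bool :=
  frc acc (Bool.rec (motive := fun _ => Bool) (f sh acc pos big K)
    (frc (Nat.add big (Nat.shiftLeft acc pos))
      (f (nat_lit 0) (nat_lit 0) (Nat.add pos (nat_lit 8192)) (Nat.add big (Nat.shiftLeft acc pos)) K))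
    (Nat.beq sh (nat_lit 8192)))

/-- packing: fields `k, k + m` for every interval `(k, m)`, all below `2 ^ 32`; `K` gets the vector and the number
of bits -/
noncomputable def pkK (l : List (Nat × Nat)) : Nat → Nat → Nat → Nat → (Nat → Nat → Bool) → Bool :=
  List.rec (motive := fun _ => Nat → Nat → Nat → Nat → (Nat → Nat → Bool) → Bool)
    (fun sh acc pos big K => frc (Nat.add big (Nat.shiftLeft acc pos)) (K (Nat.add big (Nat.shiftLeft acc pos)) (Nat.add pos sh)))
    (fun e _ f sh acc pos big K => thenB (Nat.ble (Nat.add e.1 e.2) (nat_lit 4294967295))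
      (pk2 f (Nat.add acc (Nat.shiftLeft (Nat.add e.1 (Nat.shiftLeft (Nat.add e.1 e.2) (nat_lit 32))) sh))
        (Nat.add sh (nat_lit 64)) pos big K)) l

/-! ## vectors in pieces -/

/-- the pieces `(c, v)` (number of fields, vector) one after the other; `K` gets the number of fields and the vector -/
noncomputable def jnK (l : List (Nat × Nat)) : Nat → Nat → (Nat → Nat → Bool) → Bool :=
  List.rec (motive := fun _ => Nat → Nat → (Nat → Nat → Bool) → Bool) (fun n x K => K n x)
    (fun e _ f n x K => thenB (Nat.beq (Nat.shiftRight e.2 (Nat.mul (nat_lit 32) e.1)) (nat_lit 0))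
      (frc (Nat.add n e.1) (frc (Nat.add x (Nat.shiftLeft e.2 (Nat.mul (nat_lit 32) n)))
        (f (Nat.add n e.1) (Nat.add x (Nat.shiftLeft e.2 (Nat.mul (nat_lit 32) n))) K)))) l

/-- the sorted vector is the vector in pieces (after `z` zero fields); `2 ^ t` fields -/
noncomputable def chkV (t x z : Nat) (l : List (Nat × Nat)) : Bool :=
  jnK l z (nat_lit 0) (fun n y => thenB (Nat.ble n (Nat.pow (nat_lit 2) t)) (Nat.beq (netSort t x) y))

/-- **Check of a part**: the starts and the ends of the intervals `us`, `2 ^ t` fields of 32 bits, so at most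
`2 ^ (t - 1)` intervals; `zS`, `zE` = numbers of leading zero fields; `LS`, `LE` = sorted vectors, cut at the window
borders, every window in pieces `(c, v)` (number of fields, vector). -/
noncomputable def chkU (t : Nat) (us : List (Nat × Nat)) (zS : Nat) (LS : List (List (Nat × Nat))) (zE : Nat)
    (LE : List (List (Nat × Nat))) : Bool :=
  pkK us (nat_lit 0) (nat_lit 0) (nat_lit 0) (nat_lit 0) (fun V b =>
    thenB (Nat.ble b (Nat.mul (nat_lit 64) (Nat.pow (nat_lit 2) (Nat.sub t (nat_lit 1)))))
      (thenB (chkV t (Nat.land V (repD (Nat.sub t (nat_lit 1)) (nat_lit 2) (nat_lit 4294967295))) zS LS.flatten)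
        (chkV t (Nat.land (Nat.shiftRight V (nat_lit 32)) (repD (Nat.sub t (nat_lit 1)) (nat_lit 2) (nat_lit 4294967295)))
          zE LE.flatten)))

/-- **Check of a window**: the same multiset of fields. -/
noncomputable def chkW (t : Nat) (lS lE : List (Nat × Nat)) : Bool :=
  jnK lS (nat_lit 0) (nat_lit 0) (fun n x => thenB (Nat.ble n (Nat.pow (nat_lit 2) t))
    (jnK lE (nat_lit 0) (nat_lit 0) (fun m y => thenB (Nat.ble m (Nat.pow (nat_lit 2) t))
      (Nat.beq (netSort t x) (netSort t y)))))

/-- the pieces of window `w` of all parts -/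
def col (w : Nat) (L : List (List (List (Nat × Nat)))) : List (Nat × Nat) := (L.map (fun l => l.getD w [])).flatten

end Pool.Agent.MMS.Sv
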