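import Pool.Agent.MP_94f265_co.ST.FinDef

/-!
# The last check, kernel definitions (no Mathlib)

`A` = the sum of all tables, `T` = the total, `P` = the potential.
-/

namespace Pool.Agent.MMS.Fi

/-- `if b then x else y` -/
noncomputable def selZ (b : Bool) (x y : Bool) : Bool := Bool.rec (motive := fun _ => Bool) y x b

/-- The condition on the units `x` at the position `q`; `s` = units of the field `31040`. The literals are
`3 c SC / 2^64`, `c` = the load that is left. -/
noncomputable def leafR (s q x : Nat) : Bool :=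
  selZ (Nat.ble (nat_lit 31040) q) true
  (selZ (Nat.ble q (nat_lit 6870)) (selZ (Nat.ble q (nat_lit 4270)) (selZ (Nat.ble q (nat_lit 3711)) (selZ (Nat.ble q (nat_lit 3369)) (Nat.ble (Nat.mul (Nat.add x s) (Nat.add q (nat_lit 1600))) (nat_lit 4330809721346))
  (selZ (Nat.ble q (nat_lit 3537)) (Nat.ble (Nat.mul (Nat.add x s) (Nat.add q (nat_lit 1600))) (nat_lit 3978010689012))
  (Nat.ble (Nat.mul (Nat.add x s) (Nat.add q (nat_lit 1600))) (nat_lit 3625211656678))))
  (selZ (Nat.ble q (nat_lit 3891)) (Nat.ble (Nat.mul (Nat.add x s) (Nat.add q (nat_lit 1600))) (nat_lit 3297612555225))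
  (selZ (Nat.ble q (nat_lit 4077)) (Nat.ble (Nat.mul (Nat.add x s) (Nat.add q (nat_lit 1600))) (nat_lit 2995213384653))
  (Nat.ble (Nat.mul (Nat.add x s) (Nat.add q (nat_lit 1600))) (nat_lit 2718014144962)))))
  (selZ (Nat.ble q (nat_lit 4887)) (selZ (Nat.ble q (nat_lit 4399)) (Nat.ble (Nat.mul (Nat.add x s) (Nat.add q (nat_lit 1600))) (nat_lit 2491214767033))
  (selZ (Nat.ble q (nat_lit 4469)) (Nat.ble (Nat.mul (Nat.add x s) (Nat.add q (nat_lit 1600))) (nat_lit 2488946773254))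
  (Nat.ble (Nat.mul (Nat.add x s) (Nat.add q (nat_lit 1600))) (nat_lit 2060547948277))))
  (selZ (Nat.ble q (nat_lit 5813)) (selZ (Nat.ble q (nat_lit 5335)) (Nat.ble (Nat.mul (Nat.add x s) (Nat.add q (nat_lit 1600))) (nat_lit 1732948846824))
  (Nat.ble (Nat.mul (Nat.add x s) (Nat.add q (nat_lit 1600))) (nat_lit 1455749607133)))
  (selZ (Nat.ble q (nat_lit 6324)) (Nat.ble (Nat.mul (Nat.add x s) (Nat.add q (nat_lit 1600))) (nat_lit 1228950229204))
  (Nat.ble (Nat.mul (Nat.add x s) (Nat.add q (nat_lit 1600))) (nat_lit 1052550713037))))))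
  (selZ (Nat.ble q (nat_lit 18879)) (selZ (Nat.ble q (nat_lit 8746)) (selZ (Nat.ble q (nat_lit 7761)) (Nat.ble (Nat.mul (Nat.add x s) (Nat.add q (nat_lit 1600))) (nat_lit 825751335108))
  (selZ (Nat.ble q (nat_lit 8399)) (Nat.ble (Nat.mul (Nat.add x s) (Nat.add q (nat_lit 1600))) (nat_lit 674551749822))
  (Nat.ble (Nat.mul (Nat.add x s) (Nat.add q (nat_lit 1600))) (nat_lit 671830157287))))
  (selZ (Nat.ble q (nat_lit 12366)) (selZ (Nat.ble q (nat_lit 10221)) (Nat.ble (Nat.mul (Nat.add x s) (Nat.add q (nat_lit 1600))) (nat_lit 520630572001))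
  (Nat.ble (Nat.mul (Nat.add x s) (Nat.add q (nat_lit 1600))) (nat_lit 394630917596)))
  (selZ (Nat.ble q (nat_lit 12399)) (Nat.ble (Nat.mul x (Nat.add q (nat_lit 1600))) (nat_lit 246959322633))
  (Nat.ble (Nat.mul x (Nat.add q (nat_lit 1600))) (nat_lit 230780967008)))))
  (selZ (Nat.ble q (nat_lit 24511)) (selZ (Nat.ble q (nat_lit 20069)) (Nat.ble (Nat.mul x (Nat.sub (Nat.mul (nat_lit 8) q) (nat_lit 130553))) (nat_lit 230780967008))
  (selZ (Nat.ble q (nat_lit 23819)) (Nat.ble (Nat.mul x (Nat.sub (Nat.mul (nat_lit 8) q) (nat_lit 130553))) (nat_lit 214199412488))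
  (Nat.ble (Nat.mul x (Nat.sub (Nat.mul (nat_lit 8) q) (nat_lit 130553))) (nat_lit 283247223102))))
  (selZ (Nat.ble q (nat_lit 28607)) (selZ (Nat.ble q (nat_lit 27915)) (Nat.ble (Nat.mul x (Nat.sub (Nat.mul (nat_lit 16) q) (nat_lit 326641))) (nat_lit 283247223102))
  (Nat.ble (Nat.mul x (Nat.sub (Nat.mul (nat_lit 16) q) (nat_lit 326641))) (nat_lit 196559460871)))
  (selZ (Nat.ble q (nat_lit 30655)) (Nat.ble (Nat.mul x (Nat.sub (Nat.mul (nat_lit 64) q) (nat_lit 1699777))) (nat_lit 196559460871))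
  (Nat.ble (Nat.mul x (Nat.sub (Nat.mul (nat_lit 2048) q) (nat_lit 62519297))) (nat_lit 196559460871)))))))

/-- loop body -/
noncomputable def zB (f : Nat → Nat → Nat → Bool) (x q h : Nat) : Bool :=
  frc (Nat.mod x (Nat.shiftLeft (nat_lit 1) (Nat.mul (nat_lit 64) h)))
    (frc (Nat.shiftRight x (Nat.mul (nat_lit 64) h))
      (thenB (f (Nat.mod x (Nat.shiftLeft (nat_lit 1) (Nat.mul (nat_lit 64) h))) q (Nat.shiftRight h (nat_lit 1)))
        (f (Nat.shiftRight x (Nat.mul (nat_lit 64) h)) (Nat.add q h) (Nat.shiftRight h (nat_lit 1)))))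

/-- the condition at the positions `q, ..., q + 2^d - 1`; `h = 2^(d-1)` -/
noncomputable def zR (s d : Nat) : Nat → Nat → Nat → Bool :=
  Nat.rec (motive := fun _ => Nat → Nat → Nat → Bool) (fun x q _ => leafR s q x) (fun _ f => zB f) d

/-- the units of `A` at the position `q` -/
def digR (A q : Nat) : Nat := Nat.mod (Nat.shiftRight A (Nat.mul (nat_lit 64) q)) (nat_lit 18446744073709551616)

/-- the last check -/
noncomputable def chkZ (A T P : Nat) : Bool :=
  thenB (Nat.ble T (nat_lit 18446744073709551615))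
    (thenB (Nat.ble P (nat_lit 60687548879295601634157303370))
      (thenB (Nat.beq (Nat.shiftRight A (nat_lit 2097152)) (nat_lit 0))
        (thenB (Nat.beq (digR A (nat_lit 31041)) (nat_lit 1))
          (frc (digR A (nat_lit 31040)) (zR (digR A (nat_lit 31040)) (nat_lit 15) A (nat_lit 0) (nat_lit 16384))))))

end Pool.Agent.MMS.Fi
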