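import Pool.Agent.MP_94f265_co.ST.FinDef

/-!
# Final state check: the walls with bits, kernel definitions (no Mathlib)
-/

namespace Pool.Agent.MMS.Fi

/-- `J * J * (J - 1)` -/
def btJ (J : Nat) : Nat := Nat.mul J (Nat.mul J (Nat.sub J (nat_lit 1)))

/-- the charge of a wall for the loads; the literal is `2 * SC` -/
def btW (k J : Nat) : Nat :=
  Nat.add (nat_lit 1) (Nat.div (Nat.mul (nat_lit 61980890084919934128000000000000) (btJ J)) (Nat.mul k k))

/-- the number of rows with a long part -/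
noncomputable def btR (J K : Nat) : Nat :=
  mn (Nat.sub J (nat_lit 1)) (Nat.div (Nat.sub K (nat_lit 1)) (Nat.mul (nat_lit 2) J))

/-- `150 k²` times the sum of the thicknesses, `S = R (R + 1)` -/
noncomputable def btT (R S J K : Nat) : Nat :=
  Nat.sub
    (Nat.add (Nat.add (Nat.mul (nat_lit 300) (Nat.mul J (Nat.mul (Nat.sub K (nat_lit 1)) S)))
      (Nat.mul (nat_lit 153) (Nat.mul J S)))
      (Nat.mul (nat_lit 153) (Nat.mul (Nat.sub (Nat.sub J (nat_lit 1)) R) (Nat.mul K (Nat.sub K (nat_lit 1))))))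
    (Nat.mul (nat_lit 98) (Nat.mul (Nat.mul J J) (Nat.mul S (Nat.add (Nat.mul (nat_lit 2) R) (nat_lit 1)))))

/-- the charge of a wall for the potential; the literal is `SC` -/
noncomputable def btP (k J K : Nat) : Nat :=
  Nat.add (nat_lit 1)
    (Nat.div (Nat.mul (nat_lit 30990445042459967064000000000000)
      (btT (btR J K) (Nat.mul (btR J K) (Nat.succ (btR J K))) J K)) (Nat.mul (nat_lit 150) (Nat.mul k k)))

/-- the conditions on a wall -/
noncomputable def btB (k J K : Nat) : Bool :=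
  thenB (Nat.ble (nat_lit 66654) k) (thenB (Nat.ble (nat_lit 2) J) (thenB (Nat.ble J (nat_lit 8))
    (thenB (Nat.ble (Nat.mul (nat_lit 100) (Nat.mul J (Nat.mul J K))) k)
      (thenB (Nat.ble (Nat.mul (nat_lit 1000) (Nat.mul J (Nat.mul J J))) k)
        (thenB (Nat.ble (Nat.mul (nat_lit 1200000000) (Nat.mul J (Nat.sub J (nat_lit 1)))) (Nat.mul k k))
          (Nat.ble (Nat.mul J (Nat.sub J (nat_lit 1))) (Nat.mul (nat_lit 2) K)))))))

/-- the bits of a wall -/
noncomputable def evBt (k J K : Nat) (f : At) : At :=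
  selA (btB k J K) (addG (nat_lit 31040) (lenU (btW k J)) (lenU (btW k J)) (btP k J K) f) noA

end Pool.Agent.MMS.Fi
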