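import Pool.Agent.MP_94f265_co.ST.FinCDef
import Pool.Agent.MP_94f265_co.ST.FinWDef
import Pool.Agent.MP_94f265_co.ST.FinRDef

/-!
# Final state check: all contexts, sums of states (no Mathlib)
-/

namespace Pool.Agent.MMS.Fi

/-- one context -/
noncomputable def evC (c : Ctx) : At → At :=
  Ctx.rec (motive := fun _ => At → At) evPc evCh evUch evLs evMc evBt c

/-- the start state -/
def zeroS : Sta := Sta.mk (nat_lit 0) (nat_lit 0) (nat_lit 0) (nat_lit 0) (nat_lit 0) (nat_lit 0) (nat_lit 0) (nat_lit 0) (nat_lit 0) (nat_lit 0) (nat_lit 0) (nat_lit 0) (nat_lit 0) (nat_lit 0) (nat_lit 0) (nat_lit 0) (nat_lit 0) (nat_lit 0) (nat_lit 0)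

/-- sum of states -/
noncomputable def addS (s s' : Sta) : Sta :=
  Sta.rec (motive := fun _ => Sta) (fun t p a0 a1 a2 a3 a4 a5 a6 a7 a8 a9 a10 a11 a12 a13 a14 a15 a16 =>
    Sta.rec (motive := fun _ => Sta) (fun t' p' b0 b1 b2 b3 b4 b5 b6 b7 b8 b9 b10 b11 b12 b13 b14 b15 b16 =>
      Sta.mk (Nat.add t t') (Nat.add p p') (Nat.add a0 b0) (Nat.add a1 b1) (Nat.add a2 b2) (Nat.add a3 b3)
        (Nat.add a4 b4) (Nat.add a5 b5) (Nat.add a6 b6) (Nat.add a7 b7) (Nat.add a8 b8) (Nat.add a9 b9)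
        (Nat.add a10 b10) (Nat.add a11 b11) (Nat.add a12 b12) (Nat.add a13 b13) (Nat.add a14 b14) (Nat.add a15 b15)
        (Nat.add a16 b16)) s') s

/-- one more table on top -/
noncomputable def tb (a b x : Nat) : Nat := Nat.add a (Nat.shiftLeft x b)

/-- the number given by the tables -/
noncomputable def tabR (s : Sta) : Nat :=
  Sta.rec (motive := fun _ => Nat) (fun _ _ a0 a1 a2 a3 a4 a5 a6 a7 a8 a9 a10 a11 a12 a13 a14 a15 a16 =>
    tb a0 (nat_lit 65536) (tb a1 (nat_lit 65536) (tb a2 (nat_lit 65536) (tb a3 (nat_lit 65536) (tb a4 (nat_lit 131072)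
      (tb a5 (nat_lit 131072) (tb a6 (nat_lit 131072) (tb a7 (nat_lit 131072) (tb a8 (nat_lit 210944)
        (tb a9 (nat_lit 210944) (tb a10 (nat_lit 90112) (tb a11 (nat_lit 90112) (tb a12 (nat_lit 90112)
          (tb a13 (nat_lit 90112) (tb a14 (nat_lit 131072) (tb a15 (nat_lit 131072) a16)))))))))))))))) s

/-- total -/
noncomputable def totR (s : Sta) : Nat :=
  Sta.rec (motive := fun _ => Nat) (fun t _ _ _ _ _ _ _ _ _ _ _ _ _ _ _ _ _ _ => t) s

/-- potential -/
noncomputable def potR (s : Sta) : Nat :=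
  Sta.rec (motive := fun _ => Nat) (fun _ p _ _ _ _ _ _ _ _ _ _ _ _ _ _ _ _ _ => p) s

/-- **The last check**, on the sum of all states. -/
noncomputable def chkS (s : Sta) : Bool :=
  frc (totR s) (frc (potR s) (frc (tabR s) (chkZ (tabR s) (totR s) (potR s))))

end Pool.Agent.MMS.Fi
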