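import Pool.Agent.MP_94f265_co.ST.Part

/-!
# The bits of the walls belong to used numbers
-/

namespace Pool.Agent.MMS

open Pool.Agent.MM1

/-- the numbers in the wall of a context of bits -/
def btC : Ctx → Multiset ℕ
  | .bt k J K => (List.range' k (2 * (J * K)) : Multiset ℕ)
  | _ => 0

/-- the same for a list -/
def btN : List Ctx → Multiset ℕ
  | [] => 0
  | c :: l => btC c + btN l

theorem btN_append (l l' : List Ctx) : btN (l ++ l') = btN l + btN l' := by
  induction l with
  | nil => simp [btN]
  | cons c l ih => simp [btN, ih, add_assoc]

/-- the walls whose bits are in the list -/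
def walls : List Ctx → Multiset (ℕ × ℕ × ℕ)
  | [] => 0
  | .bt k J K :: l => (k, J, K) ::ₘ walls l
  | _ :: l => walls l

theorem walls_append (l l' : List Ctx) : walls (l ++ l') = walls l + walls l' := by
  induction l with
  | nil => simp [walls]
  | cons c l ih => cases c <;> simp [walls, ih]

/-- the numbers in a multiset of walls `(k, J, K)` -/
def wnum (W : Multiset (ℕ × ℕ × ℕ)) : Multiset ℕ :=
  (W.map (fun w => (List.range' w.1 (2 * (w.2.1 * w.2.2)) : Multiset ℕ))).sum

theorem wnum_zero : wnum 0 = 0 := by simp [wnum]

theorem wnum_add (W W' : Multiset (ℕ × ℕ × ℕ)) : wnum (W + W') = wnum W + wnum W' := by simp [wnum]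

theorem btN_walls (l : List Ctx) : btN l = wnum (walls l) := by
  induction l with
  | nil => rfl
  | cons c l ih => cases c <;> simp [btN, btC, walls, ih, wnum]

theorem bif_some {α : Type} {b : Bool} {x y : α} (h : (bif b then some x else none) = some y) : x = y := by
  cases b with
  | false => simp at h
  | true => simpa using h

theorem bif_opt {α : Type} {b : Bool} {x : Option α} {y : α} (h : (bif b then x else none) = some y) : x = some y := by
  cases b with
  | false => simp at h
  | true => simpa using h

/-- a part of the result without bits -/
theorem bt_zero {cs fj : List Ctx} {u : Multiset ℕ} {c : Ctx} (h1 : btN cs = 0) (h2 : btN fj = 0) :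
    btN cs + btN fj ≤ u + btC c := by
  rw [h1, h2, add_zero]
  exact Multiset.zero_le _

theorem step_bt {op : Op} {c : Ctx} {cs : List Ctx} {u : List (ℕ × ℕ)} {fj : List Ctx}
    (h : step op c = some (cs, u, fj)) : btN cs + btN fj ≤ (nums u : Multiset ℕ) + btC c := by
  cases op with
  | nil =>
    simp only [step, Option.some.injEq, Prod.mk.injEq] at h
    obtain ⟨rfl, rfl, rfl⟩ := h
    simp [btN, nums]
  | sw =>
    cases c with
    | pc al ah bl bh =>
      simp only [step, Option.some.injEq, Prod.mk.injEq] at h
      obtain ⟨rfl, rfl, rfl⟩ := h
      exact bt_zero (by simp [btN, btC]) (by simp [btN])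
    | _ => simp [step] at h
  | cut x =>
    cases c with
    | pc al ah bl bh =>
      simp only [step] at h
      have h := bif_some h
      simp only [Prod.mk.injEq] at h
      obtain ⟨rfl, rfl, rfl⟩ := h
      exact bt_zero (by simp [btN, btC]) (by simp [btN])
    | _ => simp [step] at h
  | item0 k =>
    cases c with
    | pc al ah bl bh =>
      simp only [step] at h
      have h := bif_some h
      simp only [Prod.mk.injEq] at h
      obtain ⟨rfl, rfl, rfl⟩ := h
      exact bt_zero (by simp [btN, btC]) (by simp [btN])
    | _ => simp [step] at h
  | item1 k =>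
    cases c with
    | pc al ah bl bh =>
      simp only [step] at h
      have h := bif_some h
      simp only [Prod.mk.injEq] at h
      obtain ⟨rfl, rfl, rfl⟩ := h
      exact bt_zero (by simp [btN, btC]) (by simp [btN])
    | _ => simp [step] at h
  | dom k =>
    cases c with
    | pc al ah bl bh =>
      simp only [step] at h
      have h := bif_some h
      simp only [Prod.mk.injEq] at h
      obtain ⟨rfl, rfl, rfl⟩ := h
      exact bt_zero (by simp [btN, btC]) (by simp [btN])
    | _ => simp [step] at h
  | strip k m =>
    cases c with
    | pc al ah bl bh =>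
      simp only [step] at h
      have h := bif_some h
      simp only [Prod.mk.injEq] at h
      obtain ⟨rfl, rfl, rfl⟩ := h
      exact bt_zero (by simp [btN, btC]) (by simp [btN])
    | _ => simp [step] at h
  | ustrip k m =>
    cases c with
    | pc al ah bl bh =>
      simp only [step] at h
      have h := bif_some h
      simp only [Prod.mk.injEq] at h
      obtain ⟨rfl, rfl, rfl⟩ := h
      exact bt_zero (by simp [btN, btC]) (by simp [btN])
    | _ => simp [step] at h
  | wall k J K J2 K2 =>
    cases c with
    | pc al ah bl bh =>
      simp only [step] at h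
      have h := bif_opt h
      revert h
      cases mrg bl bh (K + K2) (wprof al ah k J K) (wprof al ah (k + 2 * (J * K)) J2 K2).reverse with
      | none => intro h; simp at h
      | some ms =>
        intro h
        simp only [Option.some.injEq, Prod.mk.injEq] at h
        obtain ⟨rfl, rfl, rfl⟩ := h
        exact bt_zero (by simp [btN, btC]) (by simp [btN])
    | _ => simp [step] at h
  | wallj k J K J2 K2 =>
    cases c with
    | pc al ah bl bh =>
      simp only [step] at h
      have h := bif_opt h
      revert h
      cases mrg bl bh (K + K2) (wprof al ah k J K) (wprof al ah (k + 2 * (J * K)) J2 K2).reverse with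
      | none => intro h; simp at h
      | some ms =>
        intro h
        simp only [Option.some.injEq, Prod.mk.injEq] at h
        obtain ⟨rfl, rfl, rfl⟩ := h
        have e : ((List.range' k (2 * (J * K + J2 * K2)) : List ℕ) : Multiset ℕ) =
            ((List.range' k (2 * (J * K)) : List ℕ) : Multiset ℕ) +
              ((List.range' (k + 2 * (J * K)) (2 * (J2 * K2)) : List ℕ) : Multiset ℕ) := by
          rw [Nat.mul_add, ← List.range'_append_1, ← Multiset.coe_add]
        refine le_of_eq ?_
        simp only [btN, btC, nums, List.append_nil, add_zero, zero_add]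
        exact e.symm
    | _ => simp [step] at h
  | bwall k J K =>
    cases c with
    | pc al ah bl bh =>
      simp only [step] at h
      have h := bif_some h
      simp only [Prod.mk.injEq] at h
      obtain ⟨rfl, rfl, rfl⟩ := h
      refine le_of_eq ?_
      simp [btN, btC, nums]
    | _ => simp [step] at h
  | skip s =>
    cases c with
    | pc => simp [step] at h
    | bt => simp [step] at h
    | mc Hl Hh k J m =>
      simp only [step] at h
      have h := bif_some h
      simp only [Prod.mk.injEq] at h
      obtain ⟨rfl, rfl, rfl⟩ := h
      exact bt_zero (by simp [btN, btC]) (by simp [btN, btC])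
    | ls l =>
      simp only [step, Option.some.injEq, Prod.mk.injEq] at h
      obtain ⟨rfl, rfl, rfl⟩ := h
      exact bt_zero (by simp [btN, btC]) (by simp [btN, btC])
    | ch wl wh k m =>
      simp only [step] at h
      have h := bif_some h
      simp only [Prod.mk.injEq] at h
      obtain ⟨rfl, rfl, rfl⟩ := h
      exact bt_zero (by simp [btN, btC]) (by simp [btN, btC])
    | uch wl wh k m =>
      simp only [step] at h
      have h := bif_some h
      simp only [Prod.mk.injEq] at h
      obtain ⟨rfl, rfl, rfl⟩ := h
      exact bt_zero (by simp [btN, btC]) (by simp [btN, btC])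
  | kid =>
    cases c with
    | pc => simp [step] at h
    | bt => simp [step] at h
    | mc Hl Hh k J m =>
      simp only [step] at h
      have h := bif_some h
      simp only [Prod.mk.injEq] at h
      obtain ⟨rfl, rfl, rfl⟩ := h
      exact bt_zero (by simp [btN, btC]) (by simp [btN])
    | ls l =>
      cases l with
      | nil => simp [step] at h
      | cons e l =>
        obtain ⟨al, ah, bl, bh⟩ := e
        simp only [step, Option.some.injEq, Prod.mk.injEq] at h
        obtain ⟨rfl, rfl, rfl⟩ := h
        exact bt_zero (by simp [btN, btC]) (by simp [btN])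
    | ch wl wh k m =>
      simp only [step] at h
      have h := bif_some h
      simp only [Prod.mk.injEq] at h
      obtain ⟨rfl, rfl, rfl⟩ := h
      exact bt_zero (by simp [btN, btC]) (by simp [btN])
    | uch wl wh k m =>
      simp only [step] at h
      have h := bif_some h
      simp only [Prod.mk.injEq] at h
      obtain ⟨rfl, rfl, rfl⟩ := h
      exact bt_zero (by simp [btN, btC]) (by simp [btN])

theorem bt_same {cs fj : List Ctx} {u : List (ℕ × ℕ)} {c : Ctx} (h1 : btN cs = 0) (h2 : btN fj = 0)
    (h3 : owedL cs + owedL fj ≤ (nums u : Multiset ℕ) + owed c) :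
    (btN cs + owedL cs) + (btN fj + owedL fj) ≤ (nums u : Multiset ℕ) + (btC c + owed c) := by
  rw [h1, h2, zero_add, zero_add]
  exact h3.trans (add_le_add_right (le_add_of_nonneg_left (Multiset.zero_le _)) _)

theorem ow_same {cs fj : List Ctx} {u : List (ℕ × ℕ)} {c : Ctx} (h1 : owedL cs = 0) (h2 : owedL fj = 0)
    (h3 : btN cs + btN fj ≤ (nums u : Multiset ℕ) + btC c) :
    (btN cs + owedL cs) + (btN fj + owedL fj) ≤ (nums u : Multiset ℕ) + (btC c + owed c) := by
  rw [h1, h2, add_zero, add_zero]
  exact h3.trans (add_le_add_right (le_add_of_nonneg_right (Multiset.zero_le _)) _)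

theorem range_kid_le {k m : ℕ} (hm : 1 ≤ m) : ((List.range' (k + 2) (2 * (m - 1)) : List ℕ) : Multiset ℕ) ≤
    ((List.range' k (2 * m) : List ℕ) : Multiset ℕ) := by
  have h := range'_split k 1 m hm
  rw [h]
  exact le_add_of_nonneg_left (Multiset.zero_le _)

/-- **A step**: the numbers in walls with bits and the owed numbers are used numbers. -/
theorem step_num {op : Op} {c : Ctx} {cs : List Ctx} {u : List (ℕ × ℕ)} {fj : List Ctx}
    (h : step op c = some (cs, u, fj)) :
    (btN cs + owedL cs) + (btN fj + owedL fj) ≤ (nums u : Multiset ℕ) + (btC c + owed c) := by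
  have hb := step_bt h
  cases op with
  | nil =>
    simp only [step, Option.some.injEq, Prod.mk.injEq] at h
    obtain ⟨rfl, rfl, rfl⟩ := h
    simp [btN, nums, owedL]
  | sw =>
    cases c with
    | pc al ah bl bh =>
      simp only [step, Option.some.injEq, Prod.mk.injEq] at h
      obtain ⟨rfl, rfl, rfl⟩ := h
      exact ow_same (by simp [owedL, owed]) (by simp [owedL]) hb
    | _ => simp [step] at h
  | cut x =>
    cases c with
    | pc al ah bl bh =>
      simp only [step] at h
      have h := bif_some h
      simp only [Prod.mk.injEq] at h
      obtain ⟨rfl, rfl, rfl⟩ := h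
      exact ow_same (by simp [owedL, owed]) (by simp [owedL]) hb
    | _ => simp [step] at h
  | item0 k =>
    cases c with
    | pc al ah bl bh =>
      simp only [step] at h
      have h := bif_some h
      simp only [Prod.mk.injEq] at h
      obtain ⟨rfl, rfl, rfl⟩ := h
      exact ow_same (by simp [owedL, owed]) (by simp [owedL]) hb
    | _ => simp [step] at h
  | item1 k =>
    cases c with
    | pc al ah bl bh =>
      simp only [step] at h
      have h := bif_some h
      simp only [Prod.mk.injEq] at h
      obtain ⟨rfl, rfl, rfl⟩ := h
      exact ow_same (by simp [owedL, owed]) (by simp [owedL]) hb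
    | _ => simp [step] at h
  | dom k =>
    cases c with
    | pc al ah bl bh =>
      simp only [step] at h
      have h := bif_some h
      simp only [Prod.mk.injEq] at h
      obtain ⟨rfl, rfl, rfl⟩ := h
      exact ow_same (by simp [owedL, owed]) (by simp [owedL]) hb
    | _ => simp [step] at h
  | strip k m =>
    cases c with
    | pc al ah bl bh =>
      simp only [step] at h
      have h := bif_some h
      simp only [Prod.mk.injEq] at h
      obtain ⟨rfl, rfl, rfl⟩ := h
      exact bt_same (by simp [btN, btC]) (by simp [btN]) (le_of_eq (by simp [owedL, owed, nums]))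
    | _ => simp [step] at h
  | ustrip k m =>
    cases c with
    | pc al ah bl bh =>
      simp only [step] at h
      have h := bif_some h
      simp only [Prod.mk.injEq] at h
      obtain ⟨rfl, rfl, rfl⟩ := h
      exact bt_same (by simp [btN, btC]) (by simp [btN]) (le_of_eq (by simp [owedL, owed, nums]))
    | _ => simp [step] at h
  | wall k J K J2 K2 =>
    cases c with
    | pc al ah bl bh =>
      simp only [step] at h
      have h := bif_opt h
      revert h
      cases mrg bl bh (K + K2) (wprof al ah k J K) (wprof al ah (k + 2 * (J * K)) J2 K2).reverse with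
      | none => intro h; simp at h
      | some ms =>
        intro h
        simp only [Option.some.injEq, Prod.mk.injEq] at h
        obtain ⟨rfl, rfl, rfl⟩ := h
        exact ow_same (by simp [owedL, owed]) (by simp [owedL]) hb
    | _ => simp [step] at h
  | wallj k J K J2 K2 =>
    cases c with
    | pc al ah bl bh =>
      simp only [step] at h
      have h := bif_opt h
      revert h
      cases mrg bl bh (K + K2) (wprof al ah k J K) (wprof al ah (k + 2 * (J * K)) J2 K2).reverse with
      | none => intro h; simp at h
      | some ms =>
        intro h
        simp only [Option.some.injEq, Prod.mk.injEq] at h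
        obtain ⟨rfl, rfl, rfl⟩ := h
        exact ow_same (by simp [owedL, owed]) (by simp [owedL, owed]) hb
    | _ => simp [step] at h
  | bwall k J K =>
    cases c with
    | pc al ah bl bh =>
      simp only [step] at h
      have h := bif_some h
      simp only [Prod.mk.injEq] at h
      obtain ⟨rfl, rfl, rfl⟩ := h
      exact ow_same (by simp [owedL, owed]) (by simp [owedL, owed]) hb
    | _ => simp [step] at h
  | skip s =>
    cases c with
    | pc => simp [step] at h
    | bt => simp [step] at h
    | mc Hl Hh k J m =>
      simp only [step] at h
      have h := bif_some h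
      simp only [Prod.mk.injEq] at h
      obtain ⟨rfl, rfl, rfl⟩ := h
      exact ow_same (by simp [owedL, owed]) (by simp [owedL, owed]) hb
    | ls l =>
      simp only [step, Option.some.injEq, Prod.mk.injEq] at h
      obtain ⟨rfl, rfl, rfl⟩ := h
      exact ow_same (by simp [owedL, owed]) (by simp [owedL, owed]) hb
    | ch wl wh k m =>
      simp only [step] at h
      by_cases hs : Nat.ble s m = true
      · rw [hs, cond_true] at h
        simp only [Option.some.injEq, Prod.mk.injEq] at h
        obtain ⟨rfl, rfl, rfl⟩ := h
        refine bt_same (by simp [btN, btC]) (by simp [btN, btC]) (le_of_eq ?_)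
        simp only [owedL, owed, nums, add_zero, zero_add, Multiset.coe_nil]
        rw [range'_split k s m (Nat.le_of_ble_eq_true hs)]
        abel
      · simp only [Bool.not_eq_true] at hs
        rw [hs, cond_false] at h
        exact absurd h (by simp)
    | uch wl wh k m =>
      simp only [step] at h
      by_cases hs : Nat.ble s m = true
      · rw [hs, cond_true] at h
        simp only [Option.some.injEq, Prod.mk.injEq] at h
        obtain ⟨rfl, rfl, rfl⟩ := h
        refine bt_same (by simp [btN, btC]) (by simp [btN, btC]) (le_of_eq ?_)
        simp only [owedL, owed, nums, add_zero, zero_add, Multiset.coe_nil]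
        rw [range'_split k s m (Nat.le_of_ble_eq_true hs)]
        abel
      · simp only [Bool.not_eq_true] at hs
        rw [hs, cond_false] at h
        exact absurd h (by simp)
  | kid =>
    cases c with
    | pc => simp [step] at h
    | bt => simp [step] at h
    | mc Hl Hh k J m =>
      simp only [step] at h
      have h := bif_some h
      simp only [Prod.mk.injEq] at h
      obtain ⟨rfl, rfl, rfl⟩ := h
      exact ow_same (by simp [owedL, owed]) (by simp [owedL]) hb
    | ls l =>
      cases l with
      | nil => simp [step] at h
      | cons e l =>
        obtain ⟨al, ah, bl, bh⟩ := e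
        simp only [step, Option.some.injEq, Prod.mk.injEq] at h
        obtain ⟨rfl, rfl, rfl⟩ := h
        exact ow_same (by simp [owedL, owed]) (by simp [owedL]) hb
    | ch wl wh k m =>
      simp only [step] at h
      by_cases hs : (Nat.ble 1 m && (Nat.ble 1 k && Nat.ble (uh (k + 1)) wl)) = true
      · rw [hs, cond_true] at h
        simp only [Option.some.injEq, Prod.mk.injEq] at h
        obtain ⟨rfl, rfl, rfl⟩ := h
        simp only [Bool.and_eq_true] at hs
        refine bt_same (by simp [btN, btC]) (by simp [btN]) ?_
        simp only [owedL, owed, nums, add_zero, zero_add, Multiset.coe_nil]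
        exact range_kid_le (Nat.le_of_ble_eq_true hs.1)
      · simp only [Bool.not_eq_true] at hs
        rw [hs, cond_false] at h
        exact absurd h (by simp)
    | uch wl wh k m =>
      simp only [step] at h
      by_cases hs : (Nat.ble 1 m && (Nat.ble 1 k && Nat.ble (Lh k) wl)) = true
      · rw [hs, cond_true] at h
        simp only [Option.some.injEq, Prod.mk.injEq] at h
        obtain ⟨rfl, rfl, rfl⟩ := h
        simp only [Bool.and_eq_true] at hs
        refine bt_same (by simp [btN, btC]) (by simp [btN]) ?_
        simp only [owedL, owed, nums, add_zero, zero_add, Multiset.coe_nil]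
        exact range_kid_le (Nat.le_of_ble_eq_true hs.1)
      · simp only [Bool.not_eq_true] at hs
        rw [hs, cond_false] at h
        exact absurd h (by simp)

/-- the numbers in walls with bits and the owed numbers -/
def numL (l : List Ctx) : Multiset ℕ := btN l + owedL l

theorem numL_append (l l' : List Ctx) : numL (l ++ l') = numL l + numL l' := by
  unfold numL
  rw [btN_append, owedL_append]
  abel

theorem numL_nil : numL [] = 0 := by simp [numL, btN, owedL]

theorem numL_cons (c : Ctx) (l : List Ctx) : numL (c :: l) = (btC c + owed c) + numL l := by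
  unfold numL
  rw [btN, owedL]
  abel

theorem mrun_num : ∀ (ops : List Op) (st : List Ctx) (us : List (ℕ × ℕ)) (fr : List Ctx) (st' : List Ctx)
    (us' : List (ℕ × ℕ)) (fr' : List Ctx), mrun ops st us fr = some (st', us', fr') →
    numL st' + numL fr' + (nums us : Multiset ℕ) ≤ (nums us' : Multiset ℕ) + numL st + numL fr := by
  intro ops
  induction ops with
  | nil =>
    intro st us fr st' us' fr' h
    simp only [mrun, Option.some.injEq, Prod.mk.injEq] at h
    obtain ⟨rfl, rfl, rfl⟩ := h
    refine le_of_eq ?_
    abel
  | cons op ops ih =>
    intro st us fr st' us' fr' h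
    cases st with
    | nil => simp [mrun] at h
    | cons c cs =>
      simp only [mrun] at h
      cases hs : step op c with
      | none => rw [hs] at h; simp at h
      | some x =>
        obtain ⟨cs', u0, fj⟩ := x
        rw [hs] at h
        have h1 := ih _ _ _ _ _ _ h
        have h2 : numL cs' + numL fj ≤ (nums u0 : Multiset ℕ) + (btC c + owed c) := step_num hs
        rw [numL_append, numL_append, nums_append, ← Multiset.coe_add] at h1
        have h3 : (nums us' : Multiset ℕ) + (numL cs' + numL cs) + (numL fj + numL fr) ≤
            (nums us' : Multiset ℕ) + numL (c :: cs) + numL fr + (nums u0 : Multiset ℕ) := by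
          calc (nums us' : Multiset ℕ) + (numL cs' + numL cs) + (numL fj + numL fr) =
                (nums us' : Multiset ℕ) + numL cs + numL fr + (numL cs' + numL fj) := by abel
            _ ≤ (nums us' : Multiset ℕ) + numL cs + numL fr + ((nums u0 : Multiset ℕ) + (btC c + owed c)) :=
                add_le_add_right h2 _
            _ = _ := by rw [numL_cons]; abel
        have h4 := h1.trans h3
        have h5 : numL st' + numL fr' + ((nums u0 : Multiset ℕ) + (nums us : Multiset ℕ)) =
            numL st' + numL fr' + (nums us : Multiset ℕ) + (nums u0 : Multiset ℕ) := by abel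
        rw [h5] at h4
        exact le_of_add_le_add_right h4

/-- only rectangles on the stack -/
def allPc : List Ctx → Bool
  | [] => true
  | .pc _ _ _ _ :: l => allPc l
  | _ :: _ => false

theorem allPc_numL : ∀ {l : List Ctx}, allPc l = true → numL l = 0 := by
  intro l
  induction l with
  | nil => intro _; exact numL_nil
  | cons c l ih =>
    intro h
    rw [numL_cons]
    cases c <;> simp_all [allPc, btC, owed]

/-- **Soundness of a part, with the numbers in the walls with bits and in the chains.** -/
theorem chkPart_sound2 {prog : List ℕ} {st0 st1 : List Ctx} {f : List (ℕ × ℕ) → List Ctx → Bool}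
    (h : chkPart prog st0 st1 f = true) : ∃ us fr, OkS st0 [] [] st1 us fr ∧
      numL st1 + numL fr ≤ (nums us : Multiset ℕ) + numL st0 ∧ f us fr = true := by
  unfold chkPart at h
  rw [frunE_eq prog endK st0 [] []] at h
  cases hr : mrun (opsE prog) st0 [] [] with
  | none =>
    rw [hr] at h
    exact absurd h (by simp [thenK])
  | some x =>
    obtain ⟨st, us, fr⟩ := x
    rw [hr] at h
    have h' : (ceqL st st1 && f us fr) = true := h
    simp only [Bool.and_eq_true] at h'
    obtain ⟨h1, h2⟩ := h'
    have e := ceqL_eq h1
    subst e
    refine ⟨us, fr, mrun_sound _ _ _ _ _ _ _ hr, ?_, h2⟩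
    have h3 := mrun_num _ _ _ _ _ _ _ hr
    rw [numL_nil] at h3
    simpa [nums] using h3

end Pool.Agent.MMS
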