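import Pool.Agent.MP_94f265_co.ST.Op

/-!
# Fast evaluation of the walls with direct sums
-/

namespace Pool.Agent.MMS

theorem ul_le_uh (c : ℕ) : ul c ≤ uh c := by
  unfold ul uh fl ce
  rcases Nat.eq_zero_or_pos c with rfl | h
  · simp
  · exact Nat.div_le_div_right (by omega)

/-! ## raw arithmetic -/

theorem ru_eq (k : ℕ) : ru k = ul k := rfl

theorem rc_eq (k : ℕ) : rc k = uh k := by
  have h : Nat.add (nat_lit 30990445042459967063999999999999) k = SC + k - 1 := by
    show 30990445042459967063999999999999 + k = 30990445042459967064000000000000 + k - 1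
    omega
  unfold rc
  rw [h]
  rfl

theorem rLl_eq (k : ℕ) : rLl k = Ll k := rfl
theorem rLh_eq (k : ℕ) : rLh k = Lh k := by
  unfold rLh
  rw [rc_eq, rc_eq]
  rfl

theorem frc_eq {α : Type} (x : ℕ) (y : α) : frc x y = y := by
  unfold frc
  cases Nat.ble x (nat_lit 0) <;> rfl

theorem rdl_eq (d m : ℕ) (c a : ℕ) : rdl d m c a = a + Tdl d m c := by
  induction m generalizing c a with
  | zero => rfl
  | succ m ih =>
    show frc a (rdl d m (Nat.add c d) (Nat.add a (ru c))) = _
    rw [frc_eq, ih]
    show a + ru c + Tdl d m (c + d) = a + (fl SC c + Tdl d m (c + d))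
    rw [ru_eq, Nat.add_assoc]
    rfl

theorem rdh_eq (d m : ℕ) (c a : ℕ) : rdh d m c a = a + Tdh d m c := by
  induction m generalizing c a with
  | zero => rfl
  | succ m ih =>
    show frc a (rdh d m (Nat.add c d) (Nat.add a (rc c))) = _
    rw [frc_eq, ih]
    show a + rc c + Tdh d m (c + d) = a + (ce SC c + Tdh d m (c + d))
    rw [rc_eq, Nat.add_assoc]
    rfl

/-! ## lists -/

theorem rowX_succ (d n c lo hi : ℕ) : rowX d (n + 1) c lo hi =
    (lo + ul c, hi + uh c) :: rowX d n (c + d) (lo + ul c) (hi + uh c) := by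
  show frc (Nat.add lo (ru c)) (frc (Nat.add hi (rc c))
      (List.cons (Nat.add lo (ru c), Nat.add hi (rc c)) (rowX d n (Nat.add c d) (Nat.add lo (ru c)) (Nat.add hi (rc c))))) = _
  rw [frc_eq, frc_eq, rc_eq]
  rfl

theorem range_map_succ {α : Type*} (f : ℕ → α) (n : ℕ) :
    (List.range (n + 1)).map f = f 0 :: (List.range n).map (fun t => f (t + 1)) := by
  rw [List.range_succ_eq_map, List.map_cons, List.map_map]
  rfl

theorem rowX_eq (d n : ℕ) : ∀ c lo hi : ℕ, rowX d n c lo hi =
    (List.range n).map (fun t => (lo + Tdl d (t + 1) c, hi + Tdh d (t + 1) c)) := by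
  induction n with
  | zero => intro c lo hi; rfl
  | succ n ih =>
    intro c lo hi
    rw [rowX_succ, ih, range_map_succ]
    congr 1
    refine List.map_congr_left fun t _ => ?_
    show (lo + ul c + Tdl d (t + 1) (c + d), hi + uh c + Tdh d (t + 1) (c + d)) =
      (lo + (fl SC c + Tdl d (t + 1) (c + d)), hi + (ce SC c + Tdh d (t + 1) (c + d)))
    rw [Nat.add_assoc, Nat.add_assoc]
    rfl

theorem hrow_cons (d : ℕ) (a : P2) (l : List P2) (c : ℕ) :
    hrow d (a :: l) c = (a.1 + Ll c, a.2 + Lh c) :: hrow d l (c + d) := by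
  show frc (Nat.add a.1 (rLl c)) (frc (Nat.add a.2 (rLh c))
      (List.cons (Nat.add a.1 (rLl c), Nat.add a.2 (rLh c)) (hrow d l (Nat.add c d)))) = _
  rw [frc_eq, frc_eq, rLl_eq, rLh_eq]
  rfl

theorem hrow_eq (d : ℕ) (n : ℕ) : ∀ (A B : ℕ → ℕ) (c : ℕ),
    hrow d ((List.range n).map (fun t => (A t, B t))) c =
      (List.range n).map (fun t => (A t + Ll (c + d * t), B t + Lh (c + d * t))) := by
  induction n with
  | zero => intro A B c; rfl
  | succ n ih =>
    intro A B c
    rw [range_map_succ, hrow_cons, range_map_succ, ih (fun t => A (t + 1)) (fun t => B (t + 1))]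
    congr 1
    refine List.map_congr_left fun t _ => ?_
    rw [show c + d + d * t = c + d * (t + 1) by ring]

theorem zrow_eq (n : ℕ) : zrow n = (List.range n).map (fun _ => ((0 : ℕ), (0 : ℕ))) := by
  induction n with
  | zero => rfl
  | succ n ih =>
    rw [range_map_succ]
    show ((0 : ℕ), (0 : ℕ)) :: zrow n = _
    rw [ih]

theorem brow_nil (XB : List P2) (h : P2) (H : List P2) (r : List Q4) : brow [] XB h H r = r := rfl
theorem brow_nil3 (a : P2) (XA XB : List P2) (h : P2) (r : List Q4) : brow (a :: XA) XB h [] r = r := by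
  cases XB <;> rfl
theorem brow_cons (a b h g : P2) (XA XB H : List P2) (r : List Q4) : brow (a :: XA) (b :: XB) h (g :: H) r =
    (a.1 - b.2, a.2 - b.1, h.1 - g.2, h.2 - g.1) :: brow XA XB g H r := rfl

theorem brow_eq (n : ℕ) : ∀ (A B H : ℕ → P2) (r : List Q4),
    brow ((List.range (n + 1)).map A) ((List.range (n + 1)).map B) (H 0) ((List.range n).map (fun t => H (t + 1))) r =
      (List.range n).map (fun t => ((A t).1 - (B t).2, (A t).2 - (B t).1, (H t).1 - (H (t + 1)).2, (H t).2 - (H (t + 1)).1)) ++ r := by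
  induction n with
  | zero => intro A B H r; exact brow_nil3 _ _ _ _ _
  | succ n ih =>
    intro A B H r
    rw [range_map_succ A, range_map_succ B, range_map_succ (fun t => H (t + 1)), brow_cons,
      ih (fun t => A (t + 1)) (fun t => B (t + 1)) (fun t => H (t + 1)), range_map_succ]
    rfl

theorem rlast_append (l : List P2) (a d : P2) : rlast (l ++ [a]) d = a := by
  induction l generalizing d with
  | nil => rfl
  | cons b l ih => exact ih b

theorem rlast_eq (n : ℕ) (f : ℕ → P2) (d : P2) : rlast ((List.range (n + 1)).map f) d = f n := by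
  rw [List.range_succ, List.map_append]
  exact rlast_append _ _ _

/-! ## the wall -/

theorem Xrow_eq (k J K r : ℕ) : Xrow k J K r = (List.range K).map (fun t =>
    (Tdl (2 * J) (t + 1) (k + 2 * (J - 1 - r) + 1), Tdh (2 * J) (t + 1) (k + 2 * (J - 1 - r) + 1))) := by
  unfold Xrow
  rw [rowX_eq]
  refine List.map_congr_left fun t _ => ?_
  rw [show (nat_lit 0) = 0 from rfl, Nat.zero_add, Nat.zero_add]
  rfl

/-- direct height sums -/
def Hdl (k J r t : ℕ) : ℕ := Tdl 2 (r + 1) (itm k J r t) + Tdl 2 (r + 1) (itm k J r t + 2)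
def Hdh (k J r t : ℕ) : ℕ := Tdh 2 (r + 1) (itm k J r t) + Tdh 2 (r + 1) (itm k J r t + 2)

theorem Tdl_zero (d c : ℕ) : Tdl d 0 c = 0 := rfl
theorem Tdh_zero (d c : ℕ) : Tdh d 0 c = 0 := rfl
theorem Tdl_succ (d m c : ℕ) : Tdl d (m + 1) c = ul c + Tdl d m (c + d) := rfl
theorem Tdh_succ (d m c : ℕ) : Tdh d (m + 1) c = uh c + Tdh d m (c + d) := rfl

theorem itm_pred (k J r t : ℕ) (h : r + 1 < J) : itm k J r t = itm k J (r + 1) t + 2 := by
  unfold itm
  have : J - 1 - r = J - 1 - (r + 1) + 1 := by omega
  rw [this]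
  ring

theorem Hdl_succ (k J r t : ℕ) (h : r + 1 < J) : Hdl k J (r + 1) t = Hdl k J r t + Ll (itm k J (r + 1) t) := by
  unfold Hdl Ll
  rw [Tdl_succ 2 (r + 1) (itm k J (r + 1) t), Tdl_succ 2 (r + 1) (itm k J (r + 1) t + 2), ← itm_pred k J r t h]
  ring

theorem Hdh_succ (k J r t : ℕ) (h : r + 1 < J) : Hdh k J (r + 1) t = Hdh k J r t + Lh (itm k J (r + 1) t) := by
  unfold Hdh Lh
  rw [Tdh_succ 2 (r + 1) (itm k J (r + 1) t), Tdh_succ 2 (r + 1) (itm k J (r + 1) t + 2), ← itm_pred k J r t h]
  ring

theorem itm_lin (k J r t : ℕ) : itm k J r t = k + 2 * (J - 1 - r) + 2 * J * t := by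
  unfold itm
  ring

theorem Hnext_zero (k J K : ℕ) : Hnext k J 0 (zrow K) = (List.range K).map (fun t => (Hdl k J 0 t, Hdh k J 0 t)) := by
  unfold Hnext
  rw [zrow_eq, hrow_eq]
  refine List.map_congr_left fun t _ => ?_
  show (0 + Ll (k + 2 * (J - 1 - 0) + 2 * J * t), 0 + Lh (k + 2 * (J - 1 - 0) + 2 * J * t)) = _
  rw [← itm_lin, Nat.zero_add, Nat.zero_add]
  rfl

theorem Hnext_succ (k J K r : ℕ) (h : r + 1 < J) :
    Hnext k J (r + 1) ((List.range K).map (fun t => (Hdl k J r t, Hdh k J r t))) =
      (List.range K).map (fun t => (Hdl k J (r + 1) t, Hdh k J (r + 1) t)) := by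
  unfold Hnext
  rw [hrow_eq]
  refine List.map_congr_left fun t _ => ?_
  show (Hdl k J r t + Ll (k + 2 * (J - 1 - (r + 1)) + 2 * J * t), Hdh k J r t + Lh (k + 2 * (J - 1 - (r + 1)) + 2 * J * t)) = _
  rw [← itm_lin, Hdl_succ k J r t h, Hdh_succ k J r t h]

/-- direct bit -/
def wbitD (k J r t : ℕ) : Q4 :=
  (Tdl (2 * J) (t + 1) (k + 2 * (J - 1 - (r + 1)) + 1) - Tdh (2 * J) (t + 1) (k + 2 * (J - 1 - r) + 1),
    Tdh (2 * J) (t + 1) (k + 2 * (J - 1 - (r + 1)) + 1) - Tdl (2 * J) (t + 1) (k + 2 * (J - 1 - r) + 1),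
    Hdl k J r t - Hdh k J r (t + 1), Hdh k J r t - Hdl k J r (t + 1))

theorem brow2_eq (k J K r : ℕ) (rest : List Q4) :
    brow2 (Xrow k J K (r + 1)) (Xrow k J K r) ((List.range K).map (fun t => (Hdl k J r t, Hdh k J r t))) rest =
      (List.range (K - 1)).map (fun t => wbitD k J r t) ++ rest := by
  cases K with
  | zero => rfl
  | succ n =>
    rw [Xrow_eq, Xrow_eq, range_map_succ (fun t => (Hdl k J r t, Hdh k J r t))]
    exact brow_eq n _ _ (fun t => (Hdl k J r t, Hdh k J r t)) rest

theorem brows_eq (k J K : ℕ) : ∀ (n r : ℕ) (rest : List Q4), r + n < J →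
    brows k J K n r (Xrow k J K r) ((List.range K).map (fun t => (Hdl k J r t, Hdh k J r t))) rest =
      (List.range n).flatMap (fun s => (List.range (K - 1)).map (fun t => wbitD k J (r + s) t)) ++ rest := by
  intro n
  induction n with
  | zero => intro r rest _; rfl
  | succ n ih =>
    intro r rest h
    show brow2 (Xrow k J K (r + 1)) (Xrow k J K r) ((List.range K).map (fun t => (Hdl k J r t, Hdh k J r t)))
      (brows k J K n (r + 1) (Xrow k J K (r + 1)) (Hnext k J (r + 1) ((List.range K).map (fun t => (Hdl k J r t, Hdh k J r t)))) rest) = _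
    rw [brow2_eq, Hnext_succ k J K r (by omega), ih (r + 1) rest (by omega), List.range_succ_eq_map, List.flatMap_cons,
      List.append_assoc, Nat.add_zero, List.flatMap_map]
    congr 2
    refine List.flatMap_congr fun s _ => ?_
    rw [show r + 1 + s = r + (s + 1) by ring]

theorem htop_eq (k J K : ℕ) : ∀ (n r : ℕ), r + n < J →
    htop k J n r ((List.range K).map (fun t => (Hdl k J r t, Hdh k J r t))) =
      (List.range K).map (fun t => (Hdl k J (r + n) t, Hdh k J (r + n) t)) := by
  intro n
  induction n with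
  | zero => intro r _; rfl
  | succ n ih =>
    intro r h
    show htop k J n (r + 1) (Hnext k J (r + 1) ((List.range K).map (fun t => (Hdl k J r t, Hdh k J r t)))) = _
    rw [Hnext_succ k J K r (by omega), ih (r + 1) (by omega), show r + 1 + n = r + (n + 1) by ring]

/-! ## all bits -/

theorem TSlo_dir {c : ℕ} (d m : ℕ) (h : c ≤ 99999) : TSlo c d m = Tdl d m c := by
  unfold TSlo
  have : Nat.ble c 99999 = true := Nat.ble_eq_true_of_le h
  rw [this]
  rfl

theorem TShi_dir {c : ℕ} (d m : ℕ) (h : c ≤ 99999) : TShi c d m = Tdh d m c := by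
  unfold TShi
  have : Nat.ble c 99999 = true := Nat.ble_eq_true_of_le h
  rw [this]
  rfl

theorem Tlo_dir {c : ℕ} (m : ℕ) (h : c ≤ 99999) : Tlo c m = Tdl 2 m c := by
  unfold Tlo
  have : Nat.ble c 99999 = true := Nat.ble_eq_true_of_le h
  rw [this]
  rfl

theorem Thi_dir {c : ℕ} (m : ℕ) (h : c ≤ 99999) : Thi c m = Tdh 2 m c := by
  unfold Thi
  have : Nat.ble c 99999 = true := Nat.ble_eq_true_of_le h
  rw [this]
  rfl

theorem itm_bd {k J K r t : ℕ} (hJ : 1 ≤ J) (ht : t < K) : itm k J r t + 2 ≤ k + 2 * (J * K) := by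
  unfold itm
  have h1 : t * J + J ≤ J * K := by
    calc t * J + J = J * (t + 1) := by ring
      _ ≤ J * K := Nat.mul_le_mul_left J ht
  have h2 : J - 1 - r + 1 ≤ J := by omega
  omega

theorem J_le {J K : ℕ} (hK : 1 ≤ K) : J ≤ J * K := Nat.le_mul_of_pos_right J hK

theorem wbit_dir {k J K r t : ℕ} (hJ : 1 ≤ J) (hK : 1 ≤ K) (hD : k + 2 * (J * K) ≤ 99999) (ht : t + 1 < K) :
    wbit k J r t = wbitD k J r t := by
  have h0 := J_le (J := J) hK
  have h1 := itm_bd (k := k) (K := K) (r := r) (t := t) hJ (by omega)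
  have h2 := itm_bd (k := k) (K := K) (r := r) (t := t + 1) hJ ht
  unfold wbit wbitD Hdl Hdh
  rw [TSlo_dir _ _ (by omega), TShi_dir _ _ (by omega), TShi_dir _ _ (by omega), TSlo_dir _ _ (by omega),
    Tlo_dir _ (by omega), Tlo_dir _ (by omega), Thi_dir _ (by omega), Thi_dir _ (by omega),
    Tlo_dir _ (by omega), Tlo_dir _ (by omega), Thi_dir _ (by omega), Thi_dir _ (by omega)]

theorem bitsR_eq {k J K : ℕ} (hJ : 1 ≤ J) (hK : 1 ≤ K) (hD : k + 2 * (J * K) ≤ 99999) (rest : List Q4) :
    bitsR k J K rest = wbitE k J K ++ rest := by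
  unfold bitsR
  rw [show (nat_lit 0) = 0 from rfl, Hnext_zero]
  show brows k J K (J - 1) 0 _ _ rest = _
  rw [brows_eq k J K (J - 1) 0 rest (by omega)]
  congr 1
  unfold wbitE
  refine List.flatMap_congr fun r _ => List.map_congr_left fun t ht => ?_
  rw [List.mem_range] at ht
  rw [Nat.zero_add, wbit_dir (K := K) hJ hK hD (by omega)]

/-! ## the profile -/

theorem profR_eq (d : ℕ) (w : P2) (n : ℕ) : ∀ (H : ℕ → P2) (c : ℕ), profR d w ((List.range (n + 1)).map H) c =
    (List.range n).map (fun t => (ul (c + d * t), uh (c + d * t), (H t).1, (H t).2)) ++ [(w.1, w.2, (H n).1, (H n).2)] := by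
  induction n with
  | zero => intro H c; rfl
  | succ n ih =>
    intro H c
    rw [range_map_succ H, range_map_succ (fun t => (ul (c + d * t), uh (c + d * t), (H t).1, (H t).2))]
    have e : profR d w (H 0 :: (List.range (n + 1)).map (fun t => H (t + 1))) c =
        (ru c, rc c, (H 0).1, (H 0).2) :: profR d w ((List.range (n + 1)).map (fun t => H (t + 1))) (c + d) := by
      rw [range_map_succ (fun t => H (t + 1))]
      rfl
    rw [e, ih (fun t => H (t + 1)), rc_eq, ru_eq, List.cons_append]
    congr 1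
    congr 1
    refine List.map_congr_left fun t _ => ?_
    rw [show c + d + d * t = c + d * (t + 1) by ring]

theorem topR_eq (k J K : ℕ) (hJ : 1 ≤ J) : topR k J K = (List.range K).map (fun t => (Hdl k J (J - 1) t, Hdh k J (J - 1) t)) := by
  unfold topR
  rw [show (nat_lit 0) = 0 from rfl, Hnext_zero]
  show htop k J (J - 1) 0 _ = _
  rw [htop_eq k J K (J - 1) 0 (by omega), Nat.zero_add]

theorem wprofR_eq {k J K : ℕ} (al ah : ℕ) (hJ : 1 ≤ J) (hK : 1 ≤ K) (hD : k + 2 * (J * K) ≤ 99999) :
    wprofR al ah k J K = wprof al ah k J K := by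
  have h0 := J_le (J := J) hK
  unfold wprofR wprof
  rw [topR_eq k J K hJ, rdl_eq, rdh_eq]
  obtain ⟨n, rfl⟩ : ∃ n, K = n + 1 := ⟨K - 1, by omega⟩
  rw [profR_eq, Nat.add_sub_cancel]
  have hH : ∀ t, t < n + 1 → Tlo (k + 2 * (t * J)) J + Tlo (k + 2 * (t * J) + 2) J = Hdl k J (J - 1) t := by
    intro t ht
    have h1 := itm_bd (k := k) (K := n + 1) (r := J - 1) (t := t) hJ ht
    have e : itm k J (J - 1) t = k + 2 * (t * J) := by
      unfold itm
      rw [show J - 1 - (J - 1) = 0 by omega, Nat.add_zero]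
    rw [e] at h1
    unfold Hdl
    rw [e, show J - 1 + 1 = J by omega, Tlo_dir _ (by omega), Tlo_dir _ (by omega)]
  have hH' : ∀ t, t < n + 1 → Thi (k + 2 * (t * J)) J + Thi (k + 2 * (t * J) + 2) J = Hdh k J (J - 1) t := by
    intro t ht
    have h1 := itm_bd (k := k) (K := n + 1) (r := J - 1) (t := t) hJ ht
    have e : itm k J (J - 1) t = k + 2 * (t * J) := by
      unfold itm
      rw [show J - 1 - (J - 1) = 0 by omega, Nat.add_zero]
    rw [e] at h1
    unfold Hdh
    rw [e, show J - 1 + 1 = J by omega, Thi_dir _ (by omega), Thi_dir _ (by omega)]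
  rw [hH n (by omega), hH' n (by omega)]
  congr 1
  · refine List.map_congr_left fun t ht => ?_
    rw [List.mem_range] at ht
    unfold wcol
    rw [hH t (by omega), hH' t (by omega)]
    show (ul (k + 1 + 2 * J * t), uh (k + 1 + 2 * J * t), _, _) = _
    rw [show k + 1 + 2 * J * t = k + 2 * (t * J) + 1 by ring]
  · unfold lastW
    rw [TShi_dir _ _ (by omega), TSlo_dir _ _ (by omega)]
    show [(al - (0 + Tdh (2 * J) n (k + 1)), ah - (0 + Tdl (2 * J) n (k + 1)), _, _)] = _
    rw [Nat.zero_add, Nat.zero_add]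

/-! ## the row ends -/

theorem endR_eq (al ah k J K : ℕ) (hJ : 1 ≤ J) (hK : 1 ≤ K) (hD : k + 2 * (J * K) ≤ 99999) : ∀ (n r : ℕ) (rest : List Q4),
    endR al ah k J K n r rest = (List.range n).map (fun s => (al - TShi (k + 2 * (J - 1 - (r + s)) + 1) (2 * J) K,
      ah - TSlo (k + 2 * (J - 1 - (r + s)) + 1) (2 * J) K, Ll (itm k J (r + s) (K - 1)), Lh (itm k J (r + s) (K - 1)))) ++ rest := by
  have h0 := J_le (J := J) hK
  intro n
  induction n with
  | zero => intro r rest; rfl
  | succ n ih =>
    intro r rest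
    show ((al - (rlast (Xrow k J K r) (0, 0)).2, ah - (rlast (Xrow k J K r) (0, 0)).1, rLl (itm k J r (K - 1)),
      rLh (itm k J r (K - 1))) : Q4) :: endR al ah k J K n (r + 1) rest = _
    rw [ih, range_map_succ, List.cons_append, Nat.add_zero, TShi_dir _ _ (by omega), TSlo_dir _ _ (by omega), Xrow_eq,
      rLl_eq, rLh_eq]
    obtain ⟨m, rfl⟩ : ∃ m, K = m + 1 := ⟨K - 1, by omega⟩
    rw [rlast_eq]
    congr 2
    refine List.map_congr_left fun s _ => ?_
    rw [show r + 1 + s = r + (s + 1) by ring]

theorem endR_eq' (al ah k J K : ℕ) (hJ : 1 ≤ J) (hK : 1 ≤ K) (hD : k + 2 * (J * K) ≤ 99999) (rest : List Q4) :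
    endR al ah k J K J (nat_lit 0) rest = wendE al ah k J K ++ rest := by
  rw [endR_eq al ah k J K hJ hK hD]
  unfold wendE
  congr 1
  refine List.map_congr_left fun s _ => ?_
  rw [show (nat_lit 0) + s = s from Nat.zero_add s]

/-! ## reversal and merge -/

theorem rrev_eq (l r : List Q4) : rrev l r = l.reverse ++ r := by
  induction l generalizing r with
  | nil => rfl
  | cons a l ih =>
    show rrev l (a :: r) = _
    rw [ih]
    simp

theorem msub_eq (e e' : Q4) (f : Q4 → OQ) : msub e e' f = f (e.1 - e'.2.1, e.2.1 - e'.1, e.2.2) := by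
  unfold msub
  rw [frc_eq, frc_eq]
  rfl

noncomputable def accO (acc : List Q4) (r : OQ) : OQ :=
  match r with
  | none => none
  | some r => some (rrev acc r)

theorem mrgR_eq (Hl Hh : ℕ) : ∀ (f : ℕ) (acc l l' : List Q4), mrgR Hl Hh f acc l l' = accO acc (mrg Hl Hh f l l') := by
  intro f
  induction f with
  | zero => intro acc l l'; rfl
  | succ f ih =>
    intro acc l l'
    cases l with
    | nil => rfl
    | cons e l =>
      cases l' with
      | nil => rfl
      | cons e' l' =>
        obtain ⟨wl, wh, Bl, Bh⟩ := e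
        obtain ⟨vl, vh, Cl, Ch⟩ := e'
        show mstep Hl Hh (mrgR Hl Hh f) acc (wl, wh, Bl, Bh) l (vl, vh, Cl, Ch) l' = _
        unfold mstep
        simp only [mrg]
        show thenO (Nat.ble (Bh + Ch) Hl) _ = _
        cases hb : Nat.ble (Bh + Ch) Hl with
        | false => rfl
        | true =>
          rw [cond_true]
          cases l with
          | nil =>
            cases l' with
            | nil => rfl
            | cons x l' =>
              show thenO (Nat.ble vh wl) (msub (wl, wh, Bl, Bh) (vl, vh, Cl, Ch) _) = accO acc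
                (bif (false : Bool) then _ else bif Nat.ble wh vl && false then _ else bif Nat.ble vh wl && true then _ else none)
              rw [Bool.and_false, Bool.and_true, cond_false, cond_false, msub_eq, ih]
              cases hc : Nat.ble vh wl with
              | false => rfl
              | true =>
                rw [cond_true]
                show accO _ (mrg Hl Hh f ((wl - vh, wh - vl, Bl, Bh) :: []) (x :: l')) = _
                cases mrg Hl Hh f ((wl - vh, wh - vl, Bl, Bh) :: []) (x :: l') <;> rfl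
          | cons y l =>
            show Bool.rec (motive := fun _ => OQ) _ _ (Nat.ble wh vl) = accO acc
                (bif (false : Bool) then _ else bif Nat.ble wh vl && true then _ else bif Nat.ble vh wl && !l'.isEmpty then _ else none)
            rw [Bool.and_true, cond_false]
            cases hc : Nat.ble wh vl with
            | true =>
              rw [cond_true]
              show msub (vl, vh, Cl, Ch) (wl, wh, Bl, Bh) _ = _
              rw [msub_eq, ih]
              show accO _ (mrg Hl Hh f (y :: l) ((vl - wh, vh - wl, Cl, Ch) :: l')) = _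
              cases mrg Hl Hh f (y :: l) ((vl - wh, vh - wl, Cl, Ch) :: l') <;> rfl
            | false =>
              rw [cond_false]
              cases l' with
              | nil =>
                show none = accO acc (bif Nat.ble vh wl && false then _ else none)
                rw [Bool.and_false]
                rfl
              | cons x l' =>
                show thenO (Nat.ble vh wl) (msub (wl, wh, Bl, Bh) (vl, vh, Cl, Ch) _) = accO acc
                  (bif Nat.ble vh wl && true then _ else none)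
                rw [Bool.and_true, msub_eq, ih]
                cases hd : Nat.ble vh wl with
                | false => rfl
                | true =>
                  rw [cond_true]
                  show accO _ (mrg Hl Hh f ((wl - vh, wh - vl, Bl, Bh) :: y :: l) (x :: l')) = _
                  cases mrg Hl Hh f ((wl - vh, wh - vl, Bl, Bh) :: y :: l) (x :: l') <;> rfl

theorem rdrop_eq (n : ℕ) (l : List Q4) : rdrop n l = l.drop n := by
  induction n generalizing l with
  | zero => rfl
  | succ n ih =>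
    cases l with
    | nil => rfl
    | cons a l => exact ih l

theorem rtake_eq (n : ℕ) (l : List Q4) : rtake n l = l.take n := by
  induction n generalizing l with
  | zero => rfl
  | succ n ih =>
    cases l with
    | nil => rfl
    | cons a l =>
      show a :: rtake n l = _
      rw [ih]
      rfl

end Pool.Agent.MMS
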