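import Pool.Agent.MP_94f265_co.ST.SimdDef
import Pool.Agent.MP_94f265_co.ST.WallR

/-!
# Sorting by big numbers: soundness
-/

namespace Pool.Agent.MMS.Sv

/-- field `i` of `x` -/
def fld (x i : ℕ) : ℕ := (x >>> (32 * i)) % 2 ^ 32

theorem fld_lt (x i : ℕ) : fld x i < 2 ^ 32 := Nat.mod_lt _ (by norm_num)

theorem fld_div (x i : ℕ) : fld x i = x / 2 ^ (32 * i) % 2 ^ 32 := by
  unfold fld
  rw [Nat.shiftRight_eq_div_pow]

theorem testBit_fld (x i j : ℕ) : (fld x i).testBit j = (decide (j < 32) && x.testBit (32 * i + j)) := by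
  unfold fld
  rw [Nat.testBit_mod_two_pow, Nat.testBit_shiftRight]

theorem fld_land (x y i : ℕ) : fld (x &&& y) i = fld x i &&& fld y i := by
  apply Nat.eq_of_testBit_eq
  intro j
  rw [Nat.testBit_and, testBit_fld, testBit_fld, testBit_fld, Nat.testBit_and]
  cases decide (j < 32) <;> simp

theorem fld_lor (x y i : ℕ) : fld (x ||| y) i = fld x i ||| fld y i := by
  apply Nat.eq_of_testBit_eq
  intro j
  rw [Nat.testBit_or, testBit_fld, testBit_fld, testBit_fld, Nat.testBit_or]
  cases decide (j < 32) <;> simp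

theorem fld_xor (x y i : ℕ) : fld (x ^^^ y) i = fld x i ^^^ fld y i := by
  apply Nat.eq_of_testBit_eq
  intro j
  rw [Nat.testBit_xor, testBit_fld, testBit_fld, testBit_fld, Nat.testBit_xor]
  cases decide (j < 32) <;> simp

theorem fld_shr (x s i : ℕ) : fld (x >>> (32 * s)) i = fld x (i + s) := by
  apply Nat.eq_of_testBit_eq
  intro j
  rw [testBit_fld, testBit_fld, Nat.testBit_shiftRight]
  congr 2
  ring

theorem fld_shl (x s i : ℕ) : fld (x <<< (32 * s)) i = if i < s then 0 else fld x (i - s) := by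
  apply Nat.eq_of_testBit_eq
  intro j
  rw [testBit_fld, Nat.testBit_shiftLeft]
  by_cases hj : j < 32
  · split_ifs with h
    · have h1 : ¬ 32 * i + j ≥ 32 * s := by omega
      simp [h1]
    · rw [testBit_fld]
      have h1 : 32 * i + j ≥ 32 * s := by omega
      have h2 : 32 * i + j - 32 * s = 32 * (i - s) + j := by omega
      simp [h1, h2]
  · split_ifs with h
    · simp [hj]
    · rw [testBit_fld]
      simp [hj]

theorem fld_zero_left (i : ℕ) : fld 0 i = 0 := by simp [fld]

theorem fld_succ (x i : ℕ) : fld x (i + 1) = fld (x / 2 ^ 32) i := by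
  rw [fld_div, fld_div, Nat.div_div_eq_div_mul, ← pow_add]
  congr 3
  ring

theorem fld_zero (x : ℕ) : fld x 0 = x % 2 ^ 32 := by simp [fld]

theorem fld_eq_zero {x n i : ℕ} (h : x < 2 ^ (32 * n)) (hi : n ≤ i) : fld x i = 0 := by
  rw [fld_div, Nat.div_eq_of_lt, Nat.zero_mod]
  exact h.trans_le (Nat.pow_le_pow_right (by norm_num) (by omega))

/-- fields 0 or 1 -/
def O1 (x : ℕ) : Prop := ∀ i, fld x i ≤ 1

theorem O1.land {x y : ℕ} (h : O1 y) : O1 (x &&& y) := by
  intro i
  rw [fld_land]
  exact Nat.and_le_right.trans (h i)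

/-- the full mask of a 0-1 vector -/
theorem fld_mask (i : ℕ) : ∀ g : ℕ, O1 g → fld ((2 ^ 32 - 1) * g) i = (2 ^ 32 - 1) * fld g i := by
  induction i with
  | zero =>
    intro g hg
    have h0 := hg 0
    rw [fld_zero] at h0 ⊢
    rw [fld_zero]
    omega
  | succ i ih =>
    intro g hg
    have h0 := hg 0
    rw [fld_zero] at h0
    rw [fld_succ, fld_succ]
    have e : (2 ^ 32 - 1) * g / 2 ^ 32 = (2 ^ 32 - 1) * (g / 2 ^ 32) := by omega
    rw [e]
    apply ih
    intro j
    rw [← fld_succ]
    exact hg (j + 1)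

theorem land_full {a : ℕ} (h : a < 2 ^ 32) : a &&& (2 ^ 32 - 1) = a := by
  rw [Nat.and_two_pow_sub_one_eq_mod, Nat.mod_eq_of_lt h]

/-- multiset of the values of a function on `0, ..., n - 1` permuted by an involution -/
theorem map_invol (n : ℕ) (f g σ : ℕ → ℕ) (h1 : ∀ i < n, σ i < n) (h2 : ∀ i < n, σ (σ i) = i)
    (h : ∀ i < n, g i = f (σ i)) : (Multiset.range n).map g = (Multiset.range n).map f := by
  have key : ∀ f : ℕ → ℕ, (Multiset.range n).map f = ∑ i ∈ Finset.range n, ({f i} : Multiset ℕ) := by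
    intro f
    conv_lhs => rw [← Multiset.sum_map_singleton ((Multiset.range n).map f), Multiset.map_map]
    rfl
  rw [key, key]
  apply Finset.sum_nbij' σ σ
  · intro i hi
    rw [Finset.mem_range] at hi ⊢
    exact h1 i hi
  · intro i hi
    rw [Finset.mem_range] at hi ⊢
    exact h1 i hi
  · intro i hi
    rw [Finset.mem_range] at hi
    exact h2 i hi
  · intro i hi
    rw [Finset.mem_range] at hi
    exact h2 i hi
  · intro i hi
    rw [Finset.mem_range] at hi
    rw [h i hi]

/-- **One stage.** -/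
theorem stage_perm (n s x g : ℕ) (hg : O1 g) (hd : g &&& (g <<< (32 * s)) = 0)
    (hb : g >>> (32 * (n - s)) = 0) (hs0 : 0 < s) :
    (Multiset.range n).map (fld (x ^^^ (((x ^^^ (x >>> (32 * s))) &&& ((2 ^ 32 - 1) * g)) |||
      (((x ^^^ (x >>> (32 * s))) &&& ((2 ^ 32 - 1) * g)) <<< (32 * s))))) =
      (Multiset.range n).map (fld x) := by
  set D := (x ^^^ (x >>> (32 * s))) &&& ((2 ^ 32 - 1) * g) with hD
  have hDi : ∀ i, fld D i = if fld g i = 1 then fld x i ^^^ fld x (i + s) else 0 := by
    intro i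
    rw [hD, fld_land, fld_mask i g hg, fld_xor, fld_shr]
    have h := hg i
    split_ifs with h1
    · rw [h1, Nat.mul_one]
      apply land_full
      exact Nat.xor_lt_two_pow (fld_lt _ _) (fld_lt _ _)
    · have h0 : fld g i = 0 := by omega
      rw [h0, Nat.mul_zero, Nat.and_zero]
  have hdis : ∀ i, fld g i = 1 → fld g (i + s) = 1 → False := by
    intro i h1 h2
    have h3 : fld (g &&& (g <<< (32 * s))) (i + s) = 0 := by rw [hd, fld_zero_left]
    rw [fld_land, fld_shl, if_neg (by omega), Nat.add_sub_cancel, h1, h2] at h3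
    simp at h3
  have hbd : ∀ i, fld g i = 1 → i + s < n := by
    intro i h1
    by_contra hc
    have h2 : g < 2 ^ (32 * (n - s)) := by
      rw [Nat.shiftRight_eq_div_pow] at hb
      exact (Nat.div_eq_zero_iff_lt (by positivity)).1 hb
    rw [fld_eq_zero h2 (by omega)] at h1
    omega
  -- the involution
  let σ : ℕ → ℕ := fun i => if fld g i = 1 then i + s else if s ≤ i ∧ fld g (i - s) = 1 then i - s else i
  apply map_invol n _ _ σ
  · intro i hi
    simp only [σ]
    split_ifs with h1 h2
    · exact hbd i h1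
    · omega
    · exact hi
  · intro i hi
    simp only [σ]
    by_cases h1 : fld g i = 1
    · have h2 : ¬ fld g (i + s) = 1 := fun h => hdis i h1 h
      rw [if_pos h1, if_neg h2, Nat.add_sub_cancel, if_pos ⟨by omega, h1⟩]
    · by_cases h2 : s ≤ i ∧ fld g (i - s) = 1
      · rw [if_neg h1, if_pos h2, if_pos h2.2]
        omega
      · rw [if_neg h1, if_neg h2, if_neg h1, if_neg h2]
  · intro i hi
    simp only [σ]
    rw [fld_xor, fld_lor, fld_shl, hDi]
    by_cases h1 : fld g i = 1
    · rw [if_pos h1, if_pos h1]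
      have h3 : (if i < s then 0 else fld D (i - s)) = 0 := by
        split_ifs with h4
        · rfl
        · rw [hDi, if_neg]
          intro h5
          exact hdis (i - s) h5 (by rw [Nat.sub_add_cancel (by omega)]; exact h1)
      rw [h3, Nat.or_zero, ← Nat.xor_assoc, Nat.xor_self, Nat.zero_xor]
    · rw [if_neg h1, if_neg h1, Nat.zero_or]
      by_cases h2 : s ≤ i ∧ fld g (i - s) = 1
      · rw [if_pos h2, if_neg (by omega), hDi, if_pos h2.2, Nat.sub_add_cancel h2.1, Nat.xor_comm (fld x (i - s)),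
          ← Nat.xor_assoc, Nat.xor_self, Nat.zero_xor]
      · rw [if_neg h2]
        have h3 : (if i < s then 0 else fld D (i - s)) = 0 := by
          split_ifs with h4
          · rfl
          · rw [hDi, if_neg]
            intro h5
            exact h2 ⟨by omega, h5⟩
        rw [h3, Nat.xor_zero]

/-! ## the network -/

theorem beq_eq {a b : ℕ} (h : Nat.beq a b = true) : a = b := Nat.eq_of_beq_eq_true h

theorem sub_shl (g : ℕ) : Nat.sub (Nat.shiftLeft g (nat_lit 32)) g = (2 ^ 32 - 1) * g := by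
  show g <<< 32 - g = _
  rw [Nat.shiftLeft_eq]
  omega

theorem st1_perm (n s E F x : ℕ) (hE : O1 E) (hs0 : 0 < s) :
    (Multiset.range n).map (fld (st1 (32 * n) E (32 * s) F x)) = (Multiset.range n).map (fld x) := by
  unfold st1
  rw [frc_eq]
  unfold st2
  rw [frc_eq, frc_eq]
  set g := Nat.land (Nat.shiftRight (Nat.sub (Nat.add (Nat.land x F) (Nat.shiftLeft (Nat.land E F) (nat_lit 31)))
      (Nat.land (Nat.shiftRight x (32 * s)) F)) (nat_lit 31)) (Nat.land E F) with hg
  have hO : O1 g := by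
    have h1 : O1 (Nat.land E F) := by
      have : Nat.land E F = F &&& E := Nat.and_comm _ _
      rw [this]
      exact O1.land hE
    exact O1.land h1
  clear_value g
  unfold st3
  cases h1 : Nat.beq (Nat.land g (Nat.shiftLeft g (32 * s))) (nat_lit 0) with
  | false => rfl
  | true =>
    show (Multiset.range n).map (fld (Bool.rec (motive := fun _ => ℕ) x (st4 (32 * s) x g)
      (Nat.beq (Nat.shiftRight g (Nat.sub (32 * n) (32 * s))) (nat_lit 0)))) = _
    cases h2 : Nat.beq (Nat.shiftRight g (Nat.sub (32 * n) (32 * s))) (nat_lit 0) with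
    | false => rfl
    | true =>
      show (Multiset.range n).map (fld (st4 (32 * s) x g)) = _
      unfold st4 st5
      rw [frc_eq, sub_shl]
      apply stage_perm n s x g hO (beq_eq h1)
      · have h3 := beq_eq h2
        have e : 32 * (n - s) = Nat.sub (32 * n) (32 * s) := by
          show 32 * (n - s) = 32 * n - 32 * s
          omega
        rw [e]
        exact h3
      · exact hs0

theorem netI_perm (t n E a m : ℕ) (hE : O1 E) : ∀ x : ℕ,
    (Multiset.range n).map (fld (netI t (32 * n) E a m x)) = (Multiset.range n).map (fld x) := by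
  induction m with
  | zero => intro x; rfl
  | succ b ih =>
    intro x
    show (Multiset.range n).map (fld (frc x (netI t (32 * n) E a b
      (st1 (32 * n) E (Nat.mul (nat_lit 32) (Nat.pow (nat_lit 2) b)) (lowM t a b) x)))) = _
    rw [frc_eq, ih]
    exact st1_perm n (2 ^ b) E (lowM t a b) x hE (by positivity)

theorem netO_perm (t n E m : ℕ) (hE : O1 E) : ∀ x : ℕ,
    (Multiset.range n).map (fld (netO t (32 * n) E m x)) = (Multiset.range n).map (fld x) := by
  induction m with
  | zero => intro x; rfl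
  | succ a ih =>
    intro x
    show (Multiset.range n).map (fld (netI t (32 * n) E a (Nat.add a (nat_lit 1)) (netO t (32 * n) E a x))) = _
    rw [netI_perm t n E a _ hE, ih]

theorem fld_repD (j : ℕ) : ∀ (q x : ℕ), x < 2 ^ (32 * q) → 0 < q → ∀ i,
    fld (repD j q x) i = if i < q * 2 ^ j then fld x (i % q) else 0 := by
  induction j with
  | zero =>
    intro q x hx hq i
    show fld x i = _
    rw [pow_zero, Nat.mul_one]
    split_ifs with h
    · rw [Nat.mod_eq_of_lt h]
    · exact fld_eq_zero hx (by omega)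
  | succ j ih =>
    intro q x hx hq i
    show fld (frc x (repD j (Nat.mul (nat_lit 2) q) (Nat.lor x (Nat.shiftLeft x (Nat.mul (nat_lit 32) q))))) i = _
    rw [frc_eq]
    show fld (repD j (2 * q) (x ||| (x <<< (32 * q)))) i = _
    have hy : x ||| (x <<< (32 * q)) < 2 ^ (32 * (2 * q)) := by
      apply Nat.or_lt_two_pow
      · exact hx.trans_le (Nat.pow_le_pow_right (by norm_num) (by omega))
      · rw [Nat.shiftLeft_eq]
        calc x * 2 ^ (32 * q) < 2 ^ (32 * q) * 2 ^ (32 * q) := by
              exact Nat.mul_lt_mul_of_pos_right hx (by positivity)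
          _ = 2 ^ (32 * (2 * q)) := by rw [← pow_add]; congr 1; ring
    rw [ih (2 * q) _ hy (by omega)]
    have e : 2 * q * 2 ^ j = q * 2 ^ (j + 1) := by ring
    rw [e]
    split_ifs with h
    · have hm : i % (2 * q) < 2 * q := Nat.mod_lt _ (by omega)
      have hmm : i % (2 * q) % q = i % q := Nat.mod_mod_of_dvd i (Dvd.intro_left 2 rfl)
      rw [fld_lor, fld_shl, ← hmm]
      split_ifs with h2
      · rw [Nat.or_zero, Nat.mod_eq_of_lt h2]
      · rw [fld_eq_zero hx (by omega), Nat.zero_or]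
        have : i % (2 * q) % q = i % (2 * q) - q := by
          rw [Nat.mod_eq_sub_mod (by omega), Nat.mod_eq_of_lt (by omega)]
        rw [this]
    · rfl

theorem O1_unit (t : ℕ) : O1 (repD t (nat_lit 1) (nat_lit 1)) := by
  intro i
  show fld (repD t 1 1) i ≤ 1
  rw [fld_repD t 1 1 (by norm_num) (by norm_num)]
  split_ifs
  · rw [Nat.mod_one, fld_zero]
    norm_num
  · exact Nat.zero_le _

/-- **The sort permutes the fields.** -/
theorem netSort_perm (t x : ℕ) :
    (Multiset.range (2 ^ t)).map (fld (netSort t x)) = (Multiset.range (2 ^ t)).map (fld x) :=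
  netO_perm t (2 ^ t) _ t (O1_unit t) x

/-- the nonzero fields `i < n` -/
def fM (n x : ℕ) : Multiset ℕ := ((Multiset.range n).map (fld x)).filter (fun v => v ≠ 0)

theorem fM_netSort (t x : ℕ) : fM (2 ^ t) (netSort t x) = fM (2 ^ t) x := by
  unfold fM
  rw [netSort_perm]

theorem fM_mono {n m x : ℕ} (h : x < 2 ^ (32 * n)) (hm : n ≤ m) : fM m x = fM n x := by
  induction m, hm using Nat.le_induction with
  | base => rfl
  | succ m hm ih =>
    rw [← ih]
    unfold fM
    rw [Multiset.range_succ, Multiset.map_cons, Multiset.filter_cons, fld_eq_zero h hm]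
    simp

theorem fM_add {c n v y : ℕ} (hv : v < 2 ^ (32 * c)) : fM (c + n) (v + y * 2 ^ (32 * c)) = fM c v + fM n y := by
  have hf : ∀ i, fld (v + y * 2 ^ (32 * c)) i = if i < c then fld v i else fld y (i - c) := by
    intro i
    have e : v + y * 2 ^ (32 * c) = (y <<< (32 * c)) ||| v := by
      rw [← Nat.shiftLeft_eq, Nat.add_comm]
      exact Nat.shiftLeft_add_eq_or_of_lt hv y
    rw [e, fld_lor, fld_shl]
    split_ifs with h
    · rw [Nat.zero_or]
    · rw [fld_eq_zero hv (by omega), Nat.or_zero]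
  induction n with
  | zero =>
    unfold fM
    rw [Nat.add_zero, Multiset.range_zero, Multiset.map_zero, Multiset.filter_zero, add_zero]
    congr 1
    apply Multiset.map_congr rfl
    intro i hi
    rw [Multiset.mem_range] at hi
    rw [hf, if_pos hi]
  | succ n ih =>
    have e : ∀ (m x : ℕ), fM (m + 1) x = (if fld x m ≠ 0 then {fld x m} else 0) + fM m x := by
      intro m x
      unfold fM
      rw [Multiset.range_succ, Multiset.map_cons, Multiset.filter_cons]
    have hcn : fld (v + y * 2 ^ (32 * c)) (c + n) = fld y n := by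
      rw [hf, if_neg (by omega), Nat.add_sub_cancel_left]
    rw [← Nat.add_assoc, e, ih, e, hcn]
    abel

/-! ## vectors in pieces -/

/-- the fields of the pieces -/
def WL (l : List (ℕ × ℕ)) : Multiset ℕ := (l.map (fun e => fM e.1 e.2)).sum

theorem WL_append (l l' : List (ℕ × ℕ)) : WL (l ++ l') = WL l + WL l' := by
  simp [WL]

theorem WL_cons (e : ℕ × ℕ) (l : List (ℕ × ℕ)) : WL (e :: l) = fM e.1 e.2 + WL l := by
  simp [WL]

theorem thenB_eq {b x : Bool} (h : thenB b x = true) : b = true ∧ x = true := by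
  cases b with
  | false => exact absurd h (by simp [thenB])
  | true => exact ⟨rfl, h⟩

/-- the number of fields of the pieces -/
def tot (l : List (ℕ × ℕ)) : ℕ := (l.map Prod.fst).sum

theorem jnK_spec (l : List (ℕ × ℕ)) : ∀ (n x : ℕ) (K : ℕ → ℕ → Bool), jnK l n x K = true →
    ∃ y, K (n + tot l) (x + y * 2 ^ (32 * n)) = true ∧ y < 2 ^ (32 * tot l) ∧ fM (tot l) y = WL l := by
  induction l with
  | nil =>
    intro n x K h
    refine ⟨0, ?_, by simp [tot], by simp [tot, fM, WL]⟩
    have : K n x = true := h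
    simpa [tot] using this
  | cons e l ih =>
    intro n x K h
    obtain ⟨h1, h2⟩ := thenB_eq (show thenB (Nat.beq (Nat.shiftRight e.2 (Nat.mul (nat_lit 32) e.1)) (nat_lit 0))
      (frc (Nat.add n e.1) (frc (Nat.add x (Nat.shiftLeft e.2 (Nat.mul (nat_lit 32) n)))
        (jnK l (Nat.add n e.1) (Nat.add x (Nat.shiftLeft e.2 (Nat.mul (nat_lit 32) n))) K))) = true from h)
    rw [frc_eq, frc_eq] at h2
    have hv : e.2 < 2 ^ (32 * e.1) := by
      have h3 : e.2 >>> (32 * e.1) = 0 := beq_eq h1
      rw [Nat.shiftRight_eq_div_pow] at h3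
      exact (Nat.div_eq_zero_iff_lt (by positivity)).1 h3
    obtain ⟨y, k1, k2, k3⟩ := ih (n + e.1) (x + e.2 <<< (32 * n)) K h2
    have et : tot (e :: l) = e.1 + tot l := by simp [tot]
    refine ⟨e.2 + y * 2 ^ (32 * e.1), ?_, ?_, ?_⟩
    · rw [et]
      have e1 : n + (e.1 + tot l) = n + e.1 + tot l := by ring
      have e2 : x + (e.2 + y * 2 ^ (32 * e.1)) * 2 ^ (32 * n) =
          x + e.2 <<< (32 * n) + y * 2 ^ (32 * (n + e.1)) := by
        rw [Nat.shiftLeft_eq, Nat.mul_add 32, pow_add]
        ring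
      rw [e1, e2]
      exact k1
    · rw [et]
      have e3 : 2 ^ (32 * (e.1 + tot l)) = 2 ^ (32 * tot l) * 2 ^ (32 * e.1) := by
        rw [← pow_add]; congr 1; ring
      rw [e3]
      have : y + 1 ≤ 2 ^ (32 * tot l) := k2
      calc e.2 + y * 2 ^ (32 * e.1) < (y + 1) * 2 ^ (32 * e.1) := by
            rw [Nat.add_mul, Nat.one_mul]; omega
        _ ≤ _ := Nat.mul_le_mul_right _ this
    · rw [et, WL_cons, fM_add hv, k3]

/-- **Sorted vector = pieces.** -/
theorem chkV_spec {t x z : ℕ} {l : List (ℕ × ℕ)} (h : chkV t x z l = true) : fM (2 ^ t) x = WL l := by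
  obtain ⟨y, h1, h2, h3⟩ := jnK_spec l z (nat_lit 0) _ h
  obtain ⟨h4, h5⟩ := thenB_eq h1
  have h6 : z + tot l ≤ 2 ^ t := Nat.le_of_ble_eq_true h4
  have h7 : netSort t x = 0 + y * 2 ^ (32 * z) := beq_eq h5
  rw [← fM_netSort, h7]
  have h8 : (0 : ℕ) < 2 ^ (32 * z) := by positivity
  have h9 := fM_add (n := tot l) (y := y) h8
  have h10 : 0 + y * 2 ^ (32 * z) < 2 ^ (32 * (z + tot l)) := by
    rw [Nat.zero_add, Nat.mul_add, pow_add, Nat.mul_comm (2 ^ (32 * z))]
    exact Nat.mul_lt_mul_of_pos_right h2 h8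
  rw [fM_mono h10 h6, h9, h3]
  have h11 : fM z 0 = 0 := by
    unfold fM
    rw [Multiset.filter_eq_nil]
    intro v hv
    obtain ⟨i, _, rfl⟩ := Multiset.mem_map.1 hv
    rw [fld_zero_left]
    simp
  rw [h11, zero_add]

/-- **Window.** -/
theorem chkW_spec {t : ℕ} {lS lE : List (ℕ × ℕ)} (h : chkW t lS lE = true) : WL lS = WL lE := by
  obtain ⟨x, h1, h2, h3⟩ := jnK_spec lS (nat_lit 0) (nat_lit 0) _ h
  obtain ⟨h4, h5⟩ := thenB_eq h1
  obtain ⟨y, k1, k2, k3⟩ := jnK_spec lE (nat_lit 0) (nat_lit 0) _ h5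
  obtain ⟨k4, k5⟩ := thenB_eq k1
  have h6 : 0 + tot lS ≤ 2 ^ t := Nat.le_of_ble_eq_true h4
  have k6 : 0 + tot lE ≤ 2 ^ t := Nat.le_of_ble_eq_true k4
  have h7 : netSort t (0 + x * 2 ^ (32 * 0)) = netSort t (0 + y * 2 ^ (32 * 0)) := beq_eq k5
  rw [Nat.mul_zero, pow_zero, Nat.mul_one, Nat.mul_one, Nat.zero_add, Nat.zero_add] at h7
  rw [Nat.zero_add] at h6 k6
  rw [← h3, ← k3, ← fM_mono h2 h6, ← fM_mono k2 k6, ← fM_netSort t x, ← fM_netSort t y, h7]

/-! ## packing -/

/-- the vector of `k, k + m` for all intervals -/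
def pv : List (ℕ × ℕ) → ℕ
  | [] => 0
  | e :: l => (e.1 + (e.1 + e.2) * 2 ^ 32) + pv l * 2 ^ 64

theorem pkK_spec (l : List (ℕ × ℕ)) : ∀ (sh acc pos big : ℕ) (K : ℕ → ℕ → Bool), pkK l sh acc pos big K = true →
    (∀ e ∈ l, e.1 + e.2 < 2 ^ 32) ∧
      K (big + (acc + pv l * 2 ^ sh) * 2 ^ pos) (pos + sh + 64 * l.length) = true := by
  induction l with
  | nil =>
    intro sh acc pos big K h
    refine ⟨by simp, ?_⟩
    have h1 : frc (big + acc <<< pos) (K (big + acc <<< pos) (pos + sh)) = true := h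
    rw [frc_eq, Nat.shiftLeft_eq] at h1
    simpa [pv] using h1
  | cons e l ih =>
    intro sh acc pos big K h
    obtain ⟨h1, h2⟩ := thenB_eq (show thenB (Nat.ble (Nat.add e.1 e.2) (nat_lit 4294967295))
      (pk2 (pkK l) (Nat.add acc (Nat.shiftLeft (Nat.add e.1 (Nat.shiftLeft (Nat.add e.1 e.2) (nat_lit 32))) sh))
        (Nat.add sh (nat_lit 64)) pos big K) = true from h)
    have h3 : e.1 + e.2 ≤ 4294967295 := Nat.le_of_ble_eq_true h1
    have ea : Nat.add acc (Nat.shiftLeft (Nat.add e.1 (Nat.shiftLeft (Nat.add e.1 e.2) (nat_lit 32))) sh) =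
        acc + (e.1 + (e.1 + e.2) * 2 ^ 32) * 2 ^ sh := by
      show acc + (e.1 + (e.1 + e.2) <<< 32) <<< sh = _
      rw [Nat.shiftLeft_eq, Nat.shiftLeft_eq]
    rw [ea] at h2
    set acc' := acc + (e.1 + (e.1 + e.2) * 2 ^ 32) * 2 ^ sh with hacc
    unfold pk2 at h2
    rw [frc_eq] at h2
    have hmem : ∀ {P : Prop}, (∀ e' ∈ l, e'.1 + e'.2 < 2 ^ 32) ∧ P → (∀ e' ∈ e :: l, e'.1 + e'.2 < 2 ^ 32) := by
      intro P hP e' he'
      rcases List.mem_cons.1 he' with rfl | he'
      · omega
      · exact hP.1 e' he'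
    have hval : big + (acc' + pv l * 2 ^ (sh + 64)) * 2 ^ pos = big + (acc + pv (e :: l) * 2 ^ sh) * 2 ^ pos := by
      rw [hacc, pv, pow_add]
      ring
    cases hb : Nat.beq (Nat.add sh (nat_lit 64)) (nat_lit 8192) with
    | false =>
      rw [hb] at h2
      have h4 := ih (sh + 64) acc' pos big K h2
      refine ⟨hmem h4, ?_⟩
      have e2 : pos + sh + 64 * (e :: l).length = pos + (sh + 64) + 64 * l.length := by
        rw [List.length_cons]; ring
      rw [← hval, e2]
      exact h4.2
    | true =>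
      rw [hb] at h2
      have h5 : frc (Nat.add big (Nat.shiftLeft acc' pos)) (pkK l (nat_lit 0) (nat_lit 0) (Nat.add pos (nat_lit 8192))
        (Nat.add big (Nat.shiftLeft acc' pos)) K) = true := h2
      rw [frc_eq] at h5
      have h4 := ih 0 0 (pos + 8192) (big + acc' <<< pos) K h5
      refine ⟨hmem h4, ?_⟩
      have h6 : sh + 64 = 8192 := beq_eq hb
      have e1 : big + acc' <<< pos + (0 + pv l * 2 ^ 0) * 2 ^ (pos + 8192) =
          big + (acc + pv (e :: l) * 2 ^ sh) * 2 ^ pos := by
        rw [← hval, h6, Nat.shiftLeft_eq, pow_zero, pow_add 2 pos]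
        generalize (2 : ℕ) ^ 8192 = Z
        ring
      have e2 : pos + sh + 64 * (e :: l).length = pos + 8192 + 0 + 64 * l.length := by
        rw [List.length_cons]; omega
      rw [← e1, e2]
      exact h4.2

/-- the starts without zeros -/
def startsM (l : List (ℕ × ℕ)) : Multiset ℕ := ((l.map Prod.fst : List ℕ) : Multiset ℕ).filter (fun v => v ≠ 0)

/-- the ends without zeros -/
def endsM (l : List (ℕ × ℕ)) : Multiset ℕ :=
  ((l.map (fun e => e.1 + e.2) : List ℕ) : Multiset ℕ).filter (fun v => v ≠ 0)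

theorem fM_two (n x : ℕ) : fM (n + 1) x = (if x % 2 ^ 32 ≠ 0 then {x % 2 ^ 32} else 0) + fM n (x / 2 ^ 32) := by
  have key : ∀ n x, (Multiset.range (n + 1)).map (fld x) = fld x 0 ::ₘ (Multiset.range n).map (fld (x / 2 ^ 32)) := by
    intro n x
    induction n with
    | zero => rfl
    | succ n ih =>
      rw [Multiset.range_succ, Multiset.map_cons, ih, Multiset.range_succ, Multiset.map_cons, fld_succ,
        Multiset.cons_swap]
  unfold fM
  rw [key, Multiset.filter_cons, fld_zero]

theorem pv_lt (l : List (ℕ × ℕ)) (h : ∀ e ∈ l, e.1 + e.2 < 2 ^ 32) : pv l < 2 ^ (64 * l.length) := by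
  induction l with
  | nil => simp [pv]
  | cons e l ih =>
    have h1 := ih (fun e' he' => h e' (by simp [he']))
    have h2 := h e (by simp)
    rw [pv, List.length_cons, Nat.mul_add, pow_add]
    have : pv l + 1 ≤ 2 ^ (64 * l.length) := h1
    calc (e.1 + (e.1 + e.2) * 2 ^ 32) + pv l * 2 ^ 64 < 2 ^ 64 + pv l * 2 ^ 64 := by omega
      _ = (pv l + 1) * 2 ^ 64 := by ring
      _ ≤ 2 ^ (64 * l.length) * 2 ^ (64 * 1) := Nat.mul_le_mul_right _ this

/-- even fields -/
theorem evens (l : List (ℕ × ℕ)) (h : ∀ e ∈ l, e.1 + e.2 < 2 ^ 32) : ∀ (m : ℕ), (∀ i, i < 2 * l.length →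
    fld m i = if i % 2 = 0 then 2 ^ 32 - 1 else 0) → fM (2 * l.length) (pv l &&& m) = startsM l := by
  induction l with
  | nil => intro m _; simp [fM, startsM]
  | cons e l ih =>
    intro m hm
    have h2 := h e (by simp)
    have e1 : 2 * (e :: l).length = 2 * l.length + 1 + 1 := by rw [List.length_cons]; ring
    have hfld : ∀ i, fld (pv (e :: l) &&& m) i = fld (pv (e :: l)) i &&& fld m i := fun i => fld_land _ _ _
    have ediv : (pv (e :: l) &&& m) / 2 ^ 32 / 2 ^ 32 = pv l &&& (m / 2 ^ 32 / 2 ^ 32) := by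
      have e2 : pv (e :: l) / 2 ^ 32 / 2 ^ 32 = pv l := by
        rw [Nat.div_div_eq_div_mul, pv]
        omega
      have key : ∀ a b : ℕ, (a &&& b) / 2 ^ 32 = (a / 2 ^ 32) &&& (b / 2 ^ 32) := by
        intro a b
        rw [← Nat.shiftRight_eq_div_pow, Nat.shiftRight_and_distrib, Nat.shiftRight_eq_div_pow,
          Nat.shiftRight_eq_div_pow]
      rw [key, key, e2]
    have f0 : (pv (e :: l) &&& m) % 2 ^ 32 = e.1 := by
      rw [← fld_zero, hfld, hm 0 (by rw [e1]; omega), if_pos rfl, land_full (fld_lt _ _), fld_zero, pv]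
      omega
    have f1 : (pv (e :: l) &&& m) / 2 ^ 32 % 2 ^ 32 = 0 := by
      rw [← fld_zero, ← fld_succ, hfld, hm 1 (by rw [e1]; omega), if_neg (by norm_num), Nat.and_zero]
    rw [e1, fM_two, fM_two, f0, f1, ediv, ih (fun e' he' => h e' (by simp [he'])) (m / 2 ^ 32 / 2 ^ 32)]
    · unfold startsM
      rw [List.map_cons, ← Multiset.cons_coe, Multiset.filter_cons]
      simp
    · intro i hi
      rw [← fld_succ, ← fld_succ, hm (i + 1 + 1) (by rw [e1]; omega)]
      congr 1
      rw [eq_iff_iff]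
      omega

/-- odd fields -/
theorem odds (l : List (ℕ × ℕ)) (h : ∀ e ∈ l, e.1 + e.2 < 2 ^ 32) : ∀ (m : ℕ), (∀ i, i < 2 * l.length →
    fld m i = if i % 2 = 0 then 2 ^ 32 - 1 else 0) → fM (2 * l.length) ((pv l / 2 ^ 32) &&& m) = endsM l := by
  induction l with
  | nil => intro m _; simp [fM, endsM]
  | cons e l ih =>
    intro m hm
    have h2 := h e (by simp)
    have e1 : 2 * (e :: l).length = 2 * l.length + 1 + 1 := by rw [List.length_cons]; ring
    have hfld : ∀ i, fld ((pv (e :: l) / 2 ^ 32) &&& m) i = fld (pv (e :: l) / 2 ^ 32) i &&& fld m i :=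
      fun i => fld_land _ _ _
    have ediv : ((pv (e :: l) / 2 ^ 32) &&& m) / 2 ^ 32 / 2 ^ 32 = (pv l / 2 ^ 32) &&& (m / 2 ^ 32 / 2 ^ 32) := by
      have e2 : pv (e :: l) / 2 ^ 32 / 2 ^ 32 = pv l := by
        rw [Nat.div_div_eq_div_mul, pv]
        omega
      have key : ∀ a b : ℕ, (a &&& b) / 2 ^ 32 = (a / 2 ^ 32) &&& (b / 2 ^ 32) := by
        intro a b
        rw [← Nat.shiftRight_eq_div_pow, Nat.shiftRight_and_distrib, Nat.shiftRight_eq_div_pow,
          Nat.shiftRight_eq_div_pow]
      rw [key, key, e2]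
    have f0 : ((pv (e :: l) / 2 ^ 32) &&& m) % 2 ^ 32 = e.1 + e.2 := by
      rw [← fld_zero, hfld, hm 0 (by rw [e1]; omega), if_pos rfl, land_full (fld_lt _ _), fld_zero, pv]
      have e3 : (e.1 + (e.1 + e.2) * 2 ^ 32 + pv l * 2 ^ 64) / 2 ^ 32 = (e.1 + e.2) + pv l * 2 ^ 32 := by omega
      rw [e3]
      omega
    have f1 : ((pv (e :: l) / 2 ^ 32) &&& m) / 2 ^ 32 % 2 ^ 32 = 0 := by
      rw [← fld_zero, ← fld_succ, hfld, hm 1 (by rw [e1]; omega), if_neg (by norm_num), Nat.and_zero]
    rw [e1, fM_two, fM_two, f0, f1, ediv, ih (fun e' he' => h e' (by simp [he'])) (m / 2 ^ 32 / 2 ^ 32)]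
    · unfold endsM
      rw [List.map_cons, ← Multiset.cons_coe, Multiset.filter_cons]
      simp
    · intro i hi
      rw [← fld_succ, ← fld_succ, hm (i + 1 + 1) (by rw [e1]; omega)]
      congr 1
      rw [eq_iff_iff]
      omega

theorem mask_fld (t i : ℕ) (hi : i < 2 * 2 ^ (t - 1)) :
    fld (repD (Nat.sub t (nat_lit 1)) (nat_lit 2) (nat_lit 4294967295)) i =
      if i % 2 = 0 then 2 ^ 32 - 1 else 0 := by
  show fld (repD (t - 1) 2 4294967295) i = _
  rw [fld_repD (t - 1) 2 4294967295 (by norm_num) (by norm_num), if_pos hi]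
  rcases Nat.mod_two_eq_zero_or_one i with h | h
  · rw [h, if_pos rfl]
    decide
  · rw [h, if_neg (by norm_num)]
    decide

/-- **Part.** -/
theorem chkU_spec {t : ℕ} {us : List (ℕ × ℕ)} {zS zE : ℕ} {LS LE : List (List (ℕ × ℕ))} (ht : 1 ≤ t)
    (h : chkU t us zS LS zE LE = true) : startsM us = WL LS.flatten ∧ endsM us = WL LE.flatten := by
  obtain ⟨h1, h2⟩ := pkK_spec us _ _ _ _ _ h
  obtain ⟨h3, h4⟩ := thenB_eq h2
  obtain ⟨h5, h6⟩ := thenB_eq h4
  have hV : (nat_lit 0) + ((nat_lit 0) + pv us * 2 ^ (nat_lit 0)) * 2 ^ (nat_lit 0) = pv us := by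
    show 0 + (0 + pv us * 2 ^ 0) * 2 ^ 0 = pv us
    simp
  rw [hV] at h5 h6
  have hlen : us.length ≤ 2 ^ (t - 1) := by
    have : 0 + 0 + 64 * us.length ≤ 64 * 2 ^ (t - 1) := Nat.le_of_ble_eq_true h3
    omega
  have et : 2 * 2 ^ (t - 1) = 2 ^ t := by
    rw [← pow_succ']
    congr 1
    omega
  have hlt : pv us < 2 ^ (32 * (2 * us.length)) := by
    have := pv_lt us h1
    have e : 32 * (2 * us.length) = 64 * us.length := by ring
    rw [e]
    exact this
  constructor
  · rw [← chkV_spec h5]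
    have h7 : Nat.land (pv us) (repD (Nat.sub t (nat_lit 1)) (nat_lit 2) (nat_lit 4294967295)) < 2 ^ (32 * (2 * us.length)) :=
      lt_of_le_of_lt Nat.and_le_left hlt
    rw [fM_mono h7 (by omega)]
    exact (evens us h1 _ (fun i hi => mask_fld t i (by omega))).symm
  · rw [← chkV_spec h6]
    have e8 : Nat.shiftRight (pv us) (nat_lit 32) = pv us / 2 ^ 32 := Nat.shiftRight_eq_div_pow _ _
    have h7 : Nat.land (Nat.shiftRight (pv us) (nat_lit 32)) (repD (Nat.sub t (nat_lit 1)) (nat_lit 2) (nat_lit 4294967295)) <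
        2 ^ (32 * (2 * us.length)) := by
      refine lt_of_le_of_lt Nat.and_le_left (lt_of_le_of_lt ?_ hlt)
      rw [e8]
      exact Nat.div_le_self _ _
    rw [fM_mono h7 (by omega), e8]
    exact (odds us h1 _ (fun i hi => mask_fld t i (by omega))).symm

/-! ## the intervals cover an interval exactly once -/

theorem count_nums (us : List (ℕ × ℕ)) (n : ℕ) :
    Multiset.count n (nums us : Multiset ℕ) +
      Multiset.countP (fun v => v ≤ n) ((us.map (fun e => e.1 + e.2) : List ℕ) : Multiset ℕ) =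
      Multiset.countP (fun v => v ≤ n) ((us.map Prod.fst : List ℕ) : Multiset ℕ) := by
  induction us with
  | nil => simp [nums]
  | cons e us ih =>
    obtain ⟨k, m⟩ := e
    rw [List.map_cons, List.map_cons, ← Multiset.cons_coe, ← Multiset.cons_coe, Multiset.countP_cons,
      Multiset.countP_cons, nums, ← Multiset.coe_add, Multiset.count_add, ← ih]
    have h1 : Multiset.count n ((List.range' k m : List ℕ) : Multiset ℕ) = if k ≤ n ∧ n < k + m then 1 else 0 := by
      rw [Multiset.count_eq_of_nodup (Multiset.coe_nodup.2 (List.nodup_range' (step := 1)))]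
      simp only [Multiset.mem_coe, List.mem_range'_1]
    rw [h1]
    simp only
    split_ifs <;> omega

theorem nz_split (s : Multiset ℕ) : s = s.filter (fun v => v ≠ 0) +
    Multiset.replicate (Multiset.card s - Multiset.card (s.filter (fun v => v ≠ 0))) 0 := by
  have h1 := Multiset.filter_add_not (fun v : ℕ => v ≠ 0) s
  have h2 : s.filter (fun v => ¬ v ≠ 0) = Multiset.replicate (Multiset.card (s.filter (fun v => ¬ v ≠ 0))) 0 := by
    rw [Multiset.eq_replicate_card]
    intro b hb
    have := (Multiset.mem_filter.1 hb).2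
    exact not_not.1 this
  have h3 : Multiset.card (s.filter (fun v => v ≠ 0)) + Multiset.card (s.filter (fun v => ¬ v ≠ 0)) =
      Multiset.card s := by
    rw [← Multiset.card_add, h1]
  have h4 : Multiset.card s - Multiset.card (s.filter (fun v => v ≠ 0)) =
      Multiset.card (s.filter (fun v => ¬ v ≠ 0)) := by omega
  rw [h4, ← h2, h1]

/-- **Telescope**: the intervals cover `[a, N)` exactly once. -/
theorem cover {us : List (ℕ × ℕ)} {a N : ℕ} (haN : a ≤ N) (h : startsM us + {N} = endsM us + {a}) :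
    (nums us : Multiset ℕ) = (Finset.Ico a N).val := by
  set S : Multiset ℕ := ((us.map Prod.fst : List ℕ) : Multiset ℕ) with hS
  set E : Multiset ℕ := ((us.map (fun e => e.1 + e.2) : List ℕ) : Multiset ℕ) with hE
  have hcS : Multiset.card S = us.length := by rw [hS]; simp
  have hcE : Multiset.card E = us.length := by rw [hE]; simp
  have h0 : S.filter (fun v => v ≠ 0) + {N} = E.filter (fun v => v ≠ 0) + {a} := h
  have hc : Multiset.card (S.filter (fun v => v ≠ 0)) = Multiset.card (E.filter (fun v => v ≠ 0)) := by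
    have := congrArg Multiset.card h0
    simpa using this
  have h1 : S + {N} = E + {a} := by
    rw [nz_split S, nz_split E, hcS, hcE, ← hc]
    calc S.filter (fun v => v ≠ 0) + Multiset.replicate (us.length - Multiset.card (S.filter (fun v => v ≠ 0))) 0 + {N}
        = (S.filter (fun v => v ≠ 0) + {N}) +
          Multiset.replicate (us.length - Multiset.card (S.filter (fun v => v ≠ 0))) 0 := by abel
      _ = _ := by rw [h0]; abel
  ext n
  have h2 := count_nums us n
  rw [← hS, ← hE] at h2
  have h3 := congrArg (Multiset.countP (fun v => v ≤ n)) h1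
  rw [Multiset.countP_add, Multiset.countP_add] at h3
  have h4 : ∀ b : ℕ, Multiset.countP (fun v => v ≤ n) ({b} : Multiset ℕ) = if b ≤ n then 1 else 0 := by
    intro b
    rw [← Multiset.cons_zero, Multiset.countP_cons, Multiset.countP_zero, zero_add]
  rw [h4, h4] at h3
  have h5 : Multiset.count n (Finset.Ico a N).val = if a ≤ n ∧ n < N then 1 else 0 := by
    rw [Multiset.count_eq_of_nodup (Finset.Ico a N).nodup]
    simp only [Finset.mem_val, Finset.mem_Ico]
  rw [h5]
  have h6 : (if a ≤ n ∧ n < N then 1 else 0) + (if N ≤ n then 1 else 0) = (if a ≤ n then 1 else 0 : ℕ) := by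
    split_ifs <;> omega
  omega

theorem startsM_append (l l' : List (ℕ × ℕ)) : startsM (l ++ l') = startsM l + startsM l' := by
  unfold startsM
  rw [List.map_append, ← Multiset.coe_add, Multiset.filter_add]

theorem endsM_append (l l' : List (ℕ × ℕ)) : endsM (l ++ l') = endsM l + endsM l' := by
  unfold endsM
  rw [List.map_append, ← Multiset.coe_add, Multiset.filter_add]

theorem startsM_flatten (U : List (List (ℕ × ℕ))) : startsM U.flatten = (U.map startsM).sum := by
  induction U with
  | nil => simp [startsM]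
  | cons l U ih => rw [List.flatten_cons, startsM_append, ih, List.map_cons, List.sum_cons]

theorem endsM_flatten (U : List (List (ℕ × ℕ))) : endsM U.flatten = (U.map endsM).sum := by
  induction U with
  | nil => simp [endsM]
  | cons l U ih => rw [List.flatten_cons, endsM_append, ih, List.map_cons, List.sum_cons]

theorem nums_flatten (U : List (List (ℕ × ℕ))) :
    (nums U.flatten : Multiset ℕ) = (U.map (fun l => (nums l : Multiset ℕ))).sum := by
  induction U with
  | nil => simp [nums]
  | cons l U ih => rw [List.flatten_cons, nums_append, ← Multiset.coe_add, ih, List.map_cons, List.sum_cons]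

theorem WL_flatten (L : List (List (ℕ × ℕ))) : WL L.flatten = (L.map WL).sum := by
  induction L with
  | nil => simp [WL]
  | cons l L ih => rw [List.flatten_cons, WL_append, ih, List.map_cons, List.sum_cons]

theorem sum_getD (L : List (List (ℕ × ℕ))) (W : ℕ) (h : L.length ≤ W) :
    WL L.flatten = ∑ w ∈ Finset.range W, WL (L.getD w []) := by
  rw [WL_flatten]
  induction L generalizing W with
  | nil => simp [WL]
  | cons l L ih =>
    obtain ⟨W', rfl⟩ : ∃ W', W = W' + 1 := ⟨W - 1, by simp at h; omega⟩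
    rw [List.map_cons, List.sum_cons, Finset.sum_range_succ', ih W' (by simpa using h), add_comm]
    rfl

theorem col_sum (LL : List (List (List (ℕ × ℕ)))) (W : ℕ) (h : ∀ L ∈ LL, L.length ≤ W) :
    (LL.map (fun L => WL L.flatten)).sum = ∑ w ∈ Finset.range W, WL (col w LL) := by
  induction LL with
  | nil => simp [col, WL]
  | cons L LL ih =>
    rw [List.map_cons, List.sum_cons, ih (fun L' hL' => h L' (by simp [hL'])),
      sum_getD L W (h L (by simp)), ← Finset.sum_add_distrib]
    apply Finset.sum_congr rfl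
    intro w _
    unfold col
    rw [List.map_cons, List.flatten_cons, WL_append]

/-- **Coverage.**  `U` = the lists of intervals of the parts; `AS`, `AE` = the sorted starts and ends, cut at the
window borders (part by part); one extra part with the start `N` and the end `a`. -/
theorem cover_final {U : List (List (ℕ × ℕ))} {AS AE : List (List (List (ℕ × ℕ)))} {W a N : ℕ} (haN : a ≤ N)
    (hS : List.Forall₂ (fun us L => startsM us = WL L.flatten) U AS)
    (hE : List.Forall₂ (fun us L => endsM us = WL L.flatten) U AE)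
    (LS LE : List (List (ℕ × ℕ))) (hN : WL LS.flatten = {N}) (ha : WL LE.flatten = {a})
    (hlS : ∀ L ∈ LS :: AS, L.length ≤ W) (hlE : ∀ L ∈ LE :: AE, L.length ≤ W)
    (hw : ∀ w < W, WL (col w (LS :: AS)) = WL (col w (LE :: AE))) :
    (U.map (fun l => (nums l : Multiset ℕ))).sum = (Finset.Ico a N).val := by
  rw [← nums_flatten]
  apply cover haN
  have h1 : startsM U.flatten = (AS.map (fun L => WL L.flatten)).sum := by
    rw [startsM_flatten]
    clear hw hlS hlE hE
    induction hS with
    | nil => rfl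
    | cons h _ ih => rw [List.map_cons, List.sum_cons, List.map_cons, List.sum_cons, h, ih]
  have h2 : endsM U.flatten = (AE.map (fun L => WL L.flatten)).sum := by
    rw [endsM_flatten]
    clear hw hlS hlE hS h1
    induction hE with
    | nil => rfl
    | cons h _ ih => rw [List.map_cons, List.sum_cons, List.map_cons, List.sum_cons, h, ih]
  have h3 := col_sum (LS :: AS) W hlS
  have h4 := col_sum (LE :: AE) W hlE
  rw [List.map_cons, List.sum_cons, hN, ← h1] at h3
  rw [List.map_cons, List.sum_cons, ha, ← h2] at h4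
  rw [add_comm, h3, add_comm, h4]
  exact Finset.sum_congr rfl (fun w hw' => hw w (Finset.mem_range.1 hw'))

end Pool.Agent.MMS.Sv
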