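import Pool.Agent.MP_94f265_co.ST.Glue
import Pool.Agent.MP_94f265_co.ST.Bt
import Pool.Agent.MP_94f265_co.ST.Simd

/-!
# Assembly of the parts
-/

namespace Pool.Agent.MMS

open Pool.Agent.MM1 Pool.Agent.MM2

/-- Consecutive parts from the stack `st` to the stack `st'`.  `AS`, `AE` = the sorted starts and ends of the used
intervals (one entry for every part); `P` = property of the walls with bits, of the owed numbers of the free
contexts, of the objects and of the box. -/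
def Seg (st st' : List Ctx) (AS AE : List (List (List (ℕ × ℕ))))
    (P : Multiset (ℕ × ℕ × ℕ) → Multiset ℕ → Multiset Obj → Multiset (ℝ × ℝ) → Prop) : Prop :=
  ∃ (Us : List (List (ℕ × ℕ))) (W : Multiset (ℕ × ℕ × ℕ)) (O : Multiset ℕ),
    List.Forall₂ (fun us L => Sv.startsM us = Sv.WL L.flatten) Us AS ∧
    List.Forall₂ (fun us L => Sv.endsM us = Sv.WL L.flatten) Us AE ∧
    numL st' + (wnum W + O) ≤ (Us.map (fun l => (nums l : Multiset ℕ))).sum + numL st ∧
    OkP st st' (Us.map (fun l => (nums l : Multiset ℕ))).sum (P W O)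

/-- no part -/
theorem Seg.nil (st : List Ctx) {P : Multiset (ℕ × ℕ × ℕ) → Multiset ℕ → Multiset Obj → Multiset (ℝ × ℝ) → Prop}
    (hP : P 0 0 0 0) : Seg st st [] [] P := by
  refine ⟨[], 0, 0, List.Forall₂.nil, List.Forall₂.nil, ?_, ?_⟩
  · rw [wnum_zero]
    refine le_of_eq ?_
    simp
  · rw [List.map_nil, List.sum_nil]
    refine (OkP_refl st).mono ?_
    rintro Q B ⟨rfl, rfl⟩
    exact hP

/-- one more part in front -/
theorem Seg.cons {t : ℕ} {st st1 st2 : List Ctx} {prog : List ℕ} {zS zE : ℕ} {LS LE : List (List (ℕ × ℕ))}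
    {AS AE : List (List (List (ℕ × ℕ)))} {cf : List Ctx → Bool}
    {P P' P'' : Multiset (ℕ × ℕ × ℕ) → Multiset ℕ → Multiset Obj → Multiset (ℝ × ℝ) → Prop} (ht : 1 ≤ t)
    (h : chkPart prog st st1 (fun us fr => Sv.chkU t us zS LS zE LE && cf fr) = true)
    (hcf : ∀ fr, cf fr = true → FreeOK fr (P (walls fr) (owedL fr)))
    (hadd : ∀ W W' O O' Q Q' B B', P W O Q B → P' W' O' Q' B' → P'' (W + W') (O + O') (Q + Q') (B + B'))
    (hs : Seg st1 st2 AS AE P') : Seg st st2 (LS :: AS) (LE :: AE) P'' := by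
  obtain ⟨us, fr, ok, hbt, hf⟩ := chkPart_sound2 h
  rw [Bool.and_eq_true] at hf
  obtain ⟨hU, hc⟩ := hf
  obtain ⟨h1, h2⟩ := Sv.chkU_spec ht hU
  obtain ⟨Us, W, O, s1, s2, s3, s4⟩ := hs
  refine ⟨us :: Us, walls fr + W, owedL fr + O, List.Forall₂.cons h1 s1, List.Forall₂.cons h2 s2, ?_, ?_⟩
  · rw [List.map_cons, List.sum_cons, wnum_add, ← btN_walls]
    have e1 := add_le_add hbt s3
    have e2 : numL st1 + numL fr + (numL st2 + (wnum W + O)) =
        numL st2 + (btN fr + wnum W + (owedL fr + O)) + numL st1 := by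
      unfold numL
      abel
    have e3 : (nums us : Multiset ℕ) + numL st + ((Us.map (fun l => (nums l : Multiset ℕ))).sum + numL st1) =
        (nums us : Multiset ℕ) + (Us.map (fun l => (nums l : Multiset ℕ))).sum + numL st + numL st1 := by abel
    rw [e2, e3] at e1
    exact le_of_add_le_add_right e1
  · rw [List.map_cons, List.sum_cons]
    refine (OkP_trans (OkP_of ok (hcf fr hc)) s4).mono ?_
    rintro Q B ⟨Q1, B1, Q2, B2, p1, p2, rfl, rfl⟩
    exact hadd _ _ _ _ _ _ _ _ p1 p2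

/-- a single entry -/
theorem WL_single {L : List (List (ℕ × ℕ))} {v : ℕ} (h : L.flatten = [(1, v)]) (h0 : 0 < v) (h1 : v < 2 ^ 32) :
    Sv.WL L.flatten = {v} := by
  rw [h, Sv.WL_cons]
  have e : Sv.WL [] = 0 := by simp [Sv.WL]
  rw [e, add_zero]
  show Sv.fM (0 + 1) v = {v}
  rw [Sv.fM_two, Nat.mod_eq_of_lt h1, if_pos (by omega)]
  simp [Sv.fM]

/-- all entries have at most `W` windows -/
def lenB (W : ℕ) : List (List (List (ℕ × ℕ))) → Bool
  | [] => true
  | L :: l => Nat.ble L.length W && lenB W l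

theorem lenB_mem {W : ℕ} : ∀ {l : List (List (List (ℕ × ℕ)))}, lenB W l = true → ∀ L ∈ l, L.length ≤ W := by
  intro l
  induction l with
  | nil => intro _ L hL; simp at hL
  | cons a l ih =>
    intro h L hL
    simp only [lenB, Bool.and_eq_true] at h
    rcases List.mem_cons.1 hL with rfl | hL
    · exact Nat.le_of_ble_eq_true h.1
    · exact ih h.2 L hL

theorem win_zero {f : ℕ → Bool} : ∀ w < 0, f w = true := fun w hw => absurd hw (Nat.not_lt_zero w)

theorem win_succ {f : ℕ → Bool} {n : ℕ} (h : ∀ w < n, f w = true) (h' : f n = true) : ∀ w < n + 1, f w = true := by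
  intro w hw
  rcases Nat.lt_succ_iff_lt_or_eq.1 hw with h1 | rfl
  · exact h w h1
  · exact h'

/-- **Coverage.**  The parts use exactly the numbers `a, ..., N - 1`. -/
theorem Seg.cover {t a N W : ℕ} {st0 : List Ctx} {AS AE : List (List (List (ℕ × ℕ)))} {XS XE : List (List (ℕ × ℕ))}
    {P : Multiset (ℕ × ℕ × ℕ) → Multiset ℕ → Multiset Obj → Multiset (ℝ × ℝ) → Prop} (hseg : Seg st0 [] AS AE P)
    (hst : allPc st0 = true) (ha : 0 < a) (haN : a ≤ N) (hN : N < 2 ^ 32)
    (hXS : XS.flatten = [(1, N)]) (hXE : XE.flatten = [(1, a)])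
    (hlS : lenB W (XS :: AS) = true) (hlE : lenB W (XE :: AE) = true)
    (hw : ∀ w < W, Sv.chkW t (Sv.col w (XS :: AS)) (Sv.col w (XE :: AE)) = true) :
    ∃ Ws O, wnum Ws + O ≤ (Finset.Ico a N).val ∧ OkP st0 [] (Finset.Ico a N).val (P Ws O) := by
  obtain ⟨Us, Ws, O, s1, s2, s3, s4⟩ := hseg
  have hV : (Us.map (fun l => (nums l : Multiset ℕ))).sum = (Finset.Ico a N).val :=
    Sv.cover_final haN s1 s2 XS XE (WL_single hXS (by omega) hN) (WL_single hXE ha (by omega))
      (lenB_mem hlS) (lenB_mem hlE) (fun w hw' => Sv.chkW_spec (hw w hw'))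
  rw [hV] at s3 s4
  refine ⟨Ws, O, ?_, s4⟩
  rw [allPc_numL hst, numL_nil, zero_add, add_zero] at s3
  exact s3

/-- **The start state.**  The numbers `1, ..., n1` are placed, `st0` = the free boxes then; the parts use
`n1 + 1, ..., NN - 1`. -/
theorem asm {t n1 W : ℕ} {G0 : Multiset (ℝ × ℝ)} {st0 : List Ctx} {AS AE : List (List (List (ℕ × ℕ)))}
    {XS XE : List (List (ℕ × ℕ))}
    {P : Multiset (ℕ × ℕ × ℕ) → Multiset ℕ → Multiset Obj → Multiset (ℝ × ℝ) → Prop}
    (hroots : Cut {(1, 1)} (units (List.range' 1 n1) + G0)) (hrz : RzL st0 G0) (how : owedL st0 = 0)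
    (hst : allPc st0 = true) (hseg : Seg st0 [] AS AE P) (hn : n1 + 1 ≤ MM2.NN)
    (hXS : XS.flatten = [(1, MM2.NN)]) (hXE : XE.flatten = [(1, n1 + 1)])
    (hlS : lenB W (XS :: AS) = true) (hlE : lenB W (XE :: AE) = true)
    (hw : ∀ w < W, Sv.chkW t (Sv.col w (XS :: AS)) (Sv.col w (XE :: AE)) = true)
    (hP : ∀ Ws O Q B, wnum Ws + O ≤ (Finset.Ico (n1 + 1) MM2.NN).val → P Ws O Q B → FinProp Q B) :
    ∃ Q X Y, StartOK Q X Y := by
  have hNN : MM2.NN < 2 ^ 32 := by unfold MM2.NN; norm_num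
  obtain ⟨Ws, O, s3, s4⟩ := hseg.cover hst (Nat.succ_pos n1) hn hNN hXS hXE hlS hlE hw
  refine startOK_of hroots hrz how s4 ?_ (fun Q B h => hP Ws O Q B s3 h)
  obtain ⟨r, hr⟩ := Nat.exists_eq_add_of_le hn
  have e1 : (Finset.Ico (n1 + 1) MM2.NN).val = ((List.range' (n1 + 1) r : List ℕ) : Multiset ℕ) := by
    have : MM2.NN - (n1 + 1) = r := by omega
    rw [← this]
    rfl
  have e2 : (Finset.Ico 1 MM2.NN).val = ((List.range' 1 (n1 + r) : List ℕ) : Multiset ℕ) := by
    have : MM2.NN - 1 = n1 + r := by omega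
    rw [← this]
    rfl
  rw [e1, e2, ← List.range'_append_1, ← Multiset.coe_add, Nat.add_comm 1 n1]

end Pool.Agent.MMS
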