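import Pool.Agent.MP_94f265_co.ST.FinP
import Pool.Agent.MP_94f265_co.MM2.NumL

/-!
# Final state check: plain rectangles, lists of rectangles, the box
-/

namespace Pool.Agent.MMS.Fi

open Pool.Agent.MM1 Pool.Agent.MM2

variable {QB : ℕ × ℕ × ℕ → Multiset Obj} {WOK : ℕ × ℕ × ℕ → Prop}

/-! ## Classes -/

/-- the thicknesses with `pOK` -/
theorem pOK_sound {y1 y2 sl sh K1 K2 : ℕ} (h : pOK y1 y2 sl sh = true) (hK1 : 1 ≤ K1) (hK2 : 2 ≤ K2)
    (h1 : y1 + 1 = 5 * K1) (h2 : y2 + 6 = 5 * K2) {t : ℝ} (ht : In sl sh t) :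
    MM2.Th K1 ≤ t ∧ t < MM2.Th (K2 - 1) := by
  unfold pOK at h
  rw [thenB_iff] at h
  obtain ⟨g1, g2⟩ := h
  have g1 : 52890359539131677122560000000000000 ≤ sl * (y1 * (y1 * y1)) := Nat.le_of_ble_eq_true g1
  have g2 : sh * (y2 * (y2 * y2)) ≤ 52890359539131677122559999999999999 := Nat.le_of_ble_eq_true g2
  have e1 : (52890359539131677122560000000000000 : ℝ) ≤ (sl : ℝ) * ((y1 : ℝ) * (y1 * y1)) := by exact_mod_cast g1
  have e2 : (sh : ℝ) * ((y2 : ℝ) * (y2 * y2)) ≤ (52890359539131677122559999999999999 : ℝ) := by exact_mod_cast g2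
  have f1 : (y1 : ℝ) = 5 * (K1 : ℝ) - 1 := by
    have : ((y1 + 1 : ℕ) : ℝ) = ((5 * K1 : ℕ) : ℝ) := by rw [h1]
    push_cast at this
    linarith
  have f2 : (y2 : ℝ) = 5 * (K2 : ℝ) - 6 := by
    have : ((y2 + 6 : ℕ) : ℝ) = ((5 * K2 : ℕ) : ℝ) := by rw [h2]
    push_cast at this
    linarith
  have p1 : (0 : ℝ) < y1 := by
    rw [f1]
    have : (1 : ℝ) ≤ K1 := by exact_mod_cast hK1
    linarith
  have p2 : (0 : ℝ) < y2 := by
    rw [f2]
    have : (2 : ℝ) ≤ K2 := by exact_mod_cast hK2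
    linarith
  have hSC := SC_pos
  have hS : (52890359539131677122560000000000000 : ℝ) = 5120 * (SC : ℝ) / 3 := by
    unfold SC
    norm_num
  rw [hS] at e1
  have hS2 : (52890359539131677122559999999999999 : ℝ) < 5120 * (SC : ℝ) / 3 := by
    rw [← hS]
    norm_num
  have q1 : (0 : ℝ) < (y1 : ℝ) * (y1 * y1) := by positivity
  have q2 : (0 : ℝ) < (y2 : ℝ) * (y2 * y2) := by positivity
  constructor
  · unfold MM2.Th
    rw [← f1, div_le_iff₀ (by positivity)]
    have a1 : (sl : ℝ) * ((y1 : ℝ) * (y1 * y1)) ≤ t * SC * ((y1 : ℝ) * (y1 * y1)) :=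
      mul_le_mul_of_nonneg_right ht.1 q1.le
    have a2 : (5120 / 3) * (SC : ℝ) ≤ (t * ((y1 : ℝ) * (y1 * y1))) * SC := by linarith
    have a3 := le_of_mul_le_mul_right a2 hSC
    have a4 : (y1 : ℝ) ^ 3 = (y1 : ℝ) * (y1 * y1) := by ring
    rw [a4]
    linarith
  · rw [Num.Th_pred (by omega), ← f2, lt_div_iff₀ (by positivity)]
    have a1 : t * SC * ((y2 : ℝ) * (y2 * y2)) ≤ (sh : ℝ) * ((y2 : ℝ) * (y2 * y2)) :=
      mul_le_mul_of_nonneg_right ht.2 q2.le
    have a2 : (t * ((y2 : ℝ) * (y2 * y2))) * SC < (5120 / 3) * (SC : ℝ) := by linarith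
    have a3 := lt_of_mul_lt_mul_right a2 hSC.le
    have a4 : (y2 : ℝ) ^ 3 = (y2 : ℝ) * (y2 * y2) := by ring
    rw [a4]
    linarith

/-- the last class of the position `q` -/
def KBq (q : ℕ) : ℕ :=
  if q ≤ 18879 then q + 1600 else if q ≤ 24511 then 8 * q - 130553 else if q ≤ 28607 then 16 * q - 326641 else
  if q ≤ 30655 then 64 * q - 1699777 else 2048 * q - 62519297

/-- the first class of the position `q` -/
def KAq (q : ℕ) : ℕ :=
  if q ≤ 18879 then q + 1600 else if q ≤ 24511 then 8 * q - 130560 else if q ≤ 28607 then 16 * q - 326656 else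
  if q ≤ 30655 then 64 * q - 1699840 else 2048 * q - 62521344

theorem rec_ble {α : Type} (x y : α) (a b : ℕ) :
    (Bool.rec (motive := fun _ => α) x y (Nat.ble a b) : α) = if a ≤ b then y else x := by
  cases h : Nat.ble a b with
  | true =>
    have : a ≤ b := Nat.le_of_ble_eq_true h
    rw [if_pos this]
  | false =>
    have : b < a := lt_of_ble_false h
    rw [if_neg (by omega)]

theorem yy1_eq (q : ℕ) : yy1 q + 1 = 5 * KBq q := by
  unfold yy1 KBq
  simp only [rec_ble]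
  by_cases h1 : q ≤ 18879
  · rw [if_pos h1, if_pos h1]
    show 5 * q + 7999 + 1 = _
    omega
  rw [if_neg h1, if_neg h1]
  by_cases h2 : q ≤ 24511
  · rw [if_pos h2, if_pos h2]
    show 40 * q - 652766 + 1 = _
    omega
  rw [if_neg h2, if_neg h2]
  by_cases h3 : q ≤ 28607
  · rw [if_pos h3, if_pos h3]
    show 80 * q - 1633206 + 1 = _
    omega
  rw [if_neg h3, if_neg h3]
  by_cases h4 : q ≤ 30655
  · rw [if_pos h4, if_pos h4]
    show 320 * q - 8498886 + 1 = _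
    omega
  rw [if_neg h4, if_neg h4]
  show 10240 * q - 312596486 + 1 = _
  omega

theorem yy2_eq (q : ℕ) : yy2 q + 6 = 5 * KAq q := by
  unfold yy2 KAq
  simp only [rec_ble]
  by_cases h1 : q ≤ 18879
  · rw [if_pos h1, if_pos h1]
    show 5 * q + 7994 + 6 = _
    omega
  rw [if_neg h1, if_neg h1]
  by_cases h2 : q ≤ 24511
  · rw [if_pos h2, if_pos h2]
    show 40 * q - 652806 + 6 = _
    omega
  rw [if_neg h2, if_neg h2]
  by_cases h3 : q ≤ 28607
  · rw [if_pos h3, if_pos h3]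
    show 80 * q - 1633286 + 6 = _
    omega
  rw [if_neg h3, if_neg h3]
  by_cases h4 : q ≤ 30655
  · rw [if_pos h4, if_pos h4]
    show 320 * q - 8499206 + 6 = _
    omega
  rw [if_neg h4, if_neg h4]
  show 10240 * q - 312606726 + 6 = _
  omega

theorem KAq_ge (q : ℕ) : 1600 ≤ KAq q := by
  unfold KAq
  split_ifs <;> omega

theorem KBq_lt {q : ℕ} (h : q ≤ 31039) : KBq q < 1048576 := by
  unfold KBq
  split_ifs <;> omega

theorem posK_ge {q K : ℕ} (h : KAq q ≤ K) (hK : K < 1048576) : q ≤ posK K := by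
  unfold KAq at h
  unfold posK
  split_ifs at h <;> split_ifs <;> omega

theorem posK_le {q K : ℕ} (h : K ≤ KBq q) (hq : q ≤ 31039) : posK K ≤ q := by
  unfold KBq at h
  unfold posK
  split_ifs at h <;> split_ifs <;> omega

/-- **the class of a thickness**, several positions -/
theorem posM_class {q j sl sh : ℕ} (hq : q + j ≤ 31039) (h : pOK (yy1 (q + j)) (yy2 q) sl sh = true)
    {t : ℝ} (ht : In sl sh t) :
    0 < t ∧ t < MM2.Th 1599 ∧ 1600 ≤ kc t ∧ kc t < 1048576 ∧ q ≤ posK (kc t) ∧ posK (kc t) ≤ q + j := by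
  have h1 := KAq_ge q
  have h1' := KAq_ge (q + j)
  have h2 := KBq_lt hq
  have h3 := yy1_eq (q + j)
  have h4 := yy2_eq q
  have h5 : 1 ≤ KBq (q + j) := by
    unfold KBq
    split_ifs <;> omega
  obtain ⟨a, b⟩ := pOK_sound h h5 (by omega) h3 h4 ht
  have ht0 : 0 < t := (Th_pos h5).trans_le a
  have h6 : kc t ≤ KBq (q + j) := kc_le h5 a
  have h7 : KAq q ≤ kc t := by
    by_contra hcon
    push Not at hcon
    have h3 := kc_spec ht0
    have h4 : MM2.Th (KAq q - 1) ≤ MM2.Th (kc t) := Th_anti h3.1 (by omega)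
    linarith [h3.2]
  exact ⟨ht0, b.trans_le (Th_anti (by norm_num) (by omega)), by omega, by omega, posK_ge h7 (by omega),
    posK_le h6 hq⟩

theorem posOK_pOK {q sl sh : ℕ} (h : posOK q sl sh = true) :
    q ≤ 31039 ∧ pOK (yy1 q) (yy2 q) sl sh = true := by
  unfold posOK at h
  unfold yy1 yy2
  simp only [rec_ble] at h ⊢
  by_cases h1 : q ≤ 18879
  · rw [if_pos h1] at h ⊢
    rw [if_pos h1]
    exact ⟨by omega, h⟩
  rw [if_neg h1] at h ⊢
  rw [if_neg h1]
  by_cases h2 : q ≤ 24511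
  · rw [if_pos h2] at h ⊢
    rw [if_pos h2]
    exact ⟨by omega, h⟩
  rw [if_neg h2] at h ⊢
  rw [if_neg h2]
  by_cases h3 : q ≤ 28607
  · rw [if_pos h3] at h ⊢
    rw [if_pos h3]
    exact ⟨by omega, h⟩
  rw [if_neg h3] at h ⊢
  rw [if_neg h3]
  by_cases h4 : q ≤ 30655
  · rw [if_pos h4] at h ⊢
    rw [if_pos h4]
    exact ⟨by omega, h⟩
  rw [if_neg h4] at h ⊢
  rw [if_neg h4]
  have h := thenB_iff.1 h
  exact ⟨Nat.le_of_ble_eq_true h.1, h.2⟩

/-- **the class of a thickness** -/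
theorem posOK_class {q sl sh : ℕ} (h : posOK q sl sh = true) {t : ℝ} (ht : In sl sh t) :
    0 < t ∧ t < MM2.Th 1599 ∧ 1600 ≤ kc t ∧ kc t < 1048576 ∧ posK (kc t) = q ∧ q ≤ 31039 := by
  obtain ⟨h1, h2⟩ := posOK_pOK h
  obtain ⟨a1, a2, a3, a4, a5, a6⟩ := posM_class (q := q) (j := 0) (by omega) h2 ht
  exact ⟨a1, a2, a3, a4, by omega, h1⟩

/-! ## One plain object -/

theorem lenU_le (lh : ℕ) : (lh : ℝ) / 2 ^ 64 ≤ (lenU lh : ℝ) := by
  have e : lenU lh = 1 + lh / 2 ^ 64 := by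
    show 1 + (lh >>> 64) = _
    rw [Nat.shiftRight_eq_div_pow]
  have h := Nat.div_add_mod lh (2 ^ 64)
  have h2 := Nat.mod_lt lh (by norm_num : 0 < 2 ^ 64)
  have h3 : lh ≤ 2 ^ 64 * lenU lh := by
    rw [e]
    omega
  rw [div_le_iff₀ (by norm_num)]
  have : (lh : ℝ) ≤ ((2 ^ 64 * lenU lh : ℕ) : ℝ) := by exact_mod_cast h3
  push_cast at this
  linarith

theorem cellsOf_plain1 (p : ℝ × ℝ) : cellsOf {plainObj p} = {p} := by
  have := cells_plain {p}
  rwa [Multiset.map_singleton] at this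

theorem potOf_plain1 (p : ℝ × ℝ) : potOf {plainObj p} = 0 := by
  have := potOf_plain {p}
  rwa [Multiset.map_singleton] at this

theorem touched_plain (p : ℝ × ℝ) : touched (plainObj p) = {kc p.1} := by
  unfold touched
  rw [plainObj_cells]
  simp

/-- the potential of a plain object -/
theorem psi1_plain {p : ℝ × ℝ} (h0 : 0 < p.1) (hK : 1600 ≤ kc p.1) :
    psi1 {plainObj p} ≤ (3115 / 1000) * p.1 := by
  have hr := Num.Th_ratio' (K := kc p.1) (by omega)
  have hs := (kc_spec h0).2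
  have hKr : (1600 : ℝ) ≤ (kc p.1 : ℝ) := by exact_mod_cast hK
  have hT : 0 ≤ MM2.Th (kc p.1 - 1) := (Th_pos (by omega)).le
  have h52 : (52 / (kc p.1 : ℝ)) ≤ 52 / 1600 := div_le_div_of_nonneg_left (by norm_num) (by norm_num) hKr
  unfold psi1
  rw [cellsOf_plain1]
  simp only [Multiset.map_singleton, Multiset.sum_singleton, touched_plain, Finset.sum_singleton]
  have h1 : (52 / (kc p.1 : ℝ)) * MM2.Th (kc p.1 - 1) ≤ 52 / 1600 * MM2.Th (kc p.1 - 1) :=
    mul_le_mul_of_nonneg_right h52 hT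
  have h2 : MM2.Th (kc p.1 - 1) ≤ 10019 / 10000 * p.1 := by linarith
  linarith

/-- one plain object, general form -/
theorem PE_plain_gen {E : List (ℕ × ℕ)} {sh lh : ℕ} {s l : ℝ} (h0 : 0 < s) (hT : s < MM2.Th 1599)
    (hK : 1600 ≤ kc s) (hE : lenU lh ≤ fieldS (posK (kc s)) E) (hB : fieldS 31041 E = 0)
    (hs : s * (SC : ℝ) ≤ (sh : ℝ)) (hl : l * (SC : ℝ) ≤ (lh : ℝ)) (hsl : 51 / 50 * s ≤ l) :
    PE QB WOK E sh 0 0 {plainObj (s, l)} 0 0 0 0 := by
  have hl0 : 0 ≤ l := by linarith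
  have hSC := SC_pos
  refine ⟨?_, ?_, ?_, ?_, ?_, ?_, ?_, ?_, ?_, ?_, ?_, ?_, ?_⟩
  · intro o ho
    rw [Multiset.mem_singleton.1 ho]
    exact MM2.plain_inv (T := MM2.Th (i0 - 1)) (p := (s, l)) h0 hT hsl
  · intro K hK2
    rw [cellsOf_plain1, lenK_single]
    have hK3 : 1600 ≤ K := hK2
    by_cases hc : MM2.Th K ≤ s ∧ s < MM2.Th (K - 1)
    · have e : kc s = K := kc_eq (by omega) hc.1 hc.2
      rw [if_pos hc, ← e]
      have h1 := lenU_le lh
      have h2 : l * ((SC : ℝ) / 2 ^ 64) = (l * SC) / 2 ^ 64 := by ring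
      have h3 : (lenU lh : ℝ) ≤ (fieldS (posK (kc s)) E : ℝ) := by exact_mod_cast hE
      show l * ((SC : ℝ) / 2 ^ 64) ≤ _
      rw [h2]
      exact ((div_le_div_of_nonneg_right hl (by positivity)).trans h1).trans h3
    · rw [if_neg hc, zero_mul]
      positivity
  · have h1 := psi1_plain (p := (s, l)) h0 hK
    have h2 : psi2 {plainObj (s, l)} = 0 := by
      unfold psi2
      rw [potOf_plain1]
      simp
    rw [add_zero, h2, add_zero]
    calc psi1 {plainObj (s, l)} * (SC : ℝ) ≤ (3115 / 1000) * s * SC := mul_le_mul_of_nonneg_right h1 hSC.le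
      _ = (3115 / 1000) * (s * SC) := by ring
      _ ≤ (3115 / 1000) * (sh : ℝ) := mul_le_mul_of_nonneg_left hs (by norm_num)
  · simp
  · intro w hw; simp at hw
  · simp only [Multiset.map_zero, Multiset.sum_zero, zero_mul]
    positivity
  · rw [potOf_plain1]; simp [potOf]
  · rw [add_zero]; simp [Pot.unitsC]
  · intro w hw; simp at hw
  · intro w hw; simp at hw
  · intro w hw; simp at hw
  · intro w hw; simp at hw
  · rw [hB]
    rfl

/-- **one plain object**: thickness `s` in `[sl, sh]`, in the classes of the position `q`, length `≤ lh` -/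
theorem PE_plain {q sl sh lh : ℕ} (h : posOK q sl sh = true) {s l : ℝ} (hs : In sl sh s)
    (hl : l * (SC : ℝ) ≤ (lh : ℝ)) (hsl : 51 / 50 * s ≤ l) :
    PE QB WOK [(q, lenU lh)] sh 0 0 {plainObj (s, l)} 0 0 0 0 := by
  obtain ⟨h0, hT, hK, hK', hq, hq'⟩ := posOK_class h hs
  refine PE_plain_gen h0 hT hK ?_ ?_ hs.2 hl hsl
  · rw [fieldS_single, if_pos hq.symm]
  · rw [fieldS_single, if_neg (by omega)]

/-- the events of a piece in several positions -/
def evsM (q j v : ℕ) : List (ℕ × ℕ) := (List.range (j + 1)).map (fun i : ℕ => (q + i, v))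

theorem evsM_succ (q j v : ℕ) : evsM q (j + 1) v = evsM q j v ++ [(q + (j + 1), v)] := by
  unfold evsM
  rw [List.range_succ, List.map_append]
  rfl

theorem totS_evsM (q j v : ℕ) : totS (evsM q j v) = v * (j + 1) := by
  induction j with
  | zero => simp [evsM, totS]
  | succ j ih =>
    rw [evsM_succ, totS_append, ih, totS_single]
    ring

theorem tabS_evsM (q j v : ℕ) :
    tabS (evsM q j v) = v * (∑ i ∈ Finset.range (j + 1), (2 ^ 64) ^ i) * 2 ^ (64 * q) := by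
  induction j with
  | zero => simp [evsM, tabS]
  | succ j ih =>
    rw [evsM_succ, tabS_append, ih, tabS_single, Finset.sum_range_succ _ (j + 1), mul_add 64, pow_add,
      pow_mul 2 64 (j + 1)]
    ring

theorem onesX_eq (j : ℕ) : onesX j = ∑ i ∈ Finset.range (j + 1), (2 ^ 64) ^ i := by
  have h1 : onesX j = ((1 <<< (64 * (j + 1))) - 1) / 18446744073709551615 := rfl
  rw [h1, Nat.shiftLeft_eq, one_mul]
  have h2 := Nat.geomSum_eq (m := 2 ^ 64) (by norm_num) (j + 1)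
  rw [h2, pow_mul, show (2 : ℕ) ^ 64 - 1 = 18446744073709551615 by norm_num]

theorem fieldS_evsM {q j v p : ℕ} (h1 : q ≤ p) (h2 : p ≤ q + j) : v ≤ fieldS p (evsM q j v) := by
  induction j with
  | zero =>
    have : q = p := by omega
    simp [evsM, fieldS, this]
  | succ j ih =>
    rw [evsM_succ, fieldS_append, fieldS_single]
    by_cases h : p ≤ q + j
    · have := ih h
      omega
    · rw [if_pos (by omega)]
      omega

theorem fieldS_evsM_zero {q j v p : ℕ} (h : q + j < p) : fieldS p (evsM q j v) = 0 := by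
  induction j with
  | zero =>
    have : ¬ q = p := by omega
    simp [evsM, fieldS, this]
  | succ j ih =>
    rw [evsM_succ, fieldS_append, fieldS_single, ih (by omega), if_neg (by omega)]

/-- one plain object, in one of the classes of the positions `q, ..., q + j` -/
theorem PE_plainM {q j sl sh lh : ℕ} (hq : q + j ≤ 31039) (h : pOK (yy1 (q + j)) (yy2 q) sl sh = true)
    {s l : ℝ} (hs : In sl sh s) (hl : l * (SC : ℝ) ≤ (lh : ℝ)) (hsl : 51 / 50 * s ≤ l) :
    PE QB WOK (evsM q j (lenU lh)) sh 0 0 {plainObj (s, l)} 0 0 0 0 := by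
  obtain ⟨h0, hT, hK, hK', hq1, hq2⟩ := posM_class hq h hs
  exact PE_plain_gen h0 hT hK (fieldS_evsM hq1 hq2) (fieldS_evsM_zero (by omega)) hs.2 hl hsl

/-- two plain objects -/
theorem PE_plain2 {q sl sh lh : ℕ} (h : posOK q sl sh = true) {s l : ℝ} (hs : In sl sh s)
    (hl : l * (SC : ℝ) ≤ (lh : ℝ)) (hsl : 51 / 50 * s ≤ l) :
    PE QB WOK [(q, lenU lh), (q, lenU lh)] (2 * sh) 0 0 ({plainObj (s, l)} + {plainObj (s, l)}) 0 0 0 0 := by
  have h1 := (PE_plain (QB := QB) (WOK := WOK) h hs hl hsl).add (PE_plain h hs hl hsl)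
  rw [two_mul]
  exact h1

/-- the box -/
theorem PE_box {al ah bl bh : ℕ} (h : boxB al ah bl bh = true) {a b : ℝ} (ha : In al ah a) (hb : In bl bh b) :
    PE QB WOK [(31041, 1)] 0 0 0 0 0 0 0 {(a, b)} := by
  unfold boxB at h
  simp only [thenB_iff] at h
  obtain ⟨h1, h2, h3, h4, h5⟩ := h
  have h1 : 1 ≤ al := Nat.le_of_ble_eq_true h1
  have h2 : 1 ≤ bl := Nat.le_of_ble_eq_true h2
  have h3 : ah ≤ 2 * bl := Nat.le_of_ble_eq_true h3
  have h4 : bh ≤ 2 * al := Nat.le_of_ble_eq_true h4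
  have h5 : 960407683929731549800255763075964780096000000000000000000000000 ≤ 6000000000 * (al * bl) :=
    Nat.le_of_ble_eq_true h5
  have h5' : SC * SC ≤ 20 * MM2.NN * (al * bl) := by
    have e1 : SC * SC = 960407683929731549800255763075964780096000000000000000000000000 := by
      unfold SC; norm_num
    have e2 : 20 * MM2.NN = 6000000000 := by unfold MM2.NN; norm_num
    rw [e1, e2]
    exact h5
  obtain ⟨b1, _, b3, b4⟩ := box_ok ha hb h1 h2 h3 h4 h5'
  refine ⟨?_, ?_, ?_, ?_, ?_, ?_, ?_, ?_, ?_, ?_, ?_, ?_, ?_⟩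
  · intro o ho; simp at ho
  · intro K _
    simp only [cellsOf, Multiset.map_zero, Multiset.sum_zero, lenK_zero, zero_mul]
    positivity
  · rw [add_zero, psi1_zero, psi2_zero]; simp
  · simp
  · intro w hw; simp at hw
  · simp only [Multiset.map_zero, Multiset.sum_zero, zero_mul]
    positivity
  · simp
  · simp [Pot.unitsC]
  · intro w hw; simp at hw
  · intro w hw; simp at hw
  · intro w hw; simp at hw
  · intro p hp
    rw [Multiset.mem_singleton.1 hp]
    exact ⟨b1, b3, b4⟩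
  · rw [fieldS_single, if_pos rfl]
    rfl

/-! ## One rectangle -/

/-- the meaning of a function for the rectangle `(a, b)` for all `a`, `b` with enclosures -/
def RcOK (QB : ℕ × ℕ × ℕ → Multiset Obj) (WOK : ℕ × ℕ × ℕ → Prop) (al ah bl bh : ℕ)
    (E : List (ℕ × ℕ)) (Ψ : ℕ) : Prop :=
  ∀ a b, In al ah a → In bl bh b → ∃ Q B, PX QB WOK E Ψ 0 0 Q B ∧ OwedOK Q 0 ∧ Cut {(a, b)} (rects Q + B)

theorem PX_of {E : List (ℕ × ℕ)} {Ψ : ℕ} {Q : Multiset Obj} {B : Multiset (ℝ × ℝ)}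
    (h : PE QB WOK E Ψ 0 0 Q 0 0 0 B) : PX QB WOK E Ψ 0 0 Q B := ⟨Q, 0, 0, 0, (add_zero Q).symm, h⟩

theorem OwedOK_plain1 (p : ℝ × ℝ) : OwedOK {plainObj p} 0 := by
  have := OwedOK_plain {p}
  rwa [Multiset.map_singleton] at this

theorem SC_mul_le {s l : ℝ} {sh ll : ℕ} (hs : s * (SC : ℝ) ≤ sh) (hl : (ll : ℝ) ≤ l * SC)
    (h : 51 * sh ≤ 50 * ll) : 51 / 50 * s ≤ l := by
  have hSC := SC_pos
  have h' : (51 : ℝ) * sh ≤ 50 * ll := by exact_mod_cast h
  have : (51 / 50 * s) * (SC : ℝ) ≤ l * SC := by linarith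
  exact le_of_mul_le_mul_right this hSC

/-- several positions -/
theorem Ev_evM {al ah bl bh : ℕ} (h : 51 * ah ≤ 50 * bl) (q j : ℕ) :
    Ev (fun f => evM al ah bh f q j) (RcOK QB WOK al ah bl bh) := by
  unfold evM
  refine Ev_sel (fun hp => ?_) (fun _ => Ev_no _)
  obtain ⟨h1, h2⟩ := thenB_iff.1 hp
  have h1 : q + j ≤ 31039 := Nat.le_of_ble_eq_true h1
  refine (Ev_addG (E := evsM q j (lenU bh)) ?_ ?_).mono ?_
  · rw [tabS_evsM, ← onesX_eq]
    rfl
  · exact (totS_evsM _ _ _).le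
  rintro E Ψ ⟨rfl, rfl⟩ a b ha hb
  refine ⟨{plainObj (a, b)}, 0, PX_of (PE_plainM h1 h2 ha hb.2 (SC_mul_le ha.2 hb.1 h)), OwedOK_plain1 _, ?_⟩
  rw [rects_plain_single, add_zero]
  exact Cut.refl _

/-- thickness = first side -/
theorem Ev_evP {al ah bl bh : ℕ} (h : 51 * ah ≤ 50 * bl) (q : ℕ) :
    Ev (fun f => evP al ah bh f q) (RcOK QB WOK al ah bl bh) := by
  unfold evP
  refine Ev_sel (fun hp => ?_) (fun _ => Ev_sel (fun h0 => ?_)
    (fun _ => Ev_rd (κ := fun f => evM al ah bh f q) (fun j => Ev_evM h q j)))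
  · refine (Ev_addG (E := [(q, lenU bh)]) (tabS_single _ _) (totS_single _ _).le).mono ?_
    rintro E Ψ ⟨rfl, rfl⟩ a b ha hb
    refine ⟨{plainObj (a, b)}, 0, PX_of (PE_plain hp ha hb.2 (SC_mul_le ha.2 hb.1 h)), OwedOK_plain1 _, ?_⟩
    rw [rects_plain_single, add_zero]
    exact Cut.refl _
  · have h0 : ah = 0 := Nat.eq_of_beq_eq_true h0
    refine Ev_id.mono ?_
    rintro E Ψ ⟨rfl, rfl⟩ a b ha hb
    refine ⟨0, 0, PX.zero, OwedOK_zero, ?_⟩
    have ha0 : a = 0 := by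
      have h1 := ha.2
      rw [h0, Nat.cast_zero] at h1
      have h2 := ha.nonneg
      have hSC := SC_pos
      nlinarith
    rw [rects_zero, add_zero]
    exact cut_drop1 (by rw [ha0]; simp)

theorem RcOK_swap {al ah bl bh : ℕ} {E : List (ℕ × ℕ)} {Ψ : ℕ} (h : RcOK QB WOK bl bh al ah E Ψ) :
    RcOK QB WOK al ah bl bh E Ψ := by
  intro a b ha hb
  obtain ⟨Q, B, h1, h2, h3⟩ := h b a hb ha
  exact ⟨Q, B, h1, h2, (Cut.swap _ _).trans h3⟩

theorem mn_eq (x y : ℕ) : mn x y = min x y := by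
  unfold mn
  cases hb : Nat.ble x y with
  | true =>
    have : x ≤ y := Nat.le_of_ble_eq_true hb
    show x = _
    omega
  | false =>
    have : y < x := lt_of_ble_false hb
    show y = _
    omega

theorem mx_eq (x y : ℕ) : mx x y = max x y := by
  unfold mx
  cases hb : Nat.ble x y with
  | true =>
    have : x ≤ y := Nat.le_of_ble_eq_true hb
    show y = _
    omega
  | false =>
    have : y < x := lt_of_ble_false hb
    show x = _
    omega

/-- two halves -/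
theorem cut_halves {a b : ℝ} (ha : 0 ≤ a) : Cut {(a, b)}
    (rects ({plainObj (max a b / 2, min a b)} + {plainObj (max a b / 2, min a b)})) := by
  rw [rects_add, rects_plain_single]
  refine (cut_minmax a b).trans ?_
  have hM : 0 ≤ max a b / 2 := by
    have := le_max_left a b
    linarith
  have h := Cut.split' (a := max a b / 2) (b := max a b / 2) (c := min a b) hM hM
  rw [show max a b / 2 + max a b / 2 = max a b by ring] at h
  refine h.trans ?_
  exact Cut.add (F := {(min a b, max a b / 2)}) (G := {(max a b / 2, min a b)}) (Cut.swap _ _) (Cut.swap _ _)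

theorem In_max {al ah bl bh : ℕ} {a b : ℝ} (ha : In al ah a) (hb : In bl bh b) :
    In (max al bl) (max ah bh) (max a b) := by
  have hSC := SC_pos
  have e : max a b * (SC : ℝ) = max (a * SC) (b * SC) := max_mul_of_nonneg _ _ hSC.le
  unfold In
  rw [e]
  push_cast
  exact ⟨max_le_max ha.1 hb.1, max_le_max ha.2 hb.2⟩

theorem In_min {al ah bl bh : ℕ} {a b : ℝ} (ha : In al ah a) (hb : In bl bh b) :
    In (min al bl) (min ah bh) (min a b) := by
  have hSC := SC_pos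
  have e : min a b * (SC : ℝ) = min (a * SC) (b * SC) := min_mul_of_nonneg _ _ hSC.le
  unfold In
  rw [e]
  push_cast
  exact ⟨min_le_min ha.1 hb.1, min_le_min ha.2 hb.2⟩

theorem In_half {lo hi : ℕ} {x : ℝ} (h : In lo hi x) : In (lo / 2) ((hi + 1) / 2) (x / 2) := by
  have h1 : 2 * (lo / 2) ≤ lo := by omega
  have h2 : hi ≤ 2 * ((hi + 1) / 2) := by omega
  have e1 : (2 : ℝ) * ((lo / 2 : ℕ) : ℝ) ≤ lo := by exact_mod_cast h1
  have e2 : (hi : ℝ) ≤ 2 * (((hi + 1) / 2 : ℕ) : ℝ) := by exact_mod_cast h2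
  constructor
  · linarith [h.1]
  · linarith [h.2]

theorem Ev_evB {al ah bl bh : ℕ} : Ev (fun f => evB al ah bl bh f) (RcOK QB WOK al ah bl bh) := by
  unfold evB
  refine Ev_sel (fun hp => ?_) (fun _ => Ev_no _)
  refine (Ev_addG (E := [(31041, 1)]) (tabS_single _ _) (totS_single _ _).le).mono ?_
  rintro E Ψ ⟨rfl, rfl⟩ a b ha hb
  refine ⟨0, {(a, b)}, PX_of (PE_box hp ha hb), OwedOK_zero, ?_⟩
  rw [rects_zero, zero_add]
  exact Cut.refl _

theorem Ev_evHalf {al ah bl bh : ℕ} : Ev (fun f => evHalf al ah bl bh f) (RcOK QB WOK al ah bl bh) := by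
  unfold evHalf
  refine Ev_sel (fun hp => ?_) (fun _ => Ev_no _)
  have hp : 51 * mx ah bh ≤ 100 * mn al bl := Nat.le_of_ble_eq_true hp
  refine Ev_rd (κ := fun f q => evD (Nat.div (mx al bl) 2) (Nat.div (Nat.succ (mx ah bh)) 2) (mn ah bh) f
    (evB al ah bl bh f) q) (fun q => ?_)
  unfold evD
  refine Ev_sel (fun hq => ?_) (fun _ => Ev_evB)
  refine (Ev_addG (E := [(q, lenU (mn ah bh)), (q, lenU (mn ah bh))]) ?_ ?_).mono ?_
  · show tabS _ = (2 * lenU (mn ah bh)) * 2 ^ (64 * q)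
    simp only [tabS, List.map_cons, List.map_nil, List.sum_cons, List.sum_nil]
    ring
  · show totS _ ≤ 2 * lenU (mn ah bh)
    simp only [totS, List.map_cons, List.map_nil, List.sum_cons, List.sum_nil]
    omega
  rintro E Ψ ⟨rfl, rfl⟩ a b ha hb
  have hM := In_half (In_max ha hb)
  have hm := In_min ha hb
  rw [← mx_eq, ← mx_eq] at hM
  rw [← mn_eq, ← mn_eq] at hm
  have hsl : 51 / 50 * (max a b / 2) ≤ min a b := by
    have h1 := (In_max ha hb).2
    rw [← mx_eq] at h1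
    have h2 := hm.1
    have h3 : (51 : ℝ) * (mx ah bh : ℕ) ≤ 100 * (mn al bl : ℕ) := by exact_mod_cast hp
    have hSC := SC_pos
    have : (51 / 50 * (max a b / 2)) * (SC : ℝ) ≤ min a b * SC := by linarith
    exact le_of_mul_le_mul_right this hSC
  refine ⟨{plainObj (max a b / 2, min a b)} + {plainObj (max a b / 2, min a b)}, 0,
    PX_of (PE_plain2 hq hM hm.2 hsl), ?_, ?_⟩
  · have := OwedOK_add (OwedOK_plain1 (max a b / 2, min a b)) (OwedOK_plain1 (max a b / 2, min a b))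
    rwa [add_zero] at this
  · rw [add_zero]
    exact cut_halves ha.nonneg

/-- **one rectangle** -/
theorem Ev_evPc (al ah bl bh : ℕ) : Ev (evPc al ah bl bh) (RcOK QB WOK al ah bl bh) := by
  have e : evPc al ah bl bh = fun f => selA (Nat.ble (Nat.mul 51 ah) (Nat.mul 50 bl)) (rd (evP al ah bh f))
    (selA (Nat.ble (Nat.mul 51 bh) (Nat.mul 50 al)) (rd (evP bl bh ah f)) (evHalf al ah bl bh f)) := rfl
  rw [e]
  refine Ev_sel (fun h => ?_) (fun _ => Ev_sel (fun h => ?_) (fun _ => Ev_evHalf))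
  · exact Ev_rd (fun q => Ev_evP (Nat.le_of_ble_eq_true h) q)
  · exact (Ev_rd (κ := fun f => evP bl bh ah f) (fun q => Ev_evP (Nat.le_of_ble_eq_true h) q)).mono
      (fun E Ψ h => RcOK_swap h)

/-- **the context `pc`** -/
theorem pc_ok (al ah bl bh : ℕ) : CxOK QB WOK (.pc al ah bl bh) (evPc al ah bl bh) := by
  refine (Ev_evPc (QB := QB) (WOK := WOK) al ah bl bh).mono ?_
  intro E Ψ h
  refine FreeOK_single ?_
  rintro G ⟨a, b, ha, hb, rfl⟩
  obtain ⟨Q, B, h1, h2, h3⟩ := h a b ha hb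
  refine ⟨Q, B, 0, 0, h1, h2, rfl, ?_⟩
  rw [unitsM_zero, zero_add]
  exact h3

/-- lists -/
def LsOK (QB : ℕ × ℕ × ℕ → Multiset Obj) (WOK : ℕ × ℕ × ℕ → Prop) (l : List Q4)
    (E : List (ℕ × ℕ)) (Ψ : ℕ) : Prop :=
  ∀ l' : List (ℝ × ℝ), List.Forall₂ In4 l l' → ∃ Q B, PX QB WOK E Ψ 0 0 Q B ∧ OwedOK Q 0 ∧
    Cut (l' : Multiset (ℝ × ℝ)) (rects Q + B)

theorem Ev_evLs : ∀ l : List Q4, Ev (evLs l) (LsOK QB WOK l)
  | [] => by
    refine Ev_id.mono ?_
    rintro E Ψ ⟨rfl, rfl⟩ l' hl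
    rw [List.forall₂_nil_left_iff.1 hl]
    refine ⟨0, 0, PX.zero, OwedOK_zero, ?_⟩
    rw [rects_zero, add_zero]
    exact Cut.refl _
  | e :: l => by
    refine ((Ev_evPc (QB := QB) (WOK := WOK) e.1 e.2.1 e.2.2.1 e.2.2.2).comp (Ev_evLs l)).mono ?_
    rintro E Ψ ⟨E1, E2, Ψ1, Ψ2, h1, h2, rfl, rfl⟩ l' hl
    obtain ⟨d, m, hd, hm, rfl⟩ := List.forall₂_cons_left_iff.1 hl
    obtain ⟨Q, B, a1, a2, a3⟩ := h1 d.1 d.2 hd.1 hd.2
    obtain ⟨Q', B', b1, b2, b3⟩ := h2 m hm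
    refine ⟨Q + Q', B + B', ?_, ?_, ?_⟩
    · have := a1.add b1
      rwa [add_zero, add_zero] at this
    · have := OwedOK_add a2 b2
      rwa [add_zero] at this
    · have e1 : ((d :: m : List (ℝ × ℝ)) : Multiset (ℝ × ℝ)) = {(d.1, d.2)} + (m : Multiset (ℝ × ℝ)) := by
        rw [← Multiset.cons_coe, ← Multiset.singleton_add]
      rw [e1, rects_add]
      refine (Cut.add a3 b3).trans (Cut.of_eq ?_)
      abel

/-- **the context `ls`** -/
theorem ls_ok (l : List Q4) : CxOK QB WOK (.ls l) (evLs l) := by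
  refine (Ev_evLs (QB := QB) (WOK := WOK) l).mono ?_
  intro E Ψ h
  refine FreeOK_single ?_
  rintro G ⟨l', hl, rfl⟩
  obtain ⟨Q, B, h1, h2, h3⟩ := h l' hl
  refine ⟨Q, B, 0, 0, h1, h2, rfl, ?_⟩
  rw [unitsM_zero, zero_add]
  exact h3

end Pool.Agent.MMS.Fi
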