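import Pool.Agent.MP_94f265_co.ST.FinCA
import Pool.Agent.MP_94f265_co.ST.FinQ

/-!
# Final state check: the objects of a segment
-/

namespace Pool.Agent.MMS.Fi

open Pool.Agent.MM1 hiding Th
open Pool.Agent.MM2

theorem sF_mono (w : ℝ) (k : ℕ) {i j : ℕ} (h : i ≤ j) : sF w k i ≤ sF w k j := by
  unfold sF
  have h1 : ((k + 2 * i : ℕ) : ℝ) ≤ ((k + 2 * j : ℕ) : ℝ) := by exact_mod_cast (by omega : k + 2 * i ≤ k + 2 * j)
  have h2 : (0 : ℝ) ≤ ((k + 2 * i : ℕ) : ℝ) := Nat.cast_nonneg _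
  have := one_div_le_one_div_of_le (by linarith : (0 : ℝ) < ((k + 2 * i : ℕ) : ℝ) + 1)
    (by linarith : ((k + 2 * i : ℕ) : ℝ) + 1 ≤ ((k + 2 * j : ℕ) : ℝ) + 1)
  linarith

theorem sM_mono (H : ℝ) {k : ℕ} (J : ℕ) (hk : 1 ≤ k) {i j : ℕ} (h : i ≤ j) : sM H k J i ≤ sM H k J j := by
  unfold sM
  have h1 : i * J ≤ j * J := Nat.mul_le_mul_right J h
  have := TTr_anti (k := k + 2 * (i * J)) (k' := k + 2 * (j * J)) (J := J) (by omega) (by omega)
  linarith

/-- `2 / (n + 2) ≤ Lg n` -/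
theorem Lg_ge {n : ℕ} (hn : 1 ≤ n) : 2 / ((n : ℝ) + 2) ≤ Lg n := by
  have h1 : (1 : ℝ) ≤ n := by exact_mod_cast hn
  unfold Lg
  have := one_div_le_one_div_of_le (by linarith : (0 : ℝ) < n) (by linarith : (n : ℝ) ≤ (n : ℝ) + 2)
  have e : 2 / ((n : ℝ) + 2) = 1 / ((n : ℝ) + 2) + 1 / ((n : ℝ) + 2) := by ring
  rw [e]
  linarith

theorem flatObj_cellsM (w : ℝ) (k m : ℕ) : cellsOf {flatObj w k m} = cellsM (sF w k) (lF' k) m := by
  unfold cellsOf cellsM
  rw [Multiset.map_singleton, Multiset.sum_singleton, flatObj_cells]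
  rfl

/-- one object of a flat chain -/
theorem flat_one {w : ℝ} {k m sl sh : ℕ} (hm : 1 ≤ m) (h : okM sl sh k (k + 2 * m) = true)
    (h0 : (sl : ℝ) ≤ sF w k 0 * SC) (h1 : sF w k (m - 1) * SC ≤ sh) (h2 : sF w k (m - 1) < Th (i0 - 1)) :
    66654 ≤ k ∧ Pot.OkF (w, k, m) ∧ OInv (Th (i0 - 1)) (flatObj w k m) ∧
      cellsOf {flatObj w k m} = cellsM (sF w k) (lF' k) m ∧
      (∀ K ∈ touched (flatObj w k m), ∃ j < m, kc (sF w k j) = K) ∧
      psi2 {flatObj w k m} * SC ≤ (33 / 10) * ((sF w k (m - 1) - sF w k 0) * SC) := by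
  unfold okM at h
  simp only [thenB_iff] at h
  obtain ⟨g1, g2, g3⟩ := h
  have g1 : 66654 ≤ k := Nat.le_of_ble_eq_true g1
  have g2 : 8 * (sh * (k + 2 * m)) ≤ 30990445042459967064000000000000 := Nat.le_of_ble_eq_true g2
  have g3 : 1239617801698398682560000000000000 ≤ sl * (k * k) := Nat.le_of_ble_eq_true g3
  have hSC := SC_pos
  have hk : (66654 : ℝ) ≤ k := by exact_mod_cast g1
  have hm' : (1 : ℝ) ≤ m := by exact_mod_cast hm
  have e2 : (8 : ℝ) * ((sh : ℝ) * ((k : ℝ) + 2 * m)) ≤ SC := by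
    have : (8 : ℝ) * ((sh : ℝ) * ((k : ℝ) + 2 * m)) ≤ (30990445042459967064000000000000 : ℕ) := by
      exact_mod_cast g2
    exact this
  have e3 : (40 : ℝ) * SC ≤ (sl : ℝ) * (k * k) := by
    have h1 : ((1239617801698398682560000000000000 : ℕ) : ℝ) ≤ (sl : ℝ) * (k * k) := by exact_mod_cast g3
    have h2 : ((1239617801698398682560000000000000 : ℕ) : ℝ) = 40 * (SC : ℝ) := by
      unfold SC
      norm_num
    rwa [h2] at h1
  have hcast : ∀ j : ℕ, (((k + 2 * j : ℕ) : ℝ)) = (k : ℝ) + 2 * j := by intro j; push_cast; ring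
  have hm1 : ((m - 1 : ℕ) : ℝ) = (m : ℝ) - 1 := by rw [Nat.cast_sub hm]; norm_num
  have hlast : sF w k (m - 1) = w - 1 / ((k : ℝ) + 2 * m - 1) := by
    unfold sF
    rw [hcast, hm1]
    congr 2
    ring
  have hn : (0 : ℝ) < (k : ℝ) + 2 * m := by linarith
  have hA : sF w k (m - 1) * ((k : ℝ) + 2 * m) ≤ 1 / 8 := by
    have h3 : (sF w k (m - 1) * ((k : ℝ) + 2 * m)) * SC ≤ (1 / 8) * SC := by
      calc (sF w k (m - 1) * ((k : ℝ) + 2 * m)) * SC = (sF w k (m - 1) * SC) * ((k : ℝ) + 2 * m) := by ring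
        _ ≤ (sh : ℝ) * ((k : ℝ) + 2 * m) := mul_le_mul_of_nonneg_right h1 hn.le
        _ ≤ (1 / 8) * SC := by linarith
    exact le_of_mul_le_mul_right h3 hSC
  have hkk : (0 : ℝ) < (k : ℝ) * k := by positivity
  have hB : 40 / ((k : ℝ) * k) ≤ sF w k 0 := by
    rw [div_le_iff₀ hkk]
    have h3 : (40 : ℝ) * SC ≤ (sF w k 0 * (k * k)) * SC := by
      calc (40 : ℝ) * SC ≤ (sl : ℝ) * (k * k) := e3
        _ ≤ (sF w k 0 * SC) * (k * k) := mul_le_mul_of_nonneg_right h0 hkk.le
        _ = _ := by ring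
    exact le_of_mul_le_mul_right h3 hSC
  have hs0 : 0 < sF w k 0 := lt_of_lt_of_le (by positivity) hB
  have hsl : 0 < sF w k (m - 1) := hs0.trans_le (sF_mono w k (Nat.zero_le _))
  have hidx : k + 2 * (m - 1) = k + 2 * m - 2 := by omega
  have hLg : 2 / ((k : ℝ) + 2 * m) ≤ Lg (k + 2 * (m - 1)) := by
    have h3 := Lg_ge (n := k + 2 * (m - 1)) (by omega)
    rw [hcast, hm1] at h3
    have e : (k : ℝ) + 2 * ((m : ℝ) - 1) + 2 = (k : ℝ) + 2 * m := by ring
    rwa [e] at h3
  have hsL : 16 * sF w k (m - 1) ≤ Lg (k + 2 * (m - 1)) := by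
    have h3 : sF w k (m - 1) ≤ 1 / 8 / ((k : ℝ) + 2 * m) := by rwa [le_div_iff₀ hn]
    have e : 16 * (1 / 8 / ((k : ℝ) + 2 * m)) = 2 / ((k : ℝ) + 2 * m) := by ring
    linarith
  have hsF0 : sF w k 0 = w - 1 / ((k : ℝ) + 1) := by
    unfold sF
    rw [hcast]
    simp
  refine ⟨g1, ⟨?_, ?_⟩, ?_, flatObj_cellsM w k m, ?_, ?_⟩
  · rw [← hlast]
    exact h2.le
  · show (w - 1 / ((k : ℝ) + 2 * m - 1)) * ((k : ℝ) + 2 * m) ≤ 1 / 8
    rw [← hlast]
    exact hA
  · refine flatObj_inv (by omega) hm ?_ h2 ?_ ?_ ?_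
    · rw [hsF0] at hs0
      linarith
    · show 51 / 50 * sF w k (m - 1) ≤ _
      linarith
    · intro _
      show 4 * sF w k (m - 1) ≤ _
      linarith
    · intro _
      rw [← hsF0]
      have h3 : 1 / ((k : ℝ) + 1) - 1 / ((k : ℝ) + 3) = 2 / (((k : ℝ) + 1) * ((k : ℝ) + 3)) := by
        field_simp
        ring
      have h4 : 2 / (((k : ℝ) + 1) * ((k : ℝ) + 3)) ≤ 2 / ((k : ℝ) * k) := by
        apply div_le_div_of_nonneg_left (by norm_num) hkk
        nlinarith
      have e : 40 / ((k : ℝ) * k) / 20 = 2 / ((k : ℝ) * k) := by ring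
      rw [h3]
      linarith
  · intro K hK
    obtain ⟨p, hp, hpK⟩ := mem_touched.1 hK
    unfold flatObj at hp
    obtain ⟨j, hj, rfl⟩ := List.mem_map.1 hp
    exact ⟨j, List.mem_range.1 hj, hpK⟩
  · have hpot : potOf {flatObj w k m} = (((List.range (m - 1)).map (fun j : ℕ =>
        (1 / (((k + 2 * j : ℕ) : ℝ) + 1) - 1 / (((k + 2 * (j + 1) : ℕ) : ℝ) + 1),
          w - 1 / (((k + 2 * j : ℕ) : ℝ) + 1))) : List (ℝ × ℝ)) : Multiset (ℝ × ℝ)) := by
      unfold potOf
      rw [Multiset.map_singleton, Multiset.sum_singleton, flatObj_pot]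
    have hsum : psi2 {flatObj w k m} ≤ (33 / 10) * (sF w k (m - 1) - sF w k 0) := by
      unfold psi2
      rw [hpot, Multiset.map_coe, Multiset.sum_coe, List.map_map]
      have hterm : ∀ j : ℕ, (16 / 5 : ℝ) * Th (kc (1 / (((k + 2 * j : ℕ) : ℝ) + 1) -
          1 / (((k + 2 * (j + 1) : ℕ) : ℝ) + 1)) - 1) ≤ (33 / 10) * (sF w k (j + 1) - sF w k j) := by
        intro j
        have hj : (0 : ℝ) ≤ j := Nat.cast_nonneg j
        obtain ⟨t, ht⟩ : ∃ t, t = 1 / (((k + 2 * j : ℕ) : ℝ) + 1) - 1 / (((k + 2 * (j + 1) : ℕ) : ℝ) + 1) :=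
          ⟨_, rfl⟩
        have et : sF w k (j + 1) - sF w k j = t := by
          rw [ht]
          unfold sF
          ring
        rw [et, ← ht]
        have e : t = 2 / (((k : ℝ) + 2 * j + 1) * ((k : ℝ) + 2 * j + 3)) := by
          rw [ht, hcast, hcast]
          push_cast
          field_simp
          ring
        have ht0 : 0 < t := by rw [e]; positivity
        have htl : t < Th 1599 := by
          have h3 : t ≤ 2 / (66654 * 66654) := by
            rw [e]
            apply div_le_div_of_nonneg_left (by norm_num) (by norm_num)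
            nlinarith
          have h4 : (2 : ℝ) / (66654 * 66654) < Th 1599 := by
            unfold MM2.Th
            norm_num
          linarith
        have hkc : 1600 ≤ kc t := kc_ge (i := 1600) (by norm_num) ht0 htl
        have h3 := price_cell ht0 hkc
        linarith
      have htel : ∀ n : ℕ, (16 / 5 : ℝ) * ((List.range n).map ((fun p : ℝ × ℝ => Th (kc p.1 - 1)) ∘
          (fun j : ℕ => (1 / (((k + 2 * j : ℕ) : ℝ) + 1) - 1 / (((k + 2 * (j + 1) : ℕ) : ℝ) + 1),
          w - 1 / (((k + 2 * j : ℕ) : ℝ) + 1))))).sum ≤ (33 / 10) * (sF w k n - sF w k 0) := by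
        intro n
        induction n with
        | zero => simp
        | succ n ih =>
          rw [List.range_succ, List.map_append, List.sum_append, mul_add]
          simp only [List.map_cons, List.map_nil, List.sum_cons, List.sum_nil, add_zero, Function.comp_apply] at ih ⊢
          have := hterm n
          linarith
      exact htel (m - 1)
    calc psi2 {flatObj w k m} * SC ≤ ((33 / 10) * (sF w k (m - 1) - sF w k 0)) * SC :=
          mul_le_mul_of_nonneg_right hsum hSC.le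
      _ = _ := by ring

/-! ## separate cells -/

/-- a family of objects with one cell -/
theorem seg_sep (f : ℕ → Obj) (s l : ℕ → ℝ) (m : ℕ) (h : ∀ j < m, (f j).cells = [(s j, l j)] ∧ (f j).pot = []) :
    cellsOf ((Multiset.range m).map f) = cellsM s l m ∧
      (((Multiset.range m).map f).map (fun o => ∑ K ∈ touched o, Th (K - 1))).sum =
        ∑ j ∈ Finset.range m, Th (kc (s j) - 1) ∧
      potOf ((Multiset.range m).map f) = 0 := by
  induction m with
  | zero => simp [cellsOf, potOf, cellsM]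
  | succ m ih =>
    obtain ⟨h1, h2, h3⟩ := ih (fun j hj => h j (by omega))
    obtain ⟨g1, g2⟩ := h m (by omega)
    rw [Multiset.range_succ, Multiset.map_cons]
    refine ⟨?_, ?_, ?_⟩
    · rw [cellsM_succ, ← h1]
      unfold cellsOf
      rw [Multiset.map_cons, Multiset.sum_cons, g1, add_comm]
      rfl
    · rw [Multiset.map_cons, Multiset.sum_cons, h2, Finset.sum_range_succ, add_comm]
      congr 1
      have e : touched (f m) = {kc (s m)} := by
        unfold touched
        rw [g1]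
        simp
      rw [e, Finset.sum_singleton]
    · unfold potOf at h3 ⊢
      rw [Multiset.map_cons, Multiset.sum_cons, h3, g2]
      rfl

theorem flatBl_append (w : ℝ) : ∀ (ms : List ℕ) (k : ℕ),
    flatBl w k (ms ++ [1]) = flatBl w k ms + {flatObj w (k + 2 * ms.sum) 1}
  | [], k => by simp [flatBl]
  | a :: ms, k => by
    rw [List.cons_append, flatBl, flatBl, flatBl_append w ms, List.sum_cons,
      show k + 2 * (a + ms.sum) = k + 2 * a + 2 * ms.sum by ring]
    exact (add_assoc _ _ _).symm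

theorem upBl_append (w : ℝ) : ∀ (ms : List ℕ) (k : ℕ),
    upBl w k (ms ++ [1]) = upBl w k ms + {upObj w (k + 2 * ms.sum) 1}
  | [], k => by simp [upBl]
  | a :: ms, k => by
    rw [List.cons_append, upBl, upBl, upBl_append w ms, List.sum_cons,
      show k + 2 * (a + ms.sum) = k + 2 * a + 2 * ms.sum by ring]
    exact (add_assoc _ _ _).symm

theorem flatBl_rep (w : ℝ) (k : ℕ) : ∀ m : ℕ,
    flatBl w k (List.replicate m 1) = (Multiset.range m).map (fun j => flatObj w (k + 2 * j) 1)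
  | 0 => by simp [flatBl]
  | m + 1 => by
    rw [List.replicate_succ', flatBl_append, flatBl_rep w k m, List.sum_replicate, smul_eq_mul, mul_one,
      Multiset.range_succ, Multiset.map_cons, ← Multiset.singleton_add, add_comm]

theorem upBl_rep (w : ℝ) (k : ℕ) : ∀ m : ℕ,
    upBl w k (List.replicate m 1) = (Multiset.range m).map (fun j => upObj w (k + 2 * j) 1)
  | 0 => by simp [upBl]
  | m + 1 => by
    rw [List.replicate_succ', upBl_append, upBl_rep w k m, List.sum_replicate, smul_eq_mul, mul_one,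
      Multiset.range_succ, Multiset.map_cons, ← Multiset.singleton_add, add_comm]

/-- separate cells of a flat chain -/
theorem flat_sep {w : ℝ} {k m sh : ℕ} (hk : 1 ≤ k) (hm : 1 ≤ m) (h : okS sh (k + 2 * m) = true)
    (h0 : ∀ j < m, 0 < sF w k j) (h1 : sF w k (m - 1) * SC ≤ sh) (h2 : sF w k (m - 1) < Th (i0 - 1)) :
    (∀ o ∈ flatBl w k (List.replicate m 1), OInv (Th (i0 - 1)) o) ∧
      cellsOf (flatBl w k (List.replicate m 1)) = cellsM (sF w k) (lF' k) m ∧
      ((flatBl w k (List.replicate m 1)).map (fun o => ∑ K ∈ touched o, Th (K - 1))).sum =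
        ∑ j ∈ Finset.range m, Th (kc (sF w k j) - 1) ∧
      potOf (flatBl w k (List.replicate m 1)) = 0 := by
  have g : 51 * (sh * (k + 2 * m)) ≤ 3099044504245996706400000000000000 := Nat.le_of_ble_eq_true h
  have hSC := SC_pos
  have hm' : (1 : ℝ) ≤ m := by exact_mod_cast hm
  have hk' : (1 : ℝ) ≤ k := by exact_mod_cast hk
  have e2 : (51 : ℝ) * ((sh : ℝ) * ((k : ℝ) + 2 * m)) ≤ 100 * SC := by
    have h3 : (51 : ℝ) * ((sh : ℝ) * ((k : ℝ) + 2 * m)) ≤ (3099044504245996706400000000000000 : ℕ) := by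
      exact_mod_cast g
    have h4 : ((3099044504245996706400000000000000 : ℕ) : ℝ) = 100 * (SC : ℝ) := by
      unfold SC
      norm_num
    rwa [h4] at h3
  have hn : (0 : ℝ) < (k : ℝ) + 2 * m := by linarith
  have hA : 51 / 50 * sF w k (m - 1) ≤ 2 / ((k : ℝ) + 2 * m) := by
    rw [le_div_iff₀ hn]
    have h3 : (51 / 50 * sF w k (m - 1) * ((k : ℝ) + 2 * m)) * SC ≤ 2 * SC := by
      calc (51 / 50 * sF w k (m - 1) * ((k : ℝ) + 2 * m)) * SC =
          51 / 50 * ((sF w k (m - 1) * SC) * ((k : ℝ) + 2 * m)) := by ring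
        _ ≤ 51 / 50 * ((sh : ℝ) * ((k : ℝ) + 2 * m)) :=
          mul_le_mul_of_nonneg_left (mul_le_mul_of_nonneg_right h1 hn.le) (by norm_num)
        _ ≤ 2 * SC := by linarith
    exact le_of_mul_le_mul_right h3 hSC
  have hcast : ∀ j : ℕ, (((k + 2 * j : ℕ) : ℝ)) = (k : ℝ) + 2 * j := by intro j; push_cast; ring
  rw [flatBl_rep]
  refine ⟨?_, seg_sep _ _ _ m ?_⟩
  · intro o ho
    obtain ⟨j, hj, rfl⟩ := Multiset.mem_map.1 ho
    have hj := Multiset.mem_range.1 hj
    have hmono : sF w k j ≤ sF w k (m - 1) := sF_mono w k (by omega)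
    have e : ((k + 2 * j + 2 * (1 - 1) : ℕ) : ℝ) = ((k + 2 * j : ℕ) : ℝ) := by simp
    have hidx : k + 2 * j + 2 * (1 - 1) = k + 2 * j := by omega
    refine flatObj_inv (by omega) le_rfl ?_ ?_ ?_ (fun h => absurd h (by norm_num)) (fun h => absurd h (by norm_num))
    · have := h0 j hj
      unfold sF at this
      linarith
    · rw [e]
      exact lt_of_le_of_lt hmono h2
    · rw [hidx]
      have h3 := Lg_ge (n := k + 2 * j) (by omega)
      rw [hcast] at h3
      have hj' : (j : ℝ) + 1 ≤ m := by exact_mod_cast hj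
      have hj0 : (0 : ℝ) ≤ j := Nat.cast_nonneg j
      have h4 : 2 / ((k : ℝ) + 2 * m) ≤ 2 / ((k : ℝ) + 2 * j + 2) :=
        div_le_div_of_nonneg_left (by norm_num) (by linarith) (by linarith)
      have h5 : 51 / 50 * sF w k j ≤ 51 / 50 * sF w k (m - 1) := mul_le_mul_of_nonneg_left hmono (by norm_num)
      show 51 / 50 * sF w k j ≤ Lg (k + 2 * j)
      linarith
  · intro j _
    constructor
    · rw [flatObj_cells]
      simp [sF, lF']
    · rw [flatObj_pot]
      simp

/-- the test of the pieces above the columns -/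
theorem okMc_sound {H : ℝ} {k J m sh : ℕ} (hk : 1 ≤ k) (h : okMc sh (k + 2 * ((m - 1) * J)) = true)
    (h1 : sM H k J (m - 1) * SC ≤ sh) {j : ℕ} (hj : j < m) : 51 / 50 * sM H k J j ≤ lM k J j := by
  have g : 51 * (sh * (k + 2 * ((m - 1) * J) + 1)) ≤ 1549522252122998353200000000000000 :=
    Nat.le_of_ble_eq_true h
  have hSC := SC_pos
  obtain ⟨n, hn⟩ : ∃ n, n = k + 2 * ((m - 1) * J) := ⟨_, rfl⟩
  rw [← hn] at g
  have e2 : (51 : ℝ) * ((sh : ℝ) * ((n : ℝ) + 1)) ≤ 50 * SC := by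
    have h3 : (51 : ℝ) * ((sh : ℝ) * ((n : ℝ) + 1)) ≤ (1549522252122998353200000000000000 : ℕ) := by
      exact_mod_cast g
    have h4 : ((1549522252122998353200000000000000 : ℕ) : ℝ) = 50 * (SC : ℝ) := by
      unfold SC
      norm_num
    rwa [h4] at h3
  have hn0 : (0 : ℝ) ≤ n := Nat.cast_nonneg n
  have hA : 51 / 50 * sM H k J (m - 1) ≤ 1 / ((n : ℝ) + 1) := by
    rw [le_div_iff₀ (by linarith)]
    have h3 : (51 / 50 * sM H k J (m - 1) * ((n : ℝ) + 1)) * SC ≤ 1 * SC := by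
      calc (51 / 50 * sM H k J (m - 1) * ((n : ℝ) + 1)) * SC =
          51 / 50 * ((sM H k J (m - 1) * SC) * ((n : ℝ) + 1)) := by ring
        _ ≤ 51 / 50 * ((sh : ℝ) * ((n : ℝ) + 1)) :=
          mul_le_mul_of_nonneg_left (mul_le_mul_of_nonneg_right h1 (by linarith)) (by norm_num)
        _ ≤ 1 * SC := by linarith
    exact le_of_mul_le_mul_right h3 hSC
  have hmono : sM H k J j ≤ sM H k J (m - 1) := sM_mono H J hk (by omega)
  have hB : 1 / ((n : ℝ) + 1) ≤ lM k J j := by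
    unfold lM
    have h3 : j * J ≤ (m - 1) * J := Nat.mul_le_mul_right J (by omega)
    have h4 : ((k + 2 * (j * J) : ℕ) : ℝ) ≤ (n : ℝ) := by exact_mod_cast (by omega : k + 2 * (j * J) ≤ n)
    have h5 : (0 : ℝ) ≤ ((k + 2 * (j * J) : ℕ) : ℝ) := Nat.cast_nonneg _
    exact one_div_le_one_div_of_le (by linarith) (by linarith)
  linarith

theorem lM_pos (k J j : ℕ) : 0 < lM k J j := by
  unfold lM
  positivity

theorem piecesQ_mcv {H : ℝ} {k J m : ℕ} (h0 : ∀ j < m, 0 < sM H k J j)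
    (h1 : ∀ j < m, 51 / 50 * sM H k J j ≤ lM k J j) :
    piecesQ (mcv H k J m) = (Multiset.range m).map (fun j => plainObj (sM H k J j, lM k J j)) := by
  unfold piecesQ mcv
  rw [Multiset.map_map]
  have e : ∀ j ∈ Multiset.range m, (pieceQ ∘ fun j : ℕ => (1 / (((k + 2 * (j * J) : ℕ) : ℝ) + 1),
      H - (T (k + 2 * (j * J)) J + T (k + 2 * (j * J) + 2) J))) j = {plainObj (sM H k J j, lM k J j)} := by
    intro j hj
    have hj := Multiset.mem_range.1 hj
    show pieceQ (lM k J j, sM H k J j) = _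
    have a1 := h0 j hj
    have a2 := h1 j hj
    have a3 := lM_pos k J j
    have a4 : sM H k J j ≤ lM k J j := by linarith
    unfold pieceQ
    simp only
    rw [if_neg (by
      intro h
      rcases h with h | h
      · exact a3.ne' h
      · exact a1.ne' h), min_eq_right a4, max_eq_left a4, if_pos a2]
  rw [Multiset.map_congr rfl e]
  have := Multiset.sum_map_singleton ((Multiset.range m).map (fun j => plainObj (sM H k J j, lM k J j)))
  rw [Multiset.map_map] at this
  exact this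

/-- pieces above the columns; `k + 2 ((m - 1) J)` = last column -/
theorem mids_sep {H : ℝ} {k J m sh : ℕ} (hk : 1 ≤ k) (_hm : 1 ≤ m) (h : okMc sh (k + 2 * ((m - 1) * J)) = true)
    (h0 : ∀ j < m, 0 < sM H k J j) (h1 : sM H k J (m - 1) * SC ≤ sh) (h2 : sM H k J (m - 1) < Th (i0 - 1)) :
    (∀ o ∈ piecesQ (mcv H k J m), OInv (Th (i0 - 1)) o) ∧
      cellsOf (piecesQ (mcv H k J m)) = cellsM (sM H k J) (lM k J) m ∧
      ((piecesQ (mcv H k J m)).map (fun o => ∑ K ∈ touched o, Th (K - 1))).sum =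
        ∑ j ∈ Finset.range m, Th (kc (sM H k J j) - 1) ∧
      potOf (piecesQ (mcv H k J m)) = 0 := by
  have h3 : ∀ j < m, 51 / 50 * sM H k J j ≤ lM k J j := fun j hj => okMc_sound hk h h1 hj
  rw [piecesQ_mcv h0 h3]
  refine ⟨?_, seg_sep _ _ _ m fun j _ => ?_⟩
  · intro o ho
    obtain ⟨j, hj, rfl⟩ := Multiset.mem_map.1 ho
    have hj := Multiset.mem_range.1 hj
    have hmono : sM H k J j ≤ sM H k J (m - 1) := sM_mono H J hk (by omega)
    exact MM2.plain_inv (p := (sM H k J j, lM k J j)) (h0 j hj) (hmono.trans_lt h2) (h3 j hj)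
  · exact ⟨plainObj_cells _, plainObj_pot _⟩

/-- separate cells of an upright chain -/
theorem up_sep {H : ℝ} {k m sh : ℕ} (hk : 1 ≤ k) (_hm : 1 ≤ m) (h : okMc sh (k + 2 * ((m - 1) * 1)) = true)
    (h0 : ∀ j < m, 0 < sM H k 1 j) (h1 : sM H k 1 (m - 1) * SC ≤ sh) (h2 : sM H k 1 (m - 1) < Th (i0 - 1)) :
    (∀ o ∈ upBl H k (List.replicate m 1), OInv (Th (i0 - 1)) o) ∧
      cellsOf (upBl H k (List.replicate m 1)) = cellsM (sM H k 1) (lM k 1) m ∧
      ((upBl H k (List.replicate m 1)).map (fun o => ∑ K ∈ touched o, Th (K - 1))).sum =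
        ∑ j ∈ Finset.range m, Th (kc (sM H k 1 j) - 1) ∧
      potOf (upBl H k (List.replicate m 1)) = 0 := by
  have h3 : ∀ j < m, 51 / 50 * sM H k 1 j ≤ lM k 1 j := fun j hj => okMc_sound hk h h1 hj
  have hs : ∀ j, H - Lg (k + 2 * j) = sM H k 1 j := by
    intro j
    unfold sM TTr T Lg
    simp only [Finset.range_one, Finset.sum_singleton, Nat.cast_zero, mul_zero, add_zero, mul_one]
    push_cast
    ring
  have hl : ∀ j, 1 / (((k + 2 * j : ℕ) : ℝ) + 1) = lM k 1 j := by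
    intro j
    unfold lM
    rw [mul_one]
  rw [upBl_rep]
  refine ⟨?_, seg_sep _ _ _ m fun j _ => ?_⟩
  · intro o ho
    obtain ⟨j, hj, rfl⟩ := Multiset.mem_map.1 ho
    have hj := Multiset.mem_range.1 hj
    have hmono : sM H k 1 j ≤ sM H k 1 (m - 1) := sM_mono H 1 hk (by omega)
    have hidx : k + 2 * j + 2 * (1 - 1) = k + 2 * j := by omega
    refine upObj_inv (by omega) le_rfl ?_ ?_ ?_ (fun h => absurd h (by norm_num)) (fun h => absurd h (by norm_num))
    · have := h0 j hj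
      rw [← hs] at this
      linarith
    · rw [hidx, hs]
      exact hmono.trans_lt h2
    · rw [hidx, hs, hl]
      exact h3 j hj
  · constructor
    · rw [upObj_cells]
      simp only [List.range_one, List.map_cons, List.map_nil, mul_zero, add_zero]
      rw [hs, hl]
    · rw [upObj_pot]
      simp

end Pool.Agent.MMS.Fi
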