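import Pool.Agent.MP_94f265_co.ST.FinCA
import Pool.Agent.MP_94f265_co.ST.FinQ

/-!
# Segments in a window of positions
-/

namespace Pool.Agent.MMS.Fi

open Pool.Agent.MM1 hiding Th
open Pool.Agent.MM2

theorem win_aux {q L sl sh m v : ℕ} {s l : ℕ → ℝ} (hL : q + L ≤ 18879)
    (h : pOK (yy1 (q + L)) (yy2 q) sl sh = true)
    (hs : ∀ j < m, (sl : ℝ) ≤ s j * SC ∧ s j * SC ≤ sh) (hl : ∀ j < m, l j * ((SC : ℝ) / 2 ^ 64) ≤ v) :
    Blk q L m s l (sh : ℝ) (fun _ => m * v) := by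
  have hSC : (0 : ℝ) < SC := SC_pos
  have hc : ∀ j < m, 0 < s j ∧ q + 1600 ≤ kc (s j) ∧ kc (s j) ≤ q + L + 1600 := by
    intro j hj
    obtain ⟨a1, a2, a3, a4, a5, a6⟩ := posM_class (q := q) (j := L) (by omega) h (t := s j) (hs j hj)
    have e : posK (kc (s j)) = kc (s j) - 1600 := by
      unfold posK at a6 ⊢
      split_ifs at a6 ⊢ <;> omega
    refine ⟨a1, ?_, ?_⟩ <;> omega
  have hv : ∀ j < m, Th (kc (s j) - 1) * (SC : ℝ) ≤ (10019 / 10000) * (sh : ℝ) := by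
    intro j hj
    obtain ⟨b1, b2, b3⟩ := hc j hj
    have := price_cell b1 (by omega)
    calc Th (kc (s j) - 1) * (SC : ℝ) ≤ (10019 / 10000) * s j * (SC : ℝ) :=
          mul_le_mul_of_nonneg_right this hSC.le
      _ = (10019 / 10000) * (s j * (SC : ℝ)) := by ring
      _ ≤ _ := mul_le_mul_of_nonneg_left (hs j hj).2 (by norm_num)
  refine ⟨hL, Nat.cast_nonneg _, fun j hj => (hc j hj).1, fun j hj => (hc j hj).2.1, fun j hj => (hc j hj).2.2,
    ?_, ?_, ?_⟩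
  · intro i _
    have hu : (0 : ℝ) < (SC : ℝ) / 2 ^ 64 := by positivity
    have h1 := lenIn_cellsM (a := Th (q + i + 1600)) (b := Th (q + i + 1600 - 1)) (s := s) (l := l)
      (v := (v : ℝ) / ((SC : ℝ) / 2 ^ 64)) (by positivity) (U := m) (Lo := 0) m
      (fun j hj => by rw [le_div_iff₀ hu]; exact hl j hj) (fun j hj _ _ => ⟨Nat.zero_le _, hj⟩)
    have e : (((min m m) - 0 : ℕ) : ℝ) = (m : ℝ) := by simp
    rw [e] at h1
    have h2 : lenK (q + i + 1600) (cellsM s l m) * ((SC : ℝ) / 2 ^ 64) ≤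
        ((m : ℝ) * ((v : ℝ) / ((SC : ℝ) / 2 ^ 64))) * ((SC : ℝ) / 2 ^ 64) := mul_le_mul_of_nonneg_right h1 hu.le
    refine h2.trans (le_of_eq ?_)
    push_cast
    rw [mul_assoc, div_mul_cancel₀ _ hu.ne']
  · rw [Finset.sum_mul]
    calc ∑ j ∈ Finset.range m, s j * (SC : ℝ) ≤ ∑ j ∈ Finset.range m, (sh : ℝ) :=
          Finset.sum_le_sum (fun j hj => (hs j (Finset.mem_range.1 hj)).2)
      _ = (m : ℝ) * sh := by simp
  · intro S hS
    have hcard : (S.card : ℝ) ≤ (L : ℝ) + 1 := by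
      have hsub : S ⊆ Finset.Icc (q + 1600) (q + L + 1600) := by
        intro K hK
        obtain ⟨j, hj, rfl⟩ := hS K hK
        exact Finset.mem_Icc.2 ⟨(hc j hj).2.1, (hc j hj).2.2⟩
      have h1 := Finset.card_le_card hsub
      rw [Nat.card_Icc] at h1
      have h2 : S.card ≤ L + 1 := by omega
      exact_mod_cast h2
    rw [Finset.sum_mul]
    calc ∑ K ∈ S, Th (K - 1) * (SC : ℝ) ≤ ∑ K ∈ S, (10019 / 10000) * (sh : ℝ) := by
          apply Finset.sum_le_sum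
          intro K hK
          obtain ⟨j, hj, rfl⟩ := hS K hK
          exact hv j hj
      _ = (S.card : ℝ) * ((10019 / 10000) * (sh : ℝ)) := by rw [Finset.sum_const, nsmul_eq_mul]
      _ ≤ ((L : ℝ) + 1) * ((10019 / 10000) * (sh : ℝ)) :=
          mul_le_mul_of_nonneg_right hcard (by positivity)
      _ = _ := by ring

/-- a window: all thicknesses in `[sl, sh]` -/
theorem win_blk {q L sl sh m v : ℕ} {s l : ℕ → ℝ} (h : winOK q L sl sh = true) (_hm : 1 ≤ m)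
    (hs : ∀ j < m, (sl : ℝ) ≤ s j * SC ∧ s j * SC ≤ sh) (hl : ∀ j < m, l j * ((SC : ℝ) / 2 ^ 64) ≤ v) :
    Blk q L m s l (sh : ℝ) (fun _ => m * v) := by
  unfold winOK at h
  obtain ⟨h1, h2⟩ := thenB_iff.1 h
  have hL : q + L ≤ 18879 := Nat.le_of_ble_eq_true h1
  refine win_aux hL ?_ hs hl
  have e1 : yy1 (q + L) = 5 * (q + L) + 7999 := by
    have := yy1_eq (q + L)
    unfold KBq at this
    rw [if_pos hL] at this
    omega
  have e2 : yy2 q = 5 * q + 7994 := by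
    have := yy2_eq q
    unfold KAq at this
    rw [if_pos (by omega)] at this
    omega
  rw [e1, e2]
  exact h2

theorem win0_blk {q sl sh m v : ℕ} {s l : ℕ → ℝ} (h : posOK q sl sh = true) (hq : q ≤ 18879) (_hm : 1 ≤ m)
    (hs : ∀ j < m, (sl : ℝ) ≤ s j * SC ∧ s j * SC ≤ sh) (hl : ∀ j < m, l j * ((SC : ℝ) / 2 ^ 64) ≤ v) :
    Blk q 0 m s l (sh : ℝ) (fun _ => m * v) :=
  win_aux hq (posOK_pOK h).2 hs hl

end Pool.Agent.MMS.Fi
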