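import Pool.Agent.MP_94f265_co.ST.Mrg

/-!
# One-sided walls
-/

namespace Pool.Agent.MMS

open Pool.Agent.MM1

theorem mids_flat (H : ℝ) : ∀ (l : List (ℝ × ℝ)) (W : ℝ), l ≠ [] → (∀ d ∈ l, 0 ≤ d.1 ∧ 0 ≤ H - d.2) →
    (l.map Prod.fst).sum = W →
    MidsOK H (List.replicate (l.length - 1) true) l [(W, 0)] ∧
      mids H (List.replicate (l.length - 1) true) l [(W, 0)] = l.map (fun d => (d.1, H - d.2)) := by
  intro l
  induction l with
  | nil => intro W h; exact absurd rfl h
  | cons d l ih =>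
    intro W _ hd hW
    obtain ⟨w, B⟩ := d
    cases l with
    | nil =>
      constructor
      · have := (hd (w, B) (by simp)).2
        simp only [List.length_cons, List.length_nil, Nat.zero_add, Nat.sub_self, List.replicate_zero, MidsOK]
        simpa using this
      · simp [mids]
    | cons d' l =>
      obtain ⟨v, C⟩ := d'
      have h0 := hd (w, B) (by simp)
      have hs : (((v, C) :: l).map Prod.fst).sum = W - w := by
        simp only [List.map_cons, List.sum_cons] at hW ⊢
        linarith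
      have hnn : 0 ≤ (((v, C) :: l).map Prod.fst).sum := by
        apply List.sum_nonneg
        intro x hx
        rw [List.mem_map] at hx
        obtain ⟨y, hy, rfl⟩ := hx
        exact (hd y (List.mem_cons_of_mem _ hy)).1
      have hi := ih (W - w) (by simp) (fun d hd' => hd d (List.mem_cons_of_mem _ hd')) hs
      have e1 : ((w, B) :: (v, C) :: l).length - 1 = ((v, C) :: l).length - 1 + 1 := by simp
      rw [e1, List.replicate_succ]
      constructor
      · simp only [MidsOK]
        refine ⟨by linarith, by simpa using h0.2, ?_⟩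
        exact hi.1
      · simp only [mids]
        rw [hi.2]
        simp

/-- a wall with a flat ceiling -/
theorem wall_one {J K : ℕ} {a b : ℕ → ℕ → ℝ} {L H : ℝ} (h : WallOK a b L J K)
    (hH : ∀ d ∈ prof a b L J K, d.2 ≤ H) :
    Cut {(L, H)} (wItems a b J K + (wEnds a b L J K + (wBits a b J K +
      ((prof a b L J K).map (fun d => (d.1, H - d.2)) : Multiset (ℝ × ℝ))))) := by
  have hL0 : 0 ≤ L := by
    have h1 := h.XL (r := J - 1) (t := 0) (by have := h.hJ; omega) (Nat.zero_le _)
    rw [Xc_zero] at h1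
    exact h1
  have h' : WallOK (fun _ _ => 0) (fun _ _ => 0) L 1 1 := by
    refine ⟨le_rfl, le_rfl, fun _ _ _ _ => le_rfl, fun _ _ _ _ => le_rfl, ?_, ?_, ?_⟩
    · intro r hr; omega
    · intro t ht; omega
    · simpa [Xc] using hL0
  have e1 : (prof (fun _ _ => (0 : ℝ)) (fun _ _ => 0) L 1 1).reverse = [(L, 0)] := by
    simp [prof, Xc, Hc]
  have hsum : ((prof a b L J K).map Prod.fst).sum = L := by
    have h1 := h.tw
    unfold tw at h1
    exact h1
  have hne : prof a b L J K ≠ [] := by simp [prof]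
  have hnn := h.nn
  have hm := mids_flat H (prof a b L J K) L hne (fun d hd => ⟨(hnn d hd).1, by have := hH d hd; linarith⟩) hsum
  · have hw := wall_two h h' (List.replicate ((prof a b L J K).length - 1) true) (by rw [e1]; exact hm.1)
    rw [e1, hm.2] at hw
    refine hw.trans ?_
    have e2 : wItems (fun _ _ => (0 : ℝ)) (fun _ _ => 0) 1 1 = {((0 : ℝ), (0 : ℝ))} := by
      simp [wItems]
    have e3 : wEnds (fun _ _ => (0 : ℝ)) (fun _ _ => 0) L 1 1 = {(L, (0 : ℝ))} := by
      simp [wEnds, Xc]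
    have e4 : wBits (fun _ _ => (0 : ℝ)) (fun _ _ => 0) 1 1 = 0 := by
      simp [wBits]
    rw [e2, e3, e4]
    refine (Cut.of_eq ?_).trans (Cut.drop (wItems a b J K + (wEnds a b L J K + (wBits a b J K +
      ((prof a b L J K).map (fun d => (d.1, H - d.2)) : Multiset (ℝ × ℝ))))) {((0 : ℝ), (0 : ℝ)), (L, 0)} ?_)
    · simp only [Multiset.insert_eq_cons, ← Multiset.singleton_add]
      abel
    · intro d hd
      simp only [Multiset.insert_eq_cons, Multiset.mem_cons, Multiset.mem_singleton] at hd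
      rcases hd with rfl | rfl <;> simp

/-- the height of a column -/
theorem Hc_wb (k J t : ℕ) : Hc (wb k J) J t = T (k + 2 * (t * J)) J + T (k + 2 * (t * J) + 2) J := by
  unfold Hc wb itm Lg T
  rw [← Finset.sum_range_reflect, ← Finset.sum_add_distrib]
  refine Finset.sum_congr rfl fun q hq => ?_
  have hq' : q < J := Finset.mem_range.1 hq
  have e : J - 1 - (J - 1 - q) = q := by omega
  rw [e]
  push_cast
  congr 1
  · congr 1; ring
  · congr 1; ring

theorem wa_top (k J t : ℕ) : wa k J (J - 1) t = 1 / (((k + 2 * (t * J) : ℕ) : ℝ) + 1) := by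
  unfold wa itm
  rw [Nat.sub_self, Nat.add_zero]

theorem T_anti (c c' m : ℕ) (h : c ≤ c') (hc : 1 ≤ c) : T c' m ≤ T c m := by
  unfold T
  refine Finset.sum_le_sum fun j _ => ?_
  have h1 : (c : ℝ) ≤ c' := by exact_mod_cast h
  have h2 : (1 : ℝ) ≤ c := by exact_mod_cast hc
  apply one_div_le_one_div_of_le
  · have : (0 : ℝ) ≤ j := Nat.cast_nonneg j
    linarith
  · linarith

theorem Hc_wb_le (k J t : ℕ) (hk : 1 ≤ k) : Hc (wb k J) J t ≤ T k J + T (k + 2) J := by
  rw [Hc_wb]
  exact add_le_add (T_anti _ _ _ (by omega) hk) (T_anti _ _ _ (by omega) (by omega))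

theorem mcv_add (H : ℝ) (k J s t : ℕ) : mcv H k J (s + t) = mcv H k J s + mcv H (k + 2 * (s * J)) J t := by
  induction t with
  | zero => simp [mcv]
  | succ t ih =>
    have e : mcv H k J (s + (t + 1)) = (1 / (((k + 2 * ((s + t) * J) : ℕ) : ℝ) + 1),
        H - (T (k + 2 * ((s + t) * J)) J + T (k + 2 * ((s + t) * J) + 2) J)) ::ₘ mcv H k J (s + t) := by
      unfold mcv
      rw [← Nat.add_assoc, Multiset.range_succ, Multiset.map_cons]
    have e2 : mcv H (k + 2 * (s * J)) J (t + 1) = (1 / (((k + 2 * (s * J) + 2 * (t * J) : ℕ) : ℝ) + 1),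
        H - (T (k + 2 * (s * J) + 2 * (t * J)) J + T (k + 2 * (s * J) + 2 * (t * J) + 2) J)) ::ₘ
          mcv H (k + 2 * (s * J)) J t := by
      unfold mcv
      rw [Multiset.range_succ, Multiset.map_cons]
    have e3 : k + 2 * ((s + t) * J) = k + 2 * (s * J) + 2 * (t * J) := by ring
    rw [e, e2, ih, Multiset.add_cons, e3]

theorem mcv_one (H : ℝ) (k J : ℕ) : mcv H k J 1 = {(1 / ((k : ℝ) + 1), H - (T k J + T (k + 2) J))} := by
  simp [mcv]

theorem bwall_cut {al ah bl bh k J K : ℕ} {a b : ℝ} (ha : In al ah a) (hb : In bl bh b)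
    (h1 : wok al k J K = true) (h2 : Thi k J + Thi (k + 2) J ≤ bl) :
    ∃ G1 G2 G3, Rz (.mc bl bh k J (K - 1)) G1 ∧
      Rz (.pc (al - TShi (k + 1) (2 * J) (K - 1)) (ah - TSlo (k + 1) (2 * J) (K - 1))
            (bl - (Thi (k + 2 * ((K - 1) * J)) J + Thi (k + 2 * ((K - 1) * J) + 2) J))
            (bh - (Tlo (k + 2 * ((K - 1) * J)) J + Tlo (k + 2 * ((K - 1) * J) + 2) J))) G2 ∧
      Rz (.ls (wendE al ah k J K)) G3 ∧
      Cut {(a, b)} (units (nums [(k, 2 * (J * K))]) +
        (G1 + (G2 + (G3 + wBits (wa k J) (wb k J) J K)))) := by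
  have hk : 1 ≤ k ∧ 1 ≤ J ∧ 2 ≤ K := by
    unfold wok at h1
    simp only [Bool.and_eq_true] at h1
    exact ⟨Nat.le_of_ble_eq_true h1.1.1, Nat.le_of_ble_eq_true h1.1.2, Nat.le_of_ble_eq_true h1.2.1⟩
  have w1 := wall_ok h1 ha
  have p1 := prof_enc h1 ha
  obtain ⟨l1, e1, e1'⟩ := ends_enc h1 ha
  have hT : T k J + T (k + 2) J ≤ b :=
    In.le hb ((In_T k J hk.1 hk.2.1).add (In_T (k + 2) J (by omega) hk.2.1)) h2
  have hH : ∀ d ∈ prof (wa k J) (wb k J) a J K, d.2 ≤ b := by
    intro d hd
    unfold prof at hd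
    rcases List.mem_append.1 hd with hd | hd
    · obtain ⟨t, _, rfl⟩ := List.mem_map.1 hd
      exact (Hc_wb_le k J t hk.1).trans hT
    · rw [List.mem_singleton] at hd
      subst hd
      exact (Hc_wb_le k J _ hk.1).trans hT
  have hw := wall_one w1 hH
  have i1 := items_units h1
  -- the last entry of the profile
  have p1' := p1
  unfold wprof prof at p1'
  have hlen : ((List.range (K - 1)).map (wcol k J)).length =
      ((List.range (K - 1)).map (fun t => (wa k J (J - 1) t, Hc (wb k J) J t))).length := by simp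
  have p2 := List.forall₂_drop ((List.range (K - 1)).map (wcol k J)).length p1'
  rw [List.drop_left, hlen, List.drop_left] at p2
  cases p2 with
  | cons p2 _ =>
    obtain ⟨p3, p4⟩ := p2
    simp only at p3 p4
    have hlast : Hc (wb k J) J (K - 1) ≤ b := (Hc_wb_le k J _ hk.1).trans hT
    refine ⟨_, _, _, ⟨b, hb, rfl⟩, ⟨_, _, p3, In.sub' hb p4 hlast, rfl⟩, ⟨l1, e1, rfl⟩, ?_⟩
    refine hw.trans ?_
    have e3 : ((prof (wa k J) (wb k J) a J K).map (fun d => (d.1, b - d.2)) : Multiset (ℝ × ℝ)) =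
        mcv b k J (K - 1) + {(a - Xc (wa k J) (J - 1) (K - 1), b - Hc (wb k J) J (K - 1))} := by
      unfold prof
      rw [List.map_append, ← Multiset.coe_add]
      congr 1
      unfold mcv
      rw [List.map_map, Multiset.range, Multiset.map_coe]
      congr 1
      refine List.map_congr_left fun t _ => ?_
      simp only [Function.comp]
      rw [wa_top, Hc_wb]
    rw [e3, e1']
    have e4 : nums [(k, 2 * (J * K))] = List.range' k (2 * (J * K)) := by simp [nums]
    rw [e4]
    refine (Cut.add i1 (Cut.refl _)).trans (Cut.of_eq ?_)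
    abel

end Pool.Agent.MMS
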