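import Pool.Agent.MP_94f265_co.ST.FinCG
import Pool.Agent.MP_94f265_co.ST.FinCO
import Pool.Agent.MP_94f265_co.ST.FinCW
import Pool.Agent.MP_94f265_co.ST.One

/-!
# Final state check: chains, pieces above the columns of a wall
-/

namespace Pool.Agent.MMS.Fi

open Pool.Agent.MM1 hiding Th
open Pool.Agent.MM2
open Pool.Agent.MM2.Pot (Ch objF objU unitsC OkF OkU)

variable {QB : ℕ × ℕ × ℕ → Multiset Obj} {WOK : ℕ × ℕ × ℕ → Prop}

/-! ## small facts -/

theorem rcC_eq (k : ℕ) : rc k = uh k := by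
  show (30990445042459967063999999999999 + k) / k = (SC + k - 1) / k
  have e : SC + k - 1 = 30990445042459967063999999999999 + k := by
    unfold SC
    omega
  exact congrArg (· / k) e.symm

theorem ruC_eq (k : ℕ) : ru k = ul k := rfl

theorem rec_beq {α : Type} (x y : α) (a b : ℕ) :
    (Bool.rec (motive := fun _ => α) x y (Nat.beq a b) : α) = if a = b then y else x := by
  cases h : Nat.beq a b with
  | true =>
    rw [if_pos (Nat.eq_of_beq_eq_true h)]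
  | false =>
    rw [if_neg (Nat.ne_of_beq_eq_false h)]

theorem nC_eq (mul m L : ℕ) : nC mul m L = if mul = 0 then m else min m (L + 1) := by
  unfold nC
  rw [rec_beq, mn_eq]

theorem psM_eq (mul c sl sh : ℕ) : psM mul c sl sh = if mul = 0 then 0 else c * (sh - sl) := by
  unfold psM
  rw [rec_beq]
  rfl

theorem okX_eq (mul sl sh k kn : ℕ) : okX mul sl sh k kn = if mul = 0 then okS sh kn else okM sl sh k kn := by
  unfold okX
  rw [rec_beq]

theorem cast_sub_ge (a b : ℕ) : (a : ℝ) - b ≤ ((a - b : ℕ) : ℝ) := by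
  rcases le_total b a with h | h
  · rw [Nat.cast_sub h]
  · rw [Nat.sub_eq_zero_of_le h]
    have : (a : ℝ) ≤ b := by exact_mod_cast h
    push_cast
    linarith

theorem vCh_ge {k : ℕ} (hk : 1 ≤ k) (j : ℕ) : lF' k j * ((SC : ℝ) / 2 ^ 64) ≤ (vCh k : ℝ) := by
  have hk' : (0 : ℝ) < k := by exact_mod_cast hk
  have h1 : vCh k = 3359990784132 / k + 1 := rfl
  have h2 := Nat.lt_div_mul_add (a := 3359990784132) (b := k) hk
  have h3 : 3359990784133 ≤ vCh k * k := by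
    rw [h1, Nat.add_mul, Nat.one_mul]
    omega
  have h4 : (3359990784133 : ℝ) ≤ (vCh k : ℝ) * k := by exact_mod_cast h3
  have h5 : lF' k j ≤ 2 / k := by
    unfold lF' Lg
    have hj : (0 : ℝ) ≤ j := Nat.cast_nonneg j
    have a1 : 1 / ((k + 2 * j : ℕ) : ℝ) ≤ 1 / k := by
      apply one_div_le_one_div_of_le hk'
      push_cast
      linarith
    have a2 : 1 / (((k + 2 * j : ℕ) : ℝ) + 2) ≤ 1 / k := by
      apply one_div_le_one_div_of_le hk'
      push_cast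
      linarith
    calc _ ≤ 1 / (k : ℝ) + 1 / k := add_le_add a1 a2
      _ = 2 / k := by ring
  have h6 : (SC : ℝ) / 2 ^ 64 ≤ 3359990784133 / 2 := by
    rw [div_le_iff₀ (by positivity)]
    unfold SC
    norm_num
  calc lF' k j * ((SC : ℝ) / 2 ^ 64) ≤ (2 / k) * (3359990784133 / 2) := by
        apply mul_le_mul h5 h6 (un_pos 64).le (by positivity)
    _ = 3359990784133 / k := by ring
    _ ≤ _ := by rw [div_le_iff₀ hk']; exact h4

theorem vMc_ge (k J j : ℕ) : lM k J j * ((SC : ℝ) / 2 ^ 64) ≤ (vMc k : ℝ) := by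
  have hk' : (0 : ℝ) < (k : ℝ) + 1 := by positivity
  have h1 : vMc k = 1679995392066 / (k + 1) + 1 := rfl
  have h2 := Nat.lt_div_mul_add (a := 1679995392066) (b := k + 1) (by omega)
  have h3 : 1679995392067 ≤ vMc k * (k + 1) := by
    rw [h1, Nat.add_mul, Nat.one_mul]
    omega
  have h4 : (1679995392067 : ℝ) ≤ (vMc k : ℝ) * (k + 1) := by exact_mod_cast h3
  have h5 : lM k J j ≤ 1 / ((k : ℝ) + 1) := by
    unfold lM
    apply one_div_le_one_div_of_le hk'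
    have : (0 : ℝ) ≤ ((j * J : ℕ) : ℝ) := Nat.cast_nonneg _
    push_cast
    push_cast at this
    linarith
  have h6 : (SC : ℝ) / 2 ^ 64 ≤ 1679995392067 := by
    rw [div_le_iff₀ (by positivity)]
    unfold SC
    norm_num
  calc lM k J j * ((SC : ℝ) / 2 ^ 64) ≤ (1 / ((k : ℝ) + 1)) * 1679995392067 := by
        apply mul_le_mul h5 h6 (un_pos 64).le (by positivity)
    _ = 1679995392067 / ((k : ℝ) + 1) := by ring
    _ ≤ _ := by rw [div_le_iff₀ hk']; exact h4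

/-! ## the property of a segment -/

theorem sum_cellsM (s l : ℕ → ℝ) (f : ℝ × ℝ → ℝ) (m : ℕ) :
    ((cellsM s l m).map f).sum = ∑ j ∈ Finset.range m, f (s j, l j) := by
  induction m with
  | zero => simp [cellsM_zero]
  | succ m ih =>
    rw [cellsM_succ, Multiset.map_add, Multiset.sum_add, ih, Finset.sum_range_succ, Multiset.map_singleton,
      Multiset.sum_singleton]

section

variable {q L m : ℕ} {s l : ℕ → ℝ} {X : ℝ} {u : ℕ → ℕ}

theorem Blk.price (h : Blk q L m s l X u) {Q : Multiset Obj} (hc : cellsOf Q = cellsM s l m) {c : ℕ}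
    (hW : (Q.map (fun o => ∑ K ∈ touched o, Th (K - 1))).sum * (SC : ℝ) ≤ (10019 / 10000) * (c * X)) :
    psi1 Q * (SC : ℝ) ≤
      (3115 / 1000) * (X * ((9682 / 10000) * c + (505110 / 10000) * m / ((1600 + q : ℕ) : ℝ))) := by
  unfold psi1
  rw [hc, sum_cellsM]
  exact price_bound h.X0 hW h.M

/-- segments -/
theorem PE_seg (h : Blk q L m s l X u) {Q : Multiset Obj} {O : Multiset ℕ} {C D : Multiset Ch} {Ψ c : ℕ}
    (hi : ∀ o ∈ Q, OInv (Th (i0 - 1)) o) (hc : cellsOf Q = cellsM s l m)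
    (hW : (Q.map (fun o => ∑ K ∈ touched o, Th (K - 1))).sum * (SC : ℝ) ≤ (10019 / 10000) * (c * X))
    (hΨ : (3115 / 1000) * (X * ((9682 / 10000) * c + (505110 / 10000) * m / ((1600 + q : ℕ) : ℝ))) +
      psi2 Q * (SC : ℝ) ≤ (3115 / 1000) * (Ψ : ℝ))
    (hp : potOf Q = potOf (C.map objF + D.map objU)) (hu : unitsC (C + D) ≤ O)
    (hC : ∀ c ∈ C, OkF c) (hD : ∀ c ∈ D, OkU c) (hk : ∀ c ∈ C + D, 66654 ≤ c.2.1) :
    PE QB WOK (evL q L u) Ψ 0 O Q 0 C D 0 := by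
  have hL := h.hL
  refine ⟨hi, ?_, ?_, ?_, ?_, ?_, hp, hu, hC, hD, hk, ?_, ?_⟩
  · intro K hK
    rw [hc]
    exact h.load hK
  · rw [add_zero, add_mul]
    exact (add_le_add_left (h.price hc hW) _).trans hΨ
  · simp
  · intro w hw; simp at hw
  · simp only [Multiset.map_zero, Multiset.sum_zero, zero_mul]
    positivity
  · intro p hp; simp at hp
  · rw [fieldS_evL, if_neg (by omega)]
    rfl

end

/-! ## flat chains -/

/-- blocks of a segment -/
def msX (mul m : ℕ) : List ℕ := if mul = 0 then List.replicate m 1 else [m]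

theorem msX_sum (mul m : ℕ) : (msX mul m).sum = m := by
  unfold msX
  split_ifs <;> simp

theorem psi2_of_pot {Q : Multiset Obj} (h : potOf Q = 0) : psi2 Q = 0 := by
  unfold psi2
  rw [h]
  simp

/-- segments of a flat chain -/
theorem flat_PE {w : ℝ} {k m q L sl sh mul Ψ : ℕ} {X : ℝ} {u : ℕ → ℕ} (hk : 1 ≤ k) (hm : 1 ≤ m)
    (hx : okX mul sl sh k (k + 2 * m) = true) (h0 : (sl : ℝ) ≤ sF w k 0 * SC) (h1 : sF w k (m - 1) * SC ≤ sh)
    (hb : Blk q L m (sF w k) (lF' k) X u)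
    (hΨ : (3115 / 1000) * (X * ((9682 / 10000) * (nC mul m L : ℕ) +
      (505110 / 10000) * m / ((1600 + q : ℕ) : ℝ))) +
      (if mul = 0 then 0 else (33 / 10) * ((sF w k (m - 1) - sF w k 0) * SC)) ≤ (3115 / 1000) * (Ψ : ℝ)) :
    ∃ C, PE QB WOK (evL q L u) Ψ 0 (List.range' k (2 * m) : Multiset ℕ) (flatBl w k (msX mul m)) 0 C 0 0 := by
  have h2 : sF w k (m - 1) < Th (i0 - 1) := hb.lt (by omega)
  rw [okX_eq] at hx
  rw [nC_eq] at hΨ
  unfold msX
  by_cases h : mul = 0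
  · rw [if_pos h] at hx hΨ
    rw [if_pos h] at hΨ
    rw [if_pos h]
    obtain ⟨a1, a2, a3, a4⟩ := flat_sep hk hm hx hb.pos h1 h2
    refine ⟨0, PE_seg (c := m) hb a1 a2 ?_ ?_ ?_ ?_ ?_ ?_ ?_⟩
    · rw [a3]
      exact hb.W
    · rw [psi2_of_pot a4, zero_mul]
      exact hΨ
    · rw [a4]
      simp [potOf]
    · simp [unitsC]
    · intro c hc; simp at hc
    · intro c hc; simp at hc
    · intro c hc; simp at hc
  · rw [if_neg h] at hx hΨ
    rw [if_neg h] at hΨ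
    rw [if_neg h]
    obtain ⟨a0, a1, a2, a3, a4, a5⟩ := flat_one hm hx h0 h1 h2
    have e : flatBl w k [m] = {flatObj w k m} := by
      show {flatObj w k m} + 0 = _
      rw [add_zero]
    rw [e]
    refine ⟨{(w, k, m)}, PE_seg (c := min m (L + 1)) hb ?_ a3 ?_ ?_ ?_ ?_ ?_ ?_ ?_⟩
    · intro o ho
      rw [Multiset.mem_singleton.1 ho]
      exact a2
    · rw [Multiset.map_singleton, Multiset.sum_singleton]
      exact hb.S a4
    · exact (add_le_add_right a5 _).trans hΨ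
    · rw [Multiset.map_zero, add_zero, Multiset.map_singleton]
      rfl
    · rw [add_zero]
      simp [unitsC]
    · intro c hc
      rw [Multiset.mem_singleton.1 hc]
      exact a1
    · intro c hc; simp at hc
    · intro c hc
      rw [add_zero] at hc
      rw [Multiset.mem_singleton.1 hc]
      exact a0

theorem sF_bounds {wl wh k m : ℕ} {w : ℝ} (hw : In wl wh w) (hk : 1 ≤ k) (hk0 : 1 / ((k : ℝ) + 1) ≤ w)
    (hm : 1 ≤ m) : ∀ j < m, ((wl - uh (k + 1) : ℕ) : ℝ) ≤ sF w k j * SC ∧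
      sF w k j * SC ≤ ((wh - ul (k + 2 * m - 1) : ℕ) : ℝ) := by
  intro j hj
  have hSC := SC_pos
  constructor
  · have h1 := In_inv (k + 1) (by omega)
    rw [Nat.cast_add, Nat.cast_one] at h1
    have h2 := (sub_in hw h1 hk0).1
    refine h2.trans (mul_le_mul_of_nonneg_right ?_ hSC.le)
    have := sF_mono w k (Nat.zero_le j)
    refine le_trans (le_of_eq ?_) this
    unfold sF
    simp
  · have h1 := In_inv (k + 2 * m - 1) (by omega)
    have h2 : sF w k j ≤ sF w k (m - 1) := sF_mono w k (by omega)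
    have h3 : sF w k (m - 1) = w - 1 / ((k + 2 * m - 1 : ℕ) : ℝ) := by
      unfold sF
      rw [show k + 2 * m - 1 = (k + 2 * (m - 1)) + 1 by omega]
      push_cast
      rfl
    refine (mul_le_mul_of_nonneg_right h2 hSC.le).trans ?_
    rw [h3]
    refine le_trans ?_ (cast_sub_ge wh (ul (k + 2 * m - 1)))
    have e1 := hw.2
    have e2 : (ul (k + 2 * m - 1) : ℝ) ≤ 1 / ((k + 2 * m - 1 : ℕ) : ℝ) * SC := h1.1
    rw [sub_mul]
    linarith

/-- property of consecutive blocks beginning with `k`, `r` cells -/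
def GC (QB : ℕ × ℕ × ℕ → Multiset Obj) (WOK : ℕ × ℕ × ℕ → Prop) (wl wh k r : ℕ) (E : List (ℕ × ℕ)) (Ψ : ℕ) : Prop :=
  ∃ ms : List ℕ, ms.sum = r ∧ ∀ w, In wl wh w → 1 ≤ k → 1 / ((k : ℝ) + 1) ≤ w →
    ∃ C, PE QB WOK E Ψ 0 (List.range' k (2 * r) : Multiset ℕ) (flatBl w k ms) 0 C 0 0

theorem flatBl_app (w : ℝ) : ∀ (ms ms' : List ℕ) (k : ℕ),
    flatBl w k (ms ++ ms') = flatBl w k ms + flatBl w (k + 2 * ms.sum) ms'
  | [], ms', k => by simp [flatBl]
  | m :: ms, ms', k => by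
    rw [List.cons_append, flatBl, flatBl, flatBl_app w ms ms' (k + 2 * m), List.sum_cons,
      add_assoc {flatObj w k m},
      show 2 * (m + ms.sum) = 2 * m + 2 * ms.sum by ring, ← Nat.add_assoc]

theorem GC_add {wl wh k m r : ℕ} {E E' : List (ℕ × ℕ)} {Ψ Ψ' : ℕ} (hm : m ≤ r) (h : GC QB WOK wl wh k m E Ψ)
    (h' : GC QB WOK wl wh (k + 2 * m) (r - m) E' Ψ') : GC QB WOK wl wh k r (E ++ E') (Ψ + Ψ') := by
  obtain ⟨ms, h1, h2⟩ := h
  obtain ⟨ms', h3, h4⟩ := h'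
  refine ⟨ms ++ ms', ?_, ?_⟩
  · rw [List.sum_append, h1, h3]
    omega
  · intro w hw hk hkw
    obtain ⟨C, g1⟩ := h2 w hw hk hkw
    have hk2 : 1 / (((k + 2 * m : ℕ) : ℝ) + 1) ≤ w := by
      refine le_trans ?_ hkw
      apply one_div_le_one_div_of_le (by positivity)
      push_cast
      have : (0 : ℝ) ≤ m := Nat.cast_nonneg m
      linarith
    obtain ⟨C', g2⟩ := h4 w hw (by omega) hk2
    refine ⟨C + C', ?_⟩
    have g := g1.add g2
    rw [flatBl_app, h1]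
    have e : (List.range' k (2 * r) : Multiset ℕ) =
        (List.range' k (2 * m) : Multiset ℕ) + (List.range' (k + 2 * m) (2 * (r - m)) : Multiset ℕ) := by
      have := range'_split2 k m (r - m)
      rwa [show m + (r - m) = r by omega] at this
    rw [e]
    simpa using g

/-! ### segments -/

/-- a window -/
theorem Ev_segD {mul q L sl sh m v : ℕ} {G : List (ℕ × ℕ) → ℕ → Prop}
    (hG : winOK q L sl sh = true → G (evL q L (fun _ => m * v))
      (psD (nC mul m L) m sh (1600 + q) + psM mul 2 sl sh)) : Ev (segD mul q L sl sh m v) G := by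
  unfold segD
  refine Ev_sel (fun hp => ?_) (fun _ => Ev_no _)
  refine (Ev_addG (E := evL q L (fun _ => m * v)) ?_ ?_).mono ?_
  · rw [tabS_evL]
    congr 1
    have e : Nat.div (Nat.sub (Nat.shiftLeft 1 (Nat.mul 64 (Nat.add L 1))) 1) 18446744073709551615 =
        vec (L + 1) (fun _ => 1) := by
      show ((1 <<< (64 * (L + 1))) - 1) / (2 ^ 64 - 1) = _
      rw [Nat.shiftLeft_eq, Nat.one_mul, vec_ones]
    rw [e]
    show vec (L + 1) (fun _ => m * v) = (m * v) * vec (L + 1) (fun _ => 1)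
    rw [vec_mul]
    apply vec_congr
    intro i _
    rw [Nat.mul_one]
  · refine (totS_evL_le (c := m * v) L (fun i _ => le_refl _)).trans (le_of_eq ?_)
    show (L + 1) * (m * v) = (m * v) * (L + 1)
    ring
  · rintro E Ψ ⟨rfl, rfl⟩
    exact hG hp

/-- an AP segment -/
theorem Ev_apG {q L a d e m v τ ψ : ℕ} (hm : 1 ≤ m) (hτ : (L + 1) * (4095 * v) ≤ τ) {G : List (ℕ × ℕ) → ℕ → Prop}
    (hG : ApOK (cbp 32 kap1) (q + 1 + L) a d e m (q + 1) L → q + L ≤ 18879 →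
      G (evL q L (fun i => (apU (cbp 32 kap1) a d m (q + 1) i - apL (cbp 32 kap1) a d e (q + 1) L i) * v)) ψ) :
    Ev (fun f h hs s => apG q L a (a + d * (m - 1)) (a + d * (m - 1) + e) d e m
      (fun C => addG q (Nat.mul C v) τ ψ f h hs s)) G := by
  intro f x hs s hf
  obtain ⟨hok, hL, hq, h⟩ := apG_spec hm hf
  have hpos := cbp_pos 32 kap1_pos
  have hmono := cbp_mono 32 kap1_mono
  obtain ⟨h', hs', s', E, Ψ, b1, b2, b3, b4, rfl, rfl⟩ := Ev_addG
    (E := evL q L (fun i => (apU (cbp 32 kap1) a d m (q + 1) i - apL (cbp 32 kap1) a d e (q + 1) L i) * v)) (by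
      rw [tabS_evL]
      congr 1
      show _ = vec (L + 1) _ * v
      rw [vec_mul']) (by
      refine (totS_evL_le (c := 4095 * v) L (fun i _ => Nat.mul_le_mul_right _ ?_)).trans hτ
      exact (Nat.sub_le _ _).trans (hok.apU_le hmono hpos i)) f x hs s h
  exact ⟨h', hs', s', _, _, b1, b2, b3, b4, hG hok hq⟩

/-- an AP segment with the test -/
theorem Ev_segA {mul q L a x1 Y m v : ℕ} {tst : ℕ → Bool} (hm : 1 ≤ m) {G : List (ℕ × ℕ) → ℕ → Prop}
    (hG : tst (a + (x1 - a) / m * (m - 1) + (Y + m)) = true →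
      ApOK (cbp 32 kap1) (q + 1 + L) a ((x1 - a) / m) (Y + m) m (q + 1) L → q + L ≤ 18879 →
      G (evL q L (fun i => (apU (cbp 32 kap1) a ((x1 - a) / m) m (q + 1) i -
          apL (cbp 32 kap1) a ((x1 - a) / m) (Y + m) (q + 1) L i) * v))
        ((psD (nC mul m L) m (a + (Y + m) + (a + (x1 - a) / m * (m - 1) + (Y + m))) (1600 + q) +
          psM mul 3 a (a + (x1 - a) / m * (m - 1) + (Y + m))) <<< 31)) :
    Ev (segA mul q L a x1 Y m v tst) G := by
  have key : ∀ d e : ℕ, (tst (a + d * (m - 1) + e) = true →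
      ApOK (cbp 32 kap1) (q + 1 + L) a d e m (q + 1) L → q + L ≤ 18879 →
      G (evL q L (fun i => (apU (cbp 32 kap1) a d m (q + 1) i - apL (cbp 32 kap1) a d e (q + 1) L i) * v))
        ((psD (nC mul m L) m (a + e + (a + d * (m - 1) + e)) (1600 + q) +
          psM mul 3 a (a + d * (m - 1) + e)) <<< 31)) →
      Ev (segA0 mul q L a d e m v tst) G := by
    intro d e hG
    unfold segA0 segA1
    refine Ev_sel (fun ht => ?_) (fun _ => Ev_no _)
    unfold segA2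
    exact Ev_apG hm (le_of_eq (by
      show (L + 1) * (4095 * v) = 4095 * (L + 1) * v
      ring)) (hG ht)
  exact key _ _ hG

/-- the price of the potential bits -/
theorem psM_pay {mul c sl sh : ℕ} {a b : ℝ} (h0 : (sl : ℝ) ≤ a) (h1 : b ≤ sh) (hc : 2 ≤ c) :
    (if mul = 0 then (0 : ℝ) else (33 / 10) * (b - a)) ≤ (3115 / 1000) * (psM mul c sl sh : ℝ) := by
  rw [psM_eq]
  split_ifs with h
  · simp
  · have h2 := cast_sub_ge sh sl
    have h3 : (0 : ℝ) ≤ ((sh - sl : ℕ) : ℝ) := Nat.cast_nonneg _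
    have h4 : (2 : ℝ) ≤ c := by exact_mod_cast hc
    push_cast
    nlinarith

theorem seg_chD {wl wh k m q L mul : ℕ} (hm : 1 ≤ m) :
    Ev (chD mul (wl - rc (k + 1)) (wh - ru (k + 2 * m - 1)) k (k + 2 * m) m q L) (GC QB WOK wl wh k m) := by
  have e : chD mul (wl - rc (k + 1)) (wh - ru (k + 2 * m - 1)) k (k + 2 * m) m q L = fun f =>
    selA (okX mul (wl - rc (k + 1)) (wh - ru (k + 2 * m - 1)) k (k + 2 * m))
      (segD mul q L (wl - rc (k + 1)) (wh - ru (k + 2 * m - 1)) m (vCh k) f) noA := rfl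
  rw [e]
  refine Ev_sel (fun hx => Ev_segD (fun hwin => ⟨msX mul m, msX_sum mul m, fun w hw hk hk0 => ?_⟩)) (fun _ => Ev_no _)
  have hs := sF_bounds hw hk hk0 hm
  rw [← rcC_eq, ← ruC_eq] at hs
  refine flat_PE hk hm hx (hs 0 hm).1 (hs (m - 1) (by omega)).2 (win_blk hwin hm hs (fun j _ => vCh_ge hk j)) ?_
  have h1 := psM_pay (mul := mul) (c := 2) (hs 0 hm).1 (hs (m - 1) (by omega)).2 (le_refl 2)
  have h2 := psD_ge (c := nC mul m L) (m := m) (x := wh - ru (k + 2 * m - 1)) (K := 1600 + q) (by omega)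
  rw [sub_mul]
  push_cast
  push_cast at h2
  linarith

theorem le_of_AP {a x1 m : ℕ} (h : 1 ≤ (x1 - a) / m) : a ≤ x1 := by
  by_contra h'
  rw [Nat.sub_eq_zero_of_le (by omega), Nat.zero_div] at h
  omega

theorem ApIn_restrict {σ a d e m : ℕ} {s : ℕ → ℝ} (h : ApIn σ a d e (m + 1) s) : ApIn σ a d e m s :=
  fun j hj => h j (by omega)

/-- the last cell -/
theorem ApIn_last {a d e m : ℕ} {s : ℕ → ℝ} (hm : 1 ≤ m) (h : ApIn 32 a d e m s) :
    s (m - 1) * SC ≤ (((a + d * (m - 1) + e) * 4294967296 : ℕ) : ℝ) := by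
  have h1 := (h (m - 1) (by omega)).2
  rw [mul_div_assoc', div_le_iff₀ (by positivity)] at h1
  refine h1.trans (le_of_eq ?_)
  push_cast
  norm_num

theorem ApIn_first {a d e m : ℕ} {s : ℕ → ℝ} (hm : 1 ≤ m) (h : ApIn 32 a d e m s) :
    ((a * 4294967296 : ℕ) : ℝ) ≤ s 0 * SC := by
  have h1 := (h 0 (by omega)).1
  rw [mul_div_assoc', le_div_iff₀ (by positivity)] at h1
  refine le_trans (le_of_eq ?_) h1
  push_cast
  norm_num

/-- price of an AP segment -/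
theorem ap_pay {q m c A M Ψ : ℕ} {P : ℝ} (hΨ : Ψ = (psD c m A (1600 + q) + M) <<< 31)
    (hP : P ≤ (3115 / 1000) * ((M : ℝ) * 2 ^ 31)) :
    (3115 / 1000) * (((A : ℝ) * 2 ^ 31) * ((9682 / 10000) * c + (505110 / 10000) * m / ((1600 + q : ℕ) : ℝ))) + P ≤
      (3115 / 1000) * (Ψ : ℝ) := by
  have h2 := psD_ge (c := c) (m := m) (x := A) (K := 1600 + q) (by omega)
  have h3 := mul_le_mul_of_nonneg_right h2 (show (0 : ℝ) ≤ 2 ^ 31 by positivity)
  have e : (Ψ : ℝ) = ((psD c m A (1600 + q) : ℝ) + M) * 2 ^ 31 := by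
    rw [hΨ, Nat.shiftLeft_eq]
    push_cast
    ring
  rw [e]
  have e2 : ((A : ℝ) * 2 ^ 31) * ((9682 / 10000) * c + (505110 / 10000) * m / ((1600 + q : ℕ) : ℝ)) =
    (A : ℝ) * ((9682 / 10000) * c + (505110 / 10000) * m / ((1600 + q : ℕ) : ℝ)) * 2 ^ 31 := by ring
  rw [e2]
  linarith

theorem ap_psM {mul a b : ℕ} {x y : ℝ} (h0 : ((a * 4294967296 : ℕ) : ℝ) ≤ x)
    (h1 : y ≤ ((b * 4294967296 : ℕ) : ℝ)) :
    (if mul = 0 then (0 : ℝ) else (33 / 10) * (y - x)) ≤ (3115 / 1000) * ((psM mul 3 a b : ℝ) * 2 ^ 31) := by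
  rw [psM_eq]
  split_ifs with h
  · simp
  · have h2 := cast_sub_ge b a
    have h3 : (0 : ℝ) ≤ ((b - a : ℕ) : ℝ) := Nat.cast_nonneg _
    have h5 : (2 : ℝ) ^ 31 = 2147483648 := by norm_num
    rw [h5]
    push_cast at h0 h1 ⊢
    linarith

theorem seg_chA {wl wh k m q L mul : ℕ} (hm : 1 ≤ m) :
    Ev (chA mul (wl - rc (k + 1)) wl wh k (k + 2 * m) m q L) (GC QB WOK wl wh k m) := by
  have e : chA mul (wl - rc (k + 1)) wl wh k (k + 2 * m) m q L =
    segA mul q L ((wl - rc (k + 1)) >>> 32) ((wl - rc (k + 2 * m + 1)) >>> 32) (yCh wl wh k m) m (vCh k)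
      (fun b => okX mul (wl - rc (k + 1)) (b * 4294967296) k (k + 2 * m)) := rfl
  rw [e, Nat.shiftRight_eq_div_pow, Nat.shiftRight_eq_div_pow]
  refine Ev_segA hm (fun hx hok hq => ⟨msX mul m, msX_sum mul m, fun w hw hk hk0 => ?_⟩)
  have hA := le_of_AP hok.d0
  have hb0 := sF_bounds hw hk hk0 hm
  rw [← rcC_eq, ← ruC_eq] at hb0
  have hin := ch_ApIn (σ := 32) hw hk hk0 hm (by rw [← rcC_eq, ← rcC_eq]; exact hA)
  rw [← rcC_eq, ← rcC_eq] at hin
  have eY : yCh wl wh k m + m =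
      2 * ((wh - wl + 1) / 2 ^ 32 + 2) + m + ((m * m) * SC / (k * k * k * 2 ^ 32) + 1) := by
    have : yCh wl wh k m = 2 * ((wh - wl + 1) / 2 ^ 32 + 2) + ((m * m) * SC / (k * k * k * 2 ^ 32) + 1) := by
      show 2 * (((wh - wl + 1) >>> 32) + 2) + _ = _
      rw [Nat.shiftRight_eq_div_pow]
      rfl
    rw [this]
    ring
  rw [← eY] at hin
  have hs : ApIn 32 ((wl - rc (k + 1)) / 2 ^ 32) (((wl - rc (k + 2 * m + 1)) / 2 ^ 32 - (wl - rc (k + 1)) / 2 ^ 32) / m)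
    (yCh wl wh k m + m) m (sF w k) := ApIn_restrict hin
  refine flat_PE hk hm hx (hb0 0 hm).1 (ApIn_last hm hs) (ap_blk hok hq hs (fun j _ => vCh_ge hk j)) (ap_pay rfl ?_)
  have h1 := ApIn_first hm hs
  have h2 := ApIn_last hm hs
  rw [sub_mul]
  exact ap_psM h1 h2

theorem seg_chG {wl wh k m q L mul ap : ℕ} (hm : 1 ≤ m) :
    Ev (chG wl wh k (k + 2 * m) m q L mul ap) (GC QB WOK wl wh k m) := by
  have e : chG wl wh k (k + 2 * m) m q L mul ap = fun f =>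
    selA (Nat.beq ap 0) (chD mul (wl - rc (k + 1)) (wh - ru (k + 2 * m - 1)) k (k + 2 * m) m q L f)
      (chA mul (wl - rc (k + 1)) wl wh k (k + 2 * m) m q L f) := rfl
  rw [e]
  exact Ev_sel (fun _ => seg_chD hm) (fun _ => seg_chA hm)

theorem seg_chW0 {wl wh k m q : ℕ} (hm : 1 ≤ m) :
    Ev (chW0 wl wh k (k + 2 * m) m q) (GC QB WOK wl wh k m) := by
  have e : chW0 wl wh k (k + 2 * m) m q = fun f =>
    selA (thenB (okM (wl - rc (k + 1)) (wh - ru (k + 2 * m - 1)) k (k + 2 * m))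
      (thenB (posOK q (wl - rc (k + 1)) (wh - ru (k + 2 * m - 1))) (Nat.ble q 18879)))
    (addG q (m * vCh k) (m * vCh k) (psD1 m (wh - ru (k + 2 * m - 1)) (1600 + q) +
      2 * (wh - ru (k + 2 * m - 1) - (wl - rc (k + 1)))) f) noA := rfl
  rw [e]
  refine Ev_sel (fun hx => ?_) (fun _ => Ev_no _)
  obtain ⟨hx, hp, hq⟩ : okM (wl - rc (k + 1)) (wh - ru (k + 2 * m - 1)) k (k + 2 * m) = true ∧
      posOK q (wl - rc (k + 1)) (wh - ru (k + 2 * m - 1)) = true ∧ q ≤ 18879 := by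
    rw [thenB_iff, thenB_iff, ble_iff] at hx
    exact hx
  refine (Ev_addG (E := evL q 0 (fun _ => m * vCh k)) ?_ ?_).mono ?_
  · rw [evL_zero, tabS_single]
  · rw [evL_zero, totS_single]
  · rintro E Ψ ⟨rfl, rfl⟩
    refine ⟨msX 1 m, msX_sum 1 m, fun w hw hk hk0 => ?_⟩
    have hs := sF_bounds hw hk hk0 hm
    rw [← rcC_eq, ← ruC_eq] at hs
    have hx1 : okX 1 (wl - rc (k + 1)) (wh - ru (k + 2 * m - 1)) k (k + 2 * m) = true := by
      rw [okX_eq, if_neg (by norm_num)]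
      exact hx
    refine flat_PE hk hm hx1 (hs 0 hm).1 (hs (m - 1) (by omega)).2 (win0_blk hp hq hm hs (fun j _ => vCh_ge hk j)) ?_
    have h1 := psM_pay (mul := 1) (c := 2) (hs 0 hm).1 (hs (m - 1) (by omega)).2 (le_refl 2)
    have h2 := psD_ge (c := nC 1 m 0) (m := m) (x := wh - ru (k + 2 * m - 1)) (K := 1600 + q) (by omega)
    have e1 : nC 1 m 0 = 1 := by
      rw [nC_eq, if_neg (by norm_num)]
      omega
    rw [psM_eq, if_neg (by norm_num)] at h1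
    rw [e1] at h2 ⊢
    rw [psD1_eq, sub_mul]
    push_cast
    push_cast at h1 h2
    linarith

/-! ### the chain -/

theorem GC_zero (wl wh k : ℕ) : GC QB WOK wl wh k 0 [] 0 :=
  ⟨[], rfl, fun _ _ _ _ => ⟨0, PE.zero⟩⟩

theorem chL_ev (wl wh : ℕ) : ∀ n k r : ℕ, Ev (fun f => chL wl wh f n k r) (GC QB WOK wl wh k r)
  | 0, k, r => Ev_no _
  | n + 1, k, r => by
    show Ev (fun f => selA (Nat.beq r 0) f (rd (chS wl wh k r (chL wl wh f n) f))) _
    refine Ev_sel (F := fun f => f) (fun h0 => ?_) (fun h0 => ?_)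
    · have h0 : r = 0 := Nat.eq_of_beq_eq_true h0
      subst h0
      refine Ev_id.mono ?_
      rintro E Ψ ⟨rfl, rfl⟩
      exact GC_zero wl wh k
    · have h0 : r ≠ 0 := Nat.ne_of_beq_eq_false h0
      refine Ev_rd (κ := fun f x => chS wl wh k r (chL wl wh f n) f x) (fun x => ?_)
      show Ev (fun f => selA (Nat.beq (Nat.land x 7) 7) (chW0 wl wh k (k + 2 * r) r (Nat.shiftRight x 3) f)
        (rd (chS1 wl wh k r x (chL wl wh f n)))) _
      refine Ev_sel (fun _ => seg_chW0 (by omega)) (fun _ => ?_)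
      refine Ev_rd (κ := fun f y => chS1 wl wh k r x (chL wl wh f n) y) (fun y => ?_)
      obtain ⟨m, hm⟩ : ∃ m, m = Nat.shiftRight y 12 := ⟨_, rfl⟩
      have e : (fun f => chS1 wl wh k r x (chL wl wh f n) y) = fun f =>
        selA (thenB (Nat.ble 1 m) (Nat.ble m r))
          (chG wl wh k (k + 2 * m) m (Nat.shiftRight x 3) (Nat.land y 4095) (Nat.land x 1) (Nat.land x 2)
            (chL wl wh f n (k + 2 * m) (r - m))) noA := by
        rw [hm]
        rfl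
      rw [e]
      refine Ev_sel (fun h => ?_) (fun _ => Ev_no _)
      rw [thenB_iff, ble_iff, ble_iff] at h
      refine ((seg_chG (QB := QB) (WOK := WOK) h.1).comp (chL_ev wl wh n (k + 2 * m) (r - m))).mono ?_
      rintro E Ψ ⟨E1, E2, Ψ1, Ψ2, a1, a2, rfl, rfl⟩
      exact GC_add h.2 a1 a2

/-- **the context `ch`** -/
theorem ch_ok (wl wh k m : ℕ) : CxOK QB WOK (.ch wl wh k m) (evCh wl wh k m) := by
  refine (chL_ev (QB := QB) (WOK := WOK) wl wh (m + 1) k m).mono ?_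
  rintro E Ψ ⟨ms, rfl, h⟩
  refine (free_ch ms).mono ?_
  rintro Q B ⟨rfl, w, hw, hk, hkw, rfl⟩
  obtain ⟨C, g⟩ := h w hw hk hkw
  exact ⟨_, 0, C, 0, (add_zero _).symm, g⟩

/-! ## pieces above the columns of a wall, upright chains -/

/-- what is needed of the objects -/
structure QfOK (J : ℕ) (Qf : ℝ → ℕ → ℕ → Multiset Obj) : Prop where
  zero : ∀ H k, Qf H k 0 = 0
  add : ∀ H k s t, Qf H k (s + t) = Qf H k s + Qf H (k + 2 * (s * J)) t
  sep : ∀ {H : ℝ} {k m sh : ℕ}, 1 ≤ k → 1 ≤ m → okMc sh (k + 2 * ((m - 1) * J)) = true →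
    (∀ j < m, 0 < sM H k J j) → sM H k J (m - 1) * SC ≤ sh → sM H k J (m - 1) < Th (i0 - 1) →
    (∀ o ∈ Qf H k m, OInv (Th (i0 - 1)) o) ∧
      cellsOf (Qf H k m) = cellsM (sM H k J) (lM k J) m ∧
      ((Qf H k m).map (fun o => ∑ K ∈ touched o, Th (K - 1))).sum =
        ∑ j ∈ Finset.range m, Th (kc (sM H k J j) - 1) ∧
      potOf (Qf H k m) = 0

theorem QfOK_mc (J : ℕ) : QfOK J (fun H k m => piecesQ (mcv H k J m)) := by
  refine ⟨fun H k => ?_, fun H k s t => ?_, fun hk hm h h0 h1 h2 => mids_sep hk hm h h0 h1 h2⟩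
  · simp [mcv, piecesQ_zero]
  · show piecesQ (mcv H k J (s + t)) = _
    rw [mcv_add, piecesQ_add]

theorem upBl_app (w : ℝ) : ∀ (ms ms' : List ℕ) (k : ℕ),
    upBl w k (ms ++ ms') = upBl w k ms + upBl w (k + 2 * ms.sum) ms'
  | [], ms', k => by simp [upBl]
  | m :: ms, ms', k => by
    rw [List.cons_append, upBl, upBl, upBl_app w ms ms' (k + 2 * m), List.sum_cons,
      add_assoc {upObj w k m}, show 2 * (m + ms.sum) = 2 * m + 2 * ms.sum by ring, ← Nat.add_assoc]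

theorem QfOK_up : QfOK 1 (fun H k m => upBl H k (List.replicate m 1)) := by
  refine ⟨fun H k => rfl, fun H k s t => ?_, fun hk hm h h0 h1 h2 => up_sep hk hm h h0 h1 h2⟩
  show upBl H k (List.replicate (s + t) 1) = _
  rw [List.replicate_add, upBl_app]
  simp

/-- segments -/
theorem mc_PE {J : ℕ} {Qf : ℝ → ℕ → ℕ → Multiset Obj} (hQ : QfOK J Qf) {H : ℝ} {k m q L sh Ψ : ℕ} {X : ℝ}
    {u : ℕ → ℕ} (hk : 1 ≤ k) (hm : 1 ≤ m) (hx : okMc sh (k + 2 * ((m - 1) * J)) = true)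
    (h1 : sM H k J (m - 1) * SC ≤ sh) (hb : Blk q L m (sM H k J) (lM k J) X u)
    (hΨ : (3115 / 1000) * (X * ((9682 / 10000) * (nC 0 m L : ℕ) +
      (505110 / 10000) * m / ((1600 + q : ℕ) : ℝ))) + 0 ≤ (3115 / 1000) * (Ψ : ℝ)) :
    PE QB WOK (evL q L u) Ψ 0 0 (Qf H k m) 0 0 0 0 := by
  obtain ⟨a1, a2, a3, a4⟩ := hQ.sep hk hm hx hb.pos h1 (hb.lt (by omega))
  rw [nC_eq, if_pos rfl] at hΨ
  refine PE_seg (c := m) hb a1 a2 ?_ ?_ ?_ ?_ ?_ ?_ ?_
  · rw [a3]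
    exact hb.W
  · rw [psi2_of_pot a4, zero_mul]
    exact hΨ
  · rw [a4]
    simp [potOf]
  · simp [unitsC]
  · intro c hc; simp at hc
  · intro c hc; simp at hc
  · intro c hc; simp at hc

theorem sM_bounds {Hl Hh k J m : ℕ} {H : ℝ} (hH : In Hl Hh H) (hk : 1 ≤ k) (hJ : 1 ≤ J) (hH0 : TTr k J ≤ H)
    (hm : 1 ≤ m) : ∀ j < m, ((Hl - rTThi k J : ℕ) : ℝ) ≤ sM H k J j * SC ∧
      sM H k J j * SC ≤ ((Hh - rTTlo (k + 2 * ((m - 1) * J)) J : ℕ) : ℝ) := by
  intro j hj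
  have hSC := SC_pos
  rw [rTThi_eq, rTTlo_eq]
  constructor
  · have h1 : In (TTlo k J) (TThi k J) (TTr k J) := In_TT k J hk hJ
    have h2 := (sub_in hH h1 hH0).1
    refine h2.trans (mul_le_mul_of_nonneg_right ?_ hSC.le)
    have := sM_mono H J hk (Nat.zero_le j)
    refine le_trans (le_of_eq ?_) this
    unfold sM
    simp
  · have h1 : In (TTlo (k + 2 * ((m - 1) * J)) J) (TThi (k + 2 * ((m - 1) * J)) J) (TTr (k + 2 * ((m - 1) * J)) J) :=
      In_TT _ J (by omega) hJ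
    have h2 : sM H k J j ≤ sM H k J (m - 1) := sM_mono H J hk (by omega)
    refine (mul_le_mul_of_nonneg_right h2 hSC.le).trans ?_
    refine le_trans ?_ (cast_sub_ge Hh (TTlo (k + 2 * ((m - 1) * J)) J))
    have e1 := hH.2
    have e2 := h1.1
    unfold sM
    rw [sub_mul]
    linarith

/-- property of the cells beginning with `k`, `r` cells -/
def GM (QB : ℕ × ℕ × ℕ → Multiset Obj) (WOK : ℕ × ℕ × ℕ → Prop) (Qf : ℝ → ℕ → ℕ → Multiset Obj)
    (Hl Hh J k r : ℕ) (E : List (ℕ × ℕ)) (Ψ : ℕ) : Prop :=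
  ∀ H, In Hl Hh H → 1 ≤ k → TTr k J ≤ H → PE QB WOK E Ψ 0 0 (Qf H k r) 0 0 0 0

theorem GM_add {J : ℕ} {Qf : ℝ → ℕ → ℕ → Multiset Obj} (hQ : QfOK J Qf) {Hl Hh k m r : ℕ}
    {E E' : List (ℕ × ℕ)} {Ψ Ψ' : ℕ} (hm : m ≤ r) (h : GM QB WOK Qf Hl Hh J k m E Ψ)
    (h' : GM QB WOK Qf Hl Hh J (k + 2 * (m * J)) (r - m) E' Ψ') :
    GM QB WOK Qf Hl Hh J k r (E ++ E') (Ψ + Ψ') := by
  intro H hH hk hH0
  have g1 := h H hH hk hH0
  have g2 := h' H hH (by omega) ((TTr_anti (by omega) hk).trans hH0)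
  have e := hQ.add H k m (r - m)
  rw [show m + (r - m) = r by omega] at e
  rw [e]
  simpa using g1.add g2

theorem last_eq {k J m : ℕ} (hm : 1 ≤ m) : k + 2 * (m * J) - 2 * J = k + 2 * ((m - 1) * J) := by
  obtain ⟨n, rfl⟩ := Nat.exists_eq_succ_of_ne_zero (show m ≠ 0 by omega)
  have : (n + 1) * J = n * J + J := by ring
  rw [Nat.succ_eq_add_one, this, Nat.add_sub_cancel]
  omega

theorem seg_mcD {J : ℕ} {Qf : ℝ → ℕ → ℕ → Multiset Obj} (hQ : QfOK J Qf) (hJ : 1 ≤ J) {Hl Hh k m q L : ℕ}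
    (hm : 1 ≤ m) : Ev (mcD Hl Hh k (k + 2 * ((m - 1) * J)) J m q L) (GM QB WOK Qf Hl Hh J k m) := by
  have e : mcD Hl Hh k (k + 2 * ((m - 1) * J)) J m q L = fun f =>
    selA (okMc (Hh - rTTlo (k + 2 * ((m - 1) * J)) J) (k + 2 * ((m - 1) * J)))
    (segD 0 q L (Hl - rTThi k J) (Hh - rTTlo (k + 2 * ((m - 1) * J)) J) m (vMc k) f) noA := rfl
  rw [e]
  refine Ev_sel (fun hx => Ev_segD (fun hwin H hH hk hH0 => ?_)) (fun _ => Ev_no _)
  have hs := sM_bounds hH hk hJ hH0 hm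
  refine mc_PE hQ hk hm hx (hs (m - 1) (by omega)).2 (win_blk hwin hm hs (fun j _ => vMc_ge k J j)) ?_
  have h2 := psD_ge (c := nC 0 m L) (m := m) (x := Hh - rTTlo (k + 2 * ((m - 1) * J)) J) (K := 1600 + q) (by omega)
  rw [psM_eq, if_pos rfl]
  push_cast
  push_cast at h2
  linarith

theorem seg_mcA {J : ℕ} {Qf : ℝ → ℕ → ℕ → Multiset Obj} (hQ : QfOK J Qf) (hJ : 1 ≤ J) {Hl Hh k m q L : ℕ}
    (hm : 1 ≤ m) :
    Ev (mcA Hl Hh k (k + 2 * ((m - 1) * J)) (k + 2 * (m * J)) J m q L) (GM QB WOK Qf Hl Hh J k m) := by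
  have e : mcA Hl Hh k (k + 2 * ((m - 1) * J)) (k + 2 * (m * J)) J m q L =
    segA 0 q L ((Hl - rTThi k J) >>> 32) ((Hl - rTThi (k + 2 * (m * J)) J) >>> 32)
      (yMc Hl Hh k J m (rTTlo k J) (rTThi k J) (rTTlo (k + 2 * (m * J)) J) (rTThi (k + 2 * (m * J)) J)) m (vMc k)
      (fun b => okMc (b * 4294967296) (k + 2 * ((m - 1) * J))) := rfl
  rw [e, Nat.shiftRight_eq_div_pow, Nat.shiftRight_eq_div_pow]
  refine Ev_segA hm (fun hx hok hq H hH hk hH0 => ?_)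
  have hA := le_of_AP hok.d0
  have i1 : In (rTTlo k J) (rTThi k J) (TTr k J) := by
    rw [rTTlo_eq, rTThi_eq]
    exact In_TT k J hk hJ
  have i2 : In (rTTlo (k + 2 * (m * J)) J) (rTThi (k + 2 * (m * J)) J) (TTr (k + 2 * (m * J)) J) := by
    rw [rTTlo_eq, rTThi_eq]
    exact In_TT _ J (by omega) hJ
  have hin := mc_ApIn (σ := 32) hH hk hH0 hm i1 i2
    (y := (Hh - Hl) + ((rTThi k J - rTTlo k J) + (rTThi (k + 2 * (m * J)) J - rTTlo (k + 2 * (m * J)) J)))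
    (by omega) (by omega) hA
  have eY : yMc Hl Hh k J m (rTTlo k J) (rTThi k J) (rTTlo (k + 2 * (m * J)) J) (rTThi (k + 2 * (m * J)) J) + m =
      2 * (((Hh - Hl) + ((rTThi k J - rTTlo k J) + (rTThi (k + 2 * (m * J)) J - rTTlo (k + 2 * (m * J)) J))) / 2 ^ 32
        + 2) + m + (2 * (J * J * J) * (m * m) * SC / (k * k * k * 2 ^ 32) + 1) := by
    have : yMc Hl Hh k J m (rTTlo k J) (rTThi k J) (rTTlo (k + 2 * (m * J)) J) (rTThi (k + 2 * (m * J)) J) =
      2 * (((Hh - Hl) + ((rTThi k J - rTTlo k J) + (rTThi (k + 2 * (m * J)) J - rTTlo (k + 2 * (m * J)) J))) / 2 ^ 32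
        + 2) + (2 * (J * J * J) * (m * m) * SC / (k * k * k * 2 ^ 32) + 1) := by
      show 2 * (((Hh - Hl) + ((rTThi k J - rTTlo k J) +
        (rTThi (k + 2 * (m * J)) J - rTTlo (k + 2 * (m * J)) J))) >>> 32 + 2) + _ = _
      rw [Nat.shiftRight_eq_div_pow]
      rfl
    rw [this]
    ring
  rw [← eY] at hin
  have hs : ApIn 32 ((Hl - rTThi k J) / 2 ^ 32)
    (((Hl - rTThi (k + 2 * (m * J)) J) / 2 ^ 32 - (Hl - rTThi k J) / 2 ^ 32) / m)
    (yMc Hl Hh k J m (rTTlo k J) (rTThi k J) (rTTlo (k + 2 * (m * J)) J) (rTThi (k + 2 * (m * J)) J) + m) m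
    (sM H k J) := ApIn_restrict hin
  refine mc_PE hQ hk hm hx (ApIn_last hm hs) (ap_blk hok hq hs (fun j _ => vMc_ge k J j)) (ap_pay rfl ?_)
  positivity

theorem seg_mcG {J : ℕ} {Qf : ℝ → ℕ → ℕ → Multiset Obj} (hQ : QfOK J Qf) (hJ : 1 ≤ J) {Hl Hh k m q L ap : ℕ}
    (hm : 1 ≤ m) : Ev (mcG Hl Hh k (k + 2 * (m * J)) J m q L ap) (GM QB WOK Qf Hl Hh J k m) := by
  have e : mcG Hl Hh k (k + 2 * (m * J)) J m q L ap = fun f =>
    selA (Nat.beq ap 0) (mcD Hl Hh k (k + 2 * (m * J) - 2 * J) J m q L f)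
      (mcA Hl Hh k (k + 2 * (m * J) - 2 * J) (k + 2 * (m * J)) J m q L f) := rfl
  rw [e, last_eq hm]
  exact Ev_sel (fun _ => seg_mcD hQ hJ hm) (fun _ => seg_mcA hQ hJ hm)

theorem mcL_ev {J : ℕ} {Qf : ℝ → ℕ → ℕ → Multiset Obj} (hQ : QfOK J Qf) (hJ : 1 ≤ J) (Hl Hh : ℕ) :
    ∀ n k r : ℕ, Ev (fun f => mcL Hl Hh J f n k r) (GM QB WOK Qf Hl Hh J k r)
  | 0, k, r => Ev_no _
  | n + 1, k, r => by
    show Ev (fun f => selA (Nat.beq r 0) f (rd (mcS Hl Hh k J r (mcL Hl Hh J f n)))) _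
    refine Ev_sel (F := fun f => f) (fun h0 => ?_) (fun h0 => ?_)
    · have h0 : r = 0 := Nat.eq_of_beq_eq_true h0
      subst h0
      refine Ev_id.mono ?_
      rintro E Ψ ⟨rfl, rfl⟩ H hH hk hH0
      rw [hQ.zero]
      exact PE.zero
    · have h0 : r ≠ 0 := Nat.ne_of_beq_eq_false h0
      refine Ev_rd (κ := fun f x => mcS Hl Hh k J r (mcL Hl Hh J f n) x) (fun x => ?_)
      show Ev (fun f => rd (fun y => mcS1 Hl Hh k J r (Nat.shiftRight y 12) x y (mcL Hl Hh J f n))) _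
      refine Ev_rd (κ := fun f y => mcS1 Hl Hh k J r (Nat.shiftRight y 12) x y (mcL Hl Hh J f n)) (fun y => ?_)
      obtain ⟨m, hm⟩ : ∃ m, m = Nat.shiftRight y 12 := ⟨_, rfl⟩
      rw [← hm]
      have e : (fun f => mcS1 Hl Hh k J r m x y (mcL Hl Hh J f n)) = fun f =>
        selA (thenB (Nat.ble 1 m) (Nat.ble m r))
          (mcG Hl Hh k (k + 2 * (m * J)) J m (Nat.shiftRight x 3) (Nat.land y 4095) (Nat.land x 2)
            (mcL Hl Hh J f n (k + 2 * (m * J)) (r - m))) noA := rfl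
      rw [e]
      refine Ev_sel (fun h => ?_) (fun _ => Ev_no _)
      rw [thenB_iff, ble_iff, ble_iff] at h
      refine ((seg_mcG (QB := QB) (WOK := WOK) hQ hJ h.1).comp (mcL_ev hQ hJ Hl Hh n (k + 2 * (m * J)) (r - m))).mono ?_
      rintro E Ψ ⟨E1, E2, Ψ1, Ψ2, a1, a2, rfl, rfl⟩
      exact GM_add hQ h.2 a1 a2

/-- owed numbers of separate cells -/
theorem PE_owed {E : List (ℕ × ℕ)} {Ψ : ℕ} {Q : Multiset Obj} (h : PE QB WOK E Ψ 0 0 Q 0 0 0 0) (O : Multiset ℕ) :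
    PE QB WOK E Ψ 0 O Q 0 0 0 0 :=
  { h with units := by simp [unitsC] }

/-- **the context `mc`** -/
theorem mc_ok (Hl Hh k J m : ℕ) : CxOK QB WOK (.mc Hl Hh k J m) (evMc Hl Hh k J m) := by
  have e : evMc Hl Hh k J m = fun f => selA (Nat.beq m 0) f
    (selA (thenB (Nat.ble 1 J) (thenB (Nat.ble 1 k) (Nat.ble (rTThi k J) Hl)))
      (mcL Hl Hh J f (m + 1) k m) noA) := rfl
  unfold CxOK
  rw [e]
  refine Ev_sel (F := fun f => f) (fun h0 => ?_) (fun _ => Ev_sel (fun h => ?_) (fun _ => Ev_no _))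
  · have h0 : m = 0 := Nat.eq_of_beq_eq_true h0
    subst h0
    refine Ev_id.mono ?_
    rintro E Ψ ⟨rfl, rfl⟩
    refine FreeOK_single ?_
    rintro G ⟨H, hH, rfl⟩
    refine ⟨0, 0, 0, 0, PX.zero, OwedOK_zero, rfl, Cut.of_eq ?_⟩
    simp [mcv, unitsM, rects]
  · rw [thenB_iff, thenB_iff, ble_iff, ble_iff, ble_iff] at h
    obtain ⟨hJ, hk, hH⟩ := h
    refine (mcL_ev (QB := QB) (WOK := WOK) (QfOK_mc J) hJ Hl Hh (m + 1) k m).mono ?_
    intro E Ψ hG
    rw [rTThi_eq] at hH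
    refine (free_mc hk hJ hH).mono ?_
    rintro Q B ⟨rfl, H, hl, rfl⟩
    have h0 : TTr k J ≤ H := In.le hl (In_TT k J hk hJ) hH
    exact ⟨_, 0, 0, 0, (add_zero _).symm, hG H hl hk h0⟩

theorem TTr_one (k : ℕ) : TTr k 1 = Lg k := by
  unfold TTr T Lg
  simp

/-- **the context `uch`** -/
theorem uch_ok (wl wh k m : ℕ) : CxOK QB WOK (.uch wl wh k m) (evUch wl wh k m) := by
  have e : evUch wl wh k m = fun f => selA (Nat.beq m 0) f (mcL wl wh 1 f (m + 1) k m) := rfl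
  unfold CxOK
  rw [e]
  have hms : m = (List.replicate m 1).sum := by simp
  refine Ev_sel (F := fun f => f) (fun h0 => ?_) (fun _ => ?_)
  · have h0 : m = 0 := Nat.eq_of_beq_eq_true h0
    subst h0
    refine Ev_id.mono ?_
    rintro E Ψ ⟨rfl, rfl⟩
    refine (free_uch (ms := [])).mono ?_
    rintro Q B ⟨rfl, w, hw, hk, hkw, rfl⟩
    exact PX.zero
  · refine (mcL_ev (QB := QB) (WOK := WOK) QfOK_up (le_refl 1) wl wh (m + 1) k m).mono ?_
    intro E Ψ hG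
    have hf := free_uch (wl := wl) (wh := wh) (k := k) (ms := List.replicate m 1)
    rw [← hms] at hf
    refine hf.mono ?_
    rintro Q B ⟨rfl, w, hw, hk, hkw, rfl⟩
    exact ⟨_, 0, 0, 0, (add_zero _).symm, PE_owed (hG w hw hk (by rw [TTr_one]; exact hkw)) _⟩

end Pool.Agent.MMS.Fi
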