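import Pool.Agent.MP_94f265_co.ST.BitsH

/-!
# The bits of the walls: the charges a priori for the far classes
-/

namespace Pool.Agent.MMS

open Pool.Agent.MM1 Pool.Agent.MM2

/-- tail of `∑ 1 / n²` -/
theorem sum_inv_sq (n0 M m : ℕ) (hm : 2 ≤ m) :
    ∑ n ∈ Finset.Ico n0 M, (if m ≤ n then 1 / (n : ℝ) ^ 2 else 0) ≤ 1 / ((m : ℝ) - 1) := by
  have hmr : (2 : ℝ) ≤ m := by exact_mod_cast hm
  have hstep : ∀ n : ℕ, m ≤ n → 1 / (n : ℝ) ^ 2 ≤ 1 / ((n : ℝ) - 1) - 1 / (n : ℝ) := by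
    intro n hn
    have hn2 : (2 : ℝ) ≤ n := by exact_mod_cast (by omega : 2 ≤ n)
    have h1 : (n : ℝ) - 1 ≠ 0 := by linarith
    have h2 : (n : ℝ) ≠ 0 := by linarith
    have e : 1 / ((n : ℝ) - 1) - 1 / (n : ℝ) = 1 / (((n : ℝ) - 1) * n) := by
      field_simp
      ring
    rw [e]
    apply div_le_div_of_nonneg_left (by norm_num)
    · apply mul_pos <;> linarith
    · nlinarith
  have hG0 : ∀ n : ℕ, m ≤ n → 0 ≤ 1 / ((n : ℝ) - 1) - 1 / (n : ℝ) := by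
    intro n hn
    exact le_trans (by positivity) (hstep n hn)
  have htel : ∀ y, m ≤ y → ∑ n ∈ Finset.Ico m y, (1 / ((n : ℝ) - 1) - 1 / (n : ℝ)) = 1 / ((m : ℝ) - 1) - 1 / ((y : ℝ) - 1) := by
    intro y hy
    induction y, hy using Nat.le_induction with
    | base => simp
    | succ y hy ih =>
      rw [Finset.sum_Ico_succ_top hy, ih]
      push_cast
      ring
  calc ∑ n ∈ Finset.Ico n0 M, (if m ≤ n then 1 / (n : ℝ) ^ 2 else 0)
      = ∑ n ∈ (Finset.Ico n0 M).filter (fun n => m ≤ n), 1 / (n : ℝ) ^ 2 := by rw [Finset.sum_filter]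
    _ ≤ ∑ n ∈ (Finset.Ico n0 M).filter (fun n => m ≤ n), (1 / ((n : ℝ) - 1) - 1 / (n : ℝ)) := by
        apply Finset.sum_le_sum
        intro n hn
        rw [Finset.mem_filter] at hn
        exact hstep n hn.2
    _ ≤ ∑ n ∈ Finset.Ico m (m + M), (1 / ((n : ℝ) - 1) - 1 / (n : ℝ)) := by
        apply Finset.sum_le_sum_of_subset_of_nonneg
        · intro n hn
          rw [Finset.mem_filter, Finset.mem_Ico] at hn
          rw [Finset.mem_Ico]
          omega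
        · intro n hn _
          rw [Finset.mem_Ico] at hn
          exact hG0 n hn.1
    _ = 1 / ((m : ℝ) - 1) - 1 / (((m + M : ℕ) : ℝ) - 1) := htel (m + M) (by omega)
    _ ≤ 1 / ((m : ℝ) - 1) := by
        have : 0 ≤ 1 / (((m + M : ℕ) : ℝ) - 1) := by
          apply div_nonneg (by norm_num)
          push_cast
          have : (0 : ℝ) ≤ M := Nat.cast_nonneg M
          linarith
        linarith

/-- the threshold stays valid -/
theorem thr_mono {c K0 K : ℕ} (hK0 : 1600 ≤ K0) (hK : K0 ≤ K)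
    (hc : 5120 * (c * K0) ^ 2 ≤ 6 * (5 * (K0 - 1) - 1) ^ 3) : MM2.Th (K - 1) * ((c : ℝ) * K) ^ 2 ≤ 2 := by
  have hK0r : (1600 : ℝ) ≤ K0 := by exact_mod_cast hK0
  have hKr : (K0 : ℝ) ≤ K := by exact_mod_cast hK
  obtain ⟨a, rfl⟩ : ∃ a, K0 = a + 2 := ⟨K0 - 2, by omega⟩
  have e1 : 5 * (a + 2 - 1) - 1 = 5 * a + 4 := by omega
  rw [e1] at hc
  have hc' : 5120 * ((c : ℝ) * ((a + 2 : ℕ) : ℝ)) ^ 2 ≤ 6 * (5 * (a : ℝ) + 4) ^ 3 := by exact_mod_cast hc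
  set x : ℝ := ((a + 2 : ℕ) : ℝ) with hx
  have e2 : (5 : ℝ) * a + 4 = 5 * x - 6 := by rw [hx]; push_cast; ring
  rw [e2] at hc'
  have e3 : 5 * ((K - 1 : ℕ) : ℝ) - 1 = 5 * (K : ℝ) - 6 := by
    rw [Nat.cast_sub (by omega)]
    push_cast
    ring
  unfold MM2.Th
  rw [e3]
  have hx0 : 0 < x := by linarith
  have hKp : (0 : ℝ) < K := by linarith
  have h5 : 0 < 5 * (K : ℝ) - 6 := by linarith
  have h6 : 0 < 5 * x - 6 := by linarith
  rw [div_mul_eq_mul_div, div_le_iff₀ (by positivity)]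
  -- `(5K-6)^3 x^2 >= (5x-6)^3 K^2`
  have h7 : (5 * x - 6) * K ≤ (5 * K - 6) * x := by
    have e4 : (5 * x - 6) * (K : ℝ) = 5 * (x * K) - 6 * K := by ring
    have e5 : (5 * (K : ℝ) - 6) * x = 5 * (x * K) - 6 * x := by ring
    rw [e4, e5]
    linarith
  have h8 : ((5 * x - 6) * K) ^ 2 ≤ ((5 * K - 6) * x) ^ 2 := pow_le_pow_left₀ (by positivity) h7 2
  have h9 : (5 * x - 6) * ((5 * x - 6) * K) ^ 2 ≤ (5 * K - 6) * ((5 * K - 6) * x) ^ 2 :=
    mul_le_mul (by linarith) h8 (by positivity) h5.le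
  have h10 : 5120 * ((c : ℝ) * K) ^ 2 * x ^ 2 ≤ 6 * (5 * K - 6) ^ 3 * x ^ 2 := by
    calc 5120 * ((c : ℝ) * K) ^ 2 * x ^ 2 = (5120 * (c * x) ^ 2) * K ^ 2 := by ring
      _ ≤ (6 * (5 * x - 6) ^ 3) * K ^ 2 := mul_le_mul_of_nonneg_right hc' (by positivity)
      _ = 6 * ((5 * x - 6) * ((5 * x - 6) * K) ^ 2) := by ring
      _ ≤ 6 * ((5 * K - 6) * ((5 * K - 6) * x) ^ 2) := mul_le_mul_of_nonneg_left h9 (by norm_num)
      _ = 6 * (5 * K - 6) ^ 3 * x ^ 2 := by ring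
  have h11 := le_of_mul_le_mul_right h10 (by positivity)
  linarith

/-- **The charges, a priori.** -/
theorem charge_far (Ws : Multiset (ℕ × ℕ × ℕ)) (hW : ∀ w ∈ Ws, WOK w)
    (h2 : ∀ w ∈ Ws, w.2.1 * (w.2.1 - 1) ≤ 2 * w.2.2) (n0 M K0 c : ℕ) (hK0 : 1600 ≤ K0) (hc : 66 ≤ c * K0 / 1000)
    (hc1 : 5120 * (c * K0) ^ 2 ≤ 6 * (5 * (K0 - 1) - 1) ^ 3)
    (hd : (Ws.map wNums).sum ≤ (Finset.Ico n0 M).val) (K : ℕ) (hK : K0 ≤ K) :
    (Ws.map (fun w => if 2 < MM2.Th (K - 1) * ((w.1 : ℝ) + 2 * w.2.1 * w.2.2) ^ 2 then wCh w else 0)).sum ≤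
      (6877 / 10000) / c * (3 / K) := by
  have hcK0 : 66000 ≤ c * K0 := by omega
  have hcK : 66000 ≤ c * K := hcK0.trans (Nat.mul_le_mul_left c hK)
  have hcp : 0 < c := by
    rcases Nat.eq_zero_or_pos c with rfl | h
    · simp at hcK
    · exact h
  have hcr : (0 : ℝ) < c := by exact_mod_cast hcp
  have hKr : (1600 : ℝ) ≤ K := by exact_mod_cast hK0.trans hK
  have hcKr : (66000 : ℝ) ≤ (c : ℝ) * K := by exact_mod_cast hcK
  have hthr := thr_mono hK0 hK hc1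
  have hTh : 0 < MM2.Th (K - 1) := Th_pos (by omega)
  set m : ℕ := ⌈(c : ℝ) * K / (101 / 100)⌉₊ with hm
  have hm1 : (c : ℝ) * K / (101 / 100) ≤ m := Nat.le_ceil _
  have hm2 : 2 ≤ m := by
    have h1 : (2 : ℝ) ≤ (c : ℝ) * K / (101 / 100) := by
      rw [le_div_iff₀ (by norm_num)]
      linarith
    have : (2 : ℝ) ≤ m := h1.trans hm1
    exact_mod_cast this
  -- one wall
  have hone : ∀ w ∈ Ws, (if 2 < MM2.Th (K - 1) * ((w.1 : ℝ) + 2 * w.2.1 * w.2.2) ^ 2 then wCh w else 0) ≤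
      ∑ n ∈ Finset.Ico w.1 (w.1 + 2 * w.2.1 * w.2.2), (if m ≤ n then (20402 / 10000) / (n : ℝ) ^ 2 else 0) := by
    intro w hw
    have hwk := hW w hw
    have hw2 := h2 w hw
    have hend := hwk.end_le
    have hk0 := hwk.k0
    have hJ := hwk.J2
    have hk : (66654 : ℝ) ≤ w.1 := by exact_mod_cast hk0
    by_cases hcond : 2 < MM2.Th (K - 1) * ((w.1 : ℝ) + 2 * w.2.1 * w.2.2) ^ 2
    · rw [if_pos hcond]
      have hlt : MM2.Th (K - 1) * ((c : ℝ) * K) ^ 2 < MM2.Th (K - 1) * ((w.1 : ℝ) + 2 * w.2.1 * w.2.2) ^ 2 :=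
        lt_of_le_of_lt hthr hcond
      have h3 := lt_of_mul_lt_mul_left hlt hTh.le
      have h4 : (c : ℝ) * K < (w.1 : ℝ) + 2 * w.2.1 * w.2.2 := lt_of_pow_lt_pow_left₀ 2 (by positivity) h3
      have h5 : m ≤ w.1 := by
        rw [hm]
        apply Nat.ceil_le.2
        rw [div_le_iff₀ (by norm_num)]
        linarith
      have h6 : ∀ n ∈ Finset.Ico w.1 (w.1 + 2 * w.2.1 * w.2.2),
          2 / (w.1 : ℝ) ^ 2 ≤ (if m ≤ n then (20402 / 10000) / (n : ℝ) ^ 2 else 0) := by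
        intro n hn
        rw [Finset.mem_Ico] at hn
        rw [if_pos (h5.trans hn.1)]
        have hn1 : (w.1 : ℝ) ≤ n := by exact_mod_cast hn.1
        have hn2 : (n : ℝ) ≤ (101 / 100) * w.1 := by
          have : (n : ℝ) ≤ ((w.1 + 2 * w.2.1 * w.2.2 : ℕ) : ℝ) := by exact_mod_cast hn.2.le
          push_cast at this
          linarith
        have hn3 : (0 : ℝ) < n := by linarith
        have hn4 : (0 : ℝ) < w.1 := by linarith
        rw [div_le_div_iff₀ (by positivity) (by positivity)]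
        have h7 : (n : ℝ) ^ 2 ≤ ((101 / 100) * w.1) ^ 2 := pow_le_pow_left₀ (by positivity) hn2 2
        nlinarith
      refine le_trans ?_ (Finset.sum_le_sum h6)
      rw [Finset.sum_const, Nat.card_Ico, nsmul_eq_mul]
      have e : w.1 + 2 * w.2.1 * w.2.2 - w.1 = 2 * w.2.1 * w.2.2 := by omega
      rw [e]
      unfold wCh
      push_cast
      have h8 : ((w.2.1 : ℝ)) * ((w.2.1 : ℝ) - 1) ≤ 2 * w.2.2 := by
        have h9 : ((w.2.1 * (w.2.1 - 1) : ℕ) : ℝ) ≤ ((2 * w.2.2 : ℕ) : ℝ) := by exact_mod_cast hw2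
        rw [Nat.cast_mul, Nat.cast_sub (by omega)] at h9
        push_cast at h9
        exact h9
      rw [← mul_div_assoc]
      apply div_le_div_of_nonneg_right _ (by positivity)
      have hJ0 : (0 : ℝ) ≤ w.2.1 := Nat.cast_nonneg _
      nlinarith
    · rw [if_neg hcond]
      apply Finset.sum_nonneg
      intro n _
      split_ifs
      · positivity
      · exact le_rfl
  refine (Multiset.sum_map_le_sum_map _ _ hone).trans ?_
  rw [← sum_bind_wNums]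
  have hG : ∀ n : ℕ, 0 ≤ (if m ≤ n then (20402 / 10000) / (n : ℝ) ^ 2 else 0) := by
    intro n
    split_ifs
    · positivity
    · exact le_rfl
  refine (sum_le_of_le hd (fun n => if m ≤ n then (20402 / 10000) / (n : ℝ) ^ 2 else 0) hG).trans ?_
  have h10 : (((Finset.Ico n0 M).val).map (fun n : ℕ => if m ≤ n then (20402 / 10000) / (n : ℝ) ^ 2 else 0)).sum =
      (20402 / 10000) * ∑ n ∈ Finset.Ico n0 M, (if m ≤ n then 1 / (n : ℝ) ^ 2 else 0) := by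
    rw [Finset.mul_sum]
    show ∑ n ∈ Finset.Ico n0 M, (if m ≤ n then (20402 / 10000) / (n : ℝ) ^ 2 else 0) = _
    apply Finset.sum_congr rfl
    intro n _
    split_ifs
    · ring
    · ring
  rw [h10]
  have h11 := sum_inv_sq n0 M m hm2
  have h12 : 1 / ((m : ℝ) - 1) ≤ 1 / ((c : ℝ) * K / (10101 / 10000)) := by
    apply div_le_div_of_nonneg_left (by norm_num) (by positivity)
    have e : (c : ℝ) * K / (101 / 100) - 1 ≤ (m : ℝ) - 1 := by linarith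
    refine le_trans ?_ e
    rw [div_le_iff₀ (by norm_num)]
    have : (c : ℝ) * K / (101 / 100) * (10101 / 10000) = (c : ℝ) * K * (10101 / 10100) := by ring
    nlinarith
  have h13 : (20402 / 10000) * ∑ n ∈ Finset.Ico n0 M, (if m ≤ n then 1 / (n : ℝ) ^ 2 else 0) ≤
      (20402 / 10000) * (1 / ((c : ℝ) * K / (10101 / 10000))) :=
    mul_le_mul_of_nonneg_left (h11.trans h12) (by norm_num)
  refine h13.trans ?_
  have e : (20402 / 10000) * (1 / ((c : ℝ) * K / (10101 / 10000))) = (20402 / 10000 * (10101 / 10000) / 3) / c * (3 / K) := by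
    field_simp
  rw [e]
  apply mul_le_mul_of_nonneg_right _ (by positivity)
  apply div_le_div_of_nonneg_right _ hcr.le
  norm_num

/-- **Load of the bits of the walls in the far classes**, without charges. -/
theorem walls_far8 {n0 M K0 c : ℕ} (hK0 : 1600 ≤ K0) (hc : 66 ≤ c * K0 / 1000)
    (hc1 : 5120 * (c * K0) ^ 2 ≤ 6 * (5 * (K0 - 1) - 1) ^ 3) (Ws : Multiset (ℕ × ℕ × ℕ)) (hW : ∀ w ∈ Ws, WOK w)
    (h8 : ∀ w ∈ Ws, w.2.1 ≤ 8) (h2 : ∀ w ∈ Ws, w.2.1 * (w.2.1 - 1) ≤ 2 * w.2.2)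
    (hn0 : 1 ≤ n0) (hd : wnum Ws ≤ (Finset.Ico n0 M).val) (K : ℕ) (hK : K0 ≤ K) :
    lenK K (cellsOf (wallsQ Ws)) ≤ (43 / 10000 + (6877 / 10000) / c) * (3 / K) := by
  have hd' : (Ws.map wNums).sum ≤ (Finset.Ico n0 M).val := by rw [wNums_sum_range']; exact hd
  rw [cells_wallsQ]
  have h1 := bits_load8 K n0 M Ws (hK0.trans hK) hW h8 hn0 hd'
  have h3 := charge_far Ws hW h2 n0 M K0 c hK0 hc hc1 hd' K hK
  rw [add_mul]
  linarith

/-- the classes from 13967 on -/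
theorem walls_far_a {n0 M : ℕ} (Ws : Multiset (ℕ × ℕ × ℕ)) (hW : ∀ w ∈ Ws, WOK w)
    (h8 : ∀ w ∈ Ws, w.2.1 ≤ 8) (h2 : ∀ w ∈ Ws, w.2.1 * (w.2.1 - 1) ≤ 2 * w.2.2)
    (hn0 : 1 ≤ n0) (hd : wnum Ws ≤ (Finset.Ico n0 M).val) (K : ℕ) (hK : 13967 ≤ K) :
    lenK K (cellsOf (wallsQ Ws)) ≤ (196 / 10000) * (3 / K) := by
  have h := walls_far8 (c := 45) (by norm_num : 1600 ≤ 13967) (by norm_num) (by norm_num) Ws hW h8 h2 hn0 hd K hK
  refine h.trans ?_
  apply mul_le_mul_of_nonneg_right _ (by positivity)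
  norm_num

/-- the classes from 60000 on -/
theorem walls_far_b {n0 M : ℕ} (Ws : Multiset (ℕ × ℕ × ℕ)) (hW : ∀ w ∈ Ws, WOK w)
    (h8 : ∀ w ∈ Ws, w.2.1 ≤ 8) (h2 : ∀ w ∈ Ws, w.2.1 * (w.2.1 - 1) ≤ 2 * w.2.2)
    (hn0 : 1 ≤ n0) (hd : wnum Ws ≤ (Finset.Ico n0 M).val) (K : ℕ) (hK : 60000 ≤ K) :
    lenK K (cellsOf (wallsQ Ws)) ≤ (117 / 10000) * (3 / K) := by
  have h := walls_far8 (c := 93) (by norm_num : 1600 ≤ 60000) (by norm_num) (by norm_num) Ws hW h8 h2 hn0 hd K hK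
  refine h.trans ?_
  apply mul_le_mul_of_nonneg_right _ (by positivity)
  norm_num

/-- the classes from 120000 on -/
theorem walls_far_c {n0 M : ℕ} (Ws : Multiset (ℕ × ℕ × ℕ)) (hW : ∀ w ∈ Ws, WOK w)
    (h8 : ∀ w ∈ Ws, w.2.1 ≤ 8) (h2 : ∀ w ∈ Ws, w.2.1 * (w.2.1 - 1) ≤ 2 * w.2.2)
    (hn0 : 1 ≤ n0) (hd : wnum Ws ≤ (Finset.Ico n0 M).val) (K : ℕ) (hK : 120000 ≤ K) :
    lenK K (cellsOf (wallsQ Ws)) ≤ (96 / 10000) * (3 / K) := by
  have h := walls_far8 (c := 132) (by norm_num : 1600 ≤ 120000) (by norm_num) (by norm_num) Ws hW h8 h2 hn0 hd K hK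
  refine h.trans ?_
  apply mul_le_mul_of_nonneg_right _ (by positivity)
  norm_num

end Pool.Agent.MMS
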