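import Pool.Agent.MP_94f265_co.ST.BitsH

/-!
# The bits of the walls: sharper bound for the thicknesses
-/

namespace Pool.Agent.MMS

open Pool.Agent.MM1 Pool.Agent.MM2

theorem bit_thick2 (w h : ℝ) (hw : 0 < w) (hh : 0 < h) :
    ((bitPs w h).map Prod.fst).sum ≤ (51 / 50) * w := by
  unfold bitPs
  split_ifs with h1 h2
  · simp only [Multiset.map_singleton, Multiset.sum_singleton]; linarith
  · simp only [Multiset.map_singleton, Multiset.sum_singleton]; linarith
  · push Not at h1 h2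
    rw [Multiset.map_add, Multiset.sum_add]
    simp only [Multiset.map_singleton, Multiset.sum_singleton]
    linarith

/-- a sum of terms which are at most `a (t + 1)` and at most `b` -/
theorem sum_two (τ : ℕ → ℝ) (a b : ℝ) (T m : ℕ) (hTm : T ≤ m) (h1 : ∀ t < m, τ t ≤ a * ((t : ℝ) + 1))
    (h2 : ∀ t < m, τ t ≤ b) :
    ∑ t ∈ Finset.range m, τ t ≤ a * (T * (T + 1) / 2) + ((m : ℝ) - T) * b := by
  induction m, hTm using Nat.le_induction with
  | base =>
    rw [sub_self, zero_mul, add_zero, ← sum_r1, Finset.mul_sum]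
    exact Finset.sum_le_sum fun t ht => h1 t (Finset.mem_range.1 ht)
  | succ m hm ih =>
    rw [Finset.sum_range_succ]
    have i1 := ih (fun t ht => h1 t (by omega)) (fun t ht => h2 t (by omega))
    have i2 := h2 m (by omega)
    push_cast
    linarith

/-- a sum of rows: `A` for the first ones, `B` for the others -/
theorem sum_rows2 (ρ A : ℕ → ℝ) (B : ℝ) (R n : ℕ) (hRn : R ≤ n) (h1 : ∀ r < R, ρ r ≤ A r)
    (h2 : ∀ r < n, ρ r ≤ B) :
    ∑ r ∈ Finset.range n, ρ r ≤ ∑ r ∈ Finset.range R, A r + ((n : ℝ) - R) * B := by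
  induction n, hRn using Nat.le_induction with
  | base =>
    rw [sub_self, zero_mul, add_zero]
    exact Finset.sum_le_sum fun t ht => h1 t (Finset.mem_range.1 ht)
  | succ m hm ih =>
    rw [Finset.sum_range_succ]
    have i1 := ih (fun t ht => h2 t (by omega))
    have i2 := h2 m (by omega)
    push_cast
    linarith

theorem sum_r2 (m : ℕ) : ∑ r ∈ Finset.range m, ((r : ℝ) + 1) ^ 2 = (m : ℝ) * (m + 1) * (2 * m + 1) / 6 := by
  induction m with
  | zero => simp
  | succ m ih => rw [Finset.sum_range_succ, ih]; push_cast; ring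

/-- `150 k²` times the bound for the sum of the thicknesses -/
noncomputable def wTw (R J K : ℝ) : ℝ :=
  300 * (J * (K - 1) * (R * (R + 1))) + 153 * (J * (R * (R + 1))) + 153 * ((J - 1 - R) * (K * (K - 1))) -
    98 * (J ^ 2 * (R * (R + 1) * (2 * R + 1)))

/-- **Sharper bound for the thicknesses of the bits of a wall.** -/
theorem WOK.thick2 {k J Kw : ℕ} (hw : WOK (k, J, Kw)) (hK : 1 ≤ Kw) {R : ℕ} (hR : R ≤ J - 1)
    (hRK : 2 * J * R ≤ Kw - 1) :
    ((wallPs (k, J, Kw)).map Prod.fst).sum ≤ wTw R J Kw / (150 * (k : ℝ) ^ 2) := by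
  have hk := hw.k0
  have hJ := hw.J2
  simp only at hk hJ
  have hk1 : (0 : ℝ) < k := by exact_mod_cast (by omega : 0 < k)
  have hk2 : (0 : ℝ) < (k : ℝ) ^ 2 := by positivity
  have hsum : ∀ {ι : Type} (I : Finset ι) (f : ι → Multiset (ℝ × ℝ)),
      ((∑ i ∈ I, f i).map Prod.fst).sum = ∑ i ∈ I, ((f i).map Prod.fst).sum := by
    intro ι I f
    classical
    induction I using Finset.induction_on with
    | empty => simp
    | insert i I hi ih => rw [Finset.sum_insert hi, Finset.sum_insert hi, Multiset.map_add, Multiset.sum_add, ih]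
  unfold wallPs
  simp only
  rw [hsum]
  have eK : ((Kw - 1 : ℕ) : ℝ) = (Kw : ℝ) - 1 := by rw [Nat.cast_sub hK]; simp
  have eJ : ((J - 1 : ℕ) : ℝ) = (J : ℝ) - 1 := by rw [Nat.cast_sub (by omega)]; simp
  -- one bit
  have hb1 : ∀ r < J - 1, ∀ t < Kw - 1, ((bitPs (bw k J r t) (bh k J r t)).map Prod.fst).sum ≤
      (204 / 100) / (k : ℝ) ^ 2 * ((t : ℝ) + 1) := by
    intro r hr t ht
    refine (bit_thick2 _ _ (hw.bw_pos hr ht) (hw.bh_pos r t)).trans ?_
    have h1 := bw_le k J r t (by omega) (by omega)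
    have h2 := mul_le_mul_of_nonneg_left h1 (by norm_num : (0:ℝ) ≤ 51 / 50)
    refine h2.trans (le_of_eq ?_)
    ring
  have hb2 : ∀ r < J - 1, ∀ t < Kw - 1, ((bitPs (bw k J r t) (bh k J r t)).map Prod.fst).sum ≤
      4 * J * ((r : ℝ) + 1) / (k : ℝ) ^ 2 := by
    intro r hr t ht
    exact (bit_thick _ _ (hw.bw_pos hr ht) (hw.bh_pos r t)).trans (bh_le (by omega))
  -- one row
  have hrow : ∀ r < J - 1, ∀ T, T ≤ Kw - 1 →
      ((∑ t ∈ Finset.range (Kw - 1), bitPs (bw k J r t) (bh k J r t)).map Prod.fst).sum ≤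
      (204 / 100) / (k : ℝ) ^ 2 * (T * (T + 1) / 2) + ((Kw : ℝ) - 1 - T) * (4 * J * ((r : ℝ) + 1) / (k : ℝ) ^ 2) := by
    intro r hr T hT
    rw [hsum, ← eK]
    exact sum_two _ _ _ T (Kw - 1) hT (hb1 r hr) (hb2 r hr)
  have hA : ∀ r < R, ((∑ t ∈ Finset.range (Kw - 1), bitPs (bw k J r t) (bh k J r t)).map Prod.fst).sum ≤
      (4 * J * ((Kw : ℝ) - 1) / (k : ℝ) ^ 2 + (204 / 100) * J / (k : ℝ) ^ 2) * ((r : ℝ) + 1) -
        (392 / 100) * (J : ℝ) ^ 2 / (k : ℝ) ^ 2 * ((r : ℝ) + 1) ^ 2 := by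
    intro r hr
    have hT : 2 * J * (r + 1) ≤ Kw - 1 := (Nat.mul_le_mul_left _ (by omega)).trans hRK
    refine (hrow r (by omega) _ hT).trans (le_of_eq ?_)
    push_cast
    field_simp
    ring
  have hB : ∀ r < J - 1, ((∑ t ∈ Finset.range (Kw - 1), bitPs (bw k J r t) (bh k J r t)).map Prod.fst).sum ≤
      (102 / 100) * (Kw * ((Kw : ℝ) - 1)) / (k : ℝ) ^ 2 := by
    intro r hr
    refine (hrow r hr _ le_rfl).trans (le_of_eq ?_)
    rw [eK]
    ring
  refine (sum_rows2 _ _ _ R (J - 1) hR hA hB).trans (le_of_eq ?_)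
  rw [Finset.sum_sub_distrib, ← Finset.mul_sum, ← Finset.mul_sum, sum_r1, sum_r2, eJ]
  unfold wTw
  field_simp
  ring

/-- the numerator as a natural number -/
def wTn (R J K : ℕ) : ℕ :=
  300 * (J * (K - 1) * (R * (R + 1))) + 153 * (J * (R * (R + 1))) + 153 * ((J - 1 - R) * (K * (K - 1))) -
    98 * (J ^ 2 * (R * (R + 1) * (2 * R + 1)))

theorem wTn_ge {R J K : ℕ} (hK : 1 ≤ K) (hJ : 1 ≤ J) (hR : R ≤ J - 1) : wTw R J K ≤ (wTn R J K : ℝ) := by
  unfold wTn wTw
  have key : ∀ a b : ℕ, (a : ℝ) - b ≤ ((a - b : ℕ) : ℝ) := by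
    intro a b
    rcases le_total b a with hab | hab
    · rw [Nat.cast_sub hab]
    · have : (a : ℝ) ≤ b := by exact_mod_cast hab
      have h0 : (0 : ℝ) ≤ ((a - b : ℕ) : ℝ) := Nat.cast_nonneg _
      linarith
  refine le_trans (le_of_eq ?_) (key _ _)
  have e1 : ((K - 1 : ℕ) : ℝ) = (K : ℝ) - 1 := by rw [Nat.cast_sub hK]; simp
  have e2 : ((J - 1 - R : ℕ) : ℝ) = (J : ℝ) - 1 - R := by
    rw [Nat.cast_sub hR, Nat.cast_sub hJ]; simp
  push_cast
  rw [e1, e2]

/-- **Potential of the bits of a wall**, sharper, in units of `1 / u`. -/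
theorem psiQ_wall2 {u k J K R : ℕ} (hu : 0 < u) (hw : WOK (k, J, K)) (hR : R ≤ J - 1) (hRK : 2 * J * R ≤ K - 1) :
    psiQ (wallQ (k, J, K)) ≤ (3115 / 1000) * (((wTn R J K * u / (150 * (k * k)) + 1 : ℕ) : ℝ) / u) := by
  have hk := hw.k0
  have hJ := hw.J2
  simp only at hk hJ
  have hu' : (0 : ℝ) < u := by exact_mod_cast hu
  refine (psiQ_plain (fun p hp => ?_)).trans ?_
  · obtain ⟨a, b, _⟩ := hw.shape p hp
    exact ⟨a, b⟩
  · apply mul_le_mul_of_nonneg_left _ (by norm_num)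
    rcases Nat.eq_zero_or_pos K with rfl | hK
    · have : wallPs (k, J, 0) = 0 := by
        unfold wallPs
        simp
      rw [this]
      simp only [Multiset.map_zero, Multiset.sum_zero]
      positivity
    · refine (hw.thick2 hK hR hRK).trans ?_
      have hkk : 0 < 150 * (k * k) := by nlinarith
      refine le_trans ?_ (div_up (wTn R J K) (150 * (k * k)) u hkk hu)
      push_cast
      rw [← sq]
      have hk1 : (0 : ℝ) < k := by exact_mod_cast (by omega : 0 < k)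
      exact div_le_div_of_nonneg_right (wTn_ge hK (by omega) hR) (by positivity)

end Pool.Agent.MMS
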