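import Pool.Agent.MP_94f265_co.ST.PotF
import Pool.Agent.MP_94f265_co.ST.Glue

/-!
# Potential bits of the start: blocks of chains, integer tests
-/

namespace Pool.Agent.MM2.Pot

open Pool.Agent.MM2

theorem objF_eq (w : ℝ) (k m : ℕ) : objF (w, k, m) = MMS.flatObj w k m := rfl

theorem objU_eq (w : ℝ) (k m : ℕ) : objU (w, k, m) = MMS.upObj w k m := rfl

/-- the list of the blocks as chains -/
def blC (w : ℝ) : ℕ → List ℕ → Multiset Ch
  | _, [] => 0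
  | k, m :: ms => {(w, k, m)} + blC w (k + 2 * m) ms

theorem flatBl_eq (w : ℝ) : ∀ (ms : List ℕ) (k : ℕ), MMS.flatBl w k ms = (blC w k ms).map objF
  | [], k => by simp [MMS.flatBl, blC]
  | m :: ms, k => by
    rw [MMS.flatBl, blC, Multiset.map_add, Multiset.map_singleton, flatBl_eq w ms, objF_eq]

theorem upBl_eq (w : ℝ) : ∀ (ms : List ℕ) (k : ℕ), MMS.upBl w k ms = (blC w k ms).map objU
  | [], k => by simp [MMS.upBl, blC]
  | m :: ms, k => by
    rw [MMS.upBl, blC, Multiset.map_add, Multiset.map_singleton, upBl_eq w ms, objU_eq]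

theorem unitsC_add (C D : Multiset Ch) : unitsC (C + D) = unitsC C + unitsC D := by
  unfold unitsC
  rw [Multiset.map_add, Multiset.sum_add]

theorem unitsC_zero : unitsC 0 = 0 := by simp [unitsC]

theorem unitsC_blC (w : ℝ) : ∀ (ms : List ℕ) (k : ℕ), unitsC (blC w k ms) = (List.range' k (2 * ms.sum) : Multiset ℕ)
  | [], k => by simp [blC, unitsC]
  | m :: ms, k => by
    rw [blC, unitsC_add, unitsC_blC w ms, List.sum_cons, MMS.range'_split2]
    congr 1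
    simp [unitsC]

theorem mem_blC {w : ℝ} : ∀ {ms : List ℕ} {k : ℕ} {c : Ch}, c ∈ blC w k ms →
    c.1 = w ∧ k ≤ c.2.1 ∧ c.2.1 + 2 * c.2.2 ≤ k + 2 * ms.sum
  | [], k, c, h => by simp [blC] at h
  | m :: ms, k, c, h => by
    rw [blC, Multiset.mem_add, Multiset.mem_singleton] at h
    rw [List.sum_cons]
    rcases h with rfl | h
    · refine ⟨rfl, le_rfl, ?_⟩
      simp only
      omega
    · have := mem_blC h
      refine ⟨this.1, ?_, ?_⟩ <;> omega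

/-- the test of the whole chain gives the test of its parts -/
theorem OkF_mono {w : ℝ} {k m k' m' : ℕ} (hk' : 2 ≤ k') (hle : k' + 2 * m' ≤ k + 2 * m) (h : OkF (w, k, m)) :
    OkF (w, k', m') := by
  obtain ⟨h1, h2⟩ := h
  simp only at h1 h2
  have a1 : (2 : ℝ) ≤ k' := by exact_mod_cast hk'
  have a2 : (k' : ℝ) + 2 * m' ≤ k + 2 * m := by exact_mod_cast hle
  have a3 : (0 : ℝ) ≤ m' := Nat.cast_nonneg _
  have h3 : w - 1 / ((k' : ℝ) + 2 * m' - 1) ≤ w - 1 / ((k : ℝ) + 2 * m - 1) := by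
    have : 1 / ((k : ℝ) + 2 * m - 1) ≤ 1 / ((k' : ℝ) + 2 * m' - 1) :=
      one_div_le_one_div_of_le (by linarith) (by linarith)
    linarith
  refine ⟨h3.trans h1, ?_⟩
  simp only
  exact mul_le_of_le (by positivity) a2 h3 h2 (by norm_num)

theorem OkU_mono {w : ℝ} {k m k' m' : ℕ} (hk' : 3 ≤ k') (hle : k' + 2 * m' ≤ k + 2 * m) (h : OkU (w, k, m)) :
    OkU (w, k', m') := by
  obtain ⟨h1, h2⟩ := h
  simp only at h1 h2
  have a2 : (k' : ℝ) + 2 * m' ≤ k + 2 * m := by exact_mod_cast hle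
  have h3 : w - MMS.Lg (k' + 2 * m' - 2) ≤ w - MMS.Lg (k + 2 * m - 2) := by
    have : MMS.Lg (k + 2 * m - 2) ≤ MMS.Lg (k' + 2 * m' - 2) := by
      unfold MMS.Lg
      have e : ((k' + 2 * m' - 2 : ℕ) : ℝ) ≤ ((k + 2 * m - 2 : ℕ) : ℝ) := by
        exact_mod_cast (by omega : k' + 2 * m' - 2 ≤ k + 2 * m - 2)
      have e0 : (1 : ℝ) ≤ ((k' + 2 * m' - 2 : ℕ) : ℝ) := by exact_mod_cast (by omega : 1 ≤ k' + 2 * m' - 2)
      exact add_le_add (one_div_le_one_div_of_le (by linarith) e)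
        (one_div_le_one_div_of_le (by linarith) (by linarith))
    linarith
  refine ⟨h3.trans h1, ?_⟩
  simp only
  exact mul_le_of_le (by positivity) a2 h3 h2 (by norm_num)

theorem OkF_blC {w : ℝ} {k : ℕ} {ms : List ℕ} (hk : 2 ≤ k) (h : OkF (w, k, ms.sum)) :
    ∀ c ∈ blC w k ms, OkF c := by
  intro c hc
  obtain ⟨h1, h2, h3⟩ := mem_blC hc
  obtain ⟨w', k', m'⟩ := c
  simp only at h1 h2 h3
  subst h1
  exact OkF_mono (hk.trans h2) h3 h

theorem OkU_blC {w : ℝ} {k : ℕ} {ms : List ℕ} (hk : 3 ≤ k) (h : OkU (w, k, ms.sum)) :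
    ∀ c ∈ blC w k ms, OkU c := by
  intro c hc
  obtain ⟨h1, h2, h3⟩ := mem_blC hc
  obtain ⟨w', k', m'⟩ := c
  simp only at h1 h2 h3
  subst h1
  exact OkU_mono (hk.trans h2) h3 h

/-- a bound of the thickness of a cell from the enclosures -/
theorem diff_le {wl wh lo hi : ℕ} {w x : ℝ} (hw : MMS.In wl wh w) (hx : MMS.In lo hi x) :
    (w - x) * (MMS.SC : ℝ) ≤ ((wh - lo : ℕ) : ℝ) := by
  have h1 := hw.2
  have h2 := hx.1
  have h3 : (wh : ℝ) - lo ≤ ((wh - lo : ℕ) : ℝ) := by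
    rcases le_total lo wh with h | h
    · rw [Nat.cast_sub h]
    · have : (wh : ℝ) ≤ lo := by exact_mod_cast h
      have : (0 : ℝ) ≤ ((wh - lo : ℕ) : ℝ) := Nat.cast_nonneg _
      linarith
  nlinarith

/-- thickness at most `Th 1599` -/
theorem le_Th {d : ℕ} {s : ℝ} (h : s * (MMS.SC : ℝ) ≤ (d : ℝ)) (hd : d * 1532546591352 ≤ 5120 * MMS.SC) :
    s ≤ Th (i0 - 1) := by
  rw [Th_1599]
  have h0 := MMS.SC_pos
  have h1 : (d : ℝ) * 1532546591352 ≤ 5120 * (MMS.SC : ℝ) := by exact_mod_cast hd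
  rw [le_div_iff₀ (by norm_num)]
  have e : (3 * 7994 ^ 3 : ℝ) = 1532546591352 := by norm_num
  rw [e]
  have h2 : s * 1532546591352 * (MMS.SC : ℝ) ≤ 5120 * (MMS.SC : ℝ) := by
    calc s * 1532546591352 * (MMS.SC : ℝ) = (s * (MMS.SC : ℝ)) * 1532546591352 := by ring
      _ ≤ (d : ℝ) * 1532546591352 := mul_le_mul_of_nonneg_right h (by norm_num)
      _ ≤ _ := h1
  exact le_of_mul_le_mul_right h2 h0

/-- `s n ≤ c` -/
theorem mul_le_of_test {d n : ℕ} {s : ℝ} (q : ℕ) (hq : 1 ≤ q) (h : s * (MMS.SC : ℝ) ≤ (d : ℝ)) (hd : q * (d * n) ≤ MMS.SC) :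
    s * (n : ℝ) ≤ 1 / (q : ℝ) := by
  have h0 := MMS.SC_pos
  have hq' : (1 : ℝ) ≤ q := by exact_mod_cast hq
  have h1 : (q : ℝ) * ((d : ℝ) * n) ≤ (MMS.SC : ℝ) := by exact_mod_cast hd
  rw [le_div_iff₀ (by linarith)]
  have h2 : s * n * q * (MMS.SC : ℝ) ≤ 1 * (MMS.SC : ℝ) := by
    calc s * n * q * (MMS.SC : ℝ) = (s * (MMS.SC : ℝ)) * (n * q) := by ring
      _ ≤ d * (n * q) := mul_le_mul_of_nonneg_right h (by positivity)
      _ = q * (d * n) := by ring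
      _ ≤ _ := by linarith
  exact le_of_mul_le_mul_right h2 h0

/-- integer test of a flat chain; `d = wh - ul (k + 2 m - 1)` -/
theorem OkF_of {wl wh k m : ℕ} {w : ℝ} (hk : 1 ≤ k) (hm : 1 ≤ m) (hw : MMS.In wl wh w)
    (h1 : (wh - MMS.ul (k + 2 * m - 1)) * 1532546591352 ≤ 5120 * MMS.SC)
    (h2 : 8 * ((wh - MMS.ul (k + 2 * m - 1)) * (k + 2 * m)) ≤ MMS.SC) : OkF (w, k, m) := by
  have e : ((k + 2 * m - 1 : ℕ) : ℝ) = (k : ℝ) + 2 * m - 1 := by
    rw [Nat.cast_sub (by omega)]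
    push_cast
    ring
  have hx := MMS.In_u (k + 2 * m - 1) (by omega)
  rw [e] at hx
  have hd := diff_le hw hx
  refine ⟨le_Th hd h1, ?_⟩
  have := mul_le_of_test 8 (by norm_num) hd h2
  push_cast at this
  exact this

/-- integer test of an upright chain; `d = wh - Ll (k + 2 m - 2)` -/
theorem OkU_of {wl wh k m : ℕ} {w : ℝ} (hk : 1 ≤ k) (hm : 1 ≤ m) (hw : MMS.In wl wh w)
    (h1 : (wh - MMS.Ll (k + 2 * m - 2)) * 1532546591352 ≤ 5120 * MMS.SC)
    (h2 : 100 * ((wh - MMS.Ll (k + 2 * m - 2)) * (k + 2 * m)) ≤ MMS.SC) : OkU (w, k, m) := by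
  have hx := MMS.In_L (k + 2 * m - 2) (by omega)
  have hd := diff_le hw hx
  refine ⟨le_Th hd h1, ?_⟩
  have := mul_le_of_test 100 (by norm_num) hd h2
  push_cast at this
  exact this

end Pool.Agent.MM2.Pot
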