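import Pool.Agent.MP_94f265_co.ST.FinS
import Pool.Agent.MP_94f265_co.ST.Bt
import Pool.Agent.MP_94f265_co.ST.PotG
import Pool.Agent.MP_94f265_co.MM2.Load

/-!
# Final state check: the property of the free contexts
-/

namespace Pool.Agent.MMS.Fi

open Pool.Agent.MM1 Pool.Agent.MM2
open Pool.Agent.MM2.Pot (Ch objF objU unitsC OkF OkU)

/-- the position of the class `K` -/
def posK (K : ℕ) : ℕ :=
  if K < 20480 then K - 1600 else
  if K < 65536 then 18880 + (K - 20480) / 8 else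
  if K < 131072 then 24512 + (K - 65536) / 16 else
  if K < 262144 then 28608 + (K - 131072) / 64 else
  if K < 1048576 then 30656 + (K - 262144) / 2048 else 50000

/-- the part of the potential without the potential bits -/
noncomputable def psi1 (Q : Multiset Obj) : ℝ :=
  (301 / 100) * (Q.map (fun o => ∑ K ∈ touched o, MM2.Th (K - 1))).sum +
    (302 / 100) * ((cellsOf Q).map (fun c => (52 / (kc c.1 : ℝ)) * MM2.Th (kc c.1 - 1))).sum

theorem cellsOf_add (Q R : Multiset Obj) : cellsOf (Q + R) = cellsOf Q + cellsOf R := by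
  simp [cellsOf]

theorem psi1_add (Q R : Multiset Obj) : psi1 (Q + R) = psi1 Q + psi1 R := by
  unfold psi1
  rw [cellsOf_add, Multiset.map_add, Multiset.map_add, Multiset.sum_add, Multiset.sum_add]
  ring

theorem psi1_zero : psi1 0 = 0 := by simp [psi1, cellsOf]

/-- the part of the potential bits -/
noncomputable def psi2 (Q : Multiset Obj) : ℝ := (16 / 5) * ((potOf Q).map (fun p => MM2.Th (kc p.1 - 1))).sum

theorem psi2_add (Q R : Multiset Obj) : psi2 (Q + R) = psi2 Q + psi2 R := by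
  unfold psi2
  rw [Pot.potOf_add, Multiset.map_add, Multiset.sum_add]
  ring

theorem psi2_zero : psi2 0 = 0 := by simp [psi2, potOf]

/-- the shape of the box -/
def BoxOK (p : ℝ × ℝ) : Prop :=
  0 < min p.1 p.2 ∧ max p.1 p.2 ≤ 2 * min p.1 p.2 ∧ (1 / 20) / (MM2.NN : ℝ) ≤ min p.1 p.2 * max p.1 p.2

/-- the entry of a wall in the field `31040` -/
noncomputable def s1W (w : ℕ × ℕ × ℕ) : ℝ := 2 * ((w.2.1 : ℝ) ^ 2 * ((w.2.1 : ℝ) - 1)) / (w.1 : ℝ) ^ 2

/-- The property of the free contexts. `E` = events, `Ψ` = potential, `W` = walls with bits, `O` = owed numbers,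
`Q` = objects (without the bits of the walls), `B` = box. `QB w` = objects of the bits of the wall `w`, `WOK w` =
conditions on the wall. -/
structure PE (QB : ℕ × ℕ × ℕ → Multiset Obj) (WOK : ℕ × ℕ × ℕ → Prop) (E : List (ℕ × ℕ)) (Ψ : ℕ)
    (W : Multiset (ℕ × ℕ × ℕ)) (O : Multiset ℕ) (Qc Qb : Multiset Obj) (C D : Multiset Ch)
    (B : Multiset (ℝ × ℝ)) : Prop where
  inv : ∀ o ∈ Qc, OInv (MM2.Th (i0 - 1)) o
  len : ∀ K, i0 ≤ K → lenK K (cellsOf Qc) * ((SC : ℝ) / 2 ^ 64) ≤ (fieldS (posK K) E : ℝ)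
  psi : (psi1 (Qc + Qb) + psi2 (Qc + Qb)) * (SC : ℝ) ≤ (3115 / 1000) * (Ψ : ℝ)
  bits : Qb = (W.map QB).sum
  wok : ∀ w ∈ W, WOK w
  s1 : (W.map s1W).sum * ((SC : ℝ) / 2 ^ 64) ≤ (fieldS 31040 E : ℝ)
  pots : potOf Qc = potOf (C.map objF + D.map objU)
  units : unitsC (C + D) ≤ O
  cok : ∀ c ∈ C, OkF c
  dok : ∀ c ∈ D, OkU c
  kok : ∀ c ∈ C + D, 66654 ≤ c.2.1
  box : ∀ p ∈ B, BoxOK p
  boxn : B.card = fieldS 31041 E

variable {QB : ℕ × ℕ × ℕ → Multiset Obj} {WOK : ℕ × ℕ × ℕ → Prop}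

theorem PE.add {E E' : List (ℕ × ℕ)} {Ψ Ψ' : ℕ} {W W' : Multiset (ℕ × ℕ × ℕ)} {O O' : Multiset ℕ}
    {Qc Qc' Qb Qb' : Multiset Obj} {C C' D D' : Multiset Ch} {B B' : Multiset (ℝ × ℝ)}
    (h : PE QB WOK E Ψ W O Qc Qb C D B) (h' : PE QB WOK E' Ψ' W' O' Qc' Qb' C' D' B') :
    PE QB WOK (E ++ E') (Ψ + Ψ') (W + W') (O + O') (Qc + Qc') (Qb + Qb') (C + C') (D + D') (B + B') := by
  refine ⟨?_, ?_, ?_, ?_, ?_, ?_, ?_, ?_, ?_, ?_, ?_, ?_, ?_⟩
  · intro o ho
    rcases Multiset.mem_add.1 ho with ho | ho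
    exacts [h.inv o ho, h'.inv o ho]
  · intro K hK
    rw [cellsOf_add, lenK_add, fieldS_append, add_mul]
    push_cast
    exact add_le_add (h.len K hK) (h'.len K hK)
  · have e : Qc + Qc' + (Qb + Qb') = (Qc + Qb) + (Qc' + Qb') := by abel
    rw [e, psi1_add, psi2_add]
    push_cast
    linarith [h.psi, h'.psi]
  · rw [Multiset.map_add, Multiset.sum_add, h.bits, h'.bits]
  · intro o ho
    rcases Multiset.mem_add.1 ho with ho | ho
    exacts [h.wok o ho, h'.wok o ho]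
  · rw [Multiset.map_add, Multiset.sum_add, fieldS_append]
    push_cast
    linarith [h.s1, h'.s1]
  · have e : (C + C').map objF + (D + D').map objU = (C.map objF + D.map objU) + (C'.map objF + D'.map objU) := by
      rw [Multiset.map_add, Multiset.map_add]; abel
    rw [e, Pot.potOf_add, Pot.potOf_add, h.pots, h'.pots]
  · have e : C + C' + (D + D') = (C + D) + (C' + D') := by abel
    rw [e, Pot.unitsC_add]
    exact add_le_add h.units h'.units
  · intro o ho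
    rcases Multiset.mem_add.1 ho with ho | ho
    exacts [h.cok o ho, h'.cok o ho]
  · intro o ho
    rcases Multiset.mem_add.1 ho with ho | ho
    exacts [h.dok o ho, h'.dok o ho]
  · intro o ho
    have e : C + C' + (D + D') = (C + D) + (C' + D') := by abel
    rw [e] at ho
    rcases Multiset.mem_add.1 ho with ho | ho
    exacts [h.kok o ho, h'.kok o ho]
  · intro p hp
    rcases Multiset.mem_add.1 hp with hp | hp
    exacts [h.box p hp, h'.box p hp]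
  · rw [Multiset.card_add, fieldS_append, h.boxn, h'.boxn]

theorem PE.zero : PE QB WOK [] 0 0 0 0 0 0 0 0 := by
  refine ⟨?_, ?_, ?_, ?_, ?_, ?_, ?_, ?_, ?_, ?_, ?_, ?_, ?_⟩
  · intro o ho; simp at ho
  · intro K _
    simp [cellsOf, lenK_zero, fieldS]
  · rw [add_zero, psi1_zero, psi2_zero]; simp
  · simp
  · intro w hw; simp at hw
  · simp [fieldS]
  · simp
  · simp [unitsC]
  · intro w hw; simp at hw
  · intro w hw; simp at hw
  · intro w hw; simp at hw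
  · intro w hw; simp at hw
  · simp [fieldS]

/-- the property with everything hidden except events, potential, walls, owed numbers, objects, box -/
def PX (QB : ℕ × ℕ × ℕ → Multiset Obj) (WOK : ℕ × ℕ × ℕ → Prop) (E : List (ℕ × ℕ)) (Ψ : ℕ)
    (W : Multiset (ℕ × ℕ × ℕ)) (O : Multiset ℕ) (Q : Multiset Obj) (B : Multiset (ℝ × ℝ)) : Prop :=
  ∃ Qc Qb C D, Q = Qc + Qb ∧ PE QB WOK E Ψ W O Qc Qb C D B

theorem PX.add {E E' : List (ℕ × ℕ)} {Ψ Ψ' : ℕ} {W W' : Multiset (ℕ × ℕ × ℕ)} {O O' : Multiset ℕ}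
    {Q Q' : Multiset Obj} {B B' : Multiset (ℝ × ℝ)}
    (h : PX QB WOK E Ψ W O Q B) (h' : PX QB WOK E' Ψ' W' O' Q' B') :
    PX QB WOK (E ++ E') (Ψ + Ψ') (W + W') (O + O') (Q + Q') (B + B') := by
  obtain ⟨Qc, Qb, C, D, rfl, h⟩ := h
  obtain ⟨Qc', Qb', C', D', rfl, h'⟩ := h'
  exact ⟨Qc + Qc', Qb + Qb', C + C', D + D', by abel, h.add h'⟩

theorem PX.zero : PX QB WOK [] 0 0 0 0 0 := ⟨0, 0, 0, 0, by simp, PE.zero⟩

/-- What a context function has to satisfy. -/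
def CxOK (QB : ℕ × ℕ × ℕ → Multiset Obj) (WOK : ℕ × ℕ × ℕ → Prop) (c : Ctx) (F : At → At) : Prop :=
  Ev F (fun E Ψ => FreeOK [c] (PX QB WOK E Ψ (walls [c]) (owed c)))

/-- the contexts one after the other -/
theorem CxOK_list {evC : Ctx → At → At} (h : ∀ c, CxOK QB WOK c (evC c)) : ∀ fr : List Ctx,
    Ev (finL evC fr)
      (fun E Ψ => FreeOK fr (PX QB WOK E Ψ (walls fr) (owedL fr)))
  | [] => by
    refine Ev_id.mono ?_
    rintro E Ψ ⟨rfl, rfl⟩
    refine FreeOK_nil.mono ?_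
    rintro Q B ⟨rfl, rfl⟩
    exact PX.zero
  | c :: l => by
    refine ((h c).comp (CxOK_list h l)).mono ?_
    rintro E Ψ ⟨E1, E2, Ψ1, Ψ2, h1, h2, rfl, rfl⟩
    refine (FreeOK_cons h1 h2).mono ?_
    rintro Q B ⟨Q1, B1, Q2, B2, p1, p2, rfl, rfl⟩
    have e : walls (c :: l) = walls [c] + walls l := by
      rw [← walls_append]
      rfl
    rw [e]
    exact p1.add p2

/-! ## a whole part -/

theorem finEq_eq {e : Sta} {h : ℕ} {hs : List ℕ} {s : Sta} (hf : finEq e h hs s = true) : s = e := by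
  cases s with
  | mk t p a0 a1 a2 a3 a4 a5 a6 a7 a8 a9 a10 a11 a12 a13 a14 a15 a16 =>
    cases e with
    | mk t' p' a0' a1' a2' a3' a4' a5' a6' a7' a8' a9' a10' a11' a12' a13' a14' a15' a16' =>
      unfold finEq at hf
      simp only [thenB_iff, beq_iff] at hf
      obtain ⟨h1, h2, g0, g1, g2, g3, g4, g5, g6, g7, g8, g9, g10, g11, g12, g13, g14, g15, g16⟩ := hf
      subst h1 h2 g0 g1 g2 g3 g4 g5 g6 g7 g8 g9 g10 g11 g12 g13 g14 g15 g16
      rfl

/-- The property of a part: tables `A`, total `T`, potential `P`. -/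
def PD (QB : ℕ × ℕ × ℕ → Multiset Obj) (WOK : ℕ × ℕ × ℕ → Prop) (A T P : ℕ)
    (W : Multiset (ℕ × ℕ × ℕ)) (O : Multiset ℕ) (Q : Multiset Obj) (B : Multiset (ℝ × ℝ)) : Prop :=
  ∃ E, tabS E = A ∧ totS E ≤ T ∧ PX QB WOK E P W O Q B

theorem PD.add {A A' T T' P P' : ℕ} {W W' : Multiset (ℕ × ℕ × ℕ)} {O O' : Multiset ℕ}
    {Q Q' : Multiset Obj} {B B' : Multiset (ℝ × ℝ)}
    (h : PD QB WOK A T P W O Q B) (h' : PD QB WOK A' T' P' W' O' Q' B') :
    PD QB WOK (A + A') (T + T') (P + P') (W + W') (O + O') (Q + Q') (B + B') := by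
  obtain ⟨E, h1, h2, h3⟩ := h
  obtain ⟨E', h1', h2', h3'⟩ := h'
  exact ⟨E ++ E', by rw [tabS_append, h1, h1'], by rw [totS_append]; omega, h3.add h3'⟩

theorem PD.zero : PD QB WOK 0 0 0 0 0 0 0 := ⟨[], rfl, le_refl 0, PX.zero⟩

/-- **A part.** -/
theorem cfr_spec {evC : Ctx → At → At} (hC : ∀ c, CxOK QB WOK c (evC c)) {hs : List ℕ} {e : Sta} {fr : List Ctx}
    (h : cfr evC hs e fr = true) : ∃ Ψ, Ψ = pS e ∧ ∃ E, tabS E = TAB e ∧ totS E ≤ tS e ∧
      FreeOK fr (PX QB WOK E Ψ (walls fr) (owedL fr)) := by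
  obtain ⟨h', hs', s', E, Ψ, h1, h2, h3, h4, h5⟩ := CxOK_list hC fr _ _ _ _ h
  rw [finEq_eq h1] at h2 h3 h4
  refine ⟨Ψ, ?_, E, ?_, ?_, h5⟩
  · rw [h4]; simp [pS]
  · rw [h2]; simp [TAB]
  · have : tS (Sta.mk 0 0 0 0 0 0 0 0 0 0 0 0 0 0 0 0 0 0 0) + totS E ≤ tS e := h3
    simpa [tS] using this

theorem cfr_free {evC : Ctx → At → At} (hC : ∀ c, CxOK QB WOK c (evC c)) {hs : List ℕ} {e : Sta} {fr : List Ctx}
    (h : cfr evC hs e fr = true) : FreeOK fr (PD QB WOK (TAB e) (tS e) (pS e) (walls fr) (owedL fr)) := by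
  obtain ⟨Ψ, rfl, E, h1, h2, h3⟩ := cfr_spec hC h
  exact h3.mono (fun Q B hq => ⟨E, h1, h2, hq⟩)

end Pool.Agent.MMS.Fi
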