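import Pool.Agent.MP_94f265_co.ST.FinWDef
import Pool.Agent.MP_94f265_co.ST.FinP
import Pool.Agent.MP_94f265_co.ST.BitsI
import Pool.Agent.MP_94f265_co.ST.BitsJ

/-!
# Final state check: the walls with bits
-/

namespace Pool.Agent.MMS.Fi

open Pool.Agent.MM1 Pool.Agent.MM2

/-- the conditions on the walls with bits -/
def WB (w : ℕ × ℕ × ℕ) : Prop := WOK w ∧ w.2.1 ≤ 8 ∧ w.2.1 * (w.2.1 - 1) ≤ 2 * w.2.2

theorem btB_ok {k J K : ℕ} (h : btB k J K = true) : WB (k, J, K) := by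
  unfold btB at h
  simp only [thenB_iff, Nat.ble_eq] at h
  obtain ⟨h1, h2, h3, h4, h5, h6, h7⟩ := h
  refine ⟨⟨h1, h2, by simp only; omega, ?_, ?_, ?_⟩, h3, h7⟩
  · simp only
    calc 100 * J ^ 2 * K = 100 * (J * (J * K)) := by ring
      _ ≤ k := h4
  · simp only
    calc 1000 * J ^ 3 = 1000 * (J * (J * J)) := by ring
      _ ≤ k := h5
  · simp only
    calc 4 * J * (J - 1) * 300000000 = 1200000000 * (J * (J - 1)) := by ring
      _ ≤ k * k := h6
      _ = k ^ 2 := by ring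

theorem SC_val : SC = 30990445042459967064000000000000 := rfl

theorem btW_eq (k J : ℕ) : btW k J = wChN SC k J := by
  show 1 + 61980890084919934128000000000000 * (J * (J * (J - 1))) / (k * k) = 2 * (J * J * (J - 1)) * SC / (k * k) + 1
  rw [Nat.add_comm, SC_val]
  congr 2
  ring

theorem mn_eq (x y : ℕ) : mn x y = min x y := by
  unfold mn
  cases h : Nat.ble x y with
  | true =>
    have h' := Nat.le_of_ble_eq_true h
    rw [min_eq_left h']
  | false =>
    have h' := lt_of_ble_false h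
    rw [min_eq_right h'.le]

theorem btR_eq (J K : ℕ) : btR J K = min (J - 1) ((K - 1) / (2 * J)) := mn_eq _ _

theorem btR_le (J K : ℕ) : btR J K ≤ J - 1 := by
  rw [btR_eq]
  exact min_le_left _ _

theorem btR_mul (J K : ℕ) : 2 * J * btR J K ≤ K - 1 := by
  rw [btR_eq]
  exact (Nat.mul_le_mul_left _ (min_le_right _ _)).trans (Nat.mul_div_le _ _)

theorem btP_eq (k J K : ℕ) : btP k J K = wTn (btR J K) J K * SC / (150 * (k * k)) + 1 := by
  have e : btT (btR J K) (btR J K * (btR J K).succ) J K = wTn (btR J K) J K := by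
    show 300 * (J * ((K - 1) * (btR J K * (btR J K + 1)))) + 153 * (J * (btR J K * (btR J K + 1))) +
      153 * ((J - 1 - btR J K) * (K * (K - 1))) - 98 * ((J * J) * ((btR J K * (btR J K + 1)) * (2 * btR J K + 1))) = _
    unfold wTn
    rw [sq, Nat.mul_assoc J (K - 1)]
  show 1 + 30990445042459967064000000000000 * btT (btR J K) (btR J K * (btR J K).succ) J K / (150 * (k * k)) = _
  rw [e, Nat.add_comm, SC_val, Nat.mul_comm]

theorem s1W_eq (w : ℕ × ℕ × ℕ) : s1W w = wCh w := by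
  unfold s1W wCh
  ring

theorem lenU_ge (x : ℕ) : (x : ℝ) / 2 ^ 64 ≤ (lenU x : ℝ) := by
  have h : x < 2 ^ 64 * (x / 2 ^ 64 + 1) := Nat.lt_mul_div_succ x (by norm_num)
  have e : lenU x = 1 + x / 2 ^ 64 := by
    show 1 + x >>> 64 = _
    rw [Nat.shiftRight_eq_div_pow]
  rw [div_le_iff₀ (by positivity), e]
  have h2 : (x : ℝ) ≤ ((2 ^ 64 * (x / 2 ^ 64 + 1) : ℕ) : ℝ) := by exact_mod_cast h.le
  push_cast at h2 ⊢
  linarith

theorem psi12 (Q : Multiset Obj) : psi1 Q + psi2 Q = psiQ Q := rfl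

theorem pot_wallQ (w : ℕ × ℕ × ℕ) : potOf (wallQ w) = 0 := by
  unfold wallQ
  exact potOf_plainS _

/-- the events of a wall -/
theorem bt_PE {k J K : ℕ} (h : WB (k, J, K)) :
    PE wallQ WB [(31040, lenU (btW k J))] (btP k J K) {(k, J, K)} 0 0 (wallQ (k, J, K)) 0 0 0 := by
  have hSC : (0 : ℝ) < (SC : ℝ) := SC_pos
  have hSCn : 0 < SC := by exact_mod_cast hSC
  refine ⟨?_, ?_, ?_, ?_, ?_, ?_, ?_, ?_, ?_, ?_, ?_, ?_, ?_⟩
  · intro o ho; simp at ho
  · intro K' _
    rw [MM2.cellsOf_zero, lenK_zero, zero_mul]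
    positivity
  · rw [zero_add, psi12, btP_eq]
    have h1 := psiQ_wall2 hSCn h.1 (btR_le J K) (btR_mul J K)
    rwa [← mul_div_assoc, le_div_iff₀ hSC] at h1
  · rw [Multiset.map_singleton, Multiset.sum_singleton]
  · intro w hw
    rw [Multiset.mem_singleton] at hw
    rw [hw]; exact h
  · rw [Multiset.map_singleton, Multiset.sum_singleton, s1W_eq, fieldS_single, if_pos rfl]
    have h1 := wCh_le hSCn h.1
    rw [le_div_iff₀ hSC, ← btW_eq] at h1
    refine le_trans ?_ (lenU_ge _)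
    rw [← mul_div_assoc]
    exact div_le_div_of_nonneg_right h1 (by positivity)
  · simp
  · simp [Pot.unitsC]
  · intro c hc; simp at hc
  · intro c hc; simp at hc
  · intro c hc; simp at hc
  · intro c hc; simp at hc
  · rw [fieldS_single]; simp

/-- **The context of the bits of a wall.** -/
theorem bt_ok (k J K : ℕ) : CxOK wallQ WB (.bt k J K) (evBt k J K) := by
  refine Ev_sel (fun hb => ?_) (fun _ => Ev_no _)
  have hw := btB_ok hb
  refine (Ev_addG (E := [(31040, lenU (btW k J))]) (tabS_single _ _) (le_of_eq (totS_single _ _))).mono ?_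
  rintro E Ψ ⟨rfl, rfl⟩
  have hk := hw.1.k0
  have hJ := hw.1.J2
  simp only at hk hJ
  refine (free_bt_wall (k := k) (J := J) (K := K) (by omega) (by omega)).mono ?_
  rintro Q B ⟨rfl, rfl⟩
  exact ⟨0, wallQ (k, J, K), 0, 0, by rw [zero_add], bt_PE hw⟩

/-! ## A priori -/

/-- the load of the bits of the walls -/
noncomputable def wL (K : ℕ) : ℝ :=
  if K < 13967 then 43 / 10000 else if K < 60000 then 196 / 10000 else if K < 120000 then 117 / 10000 else 96 / 10000

/-- the charges -/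
noncomputable def wS (K : ℕ) (W : Multiset (ℕ × ℕ × ℕ)) : ℝ := if K < 13967 then (W.map s1W).sum else 0

theorem wChR_le (W : Multiset (ℕ × ℕ × ℕ)) (hW : ∀ w ∈ W, WOK w) (K : ℕ) :
    (W.map (fun w => if 2 < MM2.Th (K - 1) * ((w.1 : ℝ) + 2 * w.2.1 * w.2.2) ^ 2 then wCh w else 0)).sum ≤
      (W.map s1W).sum := by
  apply Multiset.sum_map_le_sum_map
  intro w hw
  rw [s1W_eq]
  have := wCh_nonneg (hW w hw)
  split_ifs <;> linarith

/-- **The bits of the walls, a priori.** -/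
theorem walls_apriori {n0 M : ℕ} (hn0 : 1 ≤ n0) {W : Multiset (ℕ × ℕ × ℕ)} (hW : ∀ w ∈ W, WB w)
    (hd : wnum W ≤ (Finset.Ico n0 M).val) :
    (∀ o ∈ (W.map wallQ).sum, OInv (MM2.Th (i0 - 1)) o) ∧ potOf ((W.map wallQ).sum) = 0 ∧
      ∀ K, i0 ≤ K → lenK K (cellsOf ((W.map wallQ).sum)) ≤ wL K * (3 / K) + wS K W := by
  have hW1 : ∀ w ∈ W, WOK w := fun w hw => (hW w hw).1
  have hW8 : ∀ w ∈ W, w.2.1 ≤ 8 := fun w hw => (hW w hw).2.1
  have hW2 : ∀ w ∈ W, w.2.1 * (w.2.1 - 1) ≤ 2 * w.2.2 := fun w hw => (hW w hw).2.2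
  refine ⟨wallsQ_inv hW1, pot_wallsQ W, fun K hK => ?_⟩
  have hK' : 1600 ≤ K := hK
  show lenK K (cellsOf (wallsQ W)) ≤ _
  unfold wL wS
  by_cases h1 : K < 13967
  · rw [if_pos h1, if_pos h1, cells_wallsQ]
    have hd' : (W.map wNums).sum ≤ (Finset.Ico n0 M).val := by rw [wNums_sum_range']; exact hd
    have h2 := bits_load8 K n0 M W hK' hW1 hW8 hn0 hd'
    have h3 := wChR_le W hW1 K
    linarith
  · rw [if_neg h1, if_neg h1, add_zero]
    by_cases h2 : K < 60000
    · rw [if_pos h2]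
      exact walls_far_a W hW1 hW8 hW2 hn0 hd K (by omega)
    · rw [if_neg h2]
      by_cases h3 : K < 120000
      · rw [if_pos h3]
        exact walls_far_b W hW1 hW8 hW2 hn0 hd K (by omega)
      · rw [if_neg h3]
        exact walls_far_c W hW1 hW8 hW2 hn0 hd K (by omega)

end Pool.Agent.MMS.Fi
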