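import Pool.Agent.MP_94f265_co.ST.FinR
import Pool.Agent.MP_94f265_co.ST.FinW

/-!
# The last check with the walls
-/

namespace Pool.Agent.MMS.Fi

open Pool.Agent.MM1 Pool.Agent.MM2

theorem wLR_eq (K : ℕ) : wLR K = wL K := rfl

theorem wallHyp : WallHyp wallQ WB := by
  intro W hW hn
  obtain ⟨h1, h2, h3⟩ := walls_apriori (n0 := 941) (by norm_num) hW hn
  exact ⟨h1, h2, h3⟩

/-- The last check. -/
theorem last_checkW {A T P : ℕ} (h : chkZ A T P = true) {W : Multiset (ℕ × ℕ × ℕ)} {O : Multiset ℕ} {Q : Multiset Obj}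
    {B : Multiset (ℝ × ℝ)} (hP : PD wallQ WB A T P W O Q B) (hn : wnum W + O ≤ (Finset.Ico 941 MM2.NN).val) :
    FinProp Q B :=
  last_check wallHyp h hP hn

end Pool.Agent.MMS.Fi
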