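import Pool.Agent.MP_94f265_co.ST.FinA
import Pool.Agent.MP_94f265_co.ST.FinQ
import Pool.Agent.MP_94f265_co.ST.FinC
import Pool.Agent.MP_94f265_co.ST.FinW
import Pool.Agent.MP_94f265_co.ST.FinRW

/-!
# Final state check: everything together
-/

namespace Pool.Agent.MMS.Fi

open Pool.Agent.MM1 Pool.Agent.MM2

theorem evC_ok (c : Ctx) : CxOK wallQ WB c (evC c) := by
  cases c with
  | pc al ah bl bh => exact pc_ok al ah bl bh
  | ch wl wh k m => exact ch_ok wl wh k m
  | uch wl wh k m => exact uch_ok wl wh k m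
  | ls l => exact ls_ok l
  | mc Hl Hh k J m => exact mc_ok Hl Hh k J m
  | bt k J K => exact bt_ok k J K

/-- The property of the free contexts with the state `s`. -/
def PS (s : Sta) (W : Multiset (ℕ × ℕ × ℕ)) (O : Multiset ℕ) (Q : Multiset Obj) (B : Multiset (ℝ × ℝ)) : Prop :=
  PD wallQ WB (TAB s) (tS s) (pS s) W O Q B

theorem PS_zero : PS zeroS 0 0 0 0 := PD_zero

theorem PS_add (e s : Sta) (W W' : Multiset (ℕ × ℕ × ℕ)) (O O' : Multiset ℕ) (Q Q' : Multiset Obj)
    (B B' : Multiset (ℝ × ℝ)) (h : PS e W O Q B) (h' : PS s W' O' Q' B') :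
    PS (addS e s) (W + W') (O + O') (Q + Q') (B + B') := PD_addS h h'

theorem PS_cf (hs : List ℕ) (e : Sta) (fr : List Ctx) (h : cfr evC hs e fr = true) :
    FreeOK fr (PS e (walls fr) (owedL fr)) := cfr_free evC_ok h

theorem chkS_sound {s : Sta} (h : chkS s = true) (W : Multiset (ℕ × ℕ × ℕ)) (O : Multiset ℕ) (Q : Multiset Obj)
    (B : Multiset (ℝ × ℝ)) (hd : wnum W + O ≤ (Finset.Ico (940 + 1) MM2.NN).val) (hp : PS s W O Q B) :
    FinProp Q B := by
  unfold chkS at h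
  rw [frc_eq, frc_eq, frc_eq, tabR_eq, totR_eq, potR_eq] at h
  exact last_checkW h hp hd

end Pool.Agent.MMS.Fi
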