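import Pool.Agent.MP_94f265_co.ST.Vec

/-!
# Class counts of an almost arithmetic progression, for all classes at once

`s 0 < s 1 < ...` with `a + δ j ≤ s j ≤ a + δ j + e` (`j < m`); thresholds `CS / cb p`, `p = 0, 1, ...`
(decreasing); the class `p` is `[CS / cb p, CS / cb (p - 1))`.
-/

namespace Pool.Agent.MMS

/-- `5120 * SC`; with `cb p = 2 ^ 40 * 3 * (5 K - 1) ^ 3` the threshold `CS / cb p` is `Th K` in the unit
`2 ^ 40 / SC` -/
def CS : ℕ := 5120 * 30990445042459967064000000000000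

/-- the threshold, rounded up -/
def thN (cb : ℕ → ℕ) (p : ℕ) : ℕ := (CS + cb p - 1) / cb p

/-- upper count -/
def uF (R a δ t : ℕ) : ℕ := ((t - (a + 1) + δ) * R) / 2 ^ 52

/-- lower count -/
def lF (R a δ e t : ℕ) : ℕ := ((t - (a + 1) + (δ - e)) * R) / 2 ^ 52

theorem up_count {a δ m : ℕ} {s : ℕ → ℝ} (hs : ∀ j < m, ((a + δ * j : ℕ) : ℝ) ≤ s j) {R : ℕ}
    (hR : 2 ^ 52 ≤ δ * R) {t : ℕ} {x : ℝ} (hx : x ≤ t) {j : ℕ} (hj : j < m) (h : s j < x) :
    j < uF R a δ t := by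
  have h1 : ((a + δ * j : ℕ) : ℝ) < (t : ℝ) := lt_of_le_of_lt (hs j hj) (lt_of_lt_of_le h hx)
  have h2 : a + δ * j < t := by exact_mod_cast h1
  unfold uF
  have h3 : δ * (j + 1) ≤ t - (a + 1) + δ := by
    rw [Nat.mul_add, Nat.mul_one]
    omega
  have h4 : (j + 1) * 2 ^ 52 ≤ (t - (a + 1) + δ) * R :=
    calc (j + 1) * 2 ^ 52 ≤ (j + 1) * (δ * R) := Nat.mul_le_mul_left _ hR
      _ = δ * (j + 1) * R := by ring
      _ ≤ _ := Nat.mul_le_mul_right _ h3
  have h5 := (Nat.le_div_iff_mul_le (by positivity : 0 < 2 ^ 52)).2 h4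
  omega

theorem low_count {a δ e m : ℕ} {s : ℕ → ℝ} (he : e ≤ δ)
    (hs : ∀ j < m, s j ≤ ((a + δ * j + e : ℕ) : ℝ)) {R : ℕ} (hR : δ * R ≤ 2 ^ 52) {t : ℕ} {x : ℝ}
    (ht : a + 1 ≤ t) (hx : (t : ℝ) < x + 1) {j : ℕ} (hj : j < m) (h : x ≤ s j) :
    lF R a δ e t ≤ j := by
  have h1 : (t : ℝ) < ((a + δ * j + e + 1 : ℕ) : ℝ) := by
    have := hs j hj
    push_cast at this ⊢
    linarith
  have h2 : t < a + δ * j + e + 1 := by exact_mod_cast h1
  unfold lF
  rcases Nat.eq_zero_or_pos R with rfl | hR0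
  · simp
  have h3 : t - (a + 1) + (δ - e) < δ * (j + 1) := by
    rw [Nat.mul_add, Nat.mul_one]
    omega
  have h4 : (t - (a + 1) + (δ - e)) * R < (j + 1) * 2 ^ 52 :=
    calc (t - (a + 1) + (δ - e)) * R < δ * (j + 1) * R := Nat.mul_lt_mul_of_pos_right h3 hR0
      _ = (j + 1) * (δ * R) := by ring
      _ ≤ _ := Nat.mul_le_mul_left _ hR
  have h5 := (Nat.div_lt_iff_lt_mul (by positivity : 0 < 2 ^ 52)).2 h4
  omega

/-! ## the rounded thresholds -/

theorem thN_ge {cb : ℕ → ℕ} {p : ℕ} (h : 0 < cb p) : (CS : ℝ) / (cb p : ℝ) ≤ (thN cb p : ℝ) := by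
  have h' : (0 : ℝ) < cb p := by exact_mod_cast h
  rw [div_le_iff₀ h']
  unfold thN
  have h1 := Nat.div_add_mod (CS + cb p - 1) (cb p)
  have h2 := Nat.mod_lt (CS + cb p - 1) h
  have h3 : CS ≤ (CS + cb p - 1) / cb p * cb p := by
    rw [Nat.mul_comm] at h1
    omega
  exact_mod_cast h3

theorem thN_lt {cb : ℕ → ℕ} {p : ℕ} (h : 0 < cb p) : (thN cb p : ℝ) < (CS : ℝ) / (cb p : ℝ) + 1 := by
  have h' : (0 : ℝ) < cb p := by exact_mod_cast h
  rw [div_add_one h'.ne', lt_div_iff₀ h']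
  unfold thN
  have h1 := Nat.div_mul_le_self (CS + cb p - 1) (cb p)
  have h3 : (CS + cb p - 1) / cb p * cb p < CS + cb p := by omega
  exact_mod_cast h3

theorem thN_le {cb : ℕ → ℕ} {p v : ℕ} (h : 0 < cb p) (hv : CS ≤ cb p * v) : thN cb p ≤ v := by
  unfold thN
  rw [Nat.div_le_iff_le_mul_add_pred h]
  omega

theorem lt_thN {cb : ℕ → ℕ} {p v : ℕ} (h : 0 < cb p) (hv : cb p * v < CS) : v + 1 ≤ thN cb p := by
  unfold thN
  rw [Nat.le_div_iff_mul_le h, Nat.add_mul, Nat.one_mul, Nat.mul_comm v]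
  omega

theorem thN_anti {cb : ℕ → ℕ} {p q : ℕ} (h : 0 < cb p) (hpq : cb p ≤ cb q) : thN cb q ≤ thN cb p := by
  apply thN_le (by omega)
  have h1 : CS ≤ cb p * thN cb p := by
    have := thN_ge (cb := cb) h
    have h' : (0 : ℝ) < cb p := by exact_mod_cast h
    rw [div_le_iff₀ h'] at this
    have h2 : CS ≤ thN cb p * cb p := by exact_mod_cast this
    rwa [Nat.mul_comm] at h2
  exact h1.trans (Nat.mul_le_mul_right _ hpq)

/-! ## the counts of one progression -/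

/-- the table of counts of one progression, positions `pa, ..., pa + L` -/
def apC (Tb a δ e m pa L : ℕ) : ℕ :=
  ((((((Tb >>> (64 * pa)) % 2 ^ (64 * L) - (2 ^ (64 * L) - 1) / (2 ^ 64 - 1) * (a + 1)) +
      (2 ^ (64 * L) - 1) / (2 ^ 64 - 1) * δ) * (2 ^ 52 / δ + 1)) >>> 52 &&&
        (2 ^ (64 * L) - 1) / (2 ^ 64 - 1) * 4095) <<< 64 + m) -
  (((((Tb >>> (64 * pa)) % 2 ^ (64 * L) - (2 ^ (64 * L) - 1) / (2 ^ 64 - 1) * (a + 1)) +
      (2 ^ (64 * L) - 1) / (2 ^ 64 - 1) * (δ - e)) * (2 ^ 52 / δ)) >>> 52 &&&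
        (2 ^ (64 * L) - 1) / (2 ^ 64 - 1) * 4095)

/-- the conditions on one progression (`G` = number of fields of the table of thresholds) -/
structure ApOK (cb : ℕ → ℕ) (G a δ e m pa L : ℕ) : Prop where
  d0 : 1 ≤ δ
  d1 : δ ≤ 2 ^ 52
  he : e ≤ δ
  m0 : 1 ≤ m
  m1 : m ≤ 2047
  p0 : 1 ≤ pa
  p1 : pa + L ≤ G
  c1 : CS ≤ cb (pa + L) * a
  c2 : L = 0 ∨ cb (pa + L - 1) * a < CS
  c3 : CS ≤ cb pa * (a + δ * (m - 1))
  c4 : cb (pa - 1) * (a + δ * (m - 1) + e) < CS

/-- upper end of the index range of the class `pa + i` -/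
def apU (cb : ℕ → ℕ) (a δ m pa i : ℕ) : ℕ :=
  if i = 0 then m else uF (2 ^ 52 / δ + 1) a δ (thN cb (pa + i - 1))

/-- lower end -/
def apL (cb : ℕ → ℕ) (a δ e pa L i : ℕ) : ℕ :=
  if i < L then lF (2 ^ 52 / δ) a δ e (thN cb (pa + i)) else 0

theorem apR {δ : ℕ} (hδ : 1 ≤ δ) : 2 ^ 52 ≤ δ * (2 ^ 52 / δ + 1) ∧ δ * (2 ^ 52 / δ) ≤ 2 ^ 52 := by
  have h1 := Nat.div_add_mod (2 ^ 52) δ
  have h2 := Nat.mod_lt (2 ^ 52) hδ
  constructor
  · rw [Nat.mul_add, Nat.mul_one]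
    omega
  · omega

theorem uF_mono {R a δ t t' : ℕ} (h : t ≤ t') : uF R a δ t ≤ uF R a δ t' := by
  unfold uF
  apply Nat.div_le_div_right
  apply Nat.mul_le_mul_right
  omega

theorem lF_le_uF {a δ e t t' : ℕ} (h : t ≤ t') : lF (2 ^ 52 / δ) a δ e t ≤ uF (2 ^ 52 / δ + 1) a δ t' := by
  unfold lF uF
  apply Nat.div_le_div_right
  apply Nat.mul_le_mul <;> omega

section

variable {cb : ℕ → ℕ} {G a δ e m pa L : ℕ}

/-- the fields stay below `2 ^ 64` -/
theorem ApOK.field (h : ApOK cb G a δ e m pa L) (hmono : Monotone cb) (hpos : ∀ p, 0 < cb p)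
    {i : ℕ} : (thN cb (pa + i) - (a + 1) + δ) * (2 ^ 52 / δ + 1) < 2 ^ 64 := by
  have h1 : thN cb (pa + i) ≤ a + δ * (m - 1) :=
    (thN_anti (hpos pa) (hmono (by omega))).trans (thN_le (hpos pa) h.c3)
  have hm := h.m0
  have hm1 := h.m1
  have hd := h.d0
  have hd1 := h.d1
  have h2 : thN cb (pa + i) - (a + 1) + δ ≤ δ * m := by
    have e1 : δ * m = δ * (m - 1) + δ := by
      conv_lhs => rw [show m = m - 1 + 1 by omega]
      rw [Nat.mul_add, Nat.mul_one]
    omega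
  have h3 := (apR h.d0).2
  calc (thN cb (pa + i) - (a + 1) + δ) * (2 ^ 52 / δ + 1) ≤ δ * m * (2 ^ 52 / δ + 1) :=
        Nat.mul_le_mul_right _ h2
    _ = m * (δ * (2 ^ 52 / δ) + δ) := by ring
    _ ≤ 2047 * (2 ^ 52 + 2 ^ 52) := Nat.mul_le_mul hm1 (Nat.add_le_add h3 hd1)
    _ < 2 ^ 64 := by norm_num

theorem ApOK.a_lt (h : ApOK cb G a δ e m pa L) (hmono : Monotone cb) (hpos : ∀ p, 0 < cb p)
    {i : ℕ} (hi : i < L) : a + 1 ≤ thN cb (pa + i) := by
  have h2 := h.c2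
  rcases h2 with h2 | h2
  · omega
  · exact (lt_thN (hpos _) h2).trans (thN_anti (hpos _) (hmono (by omega)))

theorem ApOK.uF_lt (h : ApOK cb G a δ e m pa L) (hmono : Monotone cb) (hpos : ∀ p, 0 < cb p)
    (i : ℕ) : uF (2 ^ 52 / δ + 1) a δ (thN cb (pa + i)) ≤ 4095 := by
  unfold uF
  have h1 := h.field hmono hpos (i := i)
  have h2 : (thN cb (pa + i) - (a + 1) + δ) * (2 ^ 52 / δ + 1) < 4096 * 2 ^ 52 := by
    refine lt_of_lt_of_le h1 ?_
    norm_num
  have h3 := (Nat.div_lt_iff_lt_mul (by positivity : 0 < 2 ^ 52)).2 h2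
  omega

theorem ApOK.apU_le (h : ApOK cb G a δ e m pa L) (hmono : Monotone cb) (hpos : ∀ p, 0 < cb p)
    (i : ℕ) : apU cb a δ m pa i ≤ 4095 := by
  unfold apU
  split_ifs with h0
  · have := h.m1
    omega
  · have := h.uF_lt hmono hpos (i - 1)
    rwa [show pa + i - 1 = pa + (i - 1) by omega]

theorem ApOK.apL_le (h : ApOK cb G a δ e m pa L) (hmono : Monotone cb) (hpos : ∀ p, 0 < cb p)
    (i : ℕ) : apL cb a δ e pa L i ≤ apU cb a δ m pa i := by
  unfold apL apU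
  split_ifs with h1 h2
  · -- the top class
    subst h2
    have h3 : thN cb (pa + 0) ≤ a + δ * (m - 1) := thN_le (hpos _) h.c3
    have hm := h.m0
    have hd := h.d0
    have he := h.he
    unfold lF
    have h4 : (thN cb (pa + 0) - (a + 1) + (δ - e)) ≤ δ * m := by
      have e1 : δ * m = δ * (m - 1) + δ := by
        conv_lhs => rw [show m = m - 1 + 1 by omega]
        rw [Nat.mul_add, Nat.mul_one]
      omega
    have h5 : (thN cb (pa + 0) - (a + 1) + (δ - e)) * (2 ^ 52 / δ) ≤ m * 2 ^ 52 :=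
      calc _ ≤ δ * m * (2 ^ 52 / δ) := Nat.mul_le_mul_right _ h4
        _ = m * (δ * (2 ^ 52 / δ)) := by ring
        _ ≤ m * 2 ^ 52 := Nat.mul_le_mul_left _ (apR h.d0).2
    calc (thN cb (pa + 0) - (a + 1) + (δ - e)) * (2 ^ 52 / δ) / 2 ^ 52 ≤ m * 2 ^ 52 / 2 ^ 52 :=
          Nat.div_le_div_right h5
      _ = m := Nat.mul_div_cancel _ (by positivity)
  · apply lF_le_uF
    exact thN_anti (hpos _) (hmono (by omega))
  · exact Nat.zero_le _
  · exact Nat.zero_le _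

/-- **The table of counts.** -/
theorem ApOK.apC_eq (h : ApOK cb G a δ e m pa L) (hmono : Monotone cb) (hpos : ∀ p, 0 < cb p)
    (hth : ∀ p, thN cb p < 2 ^ 64) :
    apC (vec G (thN cb)) a δ e m pa L = vec (L + 1) (fun i => apU cb a δ m pa i - apL cb a δ e pa L i) := by
  have hW : (vec G (thN cb) >>> (64 * pa)) % 2 ^ (64 * L) = vec L (fun i => thN cb (pa + i)) :=
    vec_window G pa L (thN cb) (fun i _ => hth i) h.p1
  have hX : vec L (fun i => thN cb (pa + i)) - vec L (fun _ => 1) * (a + 1) =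
      vec L (fun i => thN cb (pa + i) - (a + 1)) := by
    rw [vec_mul', vec_sub]
    · apply vec_congr
      intro i _
      rw [Nat.one_mul]
    · intro i hi
      rw [Nat.one_mul]
      exact h.a_lt hmono hpos hi
  have hM : vec L (fun _ => 1) * 4095 = vec L (fun _ => 2 ^ (64 - 52) - 1) := by
    rw [vec_mul']
    apply vec_congr
    intro i _
    norm_num
  have hQ1 : ((vec L (fun i => thN cb (pa + i) - (a + 1)) + vec L (fun _ => 1) * δ) * (2 ^ 52 / δ + 1)) >>> 52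
      &&& vec L (fun _ => 1) * 4095 = vec L (fun i => uF (2 ^ 52 / δ + 1) a δ (thN cb (pa + i))) := by
    rw [hM, vec_mul' L δ, vec_add, vec_mul', vec_shr 52 (by norm_num)]
    · apply vec_congr
      intro i _
      unfold uF
      rw [Nat.one_mul]
    · intro i _
      rw [Nat.one_mul]
      exact h.field hmono hpos
  have hQ2 : ((vec L (fun i => thN cb (pa + i) - (a + 1)) + vec L (fun _ => 1) * (δ - e)) * (2 ^ 52 / δ)) >>> 52
      &&& vec L (fun _ => 1) * 4095 = vec L (fun i => lF (2 ^ 52 / δ) a δ e (thN cb (pa + i))) := by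
    rw [hM, vec_mul' L (δ - e), vec_add, vec_mul', vec_shr 52 (by norm_num)]
    · apply vec_congr
      intro i _
      unfold lF
      rw [Nat.one_mul]
    · intro i _
      rw [Nat.one_mul]
      refine lt_of_le_of_lt ?_ (h.field hmono hpos (i := i))
      apply Nat.mul_le_mul <;> omega
  unfold apC
  rw [vec_ones, hW, hX, hQ1, hQ2]
  have hU : vec L (fun i => uF (2 ^ 52 / δ + 1) a δ (thN cb (pa + i))) <<< 64 + m =
      vec (L + 1) (apU cb a δ m pa) := by
    rw [vec_succ, Nat.shiftLeft_eq, Nat.mul_comm (vec L _) (2 ^ 64)]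
    have e1 : apU cb a δ m pa 0 = m := by simp [apU]
    have e2 : vec L (fun i => apU cb a δ m pa (i + 1)) =
        vec L (fun i => uF (2 ^ 52 / δ + 1) a δ (thN cb (pa + i))) := by
      apply vec_congr
      intro i _
      unfold apU
      rw [if_neg (by omega), show pa + (i + 1) - 1 = pa + i by omega]
    rw [e1, e2, Nat.add_comm]
  have hL : vec L (fun i => lF (2 ^ 52 / δ) a δ e (thN cb (pa + i))) = vec (L + 1) (apL cb a δ e pa L) := by
    rw [vec_top]
    have e1 : apL cb a δ e pa L L = 0 := by simp [apL]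
    rw [e1, Nat.zero_mul, Nat.add_zero]
    apply vec_congr
    intro i hi
    unfold apL
    rw [if_pos hi]
  rw [hU, hL, vec_sub]
  intro i _
  exact h.apL_le hmono hpos i

/-- **Every class `p` contains at most `c (p - pa)` members.** -/
theorem ApOK.count (h : ApOK cb G a δ e m pa L) (hmono : Monotone cb) (hpos : ∀ p, 0 < cb p)
    {s : ℕ → ℝ} (hs : ∀ j < m, ((a + δ * j : ℕ) : ℝ) ≤ s j ∧ s j ≤ ((a + δ * j + e : ℕ) : ℝ))
    {p : ℕ} (hp : 1 ≤ p) :
    (∀ j < m, (CS : ℝ) / cb p ≤ s j → s j < (CS : ℝ) / cb (p - 1) →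
      pa ≤ p ∧ p ≤ pa + L ∧ apL cb a δ e pa L (p - pa) ≤ j ∧ j < apU cb a δ m pa (p - pa)) := by
  intro j hj h1 h2
  have hcb : ∀ q, (0 : ℝ) < cb q := fun q => by exact_mod_cast hpos q
  have hjm : a + δ * j ≤ a + δ * (m - 1) := by
    have : δ * j ≤ δ * (m - 1) := Nat.mul_le_mul_left _ (by omega)
    omega
  obtain ⟨s1, s2⟩ := hs j hj
  have hpa : pa ≤ p := by
    by_contra hlt
    push Not at hlt
    have h3 : (CS : ℝ) / cb (pa - 1) ≤ (CS : ℝ) / cb p := by
      apply div_le_div_of_nonneg_left (by positivity) (hcb p)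
      exact_mod_cast hmono (show p ≤ pa - 1 by omega)
    have h4 : s j < (CS : ℝ) / cb (pa - 1) := by
      refine lt_of_le_of_lt s2 ?_
      rw [lt_div_iff₀ (hcb _)]
      have h5 := h.c4
      have h6 : (a + δ * j + e) * cb (pa - 1) < CS := by
        refine lt_of_le_of_lt ?_ h5
        rw [Nat.mul_comm]
        exact Nat.mul_le_mul_left _ (by omega)
      exact_mod_cast h6
    linarith
  have hpb : p ≤ pa + L := by
    by_contra hlt
    push Not at hlt
    have h3 : (CS : ℝ) / cb (p - 1) ≤ (CS : ℝ) / cb (pa + L) := by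
      apply div_le_div_of_nonneg_left (by positivity) (hcb _)
      exact_mod_cast hmono (show pa + L ≤ p - 1 by omega)
    have h4 : (CS : ℝ) / cb (pa + L) ≤ s j := by
      refine le_trans ?_ s1
      rw [div_le_iff₀ (hcb _)]
      have h5 := h.c1
      have h6 : CS ≤ (a + δ * j) * cb (pa + L) := by
        refine h5.trans ?_
        rw [Nat.mul_comm]
        exact Nat.mul_le_mul_right _ (by omega)
      exact_mod_cast h6
    linarith
  refine ⟨hpa, hpb, ?_, ?_⟩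
  · unfold apL
    split_ifs with hi
    · have hpe : pa + (p - pa) = p := by omega
      have ha := h.a_lt hmono hpos hi
      rw [hpe] at ha ⊢
      exact low_count h.he (fun j hj => (hs j hj).2) (apR h.d0).2 ha (thN_lt (hpos p)) hj h1
    · exact Nat.zero_le _
  · unfold apU
    split_ifs with hi
    · exact hj
    · rw [show pa + (p - pa) - 1 = p - 1 by omega]
      exact up_count (fun j hj => (hs j hj).1) (apR h.d0).1 (thN_ge (hpos _)) hj h2

end

end Pool.Agent.MMS
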