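import Pool.Agent.MP_94f265_co.MM2.Placed

/-!
# The two-sided brick wall
-/

namespace Pool.Agent.MMS

open Pool.Agent.MM1

/-- horizontal prefix sums -/
noncomputable def Xc (a : ℕ → ℕ → ℝ) (r t : ℕ) : ℝ := ∑ s ∈ Finset.range t, a r s

/-- vertical prefix sums -/
noncomputable def Hc (b : ℕ → ℕ → ℝ) (r t : ℕ) : ℝ := ∑ q ∈ Finset.range r, b q t

/-- the bricks -/
noncomputable def wItems (a b : ℕ → ℕ → ℝ) (J K : ℕ) : Multiset (ℝ × ℝ) :=
  (Finset.range J ×ˢ Finset.range K).val.map (fun p => (a p.1 p.2, b p.1 p.2))

/-- the boxes at the right ends of the rows -/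
noncomputable def wEnds (a b : ℕ → ℕ → ℝ) (L : ℝ) (J K : ℕ) : Multiset (ℝ × ℝ) :=
  (Finset.range J).val.map (fun r => (L - Xc a r K, b r (K - 1)))

/-- the small holes at the inner vertices -/
noncomputable def wBits (a b : ℕ → ℕ → ℝ) (J K : ℕ) : Multiset (ℝ × ℝ) :=
  (Finset.range (J - 1) ×ˢ Finset.range (K - 1)).val.map
    (fun p => (Xc a (p.1 + 1) (p.2 + 1) - Xc a p.1 (p.2 + 1),
      Hc b (p.1 + 1) p.2 - Hc b (p.1 + 1) (p.2 + 1)))

/-- the upper profile of the wall: (width, height) from left to right -/
noncomputable def prof (a b : ℕ → ℕ → ℝ) (L : ℝ) (J K : ℕ) : List (ℝ × ℝ) :=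
  (List.range (K - 1)).map (fun t => (a (J - 1) t, Hc b J t)) ++
    [(L - Xc a (J - 1) (K - 1), Hc b J (K - 1))]

/-- the pieces of the middle gap -/
def mids (H : ℝ) : List Bool → List (ℝ × ℝ) → List (ℝ × ℝ) → List (ℝ × ℝ)
  | [], [(w, B)], [(_, C)] => [(w, H - B - C)]
  | true :: p, (w, B) :: l, (w', C) :: l' =>
      (w, H - B - C) :: mids H p l ((w' - w, C) :: l')
  | false :: p, (w, B) :: l, (w', C) :: l' =>
      (w', H - B - C) :: mids H p ((w - w', B) :: l) l'
  | _, _, _ => []

/-- the pattern is a valid merge of the two profiles and the two walls do not overlap -/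
def MidsOK (H : ℝ) : List Bool → List (ℝ × ℝ) → List (ℝ × ℝ) → Prop
  | [], [(_, B)], [(_, C)] => 0 ≤ H - B - C
  | true :: p, (w, B) :: l, (w', C) :: l' =>
      w ≤ w' ∧ 0 ≤ H - B - C ∧ MidsOK H p l ((w' - w, C) :: l')
  | false :: p, (w, B) :: l, (w', C) :: l' =>
      w' ≤ w ∧ 0 ≤ H - B - C ∧ MidsOK H p ((w - w', B) :: l) l'
  | _, _, _ => False

/-- conditions on one wall -/
structure WallOK (a b : ℕ → ℕ → ℝ) (L : ℝ) (J K : ℕ) : Prop where
  hJ : 1 ≤ J
  hK : 1 ≤ K
  ha : ∀ r < J, ∀ t < K, 0 ≤ a r t
  hb : ∀ r < J, ∀ t < K, 0 ≤ b r t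
  hX : ∀ r, r + 1 < J → ∀ t ≤ K, Xc a r t ≤ Xc a (r + 1) t
  hH : ∀ t, t + 1 < K → ∀ r ≤ J, Hc b r (t + 1) ≤ Hc b r t
  hL : Xc a (J - 1) K ≤ L

/-! ## Bricks and bits of a monotone grid -/

/-- brick -/
def brick (X H : ℕ → ℕ → ℝ) (p : ℕ × ℕ) : PR :=
  ⟨X p.1 p.2, H p.1 p.2, X p.1 (p.2 + 1) - X p.1 p.2, H (p.1 + 1) p.2 - H p.1 p.2⟩

/-- bit -/
def bit (X H : ℕ → ℕ → ℝ) (p : ℕ × ℕ) : PR :=
  ⟨X p.1 (p.2 + 1), H (p.1 + 1) (p.2 + 1), X (p.1 + 1) (p.2 + 1) - X p.1 (p.2 + 1),
    H (p.1 + 1) p.2 - H (p.1 + 1) (p.2 + 1)⟩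

/-- monotone grid data -/
structure GM (R C : ℕ) (X H : ℕ → ℕ → ℝ) : Prop where
  hX : ∀ r r' t t', r ≤ r' → t ≤ t' → r' < R → t' ≤ C → X r t ≤ X r' t'
  hH : ∀ r r' t t', r ≤ r' → t' ≤ t → r' ≤ R → t < C → H r t ≤ H r' t'

theorem GM.brick_brick {R C : ℕ} {X H : ℕ → ℕ → ℝ} (g : GM R C X H) {p q : ℕ × ℕ}
    (hp1 : p.1 < R) (hp2 : p.2 < C) (hq1 : q.1 < R) (hq2 : q.2 < C) (hne : p ≠ q) :
    (brick X H p).Sep (brick X H q) := by
  obtain ⟨r, t⟩ := p
  obtain ⟨r', t'⟩ := q
  unfold PR.Sep brick
  simp only at *
  rcases lt_trichotomy t t' with h | h | h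
  · rcases Nat.lt_or_ge r' r with h2 | h2
    · right; right; right
      have := g.hH (r' + 1) r t' t (by omega) (by omega) (by omega) hq2
      linarith
    · left
      have := g.hX r r' (t + 1) t' h2 (by omega) hq1 (by omega)
      linarith
  · subst h
    rcases lt_trichotomy r r' with h2 | h2 | h2
    · right; right; left
      have := g.hH (r + 1) r' t t (by omega) le_rfl (by omega) hp2
      linarith
    · subst h2; exact absurd rfl hne
    · right; right; right
      have := g.hH (r' + 1) r t t (by omega) le_rfl (by omega) hp2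
      linarith
  · rcases Nat.lt_or_ge r r' with h2 | h2
    · right; right; left
      have := g.hH (r + 1) r' t t' (by omega) (by omega) (by omega) hp2
      linarith
    · right; left
      have := g.hX r' r (t' + 1) t h2 (by omega) hp1 (by omega)
      linarith

theorem GM.brick_bit {R C : ℕ} {X H : ℕ → ℕ → ℝ} (g : GM R C X H) {p q : ℕ × ℕ}
    (hp1 : p.1 < R) (hp2 : p.2 < C) (hq1 : q.1 < R - 1) (hq2 : q.2 < C - 1) :
    (brick X H p).Sep (bit X H q) := by
  obtain ⟨r, t⟩ := p
  obtain ⟨r', t'⟩ := q
  unfold PR.Sep brick bit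
  simp only at *
  rcases Nat.lt_or_ge r' r with h | h
  · rcases Nat.lt_or_ge t' t with h2 | h2
    · right; left
      have := g.hX (r' + 1) r (t' + 1) t (by omega) (by omega) hp1 (by omega)
      linarith
    · right; right; right
      have := g.hH (r' + 1) r t' t (by omega) (by omega) (by omega) (by omega)
      linarith
  · rcases Nat.lt_or_ge t' t with h2 | h2
    · right; right; left
      have := g.hH (r + 1) (r' + 1) t (t' + 1) (by omega) (by omega) (by omega) hp2
      linarith
    · left
      have := g.hX r r' (t + 1) (t' + 1) h (by omega) (by omega) (by omega)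
      linarith

theorem GM.bit_bit {R C : ℕ} {X H : ℕ → ℕ → ℝ} (g : GM R C X H) {p q : ℕ × ℕ}
    (hp1 : p.1 < R - 1) (hp2 : p.2 < C - 1) (hq1 : q.1 < R - 1) (hq2 : q.2 < C - 1)
    (hne : p ≠ q) : (bit X H p).Sep (bit X H q) := by
  have key : ∀ r t r' t', r < R - 1 → t < C - 1 → r' < R - 1 → t' < C - 1 → r ≤ r' →
      (r = r' → t < t') → (bit X H (r, t)).Sep (bit X H (r', t')) := by
    intro r t r' t' hr ht hr' ht' hrr h
    unfold PR.Sep bit
    simp only
    rcases Nat.eq_or_lt_of_le hrr with h1 | h1
    · subst h1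
      have h2 := h rfl
      right; right; right
      have := g.hH (r + 1) (r + 1) t' (t + 1) le_rfl (by omega) (by omega) (by omega)
      linarith
    · rcases Nat.lt_or_ge t' t with h2 | h2
      · right; right; left
        have := g.hH (r + 1) (r' + 1) t (t' + 1) (by omega) (by omega) (by omega) (by omega)
        linarith
      · left
        have := g.hX (r + 1) r' (t + 1) (t' + 1) (by omega) (by omega) (by omega) (by omega)
        linarith
  obtain ⟨r, t⟩ := p
  obtain ⟨r', t'⟩ := q
  simp only at *
  rcases lt_trichotomy r r' with h | h | h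
  · exact key r t r' t' hp1 hp2 hq1 hq2 h.le (fun h' => absurd h' h.ne)
  · subst h
    rcases lt_trichotomy t t' with h2 | h2 | h2
    · exact key r t r t' hp1 hp2 hq1 hq2 le_rfl (fun _ => h2)
    · subst h2; exact absurd rfl hne
    · exact (key r t' r t hp1 hq2 hp1 hp2 le_rfl (fun _ => h2)).symm
  · exact (key r' t' r t hq1 hq2 hp1 hp2 h.le (fun h' => absurd h' h.ne)).symm

/-- the placed lower wall: bricks in `R` rows and `C` columns, bits in `C'` columns -/
noncomputable def wallList (R C C' : ℕ) (X H : ℕ → ℕ → ℝ) : List PR :=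
  (Finset.range R ×ˢ Finset.range C).toList.map (brick X H) ++
    (Finset.range (R - 1) ×ˢ Finset.range C').toList.map (bit X H)

theorem mem_wallList {R C C' : ℕ} {X H : ℕ → ℕ → ℝ} {p : PR} :
    p ∈ wallList R C C' X H ↔ (∃ i : ℕ × ℕ, i.1 < R ∧ i.2 < C ∧ brick X H i = p) ∨
      (∃ i : ℕ × ℕ, i.1 < R - 1 ∧ i.2 < C' ∧ bit X H i = p) := by
  unfold wallList
  simp only [List.mem_append, List.mem_map, Finset.mem_toList, Finset.mem_product,
    Finset.mem_range, and_assoc]

theorem pairwise_toList {ι : Type*} (I : Finset ι) (f : ι → PR)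
    (h : ∀ i ∈ I, ∀ j ∈ I, i ≠ j → (f i).Sep (f j)) : (I.toList.map f).Pairwise PR.Sep := by
  rw [List.pairwise_map]
  have hnd := I.nodup_toList
  have : I.toList.Pairwise (fun i j => i ∈ I → j ∈ I → (f i).Sep (f j)) :=
    hnd.imp (fun {i j} hij hi hj => h i hi j hj hij)
  refine this.imp_of_mem ?_
  intro i j hi hj h
  exact h (Finset.mem_toList.1 hi) (Finset.mem_toList.1 hj)

theorem GM.pairwise {R C C' : ℕ} {X H : ℕ → ℕ → ℝ} (g : GM R C X H) (hC' : C' ≤ C - 1) :
    (wallList R C C' X H).Pairwise PR.Sep := by
  unfold wallList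
  rw [List.pairwise_append]
  refine ⟨?_, ?_, ?_⟩
  · apply pairwise_toList
    intro i hi j hj hij
    simp only [Finset.mem_product, Finset.mem_range] at hi hj
    exact g.brick_brick hi.1 hi.2 hj.1 hj.2 hij
  · apply pairwise_toList
    intro i hi j hj hij
    simp only [Finset.mem_product, Finset.mem_range] at hi hj
    exact g.bit_bit hi.1 (by omega) hj.1 (by omega) hij
  · intro p hp q hq
    simp only [List.mem_map, Finset.mem_toList, Finset.mem_product, Finset.mem_range] at hp hq
    obtain ⟨i, hi, rfl⟩ := hp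
    obtain ⟨j, hj, rfl⟩ := hq
    exact g.brick_bit hi.1 hi.2 hj.1 (by omega)

/-- everything lies below the profile -/
theorem GM.below {R C C' : ℕ} {X H : ℕ → ℕ → ℝ} (g : GM R C X H) (hC' : C' ≤ C - 1)
    {p : PR} (hp : p ∈ wallList R C C' X H) {t : ℕ} (ht : t < C)
    (h : X (R - 1) t < p.x + p.a) : p.y + p.b ≤ H R t := by
  have key : ∀ r t0, r < R → t0 < C → X (R - 1) t < X r (t0 + 1) → t ≤ t0 := by
    intro r t0 hr ht0 hlt
    by_contra hcon
    push Not at hcon
    have h1 := g.hX r (R - 1) (t0 + 1) (t0 + 1) (by omega) le_rfl (by omega) (by omega)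
    have h2 := g.hX (R - 1) (R - 1) (t0 + 1) t le_rfl (by omega) (by omega) (by omega)
    linarith
  rcases mem_wallList.1 hp with ⟨⟨r, t0⟩, h1, h2, rfl⟩ | ⟨⟨r, t0⟩, h1, h2, rfl⟩
  · simp only [brick] at *
    have h3 : t ≤ t0 := key r t0 h1 h2 (by linarith)
    have := g.hH (r + 1) R t0 t (by omega) h3 le_rfl h2
    linarith
  · simp only [bit] at *
    have h3 : t ≤ t0 := key (r + 1) t0 (by omega) (by omega) (by linarith)
    have := g.hH (r + 1) R t0 t (by omega) h3 le_rfl (by omega)
    linarith

/-- bounds -/
theorem GM.bounds {R C C' : ℕ} {X H : ℕ → ℕ → ℝ} (g : GM R C X H) (hC' : C' ≤ C - 1)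
    (L : ℝ) (hX0 : ∀ r < R, X r 0 = 0) (hXC : ∀ r < R, X r C = L) (hH0 : ∀ t < C, H 0 t = 0)
    {p : PR} (hp : p ∈ wallList R C C' X H) :
    0 ≤ p.x ∧ 0 ≤ p.y ∧ p.x + p.a ≤ L ∧ p.y + p.b ≤ H R 0 := by
  rcases mem_wallList.1 hp with ⟨⟨r, t⟩, h1, h2, rfl⟩ | ⟨⟨r, t⟩, h1, h2, rfl⟩
  · simp only [brick] at *
    have e1 := g.hX r r 0 t le_rfl (by omega) h1 (by omega)
    have e2 := g.hX r r (t + 1) C le_rfl (by omega) h1 le_rfl
    have e3 := g.hH 0 r t t (by omega) le_rfl (by omega) h2
    have e4 := g.hH (r + 1) R t 0 (by omega) (by omega) le_rfl h2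
    rw [hX0 r h1] at e1; rw [hXC r h1] at e2; rw [hH0 t h2] at e3
    refine ⟨e1, e3, by linarith, by linarith⟩
  · simp only [bit] at *
    have e1 := g.hX r r 0 (t + 1) le_rfl (by omega) (by omega) (by omega)
    have e2 := g.hX (r + 1) (r + 1) (t + 1) C le_rfl (by omega) (by omega) le_rfl
    have e3 := g.hH 0 (r + 1) (t + 1) (t + 1) (by omega) le_rfl (by omega) (by omega)
    have e4 := g.hH (r + 1) R t 0 (by omega) (by omega) le_rfl (by omega)
    rw [hX0 r (by omega)] at e1; rw [hXC (r + 1) (by omega)] at e2
    rw [hH0 (t + 1) (by omega)] at e3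
    refine ⟨e1, e3, by linarith, by linarith⟩

theorem abel_aux (c h : ℕ → ℝ) (m : ℕ) :
    ∑ t ∈ Finset.range (m + 1), (c (t + 1) - c t) * h t =
      c (m + 1) * h m - c 0 * h 0 + ∑ t ∈ Finset.range m, c (t + 1) * (h t - h (t + 1)) := by
  induction m with
  | zero => simp; ring
  | succ m ih => rw [Finset.sum_range_succ, ih, Finset.sum_range_succ]; ring

/-- area of the lower wall -/
theorem wall_area {m k : ℕ} {X H : ℕ → ℕ → ℝ} (L : ℝ)
    (hX0 : ∀ r < m + 1, X r 0 = 0) (hXC : ∀ r < m + 1, X r (k + 1) = L)
    (hH0 : ∀ t < k + 1, H 0 t = 0) :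
    ∑ r ∈ Finset.range (m + 1), ∑ t ∈ Finset.range (k + 1),
        (X r (t + 1) - X r t) * (H (r + 1) t - H r t) +
      ∑ r ∈ Finset.range m, ∑ t ∈ Finset.range k,
        (X (r + 1) (t + 1) - X r (t + 1)) * (H (r + 1) t - H (r + 1) (t + 1)) =
      ∑ t ∈ Finset.range (k + 1), (X m (t + 1) - X m t) * H (m + 1) t := by
  set D : ℕ → ℝ := fun r => ∑ t ∈ Finset.range (k + 1), (X r (t + 1) - X r t) * H r t with hD
  set E : ℕ → ℝ := fun r => ∑ t ∈ Finset.range (k + 1), (X r (t + 1) - X r t) * H (r + 1) t
    with hE
  have e1 : ∀ r, ∑ t ∈ Finset.range (k + 1),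
      (X r (t + 1) - X r t) * (H (r + 1) t - H r t) = E r - D r := by
    intro r
    rw [hE, hD]
    simp only
    rw [← Finset.sum_sub_distrib]
    refine Finset.sum_congr rfl fun t _ => by ring
  have e2 : ∀ r, r < m → ∑ t ∈ Finset.range k,
      (X (r + 1) (t + 1) - X r (t + 1)) * (H (r + 1) t - H (r + 1) (t + 1)) =
        D (r + 1) - E r := by
    intro r hr
    have := abel_aux (fun t => X (r + 1) t - X r t) (fun t => H (r + 1) t) k
    rw [hX0 (r + 1) (by omega), hX0 r (by omega), hXC (r + 1) (by omega),
      hXC r (by omega)] at this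
    rw [hE, hD]
    simp only
    rw [← Finset.sum_sub_distrib]
    have h2 : ∑ t ∈ Finset.range (k + 1), ((X (r + 1) (t + 1) - X (r + 1) t) * H (r + 1) t -
        (X r (t + 1) - X r t) * H (r + 1) t) =
        ∑ t ∈ Finset.range (k + 1), (X (r + 1) (t + 1) - X r (t + 1) -
          (X (r + 1) t - X r t)) * H (r + 1) t := by
      refine Finset.sum_congr rfl fun t _ => by ring
    rw [h2, this]
    ring
  have e3 : ∀ j ≤ m, ∑ r ∈ Finset.range (j + 1), (E r - D r) +
      ∑ r ∈ Finset.range j, (D (r + 1) - E r) = E j - D 0 := by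
    intro j hj
    induction j with
    | zero => simp
    | succ j ih =>
      rw [Finset.sum_range_succ (fun r => E r - D r) (j + 1),
        Finset.sum_range_succ (fun r => D (r + 1) - E r) j]
      linarith [ih (by omega)]
  rw [Finset.sum_congr rfl (fun r _ => e1 r),
    Finset.sum_congr rfl (fun r hr => e2 r (Finset.mem_range.1 hr)), e3 m le_rfl]
  have e4 : D 0 = 0 := by
    rw [hD]; simp only
    apply Finset.sum_eq_zero
    intro t ht
    rw [hH0 t (by simpa using ht), mul_zero]
  rw [e4, sub_zero]

/-! ## The middle gap -/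

/-- total width of a profile -/
noncomputable def tw (l : List (ℝ × ℝ)) : ℝ := (l.map Prod.fst).sum

/-- area below a profile -/
noncomputable def ta (l : List (ℝ × ℝ)) : ℝ := (l.map (fun d => d.1 * d.2)).sum

theorem tw_cons (d : ℝ × ℝ) (l : List (ℝ × ℝ)) : tw (d :: l) = d.1 + tw l := by simp [tw]
theorem ta_cons (d : ℝ × ℝ) (l : List (ℝ × ℝ)) : ta (d :: l) = d.1 * d.2 + ta l := by simp [ta]
theorem tw_append (l l' : List (ℝ × ℝ)) : tw (l ++ l') = tw l + tw l' := by simp [tw]
theorem tw_reverse (l : List (ℝ × ℝ)) : tw l.reverse = tw l := by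
  simp [tw, List.map_reverse, List.sum_reverse]
theorem ta_reverse (l : List (ℝ × ℝ)) : ta l.reverse = ta l := by
  simp [ta, List.map_reverse, List.sum_reverse]

/-- `p` lies below the profile `l` starting at `x` -/
def LBl (p : PR) : ℝ → List (ℝ × ℝ) → Prop
  | _, [] => True
  | x, d :: l => (x < p.x + p.a → p.y + p.b ≤ d.2) ∧ LBl p (x + d.1) l

/-- `q` lies above the upper profile `l` (heights measured from the top `H`) starting at `x` -/
def UBl (H : ℝ) (q : PR) : ℝ → List (ℝ × ℝ) → Prop
  | _, [] => True
  | x, d :: l => (q.x < x + d.1 → H - d.2 ≤ q.y) ∧ UBl H q (x + d.1) l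

/-- the placed pieces of the middle gap -/
def midsP (H : ℝ) : ℝ → List Bool → List (ℝ × ℝ) → List (ℝ × ℝ) → List PR
  | x, [], [(w, B)], [(_, C)] => [⟨x, B, w, H - B - C⟩]
  | x, true :: p, (w, B) :: l, (w', C) :: l' =>
      ⟨x, B, w, H - B - C⟩ :: midsP H (x + w) p l ((w' - w, C) :: l')
  | x, false :: p, (w, B) :: l, (w', C) :: l' =>
      ⟨x, B, w', H - B - C⟩ :: midsP H (x + w') p ((w - w', B) :: l) l'
  | _, _, _, _ => []

theorem midsP_dims (H : ℝ) (pat : List Bool) : ∀ (x : ℝ) (l l' : List (ℝ × ℝ)),
    MidsOK H pat l l' → (midsP H x pat l l').map PR.dims = mids H pat l l' := by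
  induction pat with
  | nil =>
    intro x l l' h
    match l, l', h with
    | [(w, B)], [(w', C)], _ => simp [midsP, mids, PR.dims]
  | cons c pat ih =>
    intro x l l' h
    match c, l, l', h with
    | true, (w, B) :: l, (w', C) :: l', h =>
      simp only [midsP, mids, List.map_cons, PR.dims]
      rw [ih _ _ _ h.2.2]
    | false, (w, B) :: l, (w', C) :: l', h =>
      simp only [midsP, mids, List.map_cons, PR.dims]
      rw [ih _ _ _ h.2.2]

/-- nonnegative entries -/
def NN (l : List (ℝ × ℝ)) : Prop := ∀ d ∈ l, 0 ≤ d.1 ∧ 0 ≤ d.2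

theorem midsP_props (H : ℝ) (pat : List Bool) : ∀ (x : ℝ) (l l' : List (ℝ × ℝ)),
    MidsOK H pat l l' → NN l → NN l' → tw l = tw l' →
    (∀ m ∈ midsP H x pat l l', x ≤ m.x ∧ m.x + m.a ≤ x + tw l ∧ 0 ≤ m.y ∧ m.y + m.b ≤ H) ∧
    (midsP H x pat l l').Pairwise PR.Sep ∧
    ((midsP H x pat l l').map (fun m => m.a * m.b)).sum = tw l * H - ta l - ta l' := by
  induction pat with
  | nil =>
    intro x l l' h hl hl' hw
    match l, l', h with
    | [(w, B)], [(w', C)], h =>
      have h1 := hl (w, B) (by simp)
      have h2 := hl' (w', C) (by simp)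
      simp only at h1 h2
      simp only [tw, List.map_cons, List.map_nil, List.sum_cons, List.sum_nil, add_zero] at hw
      subst hw
      simp only [MidsOK] at h
      refine ⟨?_, by simp [midsP], ?_⟩
      · intro m hm
        simp only [midsP, List.mem_singleton] at hm
        subst hm
        simp only [tw, List.map_cons, List.map_nil, List.sum_cons, List.sum_nil, add_zero]
        refine ⟨le_rfl, le_rfl, h1.2, by linarith [h2.2]⟩
      · simp only [midsP, List.map_cons, List.map_nil, List.sum_cons, List.sum_nil, add_zero,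
          tw, ta]
        ring
  | cons c pat ih =>
    intro x l l' h hl hl' hw
    match c, l, l', h with
    | true, (w, B) :: l, (w', C) :: l', h =>
      obtain ⟨h1, h2, h3⟩ := h
      have hB := hl (w, B) (by simp)
      have hC := hl' (w', C) (by simp)
      simp only at hB hC
      have hl1 : NN l := fun d hd => hl d (by simp [hd])
      have hl2 : NN ((w' - w, C) :: l') := by
        intro d hd
        rcases List.mem_cons.1 hd with rfl | hd
        · exact ⟨by simp only; linarith, hC.2⟩
        · exact hl' d (by simp [hd])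
      have hw2 : tw l = tw ((w' - w, C) :: l') := by
        rw [tw_cons] at hw ⊢
        rw [tw_cons] at hw
        simp only at hw ⊢
        linarith
      obtain ⟨i1, i2, i3⟩ := ih (x + w) l ((w' - w, C) :: l') h3 hl1 hl2 hw2
      simp only [midsP]
      refine ⟨?_, ?_, ?_⟩
      · intro m hm
        rcases List.mem_cons.1 hm with rfl | hm
        · rw [tw_cons]
          have : 0 ≤ tw l := by
            unfold tw
            apply List.sum_nonneg
            intro z hz
            obtain ⟨d, hd, rfl⟩ := List.mem_map.1 hz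
            exact (hl1 d hd).1
          refine ⟨le_rfl, by simp only; linarith, hB.2, by simp only; linarith [hC.2]⟩
        · obtain ⟨j1, j2, j3, j4⟩ := i1 m hm
          rw [tw_cons]
          refine ⟨by linarith [hB.1], by simp only; linarith, j3, j4⟩
      · rw [List.pairwise_cons]
        refine ⟨fun m hm => ?_, i2⟩
        left
        simp only
        exact (i1 m hm).1
      · rw [List.map_cons, List.sum_cons, i3, tw_cons, ta_cons, ta_cons, ta_cons]
        simp only
        ring
    | false, (w, B) :: l, (w', C) :: l', h =>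
      obtain ⟨h1, h2, h3⟩ := h
      have hB := hl (w, B) (by simp)
      have hC := hl' (w', C) (by simp)
      simp only at hB hC
      have hl1 : NN ((w - w', B) :: l) := by
        intro d hd
        rcases List.mem_cons.1 hd with rfl | hd
        · exact ⟨by simp only; linarith, hB.2⟩
        · exact hl d (by simp [hd])
      have hl2 : NN l' := fun d hd => hl' d (by simp [hd])
      have hw2 : tw ((w - w', B) :: l) = tw l' := by
        rw [tw_cons] at hw ⊢
        rw [tw_cons] at hw
        simp only at hw ⊢
        linarith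
      obtain ⟨i1, i2, i3⟩ := ih (x + w') ((w - w', B) :: l) l' h3 hl1 hl2 hw2
      simp only [midsP]
      have htl : 0 ≤ tw ((w - w', B) :: l) := by
        unfold tw
        apply List.sum_nonneg
        intro z hz
        obtain ⟨d, hd, rfl⟩ := List.mem_map.1 hz
        exact (hl1 d hd).1
      rw [tw_cons] at htl i1
      simp only at htl i1
      refine ⟨?_, ?_, ?_⟩
      · intro m hm
        rcases List.mem_cons.1 hm with rfl | hm
        · rw [tw_cons]
          refine ⟨le_rfl, by simp only; linarith, hB.2, by simp only; linarith [hC.2]⟩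
        · obtain ⟨j1, j2, j3, j4⟩ := i1 m hm
          rw [tw_cons]
          refine ⟨by linarith [hC.1], by simp only; linarith, j3, j4⟩
      · rw [List.pairwise_cons]
        refine ⟨fun m hm => ?_, i2⟩
        left
        simp only
        exact (i1 m hm).1
      · rw [List.map_cons, List.sum_cons, i3, tw_cons, ta_cons, ta_cons, ta_cons, tw_cons]
        simp only
        ring

/-- pieces below the lower profile are separated from the middle pieces -/
theorem midsP_lower (H : ℝ) (p : PR) (pat : List Bool) : ∀ (x : ℝ) (l l' : List (ℝ × ℝ)),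
    MidsOK H pat l l' → NN l → NN l' → LBl p x l →
    ∀ m ∈ midsP H x pat l l', m.x < p.x + p.a → p.y + p.b ≤ m.y := by
  induction pat with
  | nil =>
    intro x l l' h hl hl' hp m hm
    match l, l', h with
    | [(w, B)], [(w', C)], h =>
      simp only [midsP, List.mem_singleton] at hm
      subst hm
      exact hp.1
  | cons c pat ih =>
    intro x l l' h hl hl' hp m hm
    match c, l, l', h with
    | true, (w, B) :: l, (w', C) :: l', h =>
      simp only [midsP] at hm
      have hC := hl' (w', C) (by simp)
      rcases List.mem_cons.1 hm with rfl | hm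
      · exact hp.1
      · refine ih (x + w) l ((w' - w, C) :: l') h.2.2 (fun d hd => hl d (by simp [hd])) ?_ hp.2
          m hm
        intro d hd
        rcases List.mem_cons.1 hd with rfl | hd
        · exact ⟨by simp only; linarith [h.1], hC.2⟩
        · exact hl' d (by simp [hd])
    | false, (w, B) :: l, (w', C) :: l', h =>
      simp only [midsP] at hm
      have hB := hl (w, B) (by simp)
      have hC := hl' (w', C) (by simp)
      simp only at hB hC
      rcases List.mem_cons.1 hm with rfl | hm
      · exact hp.1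
      · refine ih (x + w') ((w - w', B) :: l) l' h.2.2 ?_ (fun d hd => hl' d (by simp [hd])) ?_
          m hm
        · intro d hd
          rcases List.mem_cons.1 hd with rfl | hd
          · exact ⟨by simp only; linarith [h.1], hB.2⟩
          · exact hl d (by simp [hd])
        · refine ⟨fun hx => hp.1 (by linarith), ?_⟩
          have e : x + w' + (w - w', B).1 = x + (w, B).1 := by simp only; ring
          rw [e]
          exact hp.2

/-- pieces above the upper profile are separated from the middle pieces -/
theorem midsP_upper (H : ℝ) (q : PR) (pat : List Bool) : ∀ (x : ℝ) (l l' : List (ℝ × ℝ)),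
    MidsOK H pat l l' → NN l → NN l' → tw l = tw l' → UBl H q x l' →
    ∀ m ∈ midsP H x pat l l', q.x < m.x + m.a → m.y + m.b ≤ q.y := by
  induction pat with
  | nil =>
    intro x l l' h hl hl' hw hq m hm
    match l, l', h with
    | [(w, B)], [(w', C)], h =>
      simp only [midsP, List.mem_singleton] at hm
      subst hm
      simp only [tw, List.map_cons, List.map_nil, List.sum_cons, List.sum_nil, add_zero] at hw
      subst hw
      intro hx
      simp only at hx ⊢
      have := hq.1 hx
      simp only at this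
      linarith
  | cons c pat ih =>
    intro x l l' h hl hl' hw hq m hm
    match c, l, l', h with
    | true, (w, B) :: l, (w', C) :: l', h =>
      simp only [midsP] at hm
      have hB := hl (w, B) (by simp)
      have hC := hl' (w', C) (by simp)
      simp only at hB hC
      rcases List.mem_cons.1 hm with rfl | hm
      · intro hx
        simp only at hx ⊢
        have := hq.1 (by simp only; linarith [h.1])
        simp only at this
        linarith
      · refine ih (x + w) l ((w' - w, C) :: l') h.2.2 (fun d hd => hl d (by simp [hd])) ?_ ?_ ?_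
          m hm
        · intro d hd
          rcases List.mem_cons.1 hd with rfl | hd
          · exact ⟨by simp only; linarith [h.1], hC.2⟩
          · exact hl' d (by simp [hd])
        · rw [tw_cons] at hw ⊢
          rw [tw_cons] at hw
          simp only at hw ⊢
          linarith
        · have e : x + w + (w' - w, C).1 = x + (w', C).1 := by simp only; ring
          refine ⟨fun hx => hq.1 (by rw [e] at hx; exact hx), ?_⟩
          rw [e]
          exact hq.2
    | false, (w, B) :: l, (w', C) :: l', h =>
      simp only [midsP] at hm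
      have hB := hl (w, B) (by simp)
      have hC := hl' (w', C) (by simp)
      simp only at hB hC
      rcases List.mem_cons.1 hm with rfl | hm
      · intro hx
        simp only at hx ⊢
        have := hq.1 (by simp only; linarith [h.1])
        simp only at this
        linarith
      · refine ih (x + w') ((w - w', B) :: l) l' h.2.2 ?_ (fun d hd => hl' d (by simp [hd])) ?_
          hq.2 m hm
        · intro d hd
          rcases List.mem_cons.1 hd with rfl | hd
          · exact ⟨by simp only; linarith [h.1], hB.2⟩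
          · exact hl d (by simp [hd])
        · rw [tw_cons] at hw ⊢
          rw [tw_cons] at hw
          simp only at hw ⊢
          linarith

/-- lower pieces are separated from upper pieces -/
theorem midsP_cross (H : ℝ) (p q : PR) (pat : List Bool) : ∀ (x : ℝ) (l l' : List (ℝ × ℝ)),
    MidsOK H pat l l' → NN l → NN l' → tw l = tw l' → LBl p x l → UBl H q x l' →
    x < p.x + p.a → q.x < p.x + p.a → q.x < x + tw l → p.y + p.b ≤ q.y := by
  induction pat with
  | nil =>
    intro x l l' h hl hl' hw hp hq hx hqp hqx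
    match l, l', h with
    | [(w, B)], [(w', C)], h =>
      simp only [tw, List.map_cons, List.map_nil, List.sum_cons, List.sum_nil, add_zero]
        at hw hqx
      subst hw
      have h1 := hp.1 hx
      have h2 := hq.1 hqx
      simp only [MidsOK] at h
      simp only at h1 h2
      linarith
  | cons c pat ih =>
    intro x l l' h hl hl' hw hp hq hx hqp hqx
    match c, l, l', h with
    | true, (w, B) :: l, (w', C) :: l', h =>
      have hB := hl (w, B) (by simp)
      have hC := hl' (w', C) (by simp)
      simp only at hB hC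
      by_cases hc : q.x < x + w
      · have h1 := hp.1 hx
        have h2 := hq.1 (by simp only; linarith [h.1])
        have h3 := h.2.1
        simp only at h1 h2
        linarith
      · push Not at hc
        refine ih (x + w) l ((w' - w, C) :: l') h.2.2 (fun d hd => hl d (by simp [hd])) ?_ ?_
          hp.2 ?_ (by linarith) hqp ?_
        · intro d hd
          rcases List.mem_cons.1 hd with rfl | hd
          · exact ⟨by simp only; linarith [h.1], hC.2⟩
          · exact hl' d (by simp [hd])
        · rw [tw_cons] at hw ⊢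
          rw [tw_cons] at hw
          simp only at hw ⊢
          linarith
        · have e : x + w + (w' - w, C).1 = x + (w', C).1 := by simp only; ring
          refine ⟨fun hx => hq.1 (by rw [e] at hx; exact hx), ?_⟩
          rw [e]
          exact hq.2
        · rw [tw_cons] at hqx
          simp only at hqx
          linarith
    | false, (w, B) :: l, (w', C) :: l', h =>
      have hB := hl (w, B) (by simp)
      have hC := hl' (w', C) (by simp)
      simp only at hB hC
      by_cases hc : q.x < x + w'
      · have h1 := hp.1 hx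
        have h2 := hq.1 hc
        have h3 := h.2.1
        simp only at h1 h2
        linarith
      · push Not at hc
        refine ih (x + w') ((w - w', B) :: l) l' h.2.2 ?_ (fun d hd => hl' d (by simp [hd])) ?_
          ?_ hq.2 (by linarith) hqp ?_
        · intro d hd
          rcases List.mem_cons.1 hd with rfl | hd
          · exact ⟨by simp only; linarith [h.1], hB.2⟩
          · exact hl d (by simp [hd])
        · rw [tw_cons] at hw ⊢
          rw [tw_cons] at hw
          simp only at hw ⊢
          linarith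
        · refine ⟨fun hx => hp.1 (by linarith), ?_⟩
          have e : x + w' + (w - w', B).1 = x + (w, B).1 := by simp only; ring
          rw [e]
          exact hp.2
        · rw [tw_cons] at hqx ⊢
          simp only at hqx ⊢
          linarith

theorem midsOK_le (H : ℝ) (pat : List Bool) : ∀ (l l' : List (ℝ × ℝ)),
    MidsOK H pat l l' → NN l → NN l' → (∀ d ∈ l, d.2 ≤ H) ∧ (∀ d ∈ l', d.2 ≤ H) := by
  induction pat with
  | nil =>
    intro l l' h hl hl'
    match l, l', h with
    | [(w, B)], [(w', C)], h =>
      have hB := hl (w, B) (by simp)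
      have hC := hl' (w', C) (by simp)
      simp only [MidsOK] at h
      simp only at hB hC
      constructor
      · intro d hd
        rw [List.mem_singleton] at hd
        subst hd
        simp only; linarith
      · intro d hd
        rw [List.mem_singleton] at hd
        subst hd
        simp only; linarith
  | cons c pat ih =>
    intro l l' h hl hl'
    match c, l, l', h with
    | true, (w, B) :: l, (w', C) :: l', h =>
      have hB := hl (w, B) (by simp)
      have hC := hl' (w', C) (by simp)
      simp only at hB hC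
      have hl1 : NN l := fun d hd => hl d (by simp [hd])
      have hl2 : NN ((w' - w, C) :: l') := by
        intro d hd
        rcases List.mem_cons.1 hd with rfl | hd
        · exact ⟨by simp only; linarith [h.1], hC.2⟩
        · exact hl' d (by simp [hd])
      obtain ⟨i1, i2⟩ := ih l ((w' - w, C) :: l') h.2.2 hl1 hl2
      constructor
      · intro d hd
        rcases List.mem_cons.1 hd with rfl | hd
        · simp only; linarith [h.2.1]
        · exact i1 d hd
      · intro d hd
        rcases List.mem_cons.1 hd with rfl | hd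
        · simp only; linarith [h.2.1]
        · exact i2 d (by simp [hd])
    | false, (w, B) :: l, (w', C) :: l', h =>
      have hB := hl (w, B) (by simp)
      have hC := hl' (w', C) (by simp)
      simp only at hB hC
      have hl1 : NN ((w - w', B) :: l) := by
        intro d hd
        rcases List.mem_cons.1 hd with rfl | hd
        · exact ⟨by simp only; linarith [h.1], hB.2⟩
        · exact hl d (by simp [hd])
      have hl2 : NN l' := fun d hd => hl' d (by simp [hd])
      obtain ⟨i1, i2⟩ := ih ((w - w', B) :: l) l' h.2.2 hl1 hl2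
      constructor
      · intro d hd
        rcases List.mem_cons.1 hd with rfl | hd
        · simp only; linarith [h.2.1]
        · exact i1 d (by simp [hd])
      · intro d hd
        rcases List.mem_cons.1 hd with rfl | hd
        · simp only; linarith [h.2.1]
        · exact i2 d hd

/-! ## The wall as a monotone grid -/

theorem Xc_succ (a : ℕ → ℕ → ℝ) (r t : ℕ) : Xc a r (t + 1) = Xc a r t + a r t := by
  unfold Xc; rw [Finset.sum_range_succ]

theorem Hc_succ (b : ℕ → ℕ → ℝ) (r t : ℕ) : Hc b (r + 1) t = Hc b r t + b r t := by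
  unfold Hc; rw [Finset.sum_range_succ]

theorem Xc_zero (a : ℕ → ℕ → ℝ) (r : ℕ) : Xc a r 0 = 0 := by simp [Xc]
theorem Hc_zero (b : ℕ → ℕ → ℝ) (t : ℕ) : Hc b 0 t = 0 := by simp [Hc]

/-- extended vertical boundaries -/
noncomputable def gX (a : ℕ → ℕ → ℝ) (L : ℝ) (K : ℕ) (r t : ℕ) : ℝ :=
  if t ≤ K then Xc a r t else L

/-- extended horizontal boundaries -/
noncomputable def gH (b : ℕ → ℕ → ℝ) (K : ℕ) (r t : ℕ) : ℝ := Hc b r (min t (K - 1))

section wall
variable {a b : ℕ → ℕ → ℝ} {L : ℝ} {J K : ℕ}

theorem WallOK.Xm (h : WallOK a b L J K) :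
    ∀ r r' t t', r ≤ r' → t ≤ t' → r' < J → t' ≤ K → Xc a r t ≤ Xc a r' t' := by
  have hX1 : ∀ r < J, ∀ t t', t ≤ t' → t' ≤ K → Xc a r t ≤ Xc a r t' := by
    intro r hr t t' htt ht'
    induction t', htt using Nat.le_induction with
    | base => exact le_rfl
    | succ k hk ih =>
      refine (ih (by omega)).trans ?_
      rw [Xc_succ]; linarith [h.ha r hr k (by omega)]
  have hX2 : ∀ t ≤ K, ∀ r r', r ≤ r' → r' < J → Xc a r t ≤ Xc a r' t := by
    intro t ht r r' hrr hr'
    induction r', hrr using Nat.le_induction with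
    | base => exact le_rfl
    | succ k hk ih => exact (ih (by omega)).trans (h.hX k hr' t ht)
  exact fun r r' t t' h1 h2 h3 h4 => (hX1 r (by omega) t t' h2 h4).trans (hX2 t' h4 r r' h1 h3)

theorem WallOK.Hm (h : WallOK a b L J K) :
    ∀ r r' t t', r ≤ r' → t' ≤ t → r' ≤ J → t < K → Hc b r t ≤ Hc b r' t' := by
  have hH1 : ∀ t < K, ∀ r r', r ≤ r' → r' ≤ J → Hc b r t ≤ Hc b r' t := by
    intro t ht r r' hrr hr'
    induction r', hrr using Nat.le_induction with
    | base => exact le_rfl
    | succ k hk ih =>
      refine (ih (by omega)).trans ?_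
      rw [Hc_succ]; linarith [h.hb k (by omega) t ht]
  have hH2 : ∀ r ≤ J, ∀ t t', t ≤ t' → t' < K → Hc b r t' ≤ Hc b r t := by
    intro r hr t t' htt ht'
    induction t', htt using Nat.le_induction with
    | base => exact le_rfl
    | succ k hk ih => exact (h.hH k ht' r hr).trans (ih (by omega))
  exact fun r r' t t' h1 h2 h3 h4 => (hH1 t h4 r r' h1 h3).trans (hH2 r' h3 t' t h2 h4)

theorem WallOK.XL (h : WallOK a b L J K) {r t : ℕ} (hr : r < J) (ht : t ≤ K) : Xc a r t ≤ L :=
  (h.Xm r (J - 1) t K (by omega) ht (by have := h.hJ; omega) le_rfl).trans h.hL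

theorem WallOK.gm (h : WallOK a b L J K) : GM J (K + 1) (gX a L K) (gH b K) := by
  constructor
  · intro r r' t t' h1 h2 h3 h4
    unfold gX
    by_cases ht' : t' ≤ K
    · rw [if_pos ht', if_pos (by omega)]
      exact h.Xm r r' t t' h1 h2 h3 ht'
    · rw [if_neg ht']
      by_cases ht : t ≤ K
      · rw [if_pos ht]; exact h.XL (by omega) ht
      · rw [if_neg ht]
  · intro r r' t t' h1 h2 h3 h4
    unfold gH
    have := h.hK
    exact h.Hm r r' _ _ h1 (by omega) h3 (by omega)

/-- the placed wall -/
noncomputable def wl (a b : ℕ → ℕ → ℝ) (L : ℝ) (J K : ℕ) : List PR :=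
  wallList J (K + 1) (K - 1) (gX a L K) (gH b K)

theorem WallOK.pairwise (h : WallOK a b L J K) : (wl a b L J K).Pairwise PR.Sep :=
  h.gm.pairwise (by omega)

theorem WallOK.bounds (h : WallOK a b L J K) {p : PR} (hp : p ∈ wl a b L J K) :
    0 ≤ p.x ∧ 0 ≤ p.y ∧ p.x + p.a ≤ L ∧ p.y + p.b ≤ Hc b J 0 := by
  have := h.gm.bounds (by omega) L (fun r _ => by simp [gX, Xc_zero])
    (fun r _ => by simp [gX]) (fun t _ => by simp [gH, Hc_zero]) hp
  refine ⟨this.1, this.2.1, this.2.2.1, ?_⟩
  have e : gH b K J 0 = Hc b J 0 := by simp [gH]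
  rw [← e]
  exact this.2.2.2

theorem WallOK.below (h : WallOK a b L J K) {p : PR} (hp : p ∈ wl a b L J K) {t : ℕ}
    (ht : t < K) (hx : Xc a (J - 1) t < p.x + p.a) : p.y + p.b ≤ Hc b J t := by
  have := h.gm.below (by omega) hp (t := t) (by omega) (by
    unfold gX; rw [if_pos (by omega)]; exact hx)
  have e : gH b K J t = Hc b J t := by
    unfold gH; congr 1; have := h.hK; omega
  rw [e] at this
  exact this

theorem lbl_aux (p : PR) (A B : ℕ → ℝ) (w : ℝ) : ∀ (n s : ℕ) (x : ℝ),
    (∀ i ≤ n, x + ∑ j ∈ Finset.range i, A (s + j) < p.x + p.a → p.y + p.b ≤ B (s + i)) →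
    LBl p x ((List.range' s n).map (fun t => (A t, B t)) ++ [(w, B (s + n))]) := by
  intro n
  induction n with
  | zero =>
    intro s x h
    have := h 0 le_rfl
    simp only [Finset.range_zero, Finset.sum_empty, add_zero] at this
    simpa [LBl] using this
  | succ n ih =>
    intro s x h
    rw [List.range'_succ]
    simp only [List.map_cons, List.cons_append, LBl]
    refine ⟨?_, ?_⟩
    · have := h 0 (by omega)
      simpa using this
    · have := ih (s + 1) (x + A s) ?_
      · have e : s + 1 + n = s + (n + 1) := by ring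
        rw [e] at this
        exact this
      · intro i hi hx
        have h1 := h (i + 1) (by omega)
        rw [Finset.sum_range_succ'] at h1
        have e : s + 1 + i = s + (i + 1) := by ring
        rw [e]
        apply h1
        have e2 : ∑ k ∈ Finset.range i, A (s + (k + 1)) = ∑ j ∈ Finset.range i, A (s + 1 + j) := by
          refine Finset.sum_congr rfl fun j _ => ?_
          congr 1; ring
        rw [e2]
        simp only [add_zero]
        linarith

theorem WallOK.lbl (h : WallOK a b L J K) {p : PR} (hp : p ∈ wl a b L J K) :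
    LBl p 0 (prof a b L J K) := by
  have hK := h.hK
  have := lbl_aux p (fun t => a (J - 1) t) (fun t => Hc b J t) (L - Xc a (J - 1) (K - 1))
    (K - 1) 0 0 ?_
  · unfold prof
    rw [List.range_eq_range']
    simpa using this
  · intro i hi hx
    simp only [zero_add] at hx ⊢
    exact h.below hp (by omega) hx

theorem sum_map_range (f : ℕ → ℝ) (n : ℕ) :
    ((List.range n).map f).sum = ∑ i ∈ Finset.range n, f i := by
  induction n with
  | zero => simp
  | succ n ih => rw [List.range_succ, Finset.sum_range_succ]; simp [ih]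

theorem WallOK.tw (h : WallOK a b L J K) : tw (prof a b L J K) = L := by
  unfold MMS.tw prof
  rw [List.map_append, List.map_map, List.sum_append]
  have : (Prod.fst ∘ fun t => (a (J - 1) t, Hc b J t)) = fun t => a (J - 1) t := rfl
  rw [this, sum_map_range]
  simp only [List.map_cons, List.map_nil, List.sum_cons, List.sum_nil, add_zero]
  unfold Xc
  ring

theorem Hc_nonneg (h : WallOK a b L J K) {r t : ℕ} (hr : r ≤ J) (ht : t < K) : 0 ≤ Hc b r t := by
  have := h.Hm 0 r t t (by omega) le_rfl hr ht
  rw [Hc_zero] at this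
  exact this

theorem WallOK.nn (h : WallOK a b L J K) : NN (prof a b L J K) := by
  intro d hd
  have hJ := h.hJ
  have hK := h.hK
  unfold prof at hd
  rcases List.mem_append.1 hd with hd | hd
  · obtain ⟨t, ht, rfl⟩ := List.mem_map.1 hd
    rw [List.mem_range] at ht
    exact ⟨h.ha _ (by omega) t (by omega), Hc_nonneg h le_rfl (by omega)⟩
  · rw [List.mem_singleton] at hd
    subst hd
    exact ⟨by simp only; linarith [h.XL (r := J - 1) (t := K - 1) (by omega) (by omega)],
      Hc_nonneg h le_rfl (by omega)⟩

theorem WallOK.ta (h : WallOK a b L J K) :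
    ((wl a b L J K).map (fun p => p.a * p.b)).sum = ta (prof a b L J K) := by
  have hJ := h.hJ
  have hK := h.hK
  obtain ⟨m, rfl⟩ : ∃ m, J = m + 1 := ⟨J - 1, by omega⟩
  obtain ⟨k, rfl⟩ : ∃ k, K = k + 1 := ⟨K - 1, by omega⟩
  have h1 := wall_area (m := m) (k := k + 1) (X := gX a L (k + 1)) (H := gH b (k + 1)) L
    (fun r _ => by simp [gX, Xc_zero]) (fun r _ => by simp [gX])
    (fun t _ => by simp [gH, Hc_zero])
  have h2 : ((wl a b L (m + 1) (k + 1)).map (fun p => p.a * p.b)).sum =
      ∑ r ∈ Finset.range (m + 1), ∑ t ∈ Finset.range (k + 1 + 1),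
        (gX a L (k + 1) r (t + 1) - gX a L (k + 1) r t) *
          (gH b (k + 1) (r + 1) t - gH b (k + 1) r t) +
      ∑ r ∈ Finset.range m, ∑ t ∈ Finset.range k,
        (gX a L (k + 1) (r + 1) (t + 1) - gX a L (k + 1) r (t + 1)) *
          (gH b (k + 1) (r + 1) t - gH b (k + 1) (r + 1) (t + 1)) := by
    unfold wl wallList
    rw [List.map_append, List.map_map, List.map_map, List.sum_append,
      Finset.sum_map_toList, Finset.sum_map_toList, Finset.sum_product, Finset.sum_product]
    rfl
  have h3 : ∀ r, ∑ t ∈ Finset.range (k + 1),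
        (gX a L (k + 1) (r + 1) (t + 1) - gX a L (k + 1) r (t + 1)) *
          (gH b (k + 1) (r + 1) t - gH b (k + 1) (r + 1) (t + 1)) =
      ∑ t ∈ Finset.range k,
        (gX a L (k + 1) (r + 1) (t + 1) - gX a L (k + 1) r (t + 1)) *
          (gH b (k + 1) (r + 1) t - gH b (k + 1) (r + 1) (t + 1)) := by
    intro r
    rw [Finset.sum_range_succ]
    have : gH b (k + 1) (r + 1) k - gH b (k + 1) (r + 1) (k + 1) = 0 := by
      unfold gH; simp
    rw [this]; ring
  rw [Finset.sum_congr rfl (fun r _ => h3 r)] at h1
  rw [h2, h1]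
  unfold MMS.ta prof
  rw [List.map_append, List.map_map, List.sum_append, sum_map_range]
  simp only [List.map_cons, List.map_nil, List.sum_cons, List.sum_nil, add_zero,
    Nat.add_sub_cancel, Function.comp]
  rw [Finset.sum_range_succ, Finset.sum_range_succ]
  have e1 : ∀ t ∈ Finset.range k, (gX a L (k + 1) m (t + 1) - gX a L (k + 1) m t) *
      gH b (k + 1) (m + 1) t = a m t * Hc b (m + 1) t := by
    intro t ht
    rw [Finset.mem_range] at ht
    have f1 : gX a L (k + 1) m (t + 1) = Xc a m (t + 1) := by
      unfold gX; rw [if_pos (by omega)]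
    have f2 : gX a L (k + 1) m t = Xc a m t := by
      unfold gX; rw [if_pos (by omega)]
    have f3 : gH b (k + 1) (m + 1) t = Hc b (m + 1) t := by
      unfold gH; congr 1; omega
    rw [f1, f2, f3, Xc_succ]; ring
  rw [Finset.sum_congr rfl e1]
  have f1 : gX a L (k + 1) m (k + 1) = Xc a m (k + 1) := by
    unfold gX; rw [if_pos (by omega)]
  have f2 : gX a L (k + 1) m k = Xc a m k := by
    unfold gX; rw [if_pos (by omega)]
  have f3 : gX a L (k + 1) m (k + 1 + 1) = L := by
    unfold gX; rw [if_neg (by omega)]
  have f4 : gH b (k + 1) (m + 1) k = Hc b (m + 1) k := by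
    unfold gH; congr 1; omega
  have f5 : gH b (k + 1) (m + 1) (k + 1) = Hc b (m + 1) k := by
    unfold gH; congr 1; omega
  rw [f1, f2, f3, f4, f5]
  ring

theorem WallOK.dims (h : WallOK a b L J K) :
    (((wl a b L J K).map PR.dims : List (ℝ × ℝ)) : Multiset (ℝ × ℝ)) =
      wItems a b J K + wEnds a b L J K + wBits a b J K := by
  have hK := h.hK
  unfold wl wallList wItems wEnds wBits
  rw [List.map_append, List.map_map, List.map_map, ← Multiset.coe_add, ← Multiset.map_coe,
    ← Multiset.map_coe, Finset.coe_toList, Finset.coe_toList]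
  have hinj : Function.Injective (fun r : ℕ => (r, K)) := fun x y hxy => by
    simpa using congrArg Prod.fst hxy
  have hdis : Disjoint (Finset.range J ×ˢ Finset.range K)
      ((Finset.range J).map ⟨fun r => (r, K), hinj⟩) := by
    rw [Finset.disjoint_left]
    rintro ⟨r, t⟩ h1 h2
    simp only [Finset.mem_product, Finset.mem_range, Finset.mem_map,
      Function.Embedding.coeFn_mk, Prod.mk.injEq] at h1 h2
    obtain ⟨_, _, _, h3⟩ := h2
    omega
  have hun : Finset.range J ×ˢ Finset.range (K + 1) =
      (Finset.range J ×ˢ Finset.range K).disjUnion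
        ((Finset.range J).map ⟨fun r => (r, K), hinj⟩) hdis := by
    ext ⟨r, t⟩
    simp only [Finset.mem_product, Finset.mem_range, Finset.mem_disjUnion, Finset.mem_map,
      Function.Embedding.coeFn_mk, Prod.mk.injEq]
    constructor
    · rintro ⟨h1, h2⟩
      rcases Nat.lt_or_ge t K with h3 | h3
      · left; exact ⟨h1, h3⟩
      · right; exact ⟨r, h1, rfl, by omega⟩
    · rintro (⟨h1, h2⟩ | ⟨r', h1, h2, h3⟩)
      · exact ⟨h1, by omega⟩
      · subst h2; exact ⟨h1, by omega⟩
  rw [hun, Finset.disjUnion_val, Multiset.map_add, Finset.map_val, Multiset.map_map]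
  congr 1
  · congr 1
    · apply Multiset.map_congr rfl
      rintro ⟨r, t⟩ hp
      have hp' : r < J ∧ t < K := by
        have : (r, t) ∈ Finset.range J ×ˢ Finset.range K := hp
        simpa using this
      simp only [Function.comp, PR.dims, brick]
      have f1 : gX a L K r (t + 1) = Xc a r (t + 1) := by
        unfold gX; rw [if_pos (by omega)]
      have f2 : gX a L K r t = Xc a r t := by
        unfold gX; rw [if_pos (by omega)]
      have f3 : ∀ r', gH b K r' t = Hc b r' t := by
        intro r'; unfold gH; congr 1; omega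
      rw [f1, f2, f3, f3, Xc_succ, Hc_succ]
      simp
    · apply Multiset.map_congr rfl
      intro r hr
      simp only [Function.comp, Function.Embedding.coeFn_mk, PR.dims, brick]
      have f1 : gX a L K r (K + 1) = L := by
        unfold gX; rw [if_neg (by omega)]
      have f2 : gX a L K r K = Xc a r K := by
        unfold gX; rw [if_pos le_rfl]
      have f3 : ∀ r', gH b K r' K = Hc b r' (K - 1) := by
        intro r'; unfold gH; congr 1; omega
      rw [f1, f2, f3, f3, Hc_succ]
      simp
  · apply Multiset.map_congr rfl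
    rintro ⟨r, t⟩ hp
    have hp' : r < J - 1 ∧ t < K - 1 := by
      have : (r, t) ∈ Finset.range (J - 1) ×ˢ Finset.range (K - 1) := hp
      simpa using this
    simp only [Function.comp, PR.dims, bit]
    have f1 : ∀ r', gX a L K r' (t + 1) = Xc a r' (t + 1) := by
      intro r'; unfold gX; rw [if_pos (by omega)]
    have f3 : ∀ r', gH b K r' t = Hc b r' t := by
      intro r'; unfold gH; congr 1; omega
    have f4 : ∀ r', gH b K r' (t + 1) = Hc b r' (t + 1) := by
      intro r'; unfold gH; congr 1; omega
    rw [f1, f1, f3, f4]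

end wall

/-! ## The rotated wall -/

/-- rotation by 180 degrees of the box `L × H` -/
def rot (L H : ℝ) (p : PR) : PR := ⟨L - p.x - p.a, H - p.y - p.b, p.a, p.b⟩

theorem rot_sep {L H : ℝ} {p q : PR} (h : p.Sep q) : (rot L H p).Sep (rot L H q) := by
  unfold PR.Sep rot at *
  simp only
  rcases h with h | h | h | h
  · right; left; linarith
  · left; linarith
  · right; right; right; linarith
  · right; right; left; linarith

theorem ubl_append (H : ℝ) (q : PR) : ∀ (l1 : List (ℝ × ℝ)) (x : ℝ) (l2 : List (ℝ × ℝ)),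
    UBl H q x l1 → UBl H q (x + tw l1) l2 → UBl H q x (l1 ++ l2) := by
  intro l1
  induction l1 with
  | nil => intro x l2 _ h; simpa [tw] using h
  | cons d l1 ih =>
    intro x l2 h1 h2
    refine ⟨h1.1, ih (x + d.1) l2 h1.2 ?_⟩
    rw [tw_cons] at h2
    rw [add_assoc]
    exact h2

theorem ubl_rot (L H : ℝ) (p : PR) : ∀ (l : List (ℝ × ℝ)) (x : ℝ),
    LBl p x l → UBl H (rot L H p) (L - x - tw l) l.reverse := by
  intro l
  induction l with
  | nil => intro x _; simp [UBl]
  | cons d l ih =>
    intro x h
    rw [List.reverse_cons, tw_cons]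
    apply ubl_append
    · have := ih (x + d.1) h.2
      have e : L - (x + d.1) - tw l = L - x - (d.1 + tw l) := by ring
      rw [e] at this
      exact this
    · rw [tw_reverse]
      refine ⟨fun hx => ?_, trivial⟩
      unfold rot at hx ⊢
      simp only at hx ⊢
      have := h.1 (by linarith)
      linarith

/-- THE TWO-SIDED BRICK WALL. -/
theorem wall_two {J K J' K' : ℕ} {a b a' b' : ℕ → ℕ → ℝ} {L H : ℝ} (h : WallOK a b L J K)
    (h' : WallOK a' b' L J' K') (pat : List Bool)
    (hpat : MidsOK H pat (prof a b L J K) (prof a' b' L J' K').reverse) :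
    Cut {(L, H)} ((wItems a b J K + wEnds a b L J K + wBits a b J K) +
      ((mids H pat (prof a b L J K) (prof a' b' L J' K').reverse : List (ℝ × ℝ)) :
        Multiset (ℝ × ℝ)) +
      (wItems a' b' J' K' + wEnds a' b' L J' K' + wBits a' b' J' K')) := by
  set l := prof a b L J K with hl
  set l' := (prof a' b' L J' K').reverse with hl'
  have nl : NN l := h.nn
  have nl' : NN l' := by
    intro d hd
    exact h'.nn d (by rw [hl'] at hd; exact List.mem_reverse.1 hd)
  have twl : tw l = L := h.tw
  have twl' : tw l' = L := by rw [hl', tw_reverse]; exact h'.tw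
  have htw : tw l = tw l' := by rw [twl, twl']
  have hLB : ∀ p ∈ wl a b L J K, LBl p 0 l := fun p hp => h.lbl hp
  have hUB : ∀ p ∈ wl a' b' L J' K', UBl H (rot L H p) 0 l' := by
    intro p hp
    have := ubl_rot L H p _ 0 (h'.lbl hp)
    rw [h'.tw] at this
    have e : L - 0 - L = 0 := by ring
    rw [e] at this
    exact this
  obtain ⟨m1, m2, m3⟩ := midsP_props H pat 0 l l' hpat nl nl' htw
  obtain ⟨o1, o2⟩ := midsOK_le H pat l l' hpat nl nl'
  have hH0 : Hc b J 0 ≤ H := by
    have hK := h.hK
    have : (∃ w, (w, Hc b J 0) ∈ l) := by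
      rw [hl]; unfold prof
      rcases Nat.lt_or_ge 1 K with h1 | h1
      · refine ⟨a (J - 1) 0, List.mem_append_left _ (List.mem_map.2 ⟨0, ?_, rfl⟩)⟩
        rw [List.mem_range]; omega
      · have : K = 1 := by omega
        subst this
        exact ⟨L - Xc a (J - 1) 0, by simp⟩
    obtain ⟨w, hw⟩ := this
    exact o1 _ hw
  have hH0' : Hc b' J' 0 ≤ H := by
    have hK := h'.hK
    have : (∃ w, (w, Hc b' J' 0) ∈ l') := by
      rw [hl']
      simp only [List.mem_reverse]
      unfold prof
      rcases Nat.lt_or_ge 1 K' with h1 | h1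
      · refine ⟨a' (J' - 1) 0, List.mem_append_left _ (List.mem_map.2 ⟨0, ?_, rfl⟩)⟩
        rw [List.mem_range]; omega
      · have : K' = 1 := by omega
        subst this
        exact ⟨L - Xc a' (J' - 1) 0, by simp⟩
    obtain ⟨w, hw⟩ := this
    exact o2 _ hw
  have hcut := cut_of_placed L H
    (wl a b L J K ++ midsP H 0 pat l l' ++ (wl a' b' L J' K').map (rot L H)) ?_ ?_ ?_
  · refine hcut.trans (Cut.of_eq ?_)
    rw [List.map_append, List.map_append, List.map_map, ← Multiset.coe_add,
      ← Multiset.coe_add, h.dims, midsP_dims H pat 0 l l' hpat]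
    congr 1
    rw [← h'.dims]
    congr 1
  · rw [List.pairwise_append, List.pairwise_append]
    refine ⟨⟨h.pairwise, m2, ?_⟩, ?_, ?_⟩
    · intro p hp m hm
      by_cases hx : m.x < p.x + p.a
      · right; right; left
        exact midsP_lower H p pat 0 l l' hpat nl nl' (hLB p hp) m hm hx
      · left; push Not at hx; exact hx
    · rw [List.pairwise_map]
      exact h'.pairwise.imp (fun {p q} hpq => rot_sep hpq)
    · intro p hp q hq
      obtain ⟨q', hq', rfl⟩ := List.mem_map.1 hq
      have bq := h'.bounds hq'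
      rcases List.mem_append.1 hp with hp | hp
      · have bp := h.bounds hp
        by_cases hx : (rot L H q').x < p.x + p.a
        · right; right; left
          have hx0 : 0 ≤ (rot L H q').x := by unfold rot; simp only; linarith [bq.2.2.1]
          refine midsP_cross H p (rot L H q') pat 0 l l' hpat nl nl' htw (hLB p hp)
            (hUB q' hq') (by linarith) hx ?_
          rw [twl]; linarith [bp.2.2.1]
        · left; push Not at hx; exact hx
      · by_cases hx : (rot L H q').x < p.x + p.a
        · right; right; left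
          exact midsP_upper H (rot L H q') pat 0 l l' hpat nl nl' htw (hUB q' hq') p hp hx
        · left; push Not at hx; exact hx
  · intro p hp
    rcases List.mem_append.1 hp with hp | hp
    · rcases List.mem_append.1 hp with hp | hp
      · have bp := h.bounds hp
        refine ⟨bp.1, by simp only; linarith [bp.2.2.1], bp.2.1, by simp only; linarith [bp.2.2.2]⟩
      · have bm := m1 p hp
        rw [twl] at bm
        refine ⟨bm.1, by simp only; linarith [bm.2.1], bm.2.2.1, by simp only; linarith [bm.2.2.2]⟩
    · obtain ⟨q, hq, rfl⟩ := List.mem_map.1 hp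
      have bq := h'.bounds hq
      refine ⟨?_, ?_, ?_, ?_⟩ <;> unfold rot <;> simp only <;>
        linarith [bq.1, bq.2.1, bq.2.2.1, bq.2.2.2]
  · rw [List.map_append, List.map_append, List.sum_append, List.sum_append, m3, h.ta,
      List.map_map]
    have e : ((fun p : PR => p.a * p.b) ∘ rot L H) = fun p : PR => p.a * p.b := rfl
    rw [e, h'.ta, twl]
    have e2 : ta l' = ta (prof a' b' L J' K') := by rw [hl', ta_reverse]
    rw [e2]
    ring

end Pool.Agent.MMS
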