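import Pool.Agent.MP_94f265_co.ST.Sum3
import Pool.Agent.MP_94f265_co.ST.Wall

namespace Pool.Agent.MMS

open Pool.Agent.MM1

/-- What is done inside a free rectangle (or a chain of pieces). -/
inductive Plan : Type
  | nil : Plan
  | sw (p : Plan) : Plan
  | cut (h : ℕ) (p q : Plan) : Plan
  | item0 (k : ℕ) (p q : Plan) : Plan
  | item1 (k : ℕ) (p q : Plan) : Plan
  | dom (k : ℕ) (p q : Plan) : Plan
  | strip (k m : ℕ) (kids e : Plan) : Plan
  | ustrip (k m : ℕ) (kids e : Plan) : Plan
  | wall (k J K J2 K2 : ℕ) (pm pe pb : Plan) : Plan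
  | wallj (k J K J2 K2 : ℕ) (pm pe : Plan) : Plan
  | bwall (k J K : ℕ) (pm pl pe : Plan) : Plan
  | skip (s : ℕ) (rest : Plan) : Plan
  | kid (p rest : Plan) : Plan

theorem In_u (k : ℕ) (hk : 1 ≤ k) : In (ul k) (uh k) (1 / (k : ℝ)) := In_inv k hk

theorem In_L (k : ℕ) (hk : 1 ≤ k) : In (Ll k) (Lh k) (Lg k) := by
  have h1 := In_u k hk
  have h2 := In_u (k + 2) (by omega)
  have h := h1.add h2
  unfold Ll Lh Lg
  push_cast at h
  exact h

/-! ### walls -/

/-- the accumulated result: used items `(k, m)` (the numbers `k, ..., k + m - 1`) and free things -/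
abbrev Acc : Type := Option (List (ℕ × ℕ) × List Ctx)

/-- the checker -/
def run : Plan → Ctx → List (ℕ × ℕ) → List Ctx → Acc
  | .nil, c, us, fr => some (us, c :: fr)
  | .sw p, .pc al ah bl bh, us, fr => run p (.pc bl bh al ah) us fr
  | .cut h p q, .pc al ah bl bh, us, fr =>
    bif Nat.ble h bl then
      match run p (.pc al ah h h) us fr with
      | none => none
      | some (us', fr') => run q (.pc al ah (bl - h) (bh - h)) us' fr'
    else none
  | .item0 k p q, .pc al ah bl bh, us, fr =>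
    bif Nat.ble 1 k && (Nat.ble (uh k) al && Nat.ble (uh (k + 1)) bl) then
      match run p (.pc (al - uh k) (ah - ul k) bl bh) ((k, 1) :: us) fr with
      | none => none
      | some (us', fr') => run q (.pc (ul k) (uh k) (bl - uh (k + 1)) (bh - ul (k + 1))) us' fr'
    else none
  | .item1 k p q, .pc al ah bl bh, us, fr =>
    bif Nat.ble 1 k && (Nat.ble (uh (k + 1)) al && Nat.ble (uh k) bl) then
      match run p (.pc (al - uh (k + 1)) (ah - ul (k + 1)) bl bh) ((k, 1) :: us) fr with
      | none => none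
      | some (us', fr') => run q (.pc (ul (k + 1)) (uh (k + 1)) (bl - uh k) (bh - ul k)) us' fr'
    else none
  | .dom k p q, .pc al ah bl bh, us, fr =>
    bif Nat.ble 1 k && (Nat.ble (uh (k + 1)) al && Nat.ble (Lh k) bl) then
      match run p (.pc (al - uh (k + 1)) (ah - ul (k + 1)) bl bh) ((k, 2) :: us) fr with
      | none => none
      | some (us', fr') => run q (.pc (ul (k + 1)) (uh (k + 1)) (bl - Lh k) (bh - Ll k)) us' fr'
    else none
  | .strip k m p q, .pc al ah bl bh, us, fr =>
    bif (Nat.ble 1 k && Nat.ble 1 m) && (Nat.ble (uh (k + 1)) al && Nat.ble (Thi k m + Thi (k + 2) m) bl) then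
      match run p (.ch al ah k m) ((k, 2 * m) :: us) fr with
      | none => none
      | some (us', fr') =>
        run q (.pc al ah (bl - (Thi k m + Thi (k + 2) m)) (bh - (Tlo k m + Tlo (k + 2) m))) us' fr'
    else none
  | .ustrip k m p q, .pc al ah bl bh, us, fr =>
    bif (Nat.ble 1 k && Nat.ble 1 m) && (Nat.ble (Lh k) al && Nat.ble (Thi (k + 1) m) bl) then
      match run p (.uch al ah k m) ((k, 2 * m) :: us) fr with
      | none => none
      | some (us', fr') => run q (.pc al ah (bl - Thi (k + 1) m) (bh - Tlo (k + 1) m)) us' fr'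
    else none
  | .wall k J K J2 K2 pm pe pb, .pc al ah bl bh, us, fr =>
    bif wok al k J K && wok al (k + 2 * (J * K)) J2 K2 then
      match mrg bl bh (K + K2) (wprof al ah k J K) (wprof al ah (k + 2 * (J * K)) J2 K2).reverse with
      | none => none
      | some ms =>
        match run pm (.ls ms) ((k, 2 * (J * K + J2 * K2)) :: us) fr with
        | none => none
        | some (us1, fr1) =>
          match run pe (.ls (wendE al ah k J K ++ wendE al ah (k + 2 * (J * K)) J2 K2)) us1 fr1 with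
          | none => none
          | some (us2, fr2) => run pb (.ls (wbitE k J K ++ wbitE (k + 2 * (J * K)) J2 K2)) us2 fr2
    else none
  | .wallj k J K J2 K2 pm pe, .pc al ah bl bh, us, fr =>
    bif wok al k J K && wok al (k + 2 * (J * K)) J2 K2 then
      match mrg bl bh (K + K2) (wprof al ah k J K) (wprof al ah (k + 2 * (J * K)) J2 K2).reverse with
      | none => none
      | some ms =>
        match run pm (.ls ms) ((k, 2 * (J * K + J2 * K2)) :: us)
            (.bt k J K :: .bt (k + 2 * (J * K)) J2 K2 :: fr) with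
        | none => none
        | some (us1, fr1) => run pe (.ls (wendE al ah k J K ++ wendE al ah (k + 2 * (J * K)) J2 K2)) us1 fr1
    else none
  | .bwall k J K pm pl pe, .pc al ah bl bh, us, fr =>
    bif wok al k J K && Nat.ble (Thi k J + Thi (k + 2) J) bl then
      match run pm (.mc bl bh k J (K - 1)) ((k, 2 * (J * K)) :: us) (.bt k J K :: fr) with
      | none => none
      | some (us1, fr1) =>
        match run pl (.pc (al - TShi (k + 1) (2 * J) (K - 1)) (ah - TSlo (k + 1) (2 * J) (K - 1))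
            (bl - (Thi (k + 2 * ((K - 1) * J)) J + Thi (k + 2 * ((K - 1) * J) + 2) J))
            (bh - (Tlo (k + 2 * ((K - 1) * J)) J + Tlo (k + 2 * ((K - 1) * J) + 2) J))) us1 fr1 with
        | none => none
        | some (us2, fr2) => run pe (.ls (wendE al ah k J K)) us2 fr2
    else none
  | .skip s p, .mc Hl Hh k J m, us, fr =>
    bif Nat.ble s m then run p (.mc Hl Hh (k + 2 * (s * J)) J (m - s)) us (.mc Hl Hh k J s :: fr) else none
  | .kid p q, .mc Hl Hh k J m, us, fr =>
    bif (Nat.ble 1 m && Nat.ble 1 J) && (Nat.ble 1 k && Nat.ble (Thi k J + Thi (k + 2) J) Hl) then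
      match run p (.pc (ul (k + 1)) (uh (k + 1)) (Hl - (Thi k J + Thi (k + 2) J))
          (Hh - (Tlo k J + Tlo (k + 2) J))) us fr with
      | none => none
      | some (us', fr') => run q (.mc Hl Hh (k + 2 * J) J (m - 1)) us' fr'
    else none
  | .skip s p, .ch wl wh k m, us, fr =>
    bif Nat.ble s m then run p (.ch wl wh (k + 2 * s) (m - s)) us (.ch wl wh k s :: fr) else none
  | .skip s p, .uch wl wh k m, us, fr =>
    bif Nat.ble s m then run p (.uch wl wh (k + 2 * s) (m - s)) us (.uch wl wh k s :: fr) else none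
  | .skip s p, .ls l, us, fr => run p (.ls (l.drop s)) us (.ls (l.take s) :: fr)
  | .kid p q, .ch wl wh k m, us, fr =>
    bif Nat.ble 1 m && (Nat.ble 1 k && Nat.ble (uh (k + 1)) wl) then
      match run p (.pc (wl - uh (k + 1)) (wh - ul (k + 1)) (Ll k) (Lh k)) us fr with
      | none => none
      | some (us', fr') => run q (.ch wl wh (k + 2) (m - 1)) us' fr'
    else none
  | .kid p q, .uch wl wh k m, us, fr =>
    bif Nat.ble 1 m && (Nat.ble 1 k && Nat.ble (Lh k) wl) then
      match run p (.pc (wl - Lh k) (wh - Ll k) (ul (k + 1)) (uh (k + 1))) us fr with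
      | none => none
      | some (us', fr') => run q (.uch wl wh (k + 2) (m - 1)) us' fr'
    else none
  | .kid p q, .ls ((al, ah, bl, bh) :: l), us, fr =>
    match run p (.pc al ah bl bh) us fr with
    | none => none
    | some (us', fr') => run q (.ls l) us' fr'
  | _, _, _, _ => none

/-! ## Semantics -/

/-- the flat slivers -/
noncomputable def slv (w : ℝ) (k m : ℕ) : Multiset (ℝ × ℝ) :=
  (Multiset.range m).map (fun j : ℕ => (w - 1 / ((k : ℝ) + 2 * (j : ℝ) + 1), Lg (k + 2 * j)))

/-- the upright slivers -/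
noncomputable def uslv (w : ℝ) (k m : ℕ) : Multiset (ℝ × ℝ) :=
  (Multiset.range m).map (fun j : ℕ => (w - Lg (k + 2 * j), 1 / ((k : ℝ) + 2 * (j : ℝ) + 1)))

/-- widths of the items of a wall -/
noncomputable def wa (k J : ℕ) (r t : ℕ) : ℝ := 1 / ((itm k J r t : ℝ) + 1)

/-- heights of the items of a wall -/
noncomputable def wb (k J : ℕ) (r t : ℕ) : ℝ := Lg (itm k J r t)

/-- the pieces above the columns -/
noncomputable def mcv (H : ℝ) (k J m : ℕ) : Multiset (ℝ × ℝ) :=
  (Multiset.range m).map (fun j : ℕ => (1 / (((k + 2 * (j * J) : ℕ) : ℝ) + 1),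
    H - (T (k + 2 * (j * J)) J + T (k + 2 * (j * J) + 2) J)))

/-- enclosure of a pair -/
def In4 (e : Q4) (d : ℝ × ℝ) : Prop := In e.1 e.2.1 d.1 ∧ In e.2.2.1 e.2.2.2 d.2

/-- `G` is a realisation of `c`. A chain of slivers is realised by ONE rectangle which is not cut yet: the
dominoes `k, k+2, ...` (`m` of them) are still to be cut off from it. -/
def Rz : Ctx → Multiset (ℝ × ℝ) → Prop
  | .pc al ah bl bh, G => ∃ a b, In al ah a ∧ In bl bh b ∧ G = {(a, b)}
  | .ch wl wh k m, G => ∃ w, In wl wh w ∧ 1 ≤ k ∧ 1 / ((k : ℝ) + 1) ≤ w ∧ G = {(w, T k m + T (k + 2) m)}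
  | .uch wl wh k m, G => ∃ w, In wl wh w ∧ 1 ≤ k ∧ Lg k ≤ w ∧ G = {(w, T (k + 1) m)}
  | .ls l, G => ∃ l' : List (ℝ × ℝ), List.Forall₂ In4 l l' ∧ G = (l' : Multiset (ℝ × ℝ))
  | .mc Hl Hh k J m, G => ∃ H, In Hl Hh H ∧ G = mcv H k J m
  | .bt k J K, G => G = wBits (wa k J) (wb k J) J K

/-- the units which are still to be cut off -/
def owed : Ctx → Multiset ℕ
  | .ch _ _ k m => (List.range' k (2 * m) : Multiset ℕ)
  | .uch _ _ k m => (List.range' k (2 * m) : Multiset ℕ)
  | _ => 0

/-- the same for a list -/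
def owedL : List Ctx → Multiset ℕ
  | [] => 0
  | c :: l => owed c + owedL l

theorem owedL_append (l l' : List Ctx) : owedL (l ++ l') = owedL l + owedL l' := by
  induction l with
  | nil => simp [owedL]
  | cons c l ih => simp [owedL, ih, add_assoc]

/-- the units with index in a multiset -/
noncomputable def unitsM (A : Multiset ℕ) : Multiset (ℝ × ℝ) := A.map U

theorem unitsM_add (A B : Multiset ℕ) : unitsM (A + B) = unitsM A + unitsM B := by simp [unitsM]

theorem unitsM_zero : unitsM 0 = 0 := by simp [unitsM]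

theorem units_eq (l : List ℕ) : units l = unitsM (l : Multiset ℕ) := by simp [units, unitsM]

/-- realisation of a list -/
def RzL : List Ctx → Multiset (ℝ × ℝ) → Prop
  | [], G => G = 0
  | c :: l, G => ∃ G1 G2, Rz c G1 ∧ RzL l G2 ∧ G = G1 + G2

/-- the numbers of a used list -/
def nums : List (ℕ × ℕ) → List ℕ
  | [] => []
  | (k, m) :: l => List.range' k m ++ nums l

theorem nums_append (l l' : List (ℕ × ℕ)) : nums (l ++ l') = nums l ++ nums l' := by
  induction l with
  | nil => rfl
  | cons a l ih => obtain ⟨k, m⟩ := a; simp [nums, ih]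

theorem RzL_append {l l' : List Ctx} {G G' : Multiset (ℝ × ℝ)} (h : RzL l G) (h' : RzL l' G') :
    RzL (l ++ l') (G + G') := by
  induction l generalizing G with
  | nil =>
    simp only [RzL] at h
    subst h
    simpa using h'
  | cons c l ih =>
    obtain ⟨G1, G2, h1, h2, rfl⟩ := h
    exact ⟨G1, G2 + G', h1, ih h2, by abel⟩

theorem slv_zero (w : ℝ) (k : ℕ) : slv w k 0 = 0 := by simp [slv]

theorem slv_add (w : ℝ) (k s t : ℕ) : slv w k (s + t) = slv w k s + slv w (k + 2 * s) t := by
  induction t with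
  | zero => simp [slv]
  | succ t ih =>
    have e : slv w k (s + (t + 1)) = (w - 1 / ((k : ℝ) + 2 * (s + t : ℕ) + 1), Lg (k + 2 * (s + t))) ::ₘ slv w k (s + t) := by
      unfold slv
      rw [← Nat.add_assoc, Multiset.range_succ, Multiset.map_cons]
    have e2 : slv w (k + 2 * s) (t + 1) = (w - 1 / (((k + 2 * s : ℕ) : ℝ) + 2 * t + 1), Lg (k + 2 * s + 2 * t)) ::ₘ slv w (k + 2 * s) t := by
      unfold slv
      rw [Multiset.range_succ, Multiset.map_cons]
    rw [e, e2, ih, Multiset.add_cons]
    congr 2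
    · push_cast; ring
    · congr 1; ring

theorem uslv_add (w : ℝ) (k s t : ℕ) : uslv w k (s + t) = uslv w k s + uslv w (k + 2 * s) t := by
  induction t with
  | zero => simp [uslv]
  | succ t ih =>
    have e : uslv w k (s + (t + 1)) = (w - Lg (k + 2 * (s + t)), 1 / ((k : ℝ) + 2 * (s + t : ℕ) + 1)) ::ₘ uslv w k (s + t) := by
      unfold uslv
      rw [← Nat.add_assoc, Multiset.range_succ, Multiset.map_cons]
    have e2 : uslv w (k + 2 * s) (t + 1) = (w - Lg (k + 2 * s + 2 * t), 1 / (((k + 2 * s : ℕ) : ℝ) + 2 * t + 1)) ::ₘ uslv w (k + 2 * s) t := by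
      unfold uslv
      rw [Multiset.range_succ, Multiset.map_cons]
    rw [e, e2, ih, Multiset.add_cons]
    congr 2
    · congr 2; ring
    · push_cast; ring

theorem slv_one (w : ℝ) (k : ℕ) : slv w k 1 = {(w - 1 / ((k : ℝ) + 1), Lg k)} := by
  simp [slv]

theorem uslv_one (w : ℝ) (k : ℕ) : uslv w k 1 = {(w - Lg k, 1 / ((k : ℝ) + 1))} := by
  simp [uslv]

theorem T_succ (c m : ℕ) : T c (m + 1) = 1 / (c : ℝ) + T (c + 2) m := by
  unfold T
  rw [Finset.sum_range_succ']
  simp only [Nat.cast_zero, mul_zero, add_zero]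
  rw [add_comm]
  congr 1
  refine Finset.sum_congr rfl fun j _ => ?_
  push_cast
  congr 1
  ring

theorem T_nonneg (c m : ℕ) : 0 ≤ T c m := by
  unfold T
  exact Finset.sum_nonneg fun j _ => by positivity

/-- filling with flat dominoes -/
theorem cut_flat (a : ℝ) : ∀ (m k : ℕ) (b : ℝ), 1 ≤ k → 1 / ((k : ℝ) + 1) ≤ a → T k m + T (k + 2) m ≤ b →
    Cut {(a, b)} (units (List.range' k (2 * m)) + (slv a k m + {(a, b - (T k m + T (k + 2) m))})) := by
  intro m
  induction m with
  | zero =>
    intro k b hk ha hb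
    simpa [units, slv, T] using Cut.refl {(a, b)}
  | succ m ih =>
    intro k b hk ha hb
    have hk1 : (1 : ℝ) ≤ k := by exact_mod_cast hk
    have e1 := T_succ k m
    have e2 := T_succ (k + 2) m
    have n1 := T_nonneg (k + 2) m
    have n2 := T_nonneg (k + 2 + 2) m
    have eL : T k (m + 1) + T (k + 2) (m + 1) = Lg k + (T (k + 2) m + T (k + 2 + 2) m) := by
      rw [e1, e2]; unfold Lg; push_cast; ring
    rw [eL] at hb
    have hL := Lg_nonneg k
    -- cut off the first domino column
    have h1 : Cut {(a, b)} ({(a, Lg k)} + {(a, b - Lg k)}) := by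
      have h := Cut.split' (a := Lg k) (b := b - Lg k) (c := a) hL (by linarith)
      rw [show Lg k + (b - Lg k) = b by ring] at h
      exact h
    have h2 : Cut {(a, Lg k)} ({(1 / ((k : ℝ) + 1), Lg k)} + {(a - 1 / ((k : ℝ) + 1), Lg k)}) := by
      have h := Cut.split (a := 1 / ((k : ℝ) + 1)) (b := a - 1 / ((k : ℝ) + 1)) (c := Lg k) (by positivity) (by linarith)
      rw [show 1 / ((k : ℝ) + 1) + (a - 1 / ((k : ℝ) + 1)) = a by ring] at h
      exact h
    have ha' : 1 / (((k + 2 : ℕ) : ℝ) + 1) ≤ a := by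
      refine le_trans ?_ ha
      apply one_div_le_one_div_of_le (by positivity)
      push_cast; linarith
    have h3 := ih (k + 2) (b - Lg k) (by omega) ha' (by linarith)
    have h4 := cut_domino k hk
    have h5 := Cut.add (Cut.add h4 (Cut.refl {(a - 1 / ((k : ℝ) + 1), Lg k)})) h3
    refine h1.trans ((Cut.add h2 (Cut.refl _)).trans (h5.trans (Cut.of_eq ?_)))
    rw [eL, show b - (Lg k + (T (k + 2) m + T (k + 2 + 2) m)) = b - Lg k - (T (k + 2) m + T (k + 2 + 2) m) by ring]
    have e3 : List.range' k (2 * (m + 1)) = [k, k + 1] ++ List.range' (k + 2) (2 * m) := by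
      rw [show 2 * (m + 1) = 2 * m + 1 + 1 by ring, List.range'_succ, List.range'_succ]
      rfl
    rw [e3, units_append, show m + 1 = 1 + m by ring, slv_add, slv_one]
    abel

/-- filling with upright dominoes -/
theorem cut_upright (a : ℝ) : ∀ (m k : ℕ) (b : ℝ), 1 ≤ k → Lg k ≤ a → T (k + 1) m ≤ b →
    Cut {(a, b)} (units (List.range' k (2 * m)) + (uslv a k m + {(a, b - T (k + 1) m)})) := by
  intro m
  induction m with
  | zero =>
    intro k b hk ha hb
    simpa [units, uslv, T] using Cut.refl {(a, b)}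
  | succ m ih =>
    intro k b hk ha hb
    have hk1 : (1 : ℝ) ≤ k := by exact_mod_cast hk
    have e1 := T_succ (k + 1) m
    have n1 := T_nonneg (k + 1 + 2) m
    have eL : T (k + 1) (m + 1) = 1 / ((k : ℝ) + 1) + T (k + 2 + 1) m := by
      rw [e1]; push_cast; rfl
    rw [eL] at hb
    have n2 := T_nonneg (k + 2 + 1) m
    have hL := Lg_nonneg k
    have hu : 0 ≤ 1 / ((k : ℝ) + 1) := by positivity
    have h1 : Cut {(a, b)} ({(a, 1 / ((k : ℝ) + 1))} + {(a, b - 1 / ((k : ℝ) + 1))}) := by
      have h := Cut.split' (a := 1 / ((k : ℝ) + 1)) (b := b - 1 / ((k : ℝ) + 1)) (c := a) hu (by linarith)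
      rw [show 1 / ((k : ℝ) + 1) + (b - 1 / ((k : ℝ) + 1)) = b by ring] at h
      exact h
    have h2 : Cut {(a, 1 / ((k : ℝ) + 1))} ({(1 / ((k : ℝ) + 1), Lg k)} + {(a - Lg k, 1 / ((k : ℝ) + 1))}) := by
      have h := Cut.split (a := Lg k) (b := a - Lg k) (c := 1 / ((k : ℝ) + 1)) hL (by linarith)
      rw [show Lg k + (a - Lg k) = a by ring] at h
      exact h.trans (Cut.add (F := {(Lg k, 1 / ((k : ℝ) + 1))}) (G := {(1 / ((k : ℝ) + 1), Lg k)})
        (F' := {(a - Lg k, 1 / ((k : ℝ) + 1))}) (G' := {(a - Lg k, 1 / ((k : ℝ) + 1))}) (Cut.swap _ _) (Cut.refl _))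
    have ha' : Lg (k + 2) ≤ a := by
      refine le_trans ?_ ha
      unfold Lg
      push_cast
      have g1 : 1 / ((k : ℝ) + 2) ≤ 1 / (k : ℝ) := one_div_le_one_div_of_le (by linarith) (by linarith)
      have g2 : 1 / ((k : ℝ) + 2 + 2) ≤ 1 / ((k : ℝ) + 2) := one_div_le_one_div_of_le (by linarith) (by linarith)
      linarith
    have h3 := ih (k + 2) (b - 1 / ((k : ℝ) + 1)) (by omega) ha' (by linarith)
    have h4 := cut_domino k hk
    have h5 := Cut.add (Cut.add h4 (Cut.refl {(a - Lg k, 1 / ((k : ℝ) + 1))})) h3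
    refine h1.trans ((Cut.add h2 (Cut.refl _)).trans (h5.trans (Cut.of_eq ?_)))
    rw [eL, show b - (1 / ((k : ℝ) + 1) + T (k + 2 + 1) m) = b - 1 / ((k : ℝ) + 1) - T (k + 2 + 1) m by ring]
    have e3 : List.range' k (2 * (m + 1)) = [k, k + 1] ++ List.range' (k + 2) (2 * m) := by
      rw [show 2 * (m + 1) = 2 * m + 1 + 1 by ring, List.range'_succ, List.range'_succ]
      rfl
    rw [e3, units_append, show m + 1 = 1 + m by ring, uslv_add, uslv_one]
    abel

end Pool.Agent.MMS
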