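import Pool.Agent.MP_94f265_co.ST.AP
import Pool.Agent.MP_94f265_co.ST.Plan

/-!
# Certificates: concave sequences are almost arithmetic progressions
-/

namespace Pool.Agent.MMS

open Pool.Agent.MM1

/-- a concave sequence with nonnegative ends is nonnegative -/
theorem conc_nonneg (n : ℕ) (h : ℕ → ℝ) (h0 : 0 ≤ h 0) (hn : 0 ≤ h n)
    (hc : ∀ j, 1 ≤ j → j + 1 ≤ n → h (j + 1) - 2 * h j + h (j - 1) ≤ 0) : ∀ j ≤ n, 0 ≤ h j := by
  -- slopes
  have hA : ∀ j, 1 ≤ j → j ≤ n → (j : ℝ) * (h j - h (j - 1)) ≤ h j - h 0 := by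
    intro j hj
    induction j, hj using Nat.le_induction with
    | base => intro _; simp
    | succ j hj ih =>
      intro hjn
      have h1 := ih (by omega)
      have h2 := hc j hj hjn
      have h3 : (0 : ℝ) ≤ j := Nat.cast_nonneg j
      rw [Nat.add_sub_cancel]
      push_cast
      nlinarith
  have hS : ∀ j, 1 ≤ j → ∀ i, j + i + 1 ≤ n → h (j + i + 1) - h (j + i) ≤ h j - h (j - 1) := by
    intro j hj i
    induction i with
    | zero =>
      intro hjn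
      have := hc j hj (by omega)
      simp only [Nat.add_zero]
      linarith
    | succ i ih =>
      intro hjn
      have h1 := ih (by omega)
      have h2 := hc (j + i + 1) (by omega) (by omega)
      rw [show j + i + 1 - 1 = j + i by omega] at h2
      rw [show j + (i + 1) = j + i + 1 by omega]
      linarith
  have hB : ∀ j, 1 ≤ j → ∀ i, j + i ≤ n → h (j + i) - h j ≤ (i : ℝ) * (h j - h (j - 1)) := by
    intro j hj i
    induction i with
    | zero => intro _; simp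
    | succ i ih =>
      intro hjn
      have h1 := ih (by omega)
      have h2 := hS j hj i (by omega)
      rw [show j + (i + 1) = j + i + 1 by omega]
      push_cast
      linarith
  intro j hj
  by_contra hneg
  push Not at hneg
  have hj1 : 1 ≤ j := by
    rcases Nat.eq_zero_or_pos j with rfl | h'
    · exact absurd h0 (not_le.2 hneg)
    · exact h'
  have h1 := hA j hj1 hj
  have h2 := hB j hj1 (n - j) (by omega)
  rw [show j + (n - j) = n by omega] at h2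
  have hjr : (0 : ℝ) < j := by exact_mod_cast hj1
  have h3 : h j - h (j - 1) < 0 := by
    by_contra h4
    push Not at h4
    have := mul_nonneg hjr.le h4
    linarith
  have h5 : (((n - j : ℕ) : ℝ)) * (h j - h (j - 1)) ≤ 0 :=
    mul_nonpos_of_nonneg_of_nonpos (Nat.cast_nonneg _) h3.le
  linarith

/-- a concave sequence lies above its chord and at most `κ n ^ 2 / 8` above it -/
theorem conc_chord (n : ℕ) (hn : 1 ≤ n) (s : ℕ → ℝ) (κ : ℝ)
    (hc : ∀ j, 1 ≤ j → j + 1 ≤ n → -κ ≤ s (j + 1) - 2 * s j + s (j - 1) ∧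
      s (j + 1) - 2 * s j + s (j - 1) ≤ 0) (j : ℕ) (hj : j ≤ n) (hκ : 0 ≤ κ) :
    s 0 + (s n - s 0) * ((j : ℝ) / n) ≤ s j ∧
      s j ≤ s 0 + (s n - s 0) * ((j : ℝ) / n) + κ * (n : ℝ) ^ 2 / 8 := by
  have hn' : (0 : ℝ) < n := by exact_mod_cast hn
  have cast1 : ∀ j : ℕ, 1 ≤ j → ((j - 1 : ℕ) : ℝ) = (j : ℝ) - 1 := fun j hj => by
    rw [Nat.cast_sub hj]; simp
  constructor
  · have h := conc_nonneg n (fun j => s j - (s 0 + (s n - s 0) * ((j : ℝ) / n))) (by simp)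
      (by
        rw [div_self hn'.ne']
        linarith) (by
        intro j hj hjn
        have h1 := (hc j hj hjn).2
        rw [cast1 j hj]
        push_cast
        have e : s (j + 1) - (s 0 + (s n - s 0) * (((j : ℝ) + 1) / n)) -
            2 * (s j - (s 0 + (s n - s 0) * ((j : ℝ) / n))) +
            (s (j - 1) - (s 0 + (s n - s 0) * (((j : ℝ) - 1) / n))) =
            s (j + 1) - 2 * s j + s (j - 1) := by ring
        rw [e]
        exact h1) j hj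
    linarith
  · have h := conc_nonneg n (fun j => s 0 + (s n - s 0) * ((j : ℝ) / n) + κ * j * (n - j) / 2 - s j)
      (by simp) (by
        rw [div_self hn'.ne']
        ring_nf
        exact le_refl 0) (by
        intro j hj hjn
        have h1 := (hc j hj hjn).1
        rw [cast1 j hj]
        push_cast
        have e : s 0 + (s n - s 0) * (((j : ℝ) + 1) / n) + κ * ((j : ℝ) + 1) * (n - (j + 1)) / 2 - s (j + 1) -
            2 * (s 0 + (s n - s 0) * ((j : ℝ) / n) + κ * j * (n - j) / 2 - s j) +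
            (s 0 + (s n - s 0) * (((j : ℝ) - 1) / n) + κ * ((j : ℝ) - 1) * (n - (j - 1)) / 2 - s (j - 1)) =
            -κ - (s (j + 1) - 2 * s j + s (j - 1)) := by ring
        rw [e]
        linarith) j hj
    have h2 : κ * j * (n - j) / 2 ≤ κ * (n : ℝ) ^ 2 / 8 := by
      have : (j : ℝ) * (n - j) ≤ (n : ℝ) ^ 2 / 4 := by nlinarith [sq_nonneg ((n : ℝ) - 2 * j)]
      nlinarith
    linarith

/-- **The certificate.**  `s 0 ∈ [A0, B0]`, `s n ∈ [A1, B1]`, second differences in `[-κ, 0]`. -/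
theorem cert_real (n : ℕ) (hn : 1 ≤ n) (s : ℕ → ℝ) (κ : ℝ) (hκ : 0 ≤ κ)
    (hc : ∀ j, 1 ≤ j → j + 1 ≤ n → -κ ≤ s (j + 1) - 2 * s j + s (j - 1) ∧
      s (j + 1) - 2 * s j + s (j - 1) ≤ 0)
    (A0 B0 A1 B1 D : ℕ) (h0 : (A0 : ℝ) ≤ s 0 ∧ s 0 ≤ B0) (h1 : (A1 : ℝ) ≤ s n ∧ s n ≤ B1)
    (hA : A0 ≤ A1) (hD : κ * (n : ℝ) ^ 2 / 8 ≤ D) (j : ℕ) (hj : j < n + 1) :
    ((A0 + (A1 - A0) / n * j : ℕ) : ℝ) ≤ s j ∧
      s j ≤ ((A0 + (A1 - A0) / n * j + ((B0 - A0) + (B1 - A1) + n + D) : ℕ) : ℝ) := by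
  have hn' : (0 : ℝ) < n := by exact_mod_cast hn
  have hjn : j ≤ n := by omega
  have hjr : (j : ℝ) ≤ n := by exact_mod_cast hjn
  have hj0 : (0 : ℝ) ≤ j := Nat.cast_nonneg j
  obtain ⟨g1, g2⟩ := conc_chord n hn s κ hc j hjn hκ
  have hB0 : A0 ≤ B0 := by
    have : (A0 : ℝ) ≤ B0 := h0.1.trans h0.2
    exact_mod_cast this
  have hB1 : A1 ≤ B1 := by
    have : (A1 : ℝ) ≤ B1 := h1.1.trans h1.2
    exact_mod_cast this
  set δ := (A1 - A0) / n with hδ
  have q1 : (δ : ℝ) * n ≤ (A1 : ℝ) - A0 := by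
    have := Nat.div_mul_le_self (A1 - A0) n
    have h2 : ((δ * n : ℕ) : ℝ) ≤ ((A1 - A0 : ℕ) : ℝ) := by exact_mod_cast this
    rw [Nat.cast_sub hA] at h2
    push_cast at h2
    exact h2
  have q2 : (A1 : ℝ) - A0 ≤ ((δ : ℝ) + 1) * n := by
    have := Nat.lt_div_mul_add (a := A1 - A0) hn
    have h2 : A1 - A0 ≤ δ * n + n := by
      rw [hδ]
      omega
    have h3 : ((A1 - A0 : ℕ) : ℝ) ≤ ((δ * n + n : ℕ) : ℝ) := by exact_mod_cast h2
    rw [Nat.cast_sub hA] at h3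
    push_cast at h3
    linarith
  set r : ℝ := (j : ℝ) / n with hr
  have hr0 : 0 ≤ r := by rw [hr]; positivity
  have hr1 : r ≤ 1 := by rw [hr, div_le_one hn']; exact hjr
  have hrj : r * n = j := by rw [hr]; field_simp
  push_cast
  rw [Nat.cast_sub hB0, Nat.cast_sub hB1]
  constructor
  · -- `A0 + δ j ≤ A0 + (A1 - A0) r ≤ chord`
    have e1 : (δ : ℝ) * j ≤ ((A1 : ℝ) - A0) * r := by
      rw [← hrj]
      nlinarith
    have e2 : (A0 : ℝ) + ((A1 : ℝ) - A0) * r ≤ s 0 + (s n - s 0) * r := by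
      nlinarith [h0.1, h1.1]
    linarith
  · have e1 : ((A1 : ℝ) - A0) * r ≤ (δ : ℝ) * j + n := by
      have : ((A1 : ℝ) - A0) * r ≤ ((δ : ℝ) + 1) * n * r := mul_le_mul_of_nonneg_right q2 hr0
      have e3 : ((δ : ℝ) + 1) * n * r = (δ : ℝ) * j + j := by
        rw [← hrj]; ring
      linarith
    have e2 : s 0 + (s n - s 0) * r ≤ (A0 : ℝ) + ((A1 : ℝ) - A0) * r + (((B0 : ℝ) - A0) + ((B1 : ℝ) - A1)) := by
      have b0 : (0 : ℝ) ≤ (B0 : ℝ) - A0 := by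
        have : (A0 : ℝ) ≤ B0 := by exact_mod_cast hB0
        linarith
      have b1 : (0 : ℝ) ≤ (B1 : ℝ) - A1 := by
        have : (A1 : ℝ) ≤ B1 := by exact_mod_cast hB1
        linarith
      have c1 : s 0 * (1 - r) ≤ (B0 : ℝ) * (1 - r) := mul_le_mul_of_nonneg_right h0.2 (by linarith)
      have c2 : s n * r ≤ (B1 : ℝ) * r := mul_le_mul_of_nonneg_right h1.2 hr0
      nlinarith
    linarith

/-! ## second differences -/

theorem inv_second (z h k : ℝ) (hk : 0 < k) (hh : 0 ≤ h) (hz : k ≤ z - h) :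
    0 ≤ 1 / (z - h) - 2 * (1 / z) + 1 / (z + h) ∧
      1 / (z - h) - 2 * (1 / z) + 1 / (z + h) ≤ 2 * h ^ 2 / k ^ 3 := by
  have h1 : 0 < z - h := by linarith
  have h2 : 0 < z := by linarith
  have h3 : 0 < z + h := by linarith
  have e : 1 / (z - h) - 2 * (1 / z) + 1 / (z + h) = 2 * h ^ 2 / ((z - h) * z * (z + h)) := by
    field_simp
    ring
  rw [e]
  constructor
  · positivity
  · apply div_le_div_of_nonneg_left (by positivity) (by positivity)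
    calc k ^ 3 = k * k * k := by ring
      _ ≤ (z - h) * z * (z + h) := by
        apply mul_le_mul (mul_le_mul hz (by linarith) hk.le h1.le) (by linarith) hk.le (by positivity)

/-- thickness of the cells of a flat chain -/
theorem ch_second (w : ℝ) (k : ℕ) (hk : 1 ≤ k) (j : ℕ) (hj : 1 ≤ j) :
    -(8 / (k : ℝ) ^ 3) ≤ (w - 1 / (((k + 2 * (j + 1) : ℕ) : ℝ) + 1)) - 2 * (w - 1 / (((k + 2 * j : ℕ) : ℝ) + 1)) +
      (w - 1 / (((k + 2 * (j - 1) : ℕ) : ℝ) + 1)) ∧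
    (w - 1 / (((k + 2 * (j + 1) : ℕ) : ℝ) + 1)) - 2 * (w - 1 / (((k + 2 * j : ℕ) : ℝ) + 1)) +
      (w - 1 / (((k + 2 * (j - 1) : ℕ) : ℝ) + 1)) ≤ 0 := by
  have hk' : (1 : ℝ) ≤ k := by exact_mod_cast hk
  have hj' : (1 : ℝ) ≤ j := by exact_mod_cast hj
  have e : ((j - 1 : ℕ) : ℝ) = (j : ℝ) - 1 := by rw [Nat.cast_sub hj]; simp
  have h := inv_second ((k : ℝ) + 2 * j + 1) 2 k (by linarith) (by norm_num) (by linarith)
  push_cast
  rw [e]
  have e1 : (k : ℝ) + 2 * (j + 1) + 1 = (k : ℝ) + 2 * j + 1 + 2 := by ring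
  have e2 : (k : ℝ) + 2 * ((j : ℝ) - 1) + 1 = (k : ℝ) + 2 * j + 1 - 2 := by ring
  rw [e1, e2]
  have e3 : 2 * (2 : ℝ) ^ 2 / (k : ℝ) ^ 3 = 8 / (k : ℝ) ^ 3 := by norm_num
  rw [e3] at h
  constructor <;> linarith [h.1, h.2]

/-- sums of `1/z` in steps of `2 J` -/
theorem T_second (J k : ℕ) (hk : 1 ≤ k) (j : ℕ) (hj : 1 ≤ j) :
    0 ≤ T (k + 2 * ((j + 1) * J)) J - 2 * T (k + 2 * (j * J)) J + T (k + 2 * ((j - 1) * J)) J ∧
    T (k + 2 * ((j + 1) * J)) J - 2 * T (k + 2 * (j * J)) J + T (k + 2 * ((j - 1) * J)) J ≤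
      (J : ℝ) * (8 * (J : ℝ) ^ 2 / (k : ℝ) ^ 3) := by
  have hk' : (1 : ℝ) ≤ k := by exact_mod_cast hk
  have e : ((j - 1 : ℕ) : ℝ) = (j : ℝ) - 1 := by rw [Nat.cast_sub hj]; simp
  have hj' : (1 : ℝ) ≤ j := by exact_mod_cast hj
  have hJ : (0 : ℝ) ≤ J := Nat.cast_nonneg J
  have h : ∀ i ∈ Finset.range J,
      0 ≤ 1 / (((k + 2 * ((j + 1) * J) : ℕ) : ℝ) + 2 * (i : ℝ)) - 2 * (1 / (((k + 2 * (j * J) : ℕ) : ℝ) + 2 * (i : ℝ))) +
        1 / (((k + 2 * ((j - 1) * J) : ℕ) : ℝ) + 2 * (i : ℝ)) ∧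
      1 / (((k + 2 * ((j + 1) * J) : ℕ) : ℝ) + 2 * (i : ℝ)) - 2 * (1 / (((k + 2 * (j * J) : ℕ) : ℝ) + 2 * (i : ℝ))) +
        1 / (((k + 2 * ((j - 1) * J) : ℕ) : ℝ) + 2 * (i : ℝ)) ≤ 8 * (J : ℝ) ^ 2 / (k : ℝ) ^ 3 := by
    intro i _
    have hi : (0 : ℝ) ≤ i := Nat.cast_nonneg i
    have h := inv_second ((k : ℝ) + 2 * (j * J) + 2 * i) (2 * J) k (by linarith) (by positivity)
      (by nlinarith)
    push_cast
    rw [e]
    have e1 : (k : ℝ) + 2 * (((j : ℝ) + 1) * J) + 2 * i = (k : ℝ) + 2 * (j * J) + 2 * i + 2 * J := by ring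
    have e2 : (k : ℝ) + 2 * (((j : ℝ) - 1) * J) + 2 * i = (k : ℝ) + 2 * (j * J) + 2 * i - 2 * J := by ring
    rw [e1, e2]
    have e3 : 2 * (2 * (J : ℝ)) ^ 2 / (k : ℝ) ^ 3 = 8 * (J : ℝ) ^ 2 / (k : ℝ) ^ 3 := by ring
    rw [e3] at h
    constructor <;> linarith [h.1, h.2]
  have hsum : T (k + 2 * ((j + 1) * J)) J - 2 * T (k + 2 * (j * J)) J + T (k + 2 * ((j - 1) * J)) J =
      ∑ i ∈ Finset.range J, (1 / (((k + 2 * ((j + 1) * J) : ℕ) : ℝ) + 2 * (i : ℝ)) -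
        2 * (1 / (((k + 2 * (j * J) : ℕ) : ℝ) + 2 * (i : ℝ))) +
        1 / (((k + 2 * ((j - 1) * J) : ℕ) : ℝ) + 2 * (i : ℝ))) := by
    unfold T
    rw [Finset.sum_add_distrib, Finset.sum_sub_distrib, Finset.mul_sum]
  rw [hsum]
  constructor
  · exact Finset.sum_nonneg fun i hi => (h i hi).1
  · refine (Finset.sum_le_sum fun i hi => (h i hi).2).trans ?_
    rw [Finset.sum_const, Finset.card_range, nsmul_eq_mul]

end Pool.Agent.MMS
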