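import Pool.Agent.MP_94f265_co.ST.APc
import Pool.Agent.MP_94f265_co.MM2.ServeC
import Pool.Agent.MP_94f265_co.MM2.PsiA

/-!
# Loads and prices of a segment of cells whose thicknesses are almost an arithmetic progression
-/

namespace Pool.Agent.MMS

open Pool.Agent.MM1 hiding Th
open Pool.Agent.MM2

/-- the denominators of the thresholds in the unit `2 ^ σ / SC`; `kap` = last class of a position -/
def cbp (σ : ℕ) (kap : ℕ → ℕ) (p : ℕ) : ℕ := 2 ^ σ * (3 * (5 * kap p - 1) ^ 3)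

theorem CS_SC : CS = 5120 * SC := rfl

theorem SCr_pos : (0 : ℝ) < (SC : ℝ) := SC_pos

theorem cbp_pos (σ : ℕ) {kap : ℕ → ℕ} (h1 : ∀ p, 1 ≤ kap p) (p : ℕ) : 0 < cbp σ kap p := by
  unfold cbp
  have := h1 p
  have h2 : 0 < 5 * kap p - 1 := by omega
  positivity

theorem cbp_mono (σ : ℕ) {kap : ℕ → ℕ} (hm : Monotone kap) : Monotone (cbp σ kap) := by
  intro p q h
  unfold cbp
  have h1 := hm h
  exact Nat.mul_le_mul_left _ (Nat.mul_le_mul_left _ (Nat.pow_le_pow_left (by omega) 3))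

theorem cbp_th (σ : ℕ) {kap : ℕ → ℕ} (h1 : ∀ p, 1 ≤ kap p) (p : ℕ) :
    (CS : ℝ) / (cbp σ kap p : ℝ) = Th (kap p) * ((SC : ℝ) / 2 ^ σ) := by
  have h2 := h1 p
  have h3 : (1 : ℝ) ≤ kap p := by exact_mod_cast h2
  unfold cbp Th
  rw [CS_SC]
  push_cast [show 1 ≤ 5 * kap p by omega]
  have h4 : (5 * (kap p : ℝ) - 1) ≠ 0 := by
    have : 0 < 5 * (kap p : ℝ) - 1 := by linarith
    exact this.ne'
  field_simp

/-- the multiset of the cells `(s j, l j)`, `j < m` -/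
noncomputable def cellsM (s l : ℕ → ℝ) (m : ℕ) : Multiset (ℝ × ℝ) :=
  (((List.range m).map (fun j => (s j, l j)) : List (ℝ × ℝ)) : Multiset (ℝ × ℝ))

theorem cellsM_succ (s l : ℕ → ℝ) (m : ℕ) : cellsM s l (m + 1) = cellsM s l m + {(s m, l m)} := by
  unfold cellsM
  rw [List.range_succ, List.map_append, ← Multiset.coe_add]
  rfl

theorem cellsM_zero (s l : ℕ → ℝ) : cellsM s l 0 = 0 := rfl

theorem mem_cellsM {s l : ℕ → ℝ} {m : ℕ} {c : ℝ × ℝ} : c ∈ cellsM s l m ↔ ∃ j < m, (s j, l j) = c := by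
  unfold cellsM
  rw [Multiset.mem_coe, List.mem_map]
  constructor
  · rintro ⟨j, hj, h⟩
    exact ⟨j, List.mem_range.1 hj, h⟩
  · rintro ⟨j, hj, h⟩
    exact ⟨j, List.mem_range.2 hj, h⟩

theorem lenIn_single (a b : ℝ) (c : ℝ × ℝ) : lenIn a b {c} = if a ≤ c.1 ∧ c.1 < b then c.2 else 0 := by
  classical
  unfold lenIn
  rw [Multiset.filter_singleton]
  split_ifs <;> simp

/-- load of a range of indices -/
theorem lenIn_cellsM {a b : ℝ} {s l : ℕ → ℝ} {v : ℝ} (hv : 0 ≤ v) {U Lo : ℕ} : ∀ (m : ℕ),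
    (∀ j < m, l j ≤ v) → (∀ j < m, a ≤ s j → s j < b → Lo ≤ j ∧ j < U) →
    lenIn a b (cellsM s l m) ≤ (((min m U) - Lo : ℕ) : ℝ) * v := by
  intro m
  induction m with
  | zero =>
    intro _ _
    rw [cellsM_zero, lenIn_zero]
    positivity
  | succ m ih =>
    intro hl h
    have h1 := ih (fun j hj => hl j (by omega)) (fun j hj => h j (by omega))
    rw [cellsM_succ, lenIn_add, lenIn_single]
    split_ifs with h2
    · obtain ⟨h3, h4⟩ := h m (by omega) h2.1 h2.2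
      have h5 : (min (m + 1) U - Lo : ℕ) = (min m U - Lo) + 1 := by omega
      rw [h5]
      push_cast
      have := hl m (by omega)
      linarith
    · have h5 : (((min m U) - Lo : ℕ) : ℝ) ≤ (((min (m + 1) U) - Lo : ℕ) : ℝ) := by
        have : (min m U - Lo : ℕ) ≤ (min (m + 1) U - Lo) := by omega
        exact_mod_cast this
      nlinarith

section

variable {σ : ℕ} {kap : ℕ → ℕ} {G a δ e m pa L : ℕ} {s : ℕ → ℝ}

/-- the scaled thicknesses -/
def ApIn (σ a δ e m : ℕ) (s : ℕ → ℝ) : Prop := ∀ j < m,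
  ((a + δ * j : ℕ) : ℝ) ≤ s j * ((SC : ℝ) / 2 ^ σ) ∧ s j * ((SC : ℝ) / 2 ^ σ) ≤ ((a + δ * j + e : ℕ) : ℝ)

theorem un_pos (σ : ℕ) : 0 < (SC : ℝ) / 2 ^ σ := by
  have := SCr_pos
  positivity

/-- **Load of one position.** -/
theorem ap_load (h : ApOK (cbp σ kap) G a δ e m pa L) (hm : Monotone kap) (h1 : ∀ p, 1 ≤ kap p)
    (hs : ApIn σ a δ e m s) {l : ℕ → ℝ} {v : ℝ} (hv : 0 ≤ v) (hl : ∀ j < m, l j ≤ v) {p : ℕ} (hp : 1 ≤ p) :
    lenIn (Th (kap p)) (Th (kap (p - 1))) (cellsM s l m) ≤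
      (if pa ≤ p ∧ p ≤ pa + L then
        ((apU (cbp σ kap) a δ m pa (p - pa) - apL (cbp σ kap) a δ e pa L (p - pa) : ℕ) : ℝ) else 0) * v := by
  have hc := h.count (cbp_mono σ hm) (cbp_pos σ h1) (s := fun j => s j * ((SC : ℝ) / 2 ^ σ)) hs hp
  have hu := un_pos σ
  have hc' : ∀ j < m, Th (kap p) ≤ s j → s j < Th (kap (p - 1)) → pa ≤ p ∧ p ≤ pa + L ∧
      apL (cbp σ kap) a δ e pa L (p - pa) ≤ j ∧ j < apU (cbp σ kap) a δ m pa (p - pa) := by
    intro j hj a1 a2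
    apply hc j hj
    · rw [cbp_th σ h1]
      exact mul_le_mul_of_nonneg_right a1 hu.le
    · rw [cbp_th σ h1]
      exact mul_lt_mul_of_pos_right a2 hu
  split_ifs with hpp
  · have := lenIn_cellsM (a := Th (kap p)) (b := Th (kap (p - 1))) (s := s) (l := l) hv
      (U := apU (cbp σ kap) a δ m pa (p - pa)) (Lo := apL (cbp σ kap) a δ e pa L (p - pa)) m hl
      (fun j hj a1 a2 => (hc' j hj a1 a2).2.2)
    refine this.trans (mul_le_mul_of_nonneg_right ?_ hv)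
    have h5 : (min m (apU (cbp σ kap) a δ m pa (p - pa)) - apL (cbp σ kap) a δ e pa L (p - pa) : ℕ) ≤
      (apU (cbp σ kap) a δ m pa (p - pa) - apL (cbp σ kap) a δ e pa L (p - pa) : ℕ) := by omega
    exact_mod_cast h5
  · rw [zero_mul]
    apply le_of_eq
    apply lenIn_eq_zero
    intro c hc0 ⟨a1, a2⟩
    obtain ⟨j, hj, rfl⟩ := mem_cellsM.1 hc0
    exact hpp ⟨(hc' j hj a1 a2).1, (hc' j hj a1 a2).2.1⟩

/-- the classes of the cells -/
theorem ap_kc (h : ApOK (cbp σ kap) G a δ e m pa L) (_hm : Monotone kap) (h1 : ∀ p, 1 ≤ kap p)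
    (hs : ApIn σ a δ e m s) (j : ℕ) (hj : j < m) :
    0 < s j ∧ Th (kap (pa + L)) ≤ s j ∧ s j < Th (kap (pa - 1)) ∧
      kap (pa - 1) + 1 ≤ kc (s j) ∧ kc (s j) ≤ kap (pa + L) := by
  have hu := un_pos σ
  obtain ⟨s1, s2⟩ := hs j hj
  have e1 : Th (kap (pa + L)) ≤ s j := by
    have c1 := h.c1
    have hc := cbp_pos σ h1 (pa + L)
    have c1' : (CS : ℝ) / (cbp σ kap (pa + L) : ℝ) ≤ (a : ℝ) := by
      rw [div_le_iff₀ (by exact_mod_cast hc)]
      have : CS ≤ a * cbp σ kap (pa + L) := by rw [Nat.mul_comm]; exact c1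
      exact_mod_cast this
    rw [cbp_th σ h1] at c1'
    have c2 : ((a : ℕ) : ℝ) ≤ ((a + δ * j : ℕ) : ℝ) := by exact_mod_cast Nat.le_add_right _ _
    exact le_of_mul_le_mul_right (c1'.trans (c2.trans s1)) hu
  have e2 : s j < Th (kap (pa - 1)) := by
    have c4 := h.c4
    have hc := cbp_pos σ h1 (pa - 1)
    have hjm : a + δ * j ≤ a + δ * (m - 1) := by
      have : δ * j ≤ δ * (m - 1) := Nat.mul_le_mul_left _ (by omega)
      omega
    have c4' : ((a + δ * j + e : ℕ) : ℝ) < (CS : ℝ) / (cbp σ kap (pa - 1) : ℝ) := by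
      rw [lt_div_iff₀ (by exact_mod_cast hc)]
      have : (a + δ * j + e) * cbp σ kap (pa - 1) < CS := by
        refine lt_of_le_of_lt ?_ c4
        rw [Nat.mul_comm]
        exact Nat.mul_le_mul_left _ (by omega)
      exact_mod_cast this
    rw [cbp_th σ h1] at c4'
    exact lt_of_mul_lt_mul_right (s2.trans_lt c4') hu.le
  have e0 : 0 < s j := lt_of_lt_of_le (Th_pos (h1 _)) e1
  have h2 := h1 (pa - 1)
  exact ⟨e0, e1, e2, kc_ge (by omega) e0 (by rwa [Nat.add_sub_cancel]), kc_le (h1 _) e1⟩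

/-! ## prices -/

/-- `Th (K - 1) ≤ (10019 / 10000) Th K` for `K ≥ 1600` -/
theorem Th_ratio' {K : ℕ} (hK : 1600 ≤ K) : Th (K - 1) ≤ (10019 / 10000) * Th K := by
  have h1 : (1600 : ℝ) ≤ K := by exact_mod_cast hK
  have e : ((K - 1 : ℕ) : ℝ) = (K : ℝ) - 1 := by rw [Nat.cast_sub (by omega)]; simp
  unfold Th
  rw [e]
  have h2 : 0 < 5 * ((K : ℝ) - 1) - 1 := by linarith
  have h3 : 0 < 5 * (K : ℝ) - 1 := by linarith
  rw [div_le_iff₀ (by positivity)]
  have h4 : (5 * (K : ℝ) - 1) ≤ (10006256 / 10000000) * (5 * ((K : ℝ) - 1) - 1) := by linarith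
  have h5 : (5 * (K : ℝ) - 1) ^ 3 ≤ ((10006256 / 10000000) * (5 * ((K : ℝ) - 1) - 1)) ^ 3 :=
    pow_le_pow_left₀ h3.le h4 3
  have h6 : ((10006256 / 10000000) * (5 * ((K : ℝ) - 1) - 1)) ^ 3 ≤
      (10019 / 10000) * (5 * ((K : ℝ) - 1) - 1) ^ 3 := by
    rw [mul_pow]
    apply mul_le_mul_of_nonneg_right _ (by positivity)
    norm_num
  have h7 := h5.trans h6
  have h8 : 10019 / 10000 * (5120 / (3 * (5 * (K : ℝ) - 1) ^ 3)) * (3 * (5 * ((K : ℝ) - 1) - 1) ^ 3) =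
      5120 * ((10019 / 10000) * (5 * ((K : ℝ) - 1) - 1) ^ 3) / (5 * (K : ℝ) - 1) ^ 3 := by
    field_simp
  rw [h8, le_div_iff₀ (by positivity)]
  linarith

/-- price of one cell -/
theorem price_cell {t : ℝ} (ht : 0 < t) (hK : 1600 ≤ kc t) : Th (kc t - 1) ≤ (10019 / 10000) * t :=
  (Th_ratio' hK).trans (mul_le_mul_of_nonneg_left (kc_spec ht).2 (by norm_num))

/-- convexity of the thresholds -/
theorem inv3_conv {x d : ℝ} (hx : 0 < x) (hd : 0 ≤ d) {t : ℝ} (h0 : 0 ≤ t) (h1 : t ≤ d) :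
    1 / (x + t) ^ 3 + 1 / (x + d - t) ^ 3 ≤ 1 / x ^ 3 + 1 / (x + d) ^ 3 := by
  have hconv : ConvexOn ℝ (Set.Ioi (0 : ℝ)) (fun x : ℝ => x ^ (-3 : ℤ)) := by
    exact convexOn_zpow (𝕜 := ℝ) (-3)
  rcases eq_or_lt_of_le hd with rfl | hd'
  · have : t = 0 := le_antisymm h1 h0
    subst this
    simp
  have g0 : (0 : ℝ) ≤ (d - t) / d := div_nonneg (by linarith) hd
  have g1 : (0 : ℝ) ≤ t / d := div_nonneg h0 hd
  have g2 : (d - t) / d + t / d = 1 := by field_simp; ring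
  have g3 : x ∈ Set.Ioi (0 : ℝ) := hx
  have g4 : x + d ∈ Set.Ioi (0 : ℝ) := by show 0 < x + d; linarith
  have a1 := hconv.2 g3 g4 g0 g1 g2
  have a2 := hconv.2 g3 g4 g1 g0 (by rw [add_comm]; exact g2)
  simp only [smul_eq_mul] at a1 a2
  have e1 : (d - t) / d * x + t / d * (x + d) = x + t := by field_simp; ring
  have e2 : t / d * x + (d - t) / d * (x + d) = x + d - t := by field_simp; ring
  rw [e1] at a1
  rw [e2] at a2
  have e3 : ∀ y : ℝ, y ^ (-3 : ℤ) = 1 / y ^ 3 := by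
    intro y
    rw [zpow_neg, one_div]
    norm_cast
  rw [e3, e3, e3] at a1 a2
  have e4 : (d - t) / d * (1 / x ^ 3) + t / d * (1 / (x + d) ^ 3) +
      (t / d * (1 / x ^ 3) + (d - t) / d * (1 / (x + d) ^ 3)) = 1 / x ^ 3 + 1 / (x + d) ^ 3 := by
    have : (d - t) / d + t / d = 1 := by field_simp; ring
    calc _ = ((d - t) / d + t / d) * (1 / x ^ 3) + ((d - t) / d + t / d) * (1 / (x + d) ^ 3) := by ring
      _ = _ := by rw [this]; ring
  linarith

/-- sum of the prices of `n` consecutive classes -/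
theorem Th_sum_le {A : ℕ} (hA : 1 ≤ A) (n : ℕ) (hn : 1 ≤ n) :
    ∑ i ∈ Finset.range n, Th (A + i) ≤ (n : ℝ) * ((Th A + Th (A + n - 1)) / 2) := by
  have h1 : ∑ i ∈ Finset.range n, Th (A + (n - 1 - i)) = ∑ i ∈ Finset.range n, Th (A + i) :=
    Finset.sum_range_reflect (fun i => Th (A + i)) n
  have hA' : (1 : ℝ) ≤ A := by exact_mod_cast hA
  have hn' : (1 : ℝ) ≤ n := by exact_mod_cast hn
  have h2 : ∀ i ∈ Finset.range n, Th (A + i) + Th (A + (n - 1 - i)) ≤ Th A + Th (A + n - 1) := by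
    intro i hi
    have hi' : i < n := Finset.mem_range.1 hi
    have e1 : ((A + (n - 1 - i) : ℕ) : ℝ) = (A : ℝ) + (n - 1 - i) := by
      push_cast
      rw [Nat.cast_sub (by omega), Nat.cast_sub (by omega)]
      push_cast
      ring
    have e2 : ((A + n - 1 : ℕ) : ℝ) = (A : ℝ) + n - 1 := by
      rw [Nat.cast_sub (by omega)]
      push_cast
      ring
    have hir : (i : ℝ) + 1 ≤ n := by exact_mod_cast hi'
    have hi0 : (0 : ℝ) ≤ i := Nat.cast_nonneg i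
    have h3 := inv3_conv (x := 5 * (A : ℝ) - 1) (d := 5 * ((n : ℝ) - 1)) (by linarith) (by linarith)
      (t := 5 * (i : ℝ)) (by linarith) (by linarith)
    unfold Th
    rw [e1, e2]
    push_cast
    have f1 : 5 * ((A : ℝ) + i) - 1 = 5 * (A : ℝ) - 1 + 5 * i := by ring
    have f2 : 5 * ((A : ℝ) + (n - 1 - i)) - 1 = 5 * (A : ℝ) - 1 + 5 * (n - 1) - 5 * i := by ring
    have f3 : 5 * ((A : ℝ) + n - 1) - 1 = 5 * (A : ℝ) - 1 + 5 * (n - 1) := by ring
    rw [f1, f2, f3]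
    have g : ∀ y : ℝ, 5120 / (3 * y ^ 3) = (5120 / 3) * (1 / y ^ 3) := by
      intro y
      rw [div_mul_div_comm, mul_one]
    rw [g, g, g, g]
    linarith
  have h3 := Finset.sum_le_sum h2
  rw [Finset.sum_add_distrib, h1, Finset.sum_const, Finset.card_range, nsmul_eq_mul] at h3
  linarith

/-- the sum of the thicknesses -/
theorem ap_sum (hs : ApIn σ a δ e m s) : (∑ j ∈ Finset.range m, s j) * ((SC : ℝ) / 2 ^ σ) ≤
    ((m * (2 * a + δ * (m - 1) + 2 * e) : ℕ) : ℝ) / 2 := by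
  rw [Finset.sum_mul]
  have h1 : ∀ j ∈ Finset.range m, s j * ((SC : ℝ) / 2 ^ σ) ≤ ((a + δ * j + e : ℕ) : ℝ) :=
    fun j hj => (hs j (Finset.mem_range.1 hj)).2
  refine (Finset.sum_le_sum h1).trans ?_
  have h2 : ∀ m : ℕ, (∑ j ∈ Finset.range m, ((a + δ * j + e : ℕ) : ℝ)) =
      (m : ℝ) * (2 * a + δ * ((m : ℝ) - 1) + 2 * e) / 2 := by
    intro m
    induction m with
    | zero => simp
    | succ m ih =>
      rw [Finset.sum_range_succ, ih]
      push_cast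
      ring
  rw [h2]
  rcases Nat.eq_zero_or_pos m with rfl | hm
  · simp
  · push_cast [hm]
    exact le_refl _

/-- prices of the classes of the cells, one by one -/
theorem ap_W0_cells (h : ApOK (cbp σ kap) G a δ e m pa L) (hm : Monotone kap) (h1 : ∀ p, 1 ≤ kap p)
    (hk : 1599 ≤ kap (pa - 1)) (hs : ApIn σ a δ e m s) :
    (∑ j ∈ Finset.range m, Th (kc (s j) - 1)) * ((SC : ℝ) / 2 ^ σ) ≤
      (10019 / 10000) * (((m * (2 * a + δ * (m - 1) + 2 * e) : ℕ) : ℝ) / 2) := by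
  have h2 : ∑ j ∈ Finset.range m, Th (kc (s j) - 1) ≤ ∑ j ∈ Finset.range m, (10019 / 10000) * s j := by
    apply Finset.sum_le_sum
    intro j hj
    obtain ⟨k0, _, _, k3, _⟩ := ap_kc h hm h1 hs j (Finset.mem_range.1 hj)
    exact price_cell k0 (by omega)
  have hu := un_pos σ
  calc (∑ j ∈ Finset.range m, Th (kc (s j) - 1)) * ((SC : ℝ) / 2 ^ σ)
      ≤ (∑ j ∈ Finset.range m, (10019 / 10000) * s j) * ((SC : ℝ) / 2 ^ σ) :=
        mul_le_mul_of_nonneg_right h2 hu.le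
    _ = (10019 / 10000) * ((∑ j ∈ Finset.range m, s j) * ((SC : ℝ) / 2 ^ σ)) := by
        rw [← Finset.mul_sum]; ring
    _ ≤ _ := mul_le_mul_of_nonneg_left (ap_sum hs) (by norm_num)

/-- prices of the touched classes, by their number -/
theorem ap_W0_classes (h : ApOK (cbp σ kap) G a δ e m pa L) (hm : Monotone kap) (h1 : ∀ p, 1 ≤ kap p)
    (hk : 1599 ≤ kap (pa - 1)) (hs : ApIn σ a δ e m s) {S : Finset ℕ}
    (hS : ∀ K ∈ S, ∃ j < m, kc (s j) = K) :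
    (∑ K ∈ S, Th (K - 1)) * ((SC : ℝ) / 2 ^ σ) ≤
      (10019 / 10000) * ((((kap (pa + L) - kap (pa - 1)) *
        (thN (cbp σ kap) (pa - 1) + (a + e)) : ℕ) : ℝ) / 2) := by
  have hu := un_pos σ
  have hm0 := h.m0
  set A := kap (pa - 1) with hA
  set B := kap (pa + L) with hB
  obtain ⟨k0, k1, k2, k3, k4⟩ := ap_kc h hm h1 hs 0 (by omega)
  have hAB : A < B := by omega
  have hsub : S ⊆ (Finset.range (B - A)).image (fun i => A + i + 1) := by
    intro K hK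
    obtain ⟨j, hj, rfl⟩ := hS K hK
    obtain ⟨_, _, _, q3, q4⟩ := ap_kc h hm h1 hs j hj
    exact Finset.mem_image.2 ⟨kc (s j) - A - 1, Finset.mem_range.2 (by omega), by omega⟩
  have h2 : ∑ K ∈ S, Th (K - 1) ≤ ∑ K ∈ (Finset.range (B - A)).image (fun i => A + i + 1), Th (K - 1) := by
    apply Finset.sum_le_sum_of_subset_of_nonneg hsub
    intro K hK _
    obtain ⟨i, _, rfl⟩ := Finset.mem_image.1 hK
    exact (Th_pos (by omega)).le
  rw [Finset.sum_image (by intro x _ y _ hxy; simpa using hxy)] at h2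
  have h3 : ∑ i ∈ Finset.range (B - A), Th (A + i + 1 - 1) = ∑ i ∈ Finset.range (B - A), Th (A + i) := by
    apply Finset.sum_congr rfl
    intro i _
    rw [Nat.add_sub_cancel]
  rw [h3] at h2
  have h4 := Th_sum_le (A := A) (by omega) (B - A) (by omega)
  have h5 : A + (B - A) - 1 = B - 1 := by omega
  rw [h5] at h4
  have h6 : Th (B - 1) ≤ (10019 / 10000) * s 0 := by
    refine (Th_ratio' (by omega)).trans (mul_le_mul_of_nonneg_left k1 (by norm_num))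
  have h7 : Th A * ((SC : ℝ) / 2 ^ σ) ≤ (thN (cbp σ kap) (pa - 1) : ℝ) := by
    rw [hA, ← cbp_th σ h1]
    exact thN_ge (cbp_pos σ h1 _)
  have h8 : s 0 * ((SC : ℝ) / 2 ^ σ) ≤ ((a : ℝ) + e) := by
    have := (hs 0 (by omega)).2
    push_cast at this
    linarith
  have hn : (0 : ℝ) ≤ ((B - A : ℕ) : ℝ) := Nat.cast_nonneg _
  have hTA : 0 ≤ Th A := (Th_pos (by omega)).le
  calc (∑ K ∈ S, Th (K - 1)) * ((SC : ℝ) / 2 ^ σ)
      ≤ ((((B - A : ℕ) : ℝ)) * ((Th A + Th (B - 1)) / 2)) * ((SC : ℝ) / 2 ^ σ) :=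
        mul_le_mul_of_nonneg_right (h2.trans h4) hu.le
    _ ≤ ((((B - A : ℕ) : ℝ)) * (((10019 / 10000) * Th A + (10019 / 10000) * s 0) / 2)) * ((SC : ℝ) / 2 ^ σ) := by
        apply mul_le_mul_of_nonneg_right _ hu.le
        apply mul_le_mul_of_nonneg_left _ hn
        linarith
    _ = (10019 / 10000) * ((((B - A : ℕ) : ℝ)) * ((Th A * ((SC : ℝ) / 2 ^ σ) + s 0 * ((SC : ℝ) / 2 ^ σ)) / 2)) := by
        ring
    _ ≤ (10019 / 10000) * ((((B - A : ℕ) : ℝ)) * (((thN (cbp σ kap) (pa - 1) : ℝ) + ((a : ℝ) + e)) / 2)) := by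
        apply mul_le_mul_of_nonneg_left _ (by norm_num)
        apply mul_le_mul_of_nonneg_left _ hn
        linarith
    _ = _ := by
        push_cast
        ring

/-- prices of the cells -/
theorem ap_M1 (h : ApOK (cbp σ kap) G a δ e m pa L) (hm : Monotone kap) (h1 : ∀ p, 1 ≤ kap p)
    (hk : 1599 ≤ kap (pa - 1)) (hs : ApIn σ a δ e m s) :
    (∑ j ∈ Finset.range m, (52 / (kc (s j) : ℝ)) * Th (kc (s j) - 1)) * ((SC : ℝ) / 2 ^ σ) ≤
      (10019 / 10000) * (52 * (((m * (2 * a + δ * (m - 1) + 2 * e) : ℕ) : ℝ) / 2) /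
        ((kap (pa - 1) + 1 : ℕ) : ℝ)) := by
  have hA : (0 : ℝ) < ((kap (pa - 1) + 1 : ℕ) : ℝ) := by positivity
  have h2 : ∑ j ∈ Finset.range m, (52 / (kc (s j) : ℝ)) * Th (kc (s j) - 1) ≤
      ∑ j ∈ Finset.range m, (52 / ((kap (pa - 1) + 1 : ℕ) : ℝ)) * Th (kc (s j) - 1) := by
    apply Finset.sum_le_sum
    intro j hj
    obtain ⟨k0, _, _, k3, _⟩ := ap_kc h hm h1 hs j (Finset.mem_range.1 hj)
    have h3 : ((kap (pa - 1) + 1 : ℕ) : ℝ) ≤ (kc (s j) : ℝ) := by exact_mod_cast k3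
    apply mul_le_mul_of_nonneg_right _ (Th_pos (by omega)).le
    exact div_le_div_of_nonneg_left (by norm_num) hA h3
  rw [← Finset.mul_sum] at h2
  have hu := un_pos σ
  have h3 := ap_W0_cells h hm h1 hk hs
  calc (∑ j ∈ Finset.range m, (52 / (kc (s j) : ℝ)) * Th (kc (s j) - 1)) * ((SC : ℝ) / 2 ^ σ)
      ≤ ((52 / ((kap (pa - 1) + 1 : ℕ) : ℝ)) * ∑ j ∈ Finset.range m, Th (kc (s j) - 1)) * ((SC : ℝ) / 2 ^ σ) :=
        mul_le_mul_of_nonneg_right h2 hu.le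
    _ = (52 / ((kap (pa - 1) + 1 : ℕ) : ℝ)) * ((∑ j ∈ Finset.range m, Th (kc (s j) - 1)) * ((SC : ℝ) / 2 ^ σ)) := by
        ring
    _ ≤ (52 / ((kap (pa - 1) + 1 : ℕ) : ℝ)) *
        ((10019 / 10000) * (((m * (2 * a + δ * (m - 1) + 2 * e) : ℕ) : ℝ) / 2)) :=
        mul_le_mul_of_nonneg_left h3 (by positivity)
    _ = _ := by ring

/-- prices of the touched classes, by their number, bound by the ends -/
theorem ap_W0_ends (h : ApOK (cbp σ kap) G a δ e m pa L) (hm : Monotone kap) (h1 : ∀ p, 1 ≤ kap p)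
    (hk : 1599 ≤ kap (pa - 1)) (hk1 : kap pa = kap (pa - 1) + 1) (hs : ApIn σ a δ e m s) {S : Finset ℕ}
    (hS : ∀ K ∈ S, ∃ j < m, kc (s j) = K) :
    (∑ K ∈ S, Th (K - 1)) * ((SC : ℝ) / 2 ^ σ) ≤
      (10019 / 10000) * ((((kap (pa + L) - kap (pa - 1)) *
        ((a + e) + (a + δ * (m - 1) + e)) : ℕ) : ℝ) / 2) := by
  have hu := un_pos σ
  have hm0 := h.m0
  set A := kap (pa - 1) with hA
  set B := kap (pa + L) with hB
  obtain ⟨k0, k1, k2, k3, k4⟩ := ap_kc h hm h1 hs 0 (by omega)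
  have hAB : A < B := by omega
  have hsub : S ⊆ (Finset.range (B - A)).image (fun i => A + i + 1) := by
    intro K hK
    obtain ⟨j, hj, rfl⟩ := hS K hK
    obtain ⟨_, _, _, q3, q4⟩ := ap_kc h hm h1 hs j hj
    exact Finset.mem_image.2 ⟨kc (s j) - A - 1, Finset.mem_range.2 (by omega), by omega⟩
  have h2 : ∑ K ∈ S, Th (K - 1) ≤ ∑ K ∈ (Finset.range (B - A)).image (fun i => A + i + 1), Th (K - 1) := by
    apply Finset.sum_le_sum_of_subset_of_nonneg hsub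
    intro K hK _
    obtain ⟨i, _, rfl⟩ := Finset.mem_image.1 hK
    exact (Th_pos (by omega)).le
  rw [Finset.sum_image (by intro x _ y _ hxy; simpa using hxy)] at h2
  have h3 : ∑ i ∈ Finset.range (B - A), Th (A + i + 1 - 1) = ∑ i ∈ Finset.range (B - A), Th (A + i) := by
    apply Finset.sum_congr rfl
    intro i _
    rw [Nat.add_sub_cancel]
  rw [h3] at h2
  have h4 := Th_sum_le (A := A) (by omega) (B - A) (by omega)
  have h5 : A + (B - A) - 1 = B - 1 := by omega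
  rw [h5] at h4
  have h6 : Th (B - 1) ≤ (10019 / 10000) * s 0 := by
    refine (Th_ratio' (by omega)).trans (mul_le_mul_of_nonneg_left k1 (by norm_num))
  have h6' : Th (B - 1) * ((SC : ℝ) / 2 ^ σ) ≤ (10019 / 10000) * ((a : ℝ) + e) := by
    have h8 := (hs 0 (by omega)).2
    push_cast at h8
    have h9 := mul_le_mul_of_nonneg_right h6 hu.le
    nlinarith
  have h7 : Th A * ((SC : ℝ) / 2 ^ σ) ≤ (10019 / 10000) * ((a : ℝ) + δ * ((m : ℝ) - 1) + e) := by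
    have c3 := h.c3
    have hc := cbp_pos σ h1 pa
    have c3' : (CS : ℝ) / (cbp σ kap pa : ℝ) ≤ ((a + δ * (m - 1) : ℕ) : ℝ) := by
      rw [div_le_iff₀ (by exact_mod_cast hc)]
      have : CS ≤ (a + δ * (m - 1)) * cbp σ kap pa := by rw [Nat.mul_comm]; exact c3
      exact_mod_cast this
    rw [cbp_th σ h1, hk1] at c3'
    have h8 := Th_ratio' (K := A + 1) (by omega)
    rw [Nat.add_sub_cancel] at h8
    have h9 := mul_le_mul_of_nonneg_right h8 hu.le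
    have e0 : (0 : ℝ) ≤ e := Nat.cast_nonneg e
    push_cast [hm0] at c3'
    have h10 : (10019 / 10000 : ℝ) * Th (A + 1) * ((SC : ℝ) / 2 ^ σ) ≤ (10019 / 10000) * ((a : ℝ) + δ * ((m : ℝ) - 1)) := by
      rw [mul_assoc]
      exact mul_le_mul_of_nonneg_left c3' (by norm_num)
    nlinarith
  have hn : (0 : ℝ) ≤ ((B - A : ℕ) : ℝ) := Nat.cast_nonneg _
  calc (∑ K ∈ S, Th (K - 1)) * ((SC : ℝ) / 2 ^ σ)
      ≤ ((((B - A : ℕ) : ℝ)) * ((Th A + Th (B - 1)) / 2)) * ((SC : ℝ) / 2 ^ σ) :=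
        mul_le_mul_of_nonneg_right (h2.trans h4) hu.le
    _ = (((B - A : ℕ) : ℝ)) * ((Th A * ((SC : ℝ) / 2 ^ σ) + Th (B - 1) * ((SC : ℝ) / 2 ^ σ)) / 2) := by ring
    _ ≤ (((B - A : ℕ) : ℝ)) * (((10019 / 10000) * ((a : ℝ) + δ * ((m : ℝ) - 1) + e) +
          (10019 / 10000) * ((a : ℝ) + e)) / 2) := by
        apply mul_le_mul_of_nonneg_left _ hn
        linarith
    _ = _ := by
        push_cast [hm0]
        ring

end

end Pool.Agent.MMS
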