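import Pool.Agent.MP_94f265_co.ST.ApS
import Pool.Agent.MP_94f265_co.ST.Glue

/-!
# Certificates from enclosures: flat chains, upright chains, pieces above the columns of a wall
-/

namespace Pool.Agent.MMS

open Pool.Agent.MM1 hiding Th
open Pool.Agent.MM2

theorem div_add_div_le (x y d : ℕ) (hd : 0 < d) : (x + y) / d ≤ x / d + (y / d + 1) := by
  rw [Nat.div_le_iff_le_mul_add_pred hd]
  have h1 := Nat.div_add_mod x d
  have h2 := Nat.div_add_mod y d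
  have h3 := Nat.mod_lt x hd
  have h4 := Nat.mod_lt y hd
  have h5 : d * (x / d + (y / d + 1)) = d * (x / d) + d * (y / d) + d := by ring
  omega

/-- from an enclosure of `s * SC` to the unit `2 ^ σ / SC` -/
theorem scale_in {σ x y : ℕ} {s : ℝ} (h : (x : ℝ) ≤ s * SC ∧ s * SC ≤ ((x + y : ℕ) : ℝ)) :
    ((x / 2 ^ σ : ℕ) : ℝ) ≤ s * ((SC : ℝ) / 2 ^ σ) ∧
      s * ((SC : ℝ) / 2 ^ σ) ≤ ((x / 2 ^ σ + (y / 2 ^ σ + 2) : ℕ) : ℝ) := by
  have hp : (0 : ℝ) < 2 ^ σ := by positivity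
  have hp' : 0 < 2 ^ σ := by positivity
  have e : s * ((SC : ℝ) / 2 ^ σ) = s * SC / 2 ^ σ := by ring
  rw [e]
  constructor
  · rw [le_div_iff₀ hp]
    refine le_trans ?_ h.1
    have := Nat.div_mul_le_self x (2 ^ σ)
    exact_mod_cast this
  · rw [div_le_iff₀ hp]
    refine h.2.trans ?_
    have h1 := div_add_div_le x y (2 ^ σ) hp'
    have h2 := Nat.lt_div_mul_add (a := x + y) hp'
    have h3 : x + y ≤ (x / 2 ^ σ + (y / 2 ^ σ + 2)) * 2 ^ σ := by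
      have h4 : (x + y) / 2 ^ σ * 2 ^ σ ≤ (x / 2 ^ σ + (y / 2 ^ σ + 1)) * 2 ^ σ := Nat.mul_le_mul_right _ h1
      have h5 : (x / 2 ^ σ + (y / 2 ^ σ + 2)) * 2 ^ σ = (x / 2 ^ σ + (y / 2 ^ σ + 1)) * 2 ^ σ + 2 ^ σ := by ring
      omega
    exact_mod_cast h3

/-- **The certificate.** -/
theorem cert_cells {σ n : ℕ} (hn : 1 ≤ n) {s : ℕ → ℝ} {κ : ℝ} (hκ : 0 ≤ κ)
    (hc : ∀ j, 1 ≤ j → j + 1 ≤ n → -κ ≤ s (j + 1) - 2 * s j + s (j - 1) ∧
      s (j + 1) - 2 * s j + s (j - 1) ≤ 0)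
    {x0 x1 y D : ℕ} (h0 : (x0 : ℝ) ≤ s 0 * SC ∧ s 0 * SC ≤ ((x0 + y : ℕ) : ℝ))
    (h1 : (x1 : ℝ) ≤ s n * SC ∧ s n * SC ≤ ((x1 + y : ℕ) : ℝ)) (hA : x0 / 2 ^ σ ≤ x1 / 2 ^ σ)
    (hD : κ * ((SC : ℝ) / 2 ^ σ) * (n : ℝ) ^ 2 / 8 ≤ D) :
    ApIn σ (x0 / 2 ^ σ) ((x1 / 2 ^ σ - x0 / 2 ^ σ) / n) (2 * (y / 2 ^ σ + 2) + n + D) (n + 1) s := by
  have hu := un_pos σ
  intro j hj
  have h := cert_real n hn (fun j => s j * ((SC : ℝ) / 2 ^ σ)) (κ * ((SC : ℝ) / 2 ^ σ)) (by positivity)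
    (by
      intro j hj1 hj2
      obtain ⟨a1, a2⟩ := hc j hj1 hj2
      have e : s (j + 1) * ((SC : ℝ) / 2 ^ σ) - 2 * (s j * ((SC : ℝ) / 2 ^ σ)) + s (j - 1) * ((SC : ℝ) / 2 ^ σ) =
        (s (j + 1) - 2 * s j + s (j - 1)) * ((SC : ℝ) / 2 ^ σ) := by ring
      rw [e]
      constructor
      · have := mul_le_mul_of_nonneg_right a1 hu.le
        linarith
      · exact mul_nonpos_of_nonpos_of_nonneg a2 hu.le)
    (x0 / 2 ^ σ) (x0 / 2 ^ σ + (y / 2 ^ σ + 2)) (x1 / 2 ^ σ) (x1 / 2 ^ σ + (y / 2 ^ σ + 2)) D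
    (scale_in h0) (scale_in h1) hA hD j hj
  refine ⟨h.1, h.2.trans ?_⟩
  have e : x0 / 2 ^ σ + (x1 / 2 ^ σ - x0 / 2 ^ σ) / n * j +
      ((x0 / 2 ^ σ + (y / 2 ^ σ + 2) - x0 / 2 ^ σ) + (x1 / 2 ^ σ + (y / 2 ^ σ + 2) - x1 / 2 ^ σ) + n + D) =
      x0 / 2 ^ σ + (x1 / 2 ^ σ - x0 / 2 ^ σ) / n * j + (2 * (y / 2 ^ σ + 2) + n + D) := by omega
  rw [e]

/-- the error term -/
theorem errD {σ c n k : ℕ} (hk : 1 ≤ k) :
    8 * (c : ℝ) / (k : ℝ) ^ 3 * ((SC : ℝ) / 2 ^ σ) * (n : ℝ) ^ 2 / 8 ≤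
      ((c * (n * n) * SC / (k * k * k * 2 ^ σ) + 1 : ℕ) : ℝ) := by
  have hk' : (0 : ℝ) < k := by exact_mod_cast hk
  have hkk : 0 < k * k * k * 2 ^ σ := by positivity
  have h1 := Nat.lt_div_mul_add (a := c * (n * n) * SC) hkk
  have h2 : c * (n * n) * SC ≤ (c * (n * n) * SC / (k * k * k * 2 ^ σ) + 1) * (k * k * k * 2 ^ σ) := by
    rw [Nat.add_mul, Nat.one_mul]
    omega
  have h3 : ((c : ℝ) * ((n : ℝ) * n) * SC) ≤
      ((c * (n * n) * SC / (k * k * k * 2 ^ σ) + 1 : ℕ) : ℝ) * ((k : ℝ) * k * k * 2 ^ σ) := by exact_mod_cast h2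
  have e : 8 * (c : ℝ) / (k : ℝ) ^ 3 * ((SC : ℝ) / 2 ^ σ) * (n : ℝ) ^ 2 / 8 =
      (c : ℝ) * ((n : ℝ) * n) * SC / ((k : ℝ) * k * k * 2 ^ σ) := by
    field_simp
  rw [e, div_le_iff₀ (by positivity)]
  exact h3

/-- enclosure of a difference of a number with the enclosure `[wl, wh]` and one with `[lo, hi]` -/
theorem sub_in {wl wh lo hi : ℕ} {w x : ℝ} (hw : In wl wh w) (hx : In lo hi x) (h : x ≤ w) :
    ((wl - hi : ℕ) : ℝ) ≤ (w - x) * SC ∧ (w - x) * SC ≤ ((wl - hi + ((wh - wl) + (hi - lo)) : ℕ) : ℝ) := by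
  obtain ⟨w1, w2⟩ := hw
  obtain ⟨x1, x2⟩ := hx
  have hSC : (0 : ℝ) < SC := SC_pos
  have hwl : wl ≤ wh := by
    have : (wl : ℝ) ≤ wh := w1.trans w2
    exact_mod_cast this
  have hlh : lo ≤ hi := by
    have : (lo : ℝ) ≤ hi := x1.trans x2
    exact_mod_cast this
  have h0 : 0 ≤ (w - x) * SC := mul_nonneg (by linarith) hSC.le
  constructor
  · rcases le_total wl hi with h' | h'
    · rw [Nat.sub_eq_zero_of_le h']
      simpa using h0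
    · rw [Nat.cast_sub h']
      linarith
  · rcases le_total wl hi with h' | h'
    · rw [Nat.sub_eq_zero_of_le h', Nat.zero_add]
      push_cast [hwl, hlh]
      have : (wl : ℝ) ≤ hi := by exact_mod_cast h'
      linarith
    · push_cast [hwl, hlh, h']
      linarith

/-- flat chains -/
theorem ch_ApIn {σ wl wh k n : ℕ} {w : ℝ} (hw : In wl wh w) (hk : 1 ≤ k) (hk0 : 1 / ((k : ℝ) + 1) ≤ w)
    (hn : 1 ≤ n) (hA : (wl - uh (k + 1)) / 2 ^ σ ≤ (wl - uh (k + 2 * n + 1)) / 2 ^ σ) :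
    ApIn σ ((wl - uh (k + 1)) / 2 ^ σ)
      (((wl - uh (k + 2 * n + 1)) / 2 ^ σ - (wl - uh (k + 1)) / 2 ^ σ) / n)
      (2 * ((wh - wl + 1) / 2 ^ σ + 2) + n + ((n * n) * SC / (k * k * k * 2 ^ σ) + 1)) (n + 1)
      (fun j => w - 1 / (((k + 2 * j : ℕ) : ℝ) + 1)) := by
  have hk' : (1 : ℝ) ≤ k := by exact_mod_cast hk
  have hanti : ∀ j : ℕ, 1 / (((k + 2 * j : ℕ) : ℝ) + 1) ≤ w := by
    intro j
    refine le_trans ?_ hk0
    apply one_div_le_one_div_of_le (by positivity)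
    push_cast
    have : (0 : ℝ) ≤ j := Nat.cast_nonneg j
    linarith
  have hin : ∀ j : ℕ, In (ul (k + 2 * j + 1)) (uh (k + 2 * j + 1)) (1 / (((k + 2 * j : ℕ) : ℝ) + 1)) := by
    intro j
    have := In_inv (k + 2 * j + 1) (by omega)
    rw [Nat.cast_add, Nat.cast_one] at this
    exact this
  have hul : ∀ q : ℕ, 1 ≤ q → uh q - ul q ≤ 1 := by
    intro q hq
    unfold uh ul ce fl
    have h1 := Nat.div_add_mod SC q
    have h2 : (SC + q - 1) / q ≤ SC / q + 1 := by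
      rw [Nat.div_le_iff_le_mul_add_pred (by omega)]
      have h3 := Nat.mod_lt SC hq
      rw [Nat.mul_add, Nat.mul_one]
      omega
    omega
  have hb : ∀ j : ℕ, ((wl - uh (k + 2 * j + 1) : ℕ) : ℝ) ≤ (w - 1 / (((k + 2 * j : ℕ) : ℝ) + 1)) * SC ∧
      (w - 1 / (((k + 2 * j : ℕ) : ℝ) + 1)) * SC ≤ ((wl - uh (k + 2 * j + 1) + (wh - wl + 1) : ℕ) : ℝ) := by
    intro j
    have h := sub_in hw (hin j) (hanti j)
    refine ⟨h.1, h.2.trans ?_⟩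
    have h3 := hul (k + 2 * j + 1) (by omega)
    have h2 : wl - uh (k + 2 * j + 1) + ((wh - wl) + (uh (k + 2 * j + 1) - ul (k + 2 * j + 1))) ≤
      wl - uh (k + 2 * j + 1) + (wh - wl + 1) := by omega
    exact_mod_cast h2
  have h := cert_cells (σ := σ) (s := fun j => w - 1 / (((k + 2 * j : ℕ) : ℝ) + 1)) hn
    (κ := 8 * ((1 : ℕ) : ℝ) / (k : ℝ) ^ 3) (by positivity)
    (by
      intro j hj _
      have := ch_second w k hk j hj
      rw [Nat.cast_one, mul_one]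
      exact this)
    (by simpa using hb 0) (hb n) hA (errD (c := 1) hk)
  rw [Nat.one_mul] at h
  exact h

/-- the part below a piece of a wall -/
noncomputable def TTr (k J : ℕ) : ℝ := T k J + T (k + 2) J

theorem TTr_anti {k k' J : ℕ} (h : k ≤ k') (hk : 1 ≤ k) : TTr k' J ≤ TTr k J := by
  unfold TTr
  exact add_le_add (T_anti k k' J h hk) (T_anti (k + 2) (k' + 2) J (by omega) (by omega))

/-- pieces above the columns of a wall; `lo`, `hi`, `lo'`, `hi'` are enclosures of the first and the last height -/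
theorem mc_ApIn {σ Hl Hh k J n lo hi lo' hi' y : ℕ} {H : ℝ} (hH : In Hl Hh H) (hk : 1 ≤ k)
    (hH0 : TTr k J ≤ H) (hn : 1 ≤ n) (h0 : In lo hi (TTr k J)) (h1 : In lo' hi' (TTr (k + 2 * (n * J)) J))
    (hy : (Hh - Hl) + (hi - lo) ≤ y) (hy' : (Hh - Hl) + (hi' - lo') ≤ y)
    (hA : (Hl - hi) / 2 ^ σ ≤ (Hl - hi') / 2 ^ σ) :
    ApIn σ ((Hl - hi) / 2 ^ σ) (((Hl - hi') / 2 ^ σ - (Hl - hi) / 2 ^ σ) / n)
      (2 * (y / 2 ^ σ + 2) + n + (2 * (J * J * J) * (n * n) * SC / (k * k * k * 2 ^ σ) + 1)) (n + 1)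
      (fun j => H - TTr (k + 2 * (j * J)) J) := by
  have hk' : (1 : ℝ) ≤ k := by exact_mod_cast hk
  have hb : ∀ (j a b : ℕ), In a b (TTr (k + 2 * (j * J)) J) → (Hh - Hl) + (b - a) ≤ y →
      ((Hl - b : ℕ) : ℝ) ≤ (H - TTr (k + 2 * (j * J)) J) * SC ∧
      (H - TTr (k + 2 * (j * J)) J) * SC ≤ ((Hl - b + y : ℕ) : ℝ) := by
    intro j a b hab hy
    have h := sub_in hH hab ((TTr_anti (k := k) (k' := k + 2 * (j * J)) (by omega) hk).trans hH0)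
    refine ⟨h.1, h.2.trans ?_⟩
    have h2 : Hl - b + ((Hh - Hl) + (b - a)) ≤ Hl - b + y := by omega
    exact_mod_cast h2
  have hkk : (8 : ℝ) * (J : ℝ) ^ 2 / ((k + 2 : ℕ) : ℝ) ^ 3 ≤ 8 * (J : ℝ) ^ 2 / (k : ℝ) ^ 3 := by
    apply div_le_div_of_nonneg_left (by positivity) (by positivity)
    apply pow_le_pow_left₀ (by linarith)
    push_cast
    linarith
  have h := cert_cells (σ := σ) (s := fun j => H - TTr (k + 2 * (j * J)) J) hn
    (κ := 8 * ((2 * (J * J * J) : ℕ) : ℝ) / (k : ℝ) ^ 3) (by positivity)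
    (by
      intro j hj _
      have t1 := T_second J k hk j hj
      have t2 := T_second J (k + 2) (by omega) j hj
      have c1 : ∀ i : ℕ, k + 2 * (i * J) + 2 = k + 2 + 2 * (i * J) := fun i => by ring
      unfold TTr
      rw [c1, c1, c1]
      have e : 8 * ((2 * (J * J * J) : ℕ) : ℝ) / (k : ℝ) ^ 3 =
        (J : ℝ) * (8 * (J : ℝ) ^ 2 / (k : ℝ) ^ 3) + (J : ℝ) * (8 * (J : ℝ) ^ 2 / (k : ℝ) ^ 3) := by
        push_cast
        ring
      have hJ : (0 : ℝ) ≤ J := Nat.cast_nonneg J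
      have t3 := mul_le_mul_of_nonneg_left hkk hJ
      rw [e]
      constructor
      · linarith [t1.2, t2.2]
      · linarith [t1.1, t2.1])
    (x0 := Hl - hi) (x1 := Hl - hi') (y := y) (by
      have := hb 0 lo hi (by simpa using h0) hy
      simpa using this)
    (hb n lo' hi' h1 hy') hA (errD (c := 2 * (J * J * J)) hk)
  exact h

end Pool.Agent.MMS
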