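/-!
# Definitions for the kernel computation (no imports)
-/

namespace Pool.Agent.MMS

/-- the scale: `lcm (1, ..., 50) * 10 ^ 10` -/
def SC : Nat := 30990445042459967064000000000000

/-- lower bound of `SC * p / q` -/
def fl (p q : Nat) : Nat := p / q

/-- upper bound -/
def ce (p q : Nat) : Nat := (p + q - 1) / q

/-- numerator and denominator of the lower bound -/
def TloM (c m : Nat) : Nat :=
  let C := c + m - 1
  fl (SC * (m * (3 * (C * C) + (m * m - 1)))) (3 * (C * C) * C)

/-- the error term -/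
def TerM (c m : Nat) : Nat :=
  let C := c + m - 1
  ce (SC * (m * (m * m - 1) * ((m - 1) * (m - 1)))) (3 * (C * C) * (C * C) * c)

def ThiM (c m : Nat) : Nat := TloM c m + (1 + TerM c m)

/-- integer enclosures -/
def TSloM (c d m : Nat) : Nat :=
  let E := 2 * c + d * (m - 1)
  fl (SC * (6 * m * (E * E) + 2 * (d * d) * (m * (m * m - 1)))) (3 * (E * (E * E)))

def TShiM (c d m : Nat) : Nat :=
  let E := 2 * c + d * (m - 1)
  let q := m * (m * m - 1)
  ce (SC * ((6 * m * (E * E) + 2 * (d * d) * q) * (E * c) + (d * d) * (d * d) * ((m - 1) * (m - 1)) * q))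
    (3 * (E * E) * (E * E) * c)

/-- direct lower bound of `1/c + 1/(c+d) + ...` -/
def Tdl (d : Nat) : Nat → Nat → Nat
  | 0, _ => 0
  | m + 1, c => fl SC c + Tdl d m (c + d)

/-- direct upper bound -/
def Tdh (d : Nat) : Nat → Nat → Nat
  | 0, _ => 0
  | m + 1, c => ce SC c + Tdh d m (c + d)

def Tlo (c m : Nat) : Nat := bif Nat.ble c 99999 then Tdl 2 m c else TloM c m

def Thi (c m : Nat) : Nat := bif Nat.ble c 99999 then Tdh 2 m c else ThiM c m

def TSlo (c d m : Nat) : Nat := bif Nat.ble c 99999 then Tdl d m c else TSloM c d m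

def TShi (c d m : Nat) : Nat := bif Nat.ble c 99999 then Tdh d m c else TShiM c d m

/-- enclosures of the two sides of a rectangle -/
abbrev Q4 : Type := Nat × Nat × Nat × Nat

/-- A rectangle `a × b` (enclosures), a chain of flat slivers `(w - 1/(k+2j+1)) × Lg (k+2j)`, `j < m`, of
upright slivers `(w - Lg (k+2j)) × 1/(k+2j+1)`, a list of rectangles, the pieces above the columns of a
one-sided wall, the bits of a wall. -/
inductive Ctx : Type
  | pc (al ah bl bh : Nat) : Ctx
  | ch (wl wh k m : Nat) : Ctx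
  | uch (wl wh k m : Nat) : Ctx
  | ls (l : List Q4) : Ctx
  | mc (Hl Hh k J m : Nat) : Ctx
  | bt (k J K : Nat) : Ctx

/-- lower and upper bound of `1/k`, scaled -/
def ul (k : Nat) : Nat := fl SC k

def uh (k : Nat) : Nat := ce SC k

/-- lower and upper bound of `Lg k`, scaled -/
def Ll (k : Nat) : Nat := ul k + ul (k + 2)

def Lh (k : Nat) : Nat := uh k + uh (k + 2)

/-- the domino in row `r` (from below) and column `t` of a wall with `J` rows starting at `k` -/
def itm (k J r t : Nat) : Nat := k + 2 * (t * J + (J - 1 - r))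

/-- column `t` of the profile: width of the top item, height of the column -/
def wcol (k J t : Nat) : Q4 :=
  (ul (k + 2 * (t * J) + 1), uh (k + 2 * (t * J) + 1),
    Tlo (k + 2 * (t * J)) J + Tlo (k + 2 * (t * J) + 2) J, Thi (k + 2 * (t * J)) J + Thi (k + 2 * (t * J) + 2) J)

/-- the profile; the last column extends to the end of the box -/
def wprof (al ah k J K : Nat) : List Q4 :=
  (List.range (K - 1)).map (wcol k J) ++
    [(al - TShi (k + 1) (2 * J) (K - 1), ah - TSlo (k + 1) (2 * J) (K - 1),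
      Tlo (k + 2 * ((K - 1) * J)) J + Tlo (k + 2 * ((K - 1) * J) + 2) J,
      Thi (k + 2 * ((K - 1) * J)) J + Thi (k + 2 * ((K - 1) * J) + 2) J)]

/-- the pieces between two profiles -/
def mrg (Hl Hh : Nat) : Nat → List Q4 → List Q4 → Option (List Q4)
  | 0, _, _ => none
  | f + 1, (wl, wh, Bl, Bh) :: l, (vl, vh, Cl, Ch) :: l' =>
    bif Nat.ble (Bh + Ch) Hl then
      bif l.isEmpty && l'.isEmpty then some [(wl, wh, Hl - (Bh + Ch), Hh - (Bl + Cl))]
      else bif Nat.ble wh vl && !l.isEmpty then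
        match mrg Hl Hh f l ((vl - wh, vh - wl, Cl, Ch) :: l') with
        | none => none
        | some r => some ((wl, wh, Hl - (Bh + Ch), Hh - (Bl + Cl)) :: r)
      else bif Nat.ble vh wl && !l'.isEmpty then
        match mrg Hl Hh f ((wl - vh, wh - vl, Bl, Bh) :: l) l' with
        | none => none
        | some r => some ((vl, vh, Hl - (Bh + Ch), Hh - (Bl + Cl)) :: r)
      else none
    else none
  | _ + 1, _, _ => none

/-- row ends -/
def wendE (al ah k J K : Nat) : List Q4 :=
  (List.range J).map (fun r => (al - TShi (k + 2 * (J - 1 - r) + 1) (2 * J) K,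
    ah - TSlo (k + 2 * (J - 1 - r) + 1) (2 * J) K, Ll (itm k J r (K - 1)), Lh (itm k J r (K - 1))))

/-- the bit at `(r, t)` -/
def wbit (k J r t : Nat) : Q4 :=
  (TSlo (k + 2 * (J - 1 - (r + 1)) + 1) (2 * J) (t + 1) - TShi (k + 2 * (J - 1 - r) + 1) (2 * J) (t + 1),
    TShi (k + 2 * (J - 1 - (r + 1)) + 1) (2 * J) (t + 1) - TSlo (k + 2 * (J - 1 - r) + 1) (2 * J) (t + 1),
    (Tlo (itm k J r t) (r + 1) + Tlo (itm k J r t + 2) (r + 1)) -
      (Thi (itm k J r (t + 1)) (r + 1) + Thi (itm k J r (t + 1) + 2) (r + 1)),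
    (Thi (itm k J r t) (r + 1) + Thi (itm k J r t + 2) (r + 1)) -
      (Tlo (itm k J r (t + 1)) (r + 1) + Tlo (itm k J r (t + 1) + 2) (r + 1)))

def wbitE (k J K : Nat) : List Q4 :=
  (List.range (J - 1)).flatMap (fun r => (List.range (K - 1)).map (fun t => wbit k J r t))

/-- bound for the sides of the bits -/
def bitB (k J K : Nat) : Nat := ce (SC * (2 * K + 8 * (J * J))) (k * k)

/-- checks for one part of a wall -/
def wok (al k J K : Nat) : Bool :=
  (Nat.ble 1 k && Nat.ble 1 J) && (Nat.ble 2 K && Nat.ble (TShi (k + 1) (2 * J) K) al)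

/-- lower bound of `2 T k m`, midpoint formula -/
def TT2 (k m : Nat) : Nat :=
  let C := k + m - 1
  (2 * SC * (m * (3 * (C * C) + m * m - 1))) / (3 * (C * C) * C)

/-- error term of `2 T k m` -/
def TTe (k m : Nat) : Nat :=
  let C := k + m - 1
  (2 * SC * ((m * m) * (m * m) * m)) / ((C * C) * (C * C) * (3 * k))

/-- enclosure of `T k m + T (k+2) m` by the midpoint formula -/
def TTloM (k m : Nat) : Nat := (TT2 k m + ul (k + 2 * m)) - (ul k + 1)
def TThiM (k m : Nat) : Nat := TTloM k m + (TTe k m + 4)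

/-- enclosure of `T k m + T (k+2) m` by one sum -/
def TTlo (k m : Nat) : Nat := bif Nat.ble k 99999 then (2 * Tdl 2 m k + ul (k + 2 * m)) - uh k else TTloM k m
def TThi (k m : Nat) : Nat := bif Nat.ble k 99999 then (2 * Tdh 2 m k + uh (k + 2 * m)) - ul k else TThiM k m

/-- operations -/
inductive Op : Type
  | nil : Op
  | sw : Op
  | cut (h : Nat) : Op
  | item0 (k : Nat) : Op
  | item1 (k : Nat) : Op
  | dom (k : Nat) : Op
  | strip (k m : Nat) : Op
  | ustrip (k m : Nat) : Op
  | wall (k J K J2 K2 : Nat) : Op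
  | wallj (k J K J2 K2 : Nat) : Op
  | bwall (k J K : Nat) : Op
  | skip (s : Nat) : Op
  | kid : Op

/-- result of a step: new contexts, used intervals, free contexts -/
abbrev Res : Type := Option (List Ctx × List (Nat × Nat) × List Ctx)

/-- one step -/
def step : Op → Ctx → Res
  | .nil, c => some ([], [], [c])
  | .sw, .pc al ah bl bh => some ([.pc bl bh al ah], [], [])
  | .cut h, .pc al ah bl bh =>
    bif Nat.ble h bl then some ([.pc al ah h h, .pc al ah (bl - h) (bh - h)], [], []) else none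
  | .item0 k, .pc al ah bl bh =>
    bif Nat.ble 1 k && (Nat.ble (uh k) al && Nat.ble (uh (k + 1)) bl) then
      some ([.pc (al - uh k) (ah - ul k) bl bh, .pc (ul k) (uh k) (bl - uh (k + 1)) (bh - ul (k + 1))],
        [(k, 1)], [])
    else none
  | .item1 k, .pc al ah bl bh =>
    bif Nat.ble 1 k && (Nat.ble (uh (k + 1)) al && Nat.ble (uh k) bl) then
      some ([.pc (al - uh (k + 1)) (ah - ul (k + 1)) bl bh, .pc (ul (k + 1)) (uh (k + 1)) (bl - uh k) (bh - ul k)],
        [(k, 1)], [])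
    else none
  | .dom k, .pc al ah bl bh =>
    bif Nat.ble 1 k && (Nat.ble (uh (k + 1)) al && Nat.ble (Lh k) bl) then
      some ([.pc (al - uh (k + 1)) (ah - ul (k + 1)) bl bh, .pc (ul (k + 1)) (uh (k + 1)) (bl - Lh k) (bh - Ll k)],
        [(k, 2)], [])
    else none
  | .strip k m, .pc al ah bl bh =>
    bif (Nat.ble 1 k && Nat.ble 1 m) && (Nat.ble (uh (k + 1)) al && Nat.ble (TThi k m) bl) then
      some ([.ch al ah k m, .pc al ah (bl - TThi k m) (bh - TTlo k m)], [(k, 2 * m)], [])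
    else none
  | .ustrip k m, .pc al ah bl bh =>
    bif (Nat.ble 1 k && Nat.ble 1 m) && (Nat.ble (Lh k) al && Nat.ble (Thi (k + 1) m) bl) then
      some ([.uch al ah k m, .pc al ah (bl - Thi (k + 1) m) (bh - Tlo (k + 1) m)], [(k, 2 * m)], [])
    else none
  | .wall k J K J2 K2, .pc al ah bl bh =>
    bif wok al k J K && wok al (k + 2 * (J * K)) J2 K2 then
      match mrg bl bh (K + K2) (wprof al ah k J K) (wprof al ah (k + 2 * (J * K)) J2 K2).reverse with
      | none => none
      | some ms =>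
        some ([.ls ms, .ls (wendE al ah k J K ++ wendE al ah (k + 2 * (J * K)) J2 K2),
          .ls (wbitE k J K ++ wbitE (k + 2 * (J * K)) J2 K2)], [(k, 2 * (J * K + J2 * K2))], [])
    else none
  | .wallj k J K J2 K2, .pc al ah bl bh =>
    bif wok al k J K && wok al (k + 2 * (J * K)) J2 K2 then
      match mrg bl bh (K + K2) (wprof al ah k J K) (wprof al ah (k + 2 * (J * K)) J2 K2).reverse with
      | none => none
      | some ms =>
        some ([.ls ms, .ls (wendE al ah k J K ++ wendE al ah (k + 2 * (J * K)) J2 K2)],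
          [(k, 2 * (J * K + J2 * K2))], [.bt k J K, .bt (k + 2 * (J * K)) J2 K2])
    else none
  | .bwall k J K, .pc al ah bl bh =>
    bif wok al k J K && Nat.ble (Thi k J + Thi (k + 2) J) bl then
      some ([.mc bl bh k J (K - 1),
        .pc (al - TShi (k + 1) (2 * J) (K - 1)) (ah - TSlo (k + 1) (2 * J) (K - 1))
            (bl - (Thi (k + 2 * ((K - 1) * J)) J + Thi (k + 2 * ((K - 1) * J) + 2) J))
            (bh - (Tlo (k + 2 * ((K - 1) * J)) J + Tlo (k + 2 * ((K - 1) * J) + 2) J)),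
        .ls (wendE al ah k J K)], [(k, 2 * (J * K))], [.bt k J K])
    else none
  | .skip s, .mc Hl Hh k J m =>
    bif Nat.ble s m then some ([.mc Hl Hh (k + 2 * (s * J)) J (m - s)], [], [.mc Hl Hh k J s]) else none
  | .skip s, .ch wl wh k m =>
    bif Nat.ble s m then some ([.ch wl wh (k + 2 * s) (m - s)], [], [.ch wl wh k s]) else none
  | .skip s, .uch wl wh k m =>
    bif Nat.ble s m then some ([.uch wl wh (k + 2 * s) (m - s)], [], [.uch wl wh k s]) else none
  | .skip s, .ls l => some ([.ls (l.drop s)], [], [.ls (l.take s)])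
  | .kid, .mc Hl Hh k J m =>
    bif (Nat.ble 1 m && Nat.ble 1 J) && (Nat.ble 1 k && Nat.ble (TThi k J) Hl) then
      some ([.pc (ul (k + 1)) (uh (k + 1)) (Hl - TThi k J) (Hh - TTlo k J),
        .mc Hl Hh (k + 2 * J) J (m - 1)], [], [])
    else none
  | .kid, .ch wl wh k m =>
    bif Nat.ble 1 m && (Nat.ble 1 k && Nat.ble (uh (k + 1)) wl) then
      some ([.pc (wl - uh (k + 1)) (wh - ul (k + 1)) (Ll k) (Lh k), .ch wl wh (k + 2) (m - 1)], [], [])
    else none
  | .kid, .uch wl wh k m =>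
    bif Nat.ble 1 m && (Nat.ble 1 k && Nat.ble (Lh k) wl) then
      some ([.pc (wl - Lh k) (wh - Ll k) (ul (k + 1)) (uh (k + 1)), .uch wl wh (k + 2) (m - 1)], [], [])
    else none
  | .kid, .ls ((al, ah, bl, bh) :: l) => some ([.pc al ah bl bh, .ls l], [], [])
  | _, _ => none

/-- `ul` -/
def ru (k : Nat) : Nat := Nat.div (nat_lit 30990445042459967064000000000000) k

/-- `uh` -/
def rc (k : Nat) : Nat := Nat.div (Nat.add (nat_lit 30990445042459967063999999999999) k) k

def rLl (k : Nat) : Nat := Nat.add (ru k) (ru (Nat.add k (nat_lit 2)))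

def rLh (k : Nat) : Nat := Nat.add (rc k) (rc (Nat.add k (nat_lit 2)))

/-- evaluate `x` first (in the kernel) -/
noncomputable def frc {α : Type} (x : Nat) (y : α) : α := Bool.rec (motive := fun _ => α) y y (Nat.ble x (nat_lit 0))

/-- direct sums by a tail recursion -/
noncomputable def rdl (d m : Nat) : Nat → Nat → Nat :=
  Nat.rec (motive := fun _ => Nat → Nat → Nat) (fun _ a => a) (fun _ f c a => frc a (f (Nat.add c d) (Nat.add a (ru c)))) m

noncomputable def rdh (d m : Nat) : Nat → Nat → Nat :=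
  Nat.rec (motive := fun _ => Nat → Nat → Nat) (fun _ a => a) (fun _ f c a => frc a (f (Nat.add c d) (Nat.add a (rc c)))) m

/-- pairs of bounds -/
abbrev P2 : Type := Nat × Nat

/-- prefix sums of `1/c + 1/(c+d) + ...` -/
noncomputable def rowX (d n : Nat) : Nat → Nat → Nat → List P2 :=
  Nat.rec (motive := fun _ => Nat → Nat → Nat → List P2) (fun _ _ _ => List.nil)
    (fun _ f c lo hi => frc (Nat.add lo (ru c)) (frc (Nat.add hi (rc c))
      (List.cons (Nat.add lo (ru c), Nat.add hi (rc c)) (f (Nat.add c d) (Nat.add lo (ru c)) (Nat.add hi (rc c)))))) n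

/-- add the domino heights of one more row -/
noncomputable def hrow (d : Nat) (l : List P2) : Nat → List P2 :=
  List.rec (motive := fun _ => Nat → List P2) (fun _ => List.nil)
    (fun a _ f c => frc (Nat.add a.1 (rLl c)) (frc (Nat.add a.2 (rLh c))
      (List.cons (Nat.add a.1 (rLl c), Nat.add a.2 (rLh c)) (f (Nat.add c d))))) l

/-- `n` zeros -/
noncomputable def zrow (n : Nat) : List P2 :=
  Nat.rec (motive := fun _ => List P2) List.nil (fun _ l => List.cons (nat_lit 0, nat_lit 0) l) n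

/-- the bits of one row: `XA` the row above, `XB` this row, `H` the heights; one less than the length of `H` -/
noncomputable def brow (XA : List P2) : List P2 → P2 → List P2 → List Q4 → List Q4 :=
  List.rec (motive := fun _ => List P2 → P2 → List P2 → List Q4 → List Q4) (fun _ _ _ r => r)
    (fun a _ f XB h H r => List.rec (motive := fun _ => List Q4) r
      (fun b XB' _ => List.rec (motive := fun _ => List Q4) r
        (fun g H' _ => List.cons (Nat.sub a.1 b.2, Nat.sub a.2 b.1, Nat.sub h.1 g.2, Nat.sub h.2 g.1) (f XB' g H' r)) H) XB) XA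

/-- last element -/
noncomputable def rlast (l : List P2) : P2 → P2 :=
  List.rec (motive := fun _ => P2 → P2) (fun a => a) (fun a _ f _ => f a) l

/-- row sums of row `r` -/
noncomputable def Xrow (k J K r : Nat) : List P2 :=
  rowX (Nat.mul (nat_lit 2) J) K (Nat.add (Nat.add k (Nat.mul (nat_lit 2) (Nat.sub (Nat.sub J (nat_lit 1)) r))) (nat_lit 1))
    (nat_lit 0) (nat_lit 0)

/-- the heights of row `r` from those of row `r - 1` -/
noncomputable def Hnext (k J r : Nat) (l : List P2) : List P2 :=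
  hrow (Nat.mul (nat_lit 2) J) l (Nat.add k (Nat.mul (nat_lit 2) (Nat.sub (Nat.sub J (nat_lit 1)) r)))

/-- the bits of row `r`, in front of `rest` -/
noncomputable def brow2 (XA XB H : List P2) (rest : List Q4) : List Q4 :=
  List.rec (motive := fun _ => List Q4) rest (fun h H' _ => brow XA XB h H' rest) H

/-- all bits and the heights of the whole columns: state: row `r`, row sums `XB` of row `r`, heights `H` of row `r`;
`n` more rows of bits; the continuation gets the bits (as a function of the rest) and the heights -/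
noncomputable def brows (k J K : Nat) (n : Nat) : Nat → List P2 → List P2 → List Q4 → List Q4 :=
  Nat.rec (motive := fun _ => Nat → List P2 → List P2 → List Q4 → List Q4) (fun _ _ _ rest => rest)
    (fun _ f r XB H rest => brow2 (Xrow k J K (Nat.add r (nat_lit 1))) XB H
      (f (Nat.add r (nat_lit 1)) (Xrow k J K (Nat.add r (nat_lit 1))) (Hnext k J (Nat.add r (nat_lit 1)) H) rest)) n

/-- heights of the rows `r + 1, ..., r + n` on top of `H` (row `r`) -/
noncomputable def htop (k J : Nat) (n : Nat) : Nat → List P2 → List P2 :=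
  Nat.rec (motive := fun _ => Nat → List P2 → List P2) (fun _ H => H)
    (fun _ f r H => f (Nat.add r (nat_lit 1)) (Hnext k J (Nat.add r (nat_lit 1)) H)) n

/-- bits of the wall in front of `rest` -/
noncomputable def bitsR (k J K : Nat) (rest : List Q4) : List Q4 :=
  brows k J K (Nat.sub J (nat_lit 1)) (nat_lit 0) (Xrow k J K (nat_lit 0)) (Hnext k J (nat_lit 0) (zrow K)) rest

noncomputable def profR (d : Nat) (w : P2) (H : List P2) : Nat → List Q4 :=
  List.rec (motive := fun _ => Nat → List Q4) (fun _ => List.nil)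
    (fun h H' f c => List.rec (motive := fun _ => List Q4) (List.cons (w.1, w.2, h.1, h.2) List.nil)
      (fun _ _ _ => List.cons (ru c, rc c, h.1, h.2) (f (Nat.add c d))) H') H

/-- last width -/
noncomputable def lastW (al ah : Nat) (x : P2) : P2 := (Nat.sub al x.2, Nat.sub ah x.1)

/-- heights of the whole columns -/
noncomputable def topR (k J K : Nat) : List P2 :=
  htop k J (Nat.sub J (nat_lit 1)) (nat_lit 0) (Hnext k J (nat_lit 0) (zrow K))

/-- the profile -/
noncomputable def wprofR (al ah k J K : Nat) : List Q4 :=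
  profR (Nat.mul (nat_lit 2) J) (lastW al ah (rdl (Nat.mul (nat_lit 2) J) (Nat.sub K (nat_lit 1)) (Nat.add k (nat_lit 1)) (nat_lit 0),
    rdh (Nat.mul (nat_lit 2) J) (Nat.sub K (nat_lit 1)) (Nat.add k (nat_lit 1)) (nat_lit 0))) (topR k J K) (Nat.add k (nat_lit 1))

noncomputable def endR (al ah k J K : Nat) (n : Nat) : Nat → List Q4 → List Q4 :=
  Nat.rec (motive := fun _ => Nat → List Q4 → List Q4) (fun _ rest => rest)
    (fun _ f r rest => List.cons (Nat.sub al (rlast (Xrow k J K r) (nat_lit 0, nat_lit 0)).2,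
      Nat.sub ah (rlast (Xrow k J K r) (nat_lit 0, nat_lit 0)).1,
      rLl (Nat.add k (Nat.mul (nat_lit 2) (Nat.add (Nat.mul (Nat.sub K (nat_lit 1)) J) (Nat.sub (Nat.sub J (nat_lit 1)) r)))),
      rLh (Nat.add k (Nat.mul (nat_lit 2) (Nat.add (Nat.mul (Nat.sub K (nat_lit 1)) J) (Nat.sub (Nat.sub J (nat_lit 1)) r)))))
      (f (Nat.add r (nat_lit 1)) rest)) n

noncomputable def rrev (l : List Q4) : List Q4 → List Q4 :=
  List.rec (motive := fun _ => List Q4 → List Q4) (fun r => r) (fun a _ f r => f (List.cons a r)) l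

abbrev OQ : Type := Option (List Q4)

noncomputable def thenO (b : Bool) (x : OQ) : OQ := Bool.rec (motive := fun _ => OQ) none x b

/-- the wider element loses the width of the narrower one -/
noncomputable def msub (e e' : Q4) (f : Q4 → OQ) : OQ :=
  frc (Nat.sub e.1 e'.2.1) (frc (Nat.sub e.2.1 e'.1) (f (Nat.sub e.1 e'.2.1, Nat.sub e.2.1 e'.1, e.2.2)))

noncomputable def mstep (Hl Hh : Nat) (ih : List Q4 → List Q4 → List Q4 → OQ) (acc : List Q4) (e : Q4) (l : List Q4)
    (e' : Q4) (l' : List Q4) : OQ :=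
  thenO (Nat.ble (Nat.add e.2.2.2 e'.2.2.2) Hl)
    (List.rec (motive := fun _ => OQ)
      (List.rec (motive := fun _ => OQ)
        (some (rrev acc (List.cons (e.1, e.2.1, Nat.sub Hl (Nat.add e.2.2.2 e'.2.2.2), Nat.sub Hh (Nat.add e.2.2.1 e'.2.2.1)) List.nil)))
        (fun _ _ _ => thenO (Nat.ble e'.2.1 e.1)
          (msub e e' (fun x => ih (List.cons (e'.1, e'.2.1, Nat.sub Hl (Nat.add e.2.2.2 e'.2.2.2), Nat.sub Hh (Nat.add e.2.2.1 e'.2.2.1)) acc)
            (List.cons x l) l'))) l')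
      (fun _ _ _ => Bool.rec (motive := fun _ => OQ)
        (List.rec (motive := fun _ => OQ) none
          (fun _ _ _ => thenO (Nat.ble e'.2.1 e.1)
            (msub e e' (fun x => ih (List.cons (e'.1, e'.2.1, Nat.sub Hl (Nat.add e.2.2.2 e'.2.2.2), Nat.sub Hh (Nat.add e.2.2.1 e'.2.2.1)) acc)
              (List.cons x l) l'))) l')
        (msub e' e (fun x => ih (List.cons (e.1, e.2.1, Nat.sub Hl (Nat.add e.2.2.2 e'.2.2.2), Nat.sub Hh (Nat.add e.2.2.1 e'.2.2.1)) acc)
          l (List.cons x l')))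
        (Nat.ble e.2.1 e'.1)) l)

noncomputable def mrgR (Hl Hh : Nat) (f : Nat) : List Q4 → List Q4 → List Q4 → OQ :=
  Nat.rec (motive := fun _ => List Q4 → List Q4 → List Q4 → OQ) (fun _ _ _ => none)
    (fun _ ih acc l l' => List.rec (motive := fun _ => OQ) none (fun e l _ =>
      List.rec (motive := fun _ => OQ) none (fun e' l' _ => mstep Hl Hh ih acc e l e' l') l') l) f

/-- drop and take -/
noncomputable def rdrop (n : Nat) : List Q4 → List Q4 :=
  Nat.rec (motive := fun _ => List Q4 → List Q4) (fun l => l)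
    (fun _ f l => List.rec (motive := fun _ => List Q4) List.nil (fun _ t _ => f t) l) n

noncomputable def rtake (n : Nat) : List Q4 → List Q4 :=
  Nat.rec (motive := fun _ => List Q4 → List Q4) (fun _ => List.nil)
    (fun _ f l => List.rec (motive := fun _ => List Q4) List.nil (fun a t _ => List.cons a (f t)) l) n

/-- the midpoint formula with `C3 = 3 C ^ 2`, `s = m ^ 2 - 1` -/
def rM (C C3 s m : Nat) : Nat :=
  Nat.div (Nat.mul (nat_lit 30990445042459967064000000000000) (Nat.mul m (Nat.add C3 s))) (Nat.mul C3 C)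

/-- error term (lower bound plus 1, from above) -/
def rE (num den : Nat) : Nat :=
  Nat.div (Nat.sub (Nat.add (Nat.mul (nat_lit 30990445042459967064000000000000) num) den) (nat_lit 1)) den

def rTloM2 (C m : Nat) : Nat := rM C (Nat.mul (nat_lit 3) (Nat.mul C C)) (Nat.sub (Nat.mul m m) (nat_lit 1)) m

def rTerM2 (C c m : Nat) : Nat :=
  rE (Nat.mul (Nat.mul m (Nat.sub (Nat.mul m m) (nat_lit 1))) (Nat.mul (Nat.sub m (nat_lit 1)) (Nat.sub m (nat_lit 1))))
    (Nat.mul (Nat.mul (Nat.mul (nat_lit 3) (Nat.mul C C)) (Nat.mul C C)) c)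

def rTloM (c m : Nat) : Nat := rTloM2 (Nat.sub (Nat.add c m) (nat_lit 1)) m

def rThiM (c m : Nat) : Nat := Nat.add (rTloM c m) (Nat.add (nat_lit 1) (rTerM2 (Nat.sub (Nat.add c m) (nat_lit 1)) c m))

noncomputable def rTlo (c m : Nat) : Nat := cond (Nat.ble c (nat_lit 99999)) (rdl (nat_lit 2) m c (nat_lit 0)) (rTloM c m)

noncomputable def rThi (c m : Nat) : Nat := cond (Nat.ble c (nat_lit 99999)) (rdh (nat_lit 2) m c (nat_lit 0)) (rThiM c m)

/-- `C = k + m - 1`, `CC = C ^ 2`, `mm = m ^ 2`; the literal is `2 SC` -/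
def rTT2 (C CC mm m : Nat) : Nat :=
  Nat.div (Nat.mul (nat_lit 61980890084919934128000000000000) (Nat.mul m (Nat.sub (Nat.add (Nat.mul (nat_lit 3) CC) mm) (nat_lit 1))))
    (Nat.mul (Nat.mul (nat_lit 3) CC) C)

def rTTe (CC mm k m : Nat) : Nat :=
  Nat.div (Nat.mul (nat_lit 61980890084919934128000000000000) (Nat.mul (Nat.mul mm mm) m)) (Nat.mul (Nat.mul CC CC) (Nat.mul (nat_lit 3) k))

def rTTloM (k C CC mm m : Nat) : Nat :=
  Nat.sub (Nat.add (rTT2 C CC mm m) (ru (Nat.add k (Nat.mul (nat_lit 2) m)))) (Nat.add (ru k) (nat_lit 1))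

def rTTlo1 (k C m : Nat) : Nat := rTTloM k C (Nat.mul C C) (Nat.mul m m) m

noncomputable def rTTlo (k m : Nat) : Nat :=
  cond (Nat.ble k (nat_lit 99999))
    (Nat.sub (Nat.add (Nat.mul (nat_lit 2) (rdl (nat_lit 2) m k (nat_lit 0))) (ru (Nat.add k (Nat.mul (nat_lit 2) m)))) (rc k))
    (rTTlo1 k (Nat.sub (Nat.add k m) (nat_lit 1)) m)

def rTThi1 (k C m : Nat) : Nat := Nat.add (rTTlo1 k C m) (Nat.add (rTTe (Nat.mul C C) (Nat.mul m m) k m) (nat_lit 4))

noncomputable def rTThi (k m : Nat) : Nat :=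
  cond (Nat.ble k (nat_lit 99999))
    (Nat.sub (Nat.add (Nat.mul (nat_lit 2) (rdh (nat_lit 2) m k (nat_lit 0))) (rc (Nat.add k (Nat.mul (nat_lit 2) m)))) (ru k))
    (rTThi1 k (Nat.sub (Nat.add k m) (nat_lit 1)) m)

/-- continuation -/
abbrev Kt : Type := List Ctx → List (Nat × Nat) → List Ctx → Res

/-- the rest of a step after the top context is known -/
abbrev Mt : Type := List Ctx → List (Nat × Nat) → List Ctx → Kt → Res

def noM : Mt := fun _ _ _ _ => none

/-- on a rectangle -/
noncomputable def onPc (f : Nat → Nat → Nat → Nat → Mt) : Ctx → Mt :=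
  Ctx.rec (motive := fun _ => Mt) f (fun _ _ _ _ => noM) (fun _ _ _ _ => noM) (fun _ => noM)
    (fun _ _ _ _ _ => noM) (fun _ _ _ => noM)

/-- `if b then x else none` -/
noncomputable def thenR (b : Bool) (x : Res) : Res := Bool.rec (motive := fun _ => Res) none x b

/-- evaluate `x` first -/
noncomputable def fR (x : Nat) (y : Res) : Res := Bool.rec (motive := fun _ => Res) y y (Nat.ble x (nat_lit 0))

noncomputable def fNil (c : Ctx) : Mt := fun cs us fr κ => κ cs us (List.cons c fr)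

noncomputable def cutPc (h al ah bl bh : Nat) : Mt := fun cs us fr κ =>
  Bool.rec (motive := fun _ => Res) none
    (fR (Nat.sub bh h) (κ (List.cons (Ctx.pc al ah h h) (List.cons (Ctx.pc al ah (Nat.sub bl h) (Nat.sub bh h)) cs)) us fr))
    (Nat.ble h bl)

/-- a `u × v` rectangle in the corner -/
noncomputable def cornerPc (ul' uh' vl vh : Nat) (e : Nat × Nat) (al ah bl bh : Nat) : Mt := fun cs us fr κ =>
  Bool.rec (motive := fun _ => Res) none (Bool.rec (motive := fun _ => Res) none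
    (fR (Nat.sub ah ul') (fR (Nat.sub bh vl) (κ (List.cons (Ctx.pc (Nat.sub al uh') (Nat.sub ah ul') bl bh)
      (List.cons (Ctx.pc ul' uh' (Nat.sub bl vh) (Nat.sub bh vl)) cs)) (List.cons e us) fr))) (Nat.ble vh bl)) (Nat.ble uh' al)

noncomputable def item0Pc (k al ah bl bh : Nat) : Mt := fun cs us fr κ =>
  Bool.rec (motive := fun _ => Res) none (cornerPc (ru k) (rc k) (ru (Nat.add k (nat_lit 1))) (rc (Nat.add k (nat_lit 1)))
    (k, nat_lit 1) al ah bl bh cs us fr κ) (Nat.ble (nat_lit 1) k)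

noncomputable def item1Pc (k al ah bl bh : Nat) : Mt := fun cs us fr κ =>
  Bool.rec (motive := fun _ => Res) none (cornerPc (ru (Nat.add k (nat_lit 1))) (rc (Nat.add k (nat_lit 1))) (ru k) (rc k)
    (k, nat_lit 1) al ah bl bh cs us fr κ) (Nat.ble (nat_lit 1) k)

noncomputable def domPc (k al ah bl bh : Nat) : Mt := fun cs us fr κ =>
  Bool.rec (motive := fun _ => Res) none (cornerPc (ru (Nat.add k (nat_lit 1))) (rc (Nat.add k (nat_lit 1))) (rLl k) (rLh k)
    (k, nat_lit 2) al ah bl bh cs us fr κ) (Nat.ble (nat_lit 1) k)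

/-- put a chain of flat dominoes and cut off `[lo, hi]` -/
noncomputable def chPc (lo hi k m al ah bl bh : Nat) : Mt := fun cs us fr κ =>
  Bool.rec (motive := fun _ => Res) none
    (fR (Nat.sub bh lo) (κ (List.cons (Ctx.ch al ah k m) (List.cons (Ctx.pc al ah (Nat.sub bl hi) (Nat.sub bh lo)) cs))
    (List.cons (k, Nat.mul (nat_lit 2) m) us) fr)) (Nat.ble hi bl)

/-- the same for upright dominoes -/
noncomputable def uchPc (lo hi k m al ah bl bh : Nat) : Mt := fun cs us fr κ =>
  Bool.rec (motive := fun _ => Res) none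
    (fR (Nat.sub bh lo) (κ (List.cons (Ctx.uch al ah k m) (List.cons (Ctx.pc al ah (Nat.sub bl hi) (Nat.sub bh lo)) cs))
    (List.cons (k, Nat.mul (nat_lit 2) m) us) fr)) (Nat.ble hi bl)

noncomputable def strip4 (lo CC mm k m : Nat) : Nat → Nat → Nat → Nat → Mt :=
  chPc lo (Nat.add lo (Nat.add (rTTe CC mm k m) (nat_lit 4))) k m

noncomputable def strip3 (k C CC mm m : Nat) : Nat → Nat → Nat → Nat → Mt := strip4 (rTTloM k C CC mm m) CC mm k m

noncomputable def strip2 (k C m : Nat) : Nat → Nat → Nat → Nat → Mt := strip3 k C (Nat.mul C C) (Nat.mul m m) m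

noncomputable def strip1 (k m : Nat) : Nat → Nat → Nat → Nat → Mt :=
  Bool.rec (motive := fun _ => Nat → Nat → Nat → Nat → Mt)
    (strip2 k (Nat.sub (Nat.add k m) (nat_lit 1)) m)
    (chPc (Nat.sub (Nat.add (Nat.mul (nat_lit 2) (rdl (nat_lit 2) m k (nat_lit 0))) (ru (Nat.add k (Nat.mul (nat_lit 2) m)))) (rc k))
      (Nat.sub (Nat.add (Nat.mul (nat_lit 2) (rdh (nat_lit 2) m k (nat_lit 0))) (rc (Nat.add k (Nat.mul (nat_lit 2) m)))) (ru k)) k m)
    (Nat.ble k (nat_lit 99999))

noncomputable def stripPc (k m al ah bl bh : Nat) : Mt := fun cs us fr κ =>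
  Bool.rec (motive := fun _ => Res) none (Bool.rec (motive := fun _ => Res) none
    (Bool.rec (motive := fun _ => Res) none (strip1 k m al ah bl bh cs us fr κ) (Nat.ble (rc (Nat.add k (nat_lit 1))) al))
      (Nat.ble (nat_lit 1) m)) (Nat.ble (nat_lit 1) k)

noncomputable def ustripPc (k m al ah bl bh : Nat) : Mt := fun cs us fr κ =>
  Bool.rec (motive := fun _ => Res) none (Bool.rec (motive := fun _ => Res) none
    (Bool.rec (motive := fun _ => Res) none
      (uchPc (rTlo (Nat.add k (nat_lit 1)) m) (rThi (Nat.add k (nat_lit 1)) m) k m al ah bl bh cs us fr κ) (Nat.ble (rLh k) al))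
      (Nat.ble (nat_lit 1) m)) (Nat.ble (nat_lit 1) k)

/-- the rare operations by `step` itself -/
noncomputable def viaStep (op : Op) (c : Ctx) : Mt := fun cs us fr κ =>
  match step op c with
  | none => none
  | some (cs', u0, fj) => κ (cs' ++ cs) (u0 ++ us) (fj ++ fr)

noncomputable def skipMc (s Hl Hh k J m : Nat) : Mt := fun cs us fr κ =>
  thenR (Nat.ble s m) (κ (List.cons (Ctx.mc Hl Hh (Nat.add k (Nat.mul (nat_lit 2) (Nat.mul s J))) J (Nat.sub m s)) cs) us
    (List.cons (Ctx.mc Hl Hh k J s) fr))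

noncomputable def skipCh (s wl wh k m : Nat) : Mt := fun cs us fr κ =>
  thenR (Nat.ble s m) (κ (List.cons (Ctx.ch wl wh (Nat.add k (Nat.mul (nat_lit 2) s)) (Nat.sub m s)) cs) us
    (List.cons (Ctx.ch wl wh k s) fr))

noncomputable def skipUch (s wl wh k m : Nat) : Mt := fun cs us fr κ =>
  thenR (Nat.ble s m) (κ (List.cons (Ctx.uch wl wh (Nat.add k (Nat.mul (nat_lit 2) s)) (Nat.sub m s)) cs) us
    (List.cons (Ctx.uch wl wh k s) fr))

noncomputable def skipLs (s : Nat) (l : List Q4) : Mt := fun cs us fr κ =>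
  κ (List.cons (Ctx.ls (rdrop s l)) cs) us (List.cons (Ctx.ls (rtake s l)) fr)

/-- a wall with direct sums -/
noncomputable def wallG (k k2 J K J2 K2 al ah bl bh : Nat) : Mt := fun cs us fr κ =>
  Option.rec (motive := fun _ => Res) none (fun ms => κ (List.cons (Ctx.ls ms)
      (List.cons (Ctx.ls (endR al ah k J K J (nat_lit 0) (endR al ah k2 J2 K2 J2 (nat_lit 0) List.nil)))
        (List.cons (Ctx.ls (bitsR k J K (bitsR k2 J2 K2 List.nil))) cs)))
      (List.cons (k, Nat.mul (nat_lit 2) (Nat.add (Nat.mul J K) (Nat.mul J2 K2))) us) fr)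
    (mrgR bl bh (Nat.add K K2) List.nil (wprofR al ah k J K) (rrev (wprofR al ah k2 J2 K2) List.nil))

def rTSloM2 (E m dd q : Nat) : Nat :=
  Nat.div (Nat.mul (nat_lit 30990445042459967064000000000000) (Nat.add (Nat.mul (Nat.mul (nat_lit 6) m) (Nat.mul E E))
    (Nat.mul (Nat.mul (nat_lit 2) dd) q))) (Nat.mul (nat_lit 3) (Nat.mul E (Nat.mul E E)))

def rTSloM (c d m : Nat) : Nat :=
  rTSloM2 (Nat.add (Nat.mul (nat_lit 2) c) (Nat.mul d (Nat.sub m (nat_lit 1)))) m (Nat.mul d d)
    (Nat.mul m (Nat.sub (Nat.mul m m) (nat_lit 1)))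

def rTShiM2 (E EE c m dd m1 q : Nat) : Nat :=
  rE (Nat.add (Nat.mul (Nat.add (Nat.mul (Nat.mul (nat_lit 6) m) EE) (Nat.mul (Nat.mul (nat_lit 2) dd) q)) (Nat.mul E c))
      (Nat.mul (Nat.mul (Nat.mul dd dd) (Nat.mul m1 m1)) q))
    (Nat.mul (Nat.mul (Nat.mul (nat_lit 3) EE) EE) c)

def rTShiM1 (E c d m : Nat) : Nat :=
  rTShiM2 E (Nat.mul E E) c m (Nat.mul d d) (Nat.sub m (nat_lit 1)) (Nat.mul m (Nat.sub (Nat.mul m m) (nat_lit 1)))

def rTShiM (c d m : Nat) : Nat := rTShiM1 (Nat.add (Nat.mul (nat_lit 2) c) (Nat.mul d (Nat.sub m (nat_lit 1)))) c d m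

noncomputable def rTSlo (c d m : Nat) : Nat := cond (Nat.ble c (nat_lit 99999)) (rdl d m c (nat_lit 0)) (rTSloM c d m)

noncomputable def rTShi (c d m : Nat) : Nat := cond (Nat.ble c (nat_lit 99999)) (rdh d m c (nat_lit 0)) (rTShiM c d m)

/-- the row ends of a one-sided wall -/
noncomputable def endG (al ah k J K : Nat) (n : Nat) : Nat → List Q4 → List Q4 :=
  Nat.rec (motive := fun _ => Nat → List Q4 → List Q4) (fun _ rest => rest)
    (fun _ f r rest => List.cons
      (Nat.sub al (rTShi (Nat.add (Nat.add k (Nat.mul (nat_lit 2) (Nat.sub (Nat.sub J (nat_lit 1)) r))) (nat_lit 1)) (Nat.mul (nat_lit 2) J) K),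
      Nat.sub ah (rTSlo (Nat.add (Nat.add k (Nat.mul (nat_lit 2) (Nat.sub (Nat.sub J (nat_lit 1)) r))) (nat_lit 1)) (Nat.mul (nat_lit 2) J) K),
      rLl (Nat.add k (Nat.mul (nat_lit 2) (Nat.add (Nat.mul (Nat.sub K (nat_lit 1)) J) (Nat.sub (Nat.sub J (nat_lit 1)) r)))),
      rLh (Nat.add k (Nat.mul (nat_lit 2) (Nat.add (Nat.mul (Nat.sub K (nat_lit 1)) J) (Nat.sub (Nat.sub J (nat_lit 1)) r)))))
      (f (Nat.add r (nat_lit 1)) rest)) n

/-- a one-sided wall after the checks; `K1 = K - 1`, `kk` = first item of the last column -/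
noncomputable def bwallG (k J K K1 kk al ah bl bh : Nat) : Mt := fun cs us fr κ =>
  κ (List.cons (Ctx.mc bl bh k J K1)
    (List.cons (Ctx.pc (Nat.sub al (rTShi (Nat.add k (nat_lit 1)) (Nat.mul (nat_lit 2) J) K1))
        (Nat.sub ah (rTSlo (Nat.add k (nat_lit 1)) (Nat.mul (nat_lit 2) J) K1))
        (Nat.sub bl (Nat.add (rThi kk J) (rThi (Nat.add kk (nat_lit 2)) J)))
        (Nat.sub bh (Nat.add (rTlo kk J) (rTlo (Nat.add kk (nat_lit 2)) J))))
      (List.cons (Ctx.ls (endG al ah k J K J (nat_lit 0) List.nil)) cs)))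
    (List.cons (k, Nat.mul (nat_lit 2) (Nat.mul J K)) us) (List.cons (Ctx.bt k J K) fr)

noncomputable def bwallPc (k J K al ah bl bh : Nat) : Mt := fun cs us fr κ =>
  thenR (Nat.ble (nat_lit 1) k) (thenR (Nat.ble (nat_lit 1) J) (thenR (Nat.ble (nat_lit 2) K)
    (thenR (Nat.ble (rTShi (Nat.add k (nat_lit 1)) (Nat.mul (nat_lit 2) J) K) al)
      (thenR (Nat.ble (Nat.add (rThi k J) (rThi (Nat.add k (nat_lit 2)) J)) bl)
        (bwallG k J K (Nat.sub K (nat_lit 1)) (Nat.add k (Nat.mul (nat_lit 2) (Nat.mul (Nat.sub K (nat_lit 1)) J))) al ah bl bh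
          cs us fr κ)))))

/-- the checks of `wok` -/
noncomputable def rwok (al k J K : Nat) (x : Res) : Res :=
  thenR (Nat.ble (nat_lit 1) k) (thenR (Nat.ble (nat_lit 1) J) (thenR (Nat.ble (nat_lit 2) K)
    (thenR (Nat.ble (rdh (Nat.mul (nat_lit 2) J) K (Nat.add k (nat_lit 1)) (nat_lit 0)) al) x)))

noncomputable def wallPc (k J K J2 K2 al ah bl bh : Nat) : Mt := fun cs us fr κ =>
  Bool.rec (motive := fun _ => Res) (viaStep (Op.wall k J K J2 K2) (Ctx.pc al ah bl bh) cs us fr κ)
    (rwok al k J K (rwok al (Nat.add k (Nat.mul (nat_lit 2) (Nat.mul J K))) J2 K2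
      (wallG k (Nat.add k (Nat.mul (nat_lit 2) (Nat.mul J K))) J K J2 K2 al ah bl bh cs us fr κ)))
    (Nat.ble (Nat.add (Nat.add k (Nat.mul (nat_lit 2) (Nat.mul J K))) (Nat.mul (nat_lit 2) (Nat.mul J2 K2))) (nat_lit 99999))

/-- `g` on the rectangle with sides exchanged -/
noncomputable def gSw (g : Ctx → Mt) : Ctx → Mt :=
  Ctx.rec (motive := fun _ => Mt) (fun al ah bl bh => g (Ctx.pc bl bh al ah)) (fun _ _ _ _ => noM) (fun _ _ _ _ => noM) (fun _ => noM)
    (fun _ _ _ _ _ => noM) (fun _ _ _ => noM)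

/-- `g` on the first piece of a chain -/
noncomputable def kidCh (g : Ctx → Mt) (wl wh k m : Nat) : Mt := fun cs us fr κ =>
  Bool.rec (motive := fun _ => Res) none (Bool.rec (motive := fun _ => Res) none (Bool.rec (motive := fun _ => Res) none
    (g (Ctx.pc (Nat.sub wl (rc (Nat.add k (nat_lit 1)))) (Nat.sub wh (ru (Nat.add k (nat_lit 1))))
      (rLl k) (rLh k)) (List.cons (Ctx.ch wl wh (Nat.add k (nat_lit 2)) (Nat.sub m (nat_lit 1))) cs) us fr κ)
    (Nat.ble (rc (Nat.add k (nat_lit 1))) wl)) (Nat.ble (nat_lit 1) k)) (Nat.ble (nat_lit 1) m)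

noncomputable def kidUch (g : Ctx → Mt) (wl wh k m : Nat) : Mt := fun cs us fr κ =>
  Bool.rec (motive := fun _ => Res) none (Bool.rec (motive := fun _ => Res) none (Bool.rec (motive := fun _ => Res) none
    (g (Ctx.pc (Nat.sub wl (rLh k)) (Nat.sub wh (rLl k))
      (ru (Nat.add k (nat_lit 1))) (rc (Nat.add k (nat_lit 1))))
      (List.cons (Ctx.uch wl wh (Nat.add k (nat_lit 2)) (Nat.sub m (nat_lit 1))) cs) us fr κ)
    (Nat.ble (rLh k) wl)) (Nat.ble (nat_lit 1) k)) (Nat.ble (nat_lit 1) m)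

noncomputable def kidLs2 (g : Ctx → Mt) (e : Q4) (l : List Q4) : Mt := fun cs us fr κ =>
  g (Ctx.pc e.1 e.2.1 e.2.2.1 e.2.2.2) (List.cons (Ctx.ls l) cs) us fr κ

noncomputable def kidLs (g : Ctx → Mt) (l : List Q4) : Mt :=
  List.rec (motive := fun _ => Mt) noM (fun e l _ => kidLs2 g e l) l

noncomputable def kidMc2 (g : Ctx → Mt) (lo hi Hl Hh k J m : Nat) : Mt := fun cs us fr κ =>
  thenR (Nat.ble hi Hl) (g (Ctx.pc (ru (Nat.add k (nat_lit 1))) (rc (Nat.add k (nat_lit 1)))
    (Nat.sub Hl hi) (Nat.sub Hh lo)) (List.cons (Ctx.mc Hl Hh (Nat.add k (Nat.mul (nat_lit 2) J)) J (Nat.sub m (nat_lit 1))) cs)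
    us fr κ)

noncomputable def kidMc (g : Ctx → Mt) (Hl Hh k J m : Nat) : Mt := fun cs us fr κ =>
  thenR (Nat.ble (nat_lit 1) m) (thenR (Nat.ble (nat_lit 1) J) (thenR (Nat.ble (nat_lit 1) k)
    (kidMc2 g (rTTlo k J) (rTThi k J) Hl Hh k J m cs us fr κ)))

noncomputable def gKid (g : Ctx → Mt) : Ctx → Mt :=
  Ctx.rec (motive := fun _ => Mt) (fun _ _ _ _ => noM) (kidCh g) (kidUch g) (kidLs g) (kidMc g) (fun _ _ _ => noM)

noncomputable def fSkip (s : Nat) : Ctx → Mt :=
  Ctx.rec (motive := fun _ => Mt) (fun _ _ _ _ => noM) (skipCh s) (skipUch s) (skipLs s)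
    (skipMc s) (fun _ _ _ => noM)

/-- apply `g` to the top of the stack -/
noncomputable def gcons (g : Ctx → Mt) (f : Kt) : Kt := fun st us fr =>
  List.rec (motive := fun _ => Res) none (fun c cs _ => g c cs us fr f) st

/-- the top of the stack becomes a free context -/
noncomputable def nilK (f : Kt) : Kt := fun st us fr =>
  List.rec (motive := fun _ => Res) none (fun c cs _ => f cs us (List.cons c fr)) st

noncomputable def nilsK (n : Nat) (κ : Kt) : Kt :=
  Nat.rec (motive := fun _ => Kt) κ (fun _ r => nilK r) n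

noncomputable def xop7 (c k : Nat) : Ctx → Mt :=
  Bool.rec (motive := fun _ => Ctx → Mt) fNil (onPc (domPc k)) (Nat.beq c (nat_lit 6))

noncomputable def xop6 (c k m : Nat) : Ctx → Mt :=
  Bool.rec (motive := fun _ => Ctx → Mt) (xop7 c k) (onPc (ustripPc k m)) (Nat.beq c (nat_lit 4))

noncomputable def xop5 (c k m : Nat) : Ctx → Mt :=
  Bool.rec (motive := fun _ => Ctx → Mt) (xop6 c k m) (onPc (item0Pc k)) (Nat.beq c (nat_lit 3))

noncomputable def xop4 (c k m : Nat) : Ctx → Mt :=
  Bool.rec (motive := fun _ => Ctx → Mt) (xop5 c k m) (fSkip k) (Nat.beq c (nat_lit 5))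

noncomputable def xop3 (c k m : Nat) : Ctx → Mt :=
  Bool.rec (motive := fun _ => Ctx → Mt) (xop4 c k m) (onPc (bwallPc k (Nat.div m (nat_lit 32768)) (Nat.mod m (nat_lit 32768))))
    (Nat.beq c (nat_lit 7))

noncomputable def xop2 (c k m : Nat) : Ctx → Mt :=
  Bool.rec (motive := fun _ => Ctx → Mt) (xop3 c k m) (onPc (item1Pc k)) (Nat.beq c (nat_lit 2))

/-- the operation with code `c` and data `k`, `m` -/
noncomputable def xop (c k m : Nat) : Ctx → Mt :=
  Bool.rec (motive := fun _ => Ctx → Mt) (xop2 c k m) (onPc (stripPc k m)) (Nat.beq c (nat_lit 1))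

noncomputable def xsw (b : Nat) (g : Ctx → Mt) : Ctx → Mt :=
  Bool.rec (motive := fun _ => Ctx → Mt) (gSw g) g (Nat.beq b (nat_lit 0))

noncomputable def xkid (b : Nat) (g : Ctx → Mt) : Ctx → Mt :=
  Bool.rec (motive := fun _ => Ctx → Mt) (gKid g) g (Nat.beq b (nat_lit 0))

/-- one word: code 4 bits, kid 1 bit, swap 1 bit, number of trailing `nil` 3 bits, `k` 29 bits, `m` -/
noncomputable def xword (w : Nat) (κ : Kt) : Kt :=
  gcons (xkid (Nat.land w (nat_lit 16)) (xsw (Nat.land w (nat_lit 32))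
    (xop (Nat.land w (nat_lit 15)) (Nat.land (Nat.shiftRight w (nat_lit 9)) (nat_lit 536870911)) (Nat.shiftRight w (nat_lit 38)))))
    (nilsK (Nat.land (Nat.shiftRight w (nat_lit 6)) (nat_lit 7)) κ)

/-- words of 64 bits -/
noncomputable def xwords (fuel : Nat) : Nat → Kt → Kt :=
  Nat.rec (motive := fun _ => Nat → Kt → Kt) (fun _ κ => κ)
    (fun _ f x κ => Bool.rec (motive := fun _ => Kt)
      (xword (Nat.land x (nat_lit 18446744073709551615)) (f (Nat.shiftRight x (nat_lit 64)) κ)) κ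
      (Nat.beq x (nat_lit 0))) fuel

/-- a big operation: code 12 = nothing, 13 = cut, 14 = wall, 15 = wallj -/
noncomputable def xbig3 (x : Nat) : Ctx → Mt :=
  viaStep (Op.wallj (Nat.land x (nat_lit 536870911)) (Nat.land (Nat.shiftRight x (nat_lit 29)) (nat_lit 63))
          (Nat.land (Nat.shiftRight x (nat_lit 35)) (nat_lit 65535)) (Nat.land (Nat.shiftRight x (nat_lit 51)) (nat_lit 63))
          (Nat.shiftRight x (nat_lit 57)))

noncomputable def xbig2 (c x : Nat) : Ctx → Mt :=
  Bool.rec (motive := fun _ => Ctx → Mt) (xbig3 x)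
    (onPc (wallPc (Nat.land x (nat_lit 536870911)) (Nat.land (Nat.shiftRight x (nat_lit 29)) (nat_lit 63))
          (Nat.land (Nat.shiftRight x (nat_lit 35)) (nat_lit 65535)) (Nat.land (Nat.shiftRight x (nat_lit 51)) (nat_lit 63))
          (Nat.shiftRight x (nat_lit 57))))
    (Nat.beq c (nat_lit 14))

noncomputable def xbig (c x : Nat) : Ctx → Mt :=
  Bool.rec (motive := fun _ => Ctx → Mt) (xbig2 c x) (onPc (cutPc x)) (Nat.beq c (nat_lit 13))

/-- one element of a program: 48 words, or one big operation -/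
noncomputable def xelem (x : Nat) (κ : Kt) : Kt :=
  Bool.rec (motive := fun _ => Kt)
    (xwords (nat_lit 64) x κ)
    (gcons (xkid (Nat.land x (nat_lit 16)) (xsw (Nat.land x (nat_lit 32)) (xbig (Nat.land x (nat_lit 15)) (Nat.shiftRight x (nat_lit 9)))))
      (nilsK (Nat.land (Nat.shiftRight x (nat_lit 6)) (nat_lit 7)) κ))
    (Nat.ble (nat_lit 12) (Nat.land x (nat_lit 15)))

/-- run a packed program, then continue -/
noncomputable def frunE (els : List Nat) (κ : Kt) : Kt :=
  List.rec (motive := fun _ => Kt) κ (fun x _ f => xelem x f) els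

/-- the end of a part -/
def endK : Kt := fun st us fr => some (st, us, fr)

def q4eq : List Q4 → List Q4 → Bool
  | [], [] => true
  | (a, b, c, d) :: l, (a', b', c', d') :: l' =>
    (Nat.beq a a' && Nat.beq b b') && ((Nat.beq c c' && Nat.beq d d') && q4eq l l')
  | _, _ => false

/-- equality of contexts -/
def ceq : Ctx → Ctx → Bool
  | .pc a b c d, .pc a' b' c' d' => (Nat.beq a a' && Nat.beq b b') && (Nat.beq c c' && Nat.beq d d')
  | .ch a b c d, .ch a' b' c' d' => (Nat.beq a a' && Nat.beq b b') && (Nat.beq c c' && Nat.beq d d')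
  | .uch a b c d, .uch a' b' c' d' => (Nat.beq a a' && Nat.beq b b') && (Nat.beq c c' && Nat.beq d d')
  | .ls l, .ls l' => q4eq l l'
  | .mc a b c d e, .mc a' b' c' d' e' => (Nat.beq a a' && Nat.beq b b') && ((Nat.beq c c' && Nat.beq d d') && Nat.beq e e')
  | .bt a b c, .bt a' b' c' => Nat.beq a a' && (Nat.beq b b' && Nat.beq c c')
  | _, _ => false

def ceqL : List Ctx → List Ctx → Bool
  | [], [] => true
  | c :: l, c' :: l' => ceq c c' && ceqL l l'
  | _, _ => false

/-- the check of one part: from the stack `st0` to the stack `st1`, and `f` accepts the used intervals and the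
free contexts -/
noncomputable def chkEnd (st1 : List Ctx) (f : List (Nat × Nat) → List Ctx → Bool)
    (x : List Ctx × List (Nat × Nat) × List Ctx) : Bool := ceqL x.1 st1 && f x.2.1 x.2.2

noncomputable def chkPart (prog : List Nat) (st0 st1 : List Ctx) (f : List (Nat × Nat) → List Ctx → Bool) : Bool :=
  Option.rec (motive := fun _ => Bool) false (chkEnd st1 f) (frunE prog endK st0 List.nil List.nil)

end Pool.Agent.MMS
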