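import Pool.Agent.MP_94f265_co.ST.WallE
import Pool.Agent.MP_94f265_co.MM2.Par

/-!
# The bits of the walls: size estimates
-/

namespace Pool.Agent.MMS

open Pool.Agent.MM1 Pool.Agent.MM2

/-- one term of the height of a bit -/
noncomputable def fJ (J : ℕ) (m : ℝ) : ℝ := 2 * J / (m * (m + 2 * J))

/-- height of the bit above row `r` between the column starting at `x` and the next one -/
noncomputable def phc (J r : ℕ) (x : ℝ) : ℝ :=
  ∑ q ∈ Finset.range (r + 1), (fJ J (x + 2 * ((J - 1 - q : ℕ) : ℝ)) + fJ J (x + 2 * ((J - 1 - q : ℕ) : ℝ) + 2))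

/-- height of the bit `(r, t)` -/
noncomputable def bh (k J r t : ℕ) : ℝ := Hc (wb k J) (r + 1) t - Hc (wb k J) (r + 1) (t + 1)

/-- width of the bit `(r, t)` -/
noncomputable def bw (k J r t : ℕ) : ℝ := Xc (wa k J) (r + 1) (t + 1) - Xc (wa k J) r (t + 1)

theorem fJ_pos {J : ℕ} {m : ℝ} (hJ : 1 ≤ J) (hm : 0 < m) : 0 < fJ J m := by
  unfold fJ
  have : (1 : ℝ) ≤ J := by exact_mod_cast hJ
  positivity

theorem Lg_sub (J m : ℕ) (hm : 1 ≤ m) : Lg m - Lg (m + 2 * J) = fJ J m + fJ J ((m : ℝ) + 2) := by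
  unfold Lg fJ
  have h1 : (1 : ℝ) ≤ m := by exact_mod_cast hm
  have h2 : (0 : ℝ) ≤ J := Nat.cast_nonneg J
  push_cast
  field_simp
  ring

theorem bh_eq (k J r t : ℕ) (hk : 1 ≤ k) : bh k J r t = phc J r ((k + 2 * (t * J) : ℕ) : ℝ) := by
  unfold bh Hc phc
  rw [← Finset.sum_sub_distrib]
  refine Finset.sum_congr rfl fun q _ => ?_
  unfold wb
  rw [itm_succ, Lg_sub J _ (by have := itm_ge k J q t; omega)]
  have : ((itm k J q t : ℕ) : ℝ) = ((k + 2 * (t * J) : ℕ) : ℝ) + 2 * ((J - 1 - q : ℕ) : ℝ) := by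
    unfold itm
    push_cast
    ring
  rw [this]

theorem fJ_sub (J : ℕ) (m : ℝ) (hm : 0 < m) : fJ J m - fJ J (m + 2 * J) = fJ J m * (4 * J / (m + 4 * J)) := by
  unfold fJ
  have h2 : (0 : ℝ) ≤ J := Nat.cast_nonneg J
  have h3 : m + 2 * (J : ℝ) ≠ 0 := by positivity
  have h4 : m + 2 * (J : ℝ) + 2 * J ≠ 0 := by positivity
  have h5 : m + 4 * (J : ℝ) ≠ 0 := by positivity
  field_simp
  ring

/-- decrement, lower bound -/
theorem phc_dec_ge (J r : ℕ) (x : ℝ) (hJ : 1 ≤ J) (hx : 0 < x) :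
    phc J r x * (4 * J / (x + 6 * J)) ≤ phc J r x - phc J r (x + 2 * J) := by
  have hJ1 : (1 : ℝ) ≤ J := by exact_mod_cast hJ
  unfold phc
  rw [Finset.sum_mul, ← Finset.sum_sub_distrib]
  refine Finset.sum_le_sum fun q _ => ?_
  set e : ℝ := ((J - 1 - q : ℕ) : ℝ) with he
  have he0 : 0 ≤ e := Nat.cast_nonneg _
  have he1 : e ≤ J - 1 := by
    rw [he]
    have : (J - 1 - q : ℕ) + 1 ≤ J := by omega
    have h : ((J - 1 - q : ℕ) : ℝ) + 1 ≤ J := by exact_mod_cast this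
    linarith
  have key : ∀ m : ℝ, x ≤ m → m ≤ x + 2 * J → fJ J m * (4 * J / (x + 6 * J)) ≤ fJ J m - fJ J (m + 2 * J) := by
    intro m h1 h2
    have hm : 0 < m := by linarith
    rw [fJ_sub J m (by linarith)]
    apply mul_le_mul_of_nonneg_left _ (fJ_pos hJ (by linarith)).le
    apply div_le_div_of_nonneg_left (by positivity) (by positivity)
    linarith
  have k1 := key (x + 2 * e) (by linarith) (by linarith)
  have k2 := key (x + 2 * e + 2) (by linarith) (by linarith)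
  have e1 : x + 2 * (J : ℝ) + 2 * e = x + 2 * e + 2 * J := by ring
  have e2 : x + 2 * (J : ℝ) + 2 * e + 2 = x + 2 * e + 2 + 2 * J := by ring
  rw [e2, e1]
  linarith

/-- decrement, upper bound -/
theorem phc_dec_le (J r : ℕ) (x : ℝ) (hJ : 1 ≤ J) (hx : 0 < x) :
    phc J r x - phc J r (x + 2 * J) ≤ phc J r x * (4 * J / x) := by
  have hJ1 : (1 : ℝ) ≤ J := by exact_mod_cast hJ
  unfold phc
  rw [Finset.sum_mul, ← Finset.sum_sub_distrib]
  refine Finset.sum_le_sum fun q _ => ?_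
  set e : ℝ := ((J - 1 - q : ℕ) : ℝ) with he
  have he0 : 0 ≤ e := Nat.cast_nonneg _
  have key : ∀ m : ℝ, x ≤ m → fJ J m - fJ J (m + 2 * J) ≤ fJ J m * (4 * J / x) := by
    intro m h1
    rw [fJ_sub J m (by linarith)]
    apply mul_le_mul_of_nonneg_left _ (fJ_pos hJ (by linarith)).le
    apply div_le_div_of_nonneg_left (by positivity) (by positivity)
    linarith
  have k1 := key (x + 2 * e) (by linarith)
  have k2 := key (x + 2 * e + 2) (by linarith)
  have e1 : x + 2 * (J : ℝ) + 2 * e = x + 2 * e + 2 * J := by ring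
  have e2 : x + 2 * (J : ℝ) + 2 * e + 2 = x + 2 * e + 2 + 2 * J := by ring
  rw [e2, e1]
  linarith

theorem fJ_anti (J : ℕ) (m m' : ℝ) (hm : 0 < m) (h : m ≤ m') : fJ J m' ≤ fJ J m := by
  unfold fJ
  have h2 : (0 : ℝ) ≤ J := Nat.cast_nonneg J
  apply div_le_div_of_nonneg_left (by positivity) (by positivity)
  exact mul_le_mul h (by linarith) (by positivity) (by linarith)

theorem phc_anti (J r : ℕ) (x y : ℝ) (hx : 0 < x) (h : x ≤ y) : phc J r y ≤ phc J r x := by
  unfold phc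
  refine Finset.sum_le_sum fun q _ => ?_
  have he0 : (0 : ℝ) ≤ ((J - 1 - q : ℕ) : ℝ) := Nat.cast_nonneg _
  exact add_le_add (fJ_anti J _ _ (by linarith) (by linarith)) (fJ_anti J _ _ (by linarith) (by linarith))

theorem phc_pos (J r : ℕ) (x : ℝ) (hJ : 1 ≤ J) (hx : 0 < x) : 0 < phc J r x := by
  unfold phc
  apply Finset.sum_pos
  · intro q _
    have he0 : (0 : ℝ) ≤ ((J - 1 - q : ℕ) : ℝ) := Nat.cast_nonneg _
    exact add_pos (fJ_pos hJ (by linarith)) (fJ_pos hJ (by linarith))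
  · exact ⟨0, Finset.mem_range.2 (by omega)⟩

theorem phc_le (J r : ℕ) (x : ℝ) (hx : 0 < x) : phc J r x ≤ 4 * J * (r + 1) / x ^ 2 := by
  have h2 : (0 : ℝ) ≤ J := Nat.cast_nonneg J
  have key : ∀ m : ℝ, x ≤ m → fJ J m ≤ 2 * J / x ^ 2 := by
    intro m hm
    unfold fJ
    apply div_le_div_of_nonneg_left (by positivity) (by positivity)
    nlinarith [mul_nonneg h2 (by linarith : (0:ℝ) ≤ m)]
  have : phc J r x ≤ ∑ q ∈ Finset.range (r + 1), (4 * J / x ^ 2) := by
    unfold phc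
    refine Finset.sum_le_sum fun q _ => ?_
    have he0 : (0 : ℝ) ≤ ((J - 1 - q : ℕ) : ℝ) := Nat.cast_nonneg _
    have k1 := key (x + 2 * ((J - 1 - q : ℕ) : ℝ)) (by linarith)
    have k2 := key (x + 2 * ((J - 1 - q : ℕ) : ℝ) + 2) (by linarith)
    have : 4 * (J : ℝ) / x ^ 2 = 2 * J / x ^ 2 + 2 * J / x ^ 2 := by ring
    linarith
  refine this.trans ?_
  rw [Finset.sum_const, Finset.card_range, nsmul_eq_mul]
  push_cast
  apply le_of_eq
  ring

theorem phc_ge (J r : ℕ) (x : ℝ) (hJ : 1 ≤ J) (hx : 0 < x) : 4 * J * (r + 1) / (x + 4 * J) ^ 2 ≤ phc J r x := by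
  have hJ1 : (1 : ℝ) ≤ J := by exact_mod_cast hJ
  have key : ∀ m : ℝ, x ≤ m → m ≤ x + 2 * J → 2 * J / (x + 4 * J) ^ 2 ≤ fJ J m := by
    intro m h1 h2
    unfold fJ
    have hm : 0 < m := by linarith
    apply div_le_div_of_nonneg_left (by positivity) (by positivity)
    rw [sq]
    exact mul_le_mul (by linarith) (by linarith) (by positivity) (by positivity)
  have : ∑ q ∈ Finset.range (r + 1), (4 * J / (x + 4 * J) ^ 2) ≤ phc J r x := by
    unfold phc
    refine Finset.sum_le_sum fun q _ => ?_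
    have he0 : (0 : ℝ) ≤ ((J - 1 - q : ℕ) : ℝ) := Nat.cast_nonneg _
    have he1 : ((J - 1 - q : ℕ) : ℝ) ≤ J - 1 := by
      have : (J - 1 - q : ℕ) + 1 ≤ J := by omega
      have h : ((J - 1 - q : ℕ) : ℝ) + 1 ≤ J := by exact_mod_cast this
      linarith
    have k1 := key (x + 2 * ((J - 1 - q : ℕ) : ℝ)) (by linarith) (by linarith)
    have k2 := key (x + 2 * ((J - 1 - q : ℕ) : ℝ) + 2) (by linarith) (by linarith)
    have : 4 * (J : ℝ) / (x + 4 * J) ^ 2 = 2 * J / (x + 4 * J) ^ 2 + 2 * J / (x + 4 * J) ^ 2 := by ring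
    linarith
  refine le_trans ?_ this
  rw [Finset.sum_const, Finset.card_range, nsmul_eq_mul]
  push_cast
  apply le_of_eq
  ring

/-- increment of the width of a bit -/
theorem bw_succ (k J r t : ℕ) : bw k J r (t + 1) = bw k J r t + (wa k J (r + 1) (t + 1) - wa k J r (t + 1)) := by
  unfold bw Xc
  rw [Finset.sum_range_succ _ (t + 1), Finset.sum_range_succ _ (t + 1)]
  ring

theorem wa_sub (k J r s : ℕ) (hr : r + 2 ≤ J) (hk : 1 ≤ k) :
    2 / ((k : ℝ) + 2 * (s + 1) * J) ^ 2 ≤ wa k J (r + 1) s - wa k J r s ∧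
      wa k J (r + 1) s - wa k J r s ≤ 2 / (k : ℝ) ^ 2 := by
  have hk1 : (1 : ℝ) ≤ k := by exact_mod_cast hk
  obtain ⟨e, he⟩ : ∃ e, J = r + 2 + e := ⟨J - r - 2, by omega⟩
  have h1 : ((itm k J (r + 1) s : ℕ) : ℝ) = (k : ℝ) + 2 * (s * J + e) := by
    unfold itm
    rw [show J - 1 - (r + 1) = e by omega]
    push_cast
    ring
  have h2 : ((itm k J r s : ℕ) : ℝ) = (k : ℝ) + 2 * (s * J + e) + 2 := by
    unfold itm
    rw [show J - 1 - r = e + 1 by omega]
    push_cast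
    ring
  unfold wa
  rw [h1, h2]
  set m : ℝ := (k : ℝ) + 2 * (s * J + e) with hm
  have hs0 : (0 : ℝ) ≤ s := Nat.cast_nonneg s
  have hJ0 : (0 : ℝ) ≤ J := Nat.cast_nonneg J
  have he0 : (0 : ℝ) ≤ e := Nat.cast_nonneg e
  have hmk : (k : ℝ) ≤ m := by rw [hm]; nlinarith [mul_nonneg hs0 hJ0]
  have heJ : (e : ℝ) + 2 ≤ J := by
    have : e + 2 ≤ J := by omega
    exact_mod_cast this
  have e1 : 1 / (m + 1) - 1 / (m + 2 + 1) = 2 / ((m + 1) * (m + 3)) := by
    have : m + 1 ≠ 0 := by positivity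
    have : m + 2 + 1 ≠ 0 := by positivity
    have : m + 3 ≠ 0 := by positivity
    rw [div_sub_div _ _ (by positivity) (by positivity), div_eq_div_iff (by positivity) (by positivity)]
    ring
  rw [e1]
  constructor
  · apply div_le_div_of_nonneg_left (by norm_num) (by positivity)
    have h3 : m + 3 ≤ (k : ℝ) + 2 * (s + 1) * J := by rw [hm]; nlinarith
    nlinarith
  · apply div_le_div_of_nonneg_left (by norm_num) (by positivity)
    nlinarith

theorem bw_le (k J r t : ℕ) (hr : r + 2 ≤ J) (hk : 1 ≤ k) : bw k J r t ≤ (t + 1) * (2 / (k : ℝ) ^ 2) := by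
  induction t with
  | zero =>
    have := (wa_sub k J r 0 hr hk).2
    unfold bw Xc
    simp
    simpa using this
  | succ t ih =>
    rw [bw_succ]
    have := (wa_sub k J r (t + 1) hr hk).2
    push_cast
    linarith

/-- the widths of the bits of a row increase by at least `2 / (end of the wall)²` -/
theorem bw_gap (k J r K t d : ℕ) (hr : r + 2 ≤ J) (hk : 1 ≤ k) (htd : t + d + 1 < K) :
    d * (2 / ((k : ℝ) + 2 * J * K) ^ 2) ≤ bw k J r (t + d) - bw k J r t := by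
  induction d with
  | zero => simp
  | succ d ih =>
    have h1 := ih (by omega)
    have h2 := (wa_sub k J r (t + d + 1) hr hk).1
    have h3 : bw k J r (t + (d + 1)) = bw k J r (t + d) + (wa k J (r + 1) (t + d + 1) - wa k J r (t + d + 1)) := by
      rw [← Nat.add_assoc, bw_succ]
    rw [h3]
    have hk1 : (1 : ℝ) ≤ k := by exact_mod_cast hk
    have hJ0 : (0 : ℝ) ≤ J := Nat.cast_nonneg J
    have h4 : 2 / ((k : ℝ) + 2 * J * K) ^ 2 ≤ 2 / ((k : ℝ) + 2 * (((t + d + 1 : ℕ) : ℝ) + 1) * J) ^ 2 := by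
      apply div_le_div_of_nonneg_left (by norm_num) (by positivity)
      have h5 : ((t + d + 1 : ℕ) : ℝ) + 1 ≤ K := by
        have : t + d + 1 + 1 ≤ K := by omega
        exact_mod_cast this
      apply pow_le_pow_left₀ (by positivity)
      nlinarith
    push_cast at h4 h2 ⊢
    linarith

theorem bw_ge (k J r K t : ℕ) (hr : r + 2 ≤ J) (hk : 1 ≤ k) (htK : t + 1 < K) :
    2 / ((k : ℝ) + 2 * J * K) ^ 2 ≤ bw k J r t := by
  have hk1 : (1 : ℝ) ≤ k := by exact_mod_cast hk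
  have hJ0 : (0 : ℝ) ≤ J := Nat.cast_nonneg J
  have h0 : 2 / ((k : ℝ) + 2 * J * K) ^ 2 ≤ bw k J r 0 := by
    have h2 := (wa_sub k J r 0 hr hk).1
    have h3 : bw k J r 0 = wa k J (r + 1) 0 - wa k J r 0 := by
      unfold bw Xc; simp
    rw [h3]
    refine le_trans ?_ h2
    apply div_le_div_of_nonneg_left (by norm_num) (by positivity)
    apply pow_le_pow_left₀ (by positivity)
    have h5 : (1 : ℝ) ≤ K := by
      have : 1 ≤ K := by omega
      exact_mod_cast this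
    push_cast
    nlinarith
  have h1 := bw_gap k J r K 0 t hr hk (by omega)
  rw [Nat.zero_add] at h1
  have : 0 ≤ (t : ℝ) * (2 / ((k : ℝ) + 2 * J * K) ^ 2) := by positivity
  linarith

end Pool.Agent.MMS
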