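import Pool.Agent.MP_94f265_co.ST.BitsA

/-!
# The bits of the walls: telescoping over disjoint columns
-/

namespace Pool.Agent.MMS

open Pool.Agent.MM1 Pool.Agent.MM2

/-- the numbers of a wall `(k, J, K)` -/
def wNums (w : ℕ × ℕ × ℕ) : Multiset ℕ := (Finset.Ico w.1 (w.1 + 2 * w.2.1 * w.2.2)).val

theorem sum_le_of_le {s t : Multiset ℕ} (h : s ≤ t) (G : ℕ → ℝ) (hG : ∀ n, 0 ≤ G n) :
    (s.map G).sum ≤ (t.map G).sum := by
  obtain ⟨u, rfl⟩ := Multiset.le_iff_exists_add.1 h
  rw [Multiset.map_add, Multiset.sum_add]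
  have : 0 ≤ (u.map G).sum := by
    apply Multiset.sum_nonneg
    intro x hx
    obtain ⟨n, _, rfl⟩ := Multiset.mem_map.1 hx
    exact hG n
  linarith

theorem sum_bind_wNums (Ws : Multiset (ℕ × ℕ × ℕ)) (G : ℕ → ℝ) :
    ((Ws.map wNums).sum.map G).sum = (Ws.map (fun w => ∑ n ∈ Finset.Ico w.1 (w.1 + 2 * w.2.1 * w.2.2), G n)).sum := by
  induction Ws using Multiset.induction_on with
  | empty => simp
  | cons w Ws ih =>
    rw [Multiset.map_cons, Multiset.sum_cons, Multiset.map_add, Multiset.sum_add, ih, Multiset.map_cons,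
      Multiset.sum_cons]
    rfl

/-- columns of one wall -/
theorem cols_le (k J K : ℕ) (G : ℕ → ℝ) (hG : ∀ n, 0 ≤ G n) :
    ∑ t ∈ Finset.range (K - 1), ∑ n ∈ Finset.Ico (k + 2 * (t * J)) (k + 2 * (t * J) + 2 * J), G n ≤
      ∑ n ∈ Finset.Ico k (k + 2 * J * K), G n := by
  have h : ∀ m, ∑ t ∈ Finset.range m, ∑ n ∈ Finset.Ico (k + 2 * (t * J)) (k + 2 * (t * J) + 2 * J), G n =
      ∑ n ∈ Finset.Ico k (k + 2 * (m * J)), G n := by
    intro m
    induction m with
    | zero => simp
    | succ m ih =>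
      rw [Finset.sum_range_succ, ih]
      have e : k + 2 * ((m + 1) * J) = k + 2 * (m * J) + 2 * J := by ring
      rw [e]
      exact Finset.sum_Ico_consecutive G (by omega) (by omega)
  rw [h]
  apply Finset.sum_le_sum_of_subset_of_nonneg
  · apply Finset.Ico_subset_Ico_right
    have : (K - 1) * J ≤ K * J := Nat.mul_le_mul_right J (by omega)
    nlinarith
  · intro n _ _
    exact hG n

/-- **Telescoping.**  `f` antitone; the columns with `P`; the drops over disjoint columns add up to at most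
the drop between the extreme columns. -/
theorem tele_cols (J : ℕ) (hJ : 1 ≤ J) (f : ℕ → ℝ) (n0 M : ℕ) (hf : ∀ n m, n0 ≤ n → n ≤ m → f m ≤ f n)
    (P : ℕ → Prop) [DecidablePred P] (Ws : Multiset (ℕ × ℕ × ℕ)) (hWs : ∀ w ∈ Ws, w.2.1 = J)
    (hd : (Ws.map wNums).sum ≤ (Finset.Ico n0 M).val) (C : ℝ) (hC0 : 0 ≤ C)
    (hC : ∀ a b, n0 ≤ a → a ≤ b → P a → P b → f a - f (b + 2 * J) ≤ C) :
    (Ws.map (fun w => ∑ t ∈ Finset.range (w.2.2 - 1),
      if P (w.1 + 2 * (t * J)) then f (w.1 + 2 * (t * J)) - f (w.1 + 2 * (t * J) + 2 * J) else 0)).sum ≤ C := by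
  classical
  set T := (Finset.Ico n0 M).filter P with hT
  -- every column with `P` lies in `T`
  have hmemW : ∀ w ∈ Ws, n0 ≤ w.1 ∨ w.2.2 = 0 := by
    intro w hw
    by_contra hcon
    push Not at hcon
    have h1 : wNums w ≤ (Ws.map wNums).sum :=
      Multiset.single_le_sum (fun _ _ => Multiset.zero_le _) _ (Multiset.mem_map_of_mem _ hw)
    have h2 : w.1 ∈ wNums w := by
      unfold wNums
      rw [Finset.mem_val, Finset.mem_Ico, hWs w hw]
      refine ⟨le_rfl, ?_⟩
      have : 0 < J * w.2.2 := Nat.mul_pos hJ (by omega)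
      nlinarith
    have h3 := Multiset.mem_of_le (h1.trans hd) h2
    rw [Finset.mem_val, Finset.mem_Ico] at h3
    omega
  have hcolT : ∀ w ∈ Ws, ∀ t ∈ Finset.range (w.2.2 - 1), P (w.1 + 2 * (t * J)) → w.1 + 2 * (t * J) ∈ T := by
    intro w hw t ht hP
    rw [Finset.mem_range] at ht
    rw [hT, Finset.mem_filter, Finset.mem_Ico]
    have h1 : wNums w ≤ (Ws.map wNums).sum :=
      Multiset.single_le_sum (fun _ _ => Multiset.zero_le _) _ (Multiset.mem_map_of_mem _ hw)
    have h2 : w.1 + 2 * (t * J) ∈ wNums w := by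
      unfold wNums
      rw [Finset.mem_val, Finset.mem_Ico, hWs w hw]
      refine ⟨by omega, ?_⟩
      have h3 : (t + 1) * J ≤ w.2.2 * J := Nat.mul_le_mul_right J (by omega)
      nlinarith
    have h3 := Multiset.mem_of_le (h1.trans hd) h2
    rw [Finset.mem_val, Finset.mem_Ico] at h3
    exact ⟨h3, hP⟩
  rcases T.eq_empty_or_nonempty with hTe | hTn
  · -- no active column
    have h0 : (Ws.map (fun w => ∑ t ∈ Finset.range (w.2.2 - 1),
      if P (w.1 + 2 * (t * J)) then f (w.1 + 2 * (t * J)) - f (w.1 + 2 * (t * J) + 2 * J) else 0)).sum =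
      (Ws.map (fun _ => (0 : ℝ))).sum := by
      congr 1
      apply Multiset.map_congr rfl
      intro w hw
      apply Finset.sum_eq_zero
      intro t ht
      rw [if_neg]
      intro hP
      have := hcolT w hw t ht hP
      rw [hTe] at this
      simp at this
    rw [h0]
    simpa using hC0
  · set a := T.min' hTn with ha
    set b := T.max' hTn with hb
    have haT : a ∈ T := T.min'_mem hTn
    have hbT : b ∈ T := T.max'_mem hTn
    have hab : a ≤ b := T.min'_le _ hbT
    rw [hT, Finset.mem_filter, Finset.mem_Ico] at haT hbT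
    set G : ℕ → ℝ := fun n => if a ≤ n ∧ n < b + 2 * J then f n - f (n + 1) else 0 with hG
    have hG0 : ∀ n, 0 ≤ G n := by
      intro n
      rw [hG]
      simp only
      split_ifs with h
      · have := hf n (n + 1) (by omega) (by omega)
        linarith
      · exact le_rfl
    have htel : ∀ x y, x ≤ y → ∑ n ∈ Finset.Ico x y, (f n - f (n + 1)) = f x - f y := by
      intro x y hxy
      induction y, hxy using Nat.le_induction with
      | base => simp
      | succ y hy ih => rw [Finset.sum_Ico_succ_top hy, ih]; ring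
    have h1 : (Ws.map (fun w => ∑ t ∈ Finset.range (w.2.2 - 1),
      if P (w.1 + 2 * (t * J)) then f (w.1 + 2 * (t * J)) - f (w.1 + 2 * (t * J) + 2 * J) else 0)).sum ≤
      (Ws.map (fun w => ∑ n ∈ Finset.Ico w.1 (w.1 + 2 * w.2.1 * w.2.2), G n)).sum := by
      apply Multiset.sum_map_le_sum_map
      intro w hw
      rw [hWs w hw]
      refine le_trans ?_ (cols_le w.1 J w.2.2 G hG0)
      apply Finset.sum_le_sum
      intro t ht
      split_ifs with hP
      · have hmem := hcolT w hw t ht hP
        have h2 : a ≤ w.1 + 2 * (t * J) := T.min'_le _ hmem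
        have h3 : w.1 + 2 * (t * J) ≤ b := T.le_max' _ hmem
        rw [← htel _ _ (by omega : w.1 + 2 * (t * J) ≤ w.1 + 2 * (t * J) + 2 * J)]
        apply le_of_eq
        apply Finset.sum_congr rfl
        intro n hn
        rw [Finset.mem_Ico] at hn
        rw [hG]
        simp only
        rw [if_pos ⟨by omega, by omega⟩]
      · exact Finset.sum_nonneg fun n _ => hG0 n
    refine h1.trans ?_
    rw [← sum_bind_wNums]
    refine (sum_le_of_le hd G hG0).trans ?_
    have h2 : ((Finset.Ico n0 M).val.map G).sum = ∑ n ∈ Finset.Ico n0 M, G n := rfl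
    rw [h2]
    have h3 : ∑ n ∈ Finset.Ico n0 M, G n ≤ ∑ n ∈ Finset.Ico a (b + 2 * J), (f n - f (n + 1)) := by
      calc ∑ n ∈ Finset.Ico n0 M, G n = ∑ n ∈ (Finset.Ico n0 M).filter (fun n => a ≤ n ∧ n < b + 2 * J), (f n - f (n + 1)) := by
            rw [Finset.sum_filter]
        _ ≤ ∑ n ∈ Finset.Ico a (b + 2 * J), (f n - f (n + 1)) := by
            apply Finset.sum_le_sum_of_subset_of_nonneg
            · intro n hn
              rw [Finset.mem_filter] at hn
              exact Finset.mem_Ico.2 hn.2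
            · intro n hn _
              rw [Finset.mem_Ico] at hn
              have := hf n (n + 1) (by omega) (by omega)
              linarith
    refine h3.trans ?_
    rw [htel _ _ (by omega)]
    exact hC a b haT.1.1 hab haT.2 hbT.2

end Pool.Agent.MMS
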