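import Pool.Agent.MP_94f265_co.ST.BitsB

/-!
# The bits of the walls: the load of a class
-/

namespace Pool.Agent.MMS

open Pool.Agent.MM2

/-- the pieces of a bit `w × h`: (thickness, length) -/
noncomputable def bitPs (w h : ℝ) : Multiset (ℝ × ℝ) :=
  if (51 / 50) * h ≤ w then {(h, w)} else if (51 / 50) * w ≤ h then {(w, h)} else {(h / 2, w)} + {(h / 2, w)}

/-- the pieces of the bits of a wall -/
noncomputable def wallPs (w : ℕ × ℕ × ℕ) : Multiset (ℝ × ℝ) :=
  ∑ r ∈ Finset.range (w.2.1 - 1), ∑ t ∈ Finset.range (w.2.2 - 1),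
    bitPs (bw w.1 w.2.1 r t) (bh w.1 w.2.1 r t)

/-- the conditions on the walls with bits -/
structure WOK (w : ℕ × ℕ × ℕ) : Prop where
  k0 : 66654 ≤ w.1
  J2 : 2 ≤ w.2.1
  J24 : w.2.1 ≤ 24
  hL : 100 * w.2.1 ^ 2 * w.2.2 ≤ w.1
  hJ : 1000 * w.2.1 ^ 3 ≤ w.1
  hT : 4 * w.2.1 * (w.2.1 - 1) * 300000000 ≤ w.1 ^ 2

/-! ## classes -/

theorem cls_w1 (K : ℕ) (hK : 1600 ≤ K) : 0 < Th K ∧ Th K < Th (K - 1) ∧
    Th (K - 1) - Th K ≤ (3006 / 1000) / K * Th K := by
  have h1 := om_le (K := K) (by omega)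
  have hA : 0 < Th K := Th_pos (by omega)
  have hlt : Th K < Th (K - 1) := Th_lt (by omega) (by omega)
  have hB : 0 < Th (K - 1) := hA.trans hlt
  have hKr : (1600 : ℝ) ≤ K := by exact_mod_cast hK
  have hK0 : (0 : ℝ) < K := by linarith
  unfold om at h1
  rw [div_le_iff₀ hB] at h1
  refine ⟨hA, hlt, ?_⟩
  have h3 : 3 / (K : ℝ) ≤ 3 / 1600 := div_le_div_of_nonneg_left (by norm_num) (by norm_num) hKr
  have h4 : 0 < 3 / (K : ℝ) := by positivity
  have h5 : Th (K - 1) ≤ (1002 / 1000) * Th K := by nlinarith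
  have h6 : (3006 / 1000) / (K : ℝ) * Th K = 3 / K * ((1002 / 1000) * Th K) := by ring
  rw [h6]
  exact h1.trans (mul_le_mul_of_nonneg_left h5 h4.le)

/-- columns whose bits have height less than `2 Th (K - 1)` are far out -/
theorem col_far (K J r : ℕ) (x : ℝ) (hK : 1600 ≤ K) (hJ : 1 ≤ J) (hJ24 : J ≤ 24) (hx : 0 < x)
    (h : phc J r x < 2 * Th (K - 1)) : 4 * J / x ≤ (135 / 100) / K := by
  have hKr : (1600 : ℝ) ≤ K := by exact_mod_cast hK
  have hJ1 : (1 : ℝ) ≤ J := by exact_mod_cast hJ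
  have hJ2 : (J : ℝ) ≤ 24 := by exact_mod_cast hJ24
  have h1 := phc_ge J r x hJ hx
  have e1 : ((K - 1 : ℕ) : ℝ) = (K : ℝ) - 1 := by rw [Nat.cast_sub (by omega)]; simp
  have h2 : 4 * (J : ℝ) / (x + 4 * J) ^ 2 ≤ 4 * J * (r + 1) / (x + 4 * J) ^ 2 := by
    apply div_le_div_of_nonneg_right _ (by positivity)
    have : (0 : ℝ) ≤ r := Nat.cast_nonneg r
    nlinarith
  have h3 : 4 * (J : ℝ) / (x + 4 * J) ^ 2 < 2 * Th (K - 1) := by linarith
  rw [Th_eq, e1] at h3
  have hT : 0 < TT ((K : ℝ) - 1 - 1 / 5) := TT_pos (by linarith)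
  rw [mul_one_div, div_lt_div_iff₀ (by positivity) hT] at h3
  -- `4 J TT < 2 (x + 4J)^2`
  rw [div_le_div_iff₀ hx (by linarith)]
  by_contra hcon
  push Not at hcon
  -- `x < (400/135) J K`
  have h4 : x + 4 * J < J * ((400 / 135) * K + 4) := by linarith
  have h5 : (x + 4 * J) ^ 2 < (J * ((400 / 135) * K + 4)) ^ 2 :=
    pow_lt_pow_left₀ h4 (by positivity) (by norm_num)
  have h6 : 4 * (J : ℝ) * TT ((K : ℝ) - 1 - 1 / 5) < 2 * (J * ((400 / 135) * K + 4)) ^ 2 := by linarith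
  have h7 : 2 * ((J : ℝ) * ((400 / 135) * K + 4)) ^ 2 = J * (2 * J * ((400 / 135) * K + 4) ^ 2) := by ring
  rw [h7, show 4 * (J : ℝ) * TT ((K : ℝ) - 1 - 1 / 5) = J * (4 * TT ((K : ℝ) - 1 - 1 / 5)) by ring] at h6
  have h8 := lt_of_mul_lt_mul_left h6 (by linarith)
  have h9 : 2 * (J : ℝ) * ((400 / 135) * K + 4) ^ 2 ≤ 48 * ((400 / 135) * K + 4) ^ 2 := by
    apply mul_le_mul_of_nonneg_right _ (by positivity)
    linarith
  have h10 : 48 * ((400 / 135) * (K : ℝ) + 4) ^ 2 ≤ 4 * TT ((K : ℝ) - 1 - 1 / 5) := by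
    unfold TT
    obtain ⟨s, hs⟩ : ∃ s : ℝ, s = K - 1600 := ⟨_, rfl⟩
    have hs0 : 0 ≤ s := by linarith
    have e : (K : ℝ) = s + 1600 := by linarith
    rw [e]
    nlinarith [mul_nonneg hs0 hs0, mul_nonneg (mul_nonneg hs0 hs0) hs0]
  linarith

/-! ## thin in height -/

theorem WOK.end_le {w : ℕ × ℕ × ℕ} (h : WOK w) : (w.1 : ℝ) + 2 * w.2.1 * w.2.2 ≤ (101 / 100) * w.1 := by
  have h1 := h.hL
  have h2 : (100 : ℝ) * (w.2.1 : ℝ) ^ 2 * w.2.2 ≤ w.1 := by exact_mod_cast h1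
  have h3 : (2 : ℝ) ≤ w.2.1 := by exact_mod_cast h.J2
  have h4 : (0 : ℝ) ≤ w.2.2 := Nat.cast_nonneg _
  have h5 : (2 : ℝ) * w.2.1 * w.2.2 * 100 ≤ (w.2.1 : ℝ) * (w.2.1 * w.2.2 * 100) := by
    have : 0 ≤ (w.2.1 : ℝ) * w.2.2 * 100 := by positivity
    nlinarith
  nlinarith

section

variable (K : ℕ) (J r : ℕ) (n0 M : ℕ) (Ws : Multiset (ℕ × ℕ × ℕ))

/-- bits with height in the class -/
theorem thinH (hK : 1600 ≤ K) (hW : ∀ w ∈ Ws, WOK w ∧ w.2.1 = J) (hr : r + 2 ≤ J)
    (hn0 : 1 ≤ n0) (hd : (Ws.map wNums).sum ≤ (Finset.Ico n0 M).val) :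
    (Ws.map (fun w => ∑ t ∈ Finset.range (w.2.2 - 1),
      if Th K ≤ bh w.1 J r t ∧ bh w.1 J r t < Th (K - 1) then 2 * (w.2.2 : ℝ) / (w.1 : ℝ) ^ 2 else 0)).sum ≤
      (2222 / 100000) / (J : ℝ) ^ 3 / K := by
  classical
  by_cases hWe : Ws = 0
  · rw [hWe]; simp; positivity
  obtain ⟨w0, hw0⟩ := Multiset.exists_mem_of_ne_zero hWe
  have hJ2 : 2 ≤ J := by have := (hW w0 hw0).1.J2; rw [(hW w0 hw0).2] at this; exact this
  have hJ24 : J ≤ 24 := by have := (hW w0 hw0).1.J24; rw [(hW w0 hw0).2] at this; exact this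
  have hJr : (2 : ℝ) ≤ J := by exact_mod_cast hJ2
  have hJr24 : (J : ℝ) ≤ 24 := by exact_mod_cast hJ24
  have hKr : (1600 : ℝ) ≤ K := by exact_mod_cast hK
  obtain ⟨hA, hAB, hBA⟩ := cls_w1 K hK
  have htel := tele_cols J (by omega) (fun n : ℕ => phc J r (n : ℝ)) n0 M
    (by
      intro n m h1 h2
      apply phc_anti J r _ _ _ (by exact_mod_cast h2)
      have : 0 < n := by omega
      exact_mod_cast this)
    (fun n : ℕ => Th K ≤ phc J r (n : ℝ) ∧ phc J r (n : ℝ) < Th (K - 1)) Ws (fun w hw => (hW w hw).2) hd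
    ((4356 / 1000) / K * Th K) (by positivity)
    (by
      intro a b ha hab hPa hPb
      have hb0 : (0 : ℝ) < b := by
        have : 0 < b := by omega
        exact_mod_cast this
      have h1 := phc_dec_le J r b (by omega) hb0
      have h2 := col_far K J r b hK (by omega) hJ24 hb0 (by linarith [hPb.2])
      have h3 : phc J r (b : ℝ) * (4 * J / b) ≤ phc J r b * ((135 / 100) / K) :=
        mul_le_mul_of_nonneg_left h2 (phc_pos J r b (by omega) hb0).le
      have h4 : ((b + 2 * J : ℕ) : ℝ) = (b : ℝ) + 2 * J := by push_cast; ring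
      rw [h4]
      have h5 : (135 / 100) / (K : ℝ) ≤ 1 := by rw [div_le_one (by linarith)]; linarith
      have h6 : Th K * (1 - (135 / 100) / K) ≤ phc J r (b : ℝ) * (1 - (135 / 100) / K) :=
        mul_le_mul_of_nonneg_right hPb.1 (by linarith)
      have h7 : (4356 / 1000) / (K : ℝ) * Th K = (3006 / 1000) / K * Th K + Th K * ((135 / 100) / K) := by ring
      rw [h7]
      linarith [hPa.2])
  -- comparison
  have hcmp : (Ws.map (fun w => ∑ t ∈ Finset.range (w.2.2 - 1),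
      if Th K ≤ bh w.1 J r t ∧ bh w.1 J r t < Th (K - 1) then 2 * (w.2.2 : ℝ) / (w.1 : ℝ) ^ 2 else 0)).sum ≤
      (Ws.map (fun w => (51 / 10000) / ((J : ℝ) ^ 3 * Th K) * ∑ t ∈ Finset.range (w.2.2 - 1),
        if Th K ≤ phc J r ((w.1 + 2 * (t * J) : ℕ) : ℝ) ∧ phc J r ((w.1 + 2 * (t * J) : ℕ) : ℝ) < Th (K - 1) then
          phc J r ((w.1 + 2 * (t * J) : ℕ) : ℝ) - phc J r ((w.1 + 2 * (t * J) + 2 * J : ℕ) : ℝ) else 0)).sum := by
    apply Multiset.sum_map_le_sum_map
    intro w hw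
    obtain ⟨hw1, hw2⟩ := hW w hw
    rw [Finset.mul_sum]
    apply Finset.sum_le_sum
    intro t ht
    rw [Finset.mem_range] at ht
    have hk0 := hw1.k0
    rw [bh_eq w.1 J r t (by omega)]
    split_ifs with hP
    · set x : ℝ := ((w.1 + 2 * (t * J) : ℕ) : ℝ) with hx
      have hk : (66654 : ℝ) ≤ w.1 := by exact_mod_cast hk0
      have hxk : (w.1 : ℝ) ≤ x := by rw [hx]; push_cast; have : (0:ℝ) ≤ (t:ℝ) * J := by positivity
                                     linarith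
      have hxe : x + 2 * J ≤ (w.1 : ℝ) + 2 * J * w.2.2 := by
        have h1 : w.1 + 2 * (t * J) + 2 * J ≤ w.1 + 2 * J * w.2.2 := by
          have : (t + 1) * J ≤ w.2.2 * J := Nat.mul_le_mul_right J (by omega)
          nlinarith
        have h2 : ((w.1 + 2 * (t * J) + 2 * J : ℕ) : ℝ) ≤ ((w.1 + 2 * J * w.2.2 : ℕ) : ℝ) := by exact_mod_cast h1
        push_cast at h2 ⊢
        rw [hx]
        push_cast
        linarith
      have hend := hw1.end_le
      rw [hw2] at hend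
      have h4 : ((w.1 + 2 * (t * J) + 2 * J : ℕ) : ℝ) = x + 2 * J := by rw [hx]; push_cast; ring
      rw [h4]
      have h5 := phc_dec_ge J r x (by omega) (by linarith)
      have h6 : Th K * (4 * J / (x + 6 * J)) ≤ phc J r x * (4 * J / (x + 6 * J)) :=
        mul_le_mul_of_nonneg_right hP.1 (by positivity)
      have h7 : Th K * (4 * J / (x + 6 * J)) ≤ phc J r x - phc J r (x + 2 * J) := h6.trans h5
      have h8 : (51 / 10000) / ((J : ℝ) ^ 3 * Th K) * (Th K * (4 * J / (x + 6 * J))) ≤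
          (51 / 10000) / ((J : ℝ) ^ 3 * Th K) * (phc J r x - phc J r (x + 2 * J)) :=
        mul_le_mul_of_nonneg_left h7 (by positivity)
      refine le_trans ?_ h8
      have e : (51 / 10000) / ((J : ℝ) ^ 3 * Th K) * (Th K * (4 * J / (x + 6 * J))) =
          (204 / 10000) / (J ^ 2 * (x + 6 * J)) := by
        have : (x + 6 * (J : ℝ)) ≠ 0 := by positivity
        field_simp
        ring
      rw [e, div_le_div_iff₀ (by positivity) (by positivity)]
      have h9 : (100 : ℝ) * (J : ℝ) ^ 2 * w.2.2 ≤ w.1 := by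
        have := hw1.hL
        rw [hw2] at this
        exact_mod_cast this
      have h10 : x + 6 * J ≤ (1015 / 1000) * w.1 := by linarith
      have h11 : 2 * (w.2.2 : ℝ) * (J ^ 2 * (x + 6 * J)) = (2 * J ^ 2 * w.2.2) * (x + 6 * J) := by ring
      rw [h11]
      calc (2 * (J : ℝ) ^ 2 * w.2.2) * (x + 6 * J) ≤ ((20 / 1000) * w.1) * ((1015 / 1000) * w.1) := by
            apply mul_le_mul (by linarith) h10 (by positivity) (by positivity)
        _ ≤ (204 / 10000) * (w.1 : ℝ) ^ 2 := by nlinarith [sq_nonneg (w.1 : ℝ)]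
    · simp
  refine hcmp.trans ?_
  rw [Multiset.sum_map_mul_left]
  have h12 : (51 / 10000) / ((J : ℝ) ^ 3 * Th K) * (Ws.map (fun w => ∑ t ∈ Finset.range (w.2.2 - 1),
        if Th K ≤ phc J r ((w.1 + 2 * (t * J) : ℕ) : ℝ) ∧ phc J r ((w.1 + 2 * (t * J) : ℕ) : ℝ) < Th (K - 1) then
          phc J r ((w.1 + 2 * (t * J) : ℕ) : ℝ) - phc J r ((w.1 + 2 * (t * J) + 2 * J : ℕ) : ℝ) else 0)).sum ≤
      (51 / 10000) / ((J : ℝ) ^ 3 * Th K) * ((4356 / 1000) / K * Th K) := by
    apply mul_le_mul_of_nonneg_left _ (by positivity)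
    exact htel
  refine h12.trans ?_
  have e : (51 / 10000) / ((J : ℝ) ^ 3 * Th K) * ((4356 / 1000) / K * Th K) = (51 / 10000 * (4356 / 1000)) / J ^ 3 / K := by
    field_simp
  rw [e]
  apply div_le_div_of_nonneg_right _ (by linarith)
  apply div_le_div_of_nonneg_right _ (by positivity)
  norm_num

/-- bits with half of the height in the class -/
theorem thinHH (hK : 1600 ≤ K) (hW : ∀ w ∈ Ws, WOK w ∧ w.2.1 = J) (hr : r + 2 ≤ J)
    (hn0 : 1 ≤ n0) (hd : (Ws.map wNums).sum ≤ (Finset.Ico n0 M).val) :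
    (Ws.map (fun w => ∑ t ∈ Finset.range (w.2.2 - 1),
      if 2 * Th K ≤ bh w.1 J r t ∧ bh w.1 J r t < 2 * Th (K - 1) then (51 / 25) * bh w.1 J r t else 0)).sum ≤
      (8922 / 1000000) * ((r : ℝ) + 1) / (J : ℝ) ^ 3 / K := by
  classical
  by_cases hWe : Ws = 0
  · rw [hWe]; simp; positivity
  obtain ⟨w0, hw0⟩ := Multiset.exists_mem_of_ne_zero hWe
  have hJ2 : 2 ≤ J := by have := (hW w0 hw0).1.J2; rw [(hW w0 hw0).2] at this; exact this
  have hJ24 : J ≤ 24 := by have := (hW w0 hw0).1.J24; rw [(hW w0 hw0).2] at this; exact this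
  have hJr : (2 : ℝ) ≤ J := by exact_mod_cast hJ2
  have hJr24 : (J : ℝ) ≤ 24 := by exact_mod_cast hJ24
  have hKr : (1600 : ℝ) ≤ K := by exact_mod_cast hK
  have hr0 : (0 : ℝ) ≤ r := Nat.cast_nonneg r
  obtain ⟨hA, hAB, hBA⟩ := cls_w1 K hK
  have htel := tele_cols J (by omega) (fun n : ℕ => phc J r (n : ℝ)) n0 M
    (by
      intro n m h1 h2
      apply phc_anti J r _ _ _ (by exact_mod_cast h2)
      have : 0 < n := by omega
      exact_mod_cast this)
    (fun n : ℕ => 2 * Th K ≤ phc J r (n : ℝ) ∧ phc J r (n : ℝ) < 2 * Th (K - 1)) Ws (fun w hw => (hW w hw).2) hd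
    ((8712 / 1000) / K * Th K) (by positivity)
    (by
      intro a b ha hab hPa hPb
      have hb0 : (0 : ℝ) < b := by
        have : 0 < b := by omega
        exact_mod_cast this
      have h1 := phc_dec_le J r b (by omega) hb0
      have h2 := col_far K J r b hK (by omega) hJ24 hb0 hPb.2
      have h3 : phc J r (b : ℝ) * (4 * J / b) ≤ phc J r b * ((135 / 100) / K) :=
        mul_le_mul_of_nonneg_left h2 (phc_pos J r b (by omega) hb0).le
      have h4 : ((b + 2 * J : ℕ) : ℝ) = (b : ℝ) + 2 * J := by push_cast; ring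
      rw [h4]
      have h5 : (135 / 100) / (K : ℝ) ≤ 1 := by rw [div_le_one (by linarith)]; linarith
      have h6 : 2 * Th K * (1 - (135 / 100) / K) ≤ phc J r (b : ℝ) * (1 - (135 / 100) / K) :=
        mul_le_mul_of_nonneg_right hPb.1 (by linarith)
      have h7 : (8712 / 1000) / (K : ℝ) * Th K = 2 * ((3006 / 1000) / K * Th K) + 2 * Th K * ((135 / 100) / K) := by ring
      rw [h7]
      linarith [hPa.2])
  have hcmp : (Ws.map (fun w => ∑ t ∈ Finset.range (w.2.2 - 1),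
      if 2 * Th K ≤ bh w.1 J r t ∧ bh w.1 J r t < 2 * Th (K - 1) then (51 / 25) * bh w.1 J r t else 0)).sum ≤
      (Ws.map (fun w => (1024 / 1000000) * ((r : ℝ) + 1) / ((J : ℝ) ^ 3 * Th K) * ∑ t ∈ Finset.range (w.2.2 - 1),
        if 2 * Th K ≤ phc J r ((w.1 + 2 * (t * J) : ℕ) : ℝ) ∧
            phc J r ((w.1 + 2 * (t * J) : ℕ) : ℝ) < 2 * Th (K - 1) then
          phc J r ((w.1 + 2 * (t * J) : ℕ) : ℝ) - phc J r ((w.1 + 2 * (t * J) + 2 * J : ℕ) : ℝ) else 0)).sum := by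
    apply Multiset.sum_map_le_sum_map
    intro w hw
    obtain ⟨hw1, hw2⟩ := hW w hw
    rw [Finset.mul_sum]
    apply Finset.sum_le_sum
    intro t ht
    rw [Finset.mem_range] at ht
    have hk0 := hw1.k0
    rw [bh_eq w.1 J r t (by omega)]
    split_ifs with hP
    · set x : ℝ := ((w.1 + 2 * (t * J) : ℕ) : ℝ) with hx
      have hk : (66654 : ℝ) ≤ w.1 := by exact_mod_cast hk0
      have hxk : (w.1 : ℝ) ≤ x := by rw [hx]; push_cast; have : (0:ℝ) ≤ (t:ℝ) * J := by positivity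
                                     linarith
      have h4 : ((w.1 + 2 * (t * J) + 2 * J : ℕ) : ℝ) = x + 2 * J := by rw [hx]; push_cast; ring
      rw [h4]
      have hx0 : 0 < x := by linarith
      have h5 := phc_dec_ge J r x (by omega) hx0
      have hpp := phc_pos J r x (by omega) hx0
      have hpl := phc_le J r x hx0
      have hJk : 1000 * (J : ℝ) ^ 3 ≤ w.1 := by
        have := hw1.hJ
        rw [hw2] at this
        exact_mod_cast this
      -- `Th K * x * 500 J^2 ≤ r + 1`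
      have h6 : 2 * Th K * x ^ 2 ≤ 4 * J * (r + 1) := by
        have := hP.1.trans hpl
        rwa [le_div_iff₀ (by positivity)] at this
      have h7 : Th K * x * (500 * (J : ℝ) ^ 2) ≤ r + 1 := by
        have h8 : Th K * x * (1000 * (J : ℝ) ^ 3) ≤ Th K * x * x :=
          mul_le_mul_of_nonneg_left (by linarith) (by positivity)
        have h9 : (2 * (J : ℝ)) * (Th K * x * (500 * (J : ℝ) ^ 2)) ≤ (2 * J) * (r + 1) := by
          calc (2 * (J : ℝ)) * (Th K * x * (500 * (J : ℝ) ^ 2)) = Th K * x * (1000 * (J : ℝ) ^ 3) := by ring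
            _ ≤ Th K * x * x := h8
            _ ≤ (2 * J) * (r + 1) := by nlinarith
        exact le_of_mul_le_mul_left h9 (by positivity)
      have h10 : (51 / 25) * phc J r x ≤
          (1024 / 1000000) * ((r : ℝ) + 1) / ((J : ℝ) ^ 3 * Th K) * (phc J r x * (4 * J / (x + 6 * J))) := by
        have e : (1024 / 1000000) * ((r : ℝ) + 1) / ((J : ℝ) ^ 3 * Th K) * (phc J r x * (4 * J / (x + 6 * J))) =
            phc J r x * ((4096 / 1000000) * (r + 1) / (J ^ 2 * Th K * (x + 6 * J))) := by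
          have : (x + 6 * (J : ℝ)) ≠ 0 := by positivity
          field_simp
          ring
        rw [e, mul_comm]
        apply mul_le_mul_of_nonneg_left _ hpp.le
        rw [le_div_iff₀ (by positivity)]
        have h11 : x + 6 * J ≤ (1003 / 1000) * x := by linarith
        calc (51 / 25) * ((J : ℝ) ^ 2 * Th K * (x + 6 * J)) ≤ (51 / 25) * ((J : ℝ) ^ 2 * Th K * ((1003 / 1000) * x)) := by
              apply mul_le_mul_of_nonneg_left _ (by norm_num)
              apply mul_le_mul_of_nonneg_left h11 (by positivity)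
          _ = (51 / 25 * (1003 / 1000) / 500) * (Th K * x * (500 * (J : ℝ) ^ 2)) := by ring
          _ ≤ (51 / 25 * (1003 / 1000) / 500) * (r + 1) := mul_le_mul_of_nonneg_left h7 (by norm_num)
          _ ≤ (4096 / 1000000) * (r + 1) := by
              apply mul_le_mul_of_nonneg_right (by norm_num) (by positivity)
      refine h10.trans ?_
      exact mul_le_mul_of_nonneg_left h5 (by positivity)
    · simp
  refine hcmp.trans ?_
  rw [Multiset.sum_map_mul_left]
  have h12 : (1024 / 1000000) * ((r : ℝ) + 1) / ((J : ℝ) ^ 3 * Th K) * (Ws.map (fun w => ∑ t ∈ Finset.range (w.2.2 - 1),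
        if 2 * Th K ≤ phc J r ((w.1 + 2 * (t * J) : ℕ) : ℝ) ∧
            phc J r ((w.1 + 2 * (t * J) : ℕ) : ℝ) < 2 * Th (K - 1) then
          phc J r ((w.1 + 2 * (t * J) : ℕ) : ℝ) - phc J r ((w.1 + 2 * (t * J) + 2 * J : ℕ) : ℝ) else 0)).sum ≤
      (1024 / 1000000) * ((r : ℝ) + 1) / ((J : ℝ) ^ 3 * Th K) * ((8712 / 1000) / K * Th K) := by
    apply mul_le_mul_of_nonneg_left _ (by positivity)
    exact htel
  refine h12.trans ?_
  have e : (1024 / 1000000) * ((r : ℝ) + 1) / ((J : ℝ) ^ 3 * Th K) * ((8712 / 1000) / K * Th K) =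
      ((1024 / 1000000) * (8712 / 1000)) * (r + 1) / J ^ 3 / K := by
    field_simp
  rw [e]
  apply div_le_div_of_nonneg_right _ (by linarith)
  apply div_le_div_of_nonneg_right _ (by positivity)
  apply mul_le_mul_of_nonneg_right (by norm_num) (by positivity)

end

end Pool.Agent.MMS
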