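import Pool.Agent.MP_94f265_co.ST.BitsC

/-!
# The bits of the walls: thin in width; the load of a class
-/

namespace Pool.Agent.MMS

open Pool.Agent.MM2

/-- the charge of a wall for the bits which are thin in width -/
noncomputable def wCh (w : ℕ × ℕ × ℕ) : ℝ := 2 * (w.2.1 : ℝ) ^ 2 * ((w.2.1 : ℝ) - 1) / (w.1 : ℝ) ^ 2

theorem bh_le {k J r t : ℕ} (hk : 1 ≤ k) : bh k J r t ≤ 4 * J * (r + 1) / (k : ℝ) ^ 2 := by
  have hk1 : (1 : ℝ) ≤ k := by exact_mod_cast hk
  rw [bh_eq k J r t hk]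
  have hx : (k : ℝ) ≤ ((k + 2 * (t * J) : ℕ) : ℝ) := by
    push_cast
    have : (0:ℝ) ≤ (t:ℝ) * J := by positivity
    linarith
  refine (phc_le J r _ (by linarith)).trans ?_
  apply div_le_div_of_nonneg_left (by positivity) (by positivity)
  exact pow_le_pow_left₀ (by linarith) hx 2

theorem bh_pos {k J r t : ℕ} (hk : 1 ≤ k) (hJ : 1 ≤ J) : 0 < bh k J r t := by
  rw [bh_eq k J r t hk]
  apply phc_pos J r _ hJ
  have : 0 < k + 2 * (t * J) := by omega
  exact_mod_cast this

/-- at most one bit per row has its width in the class -/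
theorem thinW (K : ℕ) (hK : 1600 ≤ K) (w : ℕ × ℕ × ℕ) (hw : WOK w) :
    ∑ r ∈ Finset.range (w.2.1 - 1), ∑ t ∈ Finset.range (w.2.2 - 1),
      (if (Th K ≤ bw w.1 w.2.1 r t ∧ bw w.1 w.2.1 r t < Th (K - 1)) ∧ (51 / 50) * bw w.1 w.2.1 r t ≤ bh w.1 w.2.1 r t
        then bh w.1 w.2.1 r t else 0) ≤
      if 2 < Th (K - 1) * ((w.1 : ℝ) + 2 * w.2.1 * w.2.2) ^ 2 then wCh w else 0 := by
  classical
  obtain ⟨k, J, Kw⟩ := w
  have hk0 := hw.k0
  have hJ2 := hw.J2
  have hJ24 := hw.J24
  have hJc := hw.hJ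
  have hend := hw.end_le
  simp only at hk0 hJ2 hJ24 hJc hend ⊢
  have hk : (66654 : ℝ) ≤ k := by exact_mod_cast hk0
  have hJr : (2 : ℝ) ≤ J := by exact_mod_cast hJ2
  have hJr24 : (J : ℝ) ≤ 24 := by exact_mod_cast hJ24
  have hKr : (1600 : ℝ) ≤ K := by exact_mod_cast hK
  have hJcr : 1000 * (J : ℝ) ^ 3 ≤ k := by exact_mod_cast hJc
  obtain ⟨hA, hAB, hBA⟩ := cls_w1 K hK
  set A := Th K with hAdef
  set B := Th (K - 1) with hBdef
  have hch : 0 ≤ wCh (k, J, Kw) := by
    unfold wCh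
    simp only
    have : 0 ≤ (J : ℝ) - 1 := by linarith
    positivity
  set Pr : ℕ → ℕ → Prop := fun r t => (A ≤ bw k J r t ∧ bw k J r t < B) ∧ (51 / 50) * bw k J r t ≤ bh k J r t with hPr
  by_cases hact : ∃ r t, r ∈ Finset.range (J - 1) ∧ t ∈ Finset.range (Kw - 1) ∧ Pr r t
  · obtain ⟨r0, t0, hr0, ht0, hP0⟩ := hact
    rw [Finset.mem_range] at hr0 ht0
    -- the class is far out: `K ≥ 13 J (J-1)`
    have hw0 : A * (51 / 50) ≤ 4 * J * (J - 1) / (k : ℝ) ^ 2 := by
      have h1 := bh_le (k := k) (J := J) (r := r0) (t := t0) (by omega)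
      have h2 : 4 * (J : ℝ) * (r0 + 1) / (k : ℝ) ^ 2 ≤ 4 * J * (J - 1) / (k : ℝ) ^ 2 := by
        apply div_le_div_of_nonneg_right _ (by positivity)
        have : (r0 : ℝ) + 1 ≤ J - 1 := by
          have h : r0 + 1 + 1 ≤ J := by omega
          have h' : (r0 : ℝ) + 1 + 1 ≤ J := by exact_mod_cast h
          linarith
        nlinarith
      have h3 := hP0.1.1
      have h4 := hP0.2
      linarith
    rw [le_div_iff₀ (by positivity)] at hw0
    have hKJ : 13 * (J : ℝ) * (J - 1) ≤ K := by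
      by_contra hcon
      push Not at hcon
      have hA2 : A = 5120 / (3 * (5 * (K : ℝ) - 1) ^ 3) := rfl
      have hp : 0 < 5 * (K : ℝ) - 1 := by linarith
      rw [hA2, div_mul_eq_mul_div, div_mul_eq_mul_div, div_le_iff₀ (by positivity)] at hw0
      -- 5120 * (51/50) * k^2 ≤ 4 J (J-1) * 3 (5K-1)^3
      have h5 : (5 * (K : ℝ) - 1) ^ 3 ≤ (65 * J * (J - 1)) ^ 3 := by
        apply pow_le_pow_left₀ hp.le
        linarith
      have h6 : (1000 * (J : ℝ) ^ 3) ^ 2 ≤ (k : ℝ) ^ 2 := pow_le_pow_left₀ (by positivity) hJcr 2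
      have hJJ : 0 ≤ 4 * (J : ℝ) * (J - 1) := by
        have : 0 ≤ (J : ℝ) - 1 := by linarith
        positivity
      have h7 : 4 * (J : ℝ) * (J - 1) * (3 * (5 * (K : ℝ) - 1) ^ 3) ≤ 4 * J * (J - 1) * (3 * (65 * J * (J - 1)) ^ 3) := by
        apply mul_le_mul_of_nonneg_left _ hJJ
        linarith
      have h8 : 5120 * (51 / 50) * (1000 * (J : ℝ) ^ 3) ^ 2 ≤ 4 * J * (J - 1) * (3 * (65 * J * (J - 1)) ^ 3) := by
        nlinarith
      have h9 : 4 * (J : ℝ) * (J - 1) * (3 * (65 * J * (J - 1)) ^ 3) = 3295500 * J ^ 4 * (J - 1) ^ 4 := by ring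
      rw [h9] at h8
      have h10 : 5120 * (51 / 50) * (1000 * (J : ℝ) ^ 3) ^ 2 = J ^ 4 * (5120 * (51 / 50) * 1000000 * J ^ 2) := by ring
      have h11 : 3295500 * (J : ℝ) ^ 4 * (J - 1) ^ 4 = J ^ 4 * (3295500 * (J - 1) ^ 4) := by ring
      rw [h10, h11] at h8
      have h12 := le_of_mul_le_mul_left h8 (by positivity)
      -- (J-1)^4 ≤ 576 (J-1)^2 ≤ 576 J^2
      have h13 : ((J : ℝ) - 1) ^ 2 ≤ 576 := by nlinarith
      have h14 : ((J : ℝ) - 1) ^ 2 ≤ J ^ 2 := by nlinarith
      have h15 : ((J : ℝ) - 1) ^ 4 ≤ 576 * J ^ 2 := by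
        have e : ((J : ℝ) - 1) ^ 4 = (J - 1) ^ 2 * (J - 1) ^ 2 := by ring
        rw [e]
        exact mul_le_mul h13 h14 (by positivity) (by norm_num)
      have h16 : 0 < (J : ℝ) ^ 2 := by positivity
      nlinarith
    -- the class is narrower than the steps
    set e2 : ℝ := ((k : ℝ) + 2 * J * Kw) ^ 2 with he2
    have he2p : 0 < e2 := by positivity
    have hnar : B - A < 2 / e2 := by
      rw [lt_div_iff₀ he2p]
      have h1 : e2 ≤ (10202 / 10000) * (k : ℝ) ^ 2 := by
        have h2 : (0 : ℝ) ≤ (k : ℝ) + 2 * J * Kw := by positivity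
        have h3 : e2 ≤ ((101 / 100) * (k : ℝ)) ^ 2 := pow_le_pow_left₀ h2 hend 2
        have h4 : ((101 / 100) * (k : ℝ)) ^ 2 = (101 / 100) ^ 2 * (k : ℝ) ^ 2 := by ring
        rw [h4] at h3
        have h5 : (0 : ℝ) ≤ (k : ℝ) ^ 2 := by positivity
        nlinarith
      have h2 : (B - A) * e2 ≤ ((3006 / 1000) / K * A) * ((10202 / 10000) * (k : ℝ) ^ 2) :=
        mul_le_mul hBA h1 he2p.le (by positivity)
      have h3 : ((3006 / 1000) / K * A) * ((10202 / 10000) * (k : ℝ) ^ 2) =
          ((3006 / 1000) * (10202 / 10000) * (50 / 51)) / K * (A * (51 / 50) * (k : ℝ) ^ 2) := by ring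
      rw [h3] at h2
      have h4 : ((3006 / 1000) * (10202 / 10000) * (50 / 51)) / (K : ℝ) * (A * (51 / 50) * (k : ℝ) ^ 2) ≤
          ((3006 / 1000) * (10202 / 10000) * (50 / 51)) / K * (4 * J * (J - 1)) :=
        mul_le_mul_of_nonneg_left hw0 (by positivity)
      have h5 : ((3006 / 1000) * (10202 / 10000) * (50 / 51)) / (K : ℝ) * (4 * J * (J - 1)) ≤ 1 := by
        rw [div_mul_eq_mul_div, div_le_one (by linarith)]
        have : 0 ≤ (J : ℝ) * (J - 1) := by
          have : 0 ≤ (J : ℝ) - 1 := by linarith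
          positivity
        nlinarith
      linarith
    -- the condition holds
    have hcond : 2 < B * e2 := by
      have h1 := bw_ge k J r0 Kw t0 (by omega) (by omega) (by omega)
      have h2 : 2 / e2 < B := lt_of_le_of_lt h1 hP0.1.2
      rwa [div_lt_iff₀ he2p] at h2
    rw [if_pos hcond]
    -- one bit per row
    have hrow : ∀ r ∈ Finset.range (J - 1), ∑ t ∈ Finset.range (Kw - 1), (if Pr r t then bh k J r t else 0) ≤
        4 * J * (r + 1) / (k : ℝ) ^ 2 := by
      intro r hr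
      rw [Finset.mem_range] at hr
      rw [← Finset.sum_filter]
      have hcard : ((Finset.range (Kw - 1)).filter (fun t => Pr r t)).card ≤ 1 := by
        rw [Finset.card_le_one]
        intro a ha b hb
        rw [Finset.mem_filter, Finset.mem_range] at ha hb
        by_contra hab
        have key : ∀ a b : ℕ, a < b → a < Kw - 1 → b < Kw - 1 → Pr r a → Pr r b → False := by
          intro a b hlt ha' hb' hPa hPb
          have h1 := bw_gap k J r Kw a (b - a) (by omega) (by omega) (by omega)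
          rw [show a + (b - a) = b by omega] at h1
          have h2 : (1 : ℝ) ≤ ((b - a : ℕ) : ℝ) := by
            have : 1 ≤ b - a := by omega
            exact_mod_cast this
          have h3 : 2 / e2 ≤ ((b - a : ℕ) : ℝ) * (2 / e2) := by
            have : 0 < 2 / e2 := by positivity
            nlinarith
          have h4 := hPa.1.1
          have h5 := hPb.1.2
          linarith
        rcases Nat.lt_or_gt_of_ne hab with h | h
        · exact key a b h ha.1 hb.1 ha.2 hb.2
        · exact key b a h hb.1 ha.1 hb.2 ha.2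
      calc ∑ t ∈ (Finset.range (Kw - 1)).filter (fun t => Pr r t), bh k J r t ≤
            ∑ t ∈ (Finset.range (Kw - 1)).filter (fun t => Pr r t), 4 * J * (r + 1) / (k : ℝ) ^ 2 :=
            Finset.sum_le_sum fun t _ => bh_le (by omega)
        _ = (((Finset.range (Kw - 1)).filter (fun t => Pr r t)).card : ℝ) * (4 * J * (r + 1) / (k : ℝ) ^ 2) := by
            rw [Finset.sum_const, nsmul_eq_mul]
        _ ≤ 1 * (4 * J * (r + 1) / (k : ℝ) ^ 2) := by
            apply mul_le_mul_of_nonneg_right _ (by positivity)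
            exact_mod_cast hcard
        _ = _ := one_mul _
    refine (Finset.sum_le_sum hrow).trans ?_
    -- sum of the row bounds
    have hsum : ∀ m : ℕ, ∑ r ∈ Finset.range m, 4 * (J : ℝ) * (r + 1) / (k : ℝ) ^ 2 = 2 * J * m * (m + 1) / (k : ℝ) ^ 2 := by
      intro m
      induction m with
      | zero => simp
      | succ m ih =>
        rw [Finset.sum_range_succ, ih]
        push_cast
        field_simp
        ring
    rw [hsum]
    unfold wCh
    simp only
    have e3 : ((J - 1 : ℕ) : ℝ) = J - 1 := by rw [Nat.cast_sub (by omega)]; simp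
    rw [e3]
    apply le_of_eq
    ring
  · push Not at hact
    have h0 : ∑ r ∈ Finset.range (J - 1), ∑ t ∈ Finset.range (Kw - 1), (if Pr r t then bh k J r t else 0) = 0 := by
      apply Finset.sum_eq_zero
      intro r hr
      apply Finset.sum_eq_zero
      intro t ht
      rw [if_neg (hact r t hr ht)]
    rw [h0]
    split_ifs
    · exact hch
    · exact le_rfl

end Pool.Agent.MMS
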