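import Pool.Agent.MP_94f265_co.ST.BitsD
import Pool.Agent.MP_94f265_co.MM2.PhaseGeom

/-!
# The bits of the walls: total load of a class
-/

namespace Pool.Agent.MMS

open Pool.Agent.MM2

theorem lenIn_single (a b : ℝ) (p : ℝ × ℝ) :
    lenIn a b {p} = if a ≤ p.1 ∧ p.1 < b then p.2 else 0 := by
  classical
  unfold lenIn
  by_cases h : a ≤ p.1 ∧ p.1 < b
  · rw [if_pos h, Multiset.filter_singleton, if_pos h]; simp
  · rw [if_neg h, Multiset.filter_singleton, if_neg h]; simp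

theorem lenIn_finset {ι : Type*} (a b : ℝ) (I : Finset ι) (f : ι → Multiset (ℝ × ℝ)) :
    lenIn a b (∑ i ∈ I, f i) = ∑ i ∈ I, lenIn a b (f i) := by
  classical
  induction I using Finset.induction_on with
  | empty => simp [lenIn_zero]
  | insert i I hi ih => rw [Finset.sum_insert hi, Finset.sum_insert hi, lenIn_add, ih]

theorem lenIn_mapsum {ι : Type*} (a b : ℝ) (I : Multiset ι) (f : ι → Multiset (ℝ × ℝ)) :
    lenIn a b ((I.map f).sum) = (I.map (fun i => lenIn a b (f i))).sum := by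
  classical
  induction I using Multiset.induction_on with
  | empty => simp [lenIn_zero]
  | cons i I ih => rw [Multiset.map_cons, Multiset.sum_cons, lenIn_add, ih, Multiset.map_cons, Multiset.sum_cons]

/-- the load of the pieces of one bit -/
theorem bit_len (A B w h W : ℝ) (hw0 : 0 ≤ w) (hh0 : 0 ≤ h) (hwW : w ≤ W) :
    lenIn A B (bitPs w h) ≤ (if A ≤ h ∧ h < B then W else 0) +
      (if 2 * A ≤ h ∧ h < 2 * B then (51 / 25) * h else 0) +
      (if (A ≤ w ∧ w < B) ∧ (51 / 50) * w ≤ h then h else 0) := by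
  have p1 : 0 ≤ (if A ≤ h ∧ h < B then W else 0) := by split_ifs <;> linarith
  have p2 : 0 ≤ (if 2 * A ≤ h ∧ h < 2 * B then (51 / 25) * h else 0) := by split_ifs <;> linarith
  have p3 : 0 ≤ (if (A ≤ w ∧ w < B) ∧ (51 / 50) * w ≤ h then h else 0) := by split_ifs <;> linarith
  unfold bitPs
  by_cases h1 : (51 / 50) * h ≤ w
  · rw [if_pos h1, lenIn_single]
    simp only
    have : (if A ≤ h ∧ h < B then w else 0) ≤ (if A ≤ h ∧ h < B then W else 0) := by
      split_ifs <;> linarith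
    linarith
  · rw [if_neg h1]
    by_cases h2 : (51 / 50) * w ≤ h
    · rw [if_pos h2, lenIn_single]
      simp only
      have : (if A ≤ w ∧ w < B then h else 0) ≤ (if (A ≤ w ∧ w < B) ∧ (51 / 50) * w ≤ h then h else 0) := by
        by_cases h3 : A ≤ w ∧ w < B
        · rw [if_pos h3, if_pos ⟨h3, h2⟩]
        · rw [if_neg h3]; exact p3
      linarith
    · rw [if_neg h2, lenIn_add, lenIn_single]
      simp only
      push Not at h1
      have : (if A ≤ h / 2 ∧ h / 2 < B then w else 0) + (if A ≤ h / 2 ∧ h / 2 < B then w else 0) ≤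
          (if 2 * A ≤ h ∧ h < 2 * B then (51 / 25) * h else 0) := by
        by_cases h3 : A ≤ h / 2 ∧ h / 2 < B
        · rw [if_pos h3, if_pos ⟨by linarith [h3.1], by linarith [h3.2]⟩]
          linarith
        · rw [if_neg h3]; linarith
      linarith

/-- the load of the pieces of a wall -/
theorem wall_len (K : ℕ) (hK : 1600 ≤ K) (w : ℕ × ℕ × ℕ) (hw : WOK w) :
    lenK K (wallPs w) ≤ (∑ r ∈ Finset.range (w.2.1 - 1), (∑ t ∈ Finset.range (w.2.2 - 1),
      (if Th K ≤ bh w.1 w.2.1 r t ∧ bh w.1 w.2.1 r t < Th (K - 1) then 2 * (w.2.2 : ℝ) / (w.1 : ℝ) ^ 2 else 0) +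
      ∑ t ∈ Finset.range (w.2.2 - 1),
      (if 2 * Th K ≤ bh w.1 w.2.1 r t ∧ bh w.1 w.2.1 r t < 2 * Th (K - 1) then (51 / 25) * bh w.1 w.2.1 r t else 0))) +
      (if 2 < Th (K - 1) * ((w.1 : ℝ) + 2 * w.2.1 * w.2.2) ^ 2 then wCh w else 0) := by
  refine le_trans ?_ (add_le_add (le_refl _) (thinW K hK w hw))
  unfold lenK wallPs
  rw [lenIn_finset, ← Finset.sum_add_distrib]
  apply Finset.sum_le_sum
  intro r hr
  rw [Finset.mem_range] at hr
  rw [lenIn_finset, ← Finset.sum_add_distrib, ← Finset.sum_add_distrib]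
  apply Finset.sum_le_sum
  intro t ht
  rw [Finset.mem_range] at ht
  have hk := hw.k0
  have h1 := bw_le w.1 w.2.1 r t (by omega) (by omega)
  have h2 := bw_ge w.1 w.2.1 r w.2.2 t (by omega) (by omega) (by omega)
  have h3 : 0 < bh w.1 w.2.1 r t := bh_pos (by omega) (by omega)
  have h4 : (0 : ℝ) ≤ 2 / ((w.1 : ℝ) + 2 * w.2.1 * w.2.2) ^ 2 := by positivity
  apply bit_len _ _ _ _ _ (h4.trans h2) h3.le
  refine h1.trans ?_
  rw [mul_comm, div_mul_eq_mul_div]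
  apply div_le_div_of_nonneg_right _ (by positivity)
  have : ((t + 1 : ℕ) : ℝ) ≤ w.2.2 := by exact_mod_cast (by omega : t + 1 ≤ w.2.2)
  push_cast at this
  linarith

/-- grouping by `J` -/
theorem sum_group (Ws : Multiset (ℕ × ℕ × ℕ)) (Jm : ℕ) (hJ : ∀ w ∈ Ws, 2 ≤ w.2.1 ∧ w.2.1 ≤ Jm)
    (g : ℕ × ℕ × ℕ → ℝ) :
    (Ws.map g).sum = ∑ J ∈ Finset.Icc 2 Jm, ((Ws.filter (fun w => w.2.1 = J)).map g).sum := by
  classical
  induction Ws using Multiset.induction_on with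
  | empty => simp
  | cons w Ws ih =>
    have h1 := hJ w (Multiset.mem_cons_self _ _)
    have h2 := ih (fun v hv => hJ v (Multiset.mem_cons_of_mem hv))
    rw [Multiset.map_cons, Multiset.sum_cons, h2]
    have h3 : ∀ J ∈ Finset.Icc 2 Jm, (((w ::ₘ Ws).filter (fun w => w.2.1 = J)).map g).sum =
        (if w.2.1 = J then g w else 0) + ((Ws.filter (fun w => w.2.1 = J)).map g).sum := by
      intro J _
      rw [Multiset.filter_cons]
      by_cases h : w.2.1 = J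
      · simp [h]
      · simp [h]
    rw [Finset.sum_congr rfl h3, Finset.sum_add_distrib]
    congr 1
    rw [Finset.sum_ite_eq]
    rw [if_pos (Finset.mem_Icc.2 h1)]

/-- the sum over the rows comes out -/
theorem sum_rows (Ws : Multiset (ℕ × ℕ × ℕ)) (J : ℕ) (hJ : ∀ w ∈ Ws, w.2.1 = J) (g : ℕ × ℕ × ℕ → ℕ → ℝ) :
    (Ws.map (fun w => ∑ r ∈ Finset.range (w.2.1 - 1), g w r)).sum =
      ∑ r ∈ Finset.range (J - 1), (Ws.map (fun w => g w r)).sum := by
  induction Ws using Multiset.induction_on with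
  | empty => simp
  | cons w Ws ih =>
    have h1 := hJ w (Multiset.mem_cons_self _ _)
    have h2 := ih (fun v hv => hJ v (Multiset.mem_cons_of_mem hv))
    rw [Multiset.map_cons, Multiset.sum_cons, h2, h1, ← Finset.sum_add_distrib]
    refine Finset.sum_congr rfl fun r _ => ?_
    rw [Multiset.map_cons, Multiset.sum_cons]

/-- the load constant of the bits of the walls with `J` rows -/
noncomputable def cJ (J : ℕ) : ℝ := (2222 / 100000) * ((J : ℝ) - 1) / J ^ 3 + (4461 / 1000000) * ((J : ℝ) - 1) / J ^ 2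

theorem sum_r1 (m : ℕ) : ∑ r ∈ Finset.range m, ((r : ℝ) + 1) = m * (m + 1) / 2 := by
  induction m with
  | zero => simp
  | succ m ih => rw [Finset.sum_range_succ, ih]; push_cast; ring

/-- **Load of the bits of the walls**, at most `Jm` rows. -/
theorem bits_load_J (K Jm n0 M : ℕ) (Ws : Multiset (ℕ × ℕ × ℕ)) (hK : 1600 ≤ K)
    (hW : ∀ w ∈ Ws, WOK w ∧ w.2.1 ≤ Jm) (hn0 : 1 ≤ n0) (hd : (Ws.map wNums).sum ≤ (Finset.Ico n0 M).val) :
    lenK K ((Ws.map wallPs).sum) ≤ (∑ J ∈ Finset.Icc 2 Jm, cJ J) / K +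
      (Ws.map (fun w => if 2 < Th (K - 1) * ((w.1 : ℝ) + 2 * w.2.1 * w.2.2) ^ 2 then wCh w else 0)).sum := by
  classical
  have hKr : (1600 : ℝ) ≤ K := by exact_mod_cast hK
  have h0 : lenK K ((Ws.map wallPs).sum) = (Ws.map (fun w => lenK K (wallPs w))).sum := by
    unfold lenK
    exact lenIn_mapsum _ _ _ _
  rw [h0]
  have h1 := Multiset.sum_map_le_sum_map (s := Ws) (fun w => lenK K (wallPs w)) _
    (fun w hw => wall_len K hK w (hW w hw).1)
  refine h1.trans ?_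
  rw [Multiset.sum_map_add]
  apply add_le_add_left
  have hJ : ∀ w ∈ Ws, 2 ≤ w.2.1 ∧ w.2.1 ≤ Jm := fun w hw => ⟨(hW w hw).1.J2, (hW w hw).2⟩
  rw [sum_group Ws Jm hJ, Finset.sum_div]
  apply Finset.sum_le_sum
  intro J hJm
  rw [Finset.mem_Icc] at hJm
  have hJr : (2 : ℝ) ≤ J := by exact_mod_cast hJm.1
  set Wj := Ws.filter (fun w => w.2.1 = J) with hWj
  have hWj1 : ∀ w ∈ Wj, WOK w ∧ w.2.1 = J := by
    intro w hw
    rw [hWj, Multiset.mem_filter] at hw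
    exact ⟨(hW w hw.1).1, hw.2⟩
  have hdj : (Wj.map wNums).sum ≤ (Finset.Ico n0 M).val := by
    refine le_trans ?_ hd
    obtain ⟨V, hV⟩ := Multiset.le_iff_exists_add.1 (Multiset.filter_le (fun w : ℕ × ℕ × ℕ => w.2.1 = J) Ws)
    rw [← hWj] at hV
    conv_rhs => rw [hV]
    rw [Multiset.map_add, Multiset.sum_add]
    exact Multiset.le_add_right _ _
  rw [sum_rows Wj J (fun w hw => (hWj1 w hw).2)]
  have h2 : ∀ r ∈ Finset.range (J - 1), (Wj.map (fun w => (∑ t ∈ Finset.range (w.2.2 - 1),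
      (if Th K ≤ bh w.1 w.2.1 r t ∧ bh w.1 w.2.1 r t < Th (K - 1) then 2 * (w.2.2 : ℝ) / (w.1 : ℝ) ^ 2 else 0) +
      ∑ t ∈ Finset.range (w.2.2 - 1),
      (if 2 * Th K ≤ bh w.1 w.2.1 r t ∧ bh w.1 w.2.1 r t < 2 * Th (K - 1) then (51 / 25) * bh w.1 w.2.1 r t else 0)))).sum ≤
      (2222 / 100000) / (J : ℝ) ^ 3 / K + (8922 / 1000000) * ((r : ℝ) + 1) / (J : ℝ) ^ 3 / K := by
    intro r hr
    rw [Finset.mem_range] at hr
    rw [Multiset.sum_map_add]
    have a1 := thinH K J r n0 M Wj hK hWj1 (by omega) hn0 hdj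
    have a2 := thinHH K J r n0 M Wj hK hWj1 (by omega) hn0 hdj
    have e1 : (Wj.map (fun w => ∑ t ∈ Finset.range (w.2.2 - 1),
      (if Th K ≤ bh w.1 w.2.1 r t ∧ bh w.1 w.2.1 r t < Th (K - 1) then 2 * (w.2.2 : ℝ) / (w.1 : ℝ) ^ 2 else 0))) =
      (Wj.map (fun w => ∑ t ∈ Finset.range (w.2.2 - 1),
      (if Th K ≤ bh w.1 J r t ∧ bh w.1 J r t < Th (K - 1) then 2 * (w.2.2 : ℝ) / (w.1 : ℝ) ^ 2 else 0))) :=
      Multiset.map_congr rfl fun w hw => by rw [(hWj1 w hw).2]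
    have e2 : (Wj.map (fun w => ∑ t ∈ Finset.range (w.2.2 - 1),
      (if 2 * Th K ≤ bh w.1 w.2.1 r t ∧ bh w.1 w.2.1 r t < 2 * Th (K - 1) then (51 / 25) * bh w.1 w.2.1 r t else 0))) =
      (Wj.map (fun w => ∑ t ∈ Finset.range (w.2.2 - 1),
      (if 2 * Th K ≤ bh w.1 J r t ∧ bh w.1 J r t < 2 * Th (K - 1) then (51 / 25) * bh w.1 J r t else 0))) :=
      Multiset.map_congr rfl fun w hw => by rw [(hWj1 w hw).2]
    rw [e1, e2]
    exact add_le_add a1 a2
  refine (Finset.sum_le_sum h2).trans ?_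
  rw [Finset.sum_add_distrib, Finset.sum_const, Finset.card_range, nsmul_eq_mul]
  have e3 : ((J - 1 : ℕ) : ℝ) = J - 1 := by rw [Nat.cast_sub (by omega)]; simp
  have e4 : ∑ r ∈ Finset.range (J - 1), (8922 / 1000000) * ((r : ℝ) + 1) / (J : ℝ) ^ 3 / K =
      (8922 / 1000000) / (J : ℝ) ^ 3 / K * ∑ r ∈ Finset.range (J - 1), ((r : ℝ) + 1) := by
    rw [Finset.mul_sum]
    refine Finset.sum_congr rfl fun r _ => ?_
    ring
  rw [e4, sum_r1, e3]
  unfold cJ
  apply le_of_eq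
  have hK0 : (K : ℝ) ≠ 0 := by linarith
  have hJ0 : (J : ℝ) ≠ 0 := by linarith
  field_simp
  ring

theorem cJ_sum : ∑ J ∈ Finset.Icc 2 24, cJ J ≤ 189 / 10000 := by
  have e : Finset.Icc 2 24 = Finset.Ico 2 25 := rfl
  rw [e]
  simp only [Finset.sum_Ico_succ_top (by norm_num : 2 ≤ 24), Finset.sum_Ico_succ_top (by norm_num : 2 ≤ 23),
    Finset.sum_Ico_succ_top (by norm_num : 2 ≤ 22), Finset.sum_Ico_succ_top (by norm_num : 2 ≤ 21),
    Finset.sum_Ico_succ_top (by norm_num : 2 ≤ 20), Finset.sum_Ico_succ_top (by norm_num : 2 ≤ 19),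
    Finset.sum_Ico_succ_top (by norm_num : 2 ≤ 18), Finset.sum_Ico_succ_top (by norm_num : 2 ≤ 17),
    Finset.sum_Ico_succ_top (by norm_num : 2 ≤ 16), Finset.sum_Ico_succ_top (by norm_num : 2 ≤ 15),
    Finset.sum_Ico_succ_top (by norm_num : 2 ≤ 14), Finset.sum_Ico_succ_top (by norm_num : 2 ≤ 13),
    Finset.sum_Ico_succ_top (by norm_num : 2 ≤ 12), Finset.sum_Ico_succ_top (by norm_num : 2 ≤ 11),
    Finset.sum_Ico_succ_top (by norm_num : 2 ≤ 10), Finset.sum_Ico_succ_top (by norm_num : 2 ≤ 9),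
    Finset.sum_Ico_succ_top (by norm_num : 2 ≤ 8), Finset.sum_Ico_succ_top (by norm_num : 2 ≤ 7),
    Finset.sum_Ico_succ_top (by norm_num : 2 ≤ 6), Finset.sum_Ico_succ_top (by norm_num : 2 ≤ 5),
    Finset.sum_Ico_succ_top (by norm_num : 2 ≤ 4), Finset.sum_Ico_succ_top (by norm_num : 2 ≤ 3),
    Finset.sum_Ico_succ_top (by norm_num : 2 ≤ 2), Finset.Ico_self, Finset.sum_empty]
  unfold cJ
  norm_num

theorem cJ_sum8 : ∑ J ∈ Finset.Icc 2 8, cJ J ≤ 129 / 10000 := by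
  have e : Finset.Icc 2 8 = Finset.Ico 2 9 := rfl
  rw [e]
  simp only [
    Finset.sum_Ico_succ_top (by norm_num : 2 ≤ 8), Finset.sum_Ico_succ_top (by norm_num : 2 ≤ 7),
    Finset.sum_Ico_succ_top (by norm_num : 2 ≤ 6), Finset.sum_Ico_succ_top (by norm_num : 2 ≤ 5),
    Finset.sum_Ico_succ_top (by norm_num : 2 ≤ 4), Finset.sum_Ico_succ_top (by norm_num : 2 ≤ 3),
    Finset.sum_Ico_succ_top (by norm_num : 2 ≤ 2), Finset.Ico_self, Finset.sum_empty]
  unfold cJ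
  norm_num

/-- **Load of the bits of the walls.** -/
theorem bits_load (K n0 M : ℕ) (Ws : Multiset (ℕ × ℕ × ℕ)) (hK : 1600 ≤ K)
    (hW : ∀ w ∈ Ws, WOK w) (hn0 : 1 ≤ n0) (hd : (Ws.map wNums).sum ≤ (Finset.Ico n0 M).val) :
    lenK K ((Ws.map wallPs).sum) ≤ (63 / 10000) * (3 / K) +
      (Ws.map (fun w => if 2 < Th (K - 1) * ((w.1 : ℝ) + 2 * w.2.1 * w.2.2) ^ 2 then wCh w else 0)).sum := by
  have h := bits_load_J K 24 n0 M Ws hK (fun w hw => ⟨hW w hw, (hW w hw).J24⟩) hn0 hd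
  refine h.trans (add_le_add_left ?_ _)
  have hKr : (1600 : ℝ) ≤ K := by exact_mod_cast hK
  have e : (63 / 10000) * (3 / (K : ℝ)) = (189 / 10000) / K := by ring
  rw [e]
  exact div_le_div_of_nonneg_right cJ_sum (by linarith)

/-- **Load of the bits of the walls**, at most eight rows. -/
theorem bits_load8 (K n0 M : ℕ) (Ws : Multiset (ℕ × ℕ × ℕ)) (hK : 1600 ≤ K)
    (hW : ∀ w ∈ Ws, WOK w) (h8 : ∀ w ∈ Ws, w.2.1 ≤ 8) (hn0 : 1 ≤ n0)
    (hd : (Ws.map wNums).sum ≤ (Finset.Ico n0 M).val) :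
    lenK K ((Ws.map wallPs).sum) ≤ (43 / 10000) * (3 / K) +
      (Ws.map (fun w => if 2 < Th (K - 1) * ((w.1 : ℝ) + 2 * w.2.1 * w.2.2) ^ 2 then wCh w else 0)).sum := by
  have h := bits_load_J K 8 n0 M Ws hK (fun w hw => ⟨hW w hw, h8 w hw⟩) hn0 hd
  refine h.trans (add_le_add_left ?_ _)
  have hKr : (1600 : ℝ) ≤ K := by exact_mod_cast hK
  have e : (43 / 10000) * (3 / (K : ℝ)) = (129 / 10000) / K := by ring
  rw [e]
  exact div_le_div_of_nonneg_right cJ_sum8 (by linarith)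

end Pool.Agent.MMS
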