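import Pool.Agent.MP_94f265_co.ST.BitsE

/-!
# The bits of the walls: shape, thickness sum, geometry; the charges a priori far out
-/

namespace Pool.Agent.MMS

open Pool.Agent.MM2

/-! ## One bit -/

theorem bit_cut (w h : ℝ) (_hh : 0 ≤ h) : MM1.Cut {(w, h)} (bitPs w h) := by
  unfold bitPs
  split_ifs with h1 h2
  · exact MM1.Cut.swap w h
  · exact MM1.Cut.refl _
  · have h3 := MM1.Cut.split (a := h / 2) (b := h / 2) (c := w) (by linarith) (by linarith)
    rw [show h / 2 + h / 2 = h by ring] at h3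
    exact (MM1.Cut.swap w h).trans h3

theorem bit_shape (w h T : ℝ) (hw : 0 < w) (hh : 0 < h) (hT : h < T) :
    ∀ p ∈ bitPs w h, 0 < p.1 ∧ p.1 < T ∧ (51 / 50) * p.1 ≤ p.2 := by
  unfold bitPs
  intro p hp
  split_ifs at hp with h1 h2
  · rw [Multiset.mem_singleton] at hp
    subst hp
    exact ⟨hh, hT, h1⟩
  · rw [Multiset.mem_singleton] at hp
    subst hp
    refine ⟨hw, ?_, h2⟩
    simp only
    linarith
  · push Not at h1 h2
    rw [Multiset.mem_add, Multiset.mem_singleton, or_self] at hp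
    subst hp
    refine ⟨?_, ?_, ?_⟩
    · simp only; linarith
    · simp only; linarith
    · simp only; linarith

theorem bit_thick (w h : ℝ) (hw : 0 < w) (hh : 0 < h) : ((bitPs w h).map Prod.fst).sum ≤ h := by
  unfold bitPs
  split_ifs with h1 h2
  · simp
  · simp only [Multiset.map_singleton, Multiset.sum_singleton]; linarith
  · rw [Multiset.map_add, Multiset.sum_add]
    simp only [Multiset.map_singleton, Multiset.sum_singleton]
    linarith

/-! ## One wall -/

theorem Th_1599_gt : (1 : ℝ) / 300000000 < Th 1599 := by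
  unfold Th
  norm_num

theorem WOK.bw_pos {w : ℕ × ℕ × ℕ} (hw : WOK w) {r t : ℕ} (hr : r < w.2.1 - 1) (ht : t < w.2.2 - 1) :
    0 < bw w.1 w.2.1 r t := by
  have hk := hw.k0
  refine lt_of_lt_of_le ?_ (bw_ge w.1 w.2.1 r w.2.2 t (by omega) (by omega) (by omega))
  have : (0 : ℝ) < w.1 := by exact_mod_cast (by omega : 0 < w.1)
  positivity

theorem WOK.bh_pos {w : ℕ × ℕ × ℕ} (hw : WOK w) (r t : ℕ) : 0 < bh w.1 w.2.1 r t := by
  have hk := hw.k0
  have hJ := hw.J2
  exact MMS.bh_pos (by omega) (by omega)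

theorem WOK.bh_lt {w : ℕ × ℕ × ℕ} (hw : WOK w) {r t : ℕ} (hr : r < w.2.1 - 1) :
    bh w.1 w.2.1 r t < Th 1599 := by
  have hk := hw.k0
  have hJ := hw.J2
  have hT := hw.hT
  refine lt_of_le_of_lt ?_ Th_1599_gt
  refine (bh_le (by omega)).trans ?_
  have hk1 : (0 : ℝ) < w.1 := by exact_mod_cast (by omega : 0 < w.1)
  rw [div_le_div_iff₀ (by positivity) (by norm_num)]
  have h1 : 4 * w.2.1 * (r + 1) * 300000000 ≤ 1 * w.1 ^ 2 := by
    rw [one_mul]
    refine le_trans ?_ hT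
    apply Nat.mul_le_mul_right
    apply Nat.mul_le_mul_left
    omega
  exact_mod_cast h1

theorem WOK.shape {w : ℕ × ℕ × ℕ} (hw : WOK w) :
    ∀ p ∈ wallPs w, 0 < p.1 ∧ p.1 < Th 1599 ∧ (51 / 50) * p.1 ≤ p.2 := by
  intro p hp
  unfold wallPs at hp
  rw [Multiset.mem_sum] at hp
  obtain ⟨r, hr, hp⟩ := hp
  rw [Multiset.mem_sum] at hp
  obtain ⟨t, ht, hp⟩ := hp
  rw [Finset.mem_range] at hr ht
  exact bit_shape _ _ _ (hw.bw_pos hr ht) (hw.bh_pos r t) (hw.bh_lt hr) p hp

/-- sum of the thicknesses of the pieces of a wall -/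
noncomputable def wTh (w : ℕ × ℕ × ℕ) : ℝ :=
  2 * ((w.2.2 : ℝ) - 1) * (w.2.1 : ℝ) ^ 2 * ((w.2.1 : ℝ) - 1) / (w.1 : ℝ) ^ 2

theorem WOK.thick {w : ℕ × ℕ × ℕ} (hw : WOK w) (hK : 1 ≤ w.2.2) : ((wallPs w).map Prod.fst).sum ≤ wTh w := by
  obtain ⟨k, J, Kw⟩ := w
  have hk := hw.k0
  have hJ := hw.J2
  simp only at hk hJ hK ⊢
  have hk1 : (0 : ℝ) < k := by exact_mod_cast (by omega : 0 < k)
  have hsum : ∀ {ι : Type} (I : Finset ι) (f : ι → Multiset (ℝ × ℝ)),
      ((∑ i ∈ I, f i).map Prod.fst).sum = ∑ i ∈ I, ((f i).map Prod.fst).sum := by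
    intro ι I f
    classical
    induction I using Finset.induction_on with
    | empty => simp
    | insert i I hi ih => rw [Finset.sum_insert hi, Finset.sum_insert hi, Multiset.map_add, Multiset.sum_add, ih]
  unfold wallPs
  simp only
  rw [hsum]
  have h1 : ∀ r ∈ Finset.range (J - 1), ((∑ t ∈ Finset.range (Kw - 1), bitPs (bw k J r t) (bh k J r t)).map
      Prod.fst).sum ≤ ((Kw : ℝ) - 1) * (4 * J / (k : ℝ) ^ 2) * ((r : ℝ) + 1) := by
    intro r hr
    rw [Finset.mem_range] at hr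
    rw [hsum]
    have h2 : ∀ t ∈ Finset.range (Kw - 1), ((bitPs (bw k J r t) (bh k J r t)).map Prod.fst).sum ≤
        4 * J * (r + 1) / (k : ℝ) ^ 2 := by
      intro t ht
      rw [Finset.mem_range] at ht
      exact (bit_thick _ _ (hw.bw_pos hr ht) (hw.bh_pos r t)).trans (bh_le (by omega))
    refine (Finset.sum_le_sum h2).trans ?_
    rw [Finset.sum_const, Finset.card_range, nsmul_eq_mul]
    have e : ((Kw - 1 : ℕ) : ℝ) = (Kw : ℝ) - 1 := by rw [Nat.cast_sub hK]; simp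
    rw [e]
    apply le_of_eq
    ring
  refine (Finset.sum_le_sum h1).trans ?_
  rw [← Finset.mul_sum, sum_r1]
  have e : ((J - 1 : ℕ) : ℝ) = (J : ℝ) - 1 := by rw [Nat.cast_sub (by omega)]; simp
  rw [e]
  unfold wTh
  simp only
  apply le_of_eq
  field_simp
  ring

/-- the bits of a wall as rectangles -/
theorem wallPs_cut {k J K : ℕ} (hk : 1 ≤ k) (hJ : 1 ≤ J) :
    MM1.Cut (wBits (wa k J) (wb k J) J K) (wallPs (k, J, K)) := by
  have e : wBits (wa k J) (wb k J) J K = ∑ r ∈ Finset.range (J - 1), ∑ t ∈ Finset.range (K - 1),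
      {(bw k J r t, bh k J r t)} := by
    rw [← Finset.sum_product' (Finset.range (J - 1)) (Finset.range (K - 1))
      (fun r t => ({(bw k J r t, bh k J r t)} : Multiset (ℝ × ℝ)))]
    have h := Multiset.sum_map_singleton (wBits (wa k J) (wb k J) J K)
    unfold wBits at h ⊢
    rw [Multiset.map_map] at h
    exact h.symm
  rw [e]
  unfold wallPs
  apply cut_sum
  intro r _
  apply cut_sum
  intro t _
  exact bit_cut _ _ (bh_pos hk hJ).le

end Pool.Agent.MMS
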