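import Pool.Agent.MP_94f265_co.ST.BitsF

/-!
# The bits of the walls: checks and charges in integers
-/

namespace Pool.Agent.MMS

open Pool.Agent.MM2

/-- end of a wall -/
def wEnd (w : ℕ × ℕ × ℕ) : ℕ := w.1 + 2 * w.2.1 * w.2.2

/-- the checks for one wall with bits -/
def wChk (k J K : ℕ) : Bool :=
  Nat.ble 66654 k && (Nat.ble 2 J && (Nat.ble J 24 && (Nat.ble (100 * (J * J * K)) k &&
    (Nat.ble (1000 * (J * J * J)) k && Nat.ble (1200000000 * (J * (J - 1))) (k * k)))))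

theorem wChk_ok {k J K : ℕ} (h : wChk k J K = true) : WOK (k, J, K) := by
  simp only [wChk, Bool.and_eq_true, Nat.ble_eq] at h
  obtain ⟨h1, h2, h3, h4, h5, h6⟩ := h
  refine ⟨h1, h2, h3, ?_, ?_, ?_⟩
  · simp only
    calc 100 * J ^ 2 * K = 100 * (J * J * K) := by ring
      _ ≤ k := h4
  · simp only
    calc 1000 * J ^ 3 = 1000 * (J * J * J) := by ring
      _ ≤ k := h5
  · simp only
    calc 4 * J * (J - 1) * 300000000 = 1200000000 * (J * (J - 1)) := by ring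
      _ ≤ k * k := h6
      _ = k ^ 2 := by ring

theorem div_up (a b u : ℕ) (hb : 0 < b) (hu : 0 < u) :
    (a : ℝ) / b ≤ ((a * u / b + 1 : ℕ) : ℝ) / u := by
  have h1 : a * u < b * (a * u / b + 1) := Nat.lt_mul_div_succ (a * u) hb
  have hb' : (0 : ℝ) < b := by exact_mod_cast hb
  have hu' : (0 : ℝ) < u := by exact_mod_cast hu
  rw [div_le_div_iff₀ hb' hu']
  have h2 : ((a * u : ℕ) : ℝ) ≤ ((b * (a * u / b + 1) : ℕ) : ℝ) := by exact_mod_cast h1.le
  push_cast at h2 ⊢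
  linarith

/-- the charge of a wall for the loads, in units of `1 / u` -/
def wChN (u k J : ℕ) : ℕ := 2 * (J * J * (J - 1)) * u / (k * k) + 1

/-- the sum of the thicknesses of the bits of a wall, in units of `1 / u` -/
def wThN (u k J K : ℕ) : ℕ := 2 * ((K - 1) * (J * J * (J - 1))) * u / (k * k) + 1

theorem wCh_le {u k J K : ℕ} (hu : 0 < u) (hw : WOK (k, J, K)) : wCh (k, J, K) ≤ (wChN u k J : ℝ) / u := by
  have hk := hw.k0
  have hJ := hw.J2
  simp only at hk hJ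
  have h := div_up (2 * (J * J * (J - 1))) (k * k) u (by nlinarith) hu
  refine le_trans (le_of_eq ?_) h
  unfold wCh
  have e : ((J - 1 : ℕ) : ℝ) = (J : ℝ) - 1 := by rw [Nat.cast_sub (by omega)]; simp
  push_cast
  rw [e]
  ring

theorem wTh_le {u k J K : ℕ} (hu : 0 < u) (hw : WOK (k, J, K)) (hK : 1 ≤ K) :
    wTh (k, J, K) ≤ (wThN u k J K : ℝ) / u := by
  have hk := hw.k0
  have hJ := hw.J2
  simp only at hk hJ
  have h := div_up (2 * ((K - 1) * (J * J * (J - 1)))) (k * k) u (by nlinarith) hu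
  refine le_trans (le_of_eq ?_) h
  unfold wTh
  have e : ((J - 1 : ℕ) : ℝ) = (J : ℝ) - 1 := by rw [Nat.cast_sub (by omega)]; simp
  have e2 : ((K - 1 : ℕ) : ℝ) = (K : ℝ) - 1 := by rw [Nat.cast_sub (by omega)]; simp
  push_cast
  rw [e, e2]
  ring

/-- sum of the thicknesses, also for `K = 0` -/
theorem wall_thick {u k J K : ℕ} (hu : 0 < u) (hw : WOK (k, J, K)) :
    ((wallPs (k, J, K)).map Prod.fst).sum ≤ (wThN u k J K : ℝ) / u := by
  rcases Nat.eq_zero_or_pos K with rfl | hK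
  · have : wallPs (k, J, 0) = 0 := by
      unfold wallPs
      simp
    rw [this]
    simp only [Multiset.map_zero, Multiset.sum_zero]
    positivity
  · exact (hw.thick hK).trans (wTh_le hu hw hK)

theorem wCh_nonneg {w : ℕ × ℕ × ℕ} (hw : WOK w) : 0 ≤ wCh w := by
  have hJ := hw.J2
  have : (2 : ℝ) ≤ w.2.1 := by exact_mod_cast hJ
  unfold wCh
  have h1 : 0 ≤ (w.2.1 : ℝ) - 1 := by linarith
  positivity

theorem Th_anti {a b : ℕ} (ha : 1 ≤ a) (hab : a ≤ b) : Th b ≤ Th a := by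
  unfold Th
  have h1 : (1 : ℝ) ≤ a := by exact_mod_cast ha
  have h2 : (a : ℝ) ≤ b := by exact_mod_cast hab
  have h3 : 0 < 5 * (a : ℝ) - 1 := by linarith
  apply div_le_div_of_nonneg_left (by norm_num) (by positivity)
  apply mul_le_mul_of_nonneg_left _ (by norm_num)
  exact pow_le_pow_left₀ h3.le (by linarith) 3

/-- **The charges**: only the walls which end after `e` matter for the classes from `KA` on. -/
theorem charge_le (Ws : Multiset (ℕ × ℕ × ℕ)) (hW : ∀ w ∈ Ws, WOK w) (K KA e : ℕ) (hKA : 2 ≤ KA) (hK : KA ≤ K)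
    (he : 5120 * e ^ 2 ≤ 6 * (5 * (KA - 1) - 1) ^ 3) :
    (Ws.map (fun w => if 2 < Th (K - 1) * ((w.1 : ℝ) + 2 * w.2.1 * w.2.2) ^ 2 then wCh w else 0)).sum ≤
      (Ws.map (fun w => if e < wEnd w then wCh w else 0)).sum := by
  apply Multiset.sum_map_le_sum_map
  intro w hw
  have hc := wCh_nonneg (hW w hw)
  by_cases h1 : e < wEnd w
  · rw [if_pos h1]
    split_ifs <;> linarith
  · rw [if_neg h1, if_neg]
    have h2 : ((w.1 : ℝ) + 2 * w.2.1 * w.2.2) ≤ e := by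
      have : wEnd w ≤ e := not_lt.1 h1
      unfold wEnd at this
      exact_mod_cast this
    have h3 : ((w.1 : ℝ) + 2 * w.2.1 * w.2.2) ^ 2 ≤ (e : ℝ) ^ 2 := pow_le_pow_left₀ (by positivity) h2 2
    have h4 : Th (K - 1) ≤ Th (KA - 1) := Th_anti (by omega) (by omega)
    have h5 : 0 < Th (KA - 1) := Th_pos (by omega)
    have h6 : Th (KA - 1) * (e : ℝ) ^ 2 ≤ 2 := by
      obtain ⟨a, rfl⟩ : ∃ a, KA = a + 2 := ⟨KA - 2, by omega⟩
      have e1 : a + 2 - 1 = a + 1 := by omega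
      rw [e1] at he ⊢
      have e2 : 5 * (a + 1) - 1 = 5 * a + 4 := by omega
      rw [e2] at he
      have h7 : (5120 : ℝ) * (e : ℝ) ^ 2 ≤ 6 * (5 * (a : ℝ) + 4) ^ 3 := by exact_mod_cast he
      have e3 : 5 * ((a + 1 : ℕ) : ℝ) - 1 = 5 * (a : ℝ) + 4 := by push_cast; ring
      unfold Th
      rw [e3, div_mul_eq_mul_div, div_le_iff₀ (by positivity)]
      linarith
    have h7 : Th (K - 1) * ((w.1 : ℝ) + 2 * w.2.1 * w.2.2) ^ 2 ≤ Th (KA - 1) * (e : ℝ) ^ 2 :=
      mul_le_mul h4 h3 (by positivity) h5.le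
    linarith

/-- the charge with the threshold `e`, in units of `1 / u` -/
def wChE (u e : ℕ) (w : ℕ × ℕ × ℕ) : ℕ := bif Nat.ble (wEnd w) e then 0 else wChN u w.1 w.2.1

theorem wChE_le {u e : ℕ} (hu : 0 < u) (Ws : Multiset (ℕ × ℕ × ℕ)) (hW : ∀ w ∈ Ws, WOK w) :
    (Ws.map (fun w => if e < wEnd w then wCh w else 0)).sum ≤ ((Ws.map (wChE u e)).sum : ℝ) / u := by
  have h : (((Ws.map (wChE u e)).sum : ℕ) : ℝ) / u = (Ws.map (fun w => ((wChE u e w : ℕ) : ℝ) / u)).sum := by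
    rw [Multiset.sum_map_div]
    congr 1
    induction Ws using Multiset.induction_on with
    | empty => simp
    | cons w Ws ih =>
      rw [Multiset.map_cons, Multiset.sum_cons, Multiset.map_cons, Multiset.sum_cons, Nat.cast_add,
        ih (fun v hv => hW v (Multiset.mem_cons_of_mem hv))]
  rw [h]
  apply Multiset.sum_map_le_sum_map
  intro w hw
  unfold wChE
  by_cases h1 : e < wEnd w
  · rw [if_pos h1]
    have : Nat.ble (wEnd w) e = false := by
      rw [Bool.eq_false_iff]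
      intro hcon
      have := Nat.le_of_ble_eq_true hcon
      omega
    rw [this]
    obtain ⟨k, J, K⟩ := w
    exact wCh_le hu (hW _ hw)
  · rw [if_neg h1]
    positivity

/-- **Load of the bits of the walls**, ready to use: classes from `KA` on, charges only for the walls which end
after `e`. -/
theorem bits_load_N {u KA e n0 M : ℕ} (hu : 0 < u) (hKA : 1600 ≤ KA)
    (he : 5120 * e ^ 2 ≤ 6 * (5 * (KA - 1) - 1) ^ 3) (Ws : Multiset (ℕ × ℕ × ℕ)) (hW : ∀ w ∈ Ws, WOK w)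
    (hn0 : 1 ≤ n0) (hd : (Ws.map wNums).sum ≤ (Finset.Ico n0 M).val) (K : ℕ) (hK : KA ≤ K) :
    lenK K ((Ws.map wallPs).sum) ≤ (63 / 10000) * (3 / K) + ((Ws.map (wChE u e)).sum : ℝ) / u := by
  have h1 := bits_load K n0 M Ws (by omega) hW hn0 hd
  have h2 := charge_le Ws hW K KA e (by omega) hK he
  have h3 := wChE_le (e := e) hu Ws hW
  linarith

/-- **Load of the bits of the walls**, at most eight rows. -/
theorem bits_load8_N {u KA e n0 M : ℕ} (hu : 0 < u) (hKA : 1600 ≤ KA)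
    (he : 5120 * e ^ 2 ≤ 6 * (5 * (KA - 1) - 1) ^ 3) (Ws : Multiset (ℕ × ℕ × ℕ)) (hW : ∀ w ∈ Ws, WOK w)
    (h8 : ∀ w ∈ Ws, w.2.1 ≤ 8)
    (hn0 : 1 ≤ n0) (hd : (Ws.map wNums).sum ≤ (Finset.Ico n0 M).val) (K : ℕ) (hK : KA ≤ K) :
    lenK K ((Ws.map wallPs).sum) ≤ (43 / 10000) * (3 / K) + ((Ws.map (wChE u e)).sum : ℝ) / u := by
  have h1 := bits_load8 K n0 M Ws (by omega) hW h8 hn0 hd
  have h2 := charge_le Ws hW K KA e (by omega) hK he
  have h3 := wChE_le (e := e) hu Ws hW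
  linarith

theorem wNums_sum_range' (Ws : Multiset (ℕ × ℕ × ℕ)) :
    (Ws.map wNums).sum = (Ws.map (fun w => (List.range' w.1 (2 * (w.2.1 * w.2.2)) : Multiset ℕ))).sum := by
  congr 1
  apply Multiset.map_congr rfl
  intro w _
  unfold wNums
  have : w.1 + 2 * w.2.1 * w.2.2 = w.1 + 2 * (w.2.1 * w.2.2) := by ring
  rw [this]
  show ((List.range' w.1 (w.1 + 2 * (w.2.1 * w.2.2) - w.1) : List ℕ) : Multiset ℕ) = _
  rw [Nat.add_sub_cancel_left]

theorem thr_a : 5120 * 177000 ^ 2 ≤ 6 * (5 * (6000 - 1) - 1) ^ 3 := by norm_num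
theorem thr_b : 5120 * 630000 ^ 2 ≤ 6 * (5 * (13967 - 1) - 1) ^ 3 := by norm_num
theorem thr_c : 5120 * 3050000 ^ 2 ≤ 6 * (5 * (40000 - 1) - 1) ^ 3 := by norm_num
theorem thr_d : 5120 * 15900000 ^ 2 ≤ 6 * (5 * (120000 - 1) - 1) ^ 3 := by norm_num
theorem thr_e : 5120 * 300000000 ^ 2 ≤ 6 * (5 * (851000 - 1) - 1) ^ 3 := by norm_num

end Pool.Agent.MMS
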