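import Pool.Agent.MP_94f265_co.ST.Glue
import Pool.Agent.MP_94f265_co.ST.Bt
import Pool.Agent.MP_94f265_co.ST.BitsG

/-!
# The bits of the walls as objects of the final state
-/

namespace Pool.Agent.MMS

open Pool.Agent.MM1 Pool.Agent.MM2

/-- the objects of the bits of a wall -/
noncomputable def wallQ (w : ℕ × ℕ × ℕ) : Multiset Obj := (wallPs w).map plainObj

/-- the objects of the bits of some walls -/
noncomputable def wallsQ (Ws : Multiset (ℕ × ℕ × ℕ)) : Multiset Obj := (Ws.map wallQ).sum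

theorem wallsQ_zero : wallsQ 0 = 0 := by simp [wallsQ]

theorem wallsQ_cons (w : ℕ × ℕ × ℕ) (Ws : Multiset (ℕ × ℕ × ℕ)) : wallsQ (w ::ₘ Ws) = wallQ w + wallsQ Ws := by
  simp [wallsQ]

theorem wallsQ_add (V W : Multiset (ℕ × ℕ × ℕ)) : wallsQ (V + W) = wallsQ V + wallsQ W := by
  simp [wallsQ]

theorem wallsQ_single (w : ℕ × ℕ × ℕ) : wallsQ {w} = wallQ w := by
  simp [wallsQ]

theorem wallsQ_eq (Ws : Multiset (ℕ × ℕ × ℕ)) : wallsQ Ws = ((Ws.map wallPs).sum).map plainObj := by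
  induction Ws using Multiset.induction_on with
  | empty => simp [wallsQ]
  | cons w Ws ih =>
    rw [wallsQ_cons, ih, Multiset.map_cons, Multiset.sum_cons, Multiset.map_add]
    rfl

/-- **The free context of the bits of a wall.** -/
theorem free_bt_wall {k J K : ℕ} (hk : 1 ≤ k) (hJ : 1 ≤ J) : FreeOK [.bt k J K]
    (fun Q B => B = 0 ∧ Q = wallQ (k, J, K)) := by
  refine FreeOK_single fun G hG => ?_
  have h' : G = wBits (wa k J) (wb k J) J K := hG
  subst h'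
  refine ⟨wallQ (k, J, K), 0, 0, 0, ⟨rfl, rfl⟩, OwedOK_plain _, rfl, ?_⟩
  rw [unitsM_zero, zero_add, add_zero, wallQ, rects_plain]
  exact wallPs_cut hk hJ

theorem cells_wallsQ (Ws : Multiset (ℕ × ℕ × ℕ)) : cellsOf (wallsQ Ws) = (Ws.map wallPs).sum := by
  rw [wallsQ_eq, cells_plain]

theorem potOf_plainS (S : Multiset (ℝ × ℝ)) : potOf (S.map plainObj) = 0 := by
  induction S using Multiset.induction_on with
  | empty => rw [Multiset.map_zero, potOf_zero]
  | cons p S ih =>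
    rw [Multiset.map_cons, ← Multiset.singleton_add, potOf_add, ih, potOf_single, plainObj_pot]
    rfl

theorem pot_wallsQ (Ws : Multiset (ℕ × ℕ × ℕ)) : potOf (wallsQ Ws) = 0 := by
  rw [wallsQ_eq, potOf_plainS]

theorem mem_walls {Ws : Multiset (ℕ × ℕ × ℕ)} {p : ℝ × ℝ} (hp : p ∈ (Ws.map wallPs).sum) :
    ∃ w ∈ Ws, p ∈ wallPs w := by
  induction Ws using Multiset.induction_on with
  | empty => simp at hp
  | cons w Ws ih =>
    rw [Multiset.map_cons, Multiset.sum_cons, Multiset.mem_add] at hp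
    rcases hp with hp | hp
    · exact ⟨w, Multiset.mem_cons_self _ _, hp⟩
    · obtain ⟨v, hv, h⟩ := ih hp
      exact ⟨v, Multiset.mem_cons_of_mem hv, h⟩

theorem walls_shape {Ws : Multiset (ℕ × ℕ × ℕ)} (hW : ∀ w ∈ Ws, WOK w) :
    ∀ p ∈ (Ws.map wallPs).sum, 0 < p.1 ∧ p.1 < MM2.Th 1599 ∧ (51 / 50) * p.1 ≤ p.2 := by
  intro p hp
  obtain ⟨w, hw, h⟩ := mem_walls hp
  exact (hW w hw).shape p h

theorem wallsQ_inv {Ws : Multiset (ℕ × ℕ × ℕ)} (hW : ∀ w ∈ Ws, WOK w) :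
    ∀ o ∈ wallsQ Ws, OInv (MM2.Th (i0 - 1)) o := by
  intro o ho
  rw [wallsQ_eq, Multiset.mem_map] at ho
  obtain ⟨p, hp, rfl⟩ := ho
  obtain ⟨h1, h2, h3⟩ := walls_shape hW p hp
  exact plain_inv (a := p.1) (b := p.2) h1 h2 h3

/-! ## The potential of plain objects -/

/-- the left side of the condition on the potential -/
noncomputable def psiQ (Q : Multiset Obj) : ℝ :=
  (301 / 100) * (Q.map (fun o => ∑ K ∈ touched o, MM2.Th (K - 1))).sum +
    (302 / 100) * ((cellsOf Q).map (fun c => (52 / (kc c.1 : ℝ)) * MM2.Th (kc c.1 - 1))).sum +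
    (16 / 5) * ((potOf Q).map (fun p => MM2.Th (kc p.1 - 1))).sum

theorem psiQ_add (Q R : Multiset Obj) : psiQ (Q + R) = psiQ Q + psiQ R := by
  unfold psiQ
  rw [cellsOf_add, potOf_add]
  simp only [Multiset.map_add, Multiset.sum_add]
  ring

theorem psiQ_zero : psiQ 0 = 0 := by
  unfold psiQ
  rw [cellsOf_zero, potOf_zero]
  simp

theorem kc_big {t : ℝ} (h0 : 0 < t) (h : t < MM2.Th 1599) : 1600 ≤ kc t := by
  by_contra hcon
  push Not at hcon
  obtain ⟨h1, h2⟩ := kc_spec h0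
  have : MM2.Th 1599 ≤ MM2.Th (kc t) := Th_anti h1 (by omega)
  linarith

theorem psiQ_plain1 {p : ℝ × ℝ} (h0 : 0 < p.1) (h : p.1 < MM2.Th 1599) :
    psiQ {plainObj p} ≤ (3115 / 1000) * p.1 := by
  have hK := kc_big h0 h
  obtain ⟨_, h2⟩ := kc_spec h0
  have e1 : cellsOf {plainObj p} = {p} := by
    rw [cellsOf_single, plainObj_cells]; rfl
  have e2 : potOf {plainObj p} = 0 := by
    rw [potOf_single, plainObj_pot]; rfl
  have e3 : touched (plainObj p) = {kc p.1} := by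
    unfold touched
    rw [plainObj_cells]
    simp
  unfold psiQ
  rw [e1, e2]
  simp only [Multiset.map_singleton, Multiset.sum_singleton, Multiset.map_zero, Multiset.sum_zero, e3,
    Finset.sum_singleton, mul_zero, add_zero]
  set K := kc p.1 with hKd
  have hKr : (1600 : ℝ) ≤ K := by exact_mod_cast hK
  obtain ⟨hA, hAB, hBA⟩ := cls_w1 K hK
  have hB : 0 < MM2.Th (K - 1) := hA.trans hAB
  have h3 : (3006 / 1000) / (K : ℝ) ≤ 2 / 1000 := by
    rw [div_le_iff₀ (by linarith)]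
    linarith
  have h4 : MM2.Th (K - 1) ≤ (1002 / 1000) * p.1 := by
    have : (3006 / 1000) / (K : ℝ) * MM2.Th K ≤ 2 / 1000 * MM2.Th K := mul_le_mul_of_nonneg_right h3 hA.le
    linarith
  have h5 : 52 / (K : ℝ) ≤ 325 / 10000 := by
    rw [div_le_iff₀ (by linarith)]
    linarith
  have h6 : 52 / (K : ℝ) * MM2.Th (K - 1) ≤ 325 / 10000 * MM2.Th (K - 1) := mul_le_mul_of_nonneg_right h5 hB.le
  linarith

theorem psiQ_plain {S : Multiset (ℝ × ℝ)} (hS : ∀ p ∈ S, 0 < p.1 ∧ p.1 < MM2.Th 1599) :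
    psiQ (S.map plainObj) ≤ (3115 / 1000) * (S.map Prod.fst).sum := by
  induction S using Multiset.induction_on with
  | empty => simp [psiQ_zero]
  | cons p S ih =>
    obtain ⟨h1, h2⟩ := hS p (Multiset.mem_cons_self _ _)
    have h3 := ih (fun q hq => hS q (Multiset.mem_cons_of_mem hq))
    have h4 := psiQ_plain1 h1 h2
    rw [Multiset.map_cons, ← Multiset.singleton_add, psiQ_add, Multiset.map_cons, Multiset.sum_cons]
    linarith

/-- **The potential of the bits of the walls**, in units of `1 / u`. -/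
theorem psiQ_walls {u : ℕ} (hu : 0 < u) {Ws : Multiset (ℕ × ℕ × ℕ)} (hW : ∀ w ∈ Ws, WOK w) :
    psiQ (wallsQ Ws) ≤ (3115 / 1000) * (((Ws.map (fun w => wThN u w.1 w.2.1 w.2.2)).sum : ℕ) : ℝ) / u := by
  have hu' : (0 : ℝ) < u := by exact_mod_cast hu
  induction Ws using Multiset.induction_on with
  | empty => simp [wallsQ_zero, psiQ_zero]
  | cons w Ws ih =>
    have hw := hW w (Multiset.mem_cons_self _ _)
    have h1 := ih (fun v hv => hW v (Multiset.mem_cons_of_mem hv))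
    obtain ⟨k, J, K⟩ := w
    have h2 : psiQ (wallQ (k, J, K)) ≤ (3115 / 1000) * ((wThN u k J K : ℝ) / u) := by
      refine (psiQ_plain (fun p hp => ?_)).trans ?_
      · obtain ⟨a, b, _⟩ := hw.shape p hp
        exact ⟨a, b⟩
      · exact mul_le_mul_of_nonneg_left (wall_thick hu hw) (by norm_num)
    rw [wallsQ_cons, psiQ_add, Multiset.map_cons, Multiset.sum_cons, Nat.cast_add, mul_add, add_div]
    rw [← mul_div_assoc] at h2
    exact add_le_add h2 h1

/-- **Load of the bits of the walls**, from the multiset `wnum` of their numbers. -/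
theorem walls_load {u KA e n0 M : ℕ} (hu : 0 < u) (hKA : 1600 ≤ KA)
    (he : 5120 * e ^ 2 ≤ 6 * (5 * (KA - 1) - 1) ^ 3) (Ws : Multiset (ℕ × ℕ × ℕ)) (hW : ∀ w ∈ Ws, WOK w)
    (hn0 : 1 ≤ n0) (hd : wnum Ws ≤ (Finset.Ico n0 M).val) (K : ℕ) (hK : KA ≤ K) :
    lenK K (cellsOf (wallsQ Ws)) ≤ (63 / 10000) * (3 / K) + ((Ws.map (wChE u e)).sum : ℝ) / u := by
  rw [cells_wallsQ]
  refine bits_load_N (M := M) hu hKA he Ws hW hn0 ?_ K hK
  rw [wNums_sum_range']
  exact hd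

/-- the same with at most eight rows -/
theorem walls_load8 {u KA e n0 M : ℕ} (hu : 0 < u) (hKA : 1600 ≤ KA)
    (he : 5120 * e ^ 2 ≤ 6 * (5 * (KA - 1) - 1) ^ 3) (Ws : Multiset (ℕ × ℕ × ℕ)) (hW : ∀ w ∈ Ws, WOK w)
    (h8 : ∀ w ∈ Ws, w.2.1 ≤ 8)
    (hn0 : 1 ≤ n0) (hd : wnum Ws ≤ (Finset.Ico n0 M).val) (K : ℕ) (hK : KA ≤ K) :
    lenK K (cellsOf (wallsQ Ws)) ≤ (43 / 10000) * (3 / K) + ((Ws.map (wChE u e)).sum : ℝ) / u := by
  rw [cells_wallsQ]
  refine bits_load8_N (M := M) hu hKA he Ws hW h8 hn0 ?_ K hK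
  rw [wNums_sum_range']
  exact hd

end Pool.Agent.MMS
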