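import Pool.Agent.MP_94f265_co.MM1.Geom
import Pool.Agent.MP_94f265_co.ST.Base

/-!
# The computed start: kernel checker for guillotine plans

All side lengths are enclosed by integers at the scale `SC` (divisible by `1, ..., 50`, so that the first
unit fractions are exact).
-/

namespace Pool.Agent.MMS

open Pool.Agent.MM1

theorem SC_pos : (0 : ℝ) < (SC : ℝ) := by norm_num [SC]

/-- sides of `R_n` -/
noncomputable def U (n : ℕ) : ℝ × ℝ := (1 / (n : ℝ), 1 / ((n : ℝ) + 1))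

/-- the units with index in a list -/
noncomputable def units (l : List ℕ) : Multiset (ℝ × ℝ) := ((l.map U : List (ℝ × ℝ)) : Multiset (ℝ × ℝ))

theorem units_nil : units [] = 0 := rfl

theorem units_append (l l' : List ℕ) : units (l ++ l') = units l + units l' := by
  simp [units]

/-- long side of the domino `R_k ∪ R_(k+1) = 1/(k+1) × (1/k + 1/(k+2))` -/
noncomputable def Lg (k : ℕ) : ℝ := 1 / (k : ℝ) + 1 / ((k : ℝ) + 2)

theorem Lg_nonneg (k : ℕ) : 0 ≤ Lg k := by unfold Lg; positivity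

/-- place a `u × v` rectangle in the corner of `a × b` -/
theorem cut_corner {a b u v : ℝ} (hu : 0 ≤ u) (hua : u ≤ a) (hv : 0 ≤ v) (hvb : v ≤ b) :
    Cut {(a, b)} ({(u, v)} + ({(a - u, b)} + {(u, b - v)})) := by
  have h1 : Cut {(a, b)} ({(u, b)} + {(a - u, b)}) := by
    have h := Cut.split (a := u) (b := a - u) (c := b) hu (by linarith)
    rw [show u + (a - u) = a by ring] at h
    exact h
  have h2 : Cut {(u, b)} ({(u, v)} + {(u, b - v)}) := by
    have h := Cut.split' (a := v) (b := b - v) (c := u) hv (by linarith)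
    rw [show v + (b - v) = b by ring] at h
    exact h
  refine h1.trans ((Cut.add h2 (Cut.refl _)).trans (Cut.of_eq ?_))
  abel

/-- a domino is cut into its two units -/
theorem cut_domino (k : ℕ) (_hk : 1 ≤ k) : Cut {(1 / ((k : ℝ) + 1), Lg k)} (units [k, k + 1]) := by
  have h := Cut.split' (a := 1 / (k : ℝ)) (b := 1 / ((k : ℝ) + 2)) (c := 1 / ((k : ℝ) + 1))
    (by positivity) (by positivity)
  refine h.trans ?_
  have h2 : Cut {(1 / ((k : ℝ) + 1), 1 / (k : ℝ))} {(1 / (k : ℝ), 1 / ((k : ℝ) + 1))} := Cut.swap _ _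
  have h3 := Cut.add (F := {(1 / ((k : ℝ) + 1), 1 / (k : ℝ))}) (G := {(1 / (k : ℝ), 1 / ((k : ℝ) + 1))})
    (F' := {(1 / ((k : ℝ) + 1), 1 / ((k : ℝ) + 2))}) (G' := {(1 / ((k : ℝ) + 1), 1 / ((k : ℝ) + 2))}) h2 (Cut.refl _)
  refine (Cut.of_eq ?_).trans (h3.trans (Cut.of_eq ?_))
  · rfl
  · simp only [units, List.map_cons, List.map_nil, U]
    push_cast
    rw [show (k : ℝ) + 1 + 1 = (k : ℝ) + 2 by ring]
    rfl

/-! ## Enclosures -/

/-- `lo ≤ x * SC ≤ hi` -/
def In (lo hi : ℕ) (x : ℝ) : Prop := (lo : ℝ) ≤ x * (SC : ℝ) ∧ x * (SC : ℝ) ≤ (hi : ℝ)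

theorem In.nonneg {lo hi : ℕ} {x : ℝ} (h : In lo hi x) : 0 ≤ x := by
  have h1 : (0 : ℝ) ≤ x * (SC : ℝ) := le_trans (Nat.cast_nonneg lo) h.1
  exact nonneg_of_mul_nonneg_left h1 SC_pos

theorem In.sub {lo hi lo' hi' : ℕ} {x y : ℝ} (h : In lo hi x) (h' : In lo' hi' y) (hle : hi' ≤ lo) :
    In (lo - hi') (hi - lo') (x - y) := by
  obtain ⟨h1, h2⟩ := h
  obtain ⟨h3, h4⟩ := h'
  have h5 : lo' ≤ hi := by
    have : (lo' : ℝ) ≤ (hi : ℝ) := by
      have : (hi' : ℝ) ≤ (lo : ℝ) := by exact_mod_cast hle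
      linarith
    exact_mod_cast this
  constructor
  · rw [Nat.cast_sub hle]; nlinarith
  · rw [Nat.cast_sub h5]; nlinarith

theorem In.add {lo hi lo' hi' : ℕ} {x y : ℝ} (h : In lo hi x) (h' : In lo' hi' y) :
    In (lo + lo') (hi + hi') (x + y) := by
  obtain ⟨h1, h2⟩ := h
  obtain ⟨h3, h4⟩ := h'
  constructor
  · push_cast; nlinarith
  · push_cast; nlinarith

theorem In.le {lo hi lo' hi' : ℕ} {x y : ℝ} (h : In lo hi x) (h' : In lo' hi' y) (hle : hi' ≤ lo) :
    y ≤ x := by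
  have h5 : (hi' : ℝ) ≤ (lo : ℝ) := by exact_mod_cast hle
  have h6 : y * (SC : ℝ) ≤ x * (SC : ℝ) := by
    have := h.1
    have := h'.2
    linarith
  exact le_of_mul_le_mul_right h6 SC_pos

theorem In_frac (p q : ℕ) (hq : 0 < q) : In (fl (SC * p) q) (ce (SC * p) q) ((p : ℝ) / (q : ℝ)) := by
  have hq' : (0 : ℝ) < (q : ℝ) := by exact_mod_cast hq
  constructor
  · unfold fl
    have h := Nat.div_mul_le_self (SC * p) q
    have h' : (((SC * p / q : ℕ) : ℝ)) * (q : ℝ) ≤ (SC : ℝ) * (p : ℝ) := by exact_mod_cast h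
    rw [div_mul_eq_mul_div, le_div_iff₀ hq']
    linarith
  · unfold ce
    have h : SC * p ≤ ((SC * p + q - 1) / q) * q := by
      have h1 := Nat.div_add_mod (SC * p + q - 1) q
      have h2 := Nat.mod_lt (SC * p + q - 1) hq
      have h3 : q * ((SC * p + q - 1) / q) = ((SC * p + q - 1) / q) * q := Nat.mul_comm _ _
      omega
    have h' : (SC : ℝ) * (p : ℝ) ≤ (((SC * p + q - 1) / q : ℕ) : ℝ) * (q : ℝ) := by exact_mod_cast h
    rw [div_mul_eq_mul_div, div_le_iff₀ hq']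
    linarith

theorem In_inv (q : ℕ) (hq : 0 < q) : In (fl SC q) (ce SC q) (1 / (q : ℝ)) := by
  have h := In_frac 1 q hq
  rw [Nat.mul_one, Nat.cast_one] at h
  exact h

end Pool.Agent.MMS
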