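import Pool.Agent.MP_94f265_co.ST.FinADef
import Pool.Agent.MP_94f265_co.ST.FinP

/-!
# Final state check: sums of states
-/

namespace Pool.Agent.MMS.Fi

open Pool.Agent.MM1 Pool.Agent.MM2

theorem tab_aux (x : ℕ → ℕ) (hx : ∀ a b, x (a + b) = x a * x b)
    (a0 a1 a2 a3 a4 a5 a6 a7 a8 a9 a10 a11 a12 a13 a14 a15 a16 : ℕ) :
    a0 + (a1 + (a2 + (a3 + (a4 + (a5 + (a6 + (a7 + (a8 + (a9 + (a10 + (a11 + (a12 + (a13 + (a14 + (a15 + a16 * x 131072) *
      x 131072) * x 90112) * x 90112) * x 90112) * x 90112) * x 210944) * x 210944) * x 131072) * x 131072) *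
      x 131072) * x 131072) * x 65536) * x 65536) * x 65536) * x 65536 =
    a0 + a1 * x 65536 + a2 * x 131072 + a3 * x 196608 + a4 * x 262144 + a5 * x 393216 + a6 * x 524288 + a7 * x 655360 +
      a8 * x 786432 + a9 * x 997376 + a10 * x 1208320 + a11 * x 1298432 + a12 * x 1388544 + a13 * x 1478656 +
      a14 * x 1568768 + a15 * x 1699840 + a16 * x 1830912 := by
  have e2 : x 131072 = x 65536 * x 65536 := hx 65536 65536
  have e3 : x 196608 = x 131072 * x 65536 := hx 131072 65536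
  have e4 : x 262144 = x 196608 * x 65536 := hx 196608 65536
  have e5 : x 393216 = x 262144 * x 131072 := hx 262144 131072
  have e6 : x 524288 = x 393216 * x 131072 := hx 393216 131072
  have e7 : x 655360 = x 524288 * x 131072 := hx 524288 131072
  have e8 : x 786432 = x 655360 * x 131072 := hx 655360 131072
  have e9 : x 997376 = x 786432 * x 210944 := hx 786432 210944
  have e10 : x 1208320 = x 997376 * x 210944 := hx 997376 210944
  have e11 : x 1298432 = x 1208320 * x 90112 := hx 1208320 90112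
  have e12 : x 1388544 = x 1298432 * x 90112 := hx 1298432 90112
  have e13 : x 1478656 = x 1388544 * x 90112 := hx 1388544 90112
  have e14 : x 1568768 = x 1478656 * x 90112 := hx 1478656 90112
  have e15 : x 1699840 = x 1568768 * x 131072 := hx 1568768 131072
  have e16 : x 1830912 = x 1699840 * x 131072 := hx 1699840 131072
  rw [e16, e15, e14, e13, e12, e11, e10, e9, e8, e7, e6, e5, e4, e3, e2]
  generalize x 65536 = u
  generalize x 210944 = v
  generalize x 90112 = w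
  ring

theorem tb_eq (a b x : ℕ) : tb a b x = a + x * 2 ^ b := by
  show a + (x <<< b) = _
  rw [Nat.shiftLeft_eq]

theorem tabR_eq (s : Sta) : tabR s = TAB s := by
  cases s with
  | mk t p a0 a1 a2 a3 a4 a5 a6 a7 a8 a9 a10 a11 a12 a13 a14 a15 a16 =>
    have h := tab_aux (fun b => 2 ^ b) (fun a b => pow_add 2 a b) a0 a1 a2 a3 a4 a5 a6 a7 a8 a9 a10 a11 a12 a13 a14 a15 a16
    show tb a0 _ (tb a1 _ (tb a2 _ (tb a3 _ (tb a4 _ (tb a5 _ (tb a6 _ (tb a7 _ (tb a8 _ (tb a9 _ (tb a10 _ (tb a11 _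
      (tb a12 _ (tb a13 _ (tb a14 _ (tb a15 _ a16))))))))))))))) = _
    simp only [tb_eq]
    exact h

theorem totR_eq (s : Sta) : totR s = tS s := by
  cases s
  rfl

theorem potR_eq (s : Sta) : potR s = pS s := by
  cases s
  rfl

theorem tS_addS (s s' : Sta) : tS (addS s s') = tS s + tS s' := by
  cases s
  cases s'
  rfl

theorem pS_addS (s s' : Sta) : pS (addS s s') = pS s + pS s' := by
  cases s
  cases s'
  rfl

theorem add_aux (x : ℕ → ℕ) (a0 a1 a2 a3 a4 a5 a6 a7 a8 a9 a10 a11 a12 a13 a14 a15 a16 b0 b1 b2 b3 b4 b5 b6 b7 b8 b9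
    b10 b11 b12 b13 b14 b15 b16 : ℕ) :
    (a0 + b0) + (a1 + b1) * x 65536 + (a2 + b2) * x 131072 + (a3 + b3) * x 196608 + (a4 + b4) * x 262144 +
      (a5 + b5) * x 393216 + (a6 + b6) * x 524288 + (a7 + b7) * x 655360 + (a8 + b8) * x 786432 +
      (a9 + b9) * x 997376 + (a10 + b10) * x 1208320 + (a11 + b11) * x 1298432 + (a12 + b12) * x 1388544 +
      (a13 + b13) * x 1478656 + (a14 + b14) * x 1568768 + (a15 + b15) * x 1699840 + (a16 + b16) * x 1830912 =
    (a0 + a1 * x 65536 + a2 * x 131072 + a3 * x 196608 + a4 * x 262144 + a5 * x 393216 + a6 * x 524288 + a7 * x 655360 +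
      a8 * x 786432 + a9 * x 997376 + a10 * x 1208320 + a11 * x 1298432 + a12 * x 1388544 + a13 * x 1478656 +
      a14 * x 1568768 + a15 * x 1699840 + a16 * x 1830912) +
    (b0 + b1 * x 65536 + b2 * x 131072 + b3 * x 196608 + b4 * x 262144 + b5 * x 393216 + b6 * x 524288 + b7 * x 655360 +
      b8 * x 786432 + b9 * x 997376 + b10 * x 1208320 + b11 * x 1298432 + b12 * x 1388544 + b13 * x 1478656 +
      b14 * x 1568768 + b15 * x 1699840 + b16 * x 1830912) := by
  ring

theorem TAB_addS (s s' : Sta) : TAB (addS s s') = TAB s + TAB s' := by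
  cases s with
  | mk t p a0 a1 a2 a3 a4 a5 a6 a7 a8 a9 a10 a11 a12 a13 a14 a15 a16 =>
    cases s' with
    | mk t' p' b0 b1 b2 b3 b4 b5 b6 b7 b8 b9 b10 b11 b12 b13 b14 b15 b16 =>
      exact add_aux (fun b => 2 ^ b) a0 a1 a2 a3 a4 a5 a6 a7 a8 a9 a10 a11 a12 a13 a14 a15 a16
        b0 b1 b2 b3 b4 b5 b6 b7 b8 b9 b10 b11 b12 b13 b14 b15 b16

section

variable {QB : ℕ × ℕ × ℕ → Multiset Obj} {WOK : ℕ × ℕ × ℕ → Prop}

theorem PD_zero : PD QB WOK (TAB zeroS) (tS zeroS) (pS zeroS) 0 0 0 0 := by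
  have e : TAB zeroS = 0 := by
    unfold zeroS TAB
    simp only [zero_mul, add_zero]
  rw [e]
  exact PD.zero

theorem PD_addS {e s : Sta} {W W' : Multiset (ℕ × ℕ × ℕ)} {O O' : Multiset ℕ} {Q Q' : Multiset Obj}
    {B B' : Multiset (ℝ × ℝ)} (h : PD QB WOK (TAB e) (tS e) (pS e) W O Q B)
    (h' : PD QB WOK (TAB s) (tS s) (pS s) W' O' Q' B') :
    PD QB WOK (TAB (addS e s)) (tS (addS e s)) (pS (addS e s)) (W + W') (O + O') (Q + Q') (B + B') := by
  rw [TAB_addS, tS_addS, pS_addS]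
  exact h.add h'

end

end Pool.Agent.MMS.Fi
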