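import Pool.Agent.MP_94f265_co.ST.FinDef
import Pool.Agent.MP_94f265_co.ST.FinTab

/-!
# Kernel functions for chains and for the pieces above the columns of a wall

Unit of thickness in the tables of thresholds: `2 ^ 32 / SC`; unit of length `2 ^ 64 / SC`.  Position `q` = class
`q + 1600` here (`q < 18880`).
-/

namespace Pool.Agent.MMS.Fi

/-! ## class counts of a segment of cells whose thicknesses are almost an arithmetic progression -/

/-- the counts: `M = 4095 o` -/
noncomputable def apG5 (o M Z d e m R : Nat) (κ : Nat → Bool) : Bool :=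
  κ (Nat.sub (Nat.add (Nat.shiftLeft (Nat.land (Nat.shiftRight (Nat.mul Z (Nat.add R (nat_lit 1))) (nat_lit 52)) M) (nat_lit 64)) m)
    (Nat.land (Nat.shiftRight (Nat.mul (Nat.sub Z (Nat.mul o e)) R) (nat_lit 52)) M))

/-- `W` = the thresholds of the classes `q + 1600, ...` (`L` fields) -/
noncomputable def apG4 (W o L a last d e m : Nat) (κ : Nat → Bool) : Bool :=
  thenB (Nat.ble (Nat.land W (nat_lit 18446744073709551615)) last)
    (thenB (Nat.ble (Nat.add a (nat_lit 1)) (Nat.shiftRight W (Nat.sub (Nat.mul (nat_lit 64) L) (nat_lit 64))))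
      (apG5 o (Nat.mul o (nat_lit 4095)) (Nat.add (Nat.sub W (Nat.mul o (Nat.add a (nat_lit 1)))) (Nat.mul o d)) d e m
        (Nat.div (nat_lit 4503599627370496) d) κ))

/-- `o` = `L` ones -/
noncomputable def apG3 (S o L a last d e m : Nat) (κ : Nat → Bool) : Bool :=
  apG4 (Nat.land S (Nat.mul o (nat_lit 18446744073709551615))) o L a last d e m κ

/-- the thickness `a` is at least the threshold of the class with `y1 = 5 K - 1`, `b` is less than the one with `y2` -/
noncomputable def pA (y1 y2 a b : Nat) : Bool :=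
  thenB (Nat.ble (nat_lit 12314496454580611810684205) (Nat.mul a (Nat.mul y1 (Nat.mul y1 y1))))
    (Nat.ble (Nat.mul b (Nat.mul y2 (Nat.mul y2 y2))) (nat_lit 12314496454580611810684204))

/-- the block of thresholds shifted to the position `q` -/
noncomputable def thSh (q s T : Nat) (κ : Nat → Bool) : Bool := κ (Nat.shiftRight T (Nat.sub (Nat.mul (nat_lit 64) q) s))

noncomputable def selB (b : Bool) (x y : Bool) : Bool := Bool.rec (motive := fun _ => Bool) y x b

/-- the block with the position `q` -/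
noncomputable def thS (q : Nat) (κ : Nat → Bool) : Bool :=
  selB (Nat.ble q (nat_lit 4095))
    (selB (Nat.ble q (nat_lit 2047))
      (selB (Nat.ble q (nat_lit 1023)) (thSh q (nat_lit 0) tb0 κ) (thSh q (nat_lit 65536) tb1 κ))
      (selB (Nat.ble q (nat_lit 3071)) (thSh q (nat_lit 131072) tb2 κ) (thSh q (nat_lit 196608) tb3 κ)))
    (selB (Nat.ble q (nat_lit 8191))
      (selB (Nat.ble q (nat_lit 6143)) (thSh q (nat_lit 262144) tb4 κ) (thSh q (nat_lit 393216) tb5 κ))
      (selB (Nat.ble q (nat_lit 12287)) (thSh q (nat_lit 524288) tb6 κ) (thSh q (nat_lit 786432) tb7 κ)))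

/-- **Counts of one progression** in the classes of the positions `q, ..., q + L` -/
noncomputable def apG (q L a last b d e m : Nat) (κ : Nat → Bool) : Bool :=
  thenB (Nat.ble (nat_lit 1) d) (thenB (Nat.ble e d) (thenB (Nat.ble d (nat_lit 4503599627370496))
    (thenB (Nat.ble (nat_lit 1) L) (thenB (Nat.ble L (nat_lit 2047)) (thenB (Nat.ble m (nat_lit 2047))
      (thenB (Nat.ble (Nat.add q L) (nat_lit 18879))
        (thenB (pA (Nat.add (Nat.mul (nat_lit 5) (Nat.add q L)) (nat_lit 7999)) (Nat.add (Nat.mul (nat_lit 5) q) (nat_lit 7994)) a b)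
          (thS q (fun S => apG3 S (Nat.shiftRight on1 (Nat.mul (nat_lit 64) (Nat.sub (nat_lit 2047) L))) L a last d e m κ)))))))))

/-! ## prices -/

/-- price, unit `(3115/1000)` times the unit of `sh`: `c` = number of classes, `m` = number of cells, `K` = first class -/
def psD (c m sh K : Nat) : Nat :=
  Nat.add (Nat.div (Nat.mul sh (Nat.add (Nat.mul c (Nat.mul (nat_lit 9682) K)) (Nat.mul (nat_lit 505110) m)))
    (Nat.mul (nat_lit 10000) K)) (nat_lit 1)

/-- price for one class -/
def psD1 (m sh K : Nat) : Nat :=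
  Nat.add (Nat.div (Nat.mul sh (Nat.add (Nat.mul (nat_lit 9682) K) (Nat.mul (nat_lit 505110) m)))
    (Nat.mul (nat_lit 10000) K)) (nat_lit 1)

/-- number of classes which are paid; `mul = 0`: separate cells -/
noncomputable def nC (mul m L : Nat) : Nat :=
  Bool.rec (motive := fun _ => Nat) (mn m (Nat.add L (nat_lit 1))) m (Nat.beq mul (nat_lit 0))

/-- price of the potential bits of an object with `mul ≠ 0`: `c (sh - sl)` -/
noncomputable def psM (mul c sl sh : Nat) : Nat :=
  Bool.rec (motive := fun _ => Nat) (Nat.mul c (Nat.sub sh sl)) (nat_lit 0) (Nat.beq mul (nat_lit 0))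

/-! ## segments -/

noncomputable def segA2 (mul q L a last b d e m v : Nat) (f : At) : At := fun h hs s =>
  apG q L a last b d e m (fun C => addG q (Nat.mul C v) (Nat.mul (Nat.mul (nat_lit 4095) (Nat.add L (nat_lit 1))) v)
    (Nat.shiftLeft (Nat.add (psD (nC mul m L) m (Nat.add (Nat.add a e) b) (Nat.add (nat_lit 1600) q)) (psM mul (nat_lit 3) a b))
      (nat_lit 31)) f h hs s)

/-- `[a, x1]` = lower bounds of the first thickness and of the one after the last; the test `tst` gets the upper
bound of the last one -/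
noncomputable def segA1 (mul q L a last d e m v : Nat) (tst : Nat → Bool) (f : At) : At :=
  selA (tst (Nat.add last e)) (segA2 mul q L a last (Nat.add last e) d e m v f) noA

noncomputable def segA0 (mul q L a d e m v : Nat) (tst : Nat → Bool) (f : At) : At :=
  segA1 mul q L a (Nat.add a (Nat.mul d (Nat.sub m (nat_lit 1)))) d e m v tst f

/-- **AP segment** of `m` cells, `Y` = error -/
noncomputable def segA (mul q L a x1 Y m v : Nat) (tst : Nat → Bool) (f : At) : At :=
  segA0 mul q L a (Nat.div (Nat.sub x1 a) m) (Nat.add Y m) m v tst f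

/-- a window of positions -/
noncomputable def winOK (q L sl sh : Nat) : Bool :=
  thenB (Nat.ble (Nat.add q L) (nat_lit 18879))
    (pOK (Nat.add (Nat.mul (nat_lit 5) (Nat.add q L)) (nat_lit 7999)) (Nat.add (Nat.mul (nat_lit 5) q) (nat_lit 7994)) sl sh)

/-- **segment in a window**: `m` cells of value `v`, thicknesses in `[sl, sh]`; `mul = 0`: the cells are separate objects -/
noncomputable def segD (mul q L sl sh m v : Nat) (f : At) : At :=
  selA (winOK q L sl sh)
    (addG q (Nat.mul (Nat.mul m v) (Nat.div (Nat.sub (Nat.shiftLeft (nat_lit 1) (Nat.mul (nat_lit 64) (Nat.add L (nat_lit 1)))) (nat_lit 1))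
        (nat_lit 18446744073709551615)))
      (Nat.mul (Nat.mul m v) (Nat.add L (nat_lit 1)))
      (Nat.add (psD (nC mul m L) m sh (Nat.add (nat_lit 1600) q)) (psM mul (nat_lit 2) sl sh)) f)
    noA

/-! ## flat chains -/

/-- tests of a piece of a chain: several cells in one object -/
noncomputable def okM (sl sh k kn : Nat) : Bool :=
  thenB (Nat.ble (nat_lit 66654) k)
    (thenB (Nat.ble (Nat.mul (nat_lit 8) (Nat.mul sh kn)) (nat_lit 30990445042459967064000000000000))
      (Nat.ble (nat_lit 1239617801698398682560000000000000) (Nat.mul sl (Nat.mul k k))))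

/-- tests of separate cells of a flat chain -/
noncomputable def okS (sh kn : Nat) : Bool :=
  Nat.ble (Nat.mul (nat_lit 51) (Nat.mul sh kn)) (nat_lit 3099044504245996706400000000000000)

/-- value of a cell of a flat chain: `2 SC / 2 ^ 64 / k` -/
def vCh (k : Nat) : Nat := Nat.add (Nat.div (nat_lit 3359990784132) k) (nat_lit 1)

/-- the rest of the chain in one position, one object -/
noncomputable def chW (sl sh k kn m q v : Nat) (f : At) : At :=
  selA (thenB (okM sl sh k kn) (thenB (posOK q sl sh) (Nat.ble q (nat_lit 18879))))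
    (addG q (Nat.mul m v) (Nat.mul m v) (Nat.add (psD1 m sh (Nat.add (nat_lit 1600) q)) (Nat.mul (nat_lit 2) (Nat.sub sh sl))) f) noA

noncomputable def chW0 (wl wh k kn m q : Nat) (f : At) : At :=
  chW (Nat.sub wl (rc (Nat.add k (nat_lit 1)))) (Nat.sub wh (ru (Nat.sub kn (nat_lit 1)))) k kn m q (vCh k) f

noncomputable def okX (mul sl sh k kn : Nat) : Bool :=
  Bool.rec (motive := fun _ => Bool) (okM sl sh k kn) (okS sh kn) (Nat.beq mul (nat_lit 0))

/-- segment in a window -/
noncomputable def chD (mul sl sh k kn m q L : Nat) (f : At) : At :=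
  selA (okX mul sl sh k kn) (segD mul q L sl sh m (vCh k) f) noA

/-- error of the progression -/
def yCh (wl wh k m : Nat) : Nat :=
  Nat.add (Nat.mul (nat_lit 2) (Nat.add (Nat.shiftRight (Nat.add (Nat.sub wh wl) (nat_lit 1)) (nat_lit 32)) (nat_lit 2)))
    (Nat.add (Nat.div (Nat.mul (Nat.mul m m) (nat_lit 30990445042459967064000000000000))
      (Nat.mul (Nat.mul (Nat.mul k k) k) (nat_lit 4294967296))) (nat_lit 1))

/-- AP segment -/
noncomputable def chA (mul sl wl wh k kn m q L : Nat) (f : At) : At :=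
  segA mul q L (Nat.shiftRight sl (nat_lit 32)) (Nat.shiftRight (Nat.sub wl (rc (Nat.add kn (nat_lit 1)))) (nat_lit 32))
    (yCh wl wh k m) m (vCh k) (fun b => okX mul sl (Nat.mul b (nat_lit 4294967296)) k kn) f

/-- `m` cells of the chain `wl wh k` -/
noncomputable def chG (wl wh k kn m q L : Nat) (mul ap : Nat) (f : At) : At :=
  selA (Nat.beq ap (nat_lit 0))
    (chD mul (Nat.sub wl (rc (Nat.add k (nat_lit 1)))) (Nat.sub wh (ru (Nat.sub kn (nat_lit 1)))) k kn m q L f)
    (chA mul (Nat.sub wl (rc (Nat.add k (nat_lit 1)))) wl wh k kn m q L f)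

/-- one segment, then `g` with the rest; `x = 8 q + ty`, `y = 4096 m + L` -/
noncomputable def chS2 (wl wh k r m q L ty : Nat) (g : Nat → Nat → At) : At :=
  selA (thenB (Nat.ble (nat_lit 1) m) (Nat.ble m r))
    (chG wl wh k (Nat.add k (Nat.mul (nat_lit 2) m)) m q L (Nat.land ty (nat_lit 1)) (Nat.land ty (nat_lit 2))
      (g (Nat.add k (Nat.mul (nat_lit 2) m)) (Nat.sub r m))) noA

noncomputable def chS1 (wl wh k r x : Nat) (g : Nat → Nat → At) (y : Nat) : At :=
  chS2 wl wh k r (Nat.shiftRight y (nat_lit 12)) (Nat.shiftRight x (nat_lit 3)) (Nat.land y (nat_lit 4095)) x g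

/-- `x` = first field: type 7 = all the rest -/
noncomputable def chS (wl wh k r : Nat) (g : Nat → Nat → At) (f : At) (x : Nat) : At :=
  selA (Nat.beq (Nat.land x (nat_lit 7)) (nat_lit 7))
    (chW0 wl wh k (Nat.add k (Nat.mul (nat_lit 2) r)) r (Nat.shiftRight x (nat_lit 3)) f)
    (rd (chS1 wl wh k r x g))

noncomputable def chL (wl wh : Nat) (f : At) (fuel : Nat) : Nat → Nat → At :=
  Nat.rec (motive := fun _ => Nat → Nat → At) (fun _ _ => noA)
    (fun _ g k r => selA (Nat.beq r (nat_lit 0)) f (rd (chS wl wh k r g f))) fuel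

/-- a flat chain -/
noncomputable def evCh (wl wh k m : Nat) (f : At) : At := chL wl wh f (Nat.add m (nat_lit 1)) k m

/-! ## pieces above the columns of a wall; upright chains with separate cells -/

/-- value of a cell: `SC / 2 ^ 64 / (k + 1)` -/
def vMc (k : Nat) : Nat := Nat.add (Nat.div (nat_lit 1679995392066) (Nat.add k (nat_lit 1))) (nat_lit 1)

noncomputable def okMc (sh kl : Nat) : Bool :=
  Nat.ble (Nat.mul (nat_lit 51) (Nat.mul sh (Nat.add kl (nat_lit 1)))) (nat_lit 1549522252122998353200000000000000)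

/-- segment in a window, `kl` = last column -/
noncomputable def mcD (Hl Hh k kl J m q L : Nat) (f : At) : At :=
  selA (okMc (Nat.sub Hh (rTTlo kl J)) kl)
    (segD (nat_lit 0) q L (Nat.sub Hl (rTThi k J)) (Nat.sub Hh (rTTlo kl J)) m (vMc k) f) noA

/-- error of the progression -/
def yMc (Hl Hh k J m lo hi lo' hi' : Nat) : Nat :=
  Nat.add (Nat.mul (nat_lit 2) (Nat.add (Nat.shiftRight (Nat.add (Nat.sub Hh Hl) (Nat.add (Nat.sub hi lo) (Nat.sub hi' lo')))
      (nat_lit 32)) (nat_lit 2)))
    (Nat.add (Nat.div (Nat.mul (Nat.mul (Nat.mul (nat_lit 2) (Nat.mul (Nat.mul J J) J)) (Nat.mul m m))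
        (nat_lit 30990445042459967064000000000000))
      (Nat.mul (Nat.mul (Nat.mul k k) k) (nat_lit 4294967296))) (nat_lit 1))

/-- `[lo, hi]`, `[lo', hi']` = enclosures of the first height and of the one after the last -/
noncomputable def mcA1 (Hl Hh k kl J m q L lo hi lo' hi' : Nat) (f : At) : At :=
  segA (nat_lit 0) q L (Nat.shiftRight (Nat.sub Hl hi) (nat_lit 32)) (Nat.shiftRight (Nat.sub Hl hi') (nat_lit 32))
    (yMc Hl Hh k J m lo hi lo' hi') m (vMc k) (fun b => okMc (Nat.mul b (nat_lit 4294967296)) kl) f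

/-- AP segment, `kn` = the column after the last -/
noncomputable def mcA (Hl Hh k kl kn J m q L : Nat) (f : At) : At :=
  mcA1 Hl Hh k kl J m q L (rTTlo k J) (rTThi k J) (rTTlo kn J) (rTThi kn J) f

noncomputable def mcG (Hl Hh k kn J m q L : Nat) (ap : Nat) (f : At) : At :=
  selA (Nat.beq ap (nat_lit 0)) (mcD Hl Hh k (Nat.sub kn (Nat.mul (nat_lit 2) J)) J m q L f)
    (mcA Hl Hh k (Nat.sub kn (Nat.mul (nat_lit 2) J)) kn J m q L f)

noncomputable def mcS2 (Hl Hh k kn J r m q L ty : Nat) (g : Nat → Nat → At) : At :=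
  selA (thenB (Nat.ble (nat_lit 1) m) (Nat.ble m r))
    (mcG Hl Hh k kn J m q L (Nat.land ty (nat_lit 2)) (g kn (Nat.sub r m))) noA

noncomputable def mcS1 (Hl Hh k J r m x y : Nat) (g : Nat → Nat → At) : At :=
  mcS2 Hl Hh k (Nat.add k (Nat.mul (nat_lit 2) (Nat.mul m J))) J r m (Nat.shiftRight x (nat_lit 3)) (Nat.land y (nat_lit 4095)) x g

noncomputable def mcS (Hl Hh k J r : Nat) (g : Nat → Nat → At) (x : Nat) : At :=
  rd (fun y => mcS1 Hl Hh k J r (Nat.shiftRight y (nat_lit 12)) x y g)

noncomputable def mcL (Hl Hh J : Nat) (f : At) (fuel : Nat) : Nat → Nat → At :=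
  Nat.rec (motive := fun _ => Nat → Nat → At) (fun _ _ => noA)
    (fun _ g k r => selA (Nat.beq r (nat_lit 0)) f (rd (mcS Hl Hh k J r g))) fuel

/-- the pieces above the columns of a wall -/
noncomputable def evMc (Hl Hh k J m : Nat) (f : At) : At :=
  selA (Nat.beq m (nat_lit 0)) f
    (selA (thenB (Nat.ble (nat_lit 1) J) (thenB (Nat.ble (nat_lit 1) k) (Nat.ble (rTThi k J) Hl)))
      (mcL Hl Hh J f (Nat.add m (nat_lit 1)) k m) noA)

/-- an upright chain -/
noncomputable def evUch (wl wh k m : Nat) (f : At) : At :=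
  selA (Nat.beq m (nat_lit 0)) f (mcL wl wh (nat_lit 1) f (Nat.add m (nat_lit 1)) k m)

end Pool.Agent.MMS.Fi
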