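import Pool.Agent.MP_94f265_co.ST.ApT
import Pool.Agent.MP_94f265_co.ST.FinP
import Pool.Agent.MP_94f265_co.ST.FinCDef

/-!
# Segments of cells: loads and prices
-/

namespace Pool.Agent.MMS.Fi

open Pool.Agent.MM1 hiding Th
open Pool.Agent.MM2

/-! ## lists of events -/

/-- units `u 0, ..., u L` at the positions `q, ..., q + L` -/
def evL (q L : ℕ) (u : ℕ → ℕ) : List (ℕ × ℕ) := (List.range (L + 1)).map (fun i => (q + i, u i))

theorem evL_succ (q L : ℕ) (u : ℕ → ℕ) : evL q (L + 1) u = evL q L u ++ [(q + (L + 1), u (L + 1))] := by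
  unfold evL
  rw [List.range_succ (n := L + 1), List.map_append]
  rfl

theorem evL_zero (q : ℕ) (u : ℕ → ℕ) : evL q 0 u = [(q, u 0)] := by simp [evL]

theorem tabS_evL (q : ℕ) (u : ℕ → ℕ) : ∀ L, tabS (evL q L u) = vec (L + 1) u * 2 ^ (64 * q)
  | 0 => by
    rw [evL_zero, tabS_single, vec_succ, vec_zero, Nat.mul_zero, Nat.add_zero]
  | L + 1 => by
    rw [evL_succ, tabS_append, tabS_evL q u L, tabS_single, vec_top (L + 1)]
    rw [show 64 * (q + (L + 1)) = 64 * (L + 1) + 64 * q by ring, pow_add]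
    ring

theorem totS_evL_le {q : ℕ} {u : ℕ → ℕ} {c : ℕ} : ∀ L, (∀ i ≤ L, u i ≤ c) → totS (evL q L u) ≤ (L + 1) * c
  | 0, h => by
    rw [evL_zero, totS_single]
    have := h 0 (le_refl 0)
    omega
  | L + 1, h => by
    rw [evL_succ, totS_append, totS_single]
    have h1 := totS_evL_le (q := q) L (fun i hi => h i (by omega))
    have h2 := h (L + 1) (le_refl _)
    calc totS (evL q L u) + u (L + 1) ≤ (L + 1) * c + c := Nat.add_le_add h1 h2
      _ = (L + 1 + 1) * c := by ring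

theorem fieldS_evL (q p : ℕ) (u : ℕ → ℕ) : ∀ L, fieldS p (evL q L u) = if q ≤ p ∧ p ≤ q + L then u (p - q) else 0
  | 0 => by
    rw [evL_zero, fieldS_single]
    by_cases h : q = p
    · subst h
      simp
    · rw [if_neg h, if_neg (by omega)]
  | L + 1 => by
    rw [evL_succ, fieldS_append, fieldS_evL q p u L, fieldS_single]
    by_cases h : q + (L + 1) = p
    · subst h
      rw [if_neg (by omega), if_pos rfl, if_pos (by omega), Nat.add_sub_cancel_left, Nat.zero_add]
    · rw [if_neg h, Nat.add_zero]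
      by_cases h2 : q ≤ p ∧ p ≤ q + L
      · rw [if_pos h2, if_pos (by omega)]
      · rw [if_neg h2, if_neg (by omega)]

/-! ## prices -/

theorem psD_ge {c m x K : ℕ} (hK : 1 ≤ K) :
    (x : ℝ) * ((9682 / 10000) * c + (505110 / 10000) * m / K) ≤ (psD c m x K : ℝ) := by
  have hK' : (0 : ℝ) < K := by exact_mod_cast hK
  have h1 : psD c m x K = x * (c * (9682 * K) + 505110 * m) / (10000 * K) + 1 := rfl
  have h2 := Nat.lt_div_mul_add (a := x * (c * (9682 * K) + 505110 * m)) (b := 10000 * K) (by positivity)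
  have h3 : x * (c * (9682 * K) + 505110 * m) ≤ psD c m x K * (10000 * K) := by
    rw [h1, Nat.add_mul, Nat.one_mul]
    omega
  have h4 : (x : ℝ) * ((c : ℝ) * (9682 * K) + 505110 * m) ≤ (psD c m x K : ℝ) * (10000 * K) := by
    exact_mod_cast h3
  have e : (x : ℝ) * ((9682 / 10000) * c + (505110 / 10000) * m / K) =
      (x : ℝ) * ((c : ℝ) * (9682 * K) + 505110 * m) / (10000 * K) := by
    field_simp
  rw [e, div_le_iff₀ (by positivity)]
  exact h4

theorem psD1_eq (m x K : ℕ) : psD1 m x K = psD 1 m x K := by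
  show x * (9682 * K + 505110 * m) / (10000 * K) + 1 = x * (1 * (9682 * K) + 505110 * m) / (10000 * K) + 1
  rw [Nat.one_mul]

/-- the price of an object or of separate cells -/
theorem price_bound {W M X : ℝ} {c m K : ℕ} (hX : 0 ≤ X)
    (hW : W * (SC : ℝ) ≤ (10019 / 10000) * (c * X))
    (hM : M * (SC : ℝ) ≤ (10019 / 10000) * (52 * (m * X) / K)) :
    ((301 / 100) * W + (302 / 100) * M) * (SC : ℝ) ≤
      (3115 / 1000) * (X * ((9682 / 10000) * c + (505110 / 10000) * m / K)) := by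
  have h1 : ((301 / 100) * W + (302 / 100) * M) * (SC : ℝ) ≤
      (301 / 100) * ((10019 / 10000) * (c * X)) + (302 / 100) * ((10019 / 10000) * (52 * (m * X) / K)) := by
    linarith
  refine h1.trans ?_
  have hc : (0 : ℝ) ≤ (c : ℝ) * X := mul_nonneg (Nat.cast_nonneg _) hX
  have hm : (0 : ℝ) ≤ (m : ℝ) * X / K := div_nonneg (mul_nonneg (Nat.cast_nonneg _) hX) (Nat.cast_nonneg _)
  have e1 : (52 * ((m : ℝ) * X) / K) = 52 * ((m : ℝ) * X / K) := by ring
  have e2 : X * ((9682 / 10000) * (c : ℝ) + (505110 / 10000) * m / K) =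
      (9682 / 10000) * ((c : ℝ) * X) + (505110 / 10000) * ((m : ℝ) * X / K) := by ring
  rw [e1, e2]
  nlinarith

/-! ## blocks -/

/-- What is known about the cells `(s j, l j)`, `j < m`, of a segment with the positions `q, ..., q + L`: `X` = mean
upper bound of the thicknesses in the unit `1 / SC`, `u i` = units at the position `q + i`. -/
structure Blk (q L m : ℕ) (s l : ℕ → ℝ) (X : ℝ) (u : ℕ → ℕ) : Prop where
  hL : q + L ≤ 18879
  X0 : 0 ≤ X
  pos : ∀ j < m, 0 < s j
  kcl : ∀ j < m, q + 1600 ≤ kc (s j)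
  kch : ∀ j < m, kc (s j) ≤ q + L + 1600
  len : ∀ i ≤ L, lenK (q + i + 1600) (cellsM s l m) * ((SC : ℝ) / 2 ^ 64) ≤ (u i : ℝ)
  sumS : (∑ j ∈ Finset.range m, s j) * (SC : ℝ) ≤ m * X
  clS : ∀ S : Finset ℕ, (∀ K ∈ S, ∃ j < m, kc (s j) = K) →
    (∑ K ∈ S, Th (K - 1)) * (SC : ℝ) ≤ (10019 / 10000) * (((L : ℝ) + 1) * X)

section

variable {q L m : ℕ} {s l : ℕ → ℝ} {X : ℝ} {u : ℕ → ℕ}

theorem Blk.lt (h : Blk q L m s l X u) {j : ℕ} (hj : j < m) : s j < Th (i0 - 1) := by
  have h1 := h.kcl j hj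
  have h2 := lt_Th_kc (t := s j) (by omega)
  have h3 : Th (kc (s j) - 1) ≤ Th (i0 - 1) := Th_anti (by unfold i0; omega) (by unfold i0; omega)
  linarith

theorem Blk.load (h : Blk q L m s l X u) {K : ℕ} (hK : i0 ≤ K) :
    lenK K (cellsM s l m) * ((SC : ℝ) / 2 ^ 64) ≤ (fieldS (posK K) (evL q L u) : ℝ) := by
  have hL := h.hL
  have hi0 : i0 = 1600 := rfl
  by_cases hin : q + 1600 ≤ K ∧ K ≤ q + L + 1600
  · have h1 : posK K = K - 1600 := by
      unfold posK
      rw [if_pos (by omega)]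
    rw [fieldS_evL, h1, if_pos (by omega)]
    have h2 := h.len (K - 1600 - q) (by omega)
    rw [show q + (K - 1600 - q) + 1600 = K by omega] at h2
    exact h2
  · have h0 : lenK K (cellsM s l m) = 0 := by
      unfold lenK
      apply lenIn_eq_zero
      intro c hc ⟨a1, a2⟩
      obtain ⟨j, hj, rfl⟩ := mem_cellsM.1 hc
      have hk : kc (s j) = K := kc_eq (by omega) a1 a2
      have h1 := h.kcl j hj
      have h2 := h.kch j hj
      rw [hk] at h1 h2
      exact hin ⟨h1, h2⟩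
    rw [h0, zero_mul]
    exact Nat.cast_nonneg _

/-- price of the cells -/
theorem Blk.W (h : Blk q L m s l X u) :
    (∑ j ∈ Finset.range m, Th (kc (s j) - 1)) * (SC : ℝ) ≤ (10019 / 10000) * (m * X) := by
  have hSC : (0 : ℝ) < SC := SC_pos
  have h2 : ∑ j ∈ Finset.range m, Th (kc (s j) - 1) ≤ ∑ j ∈ Finset.range m, (10019 / 10000) * s j := by
    apply Finset.sum_le_sum
    intro j hj
    have hj' := Finset.mem_range.1 hj
    have := h.kcl j hj'
    exact price_cell (h.pos j hj') (by omega)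
  calc (∑ j ∈ Finset.range m, Th (kc (s j) - 1)) * (SC : ℝ)
      ≤ (∑ j ∈ Finset.range m, (10019 / 10000) * s j) * (SC : ℝ) := mul_le_mul_of_nonneg_right h2 hSC.le
    _ = (10019 / 10000) * ((∑ j ∈ Finset.range m, s j) * (SC : ℝ)) := by rw [← Finset.mul_sum]; ring
    _ ≤ _ := mul_le_mul_of_nonneg_left h.sumS (by norm_num)

/-- price of the members -/
theorem Blk.M (h : Blk q L m s l X u) :
    (∑ j ∈ Finset.range m, (52 / (kc (s j) : ℝ)) * Th (kc (s j) - 1)) * (SC : ℝ) ≤
      (10019 / 10000) * (52 * (m * X) / ((1600 + q : ℕ) : ℝ)) := by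
  have hSC : (0 : ℝ) < SC := SC_pos
  have hA : (0 : ℝ) < ((1600 + q : ℕ) : ℝ) := by positivity
  have h2 : ∑ j ∈ Finset.range m, (52 / (kc (s j) : ℝ)) * Th (kc (s j) - 1) ≤
      ∑ j ∈ Finset.range m, (52 / ((1600 + q : ℕ) : ℝ)) * Th (kc (s j) - 1) := by
    apply Finset.sum_le_sum
    intro j hj
    have hj' := Finset.mem_range.1 hj
    have h1 := h.kcl j hj'
    have h3 : ((1600 + q : ℕ) : ℝ) ≤ (kc (s j) : ℝ) := by exact_mod_cast (by omega : 1600 + q ≤ kc (s j))
    apply mul_le_mul_of_nonneg_right _ (Th_pos (by omega)).le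
    exact div_le_div_of_nonneg_left (by norm_num) hA h3
  rw [← Finset.mul_sum] at h2
  calc (∑ j ∈ Finset.range m, (52 / (kc (s j) : ℝ)) * Th (kc (s j) - 1)) * (SC : ℝ)
      ≤ ((52 / ((1600 + q : ℕ) : ℝ)) * ∑ j ∈ Finset.range m, Th (kc (s j) - 1)) * (SC : ℝ) :=
        mul_le_mul_of_nonneg_right h2 hSC.le
    _ = (52 / ((1600 + q : ℕ) : ℝ)) * ((∑ j ∈ Finset.range m, Th (kc (s j) - 1)) * (SC : ℝ)) := by ring
    _ ≤ (52 / ((1600 + q : ℕ) : ℝ)) * ((10019 / 10000) * (m * X)) :=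
        mul_le_mul_of_nonneg_left h.W (by positivity)
    _ = _ := by ring

/-- price of a set of classes of the cells -/
theorem Blk.S (h : Blk q L m s l X u) {S : Finset ℕ} (hS : ∀ K ∈ S, ∃ j < m, kc (s j) = K) :
    (∑ K ∈ S, Th (K - 1)) * (SC : ℝ) ≤ (10019 / 10000) * (((min m (L + 1) : ℕ) : ℝ) * X) := by
  have hSC : (0 : ℝ) < SC := SC_pos
  rcases le_total m (L + 1) with hm | hm
  · rw [Nat.min_eq_left hm]
    refine le_trans (mul_le_mul_of_nonneg_right ?_ hSC.le) h.W
    have hsub : S ⊆ (Finset.range m).image (fun j => kc (s j)) := by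
      intro K hK
      obtain ⟨j, hj, rfl⟩ := hS K hK
      exact Finset.mem_image.2 ⟨j, Finset.mem_range.2 hj, rfl⟩
    calc ∑ K ∈ S, Th (K - 1) ≤ ∑ K ∈ (Finset.range m).image (fun j => kc (s j)), Th (K - 1) := by
          apply Finset.sum_le_sum_of_subset_of_nonneg hsub
          intro K hK _
          obtain ⟨j, hj, rfl⟩ := Finset.mem_image.1 hK
          have := h.kcl j (Finset.mem_range.1 hj)
          exact (Th_pos (by omega)).le
      _ ≤ ∑ j ∈ Finset.range m, Th (kc (s j) - 1) := by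
          apply Finset.sum_image_le_of_nonneg
          intro K hK
          obtain ⟨j, hj, rfl⟩ := Finset.mem_image.1 hK
          have := h.kcl j (Finset.mem_range.1 hj)
          exact (Th_pos (by omega)).le
  · rw [Nat.min_eq_right hm]
    have := h.clS S hS
    push_cast
    exact this

end

/-! ## the cells -/

/-- the positions as classes -/
def kap1 (p : ℕ) : ℕ := p + 1599

/-- thickness of the cells of a flat chain -/
noncomputable def sF (w : ℝ) (k : ℕ) (j : ℕ) : ℝ := w - 1 / (((k + 2 * j : ℕ) : ℝ) + 1)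

/-- length of the cells of a flat chain -/
noncomputable def lF' (k : ℕ) (j : ℕ) : ℝ := Lg (k + 2 * j)

/-- thickness of the pieces above the columns (`J = 1`: upright chain in a strip of thickness `H`) -/
noncomputable def sM (H : ℝ) (k J : ℕ) (j : ℕ) : ℝ := H - TTr (k + 2 * (j * J)) J

noncomputable def lM (k J : ℕ) (j : ℕ) : ℝ := 1 / (((k + 2 * (j * J) : ℕ) : ℝ) + 1)

end Pool.Agent.MMS.Fi
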