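import Pool.Agent.MP_94f265_co.ST.FinCT

/-!
# AP segments
-/

namespace Pool.Agent.MMS.Fi

open Pool.Agent.MM1 hiding Th
open Pool.Agent.MM2

theorem ble_iff {a b : ℕ} : Nat.ble a b = true ↔ a ≤ b := by rw [Nat.ble_eq]

theorem ones_mul : ∀ L : ℕ, vec L (fun _ => 1) * (2 ^ 64 - 1) = 2 ^ (64 * L) - 1
  | 0 => by simp [vec_zero]
  | L + 1 => by
    rw [vec_top, Nat.add_mul, ones_mul L, Nat.one_mul, show 64 * (L + 1) = 64 * L + 64 by ring, pow_add]
    have h1 : 1 ≤ 2 ^ (64 * L) := Nat.one_le_two_pow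
    have h2 : 2 ^ (64 * L) * (2 ^ 64 - 1) = 2 ^ (64 * L) * 2 ^ 64 - 2 ^ (64 * L) := by
      rw [Nat.mul_sub, Nat.mul_one]
    have h3 : 2 ^ (64 * L) ≤ 2 ^ (64 * L) * 2 ^ 64 := Nat.le_mul_of_pos_right _ (by positivity)
    rw [h2]
    omega

theorem kap1_pos (p : ℕ) : 1 ≤ kap1 p := by unfold kap1; omega

theorem C3_eq : CS = 3 * 52890359539131677122560000000000000 := by norm_num [CS]

theorem pA_spec {q L a b : ℕ}
    (h : pA (Nat.add (Nat.mul (nat_lit 5) (Nat.add q L)) (nat_lit 7999)) (Nat.add (Nat.mul (nat_lit 5) q) (nat_lit 7994)) a b = true) :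
    CS ≤ cbp 32 kap1 (q + 1 + L) * a ∧ cbp 32 kap1 q * b < CS := by
  unfold pA at h
  rw [thenB_iff, ble_iff, ble_iff] at h
  obtain ⟨h1, h2⟩ := h
  have h1' : 12314496454580611810684205 ≤ a * ((5 * (q + L) + 7999) * ((5 * (q + L) + 7999) * (5 * (q + L) + 7999))) := h1
  have h2' : b * ((5 * q + 7994) * ((5 * q + 7994) * (5 * q + 7994))) ≤ 12314496454580611810684204 := h2
  have e1 : cbp 32 kap1 (q + 1 + L) = 2 ^ 32 * (3 * (5 * (q + L) + 7999) ^ 3) := by
    unfold cbp kap1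
    rw [show 5 * (q + 1 + L + 1599) - 1 = 5 * (q + L) + 7999 by omega]
  have e2 : cbp 32 kap1 q = 2 ^ 32 * (3 * (5 * q + 7994) ^ 3) := by
    unfold cbp kap1
    rw [show 5 * (q + 1599) - 1 = 5 * q + 7994 by omega]
  rw [e1, e2, C3_eq]
  constructor
  · calc 3 * 52890359539131677122560000000000000 ≤ 2 ^ 32 * 3 * 12314496454580611810684205 := by norm_num
      _ ≤ 2 ^ 32 * 3 * (a * ((5 * (q + L) + 7999) * ((5 * (q + L) + 7999) * (5 * (q + L) + 7999)))) :=
        Nat.mul_le_mul_left _ h1'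
      _ = _ := by ring
  · calc 2 ^ 32 * (3 * (5 * q + 7994) ^ 3) * b = 2 ^ 32 * 3 * (b * ((5 * q + 7994) * ((5 * q + 7994) * (5 * q + 7994)))) := by ring
      _ ≤ 2 ^ 32 * 3 * 12314496454580611810684204 := Nat.mul_le_mul_left _ h2'
      _ < 3 * 52890359539131677122560000000000000 := by norm_num

/-- **Meaning of `apG`.** -/
theorem apG_spec {q L a d e m : ℕ} {κ : ℕ → Bool} (hm : 1 ≤ m)
    (h : apG q L a (a + d * (m - 1)) (a + d * (m - 1) + e) d e m κ = true) :
    ApOK (cbp 32 kap1) (q + 1 + L) a d e m (q + 1) L ∧ 1 ≤ L ∧ q + L ≤ 18879 ∧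
      κ (vec (L + 1) (fun i => apU (cbp 32 kap1) a d m (q + 1) i - apL (cbp 32 kap1) a d e (q + 1) L i)) = true := by
  unfold apG at h
  simp only [thenB_iff, ble_iff] at h
  obtain ⟨hd1, hed, hd2, hL, hL2, hm2, hq, hA, h⟩ := h
  have hq' : q + L ≤ 18879 := hq
  obtain ⟨c1, c4⟩ := pA_spec hA
  obtain ⟨S, h, hS⟩ := thS_spec hL2 hq' h
  unfold apG3 at h
  rw [on1_spec hL2] at h
  have hpos := cbp_pos 32 kap1_pos
  have hmono := cbp_mono 32 kap1_mono
  have eW : Nat.land S (Nat.mul (vec L (fun _ => 1)) (nat_lit 18446744073709551615)) =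
      vec L (fun i => thN (cbp 32 kap1) (q + 1 + i)) := by
    show S &&& (vec L (fun _ => 1) * (2 ^ 64 - 1)) = _
    rw [ones_mul, Nat.and_two_pow_sub_one_eq_mod, hS]
  rw [eW] at h
  unfold apG4 at h
  simp only [thenB_iff, ble_iff] at h
  obtain ⟨c3, c2, h⟩ := h
  have hf : ∀ i < L, (fun i => thN (cbp 32 kap1) (q + 1 + i)) i < 2 ^ 64 := fun i _ => thN1_lt _
  have e3 : Nat.land (vec L (fun i => thN (cbp 32 kap1) (q + 1 + i))) 18446744073709551615 =
      thN (cbp 32 kap1) (q + 1) := by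
    show vec L (fun i => thN (cbp 32 kap1) (q + 1 + i)) &&& (2 ^ 64 - 1) = _
    rw [Nat.and_two_pow_sub_one_eq_mod]
    have := vec_digit L 0 (fun i => thN (cbp 32 kap1) (q + 1 + i)) hf (by omega)
    simpa using this
  have e2 : Nat.shiftRight (vec L (fun i => thN (cbp 32 kap1) (q + 1 + i))) (Nat.sub (Nat.mul 64 L) 64) =
      thN (cbp 32 kap1) (q + 1 + (L - 1)) := by
    show vec L (fun i => thN (cbp 32 kap1) (q + 1 + i)) >>> (64 * L - 64) = _
    obtain ⟨n, rfl⟩ := Nat.exists_eq_succ_of_ne_zero (show L ≠ 0 by omega)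
    rw [show 64 * (n + 1) - 64 = 64 * n by omega, vec_top, Nat.shiftRight_eq_div_pow,
      Nat.add_mul_div_right _ _ (by positivity),
      Nat.div_eq_of_lt (vec_lt n _ (fun i _ => thN1_lt _)), Nat.zero_add, Nat.succ_sub_one]
  rw [e3] at c3
  rw [e2] at c2
  have hcs : ∀ p v : ℕ, thN (cbp 32 kap1) p ≤ v → CS ≤ cbp 32 kap1 p * v := by
    intro p v hv
    by_contra hlt
    push Not at hlt
    have := lt_thN (hpos p) hlt
    omega
  have hcs' : ∀ p v : ℕ, v + 1 ≤ thN (cbp 32 kap1) p → cbp 32 kap1 p * v < CS := by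
    intro p v hv
    by_contra hlt
    push Not at hlt
    have := thN_le (hpos p) hlt
    omega
  have hok : ApOK (cbp 32 kap1) (q + 1 + L) a d e m (q + 1) L := by
    refine ⟨hd1, hd2, hed, hm, hm2, by omega, le_refl _, c1, Or.inr (hcs' _ _ ?_), hcs _ _ c3, ?_⟩
    · rw [show q + 1 + L - 1 = q + 1 + (L - 1) by omega]
      exact c2
    · rw [Nat.add_sub_cancel]
      exact c4
  refine ⟨hok, hL, hq', ?_⟩
  unfold apG5 at h
  have hX : Nat.add (Nat.sub (vec L (fun i => thN (cbp 32 kap1) (q + 1 + i))) (Nat.mul (vec L (fun _ => 1)) (Nat.add a 1)))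
      (Nat.mul (vec L (fun _ => 1)) d) = vec L (fun i => thN (cbp 32 kap1) (q + 1 + i) - (a + 1) + d) := by
    show vec L (fun i => thN (cbp 32 kap1) (q + 1 + i)) - vec L (fun _ => 1) * (a + 1) + vec L (fun _ => 1) * d = _
    rw [vec_mul' L (a + 1), vec_sub, vec_mul', vec_add]
    · apply vec_congr
      intro i _
      rw [Nat.one_mul, Nat.one_mul]
    · intro i hi
      rw [Nat.one_mul]
      exact hok.a_lt hmono hpos hi
  have hX2 : Nat.sub (vec L (fun i => thN (cbp 32 kap1) (q + 1 + i) - (a + 1) + d)) (Nat.mul (vec L (fun _ => 1)) e) =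
      vec L (fun i => thN (cbp 32 kap1) (q + 1 + i) - (a + 1) + (d - e)) := by
    show vec L (fun i => thN (cbp 32 kap1) (q + 1 + i) - (a + 1) + d) - vec L (fun _ => 1) * e = _
    rw [vec_mul', vec_sub]
    · apply vec_congr
      intro i _
      rw [Nat.one_mul]
      omega
    · intro i _
      rw [Nat.one_mul]
      omega
  rw [hX, hX2] at h
  have hM : Nat.mul (vec L (fun _ => 1)) 4095 = vec L (fun _ => 2 ^ (64 - 52) - 1) := by
    show vec L (fun _ => 1) * 4095 = _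
    rw [vec_mul']
    apply vec_congr
    intro i _
    norm_num
  rw [hM] at h
  have hQ1 : Nat.land (Nat.shiftRight (Nat.mul (vec L (fun i => thN (cbp 32 kap1) (q + 1 + i) - (a + 1) + d))
      (Nat.add (Nat.div 4503599627370496 d) 1)) 52) (vec L (fun _ => 2 ^ (64 - 52) - 1)) =
      vec L (fun i => uF (2 ^ 52 / d + 1) a d (thN (cbp 32 kap1) (q + 1 + i))) := by
    show ((vec L (fun i => thN (cbp 32 kap1) (q + 1 + i) - (a + 1) + d) * (2 ^ 52 / d + 1)) >>> 52) &&&
      (vec L (fun _ => 2 ^ (64 - 52) - 1)) = _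
    rw [vec_mul', vec_shr 52 (by norm_num)]
    · apply vec_congr
      intro i _
      rfl
    · intro i _
      exact hok.field hmono hpos
  have hQ2 : Nat.land (Nat.shiftRight (Nat.mul (vec L (fun i => thN (cbp 32 kap1) (q + 1 + i) - (a + 1) + (d - e)))
      (Nat.div 4503599627370496 d)) 52) (vec L (fun _ => 2 ^ (64 - 52) - 1)) =
      vec L (fun i => lF (2 ^ 52 / d) a d e (thN (cbp 32 kap1) (q + 1 + i))) := by
    show ((vec L (fun i => thN (cbp 32 kap1) (q + 1 + i) - (a + 1) + (d - e)) * (2 ^ 52 / d)) >>> 52) &&&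
      (vec L (fun _ => 2 ^ (64 - 52) - 1)) = _
    rw [vec_mul', vec_shr 52 (by norm_num)]
    · apply vec_congr
      intro i _
      rfl
    · intro i _
      refine lt_of_le_of_lt ?_ (hok.field hmono hpos (i := i))
      apply Nat.mul_le_mul <;> omega
  rw [hQ1, hQ2] at h
  have hU : Nat.add (Nat.shiftLeft (vec L (fun i => uF (2 ^ 52 / d + 1) a d (thN (cbp 32 kap1) (q + 1 + i)))) 64) m =
      vec (L + 1) (apU (cbp 32 kap1) a d m (q + 1)) := by
    show vec L (fun i => uF (2 ^ 52 / d + 1) a d (thN (cbp 32 kap1) (q + 1 + i))) <<< 64 + m = _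
    rw [vec_succ, Nat.shiftLeft_eq, Nat.mul_comm (vec L _) (2 ^ 64)]
    have e1 : apU (cbp 32 kap1) a d m (q + 1) 0 = m := by simp [apU]
    have e2 : vec L (fun i => apU (cbp 32 kap1) a d m (q + 1) (i + 1)) =
        vec L (fun i => uF (2 ^ 52 / d + 1) a d (thN (cbp 32 kap1) (q + 1 + i))) := by
      apply vec_congr
      intro i _
      unfold apU
      rw [if_neg (by omega), show q + 1 + (i + 1) - 1 = q + 1 + i by omega]
    rw [e1, e2, Nat.add_comm]
  have hLv : vec L (fun i => lF (2 ^ 52 / d) a d e (thN (cbp 32 kap1) (q + 1 + i))) =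
      vec (L + 1) (apL (cbp 32 kap1) a d e (q + 1) L) := by
    rw [vec_top]
    have e1 : apL (cbp 32 kap1) a d e (q + 1) L L = 0 := by simp [apL]
    rw [e1, Nat.zero_mul, Nat.add_zero]
    apply vec_congr
    intro i hi
    unfold apL
    rw [if_pos hi]
  rw [hU, hLv] at h
  have hsub : Nat.sub (vec (L + 1) (apU (cbp 32 kap1) a d m (q + 1))) (vec (L + 1) (apL (cbp 32 kap1) a d e (q + 1) L)) =
      vec (L + 1) (fun i => apU (cbp 32 kap1) a d m (q + 1) i - apL (cbp 32 kap1) a d e (q + 1) L i) :=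
    vec_sub _ _ _ (fun i _ => hok.apL_le hmono hpos i)
  rw [hsub] at h
  exact h

/-- **The block of an AP segment.** -/
theorem ap_blk {q L a d e m v : ℕ} (hok : ApOK (cbp 32 kap1) (q + 1 + L) a d e m (q + 1) L) (hq : q + L ≤ 18879)
    {s l : ℕ → ℝ} (hs : ApIn 32 a d e m s) (hl : ∀ j < m, l j * ((SC : ℝ) / 2 ^ 64) ≤ v) :
    Blk q L m s l ((((a + e) + (a + d * (m - 1) + e) : ℕ) : ℝ) * 2 ^ 31)
      (fun i => (apU (cbp 32 kap1) a d m (q + 1) i - apL (cbp 32 kap1) a d e (q + 1) L i) * v) := by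
  have hSC : (0 : ℝ) < SC := SC_pos
  have hm := hok.m0
  have hk := ap_kc hok kap1_mono kap1_pos hs
  have e32 : ∀ x : ℝ, x * ((SC : ℝ) / 2 ^ 32) * 2 ^ 32 = x * SC := fun x => by field_simp
  refine ⟨hq, by positivity, fun j hj => (hk j hj).1, fun j hj => ?_, fun j hj => ?_, fun i hi => ?_, ?_, fun S hS => ?_⟩
  · have := (hk j hj).2.2.2.1
    unfold kap1 at this
    omega
  · have := (hk j hj).2.2.2.2
    unfold kap1 at this
    omega
  · have hv : (0 : ℝ) ≤ (v : ℝ) / ((SC : ℝ) / 2 ^ 64) := by positivity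
    have hl' : ∀ j < m, l j ≤ (v : ℝ) / ((SC : ℝ) / 2 ^ 64) := by
      intro j hj
      rw [le_div_iff₀ (by positivity)]
      exact hl j hj
    have h := ap_load hok kap1_mono kap1_pos hs hv hl' (p := q + 1 + i) (by omega)
    rw [if_pos (by omega)] at h
    have e1 : lenK (q + i + 1600) (cellsM s l m) =
        lenIn (Th (kap1 (q + 1 + i))) (Th (kap1 (q + 1 + i - 1))) (cellsM s l m) := by
      unfold lenK kap1
      rw [show q + 1 + i + 1599 = q + i + 1600 by omega, show q + 1 + i - 1 + 1599 = q + i + 1600 - 1 by omega]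
    rw [e1]
    have h2 := mul_le_mul_of_nonneg_right h (show (0 : ℝ) ≤ (SC : ℝ) / 2 ^ 64 by positivity)
    rw [mul_assoc, div_mul_cancel₀ _ (by positivity)] at h2
    rw [show q + 1 + i - (q + 1) = i by omega] at h2
    push_cast
    exact h2
  · have h := ap_sum (σ := 32) hs
    have h2 := mul_le_mul_of_nonneg_right h (show (0 : ℝ) ≤ 2 ^ 32 by positivity)
    rw [e32] at h2
    refine h2.trans (le_of_eq ?_)
    push_cast [hm]
    ring
  · have h := ap_W0_ends hok kap1_mono kap1_pos (by rw [Nat.add_sub_cancel]; unfold kap1; omega)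
      (by rw [Nat.add_sub_cancel]; unfold kap1; omega) hs hS
    have h2 := mul_le_mul_of_nonneg_right h (show (0 : ℝ) ≤ 2 ^ 32 by positivity)
    rw [e32] at h2
    refine h2.trans (le_of_eq ?_)
    have e1 : kap1 (q + 1 + L) - kap1 (q + 1 - 1) = L + 1 := by unfold kap1; omega
    rw [e1]
    push_cast [hm]
    ring

end Pool.Agent.MMS.Fi
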