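import Pool.Agent.MP_94f265_co.ST.FinCTDef

/-!
# The tables of thresholds are right: kernel computation
-/

namespace Pool.Agent.MMS.Fi

theorem tb0_chk : chkT 14 3072 tb0 1 = true := by decide +kernel
theorem tb1_chk : chkT 14 3072 tb1 1025 = true := by decide +kernel
theorem tb2_chk : chkT 14 3072 tb2 2049 = true := by decide +kernel
theorem tb3_chk : chkT 14 3072 tb3 3073 = true := by decide +kernel
theorem tb4_chk : chkT 14 4096 tb4 4097 = true := by decide +kernel
theorem tb5_chk : chkT 14 4096 tb5 6145 = true := by decide +kernel
theorem tb6_chk : chkT 14 6144 tb6 8193 = true := by decide +kernel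
theorem tb7_chk : chkT 14 8640 tb7 12289 = true := by decide +kernel

theorem on1_chk : Nat.beq on1 (onesN 131008) = true := by decide +kernel

end Pool.Agent.MMS.Fi
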