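import Pool.Agent.MP_94f265_co.ST.FinCA
import Pool.Agent.MP_94f265_co.ST.FinCTk

/-!
# The tables of thresholds
-/

namespace Pool.Agent.MMS.Fi

theorem cbT_eq (p : ℕ) : cbT p = cbp 32 kap1 p := by
  unfold cbp kap1
  have h1 : 5 * (p + 1599) - 1 = 5 * p + 7994 := by omega
  rw [h1]
  show 12884901888 * (5 * p + 7994) ^ 3 = 2 ^ 32 * (3 * (5 * p + 7994) ^ 3)
  ring

theorem cb1_pos (p : ℕ) : 0 < cbp 32 kap1 p := cbp_pos 32 (fun p => by unfold kap1; omega) p

theorem kap1_mono : Monotone kap1 := fun _ _ h => Nat.add_le_add_right h _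

theorem andT_iff {x y : Bool} : andT x y = true ↔ x = true ∧ y = true := by
  cases x
  · show false = true ↔ _
    simp
  · show y = true ↔ _
    simp

theorem leafT_eq {x p : ℕ} (h : leafT x p = true) : x = thN (cbp 32 kap1) p := by
  unfold leafT at h
  rw [andT_iff, cbT_eq] at h
  obtain ⟨h1, h2⟩ := h
  have h1 : CS ≤ cbp 32 kap1 p * x := Nat.le_of_ble_eq_true h1
  have h2 : cbp 32 kap1 p * (x - 1) + 1 ≤ CS := Nat.le_of_ble_eq_true h2
  have h3 := thN_le (cb1_pos p) h1
  have h4 := lt_thN (cb1_pos p) (v := x - 1) (by omega)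
  omega

theorem chkT_vec (d : ℕ) : ∀ (L x p : ℕ), chkT d L x p = true → x = vec L (fun i => thN (cbp 32 kap1) (p + i)) := by
  have one : ∀ L x p, Nat.beq L 1 = true → leafT x p = true → x = vec L (fun i => thN (cbp 32 kap1) (p + i)) := by
    intro L x p hL h
    have hL : L = 1 := Nat.eq_of_beq_eq_true hL
    subst hL
    rw [vec_succ, vec_zero, Nat.mul_zero, Nat.add_zero, Nat.add_zero]
    exact leafT_eq h
  induction d with
  | zero =>
    intro L x p h
    have h : andT (Nat.beq L 1) (leafT x p) = true := h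
    rw [andT_iff] at h
    exact one L x p h.1 h.2
  | succ d ih =>
    intro L x p h
    cases hb : Nat.beq L 1 with
    | true =>
      have h : Bool.rec (motive := fun _ => Bool)
        (andT (chkT d (Nat.div L 2) (Nat.mod x (Nat.pow 2 (Nat.mul 64 (Nat.div L 2)))) p)
          (chkT d (Nat.sub L (Nat.div L 2)) (Nat.shiftRight x (Nat.mul 64 (Nat.div L 2)))
            (Nat.add p (Nat.div L 2))))
        (leafT x p) (Nat.beq L 1) = true := h
      rw [hb] at h
      exact one L x p hb h
    | false =>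
      have h : Bool.rec (motive := fun _ => Bool)
        (andT (chkT d (Nat.div L 2) (Nat.mod x (Nat.pow 2 (Nat.mul 64 (Nat.div L 2)))) p)
          (chkT d (Nat.sub L (Nat.div L 2)) (Nat.shiftRight x (Nat.mul 64 (Nat.div L 2)))
            (Nat.add p (Nat.div L 2))))
        (leafT x p) (Nat.beq L 1) = true := h
      rw [hb] at h
      have h : andT (chkT d (Nat.div L 2) (Nat.mod x (Nat.pow 2 (Nat.mul 64 (Nat.div L 2)))) p)
          (chkT d (Nat.sub L (Nat.div L 2)) (Nat.shiftRight x (Nat.mul 64 (Nat.div L 2)))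
            (Nat.add p (Nat.div L 2))) = true := h
      rw [andT_iff] at h
      have h1 := ih _ _ _ h.1
      have h2 := ih _ _ _ h.2
      obtain ⟨a, ha⟩ : ∃ a, a = Nat.div L 2 := ⟨_, rfl⟩
      rw [← ha] at h1 h2
      have h1 : x % 2 ^ (64 * a) = vec a (fun i => thN (cbp 32 kap1) (p + i)) := h1
      have h2 : x >>> (64 * a) = vec (L - a) (fun i => thN (cbp 32 kap1) (p + a + i)) := h2
      have haL : a ≤ L := by
        rw [ha]
        exact Nat.div_le_self L 2
      have e : L = a + (L - a) := by omega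
      rw [e, vec_append, ← h1]
      have h3 : (fun i => thN (cbp 32 kap1) (p + (a + i))) = (fun i => thN (cbp 32 kap1) (p + a + i)) := by
        funext i
        rw [Nat.add_assoc]
      rw [h3, ← h2, Nat.shiftRight_eq_div_pow]
      exact (Nat.mod_add_div x _).symm

theorem thN1_lt (p : ℕ) : thN (cbp 32 kap1) p < 2 ^ 64 := by
  have h1 : thN (cbp 32 kap1) p ≤ thN (cbp 32 kap1) 0 := thN_anti (cb1_pos 0) (cbp_mono 32 kap1_mono (Nat.zero_le p))
  have h2 : thN (cbp 32 kap1) 0 < 2 ^ 64 := by
    unfold thN cbp kap1 CS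
    norm_num
  exact lt_of_le_of_lt h1 h2

theorem onesN_eq (L : ℕ) : onesN (64 * L) = vec L (fun _ => 1) := by
  rw [← vec_ones]
  rfl

theorem on1_vec : on1 = vec 2047 (fun _ => 1) := by
  have h : on1 = onesN 131008 := Nat.eq_of_beq_eq_true on1_chk
  have e : (131008 : ℕ) = 64 * 2047 := by norm_num
  rw [h, e, onesN_eq]

theorem on1_spec {L : ℕ} (hL : L ≤ 2047) :
    Nat.shiftRight on1 (Nat.mul (nat_lit 64) (Nat.sub (nat_lit 2047) L)) = vec L (fun _ => 1) := by
  show on1 >>> (64 * (2047 - L)) = _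
  rw [on1_vec]
  have e : (2047 : ℕ) = (2047 - L) + L := by omega
  have h1 : vec 2047 (fun _ => 1) = vec (2047 - L) (fun _ => 1) + 2 ^ (64 * (2047 - L)) * vec L (fun _ => 1) := by
    conv_lhs => rw [e]
    rw [vec_append]
  have h2 : vec (2047 - L) (fun _ => 1) < 2 ^ (64 * (2047 - L)) := vec_lt _ _ (fun i _ => by norm_num)
  rw [h1, Nat.shiftRight_eq_div_pow, Nat.add_mul_div_left _ _ (by positivity), Nat.div_eq_of_lt h2, Nat.zero_add]

/-- one block -/
theorem thSh_spec {q L s N p : ℕ} {T : ℕ} (hT : chkT 14 N T (p + 1) = true) (hs : s = 64 * p) (hp : p ≤ q)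
    (hN : q - p + L ≤ N) {κ : ℕ → Bool} (h : thSh q s T κ = true) :
    ∃ S, κ S = true ∧ S % 2 ^ (64 * L) = vec L (fun i => thN (cbp 32 kap1) (q + 1 + i)) := by
  refine ⟨_, h, ?_⟩
  show (T >>> (64 * q - s)) % 2 ^ (64 * L) = _
  rw [hs, ← Nat.mul_sub, chkT_vec 14 _ _ _ hT, vec_window N (q - p) L _ (fun i _ => thN1_lt _) hN]
  apply vec_congr
  intro i _
  congr 1
  omega

theorem selB_true (x y : Bool) : selB true x y = x := rfl
theorem selB_false (x y : Bool) : selB false x y = y := rfl

/-- all blocks of `FinTab` are right -/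
theorem thS_spec {q L : ℕ} (hL : L ≤ 2047) (hq : q + L ≤ 18879) {κ : ℕ → Bool} (h : thS q κ = true) :
    ∃ S, κ S = true ∧ S % 2 ^ (64 * L) = vec L (fun i => thN (cbp 32 kap1) (q + 1 + i)) := by
  unfold thS at h
  have key : ∀ a : ℕ, (Nat.ble q a = true ∧ q ≤ a) ∨ (Nat.ble q a = false ∧ a < q) := by
    intro a
    cases hb : Nat.ble q a with
    | true => exact Or.inl ⟨rfl, Nat.le_of_ble_eq_true hb⟩
    | false =>
      refine Or.inr ⟨rfl, ?_⟩
      by_contra hc
      rw [Nat.ble_eq_true_of_le (by omega)] at hb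
      exact absurd hb (by simp)
  rcases key 4095 with ⟨b1, h1⟩ | ⟨b1, h1⟩
  · rw [b1, selB_true] at h
    rcases key 2047 with ⟨b2, h2⟩ | ⟨b2, h2⟩
    · rw [b2, selB_true] at h
      rcases key 1023 with ⟨b3, h3⟩ | ⟨b3, h3⟩
      · rw [b3, selB_true] at h
        exact thSh_spec (p := 0) tb0_chk (by norm_num) (by omega) (by omega) h
      · rw [b3, selB_false] at h
        exact thSh_spec (p := 1024) tb1_chk (by norm_num) (by omega) (by omega) h
    · rw [b2, selB_false] at h
      rcases key 3071 with ⟨b3, h3⟩ | ⟨b3, h3⟩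
      · rw [b3, selB_true] at h
        exact thSh_spec (p := 2048) tb2_chk (by norm_num) (by omega) (by omega) h
      · rw [b3, selB_false] at h
        exact thSh_spec (p := 3072) tb3_chk (by norm_num) (by omega) (by omega) h
  · rw [b1, selB_false] at h
    rcases key 8191 with ⟨b2, h2⟩ | ⟨b2, h2⟩
    · rw [b2, selB_true] at h
      rcases key 6143 with ⟨b3, h3⟩ | ⟨b3, h3⟩
      · rw [b3, selB_true] at h
        exact thSh_spec (p := 4096) tb4_chk (by norm_num) (by omega) (by omega) h
      · rw [b3, selB_false] at h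
        exact thSh_spec (p := 6144) tb5_chk (by norm_num) (by omega) (by omega) h
    · rw [b2, selB_false] at h
      rcases key 12287 with ⟨b3, h3⟩ | ⟨b3, h3⟩
      · rw [b3, selB_true] at h
        exact thSh_spec (p := 8192) tb6_chk (by norm_num) (by omega) (by omega) h
      · rw [b3, selB_false] at h
        exact thSh_spec (p := 12288) tb7_chk (by norm_num) (by omega) (by omega) h

end Pool.Agent.MMS.Fi
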