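import Pool.Agent.MP_94f265_co.ST.FinTab

/-!
# Kernel check of the tables of thresholds by binary splitting
-/

namespace Pool.Agent.MMS.Fi

/-- `2 ^ 32 * 3 * (5 K - 1) ^ 3`, `K = p + 1599` -/
def cbT (p : Nat) : Nat :=
  Nat.mul (nat_lit 12884901888) (Nat.pow (Nat.add (Nat.mul (nat_lit 5) p) (nat_lit 7994)) (nat_lit 3))

/-- conjunction -/
noncomputable def andT (x y : Bool) : Bool := Bool.rec (motive := fun _ => Bool) false y x

/-- `x` is the threshold at `p`: `CS ≤ cb * x`, `cb * (x - 1) < CS` -/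
noncomputable def leafT (x p : Nat) : Bool :=
  andT (Nat.ble (nat_lit 158671078617395031367680000000000000) (Nat.mul (cbT p) x))
    (Nat.ble (Nat.succ (Nat.mul (cbT p) (Nat.sub x (nat_lit 1)))) (nat_lit 158671078617395031367680000000000000))

/-- the `L ≤ 2 ^ d` fields of `x` are the thresholds at `p, p + 1, ...` -/
noncomputable def chkT (d : Nat) : Nat → Nat → Nat → Bool :=
  Nat.rec (motive := fun _ => Nat → Nat → Nat → Bool) (fun L x p => andT (Nat.beq L (nat_lit 1)) (leafT x p))
    (fun _ g L x p =>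
      Bool.rec (motive := fun _ => Bool)
        (andT (g (Nat.div L (nat_lit 2)) (Nat.mod x (Nat.pow (nat_lit 2) (Nat.mul (nat_lit 64) (Nat.div L (nat_lit 2))))) p)
          (g (Nat.sub L (Nat.div L (nat_lit 2))) (Nat.shiftRight x (Nat.mul (nat_lit 64) (Nat.div L (nat_lit 2))))
            (Nat.add p (Nat.div L (nat_lit 2)))))
        (leafT x p) (Nat.beq L (nat_lit 1))) d

/-- the number with `n / 64` fields equal to one -/
def onesN (n : Nat) : Nat := Nat.div (Nat.sub (Nat.pow (nat_lit 2) n) (nat_lit 1)) (nat_lit 18446744073709551615)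

end Pool.Agent.MMS.Fi
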