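import Pool.Agent.MP_94f265_co.ST.Base

/-!
# Final state check: kernel definitions (no Mathlib)

The free contexts of a part are read one after the other. An event `(q, v)`: cells of total length
`≤ v * 2^64 / SC` in the classes of the position `q`. The state: hints (current word, further words) and `Sta`: total
units `t`, potential `p` (unit `(3115/1000) / SC`), tables `a0, a1, ...`; the meaning of the tables is the
number `Σ a_i X^(b_i)`, `X = 2^64`. Everything is written in continuation passing style with raw arithmetic, `frc x y` evaluates `x` first.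
-/

namespace Pool.Agent.MMS.Fi

/-! ## accumulators -/

/-- the state -/
inductive Sta : Type
  | mk (t p a0 a1 a2 a3 a4 a5 a6 a7 a8 a9 a10 a11 a12 a13 a14 a15 a16 : Nat) : Sta

/-- the rest of the computation: hints (current word, further words), state -/
abbrev At : Type := Nat → List Nat → Sta → Bool

/-- the false continuation -/
def noA : At := fun _ _ _ => false

/-- `if b then x else y` -/
noncomputable def selA (b : Bool) (x y : At) : At := Bool.rec (motive := fun _ => At) y x b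

/-- `if b then x else false` -/
noncomputable def thenB (b : Bool) (x : Bool) : Bool := Bool.rec (motive := fun _ => Bool) false x b

/-- read one hint (a field of 32 bits); a word is `Σ x_i 2^(32 i) + 2^(32 n)`; the state is evaluated when a new
word starts -/
noncomputable def rd (κ : Nat → At) : At := fun h hs =>
  Bool.rec (motive := fun _ => Sta → Bool)
    (κ (Nat.land h (nat_lit 4294967295)) (Nat.shiftRight h (nat_lit 32)) hs)
    (List.rec (motive := fun _ => Sta → Bool) (fun _ => false)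
      (fun x l _ s => Sta.rec (motive := fun _ => Bool) (fun t p a0 a1 a2 a3 a4 a5 a6 a7 a8 a9 a10 a11 a12 a13 a14 a15 a16 =>
        frc t (frc p (frc a0 (frc a1 (frc a2 (frc a3 (frc a4 (frc a5 (frc a6 (frc a7 (frc a8 (frc a9 (frc a10 (frc a11 (frc a12 (frc a13 (frc a14 (frc a15 (frc a16 ((κ (Nat.land x (nat_lit 4294967295)) (Nat.shiftRight x (nat_lit 32)) l (Sta.mk t p a0 a1 a2 a3 a4 a5 a6 a7 a8 a9 a10 a11 a12 a13 a14 a15 a16)))))))))))))))))))))) s) hs)
    (Nat.beq h (nat_lit 1))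

/-- add `v` at the position `q` of a table; `b` is 64 times its start -/
noncomputable def put (q b v x : Nat) : Nat :=
  Nat.add x (Nat.shiftLeft v (Nat.sub (Nat.mul (nat_lit 64) q) b))

noncomputable def ad0 (q v τ ψ : Nat) (f : At) : At := fun h hs s =>
  Sta.rec (motive := fun _ => Bool) (fun t p a0 a1 a2 a3 a4 a5 a6 a7 a8 a9 a10 a11 a12 a13 a14 a15 a16 =>
    f h hs (Sta.mk (Nat.add t τ) (Nat.add p ψ) (put q (nat_lit 0) v a0) a1 a2 a3 a4 a5 a6 a7 a8 a9 a10 a11 a12 a13 a14 a15 a16)) s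

noncomputable def ad1 (q v τ ψ : Nat) (f : At) : At := fun h hs s =>
  Sta.rec (motive := fun _ => Bool) (fun t p a0 a1 a2 a3 a4 a5 a6 a7 a8 a9 a10 a11 a12 a13 a14 a15 a16 =>
    f h hs (Sta.mk (Nat.add t τ) (Nat.add p ψ) a0 (put q (nat_lit 65536) v a1) a2 a3 a4 a5 a6 a7 a8 a9 a10 a11 a12 a13 a14 a15 a16)) s

noncomputable def ad2 (q v τ ψ : Nat) (f : At) : At := fun h hs s =>
  Sta.rec (motive := fun _ => Bool) (fun t p a0 a1 a2 a3 a4 a5 a6 a7 a8 a9 a10 a11 a12 a13 a14 a15 a16 =>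
    f h hs (Sta.mk (Nat.add t τ) (Nat.add p ψ) a0 a1 (put q (nat_lit 131072) v a2) a3 a4 a5 a6 a7 a8 a9 a10 a11 a12 a13 a14 a15 a16)) s

noncomputable def ad3 (q v τ ψ : Nat) (f : At) : At := fun h hs s =>
  Sta.rec (motive := fun _ => Bool) (fun t p a0 a1 a2 a3 a4 a5 a6 a7 a8 a9 a10 a11 a12 a13 a14 a15 a16 =>
    f h hs (Sta.mk (Nat.add t τ) (Nat.add p ψ) a0 a1 a2 (put q (nat_lit 196608) v a3) a4 a5 a6 a7 a8 a9 a10 a11 a12 a13 a14 a15 a16)) s

noncomputable def ad4 (q v τ ψ : Nat) (f : At) : At := fun h hs s =>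
  Sta.rec (motive := fun _ => Bool) (fun t p a0 a1 a2 a3 a4 a5 a6 a7 a8 a9 a10 a11 a12 a13 a14 a15 a16 =>
    f h hs (Sta.mk (Nat.add t τ) (Nat.add p ψ) a0 a1 a2 a3 (put q (nat_lit 262144) v a4) a5 a6 a7 a8 a9 a10 a11 a12 a13 a14 a15 a16)) s

noncomputable def ad5 (q v τ ψ : Nat) (f : At) : At := fun h hs s =>
  Sta.rec (motive := fun _ => Bool) (fun t p a0 a1 a2 a3 a4 a5 a6 a7 a8 a9 a10 a11 a12 a13 a14 a15 a16 =>
    f h hs (Sta.mk (Nat.add t τ) (Nat.add p ψ) a0 a1 a2 a3 a4 (put q (nat_lit 393216) v a5) a6 a7 a8 a9 a10 a11 a12 a13 a14 a15 a16)) s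

noncomputable def ad6 (q v τ ψ : Nat) (f : At) : At := fun h hs s =>
  Sta.rec (motive := fun _ => Bool) (fun t p a0 a1 a2 a3 a4 a5 a6 a7 a8 a9 a10 a11 a12 a13 a14 a15 a16 =>
    f h hs (Sta.mk (Nat.add t τ) (Nat.add p ψ) a0 a1 a2 a3 a4 a5 (put q (nat_lit 524288) v a6) a7 a8 a9 a10 a11 a12 a13 a14 a15 a16)) s

noncomputable def ad7 (q v τ ψ : Nat) (f : At) : At := fun h hs s =>
  Sta.rec (motive := fun _ => Bool) (fun t p a0 a1 a2 a3 a4 a5 a6 a7 a8 a9 a10 a11 a12 a13 a14 a15 a16 =>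
    f h hs (Sta.mk (Nat.add t τ) (Nat.add p ψ) a0 a1 a2 a3 a4 a5 a6 (put q (nat_lit 655360) v a7) a8 a9 a10 a11 a12 a13 a14 a15 a16)) s

noncomputable def ad8 (q v τ ψ : Nat) (f : At) : At := fun h hs s =>
  Sta.rec (motive := fun _ => Bool) (fun t p a0 a1 a2 a3 a4 a5 a6 a7 a8 a9 a10 a11 a12 a13 a14 a15 a16 =>
    f h hs (Sta.mk (Nat.add t τ) (Nat.add p ψ) a0 a1 a2 a3 a4 a5 a6 a7 (put q (nat_lit 786432) v a8) a9 a10 a11 a12 a13 a14 a15 a16)) s

noncomputable def ad9 (q v τ ψ : Nat) (f : At) : At := fun h hs s =>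
  Sta.rec (motive := fun _ => Bool) (fun t p a0 a1 a2 a3 a4 a5 a6 a7 a8 a9 a10 a11 a12 a13 a14 a15 a16 =>
    f h hs (Sta.mk (Nat.add t τ) (Nat.add p ψ) a0 a1 a2 a3 a4 a5 a6 a7 a8 (put q (nat_lit 997376) v a9) a10 a11 a12 a13 a14 a15 a16)) s

noncomputable def ad10 (q v τ ψ : Nat) (f : At) : At := fun h hs s =>
  Sta.rec (motive := fun _ => Bool) (fun t p a0 a1 a2 a3 a4 a5 a6 a7 a8 a9 a10 a11 a12 a13 a14 a15 a16 =>
    f h hs (Sta.mk (Nat.add t τ) (Nat.add p ψ) a0 a1 a2 a3 a4 a5 a6 a7 a8 a9 (put q (nat_lit 1208320) v a10) a11 a12 a13 a14 a15 a16)) s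

noncomputable def ad11 (q v τ ψ : Nat) (f : At) : At := fun h hs s =>
  Sta.rec (motive := fun _ => Bool) (fun t p a0 a1 a2 a3 a4 a5 a6 a7 a8 a9 a10 a11 a12 a13 a14 a15 a16 =>
    f h hs (Sta.mk (Nat.add t τ) (Nat.add p ψ) a0 a1 a2 a3 a4 a5 a6 a7 a8 a9 a10 (put q (nat_lit 1298432) v a11) a12 a13 a14 a15 a16)) s

noncomputable def ad12 (q v τ ψ : Nat) (f : At) : At := fun h hs s =>
  Sta.rec (motive := fun _ => Bool) (fun t p a0 a1 a2 a3 a4 a5 a6 a7 a8 a9 a10 a11 a12 a13 a14 a15 a16 =>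
    f h hs (Sta.mk (Nat.add t τ) (Nat.add p ψ) a0 a1 a2 a3 a4 a5 a6 a7 a8 a9 a10 a11 (put q (nat_lit 1388544) v a12) a13 a14 a15 a16)) s

noncomputable def ad13 (q v τ ψ : Nat) (f : At) : At := fun h hs s =>
  Sta.rec (motive := fun _ => Bool) (fun t p a0 a1 a2 a3 a4 a5 a6 a7 a8 a9 a10 a11 a12 a13 a14 a15 a16 =>
    f h hs (Sta.mk (Nat.add t τ) (Nat.add p ψ) a0 a1 a2 a3 a4 a5 a6 a7 a8 a9 a10 a11 a12 (put q (nat_lit 1478656) v a13) a14 a15 a16)) s

noncomputable def ad14 (q v τ ψ : Nat) (f : At) : At := fun h hs s =>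
  Sta.rec (motive := fun _ => Bool) (fun t p a0 a1 a2 a3 a4 a5 a6 a7 a8 a9 a10 a11 a12 a13 a14 a15 a16 =>
    f h hs (Sta.mk (Nat.add t τ) (Nat.add p ψ) a0 a1 a2 a3 a4 a5 a6 a7 a8 a9 a10 a11 a12 a13 (put q (nat_lit 1568768) v a14) a15 a16)) s

noncomputable def ad15 (q v τ ψ : Nat) (f : At) : At := fun h hs s =>
  Sta.rec (motive := fun _ => Bool) (fun t p a0 a1 a2 a3 a4 a5 a6 a7 a8 a9 a10 a11 a12 a13 a14 a15 a16 =>
    f h hs (Sta.mk (Nat.add t τ) (Nat.add p ψ) a0 a1 a2 a3 a4 a5 a6 a7 a8 a9 a10 a11 a12 a13 a14 (put q (nat_lit 1699840) v a15) a16)) s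

noncomputable def ad16 (q v τ ψ : Nat) (f : At) : At := fun h hs s =>
  Sta.rec (motive := fun _ => Bool) (fun t p a0 a1 a2 a3 a4 a5 a6 a7 a8 a9 a10 a11 a12 a13 a14 a15 a16 =>
    f h hs (Sta.mk (Nat.add t τ) (Nat.add p ψ) a0 a1 a2 a3 a4 a5 a6 a7 a8 a9 a10 a11 a12 a13 a14 a15 (put q (nat_lit 1830912) v a16))) s

/-- add the vector `v` at the position `q`, the total `τ`, the potential `ψ` -/
noncomputable def addG (q v τ ψ : Nat) (f : At) : At :=
  (selA (Nat.ble q (nat_lit 12287)) (selA (Nat.ble q (nat_lit 4095)) (selA (Nat.ble q (nat_lit 2047)) (selA (Nat.ble q (nat_lit 1023)) (ad0 q v τ ψ f) (ad1 q v τ ψ f)) (selA (Nat.ble q (nat_lit 3071)) (ad2 q v τ ψ f) (ad3 q v τ ψ f))) (selA (Nat.ble q (nat_lit 8191)) (selA (Nat.ble q (nat_lit 6143)) (ad4 q v τ ψ f) (ad5 q v τ ψ f)) (selA (Nat.ble q (nat_lit 10239)) (ad6 q v τ ψ f) (ad7 q v τ ψ f)))) (selA (Nat.ble q (nat_lit 21695)) (selA (Nat.ble q (nat_lit 18879)) (selA (Nat.ble q (nat_lit 15583))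 (ad8 q v τ ψ f) (ad9 q v τ ψ f)) (selA (Nat.ble q (nat_lit 20287)) (ad10 q v τ ψ f) (ad11 q v τ ψ f))) (selA (Nat.ble q (nat_lit 24511)) (selA (Nat.ble q (nat_lit 23103)) (ad12 q v τ ψ f) (ad13 q v τ ψ f)) (selA (Nat.ble q (nat_lit 26559)) (ad14 q v τ ψ f) (selA (Nat.ble q (nat_lit 28607)) (ad15 q v τ ψ f) (ad16 q v τ ψ f))))))

/-- add `ψ` only -/
noncomputable def addP (ψ : Nat) (f : At) : At := fun h hs s =>
  Sta.rec (motive := fun _ => Bool) (fun t p a0 a1 a2 a3 a4 a5 a6 a7 a8 a9 a10 a11 a12 a13 a14 a15 a16 =>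
    f h hs (Sta.mk t (Nat.add p ψ) a0 a1 a2 a3 a4 a5 a6 a7 a8 a9 a10 a11 a12 a13 a14 a15 a16)) s

/-! ## classes -/

/-- the thicknesses in `[sl, sh]` are in `[5120 / (3 y1^3), 5120 / (3 y2^3))`; the literals are `5120 SC / 3` and
this minus one -/
noncomputable def pOK (y1 y2 sl sh : Nat) : Bool :=
  thenB (Nat.ble (nat_lit 52890359539131677122560000000000000) (Nat.mul sl (Nat.mul y1 (Nat.mul y1 y1))))
    (Nat.ble (Nat.mul sh (Nat.mul y2 (Nat.mul y2 y2))) (nat_lit 52890359539131677122559999999999999))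

/-- the thicknesses in `[sl, sh]` are in the classes of the position `q` -/
noncomputable def posOK (q sl sh : Nat) : Bool :=
  Bool.rec (motive := fun _ => Bool)
    (Bool.rec (motive := fun _ => Bool)
      (Bool.rec (motive := fun _ => Bool)
        (Bool.rec (motive := fun _ => Bool)
          (thenB (Nat.ble q (nat_lit 31039))
            (pOK (Nat.sub (Nat.mul (nat_lit 10240) q) (nat_lit 312596486)) (Nat.sub (Nat.mul (nat_lit 10240) q) (nat_lit 312606726)) sl sh))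
          (pOK (Nat.sub (Nat.mul (nat_lit 320) q) (nat_lit 8498886)) (Nat.sub (Nat.mul (nat_lit 320) q) (nat_lit 8499206)) sl sh)
          (Nat.ble q (nat_lit 30655)))
        (pOK (Nat.sub (Nat.mul (nat_lit 80) q) (nat_lit 1633206)) (Nat.sub (Nat.mul (nat_lit 80) q) (nat_lit 1633286)) sl sh)
        (Nat.ble q (nat_lit 28607)))
      (pOK (Nat.sub (Nat.mul (nat_lit 40) q) (nat_lit 652766)) (Nat.sub (Nat.mul (nat_lit 40) q) (nat_lit 652806)) sl sh)
      (Nat.ble q (nat_lit 24511)))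
    (pOK (Nat.add (Nat.mul (nat_lit 5) q) (nat_lit 7999)) (Nat.add (Nat.mul (nat_lit 5) q) (nat_lit 7994)) sl sh)
    (Nat.ble q (nat_lit 18879))

/-- length unit: `≥ lh / 2^64` -/
def lenU (lh : Nat) : Nat := Nat.add (nat_lit 1) (Nat.shiftRight lh (nat_lit 64))

/-! ## plain rectangles -/

/-- `1 + X + ... + X^j` -/
def onesX (j : Nat) : Nat :=
  Nat.div (Nat.sub (Nat.shiftLeft (nat_lit 1) (Nat.mul (nat_lit 64) (Nat.succ j))) (nat_lit 1)) (nat_lit 18446744073709551615)

/-- `5 K - 1`, `K` the last class of the position `q` -/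
noncomputable def yy1 (q : Nat) : Nat :=
  Bool.rec (motive := fun _ => Nat)
    (Bool.rec (motive := fun _ => Nat)
      (Bool.rec (motive := fun _ => Nat)
        (Bool.rec (motive := fun _ => Nat)
          (Nat.sub (Nat.mul (nat_lit 10240) q) (nat_lit 312596486))
          (Nat.sub (Nat.mul (nat_lit 320) q) (nat_lit 8498886)) (Nat.ble q (nat_lit 30655)))
        (Nat.sub (Nat.mul (nat_lit 80) q) (nat_lit 1633206)) (Nat.ble q (nat_lit 28607)))
      (Nat.sub (Nat.mul (nat_lit 40) q) (nat_lit 652766)) (Nat.ble q (nat_lit 24511)))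
    (Nat.add (Nat.mul (nat_lit 5) q) (nat_lit 7999)) (Nat.ble q (nat_lit 18879))

/-- `5 K - 6`, `K` the first class of the position `q` -/
noncomputable def yy2 (q : Nat) : Nat :=
  Bool.rec (motive := fun _ => Nat)
    (Bool.rec (motive := fun _ => Nat)
      (Bool.rec (motive := fun _ => Nat)
        (Bool.rec (motive := fun _ => Nat)
          (Nat.sub (Nat.mul (nat_lit 10240) q) (nat_lit 312606726))
          (Nat.sub (Nat.mul (nat_lit 320) q) (nat_lit 8499206)) (Nat.ble q (nat_lit 30655)))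
        (Nat.sub (Nat.mul (nat_lit 80) q) (nat_lit 1633286)) (Nat.ble q (nat_lit 28607)))
      (Nat.sub (Nat.mul (nat_lit 40) q) (nat_lit 652806)) (Nat.ble q (nat_lit 24511)))
    (Nat.add (Nat.mul (nat_lit 5) q) (nat_lit 7994)) (Nat.ble q (nat_lit 18879))

/-- a plain rectangle of thickness in `[sl, sh]`, length `≤ lh`, in one of the classes of the positions
`q, ..., q + j`, counted in all of them -/
noncomputable def evM (sl sh lh : Nat) (f : At) (q j : Nat) : At :=
  selA (thenB (Nat.ble (Nat.add q j) (nat_lit 31039)) (pOK (yy1 (Nat.add q j)) (yy2 q) sl sh))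
    (addG q (Nat.mul (lenU lh) (onesX j)) (Nat.mul (lenU lh) (Nat.succ j)) sh f) noA

/-- a plain rectangle of thickness in `[sl, sh]`, length `≤ lh`, in the class of position `q`; otherwise nothing
if it is degenerate, otherwise in several classes -/
noncomputable def evP (sl sh lh : Nat) (f : At) (q : Nat) : At :=
  selA (posOK q sl sh) (addG q (lenU lh) (lenU lh) sh f)
    (selA (Nat.beq sh (nat_lit 0)) f (rd (evM sl sh lh f q)))

/-- two plain rectangles, otherwise `g` -/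
noncomputable def evD (sl sh lh : Nat) (f g : At) (q : Nat) : At :=
  selA (posOK q sl sh) (addG q (Nat.mul (nat_lit 2) (lenU lh)) (Nat.mul (nat_lit 2) (lenU lh)) (Nat.mul (nat_lit 2) sh) f) g

/-- the shape of the box; the literals are `20 * 300000000` and `SC * SC` -/
noncomputable def boxB (al ah bl bh : Nat) : Bool :=
  thenB (Nat.ble (nat_lit 1) al) (thenB (Nat.ble (nat_lit 1) bl)
    (thenB (Nat.ble ah (Nat.mul (nat_lit 2) bl)) (thenB (Nat.ble bh (Nat.mul (nat_lit 2) al))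
      (Nat.ble (nat_lit 960407683929731549800255763075964780096000000000000000000000000) (Nat.mul (nat_lit 6000000000) (Nat.mul al bl))))))

/-- the box: one entry in the field `31041` -/
noncomputable def evB (al ah bl bh : Nat) (f : At) : At :=
  selA (boxB al ah bl bh) (addG (nat_lit 31041) (nat_lit 1) (nat_lit 1) (nat_lit 0) f) noA

/-- minimum -/
noncomputable def mn (x y : Nat) : Nat := Bool.rec (motive := fun _ => Nat) y x (Nat.ble x y)

/-- maximum -/
noncomputable def mx (x y : Nat) : Nat := Bool.rec (motive := fun _ => Nat) x y (Nat.ble x y)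

/-- a rectangle with nearly equal sides: the larger side is halved, or it is the box -/
noncomputable def evHalf (al ah bl bh : Nat) (f : At) : At :=
  selA (Nat.ble (Nat.mul (nat_lit 51) (mx ah bh)) (Nat.mul (nat_lit 100) (mn al bl)))
    (rd (evD (Nat.div (mx al bl) (nat_lit 2)) (Nat.div (Nat.succ (mx ah bh)) (nat_lit 2)) (mn ah bh) f (evB al ah bl bh f))) noA

/-- a rectangle with sides in `[al, ah]`, `[bl, bh]` -/
noncomputable def evPc (al ah bl bh : Nat) (f : At) : At :=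
  selA (Nat.ble (Nat.mul (nat_lit 51) ah) (Nat.mul (nat_lit 50) bl)) (rd (evP al ah bh f))
    (selA (Nat.ble (Nat.mul (nat_lit 51) bh) (Nat.mul (nat_lit 50) al)) (rd (evP bl bh ah f))
      (evHalf al ah bl bh f))

/-- a list of rectangles -/
noncomputable def evLs (l : List Q4) : At → At :=
  List.rec (motive := fun _ => At → At) (fun f => f) (fun e _ g f => evPc e.1 e.2.1 e.2.2.1 e.2.2.2 (g f)) l

/-! ## all contexts -/

/-- the contexts one after the other -/
noncomputable def finL (evC : Ctx → At → At) (fr : List Ctx) : At → At :=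
  List.rec (motive := fun _ => At → At) (fun f => f) (fun c _ g f => evC c (g f)) fr

/-- a number given by pieces of 2^14 bits (256 positions) -/
noncomputable def joinC (l : List Nat) : Nat :=
  List.rec (motive := fun _ => Nat) (nat_lit 0) (fun x _ y => Nat.add x (Nat.shiftLeft y (nat_lit 16384))) l

/-- the final state is as expected -/
noncomputable def finEq (e : Sta) : At := fun _ _ s =>
  Sta.rec (motive := fun _ => Bool) (fun t p a0 a1 a2 a3 a4 a5 a6 a7 a8 a9 a10 a11 a12 a13 a14 a15 a16 =>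
    Sta.rec (motive := fun _ => Bool) (fun t' p' a0' a1' a2' a3' a4' a5' a6' a7' a8' a9' a10' a11' a12' a13' a14' a15' a16' =>
      thenB (Nat.beq t t') (thenB (Nat.beq p p') (thenB (Nat.beq a0 a0') (thenB (Nat.beq a1 a1') (thenB (Nat.beq a2 a2') (thenB (Nat.beq a3 a3') (thenB (Nat.beq a4 a4') (thenB (Nat.beq a5 a5') (thenB (Nat.beq a6 a6') (thenB (Nat.beq a7 a7') (thenB (Nat.beq a8 a8') (thenB (Nat.beq a9 a9') (thenB (Nat.beq a10 a10') (thenB (Nat.beq a11 a11') (thenB (Nat.beq a12 a12') (thenB (Nat.beq a13 a13') (thenB (Nat.beq a14 a14') (thenB (Nat.beq a15 a15') (Nat.beq a16 a16'))))))))))))))))))) e) s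

/-- the check of the free contexts of a part: hints, expected final state -/
noncomputable def cfr (evC : Ctx → At → At) (hs : List Nat) (e : Sta) (fr : List Ctx) : Bool :=
  finL evC fr (finEq e) (nat_lit 1) hs (Sta.mk (nat_lit 0) (nat_lit 0) (nat_lit 0) (nat_lit 0) (nat_lit 0) (nat_lit 0) (nat_lit 0) (nat_lit 0) (nat_lit 0) (nat_lit 0) (nat_lit 0) (nat_lit 0) (nat_lit 0) (nat_lit 0) (nat_lit 0) (nat_lit 0) (nat_lit 0) (nat_lit 0) (nat_lit 0))

end Pool.Agent.MMS.Fi
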