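import Pool.Agent.MP_94f265_co.ST.FinRDef
import Pool.Agent.MP_94f265_co.ST.FinP

/-!
# The last check
-/

namespace Pool.Agent.MMS.Fi

open Pool.Agent.MM1 Pool.Agent.MM2

/-! ## digits -/

theorem digit_aux (q : ℕ) : ∀ E : List (ℕ × ℕ), ∃ L H, tabS E = L + fieldS q E * 2 ^ (64 * q) + H * 2 ^ (64 * q + 64) ∧
    L * 2 ^ 64 ≤ totS E * 2 ^ (64 * q) ∧ fieldS q E ≤ totS E
  | [] => ⟨0, 0, by simp [tabS, fieldS], by simp, by simp [fieldS]⟩
  | (a, v) :: E => by
    obtain ⟨L, H, h1, h2, h3⟩ := digit_aux q E
    have t1 : tabS ((a, v) :: E) = v * 2 ^ (64 * a) + tabS E := by simp [tabS]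
    have t2 : totS ((a, v) :: E) = v + totS E := by simp [totS]
    have t3 : fieldS q ((a, v) :: E) = (if a = q then v else 0) + fieldS q E := by simp [fieldS]
    rw [t1, t2, t3, h1]
    rcases Nat.lt_trichotomy a q with h | h | h
    · refine ⟨L + v * 2 ^ (64 * a), H, ?_, ?_, ?_⟩
      · rw [if_neg (by omega)]; ring
      · have e : v * 2 ^ (64 * a) * 2 ^ 64 ≤ v * 2 ^ (64 * q) := by
          rw [mul_assoc, ← pow_add]
          exact Nat.mul_le_mul_left _ (Nat.pow_le_pow_right (by norm_num) (by omega))
        calc (L + v * 2 ^ (64 * a)) * 2 ^ 64 = L * 2 ^ 64 + v * 2 ^ (64 * a) * 2 ^ 64 := by ring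
          _ ≤ totS E * 2 ^ (64 * q) + v * 2 ^ (64 * q) := Nat.add_le_add h2 e
          _ = (v + totS E) * 2 ^ (64 * q) := by ring
      · rw [if_neg (by omega)]; omega
    · refine ⟨L, H, ?_, ?_, ?_⟩
      · rw [if_pos h, h]; ring
      · refine h2.trans (Nat.mul_le_mul_right _ (by omega))
      · rw [if_pos h]; omega
    · refine ⟨L, H + v * 2 ^ (64 * (a - (q + 1))), ?_, ?_, ?_⟩
      · rw [if_neg (by omega), add_mul H, mul_assoc v, ← pow_add,
          show 64 * (a - (q + 1)) + (64 * q + 64) = 64 * a by omega]
        ring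
      · refine h2.trans (Nat.mul_le_mul_right _ (by omega))
      · rw [if_neg (by omega)]; omega

/-- the units at a position are a digit -/
theorem field_digit {E : List (ℕ × ℕ)} {A T : ℕ} (hA : tabS E = A) (hT : totS E ≤ T) (hT2 : T < 2 ^ 64) (q : ℕ) :
    fieldS q E = A / 2 ^ (64 * q) % 2 ^ 64 := by
  obtain ⟨L, H, h1, h2, h3⟩ := digit_aux q E
  have hL : L < 2 ^ (64 * q) := by
    by_contra hc
    push Not at hc
    have h4 : 2 ^ (64 * q) * 2 ^ 64 ≤ L * 2 ^ 64 := Nat.mul_le_mul_right _ hc
    have h5 : totS E * 2 ^ (64 * q) < 2 ^ 64 * 2 ^ (64 * q) :=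
      Nat.mul_lt_mul_of_pos_right (by omega) (Nat.two_pow_pos _)
    rw [mul_comm] at h4
    exact absurd (h4.trans h2) (by omega)
  rw [← hA, h1]
  have e : L + fieldS q E * 2 ^ (64 * q) + H * 2 ^ (64 * q + 64) =
      L + (fieldS q E + H * 2 ^ 64) * 2 ^ (64 * q) := by
    rw [pow_add]; ring
  rw [e, Nat.add_mul_div_right _ _ (Nat.two_pow_pos _), Nat.div_eq_of_lt hL, zero_add,
    Nat.add_mul_mod_self_right, Nat.mod_eq_of_lt (by omega)]

theorem mod_div_mod (x M a b : ℕ) (h : a + b ≤ M) : x % 2 ^ M / 2 ^ a % 2 ^ b = x / 2 ^ a % 2 ^ b := by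
  have e : 2 ^ M = 2 ^ a * 2 ^ (M - a) := by rw [← pow_add]; congr 1; omega
  rw [e, Nat.mod_mul_right_div_self]
  exact Nat.mod_mod_of_dvd _ (Nat.pow_dvd_pow 2 (by omega))

/-! ## the tree of positions -/

theorem selZ_true {b x y : Bool} (h : selZ b x y = true) : (b = true ∧ x = true) ∨ (b = false ∧ y = true) := by
  cases b
  · exact Or.inr ⟨rfl, h⟩
  · exact Or.inl ⟨rfl, h⟩

theorem zB_eq (f : ℕ → ℕ → ℕ → Bool) (x q h : ℕ) : zB f x q h =
    thenB (f (x % 2 ^ (64 * h)) q (h / 2)) (f (x / 2 ^ (64 * h)) (q + h) (h / 2)) := by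
  unfold zB
  rw [frc_eq, frc_eq]
  have e1 : Nat.mod x (Nat.shiftLeft 1 (Nat.mul 64 h)) = x % 2 ^ (64 * h) := by
    have : Nat.shiftLeft 1 (Nat.mul 64 h) = 2 ^ (64 * h) := by
      show 1 <<< (64 * h) = _
      rw [Nat.shiftLeft_eq, one_mul]
    rw [this]
    rfl
  have e2 : Nat.shiftRight x (Nat.mul 64 h) = x / 2 ^ (64 * h) := by
    show x >>> (64 * h) = _
    rw [Nat.shiftRight_eq_div_pow]
  have e3 : Nat.shiftRight h 1 = h / 2 := by
    show h >>> 1 = _
    rw [Nat.shiftRight_eq_div_pow, pow_one]
  rw [e1, e2, e3]
  rfl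

theorem zR_spec (s : ℕ) : ∀ (d x q h : ℕ), zR s d x q h = true → (∀ n, d = n + 1 → h = 2 ^ n) → x < 2 ^ (64 * 2 ^ d) →
    ∀ j < 2 ^ d, leafR s (q + j) (x / 2 ^ (64 * j) % 2 ^ 64) = true := by
  intro d
  induction d with
  | zero =>
    intro x q h hz _ hx j hj
    have hj0 : j = 0 := by simpa using hj
    subst hj0
    have e : x / 2 ^ (64 * 0) % 2 ^ 64 = x := by
      rw [mul_zero, pow_zero, Nat.div_one, Nat.mod_eq_of_lt]
      simpa using hx
    rw [e, add_zero]
    exact hz
  | succ d ih =>
    intro x q h hz hh hx j hj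
    have hh' : h = 2 ^ d := hh d rfl
    subst hh'
    have hz' : zB (zR s d) x q (2 ^ d) = true := hz
    rw [zB_eq, thenB_iff] at hz'
    obtain ⟨z1, z2⟩ := hz'
    have hhalf : ∀ n, d = n + 1 → 2 ^ d / 2 = 2 ^ n := by
      intro n hn
      rw [hn, pow_succ, Nat.mul_div_cancel _ (by norm_num)]
    rcases Nat.lt_or_ge j (2 ^ d) with hjd | hjd
    · have := ih _ q _ z1 hhalf (Nat.mod_lt _ (Nat.two_pow_pos _)) j hjd
      rw [mod_div_mod _ _ _ _ (by
        have : 64 * (j + 1) ≤ 64 * 2 ^ d := Nat.mul_le_mul_left _ hjd
        omega)] at this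
      exact this
    · have hx2 : x / 2 ^ (64 * 2 ^ d) < 2 ^ (64 * 2 ^ d) := by
        apply Nat.div_lt_of_lt_mul
        rw [← pow_add]
        refine lt_of_lt_of_eq hx ?_
        congr 1
        rw [pow_succ]; ring
      have := ih _ (q + 2 ^ d) _ z2 hhalf hx2 (j - 2 ^ d) (by rw [pow_succ] at hj; omega)
      rw [Nat.div_div_eq_div_mul, ← pow_add, show 64 * 2 ^ d + 64 * (j - 2 ^ d) = 64 * j by omega,
        show q + 2 ^ d + (j - 2 ^ d) = q + j by omega] at this
      exact this

/-! ## the loads -/

/-- bound of the load of the bits of the walls -/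
noncomputable def wLR (K : ℕ) : ℝ :=
  if K < 13967 then 43 / 10000 else if K < 60000 then 196 / 10000 else if K < 120000 then 117 / 10000 else 96 / 10000

/-- what is left for the cells -/
noncomputable def ccR (K : ℕ) : ℝ := betaK K - wLR K - Pot.potF K - Pot.potU K

theorem cc0 {K : ℕ} (h1 : 1600 ≤ K) (h2 : K < 4970) : ccR K = 85929 / 100000 := by
  simp only [ccR, betaK, wLR, Pot.potF, Pot.potU, if_pos (show K < 4970 by omega),
    if_pos (show K < 13967 by omega),
    if_pos (show K < 6000 by omega)]
  norm_num

theorem cc1 {K : ℕ} (h1 : 4970 ≤ K) (h2 : K < 5138) : ccR K = 78929 / 100000 := by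
  simp only [ccR, betaK, wLR, Pot.potF, Pot.potU, if_neg (show ¬ K < 4970 by omega),
    if_pos (show K < 5138 by omega),
    if_pos (show K < 13967 by omega),
    if_pos (show K < 6000 by omega)]
  norm_num

theorem cc2 {K : ℕ} (h1 : 5138 ≤ K) (h2 : K < 5312) : ccR K = 71929 / 100000 := by
  simp only [ccR, betaK, wLR, Pot.potF, Pot.potU, if_neg (show ¬ K < 4970 by omega),
    if_neg (show ¬ K < 5138 by omega),
    if_pos (show K < 5312 by omega),
    if_pos (show K < 13967 by omega),
    if_pos (show K < 6000 by omega)]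
  norm_num

theorem cc3 {K : ℕ} (h1 : 5312 ≤ K) (h2 : K < 5492) : ccR K = 65429 / 100000 := by
  simp only [ccR, betaK, wLR, Pot.potF, Pot.potU, if_neg (show ¬ K < 4970 by omega),
    if_neg (show ¬ K < 5138 by omega),
    if_neg (show ¬ K < 5312 by omega),
    if_pos (show K < 5492 by omega),
    if_pos (show K < 13967 by omega),
    if_pos (show K < 6000 by omega)]
  norm_num

theorem cc4 {K : ℕ} (h1 : 5492 ≤ K) (h2 : K < 5678) : ccR K = 59429 / 100000 := by
  simp only [ccR, betaK, wLR, Pot.potF, Pot.potU, if_neg (show ¬ K < 4970 by omega),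
    if_neg (show ¬ K < 5138 by omega),
    if_neg (show ¬ K < 5312 by omega),
    if_neg (show ¬ K < 5492 by omega),
    if_pos (show K < 5678 by omega),
    if_pos (show K < 13967 by omega),
    if_pos (show K < 6000 by omega)]
  norm_num

theorem cc5 {K : ℕ} (h1 : 5678 ≤ K) (h2 : K < 5871) : ccR K = 53929 / 100000 := by
  simp only [ccR, betaK, wLR, Pot.potF, Pot.potU, if_neg (show ¬ K < 4970 by omega),
    if_neg (show ¬ K < 5138 by omega),
    if_neg (show ¬ K < 5312 by omega),
    if_neg (show ¬ K < 5492 by omega),
    if_neg (show ¬ K < 5678 by omega),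
    if_pos (show K < 5871 by omega),
    if_pos (show K < 13967 by omega),
    if_pos (show K < 6000 by omega)]
  norm_num

theorem cc6 {K : ℕ} (h1 : 5871 ≤ K) (h2 : K < 6000) : ccR K = 49429 / 100000 := by
  simp only [ccR, betaK, wLR, Pot.potF, Pot.potU, if_neg (show ¬ K < 4970 by omega),
    if_neg (show ¬ K < 5138 by omega),
    if_neg (show ¬ K < 5312 by omega),
    if_neg (show ¬ K < 5492 by omega),
    if_neg (show ¬ K < 5678 by omega),
    if_neg (show ¬ K < 5871 by omega),
    if_pos (show K < 6070 by omega),
    if_pos (show K < 13967 by omega),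
    if_pos (show K < 6000 by omega)]
  norm_num

theorem cc7 {K : ℕ} (h1 : 6000 ≤ K) (h2 : K < 6070) : ccR K = 6173 / 12500 := by
  simp only [ccR, betaK, wLR, Pot.potF, Pot.potU, if_neg (show ¬ K < 4970 by omega),
    if_neg (show ¬ K < 5138 by omega),
    if_neg (show ¬ K < 5312 by omega),
    if_neg (show ¬ K < 5492 by omega),
    if_neg (show ¬ K < 5678 by omega),
    if_neg (show ¬ K < 5871 by omega),
    if_pos (show K < 6070 by omega),
    if_pos (show K < 13967 by omega),
    if_neg (show ¬ K < 6000 by omega),
    if_pos (show K < 10000 by omega)]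
  norm_num

theorem cc8 {K : ℕ} (h1 : 6070 ≤ K) (h2 : K < 6488) : ccR K = 10221 / 25000 := by
  simp only [ccR, betaK, wLR, Pot.potF, Pot.potU, if_neg (show ¬ K < 4970 by omega),
    if_neg (show ¬ K < 5138 by omega),
    if_neg (show ¬ K < 5312 by omega),
    if_neg (show ¬ K < 5492 by omega),
    if_neg (show ¬ K < 5678 by omega),
    if_neg (show ¬ K < 5871 by omega),
    if_neg (show ¬ K < 6070 by omega),
    if_pos (show K < 6488 by omega),
    if_pos (show K < 13967 by omega),
    if_neg (show ¬ K < 6000 by omega),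
    if_pos (show K < 10000 by omega)]
  norm_num

theorem cc9 {K : ℕ} (h1 : 6488 ≤ K) (h2 : K < 6936) : ccR K = 2149 / 6250 := by
  simp only [ccR, betaK, wLR, Pot.potF, Pot.potU, if_neg (show ¬ K < 4970 by omega),
    if_neg (show ¬ K < 5138 by omega),
    if_neg (show ¬ K < 5312 by omega),
    if_neg (show ¬ K < 5492 by omega),
    if_neg (show ¬ K < 5678 by omega),
    if_neg (show ¬ K < 5871 by omega),
    if_neg (show ¬ K < 6070 by omega),
    if_neg (show ¬ K < 6488 by omega),
    if_pos (show K < 6936 by omega),
    if_pos (show K < 13967 by omega),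
    if_neg (show ¬ K < 6000 by omega),
    if_pos (show K < 10000 by omega)]
  norm_num

theorem cc10 {K : ℕ} (h1 : 6936 ≤ K) (h2 : K < 7414) : ccR K = 7221 / 25000 := by
  simp only [ccR, betaK, wLR, Pot.potF, Pot.potU, if_neg (show ¬ K < 4970 by omega),
    if_neg (show ¬ K < 5138 by omega),
    if_neg (show ¬ K < 5312 by omega),
    if_neg (show ¬ K < 5492 by omega),
    if_neg (show ¬ K < 5678 by omega),
    if_neg (show ¬ K < 5871 by omega),
    if_neg (show ¬ K < 6070 by omega),
    if_neg (show ¬ K < 6488 by omega),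
    if_neg (show ¬ K < 6936 by omega),
    if_pos (show K < 7414 by omega),
    if_pos (show K < 13967 by omega),
    if_neg (show ¬ K < 6000 by omega),
    if_pos (show K < 10000 by omega)]
  norm_num

theorem cc11 {K : ℕ} (h1 : 7414 ≤ K) (h2 : K < 7925) : ccR K = 762 / 3125 := by
  simp only [ccR, betaK, wLR, Pot.potF, Pot.potU, if_neg (show ¬ K < 4970 by omega),
    if_neg (show ¬ K < 5138 by omega),
    if_neg (show ¬ K < 5312 by omega),
    if_neg (show ¬ K < 5492 by omega),
    if_neg (show ¬ K < 5678 by omega),
    if_neg (show ¬ K < 5871 by omega),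
    if_neg (show ¬ K < 6070 by omega),
    if_neg (show ¬ K < 6488 by omega),
    if_neg (show ¬ K < 6936 by omega),
    if_neg (show ¬ K < 7414 by omega),
    if_pos (show K < 7925 by omega),
    if_pos (show K < 13967 by omega),
    if_neg (show ¬ K < 6000 by omega),
    if_pos (show K < 10000 by omega)]
  norm_num

theorem cc12 {K : ℕ} (h1 : 7925 ≤ K) (h2 : K < 8471) : ccR K = 5221 / 25000 := by
  simp only [ccR, betaK, wLR, Pot.potF, Pot.potU, if_neg (show ¬ K < 4970 by omega),
    if_neg (show ¬ K < 5138 by omega),
    if_neg (show ¬ K < 5312 by omega),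
    if_neg (show ¬ K < 5492 by omega),
    if_neg (show ¬ K < 5678 by omega),
    if_neg (show ¬ K < 5871 by omega),
    if_neg (show ¬ K < 6070 by omega),
    if_neg (show ¬ K < 6488 by omega),
    if_neg (show ¬ K < 6936 by omega),
    if_neg (show ¬ K < 7414 by omega),
    if_neg (show ¬ K < 7925 by omega),
    if_pos (show K < 8471 by omega),
    if_pos (show K < 13967 by omega),
    if_neg (show ¬ K < 6000 by omega),
    if_pos (show K < 10000 by omega)]
  norm_num

theorem cc13 {K : ℕ} (h1 : 8471 ≤ K) (h2 : K < 9362) : ccR K = 512 / 3125 := by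
  simp only [ccR, betaK, wLR, Pot.potF, Pot.potU, if_neg (show ¬ K < 4970 by omega),
    if_neg (show ¬ K < 5138 by omega),
    if_neg (show ¬ K < 5312 by omega),
    if_neg (show ¬ K < 5492 by omega),
    if_neg (show ¬ K < 5678 by omega),
    if_neg (show ¬ K < 5871 by omega),
    if_neg (show ¬ K < 6070 by omega),
    if_neg (show ¬ K < 6488 by omega),
    if_neg (show ¬ K < 6936 by omega),
    if_neg (show ¬ K < 7414 by omega),
    if_neg (show ¬ K < 7925 by omega),
    if_neg (show ¬ K < 8471 by omega),
    if_pos (show K < 9362 by omega),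
    if_pos (show K < 13967 by omega),
    if_neg (show ¬ K < 6000 by omega),
    if_pos (show K < 10000 by omega)]
  norm_num

theorem cc14 {K : ℕ} (h1 : 9362 ≤ K) (h2 : K < 10000) : ccR K = 1673 / 12500 := by
  simp only [ccR, betaK, wLR, Pot.potF, Pot.potU, if_neg (show ¬ K < 4970 by omega),
    if_neg (show ¬ K < 5138 by omega),
    if_neg (show ¬ K < 5312 by omega),
    if_neg (show ¬ K < 5492 by omega),
    if_neg (show ¬ K < 5678 by omega),
    if_neg (show ¬ K < 5871 by omega),
    if_neg (show ¬ K < 6070 by omega),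
    if_neg (show ¬ K < 6488 by omega),
    if_neg (show ¬ K < 6936 by omega),
    if_neg (show ¬ K < 7414 by omega),
    if_neg (show ¬ K < 7925 by omega),
    if_neg (show ¬ K < 8471 by omega),
    if_neg (show ¬ K < 9362 by omega),
    if_pos (show K < 10347 by omega),
    if_pos (show K < 13967 by omega),
    if_neg (show ¬ K < 6000 by omega),
    if_pos (show K < 10000 by omega)]
  norm_num

theorem cc15 {K : ℕ} (h1 : 10000 ≤ K) (h2 : K < 10347) : ccR K = 1333 / 10000 := by
  simp only [ccR, betaK, wLR, Pot.potF, Pot.potU, if_neg (show ¬ K < 4970 by omega),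
    if_neg (show ¬ K < 5138 by omega),
    if_neg (show ¬ K < 5312 by omega),
    if_neg (show ¬ K < 5492 by omega),
    if_neg (show ¬ K < 5678 by omega),
    if_neg (show ¬ K < 5871 by omega),
    if_neg (show ¬ K < 6070 by omega),
    if_neg (show ¬ K < 6488 by omega),
    if_neg (show ¬ K < 6936 by omega),
    if_neg (show ¬ K < 7414 by omega),
    if_neg (show ¬ K < 7925 by omega),
    if_neg (show ¬ K < 8471 by omega),
    if_neg (show ¬ K < 9362 by omega),
    if_pos (show K < 10347 by omega),
    if_pos (show K < 13967 by omega),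
    if_neg (show ¬ K < 6000 by omega),
    if_neg (show ¬ K < 10000 by omega),
    if_pos (show K < 14000 by omega)]
  norm_num

theorem cc16 {K : ℕ} (h1 : 10347 ≤ K) (h2 : K < 11822) : ccR K = 1033 / 10000 := by
  simp only [ccR, betaK, wLR, Pot.potF, Pot.potU, if_neg (show ¬ K < 4970 by omega),
    if_neg (show ¬ K < 5138 by omega),
    if_neg (show ¬ K < 5312 by omega),
    if_neg (show ¬ K < 5492 by omega),
    if_neg (show ¬ K < 5678 by omega),
    if_neg (show ¬ K < 5871 by omega),
    if_neg (show ¬ K < 6070 by omega),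
    if_neg (show ¬ K < 6488 by omega),
    if_neg (show ¬ K < 6936 by omega),
    if_neg (show ¬ K < 7414 by omega),
    if_neg (show ¬ K < 7925 by omega),
    if_neg (show ¬ K < 8471 by omega),
    if_neg (show ¬ K < 9362 by omega),
    if_neg (show ¬ K < 10347 by omega),
    if_pos (show K < 11822 by omega),
    if_pos (show K < 13967 by omega),
    if_neg (show ¬ K < 6000 by omega),
    if_neg (show ¬ K < 10000 by omega),
    if_pos (show K < 14000 by omega)]
  norm_num

theorem cc17 {K : ℕ} (h1 : 11822 ≤ K) (h2 : K < 13967) : ccR K = 783 / 10000 := by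
  simp only [ccR, betaK, wLR, Pot.potF, Pot.potU, if_neg (show ¬ K < 4970 by omega),
    if_neg (show ¬ K < 5138 by omega),
    if_neg (show ¬ K < 5312 by omega),
    if_neg (show ¬ K < 5492 by omega),
    if_neg (show ¬ K < 5678 by omega),
    if_neg (show ¬ K < 5871 by omega),
    if_neg (show ¬ K < 6070 by omega),
    if_neg (show ¬ K < 6488 by omega),
    if_neg (show ¬ K < 6936 by omega),
    if_neg (show ¬ K < 7414 by omega),
    if_neg (show ¬ K < 7925 by omega),
    if_neg (show ¬ K < 8471 by omega),
    if_neg (show ¬ K < 9362 by omega),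
    if_neg (show ¬ K < 10347 by omega),
    if_neg (show ¬ K < 11822 by omega),
    if_pos (show K < 13967 by omega),
    if_neg (show ¬ K < 6000 by omega),
    if_neg (show ¬ K < 10000 by omega),
    if_pos (show K < 14000 by omega)]
  norm_num

theorem cc18 {K : ℕ} (h1 : 13967 ≤ K) (h2 : K < 14000) : ccR K = 49 / 1000 := by
  simp only [ccR, betaK, wLR, Pot.potF, Pot.potU, if_neg (show ¬ K < 4970 by omega),
    if_neg (show ¬ K < 5138 by omega),
    if_neg (show ¬ K < 5312 by omega),
    if_neg (show ¬ K < 5492 by omega),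
    if_neg (show ¬ K < 5678 by omega),
    if_neg (show ¬ K < 5871 by omega),
    if_neg (show ¬ K < 6070 by omega),
    if_neg (show ¬ K < 6488 by omega),
    if_neg (show ¬ K < 6936 by omega),
    if_neg (show ¬ K < 7414 by omega),
    if_neg (show ¬ K < 7925 by omega),
    if_neg (show ¬ K < 8471 by omega),
    if_neg (show ¬ K < 9362 by omega),
    if_neg (show ¬ K < 10347 by omega),
    if_neg (show ¬ K < 11822 by omega),
    if_neg (show ¬ K < 13967 by omega),
    if_pos (show K < 60000 by omega),
    if_neg (show ¬ K < 6000 by omega),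
    if_neg (show ¬ K < 10000 by omega),
    if_pos (show K < 14000 by omega)]
  norm_num

theorem cc19 {K : ℕ} (h1 : 14000 ≤ K) (h2 : K < 30000) : ccR K = 4579 / 100000 := by
  simp only [ccR, betaK, wLR, Pot.potF, Pot.potU, if_neg (show ¬ K < 4970 by omega),
    if_neg (show ¬ K < 5138 by omega),
    if_neg (show ¬ K < 5312 by omega),
    if_neg (show ¬ K < 5492 by omega),
    if_neg (show ¬ K < 5678 by omega),
    if_neg (show ¬ K < 5871 by omega),
    if_neg (show ¬ K < 6070 by omega),
    if_neg (show ¬ K < 6488 by omega),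
    if_neg (show ¬ K < 6936 by omega),
    if_neg (show ¬ K < 7414 by omega),
    if_neg (show ¬ K < 7925 by omega),
    if_neg (show ¬ K < 8471 by omega),
    if_neg (show ¬ K < 9362 by omega),
    if_neg (show ¬ K < 10347 by omega),
    if_neg (show ¬ K < 11822 by omega),
    if_neg (show ¬ K < 13967 by omega),
    if_pos (show K < 60000 by omega),
    if_neg (show ¬ K < 6000 by omega),
    if_neg (show ¬ K < 10000 by omega),
    if_neg (show ¬ K < 14000 by omega),
    if_pos (show K < 30000 by omega)]
  norm_num

theorem cc20 {K : ℕ} (h1 : 30000 ≤ K) (h2 : K < 60000) : ccR K = 17 / 400 := by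
  simp only [ccR, betaK, wLR, Pot.potF, Pot.potU, if_neg (show ¬ K < 4970 by omega),
    if_neg (show ¬ K < 5138 by omega),
    if_neg (show ¬ K < 5312 by omega),
    if_neg (show ¬ K < 5492 by omega),
    if_neg (show ¬ K < 5678 by omega),
    if_neg (show ¬ K < 5871 by omega),
    if_neg (show ¬ K < 6070 by omega),
    if_neg (show ¬ K < 6488 by omega),
    if_neg (show ¬ K < 6936 by omega),
    if_neg (show ¬ K < 7414 by omega),
    if_neg (show ¬ K < 7925 by omega),
    if_neg (show ¬ K < 8471 by omega),
    if_neg (show ¬ K < 9362 by omega),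
    if_neg (show ¬ K < 10347 by omega),
    if_neg (show ¬ K < 11822 by omega),
    if_neg (show ¬ K < 13967 by omega),
    if_pos (show K < 60000 by omega),
    if_neg (show ¬ K < 6000 by omega),
    if_neg (show ¬ K < 10000 by omega),
    if_neg (show ¬ K < 14000 by omega),
    if_neg (show ¬ K < 30000 by omega)]
  norm_num

theorem cc21 {K : ℕ} (h1 : 60000 ≤ K) (h2 : K < 120000) : ccR K = 281 / 5000 := by
  simp only [ccR, betaK, wLR, Pot.potF, Pot.potU, if_neg (show ¬ K < 4970 by omega),
    if_neg (show ¬ K < 5138 by omega),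
    if_neg (show ¬ K < 5312 by omega),
    if_neg (show ¬ K < 5492 by omega),
    if_neg (show ¬ K < 5678 by omega),
    if_neg (show ¬ K < 5871 by omega),
    if_neg (show ¬ K < 6070 by omega),
    if_neg (show ¬ K < 6488 by omega),
    if_neg (show ¬ K < 6936 by omega),
    if_neg (show ¬ K < 7414 by omega),
    if_neg (show ¬ K < 7925 by omega),
    if_neg (show ¬ K < 8471 by omega),
    if_neg (show ¬ K < 9362 by omega),
    if_neg (show ¬ K < 10347 by omega),
    if_neg (show ¬ K < 11822 by omega),
    if_neg (show ¬ K < 13967 by omega),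
    if_neg (show ¬ K < 60000 by omega),
    if_pos (show K < 120000 by omega),
    if_neg (show ¬ K < 6000 by omega),
    if_neg (show ¬ K < 10000 by omega),
    if_neg (show ¬ K < 14000 by omega),
    if_neg (show ¬ K < 30000 by omega)]
  norm_num

theorem cc22 {K : ℕ} (h1 : 120000 ≤ K) : ccR K = 39 / 1000 := by
  simp only [ccR, betaK, wLR, Pot.potF, Pot.potU, if_neg (show ¬ K < 4970 by omega),
    if_neg (show ¬ K < 5138 by omega),
    if_neg (show ¬ K < 5312 by omega),
    if_neg (show ¬ K < 5492 by omega),
    if_neg (show ¬ K < 5678 by omega),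
    if_neg (show ¬ K < 5871 by omega),
    if_neg (show ¬ K < 6070 by omega),
    if_neg (show ¬ K < 6488 by omega),
    if_neg (show ¬ K < 6936 by omega),
    if_neg (show ¬ K < 7414 by omega),
    if_neg (show ¬ K < 7925 by omega),
    if_neg (show ¬ K < 8471 by omega),
    if_neg (show ¬ K < 9362 by omega),
    if_neg (show ¬ K < 10347 by omega),
    if_neg (show ¬ K < 11822 by omega),
    if_neg (show ¬ K < 13967 by omega),
    if_neg (show ¬ K < 60000 by omega),
    if_neg (show ¬ K < 120000 by omega),
    if_neg (show ¬ K < 6000 by omega),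
    if_neg (show ¬ K < 10000 by omega),
    if_neg (show ¬ K < 14000 by omega),
    if_neg (show ¬ K < 30000 by omega)]
  norm_num

theorem lim_lemma {x KB L K : ℕ} {c : ℝ} (h : x * KB ≤ L) (hK : K ≤ KB) (hK0 : 1 ≤ K)
    (hL : (L : ℝ) * 2 ^ 64 ≤ 3 * c * (SC : ℝ)) : (x : ℝ) * (2 ^ 64 / (SC : ℝ)) ≤ c * (3 / (K : ℝ)) := by
  have h0 := SC_pos
  have hK' : (0 : ℝ) < K := by exact_mod_cast hK0
  have h1 : (x : ℝ) * K ≤ L := by
    have : x * K ≤ L := (Nat.mul_le_mul_left _ hK).trans h
    exact_mod_cast this
  rw [← mul_div_assoc, ← mul_div_assoc, div_le_div_iff₀ h0 hK']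
  calc (x : ℝ) * 2 ^ 64 * K = (x * K) * 2 ^ 64 := by ring
    _ ≤ (L : ℝ) * 2 ^ 64 := mul_le_mul_of_nonneg_right h1 (by positivity)
    _ ≤ 3 * c * (SC : ℝ) := hL
    _ = c * 3 * (SC : ℝ) := by ring

theorem leaf_ok {s x K : ℕ} (hK0 : 1600 ≤ K) (hK1 : K < 1048576) (h : leafR s (posK K) x = true) :
    ((x : ℝ) + (if K < 13967 then (s : ℝ) else 0)) * (2 ^ 64 / (SC : ℝ)) ≤ ccR K * (3 / (K : ℝ)) := by
  have hqb : posK K < 31040 := by
    unfold posK
    split_ifs <;> omega
  obtain ⟨q, hq⟩ : ∃ q, posK K = q := ⟨_, rfl⟩
  rw [hq] at h hqb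
  unfold leafR at h
  rcases selZ_true h with ⟨hb, _⟩ | ⟨_, h⟩
  · have hb : 31040 ≤ q := Nat.le_of_ble_eq_true hb
    omega
  rcases selZ_true h with ⟨hb, h⟩ | ⟨hb, h⟩
  · have hb : q ≤ 6870 := Nat.le_of_ble_eq_true hb
    rcases selZ_true h with ⟨hb, h⟩ | ⟨hb, h⟩
    · have hb : q ≤ 4270 := Nat.le_of_ble_eq_true hb
      rcases selZ_true h with ⟨hb, h⟩ | ⟨hb, h⟩
      · have hb : q ≤ 3711 := Nat.le_of_ble_eq_true hb
        rcases selZ_true h with ⟨hb, h⟩ | ⟨hb, h⟩
        · have hb : q ≤ 3369 := Nat.le_of_ble_eq_true hb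
          have hq1 : 0 ≤ q := by omega
          have hq2 : q < 3370 := by omega
          have h : (x + s) * (q + 1600) ≤ 4330809721346 := Nat.le_of_ble_eq_true h
          have hK : 1600 ≤ K ∧ K < 4970 ∧ K ≤ q + 1600 := by
            rw [← hq] at hq1 hq2 ⊢
            unfold posK at hq1 hq2 ⊢
            split_ifs at hq1 hq2 ⊢ <;> omega
          rw [if_pos (by omega : K < 13967), cc0 (by omega) (by omega)]
          have := lim_lemma (x := x + s) (KB := q + 1600) (K := K) (L := 4330809721346) (c := 85929 / 100000) h hK.2.2 (by omega) (by norm_num [SC])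
          push_cast at this
          exact this
        · have hb : 3369 < q := lt_of_ble_false hb
          rcases selZ_true h with ⟨hb, h⟩ | ⟨hb, h⟩
          · have hb : q ≤ 3537 := Nat.le_of_ble_eq_true hb
            have hq1 : 3370 ≤ q := by omega
            have hq2 : q < 3538 := by omega
            have h : (x + s) * (q + 1600) ≤ 3978010689012 := Nat.le_of_ble_eq_true h
            have hK : 4970 ≤ K ∧ K < 5138 ∧ K ≤ q + 1600 := by
              rw [← hq] at hq1 hq2 ⊢
              unfold posK at hq1 hq2 ⊢
              split_ifs at hq1 hq2 ⊢ <;> omega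
            rw [if_pos (by omega : K < 13967), cc1 (by omega) (by omega)]
            have := lim_lemma (x := x + s) (KB := q + 1600) (K := K) (L := 3978010689012) (c := 78929 / 100000) h hK.2.2 (by omega) (by norm_num [SC])
            push_cast at this
            exact this
          · have hb : 3537 < q := lt_of_ble_false hb
            have hq1 : 3538 ≤ q := by omega
            have hq2 : q < 3712 := by omega
            have h : (x + s) * (q + 1600) ≤ 3625211656678 := Nat.le_of_ble_eq_true h
            have hK : 5138 ≤ K ∧ K < 5312 ∧ K ≤ q + 1600 := by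
              rw [← hq] at hq1 hq2 ⊢
              unfold posK at hq1 hq2 ⊢
              split_ifs at hq1 hq2 ⊢ <;> omega
            rw [if_pos (by omega : K < 13967), cc2 (by omega) (by omega)]
            have := lim_lemma (x := x + s) (KB := q + 1600) (K := K) (L := 3625211656678) (c := 71929 / 100000) h hK.2.2 (by omega) (by norm_num [SC])
            push_cast at this
            exact this
      · have hb : 3711 < q := lt_of_ble_false hb
        rcases selZ_true h with ⟨hb, h⟩ | ⟨hb, h⟩
        · have hb : q ≤ 3891 := Nat.le_of_ble_eq_true hb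
          have hq1 : 3712 ≤ q := by omega
          have hq2 : q < 3892 := by omega
          have h : (x + s) * (q + 1600) ≤ 3297612555225 := Nat.le_of_ble_eq_true h
          have hK : 5312 ≤ K ∧ K < 5492 ∧ K ≤ q + 1600 := by
            rw [← hq] at hq1 hq2 ⊢
            unfold posK at hq1 hq2 ⊢
            split_ifs at hq1 hq2 ⊢ <;> omega
          rw [if_pos (by omega : K < 13967), cc3 (by omega) (by omega)]
          have := lim_lemma (x := x + s) (KB := q + 1600) (K := K) (L := 3297612555225) (c := 65429 / 100000) h hK.2.2 (by omega) (by norm_num [SC])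
          push_cast at this
          exact this
        · have hb : 3891 < q := lt_of_ble_false hb
          rcases selZ_true h with ⟨hb, h⟩ | ⟨hb, h⟩
          · have hb : q ≤ 4077 := Nat.le_of_ble_eq_true hb
            have hq1 : 3892 ≤ q := by omega
            have hq2 : q < 4078 := by omega
            have h : (x + s) * (q + 1600) ≤ 2995213384653 := Nat.le_of_ble_eq_true h
            have hK : 5492 ≤ K ∧ K < 5678 ∧ K ≤ q + 1600 := by
              rw [← hq] at hq1 hq2 ⊢
              unfold posK at hq1 hq2 ⊢
              split_ifs at hq1 hq2 ⊢ <;> omega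
            rw [if_pos (by omega : K < 13967), cc4 (by omega) (by omega)]
            have := lim_lemma (x := x + s) (KB := q + 1600) (K := K) (L := 2995213384653) (c := 59429 / 100000) h hK.2.2 (by omega) (by norm_num [SC])
            push_cast at this
            exact this
          · have hb : 4077 < q := lt_of_ble_false hb
            have hq1 : 4078 ≤ q := by omega
            have hq2 : q < 4271 := by omega
            have h : (x + s) * (q + 1600) ≤ 2718014144962 := Nat.le_of_ble_eq_true h
            have hK : 5678 ≤ K ∧ K < 5871 ∧ K ≤ q + 1600 := by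
              rw [← hq] at hq1 hq2 ⊢
              unfold posK at hq1 hq2 ⊢
              split_ifs at hq1 hq2 ⊢ <;> omega
            rw [if_pos (by omega : K < 13967), cc5 (by omega) (by omega)]
            have := lim_lemma (x := x + s) (KB := q + 1600) (K := K) (L := 2718014144962) (c := 53929 / 100000) h hK.2.2 (by omega) (by norm_num [SC])
            push_cast at this
            exact this
    · have hb : 4270 < q := lt_of_ble_false hb
      rcases selZ_true h with ⟨hb, h⟩ | ⟨hb, h⟩
      · have hb : q ≤ 4887 := Nat.le_of_ble_eq_true hb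
        rcases selZ_true h with ⟨hb, h⟩ | ⟨hb, h⟩
        · have hb : q ≤ 4399 := Nat.le_of_ble_eq_true hb
          have hq1 : 4271 ≤ q := by omega
          have hq2 : q < 4400 := by omega
          have h : (x + s) * (q + 1600) ≤ 2491214767033 := Nat.le_of_ble_eq_true h
          have hK : 5871 ≤ K ∧ K < 6000 ∧ K ≤ q + 1600 := by
            rw [← hq] at hq1 hq2 ⊢
            unfold posK at hq1 hq2 ⊢
            split_ifs at hq1 hq2 ⊢ <;> omega
          rw [if_pos (by omega : K < 13967), cc6 (by omega) (by omega)]
          have := lim_lemma (x := x + s) (KB := q + 1600) (K := K) (L := 2491214767033) (c := 49429 / 100000) h hK.2.2 (by omega) (by norm_num [SC])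
          push_cast at this
          exact this
        · have hb : 4399 < q := lt_of_ble_false hb
          rcases selZ_true h with ⟨hb, h⟩ | ⟨hb, h⟩
          · have hb : q ≤ 4469 := Nat.le_of_ble_eq_true hb
            have hq1 : 4400 ≤ q := by omega
            have hq2 : q < 4470 := by omega
            have h : (x + s) * (q + 1600) ≤ 2488946773254 := Nat.le_of_ble_eq_true h
            have hK : 6000 ≤ K ∧ K < 6070 ∧ K ≤ q + 1600 := by
              rw [← hq] at hq1 hq2 ⊢
              unfold posK at hq1 hq2 ⊢
              split_ifs at hq1 hq2 ⊢ <;> omega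
            rw [if_pos (by omega : K < 13967), cc7 (by omega) (by omega)]
            have := lim_lemma (x := x + s) (KB := q + 1600) (K := K) (L := 2488946773254) (c := 6173 / 12500) h hK.2.2 (by omega) (by norm_num [SC])
            push_cast at this
            exact this
          · have hb : 4469 < q := lt_of_ble_false hb
            have hq1 : 4470 ≤ q := by omega
            have hq2 : q < 4888 := by omega
            have h : (x + s) * (q + 1600) ≤ 2060547948277 := Nat.le_of_ble_eq_true h
            have hK : 6070 ≤ K ∧ K < 6488 ∧ K ≤ q + 1600 := by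
              rw [← hq] at hq1 hq2 ⊢
              unfold posK at hq1 hq2 ⊢
              split_ifs at hq1 hq2 ⊢ <;> omega
            rw [if_pos (by omega : K < 13967), cc8 (by omega) (by omega)]
            have := lim_lemma (x := x + s) (KB := q + 1600) (K := K) (L := 2060547948277) (c := 10221 / 25000) h hK.2.2 (by omega) (by norm_num [SC])
            push_cast at this
            exact this
      · have hb : 4887 < q := lt_of_ble_false hb
        rcases selZ_true h with ⟨hb, h⟩ | ⟨hb, h⟩
        · have hb : q ≤ 5813 := Nat.le_of_ble_eq_true hb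
          rcases selZ_true h with ⟨hb, h⟩ | ⟨hb, h⟩
          · have hb : q ≤ 5335 := Nat.le_of_ble_eq_true hb
            have hq1 : 4888 ≤ q := by omega
            have hq2 : q < 5336 := by omega
            have h : (x + s) * (q + 1600) ≤ 1732948846824 := Nat.le_of_ble_eq_true h
            have hK : 6488 ≤ K ∧ K < 6936 ∧ K ≤ q + 1600 := by
              rw [← hq] at hq1 hq2 ⊢
              unfold posK at hq1 hq2 ⊢
              split_ifs at hq1 hq2 ⊢ <;> omega
            rw [if_pos (by omega : K < 13967), cc9 (by omega) (by omega)]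
            have := lim_lemma (x := x + s) (KB := q + 1600) (K := K) (L := 1732948846824) (c := 2149 / 6250) h hK.2.2 (by omega) (by norm_num [SC])
            push_cast at this
            exact this
          · have hb : 5335 < q := lt_of_ble_false hb
            have hq1 : 5336 ≤ q := by omega
            have hq2 : q < 5814 := by omega
            have h : (x + s) * (q + 1600) ≤ 1455749607133 := Nat.le_of_ble_eq_true h
            have hK : 6936 ≤ K ∧ K < 7414 ∧ K ≤ q + 1600 := by
              rw [← hq] at hq1 hq2 ⊢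
              unfold posK at hq1 hq2 ⊢
              split_ifs at hq1 hq2 ⊢ <;> omega
            rw [if_pos (by omega : K < 13967), cc10 (by omega) (by omega)]
            have := lim_lemma (x := x + s) (KB := q + 1600) (K := K) (L := 1455749607133) (c := 7221 / 25000) h hK.2.2 (by omega) (by norm_num [SC])
            push_cast at this
            exact this
        · have hb : 5813 < q := lt_of_ble_false hb
          rcases selZ_true h with ⟨hb, h⟩ | ⟨hb, h⟩
          · have hb : q ≤ 6324 := Nat.le_of_ble_eq_true hb
            have hq1 : 5814 ≤ q := by omega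
            have hq2 : q < 6325 := by omega
            have h : (x + s) * (q + 1600) ≤ 1228950229204 := Nat.le_of_ble_eq_true h
            have hK : 7414 ≤ K ∧ K < 7925 ∧ K ≤ q + 1600 := by
              rw [← hq] at hq1 hq2 ⊢
              unfold posK at hq1 hq2 ⊢
              split_ifs at hq1 hq2 ⊢ <;> omega
            rw [if_pos (by omega : K < 13967), cc11 (by omega) (by omega)]
            have := lim_lemma (x := x + s) (KB := q + 1600) (K := K) (L := 1228950229204) (c := 762 / 3125) h hK.2.2 (by omega) (by norm_num [SC])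
            push_cast at this
            exact this
          · have hb : 6324 < q := lt_of_ble_false hb
            have hq1 : 6325 ≤ q := by omega
            have hq2 : q < 6871 := by omega
            have h : (x + s) * (q + 1600) ≤ 1052550713037 := Nat.le_of_ble_eq_true h
            have hK : 7925 ≤ K ∧ K < 8471 ∧ K ≤ q + 1600 := by
              rw [← hq] at hq1 hq2 ⊢
              unfold posK at hq1 hq2 ⊢
              split_ifs at hq1 hq2 ⊢ <;> omega
            rw [if_pos (by omega : K < 13967), cc12 (by omega) (by omega)]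
            have := lim_lemma (x := x + s) (KB := q + 1600) (K := K) (L := 1052550713037) (c := 5221 / 25000) h hK.2.2 (by omega) (by norm_num [SC])
            push_cast at this
            exact this
  · have hb : 6870 < q := lt_of_ble_false hb
    rcases selZ_true h with ⟨hb, h⟩ | ⟨hb, h⟩
    · have hb : q ≤ 18879 := Nat.le_of_ble_eq_true hb
      rcases selZ_true h with ⟨hb, h⟩ | ⟨hb, h⟩
      · have hb : q ≤ 8746 := Nat.le_of_ble_eq_true hb
        rcases selZ_true h with ⟨hb, h⟩ | ⟨hb, h⟩
        · have hb : q ≤ 7761 := Nat.le_of_ble_eq_true hb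
          have hq1 : 6871 ≤ q := by omega
          have hq2 : q < 7762 := by omega
          have h : (x + s) * (q + 1600) ≤ 825751335108 := Nat.le_of_ble_eq_true h
          have hK : 8471 ≤ K ∧ K < 9362 ∧ K ≤ q + 1600 := by
            rw [← hq] at hq1 hq2 ⊢
            unfold posK at hq1 hq2 ⊢
            split_ifs at hq1 hq2 ⊢ <;> omega
          rw [if_pos (by omega : K < 13967), cc13 (by omega) (by omega)]
          have := lim_lemma (x := x + s) (KB := q + 1600) (K := K) (L := 825751335108) (c := 512 / 3125) h hK.2.2 (by omega) (by norm_num [SC])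
          push_cast at this
          exact this
        · have hb : 7761 < q := lt_of_ble_false hb
          rcases selZ_true h with ⟨hb, h⟩ | ⟨hb, h⟩
          · have hb : q ≤ 8399 := Nat.le_of_ble_eq_true hb
            have hq1 : 7762 ≤ q := by omega
            have hq2 : q < 8400 := by omega
            have h : (x + s) * (q + 1600) ≤ 674551749822 := Nat.le_of_ble_eq_true h
            have hK : 9362 ≤ K ∧ K < 10000 ∧ K ≤ q + 1600 := by
              rw [← hq] at hq1 hq2 ⊢
              unfold posK at hq1 hq2 ⊢
              split_ifs at hq1 hq2 ⊢ <;> omega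
            rw [if_pos (by omega : K < 13967), cc14 (by omega) (by omega)]
            have := lim_lemma (x := x + s) (KB := q + 1600) (K := K) (L := 674551749822) (c := 1673 / 12500) h hK.2.2 (by omega) (by norm_num [SC])
            push_cast at this
            exact this
          · have hb : 8399 < q := lt_of_ble_false hb
            have hq1 : 8400 ≤ q := by omega
            have hq2 : q < 8747 := by omega
            have h : (x + s) * (q + 1600) ≤ 671830157287 := Nat.le_of_ble_eq_true h
            have hK : 10000 ≤ K ∧ K < 10347 ∧ K ≤ q + 1600 := by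
              rw [← hq] at hq1 hq2 ⊢
              unfold posK at hq1 hq2 ⊢
              split_ifs at hq1 hq2 ⊢ <;> omega
            rw [if_pos (by omega : K < 13967), cc15 (by omega) (by omega)]
            have := lim_lemma (x := x + s) (KB := q + 1600) (K := K) (L := 671830157287) (c := 1333 / 10000) h hK.2.2 (by omega) (by norm_num [SC])
            push_cast at this
            exact this
      · have hb : 8746 < q := lt_of_ble_false hb
        rcases selZ_true h with ⟨hb, h⟩ | ⟨hb, h⟩
        · have hb : q ≤ 12366 := Nat.le_of_ble_eq_true hb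
          rcases selZ_true h with ⟨hb, h⟩ | ⟨hb, h⟩
          · have hb : q ≤ 10221 := Nat.le_of_ble_eq_true hb
            have hq1 : 8747 ≤ q := by omega
            have hq2 : q < 10222 := by omega
            have h : (x + s) * (q + 1600) ≤ 520630572001 := Nat.le_of_ble_eq_true h
            have hK : 10347 ≤ K ∧ K < 11822 ∧ K ≤ q + 1600 := by
              rw [← hq] at hq1 hq2 ⊢
              unfold posK at hq1 hq2 ⊢
              split_ifs at hq1 hq2 ⊢ <;> omega
            rw [if_pos (by omega : K < 13967), cc16 (by omega) (by omega)]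
            have := lim_lemma (x := x + s) (KB := q + 1600) (K := K) (L := 520630572001) (c := 1033 / 10000) h hK.2.2 (by omega) (by norm_num [SC])
            push_cast at this
            exact this
          · have hb : 10221 < q := lt_of_ble_false hb
            have hq1 : 10222 ≤ q := by omega
            have hq2 : q < 12367 := by omega
            have h : (x + s) * (q + 1600) ≤ 394630917596 := Nat.le_of_ble_eq_true h
            have hK : 11822 ≤ K ∧ K < 13967 ∧ K ≤ q + 1600 := by
              rw [← hq] at hq1 hq2 ⊢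
              unfold posK at hq1 hq2 ⊢
              split_ifs at hq1 hq2 ⊢ <;> omega
            rw [if_pos (by omega : K < 13967), cc17 (by omega) (by omega)]
            have := lim_lemma (x := x + s) (KB := q + 1600) (K := K) (L := 394630917596) (c := 783 / 10000) h hK.2.2 (by omega) (by norm_num [SC])
            push_cast at this
            exact this
        · have hb : 12366 < q := lt_of_ble_false hb
          rcases selZ_true h with ⟨hb, h⟩ | ⟨hb, h⟩
          · have hb : q ≤ 12399 := Nat.le_of_ble_eq_true hb
            have hq1 : 12367 ≤ q := by omega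
            have hq2 : q < 12400 := by omega
            have h : (x) * (q + 1600) ≤ 246959322633 := Nat.le_of_ble_eq_true h
            have hK : 13967 ≤ K ∧ K < 14000 ∧ K ≤ q + 1600 := by
              rw [← hq] at hq1 hq2 ⊢
              unfold posK at hq1 hq2 ⊢
              split_ifs at hq1 hq2 ⊢ <;> omega
            rw [if_neg (by omega : ¬ K < 13967), cc18 (by omega) (by omega), add_zero]
            have := lim_lemma (x := x) (KB := q + 1600) (K := K) (L := 246959322633) (c := 49 / 1000) h hK.2.2 (by omega) (by norm_num [SC])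
            exact this
          · have hb : 12399 < q := lt_of_ble_false hb
            have hq1 : 12400 ≤ q := by omega
            have hq2 : q < 18880 := by omega
            have h : (x) * (q + 1600) ≤ 230780967008 := Nat.le_of_ble_eq_true h
            have hK : 14000 ≤ K ∧ K < 20480 ∧ K ≤ q + 1600 := by
              rw [← hq] at hq1 hq2 ⊢
              unfold posK at hq1 hq2 ⊢
              split_ifs at hq1 hq2 ⊢ <;> omega
            rw [if_neg (by omega : ¬ K < 13967), cc19 (by omega) (by omega), add_zero]
            have := lim_lemma (x := x) (KB := q + 1600) (K := K) (L := 230780967008) (c := 4579 / 100000) h hK.2.2 (by omega) (by norm_num [SC])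
            exact this
    · have hb : 18879 < q := lt_of_ble_false hb
      rcases selZ_true h with ⟨hb, h⟩ | ⟨hb, h⟩
      · have hb : q ≤ 24511 := Nat.le_of_ble_eq_true hb
        rcases selZ_true h with ⟨hb, h⟩ | ⟨hb, h⟩
        · have hb : q ≤ 20069 := Nat.le_of_ble_eq_true hb
          have hq1 : 18880 ≤ q := by omega
          have hq2 : q < 20070 := by omega
          have h : (x) * (8 * q - 130553) ≤ 230780967008 := Nat.le_of_ble_eq_true h
          have hK : 20480 ≤ K ∧ K < 30000 ∧ K ≤ 8 * q - 130553 := by
            rw [← hq] at hq1 hq2 ⊢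
            unfold posK at hq1 hq2 ⊢
            split_ifs at hq1 hq2 ⊢ <;> omega
          rw [if_neg (by omega : ¬ K < 13967), cc19 (by omega) (by omega), add_zero]
          have := lim_lemma (x := x) (KB := 8 * q - 130553) (K := K) (L := 230780967008) (c := 4579 / 100000) h hK.2.2 (by omega) (by norm_num [SC])
          exact this
        · have hb : 20069 < q := lt_of_ble_false hb
          rcases selZ_true h with ⟨hb, h⟩ | ⟨hb, h⟩
          · have hb : q ≤ 23819 := Nat.le_of_ble_eq_true hb
            have hq1 : 20070 ≤ q := by omega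
            have hq2 : q < 23820 := by omega
            have h : (x) * (8 * q - 130553) ≤ 214199412488 := Nat.le_of_ble_eq_true h
            have hK : 30000 ≤ K ∧ K < 60000 ∧ K ≤ 8 * q - 130553 := by
              rw [← hq] at hq1 hq2 ⊢
              unfold posK at hq1 hq2 ⊢
              split_ifs at hq1 hq2 ⊢ <;> omega
            rw [if_neg (by omega : ¬ K < 13967), cc20 (by omega) (by omega), add_zero]
            have := lim_lemma (x := x) (KB := 8 * q - 130553) (K := K) (L := 214199412488) (c := 17 / 400) h hK.2.2 (by omega) (by norm_num [SC])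
            exact this
          · have hb : 23819 < q := lt_of_ble_false hb
            have hq1 : 23820 ≤ q := by omega
            have hq2 : q < 24512 := by omega
            have h : (x) * (8 * q - 130553) ≤ 283247223102 := Nat.le_of_ble_eq_true h
            have hK : 60000 ≤ K ∧ K < 65536 ∧ K ≤ 8 * q - 130553 := by
              rw [← hq] at hq1 hq2 ⊢
              unfold posK at hq1 hq2 ⊢
              split_ifs at hq1 hq2 ⊢ <;> omega
            rw [if_neg (by omega : ¬ K < 13967), cc21 (by omega) (by omega), add_zero]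
            have := lim_lemma (x := x) (KB := 8 * q - 130553) (K := K) (L := 283247223102) (c := 281 / 5000) h hK.2.2 (by omega) (by norm_num [SC])
            exact this
      · have hb : 24511 < q := lt_of_ble_false hb
        rcases selZ_true h with ⟨hb, h⟩ | ⟨hb, h⟩
        · have hb : q ≤ 28607 := Nat.le_of_ble_eq_true hb
          rcases selZ_true h with ⟨hb, h⟩ | ⟨hb, h⟩
          · have hb : q ≤ 27915 := Nat.le_of_ble_eq_true hb
            have hq1 : 24512 ≤ q := by omega
            have hq2 : q < 27916 := by omega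
            have h : (x) * (16 * q - 326641) ≤ 283247223102 := Nat.le_of_ble_eq_true h
            have hK : 65536 ≤ K ∧ K < 120000 ∧ K ≤ 16 * q - 326641 := by
              rw [← hq] at hq1 hq2 ⊢
              unfold posK at hq1 hq2 ⊢
              split_ifs at hq1 hq2 ⊢ <;> omega
            rw [if_neg (by omega : ¬ K < 13967), cc21 (by omega) (by omega), add_zero]
            have := lim_lemma (x := x) (KB := 16 * q - 326641) (K := K) (L := 283247223102) (c := 281 / 5000) h hK.2.2 (by omega) (by norm_num [SC])
            exact this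
          · have hb : 27915 < q := lt_of_ble_false hb
            have hq1 : 27916 ≤ q := by omega
            have hq2 : q < 28608 := by omega
            have h : (x) * (16 * q - 326641) ≤ 196559460871 := Nat.le_of_ble_eq_true h
            have hK : 120000 ≤ K ∧ K < 131072 ∧ K ≤ 16 * q - 326641 := by
              rw [← hq] at hq1 hq2 ⊢
              unfold posK at hq1 hq2 ⊢
              split_ifs at hq1 hq2 ⊢ <;> omega
            rw [if_neg (by omega : ¬ K < 13967), cc22 (by omega), add_zero]
            have := lim_lemma (x := x) (KB := 16 * q - 326641) (K := K) (L := 196559460871) (c := 39 / 1000) h hK.2.2 (by omega) (by norm_num [SC])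
            exact this
        · have hb : 28607 < q := lt_of_ble_false hb
          rcases selZ_true h with ⟨hb, h⟩ | ⟨hb, h⟩
          · have hb : q ≤ 30655 := Nat.le_of_ble_eq_true hb
            have hq1 : 28608 ≤ q := by omega
            have hq2 : q < 30656 := by omega
            have h : (x) * (64 * q - 1699777) ≤ 196559460871 := Nat.le_of_ble_eq_true h
            have hK : 131072 ≤ K ∧ K < 262144 ∧ K ≤ 64 * q - 1699777 := by
              rw [← hq] at hq1 hq2 ⊢
              unfold posK at hq1 hq2 ⊢
              split_ifs at hq1 hq2 ⊢ <;> omega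
            rw [if_neg (by omega : ¬ K < 13967), cc22 (by omega), add_zero]
            have := lim_lemma (x := x) (KB := 64 * q - 1699777) (K := K) (L := 196559460871) (c := 39 / 1000) h hK.2.2 (by omega) (by norm_num [SC])
            exact this
          · have hb : 30655 < q := lt_of_ble_false hb
            have hq1 : 30656 ≤ q := by omega
            have hq2 : q < 31040 := by omega
            have h : (x) * (2048 * q - 62519297) ≤ 196559460871 := Nat.le_of_ble_eq_true h
            have hK : 262144 ≤ K ∧ K < 1048576 ∧ K ≤ 2048 * q - 62519297 := by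
              rw [← hq] at hq1 hq2 ⊢
              unfold posK at hq1 hq2 ⊢
              split_ifs at hq1 hq2 ⊢ <;> omega
            rw [if_neg (by omega : ¬ K < 13967), cc22 (by omega), add_zero]
            have := lim_lemma (x := x) (KB := 2048 * q - 62519297) (K := K) (L := 196559460871) (c := 39 / 1000) h hK.2.2 (by omega) (by norm_num [SC])
            exact this


theorem ccR_nonneg {K : ℕ} (hK : 1048576 ≤ K) : 0 ≤ ccR K := by
  rw [cc22 (by omega)]
  norm_num

/-! ## the final statement -/

theorem digR_eq (A q : ℕ) : digR A q = A / 2 ^ (64 * q) % 2 ^ 64 := by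
  have e : Nat.shiftRight A (Nat.mul 64 q) = A / 2 ^ (64 * q) := by
    show A >>> (64 * q) = _
    rw [Nat.shiftRight_eq_div_pow]
  have e2 : digR A q = (Nat.shiftRight A (Nat.mul 64 q)) % 18446744073709551616 := rfl
  rw [e2, e]
  norm_num

/-- the bits of the walls, a priori -/
def WallHyp (QB : ℕ × ℕ × ℕ → Multiset Obj) (WOK : ℕ × ℕ × ℕ → Prop) : Prop :=
  ∀ W : Multiset (ℕ × ℕ × ℕ), (∀ w ∈ W, WOK w) → wnum W ≤ (Finset.Ico 941 MM2.NN).val →
    (∀ o ∈ (W.map QB).sum, OInv (MM2.Th (i0 - 1)) o) ∧ potOf ((W.map QB).sum) = 0 ∧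
    ∀ K, i0 ≤ K → lenK K (cellsOf ((W.map QB).sum)) ≤ wLR K * (3 / (K : ℝ)) +
      (if K < 13967 then (W.map s1W).sum else 0)

theorem last_check {QB : ℕ × ℕ × ℕ → Multiset Obj} {WOK : ℕ × ℕ × ℕ → Prop} (hW : WallHyp QB WOK) {A T P : ℕ}
    (h : chkZ A T P = true) {W : Multiset (ℕ × ℕ × ℕ)} {O : Multiset ℕ} {Q : Multiset Obj} {B : Multiset (ℝ × ℝ)}
    (hP : PD QB WOK A T P W O Q B) (hn : wnum W + O ≤ (Finset.Ico 941 MM2.NN).val) : FinProp Q B := by
  obtain ⟨E, hA, hT, Qc, Qb, C, D, rfl, hE⟩ := hP
  unfold chkZ at h
  rw [thenB_iff, thenB_iff, thenB_iff, thenB_iff, frc_eq] at h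
  obtain ⟨c1, c2, c3, c4, c5⟩ := h
  have c1 : T ≤ 18446744073709551615 := Nat.le_of_ble_eq_true c1
  have c2 : P ≤ 60687548879295601634157303370 := Nat.le_of_ble_eq_true c2
  have hT2 : T < 2 ^ 64 := by norm_num; omega
  have hdig := fun q => field_digit hA hT hT2 q
  have hAlt : A < 2 ^ 2097152 := by
    have c3 : A >>> 2097152 = 0 := Nat.eq_of_beq_eq_true c3
    rw [Nat.shiftRight_eq_div_pow] at c3
    exact (Nat.div_eq_zero_iff_lt (Nat.two_pow_pos _)).1 c3
  have c4 : digR A 31041 = 1 := Nat.eq_of_beq_eq_true c4
  have c5 : zR (digR A 31040) 15 A 0 16384 = true := c5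
  rw [digR_eq, ← hdig] at c4
  rw [digR_eq, ← hdig] at c5
  have hleaf := zR_spec _ 15 A 0 16384 c5 (by
    intro n hn
    have : n = 14 := by omega
    subst this
    norm_num) (by
      refine lt_of_lt_of_eq hAlt ?_
      congr 1)
  -- walls
  have hWn : wnum W ≤ (Finset.Ico 941 MM2.NN).val := (Multiset.le_add_right _ _).trans hn
  obtain ⟨w1, w2, w3⟩ := hW W hE.wok hWn
  rw [← hE.bits] at w1 w2 w3
  -- potential bits
  have hOn : O.Nodup := Multiset.nodup_of_le ((Multiset.le_add_left _ _).trans hn) (Finset.nodup _)
  have hun : (Pot.unitsC (C + D)).Nodup := Multiset.nodup_of_le hE.units hOn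
  obtain ⟨p1, p2, p3⟩ := Pot.chains_pot C D (fun c hc => by have := hE.kok c hc; omega) hun hE.cok hE.dok
  have hpot : potOf (Qc + Qb) = potOf (C.map Pot.objF + D.map Pot.objU) := by
    rw [Pot.potOf_add, w2, add_zero, hE.pots]
  have h0 := SC_pos
  refine ⟨?_, ?_, ?_, ?_, ?_⟩
  · -- box
    have hb : B.card = 1 := by rw [hE.boxn, c4]
    obtain ⟨p, hp⟩ := Multiset.card_eq_one.1 hb
    refine ⟨p.1, p.2, hp, ?_⟩
    exact hE.box p (by rw [hp]; exact Multiset.mem_singleton_self _)
  · intro o ho
    rcases Multiset.mem_add.1 ho with ho | ho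
    · exact hE.inv o ho
    · exact w1 o ho
  · -- load
    intro K hK
    have hK' : 1600 ≤ K := hK
    have hKr : (0 : ℝ) < K := by exact_mod_cast (by omega : 0 < K)
    rw [hpot, cellsOf_add, lenK_add]
    have l1 := hE.len K hK
    have l2 := w3 K hK
    have l3 := p1 K hK
    have u0 : (SC : ℝ) / 2 ^ 64 * (2 ^ 64 / (SC : ℝ)) = 1 := by
      have : (SC : ℝ) ≠ 0 := h0.ne'
      field_simp
    have u1 : (0 : ℝ) ≤ 2 ^ 64 / (SC : ℝ) := div_nonneg (pow_nonneg (by norm_num) _) h0.le
    have l1' : lenK K (cellsOf Qc) ≤ (fieldS (posK K) E : ℝ) * (2 ^ 64 / (SC : ℝ)) := by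
      calc lenK K (cellsOf Qc) = lenK K (cellsOf Qc) * ((SC : ℝ) / 2 ^ 64) * (2 ^ 64 / (SC : ℝ)) := by
            rw [mul_assoc, u0, mul_one]
        _ ≤ _ := mul_le_mul_of_nonneg_right l1 u1
    have s1' : (W.map s1W).sum ≤ (fieldS 31040 E : ℝ) * (2 ^ 64 / (SC : ℝ)) := by
      calc (W.map s1W).sum = (W.map s1W).sum * ((SC : ℝ) / 2 ^ 64) * (2 ^ 64 / (SC : ℝ)) := by
            rw [mul_assoc, u0, mul_one]
        _ ≤ _ := mul_le_mul_of_nonneg_right hE.s1 u1
    have hcc : betaK K = ccR K + wLR K + (Pot.potF K + Pot.potU K) := by unfold ccR; ring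
    have key : (fieldS (posK K) E : ℝ) * (2 ^ 64 / (SC : ℝ)) + (if K < 13967 then (W.map s1W).sum else 0) ≤
        ccR K * (3 / (K : ℝ)) := by
      rcases Nat.lt_or_ge K 1048576 with h1 | h1
      · have hq : posK K < 2 ^ 15 := by
          unfold posK
          norm_num
          split_ifs <;> omega
        have hl := hleaf (posK K) hq
        rw [zero_add, ← hdig] at hl
        have := leaf_ok hK' h1 hl
        refine le_trans ?_ this
        rw [add_mul]
        refine add_le_add_right ?_ _
        split_ifs
        · exact s1'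
        · simp
      · have e : posK K = 50000 := by
          unfold posK
          rw [if_neg (by omega), if_neg (by omega), if_neg (by omega), if_neg (by omega), if_neg (by omega)]
        have e2 : fieldS (posK K) E = 0 := by
          rw [e, hdig, Nat.div_eq_of_lt (lt_of_lt_of_le hAlt (Nat.pow_le_pow_right (by norm_num) (by norm_num))), Nat.zero_mod]
        rw [e2, if_neg (by omega)]
        have := ccR_nonneg h1
        rw [Nat.cast_zero, zero_mul, add_zero]
        exact mul_nonneg this (div_nonneg (by norm_num) hKr.le)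
    rw [hcc]
    have e3 : (ccR K + wLR K + (Pot.potF K + Pot.potU K)) * (3 / (K : ℝ)) =
        ccR K * (3 / (K : ℝ)) + wLR K * (3 / (K : ℝ)) + (Pot.potF K + Pot.potU K) * (3 / (K : ℝ)) := by ring
    rw [e3]
    linarith
  · -- psi
    have q1 := hE.psi
    unfold psi1 psi2 at q1
    have q2 : (P : ℝ) ≤ ((60687548879295601634157303370 : ℕ) : ℝ) := Nat.cast_le.2 c2
    rw [Nat.cast_ofNat] at q2
    have hS : (SC : ℝ) = 30990445042459967064000000000000 := by norm_num [SC]
    have q4 : ((301 / 100) * ((Qc + Qb).map (fun o => ∑ K ∈ touched o, MM2.Th (K - 1))).sum +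
        (302 / 100) * ((cellsOf (Qc + Qb)).map (fun c => (52 / (kc c.1 : ℝ)) * MM2.Th (kc c.1 - 1))).sum +
        (16 / 5) * ((potOf (Qc + Qb)).map (fun p => MM2.Th (kc p.1 - 1))).sum) ≤
        (3115 / 1000) * 60687548879295601634157303370 / (SC : ℝ) := by
      rw [le_div_iff₀ h0]
      refine q1.trans ?_
      have := mul_le_mul_of_nonneg_left q2 (by norm_num : (0:ℝ) ≤ 3115 / 1000)
      exact this
    refine q4.trans ?_
    rw [hS]
    norm_num
  · -- potk
    rw [hpot]
    exact p2

end Pool.Agent.MMS.Fi
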