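import Pool.Agent.MP_94f265_co.ST.FinDef
import Pool.Agent.MP_94f265_co.ST.Glue


/-!
# Final state check: meaning of the events
-/



namespace Pool.Agent.MMS.Fi

open Pool.Agent.MM1 Pool.Agent.MM2

/-! ## states and events -/

/-- the number given by the tables -/
def TAB : Sta → ℕ
  | .mk _ _ a0 a1 a2 a3 a4 a5 a6 a7 a8 a9 a10 a11 a12 a13 a14 a15 a16 => a0 + a1 * 2 ^ 65536 + a2 * 2 ^ 131072 + a3 * 2 ^ 196608 + a4 * 2 ^ 262144 + a5 * 2 ^ 393216 + a6 * 2 ^ 524288 + a7 * 2 ^ 655360 + a8 * 2 ^ 786432 + a9 * 2 ^ 997376 + a10 * 2 ^ 1208320 + a11 * 2 ^ 1298432 + a12 * 2 ^ 1388544 + a13 * 2 ^ 1478656 + a14 * 2 ^ 1568768 + a15 * 2 ^ 1699840 + a16 * 2 ^ 1830912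

/-- the total -/
def tS : Sta → ℕ
  | .mk t _ _ _ _ _ _ _ _ _ _ _ _ _ _ _ _ _ _ => t

/-- the potential -/
def pS : Sta → ℕ
  | .mk _ p _ _ _ _ _ _ _ _ _ _ _ _ _ _ _ _ _ => p

/-- the number of a list of events `(position, units)` -/
def tabS (E : List (ℕ × ℕ)) : ℕ := (E.map (fun e => e.2 * 2 ^ (64 * e.1))).sum

/-- the total of a list of events -/
def totS (E : List (ℕ × ℕ)) : ℕ := (E.map (fun e => e.2)).sum

/-- the units at the position `q` -/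
def fieldS (q : ℕ) (E : List (ℕ × ℕ)) : ℕ := (E.map (fun e => if e.1 = q then e.2 else 0)).sum

theorem tabS_nil : tabS [] = 0 := rfl
theorem totS_nil : totS [] = 0 := rfl
theorem fieldS_nil (q : ℕ) : fieldS q [] = 0 := rfl

theorem tabS_append (E F : List (ℕ × ℕ)) : tabS (E ++ F) = tabS E + tabS F := by simp [tabS]
theorem totS_append (E F : List (ℕ × ℕ)) : totS (E ++ F) = totS E + totS F := by simp [totS]
theorem fieldS_append (q : ℕ) (E F : List (ℕ × ℕ)) : fieldS q (E ++ F) = fieldS q E + fieldS q F := by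
  simp [fieldS]

theorem tabS_single (q v : ℕ) : tabS [(q, v)] = v * 2 ^ (64 * q) := by simp [tabS]
theorem totS_single (q v : ℕ) : totS [(q, v)] = v := by simp [totS]
theorem fieldS_single (q q' v : ℕ) : fieldS q [(q', v)] = if q' = q then v else 0 := by simp [fieldS]

/-- `F` adds events `E` and the potential `Ψ` with the property `G E Ψ`. -/
def Ev (F : At → At) (G : List (ℕ × ℕ) → ℕ → Prop) : Prop :=
  ∀ (f : At) (h : ℕ) (hs : List ℕ) (s : Sta), F f h hs s = true →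
    ∃ (h' : ℕ) (hs' : List ℕ) (s' : Sta) (E : List (ℕ × ℕ)) (Ψ : ℕ), f h' hs' s' = true ∧
      TAB s' = TAB s + tabS E ∧ tS s + totS E ≤ tS s' ∧ pS s' = pS s + Ψ ∧ G E Ψ

/-- the sum of two properties -/
def EAdd (G G' : List (ℕ × ℕ) → ℕ → Prop) (E : List (ℕ × ℕ)) (Ψ : ℕ) : Prop :=
  ∃ E1 E2 Ψ1 Ψ2, G E1 Ψ1 ∧ G' E2 Ψ2 ∧ E = E1 ++ E2 ∧ Ψ = Ψ1 + Ψ2

theorem Ev.mono {F : At → At} {G G' : List (ℕ × ℕ) → ℕ → Prop} (h : Ev F G) (hG : ∀ E Ψ, G E Ψ → G' E Ψ) :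
    Ev F G' := by
  intro f x hs s hf
  obtain ⟨h', hs', s', E, Ψ, h1, h2, h3, h4, h5⟩ := h f x hs s hf
  exact ⟨h', hs', s', E, Ψ, h1, h2, h3, h4, hG _ _ h5⟩

theorem Ev_id : Ev (fun f => f) (fun E Ψ => E = [] ∧ Ψ = 0) := by
  intro f x hs s hf
  exact ⟨x, hs, s, [], 0, hf, by rw [tabS_nil, add_zero], by rw [totS_nil, add_zero], by rw [add_zero], rfl, rfl⟩

theorem Ev.comp {F F' : At → At} {G G' : List (ℕ × ℕ) → ℕ → Prop} (h : Ev F G) (h' : Ev F' G') :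
    Ev (fun f => F (F' f)) (EAdd G G') := by
  intro f x hs s hf
  obtain ⟨x1, hs1, s1, E1, Ψ1, a1, a2, a3, a4, a5⟩ := h (F' f) x hs s hf
  obtain ⟨x2, hs2, s2, E2, Ψ2, b1, b2, b3, b4, b5⟩ := h' f x1 hs1 s1 a1
  refine ⟨x2, hs2, s2, E1 ++ E2, Ψ1 + Ψ2, b1, ?_, ?_, ?_, E1, E2, Ψ1, Ψ2, a5, b5, rfl, rfl⟩
  · rw [b2, a2, tabS_append, add_assoc]
  · rw [totS_append]
    omega
  · rw [b4, a4, add_assoc]

theorem Ev_no (G : List (ℕ × ℕ) → ℕ → Prop) : Ev (fun _ => noA) G := by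
  intro f x hs s hf
  exact absurd hf (by simp [noA])

theorem selA_true (x y : At) : selA true x y = x := rfl
theorem selA_false (x y : At) : selA false x y = y := rfl
theorem thenB_true (x : Bool) : thenB true x = x := rfl
theorem thenB_false (x : Bool) : thenB false x = false := rfl

theorem thenB_iff {x y : Bool} : thenB x y = true ↔ x = true ∧ y = true := by
  cases x
  · rw [thenB_false]; simp
  · rw [thenB_true]; simp

theorem Ev_sel {b : Bool} {F F' : At → At} {G : List (ℕ × ℕ) → ℕ → Prop} (h : b = true → Ev F G)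
    (h' : b = false → Ev F' G) : Ev (fun f => selA b (F f) (F' f)) G := by
  cases b with
  | true => exact h rfl
  | false => exact h' rfl

theorem frc_eq {α : Type} (x : ℕ) (y : α) : frc x y = y := by
  unfold frc
  cases Nat.ble x 0 <;> rfl

theorem Ev_rd {κ : At → ℕ → At} {G : List (ℕ × ℕ) → ℕ → Prop} (h : ∀ q, Ev (fun f => κ f q) G) :
    Ev (fun f => rd (κ f)) G := by
  intro f x hs s hf
  have hf : rd (κ f) x hs s = true := hf
  unfold rd at hf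
  cases hb : Nat.beq x 1 with
  | false =>
    rw [hb] at hf
    exact h _ f _ _ _ hf
  | true =>
    rw [hb] at hf
    cases hs with
    | nil => exact absurd hf (by simp)
    | cons y l =>
      cases s with
      | mk t p a0 a1 a2 a3 a4 a5 a6 a7 a8 a9 a10 a11 a12 a13 a14 a15 a16 =>
        simp only [frc_eq] at hf
        exact h _ f _ _ _ hf

theorem put_eq (q b v x : ℕ) : put q b v x = x + v * 2 ^ (64 * q - b) := by
  show x + (v <<< (64 * q - b)) = _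
  rw [Nat.shiftLeft_eq]

theorem Ev_ad0 {q v τ ψ : ℕ} (hq : 0 ≤ q) {E : List (ℕ × ℕ)} (hE : tabS E = v * 2 ^ (64 * q)) (hτ : totS E ≤ τ) :
    Ev (ad0 q v τ ψ) (fun E' Ψ => E' = E ∧ Ψ = ψ) := by
  intro f x hs s hf
  cases s with
  | mk t p a0 a1 a2 a3 a4 a5 a6 a7 a8 a9 a10 a11 a12 a13 a14 a15 a16 =>
    refine ⟨x, hs, _, E, ψ, hf, ?_, ?_, rfl, rfl, rfl⟩
    · simp only [TAB]
      rw [put_eq, hE, show 64 * q = (64 * q - 0) + 0 by omega, pow_add, Nat.add_sub_cancel]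
      ring
    · show t + totS E ≤ t + τ
      omega

theorem Ev_ad1 {q v τ ψ : ℕ} (hq : 1024 ≤ q) {E : List (ℕ × ℕ)} (hE : tabS E = v * 2 ^ (64 * q)) (hτ : totS E ≤ τ) :
    Ev (ad1 q v τ ψ) (fun E' Ψ => E' = E ∧ Ψ = ψ) := by
  intro f x hs s hf
  cases s with
  | mk t p a0 a1 a2 a3 a4 a5 a6 a7 a8 a9 a10 a11 a12 a13 a14 a15 a16 =>
    refine ⟨x, hs, _, E, ψ, hf, ?_, ?_, rfl, rfl, rfl⟩
    · simp only [TAB]
      rw [put_eq, hE, show 64 * q = (64 * q - 65536) + 65536 by omega, pow_add, Nat.add_sub_cancel]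
      ring
    · show t + totS E ≤ t + τ
      omega

theorem Ev_ad2 {q v τ ψ : ℕ} (hq : 2048 ≤ q) {E : List (ℕ × ℕ)} (hE : tabS E = v * 2 ^ (64 * q)) (hτ : totS E ≤ τ) :
    Ev (ad2 q v τ ψ) (fun E' Ψ => E' = E ∧ Ψ = ψ) := by
  intro f x hs s hf
  cases s with
  | mk t p a0 a1 a2 a3 a4 a5 a6 a7 a8 a9 a10 a11 a12 a13 a14 a15 a16 =>
    refine ⟨x, hs, _, E, ψ, hf, ?_, ?_, rfl, rfl, rfl⟩
    · simp only [TAB]
      rw [put_eq, hE, show 64 * q = (64 * q - 131072) + 131072 by omega, pow_add, Nat.add_sub_cancel]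
      ring
    · show t + totS E ≤ t + τ
      omega

theorem Ev_ad3 {q v τ ψ : ℕ} (hq : 3072 ≤ q) {E : List (ℕ × ℕ)} (hE : tabS E = v * 2 ^ (64 * q)) (hτ : totS E ≤ τ) :
    Ev (ad3 q v τ ψ) (fun E' Ψ => E' = E ∧ Ψ = ψ) := by
  intro f x hs s hf
  cases s with
  | mk t p a0 a1 a2 a3 a4 a5 a6 a7 a8 a9 a10 a11 a12 a13 a14 a15 a16 =>
    refine ⟨x, hs, _, E, ψ, hf, ?_, ?_, rfl, rfl, rfl⟩
    · simp only [TAB]
      rw [put_eq, hE, show 64 * q = (64 * q - 196608) + 196608 by omega, pow_add, Nat.add_sub_cancel]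
      ring
    · show t + totS E ≤ t + τ
      omega

theorem Ev_ad4 {q v τ ψ : ℕ} (hq : 4096 ≤ q) {E : List (ℕ × ℕ)} (hE : tabS E = v * 2 ^ (64 * q)) (hτ : totS E ≤ τ) :
    Ev (ad4 q v τ ψ) (fun E' Ψ => E' = E ∧ Ψ = ψ) := by
  intro f x hs s hf
  cases s with
  | mk t p a0 a1 a2 a3 a4 a5 a6 a7 a8 a9 a10 a11 a12 a13 a14 a15 a16 =>
    refine ⟨x, hs, _, E, ψ, hf, ?_, ?_, rfl, rfl, rfl⟩
    · simp only [TAB]
      rw [put_eq, hE, show 64 * q = (64 * q - 262144) + 262144 by omega, pow_add, Nat.add_sub_cancel]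
      ring
    · show t + totS E ≤ t + τ
      omega

theorem Ev_ad5 {q v τ ψ : ℕ} (hq : 6144 ≤ q) {E : List (ℕ × ℕ)} (hE : tabS E = v * 2 ^ (64 * q)) (hτ : totS E ≤ τ) :
    Ev (ad5 q v τ ψ) (fun E' Ψ => E' = E ∧ Ψ = ψ) := by
  intro f x hs s hf
  cases s with
  | mk t p a0 a1 a2 a3 a4 a5 a6 a7 a8 a9 a10 a11 a12 a13 a14 a15 a16 =>
    refine ⟨x, hs, _, E, ψ, hf, ?_, ?_, rfl, rfl, rfl⟩
    · simp only [TAB]
      rw [put_eq, hE, show 64 * q = (64 * q - 393216) + 393216 by omega, pow_add, Nat.add_sub_cancel]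
      ring
    · show t + totS E ≤ t + τ
      omega

theorem Ev_ad6 {q v τ ψ : ℕ} (hq : 8192 ≤ q) {E : List (ℕ × ℕ)} (hE : tabS E = v * 2 ^ (64 * q)) (hτ : totS E ≤ τ) :
    Ev (ad6 q v τ ψ) (fun E' Ψ => E' = E ∧ Ψ = ψ) := by
  intro f x hs s hf
  cases s with
  | mk t p a0 a1 a2 a3 a4 a5 a6 a7 a8 a9 a10 a11 a12 a13 a14 a15 a16 =>
    refine ⟨x, hs, _, E, ψ, hf, ?_, ?_, rfl, rfl, rfl⟩
    · simp only [TAB]
      rw [put_eq, hE, show 64 * q = (64 * q - 524288) + 524288 by omega, pow_add, Nat.add_sub_cancel]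
      ring
    · show t + totS E ≤ t + τ
      omega

theorem Ev_ad7 {q v τ ψ : ℕ} (hq : 10240 ≤ q) {E : List (ℕ × ℕ)} (hE : tabS E = v * 2 ^ (64 * q)) (hτ : totS E ≤ τ) :
    Ev (ad7 q v τ ψ) (fun E' Ψ => E' = E ∧ Ψ = ψ) := by
  intro f x hs s hf
  cases s with
  | mk t p a0 a1 a2 a3 a4 a5 a6 a7 a8 a9 a10 a11 a12 a13 a14 a15 a16 =>
    refine ⟨x, hs, _, E, ψ, hf, ?_, ?_, rfl, rfl, rfl⟩
    · simp only [TAB]
      rw [put_eq, hE, show 64 * q = (64 * q - 655360) + 655360 by omega, pow_add, Nat.add_sub_cancel]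
      ring
    · show t + totS E ≤ t + τ
      omega

theorem Ev_ad8 {q v τ ψ : ℕ} (hq : 12288 ≤ q) {E : List (ℕ × ℕ)} (hE : tabS E = v * 2 ^ (64 * q)) (hτ : totS E ≤ τ) :
    Ev (ad8 q v τ ψ) (fun E' Ψ => E' = E ∧ Ψ = ψ) := by
  intro f x hs s hf
  cases s with
  | mk t p a0 a1 a2 a3 a4 a5 a6 a7 a8 a9 a10 a11 a12 a13 a14 a15 a16 =>
    refine ⟨x, hs, _, E, ψ, hf, ?_, ?_, rfl, rfl, rfl⟩
    · simp only [TAB]
      rw [put_eq, hE, show 64 * q = (64 * q - 786432) + 786432 by omega, pow_add, Nat.add_sub_cancel]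
      ring
    · show t + totS E ≤ t + τ
      omega

theorem Ev_ad9 {q v τ ψ : ℕ} (hq : 15584 ≤ q) {E : List (ℕ × ℕ)} (hE : tabS E = v * 2 ^ (64 * q)) (hτ : totS E ≤ τ) :
    Ev (ad9 q v τ ψ) (fun E' Ψ => E' = E ∧ Ψ = ψ) := by
  intro f x hs s hf
  cases s with
  | mk t p a0 a1 a2 a3 a4 a5 a6 a7 a8 a9 a10 a11 a12 a13 a14 a15 a16 =>
    refine ⟨x, hs, _, E, ψ, hf, ?_, ?_, rfl, rfl, rfl⟩
    · simp only [TAB]
      rw [put_eq, hE, show 64 * q = (64 * q - 997376) + 997376 by omega, pow_add, Nat.add_sub_cancel]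
      ring
    · show t + totS E ≤ t + τ
      omega

theorem Ev_ad10 {q v τ ψ : ℕ} (hq : 18880 ≤ q) {E : List (ℕ × ℕ)} (hE : tabS E = v * 2 ^ (64 * q)) (hτ : totS E ≤ τ) :
    Ev (ad10 q v τ ψ) (fun E' Ψ => E' = E ∧ Ψ = ψ) := by
  intro f x hs s hf
  cases s with
  | mk t p a0 a1 a2 a3 a4 a5 a6 a7 a8 a9 a10 a11 a12 a13 a14 a15 a16 =>
    refine ⟨x, hs, _, E, ψ, hf, ?_, ?_, rfl, rfl, rfl⟩
    · simp only [TAB]
      rw [put_eq, hE, show 64 * q = (64 * q - 1208320) + 1208320 by omega, pow_add, Nat.add_sub_cancel]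
      ring
    · show t + totS E ≤ t + τ
      omega

theorem Ev_ad11 {q v τ ψ : ℕ} (hq : 20288 ≤ q) {E : List (ℕ × ℕ)} (hE : tabS E = v * 2 ^ (64 * q)) (hτ : totS E ≤ τ) :
    Ev (ad11 q v τ ψ) (fun E' Ψ => E' = E ∧ Ψ = ψ) := by
  intro f x hs s hf
  cases s with
  | mk t p a0 a1 a2 a3 a4 a5 a6 a7 a8 a9 a10 a11 a12 a13 a14 a15 a16 =>
    refine ⟨x, hs, _, E, ψ, hf, ?_, ?_, rfl, rfl, rfl⟩
    · simp only [TAB]
      rw [put_eq, hE, show 64 * q = (64 * q - 1298432) + 1298432 by omega, pow_add, Nat.add_sub_cancel]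
      ring
    · show t + totS E ≤ t + τ
      omega

theorem Ev_ad12 {q v τ ψ : ℕ} (hq : 21696 ≤ q) {E : List (ℕ × ℕ)} (hE : tabS E = v * 2 ^ (64 * q)) (hτ : totS E ≤ τ) :
    Ev (ad12 q v τ ψ) (fun E' Ψ => E' = E ∧ Ψ = ψ) := by
  intro f x hs s hf
  cases s with
  | mk t p a0 a1 a2 a3 a4 a5 a6 a7 a8 a9 a10 a11 a12 a13 a14 a15 a16 =>
    refine ⟨x, hs, _, E, ψ, hf, ?_, ?_, rfl, rfl, rfl⟩
    · simp only [TAB]
      rw [put_eq, hE, show 64 * q = (64 * q - 1388544) + 1388544 by omega, pow_add, Nat.add_sub_cancel]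
      ring
    · show t + totS E ≤ t + τ
      omega

theorem Ev_ad13 {q v τ ψ : ℕ} (hq : 23104 ≤ q) {E : List (ℕ × ℕ)} (hE : tabS E = v * 2 ^ (64 * q)) (hτ : totS E ≤ τ) :
    Ev (ad13 q v τ ψ) (fun E' Ψ => E' = E ∧ Ψ = ψ) := by
  intro f x hs s hf
  cases s with
  | mk t p a0 a1 a2 a3 a4 a5 a6 a7 a8 a9 a10 a11 a12 a13 a14 a15 a16 =>
    refine ⟨x, hs, _, E, ψ, hf, ?_, ?_, rfl, rfl, rfl⟩
    · simp only [TAB]
      rw [put_eq, hE, show 64 * q = (64 * q - 1478656) + 1478656 by omega, pow_add, Nat.add_sub_cancel]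
      ring
    · show t + totS E ≤ t + τ
      omega

theorem Ev_ad14 {q v τ ψ : ℕ} (hq : 24512 ≤ q) {E : List (ℕ × ℕ)} (hE : tabS E = v * 2 ^ (64 * q)) (hτ : totS E ≤ τ) :
    Ev (ad14 q v τ ψ) (fun E' Ψ => E' = E ∧ Ψ = ψ) := by
  intro f x hs s hf
  cases s with
  | mk t p a0 a1 a2 a3 a4 a5 a6 a7 a8 a9 a10 a11 a12 a13 a14 a15 a16 =>
    refine ⟨x, hs, _, E, ψ, hf, ?_, ?_, rfl, rfl, rfl⟩
    · simp only [TAB]
      rw [put_eq, hE, show 64 * q = (64 * q - 1568768) + 1568768 by omega, pow_add, Nat.add_sub_cancel]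
      ring
    · show t + totS E ≤ t + τ
      omega

theorem Ev_ad15 {q v τ ψ : ℕ} (hq : 26560 ≤ q) {E : List (ℕ × ℕ)} (hE : tabS E = v * 2 ^ (64 * q)) (hτ : totS E ≤ τ) :
    Ev (ad15 q v τ ψ) (fun E' Ψ => E' = E ∧ Ψ = ψ) := by
  intro f x hs s hf
  cases s with
  | mk t p a0 a1 a2 a3 a4 a5 a6 a7 a8 a9 a10 a11 a12 a13 a14 a15 a16 =>
    refine ⟨x, hs, _, E, ψ, hf, ?_, ?_, rfl, rfl, rfl⟩
    · simp only [TAB]
      rw [put_eq, hE, show 64 * q = (64 * q - 1699840) + 1699840 by omega, pow_add, Nat.add_sub_cancel]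
      ring
    · show t + totS E ≤ t + τ
      omega

theorem Ev_ad16 {q v τ ψ : ℕ} (hq : 28608 ≤ q) {E : List (ℕ × ℕ)} (hE : tabS E = v * 2 ^ (64 * q)) (hτ : totS E ≤ τ) :
    Ev (ad16 q v τ ψ) (fun E' Ψ => E' = E ∧ Ψ = ψ) := by
  intro f x hs s hf
  cases s with
  | mk t p a0 a1 a2 a3 a4 a5 a6 a7 a8 a9 a10 a11 a12 a13 a14 a15 a16 =>
    refine ⟨x, hs, _, E, ψ, hf, ?_, ?_, rfl, rfl, rfl⟩
    · simp only [TAB]
      rw [put_eq, hE, show 64 * q = (64 * q - 1830912) + 1830912 by omega, pow_add, Nat.add_sub_cancel]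
      ring
    · show t + totS E ≤ t + τ
      omega

theorem lt_of_ble_false {a b : ℕ} (h : Nat.ble a b = false) : b < a := by
  by_contra h'
  push Not at h'
  rw [Nat.ble_eq_true_of_le h'] at h
  exact absurd h (by simp)

theorem Ev_addG {q v τ ψ : ℕ} {E : List (ℕ × ℕ)} (hE : tabS E = v * 2 ^ (64 * q)) (hτ : totS E ≤ τ) :
    Ev (addG q v τ ψ) (fun E' Ψ => E' = E ∧ Ψ = ψ) :=
  Ev_sel (fun _ => Ev_sel (fun _ => Ev_sel (fun _ => Ev_sel (fun _ => Ev_ad0 (by omega) hE hτ) (fun hb => have hb : 1023 < q := lt_of_ble_false hb; Ev_ad1 (by omega) hE hτ)) (fun hb => have hb : 2047 < q := lt_of_ble_false hb; Ev_sel (fun _ => Ev_ad2 (by omega) hE hτ) (fun hb => have hb : 3071 < q := lt_of_ble_false hb; Ev_ad3 (by omega) hE hτ))) (fun hb => have hb : 4095 < q := lt_of_ble_false hb; Ev_sel (fun _ => Ev_sel (fun _ => Ev_ad4 (by omega) hE hτ) (fun hb => have hb : 6143 < q := lt_of_ble_false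 hb; Ev_ad5 (by omega) hE hτ)) (fun hb => have hb : 8191 < q := lt_of_ble_false hb; Ev_sel (fun _ => Ev_ad6 (by omega) hE hτ) (fun hb => have hb : 10239 < q := lt_of_ble_false hb; Ev_ad7 (by omega) hE hτ)))) (fun hb => have hb : 12287 < q := lt_of_ble_false hb; Ev_sel (fun _ => Ev_sel (fun _ => Ev_sel (fun _ => Ev_ad8 (by omega) hE hτ) (fun hb => have hb : 15583 < q := lt_of_ble_false hb; Ev_ad9 (by omega) hE hτ)) (fun hb => have hb : 18879 < q := lt_of_ble_false hb; Ev_sel (fun _ => Ev_ad10 (by omega) hE hτ) (fun hb => have hb : 20287 < q := lt_of_ble_false hb; Ev_ad11 (by omega) hE hτ))) (fun hb => have hb : 21695 < q := lt_of_ble_false hb; Ev_sel (fun _ => Ev_sel (fun _ => Ev_ad12 (by omega) hE hτ) (fun hb => have hb : 23103 < q := lt_of_ble_false hb; Ev_ad13 (by omega) hE hτ)) (fun hb => have hb : 24511 < q := lt_of_ble_false hb; Ev_sel (fun _ => Ev_ad14 (by omega) hE hτ)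 (fun hb => have hb : 26559 < q := lt_of_ble_false hb; Ev_sel (fun _ => Ev_ad15 (by omega) hE hτ) (fun hb => have hb : 28607 < q := lt_of_ble_false hb; Ev_ad16 (by omega) hE hτ)))))

theorem Ev_addP (ψ : ℕ) : Ev (addP ψ) (fun E Ψ => E = [] ∧ Ψ = ψ) := by
  intro f x hs s hf
  cases s with
  | mk t p a0 a1 a2 a3 a4 a5 a6 a7 a8 a9 a10 a11 a12 a13 a14 a15 a16 =>
    refine ⟨x, hs, _, [], ψ, hf, ?_, ?_, rfl, rfl, rfl⟩
    · rw [tabS_nil, add_zero]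
      rfl
    · rw [totS_nil, add_zero]
      exact le_refl t

end Pool.Agent.MMS.Fi
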