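import Pool.Agent.MP_94f265_co.ST.WallE

/-!
# The merge of the two profiles
-/

namespace Pool.Agent.MMS

open Pool.Agent.MM1

theorem mrg_sound : ∀ (f : ℕ) (Hl Hh : ℕ) (H : ℝ) (l l' ms : List Q4) (L1 L2 : List (ℝ × ℝ)),
    In Hl Hh H → List.Forall₂ In4 l L1 → List.Forall₂ In4 l' L2 → mrg Hl Hh f l l' = some ms →
    ∃ pat, MidsOK H pat L1 L2 ∧ List.Forall₂ In4 ms (mids H pat L1 L2) := by
  intro f
  induction f with
  | zero =>
    intro Hl Hh H l l' ms L1 L2 _ _ _ h
    simp [mrg] at h
  | succ f ih =>
    intro Hl Hh H l l' ms L1 L2 hH h1 h2 h
    cases h1 with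
    | nil => simp [mrg] at h
    | @cons e d l L1 he h1 =>
      cases h2 with
      | nil => simp [mrg] at h
      | @cons e' d' l' L2 he' h2 =>
        obtain ⟨wl, wh, Bl, Bh⟩ := e
        obtain ⟨vl, vh, Cl, Ch⟩ := e'
        obtain ⟨w, B⟩ := d
        obtain ⟨v, C⟩ := d'
        obtain ⟨hw, hB⟩ := he
        obtain ⟨hv, hC⟩ := he'
        simp only at hw hB hv hC
        simp only [mrg] at h
        by_cases hb : Nat.ble (Bh + Ch) Hl = true
        · rw [hb, cond_true] at h
          have hle : Bh + Ch ≤ Hl := Nat.le_of_ble_eq_true hb
          have hBC := hB.add hC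
          have hg : In (Hl - (Bh + Ch)) (Hh - (Bl + Cl)) (H - (B + C)) := In.sub hH hBC hle
          have hg' : H - (B + C) = H - B - C := by ring
          rw [hg'] at hg
          have hg0 : 0 ≤ H - B - C := hg.nonneg
          by_cases hb1 : (l.isEmpty && l'.isEmpty) = true
          · rw [hb1, cond_true] at h
            simp only [Bool.and_eq_true, List.isEmpty_iff] at hb1
            obtain ⟨rfl, rfl⟩ := hb1
            cases h1
            cases h2
            simp only [Option.some.injEq] at h
            subst h
            refine ⟨[], hg0, ?_⟩
            simp only [mids]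
            exact List.Forall₂.cons ⟨hw, hg⟩ List.Forall₂.nil
          · simp only [Bool.not_eq_true] at hb1
            rw [hb1, cond_false] at h
            by_cases hb2 : (Nat.ble wh vl && !l.isEmpty) = true
            · rw [hb2, cond_true] at h
              simp only [Bool.and_eq_true] at hb2
              have hle2 : wh ≤ vl := Nat.le_of_ble_eq_true hb2.1
              cases hr : mrg Hl Hh f l ((vl - wh, vh - wl, Cl, Ch) :: l') with
              | none => rw [hr] at h; exact absurd h (by simp)
              | some r =>
                rw [hr] at h
                simp only [Option.some.injEq] at h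
                subst h
                obtain ⟨pat, p1, p2⟩ := ih Hl Hh H l ((vl - wh, vh - wl, Cl, Ch) :: l') r L1 ((v - w, C) :: L2) hH h1
                  (List.Forall₂.cons ⟨In.sub hv hw hle2, hC⟩ h2) hr
                refine ⟨true :: pat, ⟨In.le hv hw hle2, hg0, p1⟩, ?_⟩
                simp only [mids]
                exact List.Forall₂.cons ⟨hw, hg⟩ p2
            · simp only [Bool.not_eq_true] at hb2
              rw [hb2, cond_false] at h
              by_cases hb3 : (Nat.ble vh wl && !l'.isEmpty) = true
              · rw [hb3, cond_true] at h
                simp only [Bool.and_eq_true] at hb3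
                have hle3 : vh ≤ wl := Nat.le_of_ble_eq_true hb3.1
                cases hr : mrg Hl Hh f ((wl - vh, wh - vl, Bl, Bh) :: l) l' with
                | none => rw [hr] at h; exact absurd h (by simp)
                | some r =>
                  rw [hr] at h
                  simp only [Option.some.injEq] at h
                  subst h
                  obtain ⟨pat, p1, p2⟩ := ih Hl Hh H ((wl - vh, wh - vl, Bl, Bh) :: l) l' r ((w - v, B) :: L1) L2 hH
                    (List.Forall₂.cons ⟨In.sub hw hv hle3, hB⟩ h1) h2 hr
                  refine ⟨false :: pat, ⟨In.le hw hv hle3, hg0, p1⟩, ?_⟩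
                  simp only [mids]
                  exact List.Forall₂.cons ⟨hv, hg⟩ p2
              · simp only [Bool.not_eq_true] at hb3
                rw [hb3, cond_false] at h
                exact absurd h (by simp)
        · simp only [Bool.not_eq_true] at hb
          rw [hb, cond_false] at h
          exact absurd h (by simp)

end Pool.Agent.MMS
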