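import Pool.Agent.MP_94f265_co.ST.Sound

/-!
# The linear machine

A program is a list of operations; each one acts on the top of a stack of contexts.
-/

namespace Pool.Agent.MMS

open Pool.Agent.MM1

theorem TT_eq (k m : ℕ) (_hm : 1 ≤ m) : T k m + T (k + 2) m = 2 * T k m + 1 / ((k + 2 * m : ℕ) : ℝ) - 1 / (k : ℝ) := by
  have h1 := T_succ k m
  have h2 := T_add k m 1
  rw [T_one] at h2
  rw [h1] at h2
  linarith

theorem fl_bounds (p q : ℕ) (hq : 0 < q) : ((p / q : ℕ) : ℝ) ≤ (p : ℝ) / q ∧ (p : ℝ) / q < ((p / q : ℕ) : ℝ) + 1 := by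
  have hq' : (0 : ℝ) < q := by exact_mod_cast hq
  constructor
  · exact Nat.cast_div_le
  · rw [div_lt_iff₀ hq']
    have h1 := Nat.div_add_mod p q
    have h2 := Nat.mod_lt p hq
    have h3 : p < (p / q + 1) * q := by
      rw [Nat.add_mul, Nat.one_mul, Nat.mul_comm]
      omega
    exact_mod_cast h3

theorem In_TTM (k m : ℕ) (hk : 1 ≤ k) (hm : 1 ≤ m) : In (TTloM k m) (TThiM k m) (T k m + T (k + 2) m) := by
  have hk' : (1 : ℝ) ≤ k := by exact_mod_cast hk
  have hm' : (1 : ℝ) ≤ m := by exact_mod_cast hm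
  have hC1 : 1 ≤ k + m - 1 := by omega
  have hCc : ((k + m - 1 : ℕ) : ℝ) = (k : ℝ) + m - 1 := by
    rw [Nat.cast_sub (by omega)]; push_cast; ring
  have hC0 : (0 : ℝ) < (k : ℝ) + m - 1 := by linarith
  have hs := SC_pos
  have hp1 : 1 ≤ 3 * ((k + m - 1) * (k + m - 1)) + m * m := by
    have : 1 ≤ m * m := Nat.mul_pos hm hm
    omega
  -- lower bound
  have d1 : 0 < 3 * ((k + m - 1) * (k + m - 1)) * (k + m - 1) := by positivity
  have b1 := fl_bounds (2 * SC * (m * (3 * ((k + m - 1) * (k + m - 1)) + m * m - 1)))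
    (3 * ((k + m - 1) * (k + m - 1)) * (k + m - 1)) d1
  have e1 : ((2 * SC * (m * (3 * ((k + m - 1) * (k + m - 1)) + m * m - 1)) : ℕ) : ℝ) /
      ((3 * ((k + m - 1) * (k + m - 1)) * (k + m - 1) : ℕ) : ℝ) =
      2 * (SC : ℝ) * ((m : ℝ) / ((k : ℝ) + m - 1) + (m : ℝ) * ((m : ℝ) ^ 2 - 1) / (3 * ((k : ℝ) + m - 1) ^ 3)) := by
    have e : ((2 * SC * (m * (3 * ((k + m - 1) * (k + m - 1)) + m * m - 1)) : ℕ) : ℝ) =
        2 * (SC : ℝ) * ((m : ℝ) * (3 * (((k : ℝ) + m - 1) * ((k : ℝ) + m - 1)) + (m : ℝ) * m - 1)) := by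
      rw [Nat.cast_mul, Nat.cast_mul m, Nat.cast_sub hp1]
      push_cast [hCc]
      ring
    rw [e]
    push_cast [hCc]
    field_simp
    ring
  rw [e1] at b1
  -- error
  have d2 : 0 < (k + m - 1) * (k + m - 1) * ((k + m - 1) * (k + m - 1)) * (3 * k) := by positivity
  have b2 := fl_bounds (2 * SC * ((m * m) * (m * m) * m))
    ((k + m - 1) * (k + m - 1) * ((k + m - 1) * (k + m - 1)) * (3 * k)) d2
  have e2 : ((2 * SC * ((m * m) * (m * m) * m) : ℕ) : ℝ) /
      (((k + m - 1) * (k + m - 1) * ((k + m - 1) * (k + m - 1)) * (3 * k) : ℕ) : ℝ) =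
      2 * (SC : ℝ) * ((m : ℝ) ^ 5 / (3 * ((k : ℝ) + m - 1) ^ 4 * k)) := by
    push_cast [hCc]
    field_simp
  rw [e2] at b2
  have h1 := T_lo k m hk hm
  have h2 := T_hi k m hk hm
  have h3 : (m : ℝ) * ((m : ℝ) ^ 2 - 1) * ((m : ℝ) - 1) ^ 2 / (3 * ((k : ℝ) + m - 1) ^ 4 * k) ≤
      (m : ℝ) ^ 5 / (3 * ((k : ℝ) + m - 1) ^ 4 * k) := by
    apply div_le_div_of_nonneg_right _ (by positivity)
    have a1 : 0 ≤ (m : ℝ) ^ 2 - 1 := by nlinarith
    have a2 : (m : ℝ) ^ 2 - 1 ≤ (m : ℝ) ^ 2 := by linarith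
    have a3 : ((m : ℝ) - 1) ^ 2 ≤ (m : ℝ) ^ 2 := by nlinarith
    calc (m : ℝ) * ((m : ℝ) ^ 2 - 1) * ((m : ℝ) - 1) ^ 2 ≤ (m : ℝ) * (m : ℝ) ^ 2 * (m : ℝ) ^ 2 := by
          apply mul_le_mul _ a3 (sq_nonneg _) (by positivity)
          exact mul_le_mul_of_nonneg_left a2 (by linarith)
      _ = (m : ℝ) ^ 5 := by ring
  have u1 : ((ul (k + 2 * m) : ℕ) : ℝ) ≤ (1 / ((k + 2 * m : ℕ) : ℝ)) * SC := (In_u (k + 2 * m) (by omega)).1
  have u2 : (1 / ((k + 2 * m : ℕ) : ℝ)) * SC < ((ul (k + 2 * m) : ℕ) : ℝ) + 1 := by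
    have := (fl_bounds SC (k + 2 * m) (by omega)).2
    rw [one_div, inv_mul_eq_div]
    exact this
  have u3 : ((ul k : ℕ) : ℝ) ≤ (1 / (k : ℝ)) * SC := (In_u k hk).1
  have u4 : (1 / (k : ℝ)) * SC < ((ul k : ℕ) : ℝ) + 1 := by
    have := (fl_bounds SC k (by omega)).2
    rw [one_div, inv_mul_eq_div]
    exact this
  have hT0 : 0 ≤ T k m + T (k + 2) m := add_nonneg (T_nonneg _ _) (T_nonneg _ _)
  have hTT := TT_eq k m hm
  have hTS : (T k m + T (k + 2) m) * (SC : ℝ) = 2 * (SC : ℝ) * T k m + (1 / ((k + 2 * m : ℕ) : ℝ)) * SC - (1 / (k : ℝ)) * SC := by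
    rw [hTT]; ring
  have g1 := mul_le_mul_of_nonneg_left h1 (show (0 : ℝ) ≤ 2 * (SC : ℝ) by linarith)
  have g2 := mul_le_mul_of_nonneg_left (le_trans h2 (add_le_add_right h3 _)) (show (0 : ℝ) ≤ 2 * (SC : ℝ) by linarith)
  rw [mul_add] at g2
  have hA : (TT2 k m : ℝ) ≤ 2 * (SC : ℝ) * T k m := le_trans b1.1 g1
  have hB : 2 * (SC : ℝ) * T k m ≤ (TT2 k m : ℝ) + 1 + ((TTe k m : ℝ) + 1) := by
    have c1 := b1.2
    have c2 := b2.2
    unfold TT2 TTe
    linarith
  generalize (1 / ((k + 2 * m : ℕ) : ℝ)) * (SC : ℝ) = v at u1 u2 hTS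
  generalize (1 / (k : ℝ)) * (SC : ℝ) = v' at u3 u4 hTS
  unfold TThiM TTloM
  constructor
  · rcases le_total (ul k + 1) (TT2 k m + ul (k + 2 * m)) with h | h
    · rw [Nat.cast_sub h, hTS]
      push_cast
      linarith
    · rw [Nat.sub_eq_zero_of_le h, Nat.cast_zero]
      exact mul_nonneg hT0 hs.le
  · have h6 : ((TT2 k m + ul (k + 2 * m) : ℕ) : ℝ) - ((ul k + 1 : ℕ) : ℝ) ≤ (((TT2 k m + ul (k + 2 * m)) - (ul k + 1) : ℕ) : ℝ) := by
      rcases le_total (ul k + 1) (TT2 k m + ul (k + 2 * m)) with h | h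
      · rw [Nat.cast_sub h]
      · rw [Nat.sub_eq_zero_of_le h, Nat.cast_zero]
        have : ((TT2 k m + ul (k + 2 * m) : ℕ) : ℝ) ≤ ((ul k + 1 : ℕ) : ℝ) := by exact_mod_cast h
        linarith
    push_cast at h6 ⊢
    rw [hTS]
    linarith

theorem In_TT (k m : ℕ) (hk : 1 ≤ k) (hm : 1 ≤ m) : In (TTlo k m) (TThi k m) (T k m + T (k + 2) m) := by
  unfold TTlo TThi
  cases hb : Nat.ble k 99999 with
  | false => rw [cond_false, cond_false]; exact In_TTM k m hk hm
  | true =>
    rw [cond_true, cond_true, TT_eq k m hm]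
    have h1 : In (Tdl 2 m k) (Tdh 2 m k) (T k m) := by rw [T_TS]; exact In_Td 2 m k hk
    have h2 : In (2 * Tdl 2 m k) (2 * Tdh 2 m k) (2 * T k m) := by
      obtain ⟨a, b⟩ := h1
      constructor
      · push_cast; nlinarith
      · push_cast; nlinarith
    have h3 := h2.add (In_u (k + 2 * m) (by omega))
    refine In.sub' h3 (In_u k hk) ?_
    have h4 : T k m = 1 / (k : ℝ) + T (k + 2) (m - 1) := by
      obtain ⟨n, rfl⟩ : ∃ n, m = n + 1 := ⟨m - 1, by omega⟩
      rw [Nat.add_sub_cancel, T_succ]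
    have h5 := T_nonneg (k + 2) (m - 1)
    have h6 : 0 ≤ 1 / (k : ℝ) := by positivity
    have h7 : 0 ≤ 1 / ((k + 2 * m : ℕ) : ℝ) := by positivity
    linarith

/-- meaning of a step -/
def Stp (c : Ctx) (cs : List Ctx) (u0 : List (ℕ × ℕ)) (fj : List Ctx) : Prop :=
  ∀ G, Rz c G → ∃ G1 G2 A0, RzL cs G1 ∧ RzL fj G2 ∧
      A0 + (owedL cs + owedL fj) = (nums u0 : Multiset ℕ) + owed c ∧ Cut G (unitsM A0 + (G1 + G2))

theorem step_sound (op : Op) (c : Ctx) (cs : List Ctx) (u0 : List (ℕ × ℕ)) (fj : List Ctx)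
    (h : step op c = some (cs, u0, fj)) : Stp c cs u0 fj := by
  cases op with
  | nil =>
    simp only [step, Option.some.injEq, Prod.mk.injEq] at h
    obtain ⟨rfl, rfl, rfl⟩ := h
    intro G hG
    refine ⟨0, G, 0, RzL_nil, RzL_single hG, by simp [owedL, nums], Cut.of_eq (by simp [unitsM])⟩
  | sw =>
    cases c with
    | pc al ah bl bh =>
      simp only [step, Option.some.injEq, Prod.mk.injEq] at h
      obtain ⟨rfl, rfl, rfl⟩ := h
      rintro G ⟨a, b, ha, hb, rfl⟩
      refine ⟨{(b, a)}, 0, 0, RzL_single ⟨b, a, hb, ha, rfl⟩, RzL_nil, by simp [owedL, owed, nums],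
        (Cut.swap a b).trans (Cut.of_eq ?_)⟩
      simp [unitsM]
    | _ => simp [step] at h
  | cut hh =>
    cases c with
    | pc al ah bl bh =>
      simp only [step] at h
      by_cases hb : Nat.ble hh bl = true
      · rw [hb, cond_true] at h
        simp only [Option.some.injEq, Prod.mk.injEq] at h
        obtain ⟨rfl, rfl, rfl⟩ := h
        rintro G ⟨a, b, ha, hb', rfl⟩
        have hle : hh ≤ bl := Nat.le_of_ble_eq_true hb
        have hH : In hh hh ((hh : ℝ) / (SC : ℝ)) := by
          have := SC_pos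
          constructor
          · rw [div_mul_cancel₀ _ (ne_of_gt this)]
          · rw [div_mul_cancel₀ _ (ne_of_gt this)]
        refine ⟨{(a, (hh : ℝ) / SC)} + {(a, b - (hh : ℝ) / SC)}, 0, 0,
          RzL_two ⟨a, _, ha, hH, rfl⟩ ⟨a, _, ha, In.sub hb' hH hle, rfl⟩, RzL_nil,
          by simp [owedL, owed, nums], ?_⟩
        have h1 := Cut.split' (a := (hh : ℝ) / SC) (b := b - (hh : ℝ) / SC) (c := a) hH.nonneg
          (by have := In.le hb' hH hle; linarith)
        rw [show (hh : ℝ) / SC + (b - (hh : ℝ) / SC) = b by ring] at h1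
        refine h1.trans (Cut.of_eq ?_)
        simp [unitsM]
      · simp only [Bool.not_eq_true] at hb
        rw [hb, cond_false] at h
        exact absurd h (by simp)
    | _ => simp [step] at h
  | item0 k =>
    cases c with
    | pc al ah bl bh =>
      simp only [step] at h
      by_cases hb : (Nat.ble 1 k && (Nat.ble (uh k) al && Nat.ble (uh (k + 1)) bl)) = true
      · rw [hb, cond_true] at h
        simp only [Option.some.injEq, Prod.mk.injEq] at h
        obtain ⟨rfl, rfl, rfl⟩ := h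
        rintro G ⟨a, b, ha, hb', rfl⟩
        simp only [Bool.and_eq_true] at hb
        have hk : 1 ≤ k := Nat.le_of_ble_eq_true hb.1
        have h1 : uh k ≤ al := Nat.le_of_ble_eq_true hb.2.1
        have h2 : uh (k + 1) ≤ bl := Nat.le_of_ble_eq_true hb.2.2
        have hu := In_u k hk
        have hv := In_u (k + 1) (by omega)
        refine ⟨{(a - 1 / (k : ℝ), b)} + {(1 / (k : ℝ), b - 1 / ((k + 1 : ℕ) : ℝ))}, 0, {k},
          RzL_two ⟨_, b, In.sub ha hu h1, hb', rfl⟩ ⟨_, _, hu, In.sub hb' hv h2, rfl⟩, RzL_nil,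
          by simp [owedL, owed, nums], ?_⟩
        refine (cut_corner hu.nonneg (In.le ha hu h1) hv.nonneg (In.le hb' hv h2)).trans (Cut.of_eq ?_)
        simp [unitsM, U]
      · simp only [Bool.not_eq_true] at hb
        rw [hb, cond_false] at h
        exact absurd h (by simp)
    | _ => simp [step] at h
  | item1 k =>
    cases c with
    | pc al ah bl bh =>
      simp only [step] at h
      by_cases hb : (Nat.ble 1 k && (Nat.ble (uh (k + 1)) al && Nat.ble (uh k) bl)) = true
      · rw [hb, cond_true] at h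
        simp only [Option.some.injEq, Prod.mk.injEq] at h
        obtain ⟨rfl, rfl, rfl⟩ := h
        rintro G ⟨a, b, ha, hb', rfl⟩
        simp only [Bool.and_eq_true] at hb
        have hk : 1 ≤ k := Nat.le_of_ble_eq_true hb.1
        have h1 : uh (k + 1) ≤ al := Nat.le_of_ble_eq_true hb.2.1
        have h2 : uh k ≤ bl := Nat.le_of_ble_eq_true hb.2.2
        have hu := In_u k hk
        have hv := In_u (k + 1) (by omega)
        refine ⟨{(a - 1 / ((k + 1 : ℕ) : ℝ), b)} + {(1 / ((k + 1 : ℕ) : ℝ), b - 1 / (k : ℝ))}, 0, {k},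
          RzL_two ⟨_, b, In.sub ha hv h1, hb', rfl⟩ ⟨_, _, hv, In.sub hb' hu h2, rfl⟩, RzL_nil,
          by simp [owedL, owed, nums], ?_⟩
        refine (cut_corner hv.nonneg (In.le ha hv h1) hu.nonneg (In.le hb' hu h2)).trans ?_
        refine Cut.add ((Cut.swap _ _).trans (Cut.of_eq ?_)) (Cut.of_eq (by abel))
        simp [unitsM, U]
      · simp only [Bool.not_eq_true] at hb
        rw [hb, cond_false] at h
        exact absurd h (by simp)
    | _ => simp [step] at h
  | dom k =>
    cases c with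
    | pc al ah bl bh =>
      simp only [step] at h
      by_cases hb : (Nat.ble 1 k && (Nat.ble (uh (k + 1)) al && Nat.ble (Lh k) bl)) = true
      · rw [hb, cond_true] at h
        simp only [Option.some.injEq, Prod.mk.injEq] at h
        obtain ⟨rfl, rfl, rfl⟩ := h
        rintro G ⟨a, b, ha, hb', rfl⟩
        simp only [Bool.and_eq_true] at hb
        have hk : 1 ≤ k := Nat.le_of_ble_eq_true hb.1
        have h1 : uh (k + 1) ≤ al := Nat.le_of_ble_eq_true hb.2.1
        have h2 : Lh k ≤ bl := Nat.le_of_ble_eq_true hb.2.2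
        have hu := In_u (k + 1) (by omega)
        have hv := In_L k hk
        refine ⟨{(a - 1 / ((k + 1 : ℕ) : ℝ), b)} + {(1 / ((k + 1 : ℕ) : ℝ), b - Lg k)}, 0,
          ((List.range' k 2 : List ℕ) : Multiset ℕ),
          RzL_two ⟨_, b, In.sub ha hu h1, hb', rfl⟩ ⟨_, _, hu, In.sub hb' hv h2, rfl⟩, RzL_nil,
          by simp [owedL, owed, nums], ?_⟩
        refine (cut_corner hu.nonneg (In.le ha hu h1) hv.nonneg (In.le hb' hv h2)).trans ?_
        refine Cut.add ((Cut.of_eq ?_).trans ((cut_domino k hk).trans (Cut.of_eq ?_))) (Cut.of_eq (by abel))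
        · push_cast; rfl
        · rw [← units_eq]
          rfl
      · simp only [Bool.not_eq_true] at hb
        rw [hb, cond_false] at h
        exact absurd h (by simp)
    | _ => simp [step] at h
  | strip k m =>
    cases c with
    | pc al ah bl bh =>
      simp only [step] at h
      by_cases hb : ((Nat.ble 1 k && Nat.ble 1 m) && (Nat.ble (uh (k + 1)) al &&
          Nat.ble (TThi k m) bl)) = true
      · rw [hb, cond_true] at h
        simp only [Option.some.injEq, Prod.mk.injEq] at h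
        obtain ⟨rfl, rfl, rfl⟩ := h
        rintro G ⟨a, b, ha, hb', rfl⟩
        simp only [Bool.and_eq_true] at hb
        have hk : 1 ≤ k := Nat.le_of_ble_eq_true hb.1.1
        have hm : 1 ≤ m := Nat.le_of_ble_eq_true hb.1.2
        have h1 : uh (k + 1) ≤ al := Nat.le_of_ble_eq_true hb.2.1
        have h2 : TThi k m ≤ bl := Nat.le_of_ble_eq_true hb.2.2
        have hu := In_u (k + 1) (by omega)
        have hT := In_TT k m hk hm
        have h3 := In.le ha hu h1
        push_cast at h3
        have h4 := In.le hb' hT h2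
        refine ⟨{(a, T k m + T (k + 2) m)} + {(a, b - (T k m + T (k + 2) m))}, 0, 0,
          RzL_two ⟨a, ha, hk, h3, rfl⟩ ⟨a, _, ha, In.sub hb' hT h2, rfl⟩, RzL_nil,
          by simp [owedL, owed, nums], ?_⟩
        have h5 := cut_two (w := a) (x := T k m + T (k + 2) m) (y := b - (T k m + T (k + 2) m))
          (add_nonneg (T_nonneg _ _) (T_nonneg _ _)) (by linarith)
        rw [show T k m + T (k + 2) m + (b - (T k m + T (k + 2) m)) = b by ring] at h5
        refine h5.trans (Cut.of_eq ?_)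
        simp [unitsM]
      · simp only [Bool.not_eq_true] at hb
        rw [hb, cond_false] at h
        exact absurd h (by simp)
    | _ => simp [step] at h
  | ustrip k m =>
    cases c with
    | pc al ah bl bh =>
      simp only [step] at h
      by_cases hb : ((Nat.ble 1 k && Nat.ble 1 m) && (Nat.ble (Lh k) al &&
          Nat.ble (Thi (k + 1) m) bl)) = true
      · rw [hb, cond_true] at h
        simp only [Option.some.injEq, Prod.mk.injEq] at h
        obtain ⟨rfl, rfl, rfl⟩ := h
        rintro G ⟨a, b, ha, hb', rfl⟩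
        simp only [Bool.and_eq_true] at hb
        have hk : 1 ≤ k := Nat.le_of_ble_eq_true hb.1.1
        have hm : 1 ≤ m := Nat.le_of_ble_eq_true hb.1.2
        have h1 : Lh k ≤ al := Nat.le_of_ble_eq_true hb.2.1
        have h2 : Thi (k + 1) m ≤ bl := Nat.le_of_ble_eq_true hb.2.2
        have hu := In_L k hk
        have hT := In_T (k + 1) m (by omega) hm
        have h4 := In.le hb' hT h2
        refine ⟨{(a, T (k + 1) m)} + {(a, b - T (k + 1) m)}, 0, 0,
          RzL_two ⟨a, ha, hk, In.le ha hu h1, rfl⟩ ⟨a, _, ha, In.sub hb' hT h2, rfl⟩, RzL_nil,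
          by simp [owedL, owed, nums], ?_⟩
        have h5 := cut_two (w := a) (x := T (k + 1) m) (y := b - T (k + 1) m)
          (T_nonneg _ _) (by linarith)
        rw [show T (k + 1) m + (b - T (k + 1) m) = b by ring] at h5
        refine h5.trans (Cut.of_eq ?_)
        simp [unitsM]
      · simp only [Bool.not_eq_true] at hb
        rw [hb, cond_false] at h
        exact absurd h (by simp)
    | _ => simp [step] at h
  | wall k J K J2 K2 =>
    cases c with
    | pc al ah bl bh =>
      simp only [step] at h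
      by_cases hb : (wok al k J K && wok al (k + 2 * (J * K)) J2 K2) = true
      · rw [hb, cond_true] at h
        cases hm : mrg bl bh (K + K2) (wprof al ah k J K) (wprof al ah (k + 2 * (J * K)) J2 K2).reverse with
        | none => rw [hm] at h; exact absurd h (by simp)
        | some ms =>
          rw [hm] at h
          simp only [Option.some.injEq, Prod.mk.injEq] at h
          obtain ⟨rfl, rfl, rfl⟩ := h
          rintro G ⟨a, b, ha, hb', rfl⟩
          simp only [Bool.and_eq_true] at hb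
          obtain ⟨G1, G2, g1, g2, g3⟩ := wall_cut ha hb' hb.1 hb.2 hm
          obtain ⟨l1, b1, b1'⟩ := bits_enc hb.1
          obtain ⟨l2, b2, b2'⟩ := bits_enc hb.2
          refine ⟨G1 + (G2 + ((l1 ++ l2 : List (ℝ × ℝ)) : Multiset (ℝ × ℝ))), 0,
            ((nums [(k, 2 * (J * K + J2 * K2))] : List ℕ) : Multiset ℕ), RzL_three g1 g2
            ⟨_, List.rel_append b1 b2, rfl⟩, RzL_nil, by simp [owedL, owed], ?_⟩
          rw [← Multiset.coe_add, ← b1', ← b2', ← units_eq, add_zero]
          exact g3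
      · simp only [Bool.not_eq_true] at hb
        rw [hb, cond_false] at h
        exact absurd h (by simp)
    | _ => simp [step] at h
  | wallj k J K J2 K2 =>
    cases c with
    | pc al ah bl bh =>
      simp only [step] at h
      by_cases hb : (wok al k J K && wok al (k + 2 * (J * K)) J2 K2) = true
      · rw [hb, cond_true] at h
        cases hm : mrg bl bh (K + K2) (wprof al ah k J K) (wprof al ah (k + 2 * (J * K)) J2 K2).reverse with
        | none => rw [hm] at h; exact absurd h (by simp)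
        | some ms =>
          rw [hm] at h
          simp only [Option.some.injEq, Prod.mk.injEq] at h
          obtain ⟨rfl, rfl, rfl⟩ := h
          rintro G ⟨a, b, ha, hb', rfl⟩
          simp only [Bool.and_eq_true] at hb
          obtain ⟨G1, G2, g1, g2, g3⟩ := wall_cut ha hb' hb.1 hb.2 hm
          refine ⟨G1 + G2, _, ((nums [(k, 2 * (J * K + J2 * K2))] : List ℕ) : Multiset ℕ), RzL_two g1 g2,
            RzL_two (c1 := .bt k J K) (c2 := .bt (k + 2 * (J * K)) J2 K2) rfl rfl, by simp [owedL, owed], ?_⟩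
          rw [← units_eq]
          refine g3.trans (Cut.of_eq ?_)
          abel
      · simp only [Bool.not_eq_true] at hb
        rw [hb, cond_false] at h
        exact absurd h (by simp)
    | _ => simp [step] at h
  | bwall k J K =>
    cases c with
    | pc al ah bl bh =>
      simp only [step] at h
      by_cases hb : (wok al k J K && Nat.ble (Thi k J + Thi (k + 2) J) bl) = true
      · rw [hb, cond_true] at h
        simp only [Option.some.injEq, Prod.mk.injEq] at h
        obtain ⟨rfl, rfl, rfl⟩ := h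
        rintro G ⟨a, b, ha, hb', rfl⟩
        simp only [Bool.and_eq_true] at hb
        obtain ⟨G1, G2, G3, g1, g2, g3, g4⟩ := bwall_cut ha hb' hb.1 (Nat.le_of_ble_eq_true hb.2)
        refine ⟨G1 + (G2 + G3), _, ((nums [(k, 2 * (J * K))] : List ℕ) : Multiset ℕ), RzL_three g1 g2 g3,
          RzL_single (c := .bt k J K) rfl, by simp [owedL, owed], ?_⟩
        rw [← units_eq]
        refine g4.trans (Cut.of_eq ?_)
        abel
      · simp only [Bool.not_eq_true] at hb
        rw [hb, cond_false] at h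
        exact absurd h (by simp)
    | _ => simp [step] at h
  | skip s =>
    cases c with
    | pc => simp [step] at h
    | bt => simp [step] at h
    | mc Hl Hh k J m =>
      simp only [step] at h
      by_cases hb : Nat.ble s m = true
      · rw [hb, cond_true] at h
        simp only [Option.some.injEq, Prod.mk.injEq] at h
        obtain ⟨rfl, rfl, rfl⟩ := h
        have hle : s ≤ m := Nat.le_of_ble_eq_true hb
        rintro G ⟨H, hH, rfl⟩
        refine ⟨mcv H (k + 2 * (s * J)) J (m - s), mcv H k J s, 0, RzL_single ⟨H, hH, rfl⟩,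
          RzL_single ⟨H, hH, rfl⟩, by simp [owedL, owed, nums], Cut.of_eq ?_⟩
        have e3 : mcv H k J m = mcv H k J s + mcv H (k + 2 * (s * J)) J (m - s) := by
          rw [← mcv_add, Nat.add_sub_cancel' hle]
        rw [e3, unitsM_zero]
        abel
      · simp only [Bool.not_eq_true] at hb
        rw [hb, cond_false] at h
        exact absurd h (by simp)
    | ls l =>
      simp only [step, Option.some.injEq, Prod.mk.injEq] at h
      obtain ⟨rfl, rfl, rfl⟩ := h
      intro G hG
      obtain ⟨G1, G2, r1, r2, rfl⟩ := ls_split hG s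
      refine ⟨G2, G1, 0, RzL_single r2, RzL_single r1, by simp [owedL, owed, nums], Cut.of_eq ?_⟩
      rw [unitsM_zero]
      abel
    | ch wl wh k m =>
      simp only [step] at h
      by_cases hb : Nat.ble s m = true
      · rw [hb, cond_true] at h
        simp only [Option.some.injEq, Prod.mk.injEq] at h
        obtain ⟨rfl, rfl, rfl⟩ := h
        have hle : s ≤ m := Nat.le_of_ble_eq_true hb
        rintro G ⟨w, hw, hk, hw1, rfl⟩
        have e : T k m + T (k + 2) m = (T k s + T (k + 2) s) + (T (k + 2 * s) (m - s) + T (k + 2 * s + 2) (m - s)) := by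
          have h1 := T_add k s (m - s)
          have h2 := T_add (k + 2) s (m - s)
          rw [Nat.add_sub_cancel' hle] at h1 h2
          rw [h1, h2, show k + 2 + 2 * s = k + 2 * s + 2 by ring]
          ring
        refine ⟨{(w, T (k + 2 * s) (m - s) + T (k + 2 * s + 2) (m - s))}, {(w, T k s + T (k + 2) s)}, 0,
          RzL_single ⟨w, hw, by omega, ?_, rfl⟩, RzL_single ⟨w, hw, hk, hw1, rfl⟩, ?_, ?_⟩
        · exact (inv_anti' (by omega)).trans hw1
        · simp only [owedL, owed, nums, add_zero, zero_add, Multiset.coe_nil]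
          rw [range'_split k s m hle]
          abel
        · rw [e]
          refine (cut_two (add_nonneg (T_nonneg _ _) (T_nonneg _ _)) (add_nonneg (T_nonneg _ _) (T_nonneg _ _))).trans
            (Cut.of_eq ?_)
          rw [unitsM_zero]
          abel
      · simp only [Bool.not_eq_true] at hb
        rw [hb, cond_false] at h
        exact absurd h (by simp)
    | uch wl wh k m =>
      simp only [step] at h
      by_cases hb : Nat.ble s m = true
      · rw [hb, cond_true] at h
        simp only [Option.some.injEq, Prod.mk.injEq] at h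
        obtain ⟨rfl, rfl, rfl⟩ := h
        have hle : s ≤ m := Nat.le_of_ble_eq_true hb
        rintro G ⟨w, hw, hk, hw1, rfl⟩
        have e : T (k + 1) m = T (k + 1) s + T (k + 2 * s + 1) (m - s) := by
          have h1 := T_add (k + 1) s (m - s)
          rw [Nat.add_sub_cancel' hle] at h1
          rw [h1, show k + 1 + 2 * s = k + 2 * s + 1 by ring]
        refine ⟨{(w, T (k + 2 * s + 1) (m - s))}, {(w, T (k + 1) s)}, 0,
          RzL_single ⟨w, hw, by omega, ?_, rfl⟩, RzL_single ⟨w, hw, hk, hw1, rfl⟩, ?_, ?_⟩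
        · exact (Lg_anti2 hk (by omega)).trans hw1
        · simp only [owedL, owed, nums, add_zero, zero_add, Multiset.coe_nil]
          rw [range'_split k s m hle]
          abel
        · rw [e]
          refine (cut_two (T_nonneg _ _) (T_nonneg _ _)).trans (Cut.of_eq ?_)
          rw [unitsM_zero]
          abel
      · simp only [Bool.not_eq_true] at hb
        rw [hb, cond_false] at h
        exact absurd h (by simp)
  | kid =>
    cases c with
    | pc => simp [step] at h
    | bt => simp [step] at h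
    | mc Hl Hh k J m =>
      simp only [step] at h
      by_cases hb : ((Nat.ble 1 m && Nat.ble 1 J) && (Nat.ble 1 k && Nat.ble (TThi k J) Hl)) = true
      · rw [hb, cond_true] at h
        simp only [Option.some.injEq, Prod.mk.injEq] at h
        obtain ⟨rfl, rfl, rfl⟩ := h
        rintro G ⟨H, hH, rfl⟩
        simp only [Bool.and_eq_true] at hb
        have hm : 1 ≤ m := Nat.le_of_ble_eq_true hb.1.1
        have hJ : 1 ≤ J := Nat.le_of_ble_eq_true hb.1.2
        have hk : 1 ≤ k := Nat.le_of_ble_eq_true hb.2.1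
        have h1 : TThi k J ≤ Hl := Nat.le_of_ble_eq_true hb.2.2
        have hT := In_TT k J hk hJ
        refine ⟨{(1 / ((k + 1 : ℕ) : ℝ), H - (T k J + T (k + 2) J))} + mcv H (k + 2 * J) J (m - 1), 0, 0,
          RzL_two ⟨_, _, In_u (k + 1) (by omega), In.sub hH hT h1, rfl⟩ ⟨H, hH, rfl⟩, RzL_nil,
          by simp [owedL, owed, nums], Cut.of_eq ?_⟩
        have e3 : mcv H k J m = mcv H k J 1 + mcv H (k + 2 * (1 * J)) J (m - 1) := by
          rw [← mcv_add, Nat.add_sub_cancel' hm]
        rw [e3, mcv_one]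
        simp [unitsM]
      · simp only [Bool.not_eq_true] at hb
        rw [hb, cond_false] at h
        exact absurd h (by simp)
    | ls l =>
      cases l with
      | nil => simp [step] at h
      | cons e l =>
        obtain ⟨al, ah, bl, bh⟩ := e
        simp only [step, Option.some.injEq, Prod.mk.injEq] at h
        obtain ⟨rfl, rfl, rfl⟩ := h
        rintro G ⟨l', h1, rfl⟩
        cases h1 with
        | @cons _ d _ l' he hl =>
          obtain ⟨a, b⟩ := d
          refine ⟨{(a, b)} + (l' : Multiset (ℝ × ℝ)), 0, 0, RzL_two ⟨a, b, he.1, he.2, rfl⟩ ⟨l', hl, rfl⟩,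
            RzL_nil, by simp [owedL, owed, nums], Cut.of_eq ?_⟩
          rw [unitsM_zero]
          simp only [zero_add, add_zero]
          rfl
    | ch wl wh k m =>
      simp only [step] at h
      by_cases hb : (Nat.ble 1 m && (Nat.ble 1 k && Nat.ble (uh (k + 1)) wl)) = true
      · rw [hb, cond_true] at h
        simp only [Option.some.injEq, Prod.mk.injEq] at h
        obtain ⟨rfl, rfl, rfl⟩ := h
        rintro G ⟨w, hw, hk0, hw1, rfl⟩
        simp only [Bool.and_eq_true] at hb
        have hm : 1 ≤ m := Nat.le_of_ble_eq_true hb.1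
        have hk : 1 ≤ k := Nat.le_of_ble_eq_true hb.2.1
        have h1 : uh (k + 1) ≤ wl := Nat.le_of_ble_eq_true hb.2.2
        have hu := In_u (k + 1) (by omega)
        refine ⟨{(w - 1 / ((k + 1 : ℕ) : ℝ), Lg k)} + {(w, T (k + 2) (m - 1) + T (k + 2 + 2) (m - 1))}, 0,
          ((List.range' k 2 : List ℕ) : Multiset ℕ),
          RzL_two ⟨_, _, In.sub hw hu h1, In_L k hk, rfl⟩ ⟨w, hw, by omega, (inv_anti' (by omega)).trans hw1, rfl⟩,
          RzL_nil, ?_, ?_⟩
        · simp only [owedL, owed, nums, add_zero, zero_add, Multiset.coe_nil]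
          exact owed_aux k m hm
        · refine (kid_flat hk hm hw1).trans (Cut.of_eq ?_)
          push_cast
          abel
      · simp only [Bool.not_eq_true] at hb
        rw [hb, cond_false] at h
        exact absurd h (by simp)
    | uch wl wh k m =>
      simp only [step] at h
      by_cases hb : (Nat.ble 1 m && (Nat.ble 1 k && Nat.ble (Lh k) wl)) = true
      · rw [hb, cond_true] at h
        simp only [Option.some.injEq, Prod.mk.injEq] at h
        obtain ⟨rfl, rfl, rfl⟩ := h
        rintro G ⟨w, hw, hk0, hw1, rfl⟩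
        simp only [Bool.and_eq_true] at hb
        have hm : 1 ≤ m := Nat.le_of_ble_eq_true hb.1
        have hk : 1 ≤ k := Nat.le_of_ble_eq_true hb.2.1
        have h1 : Lh k ≤ wl := Nat.le_of_ble_eq_true hb.2.2
        have hu := In_u (k + 1) (by omega)
        refine ⟨{(w - Lg k, 1 / ((k + 1 : ℕ) : ℝ))} + {(w, T (k + 2 + 1) (m - 1))}, 0,
          ((List.range' k 2 : List ℕ) : Multiset ℕ),
          RzL_two ⟨_, _, In.sub hw (In_L k hk) h1, hu, rfl⟩ ⟨w, hw, by omega, (Lg_anti2 hk (by omega)).trans hw1, rfl⟩,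
          RzL_nil, ?_, ?_⟩
        · simp only [owedL, owed, nums, add_zero, zero_add, Multiset.coe_nil]
          exact owed_aux k m hm
        · refine (kid_upright hk hm hw1).trans (Cut.of_eq ?_)
          push_cast
          abel
      · simp only [Bool.not_eq_true] at hb
        rw [hb, cond_false] at h
        exact absurd h (by simp)

/-- run a program; returns the remaining stack, the used intervals, the free contexts -/
def mrun : List Op → List Ctx → List (ℕ × ℕ) → List Ctx → Res
  | [], st, us, fr => some (st, us, fr)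
  | _ :: _, [], _, _ => none
  | op :: ops, c :: cs, us, fr =>
    match step op c with
    | none => none
    | some (cs', u0, fj) => mrun ops (cs' ++ cs) (u0 ++ us) (fj ++ fr)

/-- meaning of a run -/
def OkS (st : List Ctx) (us : List (ℕ × ℕ)) (fr : List Ctx) (st' : List Ctx) (us' : List (ℕ × ℕ))
    (fr' : List Ctx) : Prop :=
  ∃ ua fa, us' = ua ++ us ∧ fr' = fa ++ fr ∧ ∀ G, RzL st G → ∃ F1 F2 A, RzL st' F1 ∧ RzL fa F2 ∧
    A + (owedL st' + owedL fa) = (nums ua : Multiset ℕ) + owedL st ∧ Cut G (unitsM A + (F1 + F2))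

theorem OkS_refl (st : List Ctx) (us : List (ℕ × ℕ)) (fr : List Ctx) : OkS st us fr st us fr :=
  ⟨[], [], rfl, rfl, fun G hG => ⟨G, 0, 0, hG, rfl, by simp [owedL, nums], Cut.of_eq (by simp [unitsM])⟩⟩

theorem OkS_trans {st st1 st2 : List Ctx} {us us1 us2 : List (ℕ × ℕ)} {fr fr1 fr2 : List Ctx}
    (h1 : OkS st us fr st1 us1 fr1) (h2 : OkS st1 us1 fr1 st2 us2 fr2) : OkS st us fr st2 us2 fr2 := by
  obtain ⟨ua1, fa1, e1, e2, s1⟩ := h1
  obtain ⟨ua2, fa2, e3, e4, s2⟩ := h2
  refine ⟨ua2 ++ ua1, fa2 ++ fa1, by rw [e3, e1]; simp, by rw [e4, e2]; simp, ?_⟩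
  intro G hG
  obtain ⟨F1, F2, A, f1, f2, a, c⟩ := s1 G hG
  obtain ⟨F1', F2', A', f1', f2', a', c'⟩ := s2 F1 f1
  refine ⟨F1', F2' + F2, A + A', f1', RzL_append f2' f2, ?_, ?_⟩
  · rw [owedL_append, nums_append, ← Multiset.coe_add]
    calc A + A' + (owedL st2 + (owedL fa2 + owedL fa1)) = A + ((A' + (owedL st2 + owedL fa2)) + owedL fa1) := by abel
      _ = (A + (owedL st1 + owedL fa1)) + (nums ua2 : Multiset ℕ) := by rw [a']; abel
      _ = _ := by rw [a]; abel
  · refine c.trans (((Cut.add c' (Cut.refl F2)).add_left _).trans (Cut.of_eq ?_))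
    rw [unitsM_add]
    abel

theorem RzL_split {l l' : List Ctx} {G : Multiset (ℝ × ℝ)} (h : RzL (l ++ l') G) :
    ∃ G1 G2, RzL l G1 ∧ RzL l' G2 ∧ G = G1 + G2 := by
  induction l generalizing G with
  | nil => exact ⟨0, G, rfl, h, (zero_add _).symm⟩
  | cons c l ih =>
    obtain ⟨G1, G2, h1, h2, rfl⟩ := h
    obtain ⟨G3, G4, h3, h4, rfl⟩ := ih h2
    exact ⟨G1 + G3, G4, ⟨G1, G3, h1, h3, rfl⟩, h4, by abel⟩

theorem OkS_step {c : Ctx} {cs cs' fj : List Ctx} {u0 us : List (ℕ × ℕ)} {fr : List Ctx}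
    (h : Stp c cs' u0 fj) : OkS (c :: cs) us fr (cs' ++ cs) (u0 ++ us) (fj ++ fr) := by
  refine ⟨u0, fj, rfl, rfl, ?_⟩
  rintro G ⟨G1, G2, h1, h2, rfl⟩
  obtain ⟨F1, F2, A, f1, f2, a, c'⟩ := h G1 h1
  refine ⟨F1 + G2, F2, A, RzL_append f1 h2, f2, ?_, ?_⟩
  · rw [owedL_append]
    simp only [owedL]
    calc A + (owedL cs' + owedL cs + owedL fj) = (A + (owedL cs' + owedL fj)) + owedL cs := by abel
      _ = _ := by rw [a]; abel
  · refine (Cut.add c' (Cut.refl G2)).trans (Cut.of_eq ?_)
    abel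

theorem mrun_sound : ∀ (ops : List Op) (st : List Ctx) (us : List (ℕ × ℕ)) (fr : List Ctx) (st' : List Ctx)
    (us' : List (ℕ × ℕ)) (fr' : List Ctx), mrun ops st us fr = some (st', us', fr') →
    OkS st us fr st' us' fr' := by
  intro ops
  induction ops with
  | nil =>
    intro st us fr st' us' fr' h
    simp only [mrun, Option.some.injEq, Prod.mk.injEq] at h
    obtain ⟨rfl, rfl, rfl⟩ := h
    exact OkS_refl _ _ _
  | cons op ops ih =>
    intro st us fr st' us' fr' h
    cases st with
    | nil => simp [mrun] at h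
    | cons c cs =>
      simp only [mrun] at h
      cases hs : step op c with
      | none => rw [hs] at h; exact absurd h (by simp)
      | some x =>
        obtain ⟨cs', u0, fj⟩ := x
        rw [hs] at h
        exact OkS_trans (OkS_step (step_sound _ _ _ _ _ hs)) (ih _ _ _ _ _ _ h)

/-- the stack may be extended below -/
theorem OkS_append {st st' : List Ctx} {us' : List (ℕ × ℕ)} {fr' : List Ctx} (h : OkS st [] [] st' us' fr')
    (r : List Ctx) (us : List (ℕ × ℕ)) (fr : List Ctx) : OkS (st ++ r) us fr (st' ++ r) (us' ++ us) (fr' ++ fr) := by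
  obtain ⟨ua, fa, e1, e2, s⟩ := h
  rw [List.append_nil] at e1 e2
  subst e1 e2
  refine ⟨us', fr', rfl, rfl, ?_⟩
  intro G hG
  obtain ⟨G1, G2, h1, h2, rfl⟩ := RzL_split hG
  obtain ⟨F1, F2, A, f1, f2, a, c⟩ := s G1 h1
  refine ⟨F1 + G2, F2, A, RzL_append f1 h2, f2, ?_, ?_⟩
  · rw [owedL_append, owedL_append]
    calc A + (owedL st' + owedL r + owedL fr') = (A + (owedL st' + owedL fr')) + owedL r := by abel
      _ = _ := by rw [a]; abel
  · refine (Cut.add c (Cut.refl G2)).trans (Cut.of_eq ?_)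
    abel

end Pool.Agent.MMS
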