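import Pool.Agent.MP_94f265_co.ST.WallR

/-!
# The machine in a form which is fast in the kernel

All arithmetic by `Nat.add`, `Nat.mul`, ... on literals, all branches are closed constants, recursion by
recursors, programs are packed into numbers.
-/

namespace Pool.Agent.MMS

theorem rTloM_eq (c m : ℕ) : rTloM c m = TloM c m := rfl
theorem rThiM_eq (c m : ℕ) : rThiM c m = ThiM c m := rfl

theorem rTlo_eq (c m : ℕ) : rTlo c m = Tlo c m := by
  unfold rTlo
  rw [rdl_eq, show (nat_lit 0) + Tdl (nat_lit 2) m c = Tdl 2 m c from Nat.zero_add _]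
  rfl

theorem rThi_eq (c m : ℕ) : rThi c m = Thi c m := by
  unfold rThi
  rw [rdh_eq, show (nat_lit 0) + Tdh (nat_lit 2) m c = Tdh 2 m c from Nat.zero_add _]
  rfl

theorem rTTlo_eq (k m : ℕ) : rTTlo k m = TTlo k m := by
  unfold rTTlo
  rw [rdl_eq, rc_eq, show (nat_lit 0) + Tdl (nat_lit 2) m k = Tdl 2 m k from Nat.zero_add _]
  rfl

theorem rTThi_eq (k m : ℕ) : rTThi k m = TThi k m := by
  unfold rTThi
  rw [rdh_eq, rc_eq, show (nat_lit 0) + Tdh (nat_lit 2) m k = Tdh 2 m k from Nat.zero_add _]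
  rfl

/-! ## the steps -/

/-! general row sums -/

theorem rTSloM_eq (c d m : ℕ) : rTSloM c d m = TSloM c d m := rfl

theorem rTShiM_eq (c d m : ℕ) : rTShiM c d m = TShiM c d m := rfl

theorem rTSlo_eq (c d m : ℕ) : rTSlo c d m = TSlo c d m := by
  unfold rTSlo
  rw [rdl_eq, show (nat_lit 0) + Tdl d m c = Tdl d m c from Nat.zero_add _, rTSloM_eq]
  rfl

theorem rTShi_eq (c d m : ℕ) : rTShi c d m = TShi c d m := by
  unfold rTShi
  rw [rdh_eq, show (nat_lit 0) + Tdh d m c = Tdh d m c from Nat.zero_add _, rTShiM_eq]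
  rfl

theorem endG_eq (al ah k J K : ℕ) : ∀ (n r : ℕ) (rest : List Q4),
    endG al ah k J K n r rest = (List.range n).map (fun s => (al - TShi (k + 2 * (J - 1 - (r + s)) + 1) (2 * J) K,
      ah - TSlo (k + 2 * (J - 1 - (r + s)) + 1) (2 * J) K, Ll (itm k J (r + s) (K - 1)), Lh (itm k J (r + s) (K - 1)))) ++ rest := by
  intro n
  induction n with
  | zero => intro r rest; rfl
  | succ n ih =>
    intro r rest
    show ((al - rTShi (k + 2 * (J - 1 - r) + 1) (2 * J) K, ah - rTSlo (k + 2 * (J - 1 - r) + 1) (2 * J) K, rLl (itm k J r (K - 1)),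
      rLh (itm k J r (K - 1))) : Q4) :: endG al ah k J K n (r + 1) rest = _
    rw [ih, range_map_succ, List.cons_append, Nat.add_zero, rTShi_eq, rTSlo_eq, rLl_eq, rLh_eq]
    congr 2
    refine List.map_congr_left fun s _ => ?_
    rw [show r + 1 + s = r + (s + 1) by ring]

theorem endG_eq' (al ah k J K : ℕ) : endG al ah k J K J (nat_lit 0) List.nil = wendE al ah k J K := by
  rw [endG_eq al ah k J K]
  unfold wendE
  rw [List.append_nil]
  refine List.map_congr_left fun s _ => ?_
  rw [show (nat_lit 0) + s = s from Nat.zero_add s]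

/-- continue with a result -/
def resK (r : Res) : Mt := fun cs us fr κ =>
  match r with
  | none => none
  | some (cs', u0, fj) => κ (cs' ++ cs) (u0 ++ us) (fj ++ fr)

/-- continue after `mrun` -/
def thenK (r : Res) (κ : Kt) : Res :=
  match r with
  | none => none
  | some (st, us, fr) => κ st us fr

theorem resK_bif (b : Bool) (x : List Ctx × List (ℕ × ℕ) × List Ctx) (cs : List Ctx) (us : List (ℕ × ℕ))
    (fr : List Ctx) (κ : Kt) :
    resK (bif b then some x else none) cs us fr κ = thenR b (κ (x.1 ++ cs) (x.2.1 ++ us) (x.2.2 ++ fr)) := by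
  cases b <;> rfl

theorem resK_and (a b : Bool) (X : Res) (cs : List Ctx) (us : List (ℕ × ℕ)) (fr : List Ctx) (κ : Kt) :
    resK (bif (a && b) then X else none) cs us fr κ = thenR a (resK (bif b then X else none) cs us fr κ) := by
  cases a <;> rfl

theorem thenR_and (a b : Bool) (x : Res) : thenR (a && b) x = thenR a (thenR b x) := by
  cases a <;> rfl

theorem thenR_true (x : Res) : thenR true x = x := rfl

/-- the checks of one wall: if they fail both sides fail -/
theorem rwok_eq (al k J K : ℕ) (x : Res) (h : 1 ≤ J → 1 ≤ K → k + 1 ≤ 99999) :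
    rwok al k J K x = thenR (wok al k J K) x := by
  unfold rwok wok
  rw [thenR_and, thenR_and, thenR_and]
  show thenR (Nat.ble 1 k) _ = _
  cases h1 : Nat.ble 1 k with
  | false => rfl
  | true =>
    rw [thenR_true]
    cases h2 : Nat.ble 1 J with
    | false => rfl
    | true =>
      rw [thenR_true]
      cases h3 : Nat.ble 2 K with
      | false => rfl
      | true =>
        rw [thenR_true, thenR_true, thenR_true, rdh_eq]
        have hK : 2 ≤ K := Nat.le_of_ble_eq_true h3
        rw [TShi_dir _ _ (h (Nat.le_of_ble_eq_true h2) (by omega)),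
          show (nat_lit 0) + Tdh (Nat.mul (nat_lit 2) J) K (Nat.add k (nat_lit 1)) = Tdh (2 * J) K (k + 1) from Nat.zero_add _]
        rfl

theorem wallPc_eq (k J K J2 K2 al ah bl bh : ℕ) (cs : List Ctx) (us : List (ℕ × ℕ)) (fr : List Ctx) (κ : Kt) :
    wallPc k J K J2 K2 al ah bl bh cs us fr κ = resK (step (.wall k J K J2 K2) (.pc al ah bl bh)) cs us fr κ := by
  unfold wallPc
  cases hD : Nat.ble (Nat.add (Nat.add k (Nat.mul (nat_lit 2) (Nat.mul J K))) (Nat.mul (nat_lit 2) (Nat.mul J2 K2))) (nat_lit 99999) with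
  | false => rfl
  | true =>
    have hD' : k + 2 * (J * K) + 2 * (J2 * K2) ≤ 99999 := Nat.le_of_ble_eq_true hD
    have hpos : ∀ {a b : ℕ}, 1 ≤ a → 1 ≤ b → 1 ≤ a * b := fun ha hb => Nat.mul_pos ha hb
    show rwok al k J K (rwok al (k + 2 * (J * K)) J2 K2
      (wallG k (k + 2 * (J * K)) J K J2 K2 al ah bl bh cs us fr κ)) = _
    rw [rwok_eq al k J K _ (fun h1 h2 => by have := hpos h1 h2; omega),
      rwok_eq al (k + 2 * (J * K)) J2 K2 _ (fun h1 h2 => by have := hpos h1 h2; omega)]
    show _ = resK (bif wok al k J K && wok al (k + 2 * (J * K)) J2 K2 then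
      match mrg bl bh (K + K2) (wprof al ah k J K) (wprof al ah (k + 2 * (J * K)) J2 K2).reverse with
      | none => none
      | some ms =>
        some ([.ls ms, .ls (wendE al ah k J K ++ wendE al ah (k + 2 * (J * K)) J2 K2),
          .ls (wbitE k J K ++ wbitE (k + 2 * (J * K)) J2 K2)], [(k, 2 * (J * K + J2 * K2))], [])
      else none) cs us fr κ
    rw [resK_and]
    cases w1 : wok al k J K with
    | false => rfl
    | true =>
      cases w2 : wok al (k + 2 * (J * K)) J2 K2 with
      | false => rfl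
      | true =>
        rw [thenR_true, thenR_true, cond_true]
        obtain ⟨a1, a2, a3, a4⟩ := wok_iff w1
        obtain ⟨b1, b2, b3, b4⟩ := wok_iff w2
        have e1 : k + 2 * (J * K) ≤ 99999 := by omega
        unfold wallG
        rw [endR_eq' al ah (k + 2 * (J * K)) J2 K2 b2 (by omega) hD', endR_eq' al ah k J K a2 (by omega) e1,
          bitsR_eq b2 (by omega) hD', bitsR_eq a2 (by omega) e1, mrgR_eq, wprofR_eq al ah a2 (by omega) e1,
          wprofR_eq al ah b2 (by omega) hD', rrev_eq]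
        show _ = resK (match mrg bl bh (K + K2) (wprof al ah k J K) (wprof al ah (k + 2 * (J * K)) J2 K2).reverse with
          | none => none
          | some ms =>
            some ([.ls ms, .ls (wendE al ah k J K ++ wendE al ah (k + 2 * (J * K)) J2 K2),
              .ls (wbitE k J K ++ wbitE (k + 2 * (J * K)) J2 K2)], [(k, 2 * (J * K + J2 * K2))], [])) cs us fr κ
        rw [List.append_nil, List.append_nil, List.append_nil]
        show Option.rec (motive := fun _ => Res) none _ (accO [] (mrg bl bh (K + K2) (wprof al ah k J K)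
          (wprof al ah (k + 2 * (J * K)) J2 K2).reverse)) = _
        cases mrg bl bh (K + K2) (wprof al ah k J K) (wprof al ah (k + 2 * (J * K)) J2 K2).reverse with
        | none => rfl
        | some ms => rfl

theorem fR_eq (x : ℕ) (y : Res) : fR x y = y := by
  unfold fR
  cases Nat.ble x (nat_lit 0) <;> rfl

/-- `strip1` by the spec functions -/
theorem strip1_eq (k m al ah bl bh : ℕ) (cs : List Ctx) (us : List (ℕ × ℕ)) (fr : List Ctx) (κ : Kt) :
    strip1 k m al ah bl bh cs us fr κ = thenR (Nat.ble (TThi k m) bl)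
      (κ (.ch al ah k m :: .pc al ah (bl - TThi k m) (bh - TTlo k m) :: cs) ((k, 2 * m) :: us) fr) := by
  have key : ∀ lo hi : ℕ, chPc lo hi k m al ah bl bh cs us fr κ = thenR (Nat.ble hi bl)
      (κ (.ch al ah k m :: .pc al ah (bl - hi) (bh - lo) :: cs) ((k, 2 * m) :: us) fr) := by
    intro lo hi
    unfold chPc
    rw [fR_eq]
    rfl
  unfold strip1 TTlo TThi
  show (Bool.rec (motive := fun _ => Nat → Nat → Nat → Nat → Mt) _ _ (Nat.ble k 99999) : Nat → Nat → Nat → Nat → Mt)
    al ah bl bh cs us fr κ = _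
  cases Nat.ble k 99999 with
  | false =>
    rw [cond_false, cond_false]
    exact key _ _
  | true =>
    rw [cond_true, cond_true]
    show chPc _ _ k m al ah bl bh cs us fr κ = _
    rw [key, rdl_eq, rdh_eq, rc_eq, rc_eq, show (nat_lit 0) + Tdl (nat_lit 2) m k = Tdl 2 m k from Nat.zero_add _,
      show (nat_lit 0) + Tdh (nat_lit 2) m k = Tdh 2 m k from Nat.zero_add _]
    rfl

/-- `g` executes the operations `ops` on a nonempty stack -/
def Ex (g : Ctx → Mt) (ops : List Op) : Prop := ∀ (c : Ctx) (cs : List Ctx) (us : List (ℕ × ℕ)) (fr : List Ctx) (κ : Kt),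
  g c cs us fr κ = thenK (mrun ops (c :: cs) us fr) κ

/-- `f` executes `ops`, then `κ` -/
def KE (f : Kt) (ops : List Op) (κ : Kt) : Prop := ∀ (st : List Ctx) (us : List (ℕ × ℕ)) (fr : List Ctx),
  f st us fr = thenK (mrun ops st us fr) κ

/-- the rest of `mrun` after a step -/
def stepK (ops : List Op) (r : Res) (cs : List Ctx) (us : List (ℕ × ℕ)) (fr : List Ctx) : Res :=
  match r with
  | none => none
  | some (cs', u0, fj) => mrun ops (cs' ++ cs) (u0 ++ us) (fj ++ fr)

theorem mrun_cons (op : Op) (ops : List Op) (c : Ctx) (cs : List Ctx) (us : List (ℕ × ℕ)) (fr : List Ctx) :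
    mrun (op :: ops) (c :: cs) us fr = stepK ops (step op c) cs us fr := rfl

theorem mk_bif (ops : List Op) (b : Bool) (x : List Ctx × List (ℕ × ℕ) × List Ctx) (cs : List Ctx) (us : List (ℕ × ℕ))
    (fr : List Ctx) (κ : Kt) : thenK (stepK ops (bif b then some x else none) cs us fr) κ =
      thenR b (thenK (mrun ops (x.1 ++ cs) (x.2.1 ++ us) (x.2.2 ++ fr)) κ) := by
  cases b <;> rfl

theorem mk_and (ops : List Op) (a b : Bool) (X : Res) (cs : List Ctx) (us : List (ℕ × ℕ)) (fr : List Ctx) (κ : Kt) :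
    thenK (stepK ops (bif (a && b) then X else none) cs us fr) κ =
      thenR a (thenK (stepK ops (bif b then X else none) cs us fr) κ) := by
  cases a <;> rfl

theorem Ex_of (g : Ctx → Mt) (op : Op) (h : ∀ (c : Ctx) (cs : List Ctx) (us : List (ℕ × ℕ)) (fr : List Ctx) (κ : Kt),
    g c cs us fr κ = resK (step op c) cs us fr κ) : Ex g [op] := by
  intro c cs us fr κ
  rw [h, mrun_cons]
  cases step op c with
  | none => rfl
  | some x => rfl

theorem Ex_nil : Ex fNil [.nil] := Ex_of _ _ fun c cs us fr κ => rfl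

theorem Ex_cut (h : ℕ) : Ex (onPc (cutPc h)) [.cut h] := by
  refine Ex_of _ _ fun c cs us fr κ => ?_
  cases c with
  | pc al ah bl bh =>
    show cutPc h al ah bl bh cs us fr κ = resK (bif Nat.ble h bl then
      some ([.pc al ah h h, .pc al ah (bl - h) (bh - h)], [], []) else none) cs us fr κ
    rw [resK_bif]
    unfold cutPc
    rw [fR_eq]
    rfl
  | _ => rfl

theorem corner_eq (ul' uh' vl vh : ℕ) (e : ℕ × ℕ) (al ah bl bh : ℕ) (cs : List Ctx) (us : List (ℕ × ℕ)) (fr : List Ctx)
    (κ : Kt) : cornerPc ul' uh' vl vh e al ah bl bh cs us fr κ = thenR (Nat.ble uh' al) (thenR (Nat.ble vh bl)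
      (κ (.pc (al - uh') (ah - ul') bl bh :: .pc ul' uh' (bl - vh) (bh - vl) :: cs) (e :: us) fr)) := by
  unfold cornerPc
  rw [fR_eq, fR_eq]
  rfl

theorem Ex_item0 (k : ℕ) : Ex (onPc (item0Pc k)) [.item0 k] := by
  refine Ex_of _ _ fun c cs us fr κ => ?_
  cases c with
  | pc al ah bl bh =>
    show item0Pc k al ah bl bh cs us fr κ = resK (bif Nat.ble 1 k && (Nat.ble (uh k) al && Nat.ble (uh (k + 1)) bl) then
        some ([.pc (al - uh k) (ah - ul k) bl bh, .pc (ul k) (uh k) (bl - uh (k + 1)) (bh - ul (k + 1))],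
          [(k, 1)], []) else none) cs us fr κ
    rw [resK_and, resK_and, resK_bif, ← rc_eq, ← rc_eq]
    unfold item0Pc
    rw [corner_eq]
    rfl
  | _ => rfl

theorem Ex_item1 (k : ℕ) : Ex (onPc (item1Pc k)) [.item1 k] := by
  refine Ex_of _ _ fun c cs us fr κ => ?_
  cases c with
  | pc al ah bl bh =>
    show item1Pc k al ah bl bh cs us fr κ = resK (bif Nat.ble 1 k && (Nat.ble (uh (k + 1)) al && Nat.ble (uh k) bl) then
        some ([.pc (al - uh (k + 1)) (ah - ul (k + 1)) bl bh, .pc (ul (k + 1)) (uh (k + 1)) (bl - uh k) (bh - ul k)],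
          [(k, 1)], []) else none) cs us fr κ
    rw [resK_and, resK_and, resK_bif, ← rc_eq, ← rc_eq]
    unfold item1Pc
    rw [corner_eq]
    rfl
  | _ => rfl

theorem Ex_dom (k : ℕ) : Ex (onPc (domPc k)) [.dom k] := by
  refine Ex_of _ _ fun c cs us fr κ => ?_
  cases c with
  | pc al ah bl bh =>
    show domPc k al ah bl bh cs us fr κ = resK (bif Nat.ble 1 k && (Nat.ble (uh (k + 1)) al && Nat.ble (Lh k) bl) then
        some ([.pc (al - uh (k + 1)) (ah - ul (k + 1)) bl bh, .pc (ul (k + 1)) (uh (k + 1)) (bl - Lh k) (bh - Ll k)],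
          [(k, 2)], []) else none) cs us fr κ
    rw [resK_and, resK_and, resK_bif, ← rc_eq, ← rLh_eq]
    unfold domPc
    rw [corner_eq]
    rfl
  | _ => rfl

theorem Ex_strip (k m : ℕ) : Ex (onPc (stripPc k m)) [.strip k m] := by
  refine Ex_of _ _ fun c cs us fr κ => ?_
  cases c with
  | pc al ah bl bh =>
    show stripPc k m al ah bl bh cs us fr κ = resK (bif (Nat.ble 1 k && Nat.ble 1 m) && (Nat.ble (uh (k + 1)) al &&
      Nat.ble (TThi k m) bl) then
        some ([.ch al ah k m, .pc al ah (bl - TThi k m) (bh - TTlo k m)], [(k, 2 * m)], []) else none) cs us fr κ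
    rw [resK_and, resK_and, resK_bif, thenR_and, ← rc_eq]
    unfold stripPc
    rw [strip1_eq]
    rfl
  | _ => rfl

theorem Ex_ustrip (k m : ℕ) : Ex (onPc (ustripPc k m)) [.ustrip k m] := by
  refine Ex_of _ _ fun c cs us fr κ => ?_
  cases c with
  | pc al ah bl bh =>
    show ustripPc k m al ah bl bh cs us fr κ = resK (bif (Nat.ble 1 k && Nat.ble 1 m) && (Nat.ble (Lh k) al &&
      Nat.ble (Thi (k + 1) m) bl) then
        some ([.uch al ah k m, .pc al ah (bl - Thi (k + 1) m) (bh - Tlo (k + 1) m)], [(k, 2 * m)], []) else none)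
        cs us fr κ
    rw [resK_and, resK_and, resK_bif, thenR_and, ← rLh_eq, ← rThi_eq, ← rTlo_eq]
    unfold ustripPc uchPc
    rw [fR_eq]
    rfl
  | _ => rfl

theorem Ex_wall (k J K J2 K2 : ℕ) : Ex (onPc (wallPc k J K J2 K2)) [.wall k J K J2 K2] := by
  refine Ex_of _ _ fun c cs us fr κ => ?_
  cases c with
  | pc al ah bl bh => exact wallPc_eq k J K J2 K2 al ah bl bh cs us fr κ
  | _ => rfl

theorem Ex_wallj (k J K J2 K2 : ℕ) : Ex (viaStep (.wallj k J K J2 K2)) [.wallj k J K J2 K2] :=
  Ex_of _ _ fun c cs us fr κ => rfl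

theorem Ex_bwall (k J K : ℕ) : Ex (onPc (bwallPc k J K)) [.bwall k J K] := by
  refine Ex_of _ _ fun c cs us fr κ => ?_
  cases c with
  | pc al ah bl bh =>
    show bwallPc k J K al ah bl bh cs us fr κ = resK (bif wok al k J K && Nat.ble (Thi k J + Thi (k + 2) J) bl then
      some ([.mc bl bh k J (K - 1),
        .pc (al - TShi (k + 1) (2 * J) (K - 1)) (ah - TSlo (k + 1) (2 * J) (K - 1))
            (bl - (Thi (k + 2 * ((K - 1) * J)) J + Thi (k + 2 * ((K - 1) * J) + 2) J))
            (bh - (Tlo (k + 2 * ((K - 1) * J)) J + Tlo (k + 2 * ((K - 1) * J) + 2) J)),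
        .ls (wendE al ah k J K)], [(k, 2 * (J * K))], [.bt k J K])
      else none) cs us fr κ
    rw [resK_bif, thenR_and]
    unfold wok
    rw [thenR_and, thenR_and, thenR_and, ← rTShi_eq, ← rThi_eq, ← rThi_eq, ← endG_eq', ← rTShi_eq, ← rTSlo_eq, ← rThi_eq,
      ← rThi_eq, ← rTlo_eq, ← rTlo_eq]
    rfl
  | _ => rfl

theorem Ex_skip (s : ℕ) : Ex (fSkip s) [.skip s] := by
  refine Ex_of _ _ fun c cs us fr κ => ?_
  cases c with
  | mc Hl Hh k J m =>
    show skipMc s Hl Hh k J m cs us fr κ = resK (bif Nat.ble s m then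
      some ([.mc Hl Hh (k + 2 * (s * J)) J (m - s)], [], [.mc Hl Hh k J s]) else none) cs us fr κ
    rw [resK_bif]
    rfl
  | ch wl wh k m =>
    show skipCh s wl wh k m cs us fr κ = resK (bif Nat.ble s m then some ([.ch wl wh (k + 2 * s) (m - s)], [], [.ch wl wh k s])
      else none) cs us fr κ
    rw [resK_bif]
    rfl
  | uch wl wh k m =>
    show skipUch s wl wh k m cs us fr κ = resK (bif Nat.ble s m then
      some ([.uch wl wh (k + 2 * s) (m - s)], [], [.uch wl wh k s]) else none) cs us fr κ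
    rw [resK_bif]
    rfl
  | ls l =>
    show κ (List.cons (Ctx.ls (rdrop s l)) cs) us (List.cons (Ctx.ls (rtake s l)) fr) = _
    rw [rdrop_eq, rtake_eq]
    rfl
  | _ => rfl

theorem Ex_sw {g : Ctx → Mt} {ops : List Op} (h : Ex g ops) : Ex (gSw g) (.sw :: ops) := by
  intro c cs us fr κ
  cases c with
  | pc al ah bl bh =>
    show g (.pc bl bh al ah) cs us fr κ = _
    rw [h]
    rfl
  | _ => rfl

theorem Ex_kid {g : Ctx → Mt} {ops : List Op} (h : Ex g ops) : Ex (gKid g) (.kid :: ops) := by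
  intro c cs us fr κ
  rw [mrun_cons]
  cases c with
  | pc al ah bl bh => rfl
  | ch wl wh k m =>
    show kidCh g wl wh k m cs us fr κ = thenK (stepK ops (bif Nat.ble 1 m && (Nat.ble 1 k && Nat.ble (uh (k + 1)) wl) then
        some ([.pc (wl - uh (k + 1)) (wh - ul (k + 1)) (Ll k) (Lh k), .ch wl wh (k + 2) (m - 1)], [], [])
        else none) cs us fr) κ
    rw [mk_and, mk_and, mk_bif, ← rc_eq, ← rLh_eq]
    unfold kidCh
    rw [h]
    rfl
  | uch wl wh k m =>
    show kidUch g wl wh k m cs us fr κ = thenK (stepK ops (bif Nat.ble 1 m && (Nat.ble 1 k && Nat.ble (Lh k) wl) then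
        some ([.pc (wl - Lh k) (wh - Ll k) (ul (k + 1)) (uh (k + 1)), .uch wl wh (k + 2) (m - 1)], [], [])
        else none) cs us fr) κ
    rw [mk_and, mk_and, mk_bif, ← rc_eq, ← rLh_eq]
    unfold kidUch
    rw [h]
    rfl
  | ls l =>
    cases l with
    | nil => rfl
    | cons e l =>
      show g (.pc e.1 e.2.1 e.2.2.1 e.2.2.2) (.ls l :: cs) us fr κ = _
      rw [h]
      rfl
  | mc Hl Hh k J m =>
    show kidMc g Hl Hh k J m cs us fr κ = thenK (stepK ops (bif (Nat.ble 1 m && Nat.ble 1 J) && (Nat.ble 1 k &&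
        Nat.ble (TThi k J) Hl) then
        some ([.pc (ul (k + 1)) (uh (k + 1)) (Hl - TThi k J) (Hh - TTlo k J),
          .mc Hl Hh (k + 2 * J) J (m - 1)], [], []) else none) cs us fr) κ
    rw [mk_and, mk_and, mk_bif, thenR_and, ← rc_eq, ← rTThi_eq, ← rTTlo_eq]
    unfold kidMc kidMc2
    rw [h]
    rfl
  | bt k J K => rfl

theorem mrun_append (o1 o2 : List Op) (st : List Ctx) (us : List (ℕ × ℕ)) (fr : List Ctx) :
    mrun (o1 ++ o2) st us fr = thenK (mrun o1 st us fr) (fun st us fr => mrun o2 st us fr) := by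
  induction o1 generalizing st us fr with
  | nil => rfl
  | cons op o1 ih =>
    cases st with
    | nil => rfl
    | cons c cs =>
      rw [List.cons_append, mrun_cons, mrun_cons]
      cases hs : step op c with
      | none => rfl
      | some x =>
        obtain ⟨cs', u0, fj⟩ := x
        exact ih _ _ _

theorem KE_refl (κ : Kt) : KE κ [] κ := fun _ _ _ => rfl

theorem KE_append {f f' κ : Kt} {o1 o2 : List Op} (h1 : KE f o1 f') (h2 : KE f' o2 κ) : KE f (o1 ++ o2) κ := by
  intro st us fr
  rw [h1, mrun_append]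
  cases mrun o1 st us fr with
  | none => rfl
  | some x => exact h2 _ _ _

theorem KE_gcons {g : Ctx → Mt} {ops : List Op} (h : Ex g ops) (hne : ops ≠ []) (f : Kt) : KE (gcons g f) ops f := by
  intro st us fr
  cases st with
  | nil =>
    cases ops with
    | nil => exact absurd rfl hne
    | cons op ops => rfl
  | cons c cs => exact h c cs us fr f

theorem KE_nilK (f : Kt) : KE (nilK f) [.nil] f := by
  intro st us fr
  cases st with
  | nil => rfl
  | cons c cs => rfl

/-- `n` times `nil` -/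
def nilL : ℕ → List Op
  | 0 => []
  | n + 1 => .nil :: nilL n

theorem KE_nils (n : ℕ) (f : Kt) : KE (nilsK n f) (nilL n) f := by
  induction n with
  | zero => exact KE_refl f
  | succ n ih => exact KE_append (KE_nilK (nilsK n f)) ih

/-! decoding -/

/-- the operation with code `c` and data `k`, `m` -/
def dop (c k m : ℕ) : Op :=
  bif Nat.beq c 1 then .strip k m else bif Nat.beq c 2 then .item1 k else
  bif Nat.beq c 7 then .bwall k (m / 32768) (m % 32768) else bif Nat.beq c 5 then .skip k else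
  bif Nat.beq c 3 then .item0 k else bif Nat.beq c 4 then .ustrip k m else bif Nat.beq c 6 then .dom k else .nil

theorem Ex_bool (b : Bool) {g g' : Ctx → Mt} {l l' : List Op} (h : Ex g l) (h' : Ex g' l') :
    Ex (Bool.rec (motive := fun _ => Ctx → Mt) g' g b) (bif b then l else l') := by
  cases b
  · exact h'
  · exact h

theorem Ex_xop (c k m : ℕ) : Ex (xop c k m) [dop c k m] := by
  have e : [dop c k m] = bif Nat.beq c 1 then [.strip k m] else bif Nat.beq c 2 then [.item1 k] else
      bif Nat.beq c 7 then [.bwall k (m / 32768) (m % 32768)] else bif Nat.beq c 5 then [.skip k] else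
      bif Nat.beq c 3 then [.item0 k] else bif Nat.beq c 4 then [.ustrip k m] else
      bif Nat.beq c 6 then [.dom k] else [.nil] := by
    unfold dop
    cases Nat.beq c 1 <;> cases Nat.beq c 2 <;> cases Nat.beq c 7 <;> cases Nat.beq c 5 <;> cases Nat.beq c 3 <;>
      cases Nat.beq c 4 <;> cases Nat.beq c 6 <;> rfl
  rw [e]
  exact Ex_bool _ (Ex_strip k m) (Ex_bool _ (Ex_item1 k) (Ex_bool _ (Ex_bwall _ _ _) (Ex_bool _ (Ex_skip k)
    (Ex_bool _ (Ex_item0 k) (Ex_bool _ (Ex_ustrip k m) (Ex_bool _ (Ex_dom k) Ex_nil))))))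

/-- flags -/
def swL (b : ℕ) (l : List Op) : List Op := bif Nat.beq b 0 then l else .sw :: l
def kidL (b : ℕ) (l : List Op) : List Op := bif Nat.beq b 0 then l else .kid :: l

theorem Ex_xsw (b : ℕ) {g : Ctx → Mt} {l : List Op} (h : Ex g l) : Ex (xsw b g) (swL b l) := Ex_bool _ h (Ex_sw h)
theorem Ex_xkid (b : ℕ) {g : Ctx → Mt} {l : List Op} (h : Ex g l) : Ex (xkid b g) (kidL b l) := Ex_bool _ h (Ex_kid h)

theorem swL_ne {b : ℕ} {l : List Op} (h : l ≠ []) : swL b l ≠ [] := by
  unfold swL
  cases Nat.beq b 0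
  · exact List.cons_ne_nil _ _
  · exact h

theorem kidL_ne {b : ℕ} {l : List Op} (h : l ≠ []) : kidL b l ≠ [] := by
  unfold kidL
  cases Nat.beq b 0
  · exact List.cons_ne_nil _ _
  · exact h

/-- the operations of a word -/
def wops (w : ℕ) : List Op :=
  kidL (Nat.land w 16) (swL (Nat.land w 32) [dop (Nat.land w 15) (Nat.land (Nat.shiftRight w 9) 536870911)
    (Nat.shiftRight w 38)]) ++ nilL (Nat.land (Nat.shiftRight w 6) 7)

theorem KE_word (w : ℕ) (κ : Kt) : KE (xword w κ) (wops w) κ := by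
  refine KE_append (f' := nilsK (Nat.land (Nat.shiftRight w 6) 7) κ) ?_ (KE_nils _ κ)
  exact KE_gcons (Ex_xkid _ (Ex_xsw _ (Ex_xop _ _ _))) (kidL_ne (swL_ne (List.cons_ne_nil _ _))) _

/-- the operations of a number of words -/
def wopsN : ℕ → ℕ → List Op
  | 0, _ => []
  | n + 1, x => bif Nat.beq x 0 then [] else wops (Nat.land x 18446744073709551615) ++ wopsN n (Nat.shiftRight x 64)

theorem KE_words (n : ℕ) : ∀ (x : ℕ) (κ : Kt), KE (xwords n x κ) (wopsN n x) κ := by
  induction n with
  | zero => intro x κ; exact KE_refl κ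
  | succ n ih =>
    intro x κ
    show KE (Bool.rec (motive := fun _ => Kt) (xword (Nat.land x 18446744073709551615) (xwords n (Nat.shiftRight x 64) κ)) κ
      (Nat.beq x 0)) (bif Nat.beq x 0 then [] else wops (Nat.land x 18446744073709551615) ++ wopsN n (Nat.shiftRight x 64)) κ
    cases Nat.beq x 0 with
    | true => exact KE_refl κ
    | false => exact KE_append (KE_word _ _) (ih _ _)

/-- the big operations -/
def dbigO (c x : ℕ) : Op :=
  bif Nat.beq c 13 then .cut x else bif Nat.beq c 14 then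
    .wall (Nat.land x 536870911) (Nat.land (Nat.shiftRight x 29) 63) (Nat.land (Nat.shiftRight x 35) 65535)
      (Nat.land (Nat.shiftRight x 51) 63) (Nat.shiftRight x 57)
  else .wallj (Nat.land x 536870911) (Nat.land (Nat.shiftRight x 29) 63) (Nat.land (Nat.shiftRight x 35) 65535)
      (Nat.land (Nat.shiftRight x 51) 63) (Nat.shiftRight x 57)

theorem Ex_xbig (c x : ℕ) : Ex (xbig c x) [dbigO c x] := by
  have e : [dbigO c x] = bif Nat.beq c 13 then [.cut x] else bif Nat.beq c 14 then
      [.wall (Nat.land x 536870911) (Nat.land (Nat.shiftRight x 29) 63) (Nat.land (Nat.shiftRight x 35) 65535)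
        (Nat.land (Nat.shiftRight x 51) 63) (Nat.shiftRight x 57)]
      else [.wallj (Nat.land x 536870911) (Nat.land (Nat.shiftRight x 29) 63) (Nat.land (Nat.shiftRight x 35) 65535)
        (Nat.land (Nat.shiftRight x 51) 63) (Nat.shiftRight x 57)] := by
    unfold dbigO
    cases Nat.beq c 13 <;> cases Nat.beq c 14 <;> rfl
  rw [e]
  exact Ex_bool _ (Ex_cut x) (Ex_bool _ (Ex_wall _ _ _ _ _) (Ex_wallj _ _ _ _ _))

/-- the operations of an element -/
def eops (x : ℕ) : List Op :=
  bif Nat.ble 12 (Nat.land x 15) then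
    kidL (Nat.land x 16) (swL (Nat.land x 32) [dbigO (Nat.land x 15) (Nat.shiftRight x 9)]) ++
      nilL (Nat.land (Nat.shiftRight x 6) 7)
  else wopsN 64 x

theorem KE_elem (x : ℕ) (κ : Kt) : KE (xelem x κ) (eops x) κ := by
  show KE (Bool.rec (motive := fun _ => Kt) (xwords 64 x κ)
    (gcons (xkid (Nat.land x 16) (xsw (Nat.land x 32) (xbig (Nat.land x 15) (Nat.shiftRight x 9))))
      (nilsK (Nat.land (Nat.shiftRight x 6) 7) κ))
    (Nat.ble 12 (Nat.land x 15))) (bif Nat.ble 12 (Nat.land x 15) then _ else _) κ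
  cases Nat.ble 12 (Nat.land x 15) with
  | false => exact KE_words 64 x κ
  | true =>
    refine KE_append (f' := nilsK (Nat.land (Nat.shiftRight x 6) 7) κ) ?_ (KE_nils _ κ)
    exact KE_gcons (Ex_xkid _ (Ex_xsw _ (Ex_xbig _ _))) (kidL_ne (swL_ne (List.cons_ne_nil _ _))) _

/-- the operations of a packed program -/
def opsE : List ℕ → List Op
  | [] => []
  | x :: l => eops x ++ opsE l

theorem frunE_eq (els : List ℕ) (κ : Kt) : KE (frunE els κ) (opsE els) κ := by
  induction els with
  | nil => exact KE_refl κ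
  | cons x els ih => exact KE_append (KE_elem x _) ih

end Pool.Agent.MMS
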