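import Pool.Agent.MP_94f265_co.ST.P1Def
import Pool.Agent.MP_94f265_co.ST.Phase1
import Pool.Agent.MP_94f265_co.ST.Part

/-!
# Phase 1 for the kernel: soundness of the fast check
-/

namespace Pool.Agent.MMS

theorem thenB_eq (b x : Bool) : thenB b x = (b && x) := by cases b <;> rfl

theorem elseB_eq (b x : Bool) : elseB b x = (b || x) := by cases b <;> rfl

theorem frcB_eq {α : Type} (x : Nat) (y : α) : frc x y = y := by
  unfold frc
  cases Nat.ble x (nat_lit 0) <;> rfl

theorem sepR_eq (p q : Q4) : sepR p q = sepb p q := by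
  unfold sepR sepb
  rw [elseB_eq, elseB_eq, elseB_eq]

theorem allSepR_eq (p : Q4) : ∀ l : List Q4, allSepR p l = allSep p l
  | [] => rfl
  | q :: l => by
    have h : allSepR p (q :: l) = thenB (sepR p q) (allSepR p l) := rfl
    rw [h, thenB_eq, sepR_eq, allSepR_eq p l]
    rfl

theorem pairR_eq : ∀ l : List Q4, pairR l = pairb l
  | [] => rfl
  | p :: l => by
    have h : pairR (p :: l) = thenB (allSepR p l) (pairR l) := rfl
    rw [h, thenB_eq, allSepR_eq, pairR_eq l]
    rfl

/-- separation as a relation -/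
def Sp (p q : R4) : Prop := sepb p q = true

theorem Sp_symm {p q : R4} (h : Sp p q) : Sp q p := by
  unfold Sp sepb at *
  simp only [Bool.or_eq_true] at h ⊢
  tauto

theorem pairb_iff : ∀ l : List R4, pairb l = true ↔ l.Pairwise Sp
  | [] => by simp [pairb]
  | p :: l => by
    have h1 : ∀ m : List R4, allSep p m = true ↔ ∀ q ∈ m, Sp p q := by
      intro m
      induction m with
      | nil => simp [allSep]
      | cons q m ih => simp [allSep, ih, Sp]
    rw [List.pairwise_cons, ← pairb_iff l, ← h1]
    simp [pairb]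

/-- a pairwise symmetric relation from two filters -/
theorem pairwise_of_filters (f g : R4 → Bool) : ∀ l : List R4, (l.filter f).Pairwise Sp → (l.filter g).Pairwise Sp →
    (∀ p ∈ l, ∀ q ∈ l, ¬(f p = true ∧ f q = true) → ¬(g p = true ∧ g q = true) → Sp p q) → l.Pairwise Sp
  | [], _, _, _ => List.Pairwise.nil
  | p :: l, hf, hg, h => by
    rw [List.pairwise_cons]
    constructor
    · intro q hq
      by_cases h1 : f p = true ∧ f q = true
      · rw [List.filter_cons_of_pos h1.1, List.pairwise_cons] at hf
        exact hf.1 q (List.mem_filter.2 ⟨hq, h1.2⟩)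
      · by_cases h2 : g p = true ∧ g q = true
        · rw [List.filter_cons_of_pos h2.1, List.pairwise_cons] at hg
          exact hg.1 q (List.mem_filter.2 ⟨hq, h2.2⟩)
        · exact h p (by simp) q (by simp [hq]) h1 h2
    · refine pairwise_of_filters f g l ?_ ?_ (fun a ha b hb => h a (by simp [ha]) b (by simp [hb]))
      · exact List.Pairwise.sublist (List.Sublist.filter f (List.sublist_cons_self p l)) hf
      · exact List.Pairwise.sublist (List.Sublist.filter g (List.sublist_cons_self p l)) hg

theorem splX_eq (c : Nat) (K : List Q4 → List Q4 → Bool) : ∀ (l A B : List Q4), splX c K l A B =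
    K ((l.filter (fun q => Nat.ble q.2.1 c || !Nat.ble c q.1)).reverse ++ A)
      ((l.filter (fun q => !Nat.ble q.2.1 c)).reverse ++ B)
  | [], A, B => rfl
  | p :: l, A, B => by
    have h : splX c K (p :: l) A B = bodX c p (splX c K l) A B := rfl
    rw [h]
    unfold bodX
    cases h1 : Nat.ble p.2.1 c
    · cases h2 : Nat.ble c p.1
      · show splX c K l (p :: A) (p :: B) = _
        rw [splX_eq c K l (p :: A) (p :: B)]
        simp [h1, h2]
      · show splX c K l A (p :: B) = _
        rw [splX_eq c K l A (p :: B)]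
        simp [h1, h2]
    · show splX c K l (p :: A) B = _
      rw [splX_eq c K l (p :: A) B]
      simp [h1]

theorem splY_eq (c : Nat) (K : List Q4 → List Q4 → Bool) : ∀ (l A B : List Q4), splY c K l A B =
    K ((l.filter (fun q => Nat.ble q.2.2.2 c || !Nat.ble c q.2.2.1)).reverse ++ A)
      ((l.filter (fun q => !Nat.ble q.2.2.2 c)).reverse ++ B)
  | [], A, B => rfl
  | p :: l, A, B => by
    have h : splY c K (p :: l) A B = bodY c p (splY c K l) A B := rfl
    rw [h]
    unfold bodY
    cases h1 : Nat.ble p.2.2.2 c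
    · cases h2 : Nat.ble c p.2.2.1
      · show splY c K l (p :: A) (p :: B) = _
        rw [splY_eq c K l (p :: A) (p :: B)]
        simp [h1, h2]
      · show splY c K l A (p :: B) = _
        rw [splY_eq c K l A (p :: B)]
        simp [h1, h2]
    · show splY c K l (p :: A) B = _
      rw [splY_eq c K l (p :: A) B]
      simp [h1]

theorem pairwise_rev {l : List R4} (h : l.reverse.Pairwise Sp) : l.Pairwise Sp := by
  rw [List.pairwise_reverse] at h
  exact h.imp (fun hab => Sp_symm hab)

theorem kdR_sound : ∀ (t : KT) (l : List Q4), kdR t l = true → l.Pairwise Sp := by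
  intro t
  induction t with
  | leaf =>
    intro l h
    have h' : pairR l = true := h
    rw [pairR_eq] at h'
    exact (pairb_iff l).1 h'
  | nx c a b iha ihb =>
    intro l h
    have h' : splX c (fun A B => thenB (kdR a A) (kdR b B)) l [] [] = true := h
    rw [splX_eq, thenB_eq, Bool.and_eq_true, List.append_nil, List.append_nil] at h'
    refine pairwise_of_filters _ _ l (pairwise_rev (iha _ h'.1)) (pairwise_rev (ihb _ h'.2)) ?_
    intro p _ q _ h1 h2
    simp only [Bool.or_eq_true, Bool.not_eq_true', Nat.ble_eq, Bool.not_eq_eq_eq_not, Bool.not_true] at h1 h2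
    have hb : ∀ m n : Nat, Nat.ble m n = false ↔ ¬ m ≤ n := by
      intro m n
      rw [← Nat.ble_eq, Bool.not_eq_true]
    simp only [hb] at h1 h2
    unfold Sp sepb
    simp only [Bool.or_eq_true, Nat.ble_eq]
    omega
  | ny c a b iha ihb =>
    intro l h
    have h' : splY c (fun A B => thenB (kdR a A) (kdR b B)) l [] [] = true := h
    rw [splY_eq, thenB_eq, Bool.and_eq_true, List.append_nil, List.append_nil] at h'
    refine pairwise_of_filters _ _ l (pairwise_rev (iha _ h'.1)) (pairwise_rev (ihb _ h'.2)) ?_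
    intro p _ q _ h1 h2
    simp only [Bool.or_eq_true, Bool.not_eq_true', Nat.ble_eq, Bool.not_eq_eq_eq_not, Bool.not_true] at h1 h2
    have hb : ∀ m n : Nat, Nat.ble m n = false ↔ ¬ m ≤ n := by
      intro m n
      rw [← Nat.ble_eq, Bool.not_eq_true]
    simp only [hb] at h1 h2
    unfold Sp sepb
    simp only [Bool.or_eq_true, Nat.ble_eq]
    omega

theorem appR_eq : ∀ l l' : List Q4, appR l l' = l ++ l'
  | [], _ => rfl
  | p :: l, l' => by
    have h : appR (p :: l) l' = p :: appR l l' := rfl
    rw [h, appR_eq l l']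
    rfl

theorem areaR_eq : ∀ (l : List Q4) (a : Nat), areaR l a = areaN l + a
  | [], a => by
    have h : areaR [] a = a := rfl
    rw [h]
    simp [areaN]
  | p :: l, a => by
    have h : areaR (p :: l) a = frc (Nat.add (Nat.mul (Nat.sub p.2.1 p.1) (Nat.sub p.2.2.2 p.2.2.1)) a)
      (areaR l (Nat.add (Nat.mul (Nat.sub p.2.1 p.1) (Nat.sub p.2.2.2 p.2.2.1)) a)) := rfl
    rw [h, frcB_eq, areaR_eq l]
    have e : Nat.add (Nat.mul (Nat.sub p.2.1 p.1) (Nat.sub p.2.2.2 p.2.2.1)) a =
        (p.2.1 - p.1) * (p.2.2.2 - p.2.2.1) + a := rfl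
    rw [e]
    simp only [areaN]
    ring

theorem areaN_append (l l' : List R4) : areaN (l ++ l') = areaN l + areaN l' := by
  induction l with
  | nil => simp [areaN]
  | cons p l ih =>
    simp only [List.cons_append, areaN, ih]
    ring

theorem inR_eq (D : Nat) (p : Q4) : inR D p = inb D p := by
  unfold inR inb
  rw [thenB_eq, thenB_eq, thenB_eq]

theorem allInR_eq (D : Nat) : ∀ l : List Q4, allInR D l = allIn D l
  | [] => rfl
  | p :: l => by
    have h : allInR D (p :: l) = thenB (inR D p) (allInR D l) := rfl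
    rw [h, thenB_eq, inR_eq, allInR_eq D l]
    rfl

theorem allIn_append (D : Nat) (l l' : List R4) : allIn D (l ++ l') = (allIn D l && allIn D l') := by
  induction l with
  | nil => simp [allIn]
  | cons p l ih => simp only [List.cons_append, allIn, ih, Bool.and_assoc]

theorem dimsR_eq (D : Nat) : ∀ (l : List Q4) (k : Nat), dimsR D l k = dimsb D k l
  | [], _ => rfl
  | p :: l, k => by
    have h : dimsR D (p :: l) k = frc (Nat.add k (nat_lit 1))
      (thenB (dimR D k (Nat.add k (nat_lit 1)) p) (dimsR D l (Nat.add k (nat_lit 1)))) := rfl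
    rw [h, frcB_eq, thenB_eq, dimsR_eq D l]
    unfold dimR
    rw [elseB_eq, thenB_eq, thenB_eq]
    rfl

/-- soundness of the fast check -/
theorem chkR_sound {D : Nat} {items boxes : List Q4} {t : KT} (h : chkR D items boxes t = true) :
    chk1 D items boxes = true := by
  unfold chkR at h
  simp only [thenB_eq, Bool.and_eq_true, dimsR_eq, allInR_eq, areaR_eq, appR_eq] at h
  obtain ⟨h1, h2, h3, h4, h5, h6⟩ := h
  unfold chk1
  simp only [Bool.and_eq_true]
  refine ⟨⟨h1, h2⟩, ?_, ?_, ?_⟩
  · rw [allIn_append, h3, h4]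
    rfl
  · rw [areaN_append]
    rw [Nat.beq_eq] at h5 ⊢
    exact h5
  · exact (pairb_iff _).2 (kdR_sound t _ h6)

theorem encR_eq (D : Nat) (p : Q4) (c : Ctx) : encR D p c = ceq c (encB D p) := by
  cases c with
  | pc al ah bl bh =>
    have h : encR D p (.pc al ah bl bh) = thenB (Nat.beq al (loR D (Nat.sub p.2.1 p.1)))
      (thenB (Nat.beq ah (hiR D (Nat.sub p.2.1 p.1)))
        (thenB (Nat.beq bl (loR D (Nat.sub p.2.2.2 p.2.2.1))) (Nat.beq bh (hiR D (Nat.sub p.2.2.2 p.2.2.1))))) := rfl
    rw [h, thenB_eq, thenB_eq, thenB_eq]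
    have e : ceq (.pc al ah bl bh) (encB D p) = ((Nat.beq al (loR D (Nat.sub p.2.1 p.1)) &&
      Nat.beq ah (hiR D (Nat.sub p.2.1 p.1))) && (Nat.beq bl (loR D (Nat.sub p.2.2.2 p.2.2.1)) &&
        Nat.beq bh (hiR D (Nat.sub p.2.2.2 p.2.2.1)))) := rfl
    rw [e, Bool.and_assoc]
  | ch => rfl
  | uch => rfl
  | ls => rfl
  | mc => rfl
  | bt => rfl

theorem rootR_sound (D : Nat) : ∀ (boxes : List Q4) (L : List Ctx), rootR D boxes L = true →
    ceqL L (boxes.map (encB D)) = true
  | [], L, h => by
    cases L with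
    | nil => rfl
    | cons c L =>
      have h' : (false : Bool) = true := h
      cases h'
  | p :: boxes, L, h => by
    cases L with
    | nil =>
      have h' : (false : Bool) = true := h
      cases h'
    | cons c L =>
      have h' : thenB (encR D p c) (rootR D boxes L) = true := h
      rw [thenB_eq, Bool.and_eq_true, encR_eq] at h'
      rw [List.map_cons]
      simp only [ceqL, Bool.and_eq_true]
      exact ⟨h'.1, rootR_sound D boxes L h'.2⟩

end Pool.Agent.MMS
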