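import Pool.Agent.MP_94f265_co.ST.Base

/-!
# Phase 1 for the kernel: definitions (no Mathlib import)
-/

namespace Pool.Agent.MMS

/-- a tree of cuts `x = c` or `y = c` -/
inductive KT : Type
  | leaf : KT
  | nx (c : Nat) (a b : KT) : KT
  | ny (c : Nat) (a b : KT) : KT

noncomputable def thenB (b x : Bool) : Bool := Bool.rec (motive := fun _ => Bool) false x b

noncomputable def elseB (b x : Bool) : Bool := Bool.rec (motive := fun _ => Bool) x true b

/-- separation of two rectangles `(x1, x2, y1, y2)` -/
noncomputable def sepR (p q : Q4) : Bool :=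
  elseB (Nat.ble p.2.1 q.1) (elseB (Nat.ble q.2.1 p.1) (elseB (Nat.ble p.2.2.2 q.2.2.1) (Nat.ble q.2.2.2 p.2.2.1)))

noncomputable def allSepR (p : Q4) (l : List Q4) : Bool :=
  List.rec (motive := fun _ => Bool) true (fun q _ ih => thenB (sepR p q) ih) l

noncomputable def pairR (l : List Q4) : Bool :=
  List.rec (motive := fun _ => Bool) true (fun p l ih => thenB (allSepR p l) ih) l

/-- loop body of `splX` -/
noncomputable def bodX (c : Nat) (p : Q4) (f : List Q4 → List Q4 → Bool) (A B : List Q4) : Bool :=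
  Bool.rec (motive := fun _ => Bool)
    (Bool.rec (motive := fun _ => Bool) (f (List.cons p A) (List.cons p B)) (f A (List.cons p B)) (Nat.ble c p.1))
    (f (List.cons p A) B) (Nat.ble p.2.1 c)

/-- split at `x = c`; a rectangle crossing the line goes to both sides -/
noncomputable def splX (c : Nat) (K : List Q4 → List Q4 → Bool) (l : List Q4) : List Q4 → List Q4 → Bool :=
  List.rec (motive := fun _ => List Q4 → List Q4 → Bool) K (fun p _ f => bodX c p f) l

/-- loop body of `splY` -/
noncomputable def bodY (c : Nat) (p : Q4) (f : List Q4 → List Q4 → Bool) (A B : List Q4) : Bool :=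
  Bool.rec (motive := fun _ => Bool)
    (Bool.rec (motive := fun _ => Bool) (f (List.cons p A) (List.cons p B)) (f A (List.cons p B)) (Nat.ble c p.2.2.1))
    (f (List.cons p A) B) (Nat.ble p.2.2.2 c)

/-- split at `y = c` -/
noncomputable def splY (c : Nat) (K : List Q4 → List Q4 → Bool) (l : List Q4) : List Q4 → List Q4 → Bool :=
  List.rec (motive := fun _ => List Q4 → List Q4 → Bool) K (fun p _ f => bodY c p f) l

/-- pairwise separation by a tree of cuts -/
noncomputable def kdR (t : KT) : List Q4 → Bool :=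
  KT.rec (motive := fun _ => List Q4 → Bool) (fun l => pairR l)
    (fun c _ _ fa fb l => splX c (fun A B => thenB (fa A) (fb B)) l List.nil List.nil)
    (fun c _ _ fa fb l => splY c (fun A B => thenB (fa A) (fb B)) l List.nil List.nil) t

noncomputable def appR (l l' : List Q4) : List Q4 :=
  List.rec (motive := fun _ => List Q4) l' (fun p _ ih => List.cons p ih) l

/-- total area -/
noncomputable def areaR (l : List Q4) : Nat → Nat :=
  List.rec (motive := fun _ => Nat → Nat) (fun a => a)
    (fun p _ f a => frc (Nat.add (Nat.mul (Nat.sub p.2.1 p.1) (Nat.sub p.2.2.2 p.2.2.1)) a)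
      (f (Nat.add (Nat.mul (Nat.sub p.2.1 p.1) (Nat.sub p.2.2.2 p.2.2.1)) a))) l

noncomputable def inR (D : Nat) (p : Q4) : Bool :=
  thenB (Nat.ble p.1 p.2.1) (thenB (Nat.ble p.2.1 D) (thenB (Nat.ble p.2.2.1 p.2.2.2) (Nat.ble p.2.2.2 D)))

noncomputable def allInR (D : Nat) (l : List Q4) : Bool :=
  List.rec (motive := fun _ => Bool) true (fun q _ ih => thenB (inR D q) ih) l

/-- the items are `R_k, R_(k+1), ...`; `j = k + 1` -/
noncomputable def dimR (D k j : Nat) (p : Q4) : Bool :=
  elseB (thenB (Nat.beq (Nat.mul (Nat.sub p.2.1 p.1) k) D) (Nat.beq (Nat.mul (Nat.sub p.2.2.2 p.2.2.1) j) D))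
    (thenB (Nat.beq (Nat.mul (Nat.sub p.2.1 p.1) j) D) (Nat.beq (Nat.mul (Nat.sub p.2.2.2 p.2.2.1) k) D))

noncomputable def dimsR (D : Nat) (l : List Q4) : Nat → Bool :=
  List.rec (motive := fun _ => Nat → Bool) (fun _ => true)
    (fun p _ f k => frc (Nat.add k (nat_lit 1)) (thenB (dimR D k (Nat.add k (nat_lit 1)) p) (f (Nat.add k (nat_lit 1))))) l

/-- the whole check -/
noncomputable def chkR (D : Nat) (items boxes : List Q4) (t : KT) : Bool :=
  thenB (Nat.ble (nat_lit 1) D) (thenB (dimsR D items (nat_lit 1)) (thenB (allInR D items) (thenB (allInR D boxes)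
    (thenB (Nat.beq (areaR items (areaR boxes (nat_lit 0))) (Nat.mul D D)) (kdR t (appR items boxes))))))

/-- lower and upper bound of `SC * w / D` -/
noncomputable def loR (D w : Nat) : Nat := Nat.div (Nat.mul (nat_lit 30990445042459967064000000000000) w) D

noncomputable def hiR (D w : Nat) : Nat :=
  Nat.div (Nat.sub (Nat.add (Nat.mul (nat_lit 30990445042459967064000000000000) w) D) (nat_lit 1)) D

/-- a context is the enclosure of a free box -/
noncomputable def encR (D : Nat) (p : Q4) (c : Ctx) : Bool :=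
  Ctx.rec (motive := fun _ => Bool)
    (fun al ah bl bh => thenB (Nat.beq al (loR D (Nat.sub p.2.1 p.1))) (thenB (Nat.beq ah (hiR D (Nat.sub p.2.1 p.1)))
      (thenB (Nat.beq bl (loR D (Nat.sub p.2.2.2 p.2.2.1))) (Nat.beq bh (hiR D (Nat.sub p.2.2.2 p.2.2.1))))))
    (fun _ _ _ _ => false) (fun _ _ _ _ => false) (fun _ => false) (fun _ _ _ _ _ => false) (fun _ _ _ => false) c

noncomputable def rootR (D : Nat) (boxes : List Q4) : List Ctx → Bool :=
  List.rec (motive := fun _ => List Ctx → Bool)
    (fun L => List.rec (motive := fun _ => Bool) true (fun _ _ _ => false) L)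
    (fun p _ f L => List.rec (motive := fun _ => Bool) false (fun c L' _ => thenB (encR D p c) (f L')) L) boxes

end Pool.Agent.MMS
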