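import Pool.Agent.MP_94f265_co.MM2.TDefs

/-!
# Potential bits of the start, a priori: counting

A potential bit of a flat chain sits between two dominoes `(n-2, n-1)`, `(n, n+1)`; its thickness is
`1/(n-1) - 1/(n+1)`.  A potential bit of an upright chain sits at the same place and has thickness
`1/(n-2) - 1/(n+2)`.  The units `n, n+1` of different potential bits are different.
-/

namespace Pool.Agent.MM2.Pot

open Pool.Agent.MM2

/-- thickness of a flat potential bit -/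
noncomputable def tf (n : ℕ) : ℝ := 2 / (((n : ℝ) - 1) * ((n : ℝ) + 1))

/-- thickness of an upright potential bit -/
noncomputable def tu (n : ℕ) : ℝ := 4 / (((n : ℝ) - 2) * ((n : ℝ) + 2))

/-- flat potential bit (place, length) -/
noncomputable def fl (p : ℕ × ℝ) : ℝ × ℝ := (tf p.1, p.2)

/-- upright potential bit -/
noncomputable def up (p : ℕ × ℝ) : ℝ × ℝ := (tu p.1, p.2)

/-- the units used by the places -/
def sl (P : Multiset (ℕ × ℝ)) : Multiset ℕ := (P.map (fun p => ({p.1, p.1 + 1} : Multiset ℕ))).sum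

theorem sl_cons (p : ℕ × ℝ) (P : Multiset (ℕ × ℝ)) : sl (p ::ₘ P) = {p.1, p.1 + 1} + sl P := by
  simp [sl]

theorem card_sl (P : Multiset (ℕ × ℝ)) : Multiset.card (sl P) = 2 * Multiset.card P := by
  induction P using Multiset.induction_on with
  | empty => simp [sl]
  | cons p P ih => rw [sl_cons, Multiset.card_add, ih, Multiset.card_cons]; simp; ring

theorem mem_sl {P : Multiset (ℕ × ℝ)} {u : ℕ} (h : u ∈ sl P) : ∃ p ∈ P, u = p.1 ∨ u = p.1 + 1 := by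
  induction P using Multiset.induction_on with
  | empty => simp [sl] at h
  | cons p P ih =>
    rw [sl_cons, Multiset.mem_add] at h
    rcases h with h | h
    · refine ⟨p, Multiset.mem_cons_self _ _, ?_⟩
      simpa using h
    · obtain ⟨q, hq, hu⟩ := ih h
      exact ⟨q, Multiset.mem_cons_of_mem hq, hu⟩

theorem sl_mono {P Q : Multiset (ℕ × ℝ)} (h : P ≤ Q) : sl P ≤ sl Q := by
  obtain ⟨R, rfl⟩ := Multiset.le_iff_exists_add.1 h
  unfold sl
  rw [Multiset.map_add, Multiset.sum_add]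
  exact Multiset.le_add_right _ _

/-- number of places in `[a, b]` -/
theorem count_le {P : Multiset (ℕ × ℝ)} (hnd : (sl P).Nodup) {a b : ℕ} (h : ∀ p ∈ P, a ≤ p.1 ∧ p.1 ≤ b)
    (hP : P ≠ 0) : 2 * Multiset.card P ≤ b - a + 2 := by
  obtain ⟨p0, hp0⟩ := Multiset.exists_mem_of_ne_zero hP
  have hab := h p0 hp0
  have h1 : sl P ≤ (Finset.Icc a (b + 1)).val := by
    rw [Multiset.le_iff_subset hnd]
    intro u hu
    obtain ⟨p, hp, hu⟩ := mem_sl hu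
    have := h p hp
    rw [← Finset.mem_def, Finset.mem_Icc]
    omega
  have h2 := Multiset.card_le_card h1
  rw [card_sl, Finset.card_val, Nat.card_Icc] at h2
  omega

/-- sum over a class -/
theorem sum_le_card {P : Multiset (ℕ × ℝ)} {c : ℝ} (h : ∀ p ∈ P, p.2 ≤ c) :
    (P.map Prod.snd).sum ≤ (Multiset.card P : ℝ) * c := by
  have := Multiset.sum_le_card_nsmul (P.map Prod.snd) c (by
    intro x hx
    obtain ⟨p, hp, rfl⟩ := Multiset.mem_map.1 hx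
    exact h p hp)
  rw [Multiset.card_map, nsmul_eq_mul] at this
  exact this

/-- the part of a family of places in one class -/
theorem lenK_map (K : ℕ) (P : Multiset (ℕ × ℝ)) (g : ℕ → ℝ) :
    ∃ P', P' ≤ P ∧ (∀ p ∈ P', p ∈ P ∧ Th K ≤ g p.1 ∧ g p.1 < Th (K - 1)) ∧
      lenK K (P.map (fun p => (g p.1, p.2))) = (P'.map Prod.snd).sum := by
  classical
  refine ⟨P.filter (fun p => Th K ≤ g p.1 ∧ g p.1 < Th (K - 1)), Multiset.filter_le _ _, ?_, ?_⟩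
  · intro p hp
    exact Multiset.mem_filter.1 hp
  · unfold lenK lenIn
    rw [Multiset.filter_map, Multiset.map_map]
    rfl

/-- general form: the thickness is `~ 2 r / n ^ 2` -/
theorem count_class {K : ℕ} (hK : 1000 ≤ K) {P : Multiset (ℕ × ℝ)} (hnd : (sl P).Nodup) (g : ℕ → ℝ) (r e : ℝ)
    (hr : 0 < r) (he : 0 ≤ e)
    (h3 : ∀ p ∈ P, 3 ≤ p.1)
    (hg : ∀ n : ℕ, 3 ≤ n → g n * ((n : ℝ) ^ 2 - e) = 2 * r ∧ 0 < (n : ℝ) ^ 2 - e)
    (h : ∀ p ∈ P, Th K ≤ g p.1 ∧ g p.1 < Th (K - 1)) (hP : P ≠ 0) :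
    ∃ p0 ∈ P, (∀ p ∈ P, p0.1 ≤ p.1) ∧
      (Multiset.card P : ℝ) ≤ r * (45 / 10240) * (5 * (K : ℝ) - 1) ^ 2 / (p0.1 : ℝ) + 1 ∧
      r * (3 / 2560) * (5 * (K : ℝ) - 6) ^ 3 ≤ (p0.1 : ℝ) ^ 2 := by
  classical
  have hne : P.toFinset.Nonempty := by
    obtain ⟨p, hp⟩ := Multiset.exists_mem_of_ne_zero hP
    exact ⟨p, Multiset.mem_toFinset.2 hp⟩
  obtain ⟨p0, hp0, hmin⟩ := P.toFinset.exists_min_image Prod.fst hne
  obtain ⟨p1, hp1, hmax⟩ := P.toFinset.exists_max_image Prod.fst hne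
  rw [Multiset.mem_toFinset] at hp0 hp1
  have hmin' : ∀ p ∈ P, p0.1 ≤ p.1 := fun p hp => hmin p (Multiset.mem_toFinset.2 hp)
  have hmax' : ∀ p ∈ P, p.1 ≤ p1.1 := fun p hp => hmax p (Multiset.mem_toFinset.2 hp)
  have hcard := count_le hnd (fun p hp => ⟨hmin' p hp, hmax' p hp⟩) hP
  have hle : p0.1 ≤ p1.1 := hmin' p1 hp1
  have hKr : (1000 : ℝ) ≤ K := by exact_mod_cast hK
  have hx : (0 : ℝ) < 5 * (K : ℝ) - 6 := by linarith
  have hx1 : (0 : ℝ) < 5 * (K : ℝ) - 1 := by linarith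
  have hTh1 : Th K = 5120 / (3 * (5 * (K : ℝ) - 1) ^ 3) := rfl
  have hTh0 : Th (K - 1) = 5120 / (3 * (5 * (K : ℝ) - 6) ^ 3) := by
    unfold Th
    rw [Nat.cast_sub (by omega)]
    congr 3
    push_cast
    ring
  -- bounds for the squares
  have key1 : ∀ p ∈ P, (p.1 : ℝ) ^ 2 - e ≤ r * (3 / 2560) * (5 * (K : ℝ) - 1) ^ 3 := by
    intro p hp
    obtain ⟨e1, e2⟩ := hg p.1 (h3 p hp)
    have e3 := (h p hp).1
    rw [hTh1, div_le_iff₀ (by positivity)] at e3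
    have e4 : 5120 * ((p.1 : ℝ) ^ 2 - e) ≤ (2 * r) * (3 * (5 * (K : ℝ) - 1) ^ 3) := by
      rw [← e1]
      have := mul_le_mul_of_nonneg_right e3 e2.le
      linarith
    linarith
  have key0 : ∀ p ∈ P, r * (3 / 2560) * (5 * (K : ℝ) - 6) ^ 3 ≤ (p.1 : ℝ) ^ 2 - e := by
    intro p hp
    obtain ⟨e1, e2⟩ := hg p.1 (h3 p hp)
    have e3 := (h p hp).2
    rw [hTh0, lt_div_iff₀ (by positivity)] at e3
    have e4 : (2 * r) * (3 * (5 * (K : ℝ) - 6) ^ 3) ≤ 5120 * ((p.1 : ℝ) ^ 2 - e) := by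
      rw [← e1]
      have := mul_le_mul_of_nonneg_right e3.le e2.le
      linarith
    linarith
  refine ⟨p0, hp0, hmin', ?_, ?_⟩
  · have a1 := key1 p1 hp1
    have a0 := key0 p0 hp0
    have hp0pos : (0 : ℝ) < p0.1 := by
      have : 3 ≤ p0.1 := h3 p0 hp0
      have : (3 : ℝ) ≤ p0.1 := by exact_mod_cast this
      linarith
    have hle' : (p0.1 : ℝ) ≤ p1.1 := by exact_mod_cast hle
    have hc : 2 * (Multiset.card P : ℝ) ≤ (p1.1 : ℝ) - p0.1 + 2 := by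
      have : 2 * Multiset.card P + p0.1 ≤ p1.1 + 2 := by omega
      have : (2 * (Multiset.card P : ℝ)) + p0.1 ≤ p1.1 + 2 := by exact_mod_cast this
      linarith
    -- (b - a) * 2 a <= b^2 - a^2
    have hd : ((p1.1 : ℝ) - p0.1) * (2 * p0.1) ≤ (p1.1 : ℝ) ^ 2 - (p0.1 : ℝ) ^ 2 := by nlinarith
    have hd2 : (p1.1 : ℝ) ^ 2 - (p0.1 : ℝ) ^ 2 ≤ r * (3 / 2560) * (15 * (5 * (K : ℝ) - 1) ^ 2) := by
      have e5 : (5 * (K : ℝ) - 1) ^ 3 - (5 * (K : ℝ) - 6) ^ 3 ≤ 15 * (5 * (K : ℝ) - 1) ^ 2 := by nlinarith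
      have e6 := mul_le_mul_of_nonneg_left e5 (by positivity : 0 ≤ r * (3 / 2560))
      linarith
    have hd3 : ((p1.1 : ℝ) - p0.1) ≤ r * (3 / 2560) * (15 * (5 * (K : ℝ) - 1) ^ 2) / (2 * p0.1) := by
      rw [le_div_iff₀ (by positivity)]
      linarith
    have e7 : r * (3 / 2560) * (15 * (5 * (K : ℝ) - 1) ^ 2) / (2 * p0.1) =
        2 * (r * (45 / 10240) * (5 * (K : ℝ) - 1) ^ 2 / (p0.1 : ℝ)) := by
      field_simp
      ring
    rw [e7] at hd3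
    linarith
  · have := key0 p0 hp0
    linarith

theorem tf_eq (n : ℕ) (hn : 3 ≤ n) : tf n * ((n : ℝ) ^ 2 - 1) = 2 * 1 ∧ 0 < (n : ℝ) ^ 2 - 1 := by
  have h : (3 : ℝ) ≤ n := by exact_mod_cast hn
  have h0 : 0 < (n : ℝ) ^ 2 - 1 := by nlinarith
  refine ⟨?_, h0⟩
  unfold tf
  rw [show ((n : ℝ) - 1) * ((n : ℝ) + 1) = (n : ℝ) ^ 2 - 1 by ring]
  field_simp

theorem tu_eq (n : ℕ) (hn : 3 ≤ n) : tu n * ((n : ℝ) ^ 2 - 4) = 2 * 2 ∧ 0 < (n : ℝ) ^ 2 - 4 := by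
  have h : (3 : ℝ) ≤ n := by exact_mod_cast hn
  have h0 : 0 < (n : ℝ) ^ 2 - 4 := by nlinarith
  refine ⟨?_, h0⟩
  unfold tu
  rw [show ((n : ℝ) - 2) * ((n : ℝ) + 2) = (n : ℝ) ^ 2 - 4 by ring]
  field_simp
  norm_num

end Pool.Agent.MM2.Pot
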