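import Pool.Agent.MP_94f265_co.ST.PotA

/-!
# Potential bits of the start, a priori: loads, classes, prices
-/

namespace Pool.Agent.MM2.Pot

open Pool.Agent.MM2

/-- relative bound: `s n ≤ c` -/
theorem rel_bound {K : ℕ} (K0 : ℕ) (δ : ℝ) (hδ : 0 < δ) (hK0 : 1000 ≤ K0)
    (h5 : 1 ≤ δ ^ 2 * ((1459 / 10000) * (K0 : ℝ)))
    (hK : K0 ≤ K) {P : Multiset (ℕ × ℝ)} (hnd : (sl P).Nodup) (g : ℕ → ℝ) (r e c : ℝ)
    (hr : 1 ≤ r) (he : 0 ≤ e) (h3 : ∀ p ∈ P, 3 ≤ p.1)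
    (hg : ∀ n : ℕ, 3 ≤ n → g n * ((n : ℝ) ^ 2 - e) = 2 * r ∧ 0 < (n : ℝ) ^ 2 - e)
    (hc0 : 0 ≤ c) (hc : ∀ p ∈ P, p.2 * (p.1 : ℝ) ≤ c) :
    lenK K (P.map (fun p => (g p.1, p.2))) ≤ c * (((3 / 4) * (1 + 4 / (K0 : ℝ)) + δ) / K) := by
  classical
  obtain ⟨P', hle, hP', e1⟩ := lenK_map K P g
  rw [e1]
  have hKr : (1000 : ℝ) ≤ K := by exact_mod_cast hK0.trans hK
  have hK0r : (1000 : ℝ) ≤ K0 := by exact_mod_cast hK0
  have hKK : (K0 : ℝ) ≤ K := by exact_mod_cast hK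
  by_cases h0 : P' = 0
  · rw [h0, Multiset.map_zero, Multiset.sum_zero]
    positivity
  have hnd' : (sl P').Nodup := Multiset.nodup_of_le (sl_mono hle) hnd
  obtain ⟨p0, hp0, hmin, hcard, hsq⟩ := count_class (hK0.trans hK) hnd' g r e (by linarith) he
    (fun p hp => h3 p (hP' p hp).1) hg (fun p hp => (hP' p hp).2) h0
  have hp3 : (3 : ℝ) ≤ p0.1 := by exact_mod_cast h3 p0 (hP' p0 hp0).1
  set a : ℝ := (p0.1 : ℝ) with ha
  set x : ℝ := 5 * (K : ℝ) - 1 with hx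
  have hxx : 5 * (K : ℝ) - 6 = x - 5 := by rw [hx]; ring
  rw [hxx] at hsq
  have hsum := sum_le_card (P := P') (c := c / a) (by
    intro p hp
    have h1 : a ≤ (p.1 : ℝ) := by rw [ha]; exact_mod_cast hmin p hp
    have h2 := hc p (hP' p hp).1
    rw [le_div_iff₀ (by linarith)]
    rcases le_total 0 p.2 with h4 | h4
    · exact (mul_le_mul_of_nonneg_left h1 h4).trans h2
    · nlinarith)
  refine hsum.trans ?_
  have hx5 : 0 < x - 5 := by rw [hx]; linarith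
  have hcube : 0 < (x - 5) ^ 3 := by positivity
  have ha0 : 0 < a := by linarith
  have h6 : (Multiset.card P' : ℝ) / a ≤ r * (45 / 10240) * x ^ 2 / a ^ 2 + 1 / a := by
    have := div_le_div_of_nonneg_right hcard ha0.le
    refine this.trans (le_of_eq ?_)
    field_simp
  -- first term
  have h7 : r * (45 / 10240) * x ^ 2 / a ^ 2 ≤ (3 / 4) * (1 + 4 / (K0 : ℝ)) / K := by
    have e1 : r * (45 / 10240) * x ^ 2 / a ^ 2 ≤ r * (45 / 10240) * x ^ 2 / (r * (3 / 2560) * (x - 5) ^ 3) := by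
      apply div_le_div_of_nonneg_left (by positivity) (by positivity) hsq
    have e2 : r * (45 / 10240) * x ^ 2 / (r * (3 / 2560) * (x - 5) ^ 3) = (15 / 4) * (x ^ 2 / (x - 5) ^ 3) := by
      have hr0 : r ≠ 0 := by linarith
      have hx0 : (x - 5) ^ 3 ≠ 0 := ne_of_gt hcube
      field_simp
      ring
    have e3 : x ^ 2 / (x - 5) ^ 3 ≤ (1 + 4 / (K : ℝ)) / (5 * K) := by
      rw [div_le_div_iff₀ hcube (by positivity)]
      have e4 : (1 + 4 / (K : ℝ)) * (x - 5) ^ 3 = ((K : ℝ) + 4) * (x - 5) ^ 3 / K := by field_simp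
      rw [e4, le_div_iff₀ (by linarith)]
      rw [hx]
      nlinarith [mul_nonneg (by linarith : (0 : ℝ) ≤ (K : ℝ) - 1000) (by linarith : (0 : ℝ) ≤ (K : ℝ) - 1000),
        mul_nonneg (mul_nonneg (by linarith : (0 : ℝ) ≤ (K : ℝ) - 1000) (by linarith : (0 : ℝ) ≤ (K : ℝ) - 1000))
          (by linarith : (0 : ℝ) ≤ (K : ℝ))]
    have e5 : (1 + 4 / (K : ℝ)) ≤ 1 + 4 / (K0 : ℝ) := by
      have : 4 / (K : ℝ) ≤ 4 / (K0 : ℝ) := div_le_div_of_nonneg_left (by norm_num) (by linarith) hKK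
      linarith
    calc r * (45 / 10240) * x ^ 2 / a ^ 2 ≤ (15 / 4) * (x ^ 2 / (x - 5) ^ 3) := by rw [← e2]; exact e1
      _ ≤ (15 / 4) * ((1 + 4 / (K : ℝ)) / (5 * K)) := by linarith
      _ = (3 / 4) * (1 + 4 / (K : ℝ)) / K := by field_simp; ring
      _ ≤ (3 / 4) * (1 + 4 / (K0 : ℝ)) / K := by
        apply div_le_div_of_nonneg_right _ (by linarith)
        linarith
  -- second term
  have h8 : 1 / a ≤ δ / K := by
    rw [div_le_div_iff₀ ha0 (by linarith), one_mul]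
    have e1 : (K : ℝ) ^ 2 ≤ (δ * a) ^ 2 := by
      have e2 : (1459 / 10000) * (K : ℝ) ^ 3 ≤ r * (3 / 2560) * (x - 5) ^ 3 := by
        have e3 : (1459 / 10000) * (K : ℝ) ^ 3 ≤ (3 / 2560) * (x - 5) ^ 3 := by
          rw [hx]
          nlinarith [mul_nonneg (by linarith : (0 : ℝ) ≤ (K : ℝ) - 1000) (by linarith : (0 : ℝ) ≤ (K : ℝ) - 1000),
            mul_nonneg (mul_nonneg (by linarith : (0 : ℝ) ≤ (K : ℝ) - 1000) (by linarith : (0 : ℝ) ≤ (K : ℝ) - 1000))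
              (by linarith : (0 : ℝ) ≤ (K : ℝ))]
        nlinarith
      have e4 : (K : ℝ) ^ 2 ≤ δ ^ 2 * ((1459 / 10000) * (K : ℝ) ^ 3) := by
        have e5 : (1 : ℝ) ≤ δ ^ 2 * ((1459 / 10000) * (K : ℝ)) := by
          have := mul_le_mul_of_nonneg_left hKK (by positivity : 0 ≤ δ ^ 2 * (1459 / 10000))
          linarith
        calc (K : ℝ) ^ 2 = 1 * (K : ℝ) ^ 2 := by ring
          _ ≤ (δ ^ 2 * ((1459 / 10000) * (K : ℝ))) * (K : ℝ) ^ 2 := mul_le_mul_of_nonneg_right e5 (by positivity)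
          _ = _ := by ring
      calc (K : ℝ) ^ 2 ≤ δ ^ 2 * ((1459 / 10000) * (K : ℝ) ^ 3) := e4
        _ ≤ δ ^ 2 * a ^ 2 := mul_le_mul_of_nonneg_left (e2.trans hsq) (by positivity)
        _ = (δ * a) ^ 2 := by ring
    have := abs_le_of_sq_le_sq e1 (by positivity)
    rw [abs_of_nonneg (by linarith : (0 : ℝ) ≤ K)] at this
    linarith
  calc (Multiset.card P' : ℝ) * (c / a) = c * ((Multiset.card P' : ℝ) / a) := by ring
    _ ≤ c * ((3 / 4) * (1 + 4 / (K0 : ℝ)) / K + δ / K) := by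
      apply mul_le_mul_of_nonneg_left _ hc0
      linarith
    _ = _ := by ring

/-- absolute bound: `s ≤ c` -/
theorem abs_bound {K : ℕ} (hK : 1600 ≤ K) (M : ℝ) (hM : 1 ≤ M)
    {P : Multiset (ℕ × ℝ)} (hnd : (sl P).Nodup) (g : ℕ → ℝ) (r e c : ℝ)
    (hr : 1 ≤ r) (he : 0 ≤ e) (h3 : ∀ p ∈ P, 3 ≤ p.1)
    (hg : ∀ n : ℕ, 3 ≤ n → g n * ((n : ℝ) ^ 2 - e) = 2 * r ∧ 0 < (n : ℝ) ^ 2 - e)
    (hMK : r * (8260 / 100000) * (K : ℝ) ≤ (M - 1) ^ 2)
    (hc0 : 0 ≤ c) (hc : ∀ p ∈ P, p.2 ≤ c) :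
    lenK K (P.map (fun p => (g p.1, p.2))) ≤ M * c := by
  classical
  obtain ⟨P', hle, hP', e1⟩ := lenK_map K P g
  rw [e1]
  have hKr : (1600 : ℝ) ≤ K := by exact_mod_cast hK
  by_cases h0 : P' = 0
  · rw [h0, Multiset.map_zero, Multiset.sum_zero]
    positivity
  have hnd' : (sl P').Nodup := Multiset.nodup_of_le (sl_mono hle) hnd
  obtain ⟨p0, hp0, hmin, hcard, hsq⟩ := count_class (by omega) hnd' g r e (by linarith) he
    (fun p hp => h3 p (hP' p hp).1) hg (fun p hp => (hP' p hp).2) h0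
  have hp3 : (3 : ℝ) ≤ p0.1 := by exact_mod_cast h3 p0 (hP' p0 hp0).1
  set a : ℝ := (p0.1 : ℝ) with ha
  set x : ℝ := 5 * (K : ℝ) - 1 with hx
  have hxx : 5 * (K : ℝ) - 6 = x - 5 := by rw [hx]; ring
  rw [hxx] at hsq
  have hsum := sum_le_card (P := P') (c := c) (fun p hp => hc p (hP' p hp).1)
  refine hsum.trans ?_
  have hx5 : 0 < x - 5 := by rw [hx]; linarith
  have hcube : 0 < (x - 5) ^ 3 := by positivity
  have ha0 : 0 < a := by linarith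
  apply mul_le_mul_of_nonneg_right _ hc0
  refine hcard.trans ?_
  have h1 : r * (45 / 10240) * x ^ 2 / a ≤ M - 1 := by
    rw [div_le_iff₀ ha0]
    have h2 : (r * (45 / 10240) * x ^ 2) ^ 2 ≤ ((M - 1) * a) ^ 2 := by
      have e2 : (45 / 10240 : ℝ) ^ 2 * x ^ 4 ≤ (8260 / 100000) * (K : ℝ) * ((3 / 2560) * (x - 5) ^ 3) := by
        rw [hx]
        have hk : (0 : ℝ) ≤ (K : ℝ) - 1600 := by linarith
        obtain ⟨y, hy⟩ : ∃ y : ℝ, (K : ℝ) = y + 1600 := ⟨(K : ℝ) - 1600, by ring⟩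
        have hy0 : 0 ≤ y := by linarith
        rw [hy]
        have : 0 ≤ (8260 / 100000) * (y + 1600) * ((3 / 2560) * (5 * (y + 1600) - 1 - 5) ^ 3) -
            (45 / 10240 : ℝ) ^ 2 * (5 * (y + 1600) - 1) ^ 4 := by
          ring_nf
          positivity
        linarith
      calc (r * (45 / 10240) * x ^ 2) ^ 2 = r ^ 2 * ((45 / 10240 : ℝ) ^ 2 * x ^ 4) := by ring
        _ ≤ r ^ 2 * ((8260 / 100000) * (K : ℝ) * ((3 / 2560) * (x - 5) ^ 3)) :=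
          mul_le_mul_of_nonneg_left e2 (by positivity)
        _ = (r * (8260 / 100000) * (K : ℝ)) * (r * (3 / 2560) * (x - 5) ^ 3) := by ring
        _ ≤ (M - 1) ^ 2 * a ^ 2 := by
          apply mul_le_mul hMK hsq (by positivity) (by positivity)
        _ = ((M - 1) * a) ^ 2 := by ring
    exact (le_abs_self _).trans (abs_le_of_sq_le_sq h2 (mul_nonneg (by linarith) ha0.le))
  linarith

end Pool.Agent.MM2.Pot
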