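import Pool.Agent.MP_94f265_co.ST.PotB

/-!
# Potential bits of the start, a priori: prices, classes, table
-/

namespace Pool.Agent.MM2.Pot

open Pool.Agent.MM2

/-! ## numbers of the first class -/

theorem Th_1599 : Th (i0 - 1) = 5120 / (3 * 7994 ^ 3) := by
  unfold Th i0
  norm_num

theorem le_kc_of_lt {t : ℝ} (ht : 0 < t) (h : t < Th (i0 - 1)) : i0 ≤ kc t := by
  by_contra hc
  have h1 := kc_spec ht
  have h2 : kc t ≤ i0 - 1 := by omega
  have h3 := Th_anti h1.1 h2
  linarith [h1.2]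

/-- the threshold above a thickness -/
theorem Th_kc_le {t : ℝ} (ht : 0 < t) (h : t < Th (i0 - 1)) : Th (kc t - 1) ≤ (1002 / 1000) * t := by
  have h1 := le_kc_of_lt ht h
  have h2 := (kc_spec ht).2
  refine le_trans ?_ (mul_le_mul_of_nonneg_left h2 (by norm_num))
  have hK : (1600 : ℝ) ≤ (kc t : ℝ) := by exact_mod_cast h1
  unfold Th
  rw [Nat.cast_sub (by unfold i0 at h1; omega)]
  push_cast
  rw [← mul_div_assoc, div_le_div_iff₀ (by
      have : (0 : ℝ) < 5 * ((kc t : ℝ) - 1) - 1 := by linarith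
      positivity) (by
      have : (0 : ℝ) < 5 * (kc t : ℝ) - 1 := by linarith
      positivity)]
  obtain ⟨y, hy⟩ : ∃ y : ℝ, (kc t : ℝ) = y + 1600 := ⟨(kc t : ℝ) - 1600, by ring⟩
  have hy0 : 0 ≤ y := by linarith
  rw [hy]
  have : 0 ≤ 1002 / 1000 * 5120 * (3 * (5 * (y + 1600 - 1) - 1) ^ 3) - 5120 * (3 * (5 * (y + 1600) - 1) ^ 3) := by
    ring_nf
    positivity
  linarith

/-! ## prices -/

/-- the price of a unit -/
noncomputable def fu (u : ℕ) : ℝ := 1 / ((u : ℝ) * ((u : ℝ) - 1))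

theorem fu_nonneg (u : ℕ) : 0 ≤ fu u := by
  unfold fu
  rcases Nat.eq_zero_or_pos u with h | h
  · subst h; simp
  · have : (1 : ℝ) ≤ u := by exact_mod_cast h
    exact div_nonneg zero_le_one (mul_nonneg (by linarith) (by linarith))

theorem fu_sum (n : ℕ) (hn : 3 ≤ n) : fu n + fu (n + 1) = tf n := by
  have h : (3 : ℝ) ≤ n := by exact_mod_cast hn
  unfold fu tf
  push_cast
  have h1 : (n : ℝ) ≠ 0 := by linarith
  have h2 : (n : ℝ) - 1 ≠ 0 := by linarith
  have h3 : (n : ℝ) + 1 ≠ 0 := by linarith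
  rw [show (n : ℝ) + 1 - 1 = n by ring]
  field_simp
  ring

theorem sum_fu_Icc (a b : ℕ) (ha : 2 ≤ a) (hab : a ≤ b + 1) : ∑ u ∈ Finset.Icc a b, fu u = 1 / ((a : ℝ) - 1) - 1 / (b : ℝ) := by
  induction b with
  | zero => omega
  | succ b ih =>
    rcases Nat.lt_or_ge b a with h | h
    · rcases Nat.lt_or_ge (b + 1) a with h2 | h2
      · have : a = b + 1 + 1 := by omega
        subst this
        rw [Finset.Icc_eq_empty (by omega), Finset.sum_empty]
        push_cast
        ring
      · have : a = b + 1 := by omega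
        subst this
        rw [Finset.Icc_self, Finset.sum_singleton]
        unfold fu
        have h1 : (1 : ℝ) ≤ b := by exact_mod_cast (by omega : 1 ≤ b)
        push_cast
        rw [show (b : ℝ) + 1 - 1 = b by ring]
        field_simp
        ring
    · rw [Finset.sum_Icc_succ_top (by omega), ih (by omega)]
      unfold fu
      have h1 : (1 : ℝ) ≤ b := by exact_mod_cast (by omega : 1 ≤ b)
      have h2 : (0 : ℝ) < (a : ℝ) - 1 := by
        have : (2 : ℝ) ≤ a := by exact_mod_cast ha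
        linarith
      push_cast
      rw [show (b : ℝ) + 1 - 1 = b by ring]
      field_simp
      ring

/-- sum of the prices of different units `≥ a` -/
theorem sum_fu_le {S : Multiset ℕ} (hnd : S.Nodup) {a : ℕ} (ha : 2 ≤ a) (h : ∀ u ∈ S, a ≤ u) :
    (S.map fu).sum ≤ 1 / ((a : ℝ) - 1) := by
  classical
  obtain ⟨b, hb⟩ : ∃ b, ∀ u ∈ S, u ≤ b := by
    refine ⟨S.toFinset.sup id, fun u hu => ?_⟩
    exact Finset.le_sup (f := id) (Multiset.mem_toFinset.2 hu)
  have h1 : (S.map fu).sum = ∑ u ∈ (⟨S, hnd⟩ : Finset ℕ), fu u := rfl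
  rw [h1]
  have h2 : (⟨S, hnd⟩ : Finset ℕ) ⊆ Finset.Icc a (max a b) := by
    intro u hu
    rw [Finset.mem_Icc]
    exact ⟨h u hu, (hb u hu).trans (le_max_right _ _)⟩
  refine (Finset.sum_le_sum_of_subset_of_nonneg h2 (fun u _ _ => fu_nonneg u)).trans ?_
  rw [sum_fu_Icc a _ ha (by have := le_max_left a b; omega)]
  have : 0 ≤ 1 / ((max a b : ℕ) : ℝ) := by positivity
  linarith

theorem sum_fu_sl (P : Multiset (ℕ × ℝ)) (h3 : ∀ p ∈ P, 3 ≤ p.1) :
    ((sl P).map fu).sum = (P.map (fun p => tf p.1)).sum := by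
  induction P using Multiset.induction_on with
  | empty => simp [sl]
  | cons p P ih =>
    rw [sl_cons, Multiset.map_add, Multiset.sum_add, ih (fun q hq => h3 q (Multiset.mem_cons_of_mem hq)),
      Multiset.map_cons, Multiset.sum_cons, ← fu_sum p.1 (h3 p (Multiset.mem_cons_self _ _))]
    simp

theorem tf_pos {n : ℕ} (hn : 3 ≤ n) : 0 < tf n := by
  have h : (3 : ℝ) ≤ n := by exact_mod_cast hn
  unfold tf
  exact div_pos (by norm_num) (mul_pos (by linarith) (by linarith))

theorem tu_pos {n : ℕ} (hn : 3 ≤ n) : 0 < tu n := by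
  have h : (3 : ℝ) ≤ n := by exact_mod_cast hn
  unfold tu
  exact div_pos (by norm_num) (mul_pos (by linarith) (by linarith))

theorem tf_lt {n : ℕ} (hn : 24500 ≤ n) : tf n < Th (i0 - 1) := by
  have h : (24500 : ℝ) ≤ n := by exact_mod_cast hn
  rw [Th_1599]
  unfold tf
  rw [div_lt_div_iff₀ (mul_pos (by linarith) (by linarith)) (by norm_num)]
  nlinarith

theorem tu_lt {n : ℕ} (hn : 34700 ≤ n) : tu n < Th (i0 - 1) := by
  have h : (34700 : ℝ) ≤ n := by exact_mod_cast hn
  rw [Th_1599]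
  unfold tu
  rw [div_lt_div_iff₀ (mul_pos (by linarith) (by linarith)) (by norm_num)]
  nlinarith

theorem tu_le {n : ℕ} (hn : 3000 ≤ n) : tu n ≤ (2001 / 1000) * tf n := by
  have h : (3000 : ℝ) ≤ n := by exact_mod_cast hn
  unfold tf tu
  rw [← mul_div_assoc, div_le_div_iff₀ (mul_pos (by linarith) (by linarith)) (mul_pos (by linarith) (by linarith))]
  nlinarith

/-- the prices `Th (kc - 1)` of the flat and the upright potential bits -/
theorem price_le {P Q : Multiset (ℕ × ℝ)} (hnd : (sl (P + Q)).Nodup) {a : ℕ} (ha : 34700 ≤ a)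
    (h : ∀ p ∈ P + Q, a ≤ p.1) :
    ((P.map fl + Q.map up).map (fun p => Th (kc p.1 - 1))).sum ≤ (201 / 100) / ((a : ℝ) - 1) := by
  have hP : ∀ p ∈ P, a ≤ p.1 := fun p hp => h p (Multiset.mem_add.2 (Or.inl hp))
  have hQ : ∀ p ∈ Q, a ≤ p.1 := fun p hp => h p (Multiset.mem_add.2 (Or.inr hp))
  have h1 : ((P.map fl + Q.map up).map (fun p => Th (kc p.1 - 1))).sum ≤
      (2006 / 1000) * ((P + Q).map (fun p => tf p.1)).sum := by
    rw [Multiset.map_add, Multiset.sum_add, Multiset.map_map, Multiset.map_map, Multiset.map_add,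
      Multiset.sum_add, mul_add, ← Multiset.sum_map_mul_left, ← Multiset.sum_map_mul_left]
    apply add_le_add
    · apply Multiset.sum_map_le_sum_map
      intro p hp
      have h3 := hP p hp
      have h4 := Th_kc_le (tf_pos (by omega : 3 ≤ p.1)) (tf_lt (by omega))
      have h5 := tf_pos (by omega : 3 ≤ p.1)
      simp only [Function.comp, fl]
      linarith
    · apply Multiset.sum_map_le_sum_map
      intro p hp
      have h3 := hQ p hp
      have h4 := Th_kc_le (tu_pos (by omega : 3 ≤ p.1)) (tu_lt (by omega))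
      have h5 := tf_pos (by omega : 3 ≤ p.1)
      have h6 := tu_le (by omega : 3000 ≤ p.1)
      simp only [Function.comp, up]
      linarith
  refine h1.trans ?_
  rw [← sum_fu_sl (P + Q) (fun p hp => by have := h p hp; omega)]
  have h2 := sum_fu_le hnd (a := a) (by omega) (by
    intro u hu
    obtain ⟨p, hp, hu⟩ := mem_sl hu
    have := h p hp
    omega)
  have h3 : (0 : ℝ) < (a : ℝ) - 1 := by
    have : (34700 : ℝ) ≤ a := by exact_mod_cast ha
    linarith
  calc 2006 / 1000 * ((sl (P + Q)).map fu).sum ≤ 2006 / 1000 * (1 / ((a : ℝ) - 1)) := by linarith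
    _ ≤ 201 / 100 / ((a : ℝ) - 1) := by
      rw [mul_one_div]
      exact div_le_div_of_nonneg_right (by norm_num) h3.le

/-- no potential bit above the first class -/
theorem potk_le {P Q : Multiset (ℕ × ℝ)} {a : ℕ} (ha : 34700 ≤ a) (h : ∀ p ∈ P + Q, a ≤ p.1) :
    ∀ p ∈ P.map fl + Q.map up, i0 ≤ kc p.1 := by
  intro q hq
  rw [Multiset.mem_add, Multiset.mem_map, Multiset.mem_map] at hq
  rcases hq with ⟨p, hp, rfl⟩ | ⟨p, hp, rfl⟩
  · have h3 := h p (Multiset.mem_add.2 (Or.inl hp))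
    exact le_kc_of_lt (tf_pos (by omega)) (tf_lt (by omega))
  · have h3 := h p (Multiset.mem_add.2 (Or.inr hp))
    exact le_kc_of_lt (tu_pos (by omega)) (tu_lt (by omega))

end Pool.Agent.MM2.Pot
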