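import Pool.Agent.MP_94f265_co.ST.PotC

/-!
# Potential bits of the start, a priori: the table of the loads
-/

namespace Pool.Agent.MM2.Pot

open Pool.Agent.MM2

/-- load of the flat potential bits, in units of `3 / K`, factor `53 / 50` included -/
noncomputable def potF (K : ℕ) : ℝ :=
  if K < 6000 then 17 / 100000 else if K < 10000 then 36 / 100000 else if K < 14000 then 58 / 100000 else
  if K < 30000 then 181 / 100000 else if K < 60000 then 51 / 10000 else if K < 120000 then 143 / 10000 else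
  336 / 10000

/-- load of the upright potential bits -/
noncomputable def potU (K : ℕ) : ℝ :=
  if K < 6000 then 24 / 100000 else if K < 10000 then 50 / 100000 else if K < 14000 then 82 / 100000 else
  28 / 10000

theorem lenK_add (K : ℕ) (s t : Multiset (ℝ × ℝ)) : lenK K (s + t) = lenK K s + lenK K t := by
  unfold lenK lenIn
  rw [Multiset.filter_add, Multiset.map_add, Multiset.sum_add]

theorem tab_abs {K Kb : ℕ} (hK : 1600 ≤ K) (hKb : K ≤ Kb) (M x : ℝ) (hM : 1 ≤ M) {P : Multiset (ℕ × ℝ)}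
    (hnd : (sl P).Nodup) (g : ℕ → ℝ) (r e : ℝ) (hr : 1 ≤ r) (he : 0 ≤ e) (h3 : ∀ p ∈ P, 3 ≤ p.1)
    (hg : ∀ n : ℕ, 3 ≤ n → g n * ((n : ℝ) ^ 2 - e) = 2 * r ∧ 0 < (n : ℝ) ^ 2 - e)
    (hs : ∀ p ∈ P, p.2 ≤ Th (i0 - 1)) (hMK : r * (8260 / 100000) * (Kb : ℝ) ≤ (M - 1) ^ 2)
    (hx : (53 / 50) * (M * (5120 / (3 * 7994 ^ 3))) * (Kb : ℝ) ≤ x * 3) :
    (53 / 50) * lenK K (P.map (fun p => (g p.1, p.2))) ≤ x * (3 / K) := by
  have hKr : (1600 : ℝ) ≤ K := by exact_mod_cast hK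
  have hKK : (K : ℝ) ≤ Kb := by exact_mod_cast hKb
  have h1 := abs_bound hK M hM hnd g r e (Th (i0 - 1)) hr he h3 hg
    ((mul_le_mul_of_nonneg_left hKK (by positivity)).trans hMK) (Th_pos (by unfold i0; norm_num)).le hs
  rw [Th_1599] at h1
  rw [← mul_div_assoc, le_div_iff₀ (by linarith)]
  refine le_trans ?_ hx
  have h2 := mul_le_mul_of_nonneg_left h1 (by norm_num : (0:ℝ) ≤ 53 / 50)
  exact (mul_le_mul_of_nonneg_right h2 (by linarith)).trans (mul_le_mul_of_nonneg_left hKK (by positivity))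

theorem tab_rel {K : ℕ} (K0 : ℕ) (δ c x : ℝ) (hδ : 0 < δ) (hK0 : 1000 ≤ K0)
    (h5 : 1 ≤ δ ^ 2 * ((1459 / 10000) * (K0 : ℝ))) (hK : K0 ≤ K) {P : Multiset (ℕ × ℝ)}
    (hnd : (sl P).Nodup) (g : ℕ → ℝ) (r e : ℝ) (hr : 1 ≤ r) (he : 0 ≤ e) (h3 : ∀ p ∈ P, 3 ≤ p.1)
    (hg : ∀ n : ℕ, 3 ≤ n → g n * ((n : ℝ) ^ 2 - e) = 2 * r ∧ 0 < (n : ℝ) ^ 2 - e)
    (hc0 : 0 ≤ c) (hs : ∀ p ∈ P, p.2 * (p.1 : ℝ) ≤ c)
    (hx : (53 / 50) * (c * ((3 / 4) * (1 + 4 / (K0 : ℝ)) + δ)) ≤ x * 3) :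
    (53 / 50) * lenK K (P.map (fun p => (g p.1, p.2))) ≤ x * (3 / K) := by
  have hKr : (1000 : ℝ) ≤ K := by exact_mod_cast hK0.trans hK
  have h1 := rel_bound K0 δ hδ hK0 h5 hK hnd g r e c hr he h3 hg hc0 hs
  have h2 := mul_le_mul_of_nonneg_left h1 (by norm_num : (0:ℝ) ≤ 53 / 50)
  refine h2.trans ?_
  rw [← mul_div_assoc, ← mul_div_assoc, ← mul_div_assoc]
  exact div_le_div_of_nonneg_right hx (by linarith)

/-- flat potential bits: `s ≤ Th 1599` and `s n ≤ 1/8` -/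
theorem flat_load {P : Multiset (ℕ × ℝ)} (hnd : (sl P).Nodup) (h3 : ∀ p ∈ P, 3 ≤ p.1)
    (hs : ∀ p ∈ P, p.2 ≤ Th (i0 - 1)) (hr : ∀ p ∈ P, p.2 * (p.1 : ℝ) ≤ 1 / 8) {K : ℕ} (hK : i0 ≤ K) :
    (53 / 50) * lenK K (P.map fl) ≤ potF K * (3 / K) := by
  have hK' : 1600 ≤ K := hK
  unfold potF
  split_ifs with h1 h2 h3' h4 h5 h6
  · exact tab_abs hK' (by omega : K ≤ 6000) (233 / 10) _ (by norm_num) hnd tf 1 1 (by norm_num) (by norm_num) h3
      tf_eq hs (by norm_num) (by norm_num)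
  · exact tab_abs hK' (by omega : K ≤ 10000) (2975 / 100) _ (by norm_num) hnd tf 1 1 (by norm_num) (by norm_num) h3
      tf_eq hs (by norm_num) (by norm_num)
  · exact tab_abs hK' (by omega : K ≤ 14000) (3502 / 100) _ (by norm_num) hnd tf 1 1 (by norm_num) (by norm_num) h3
      tf_eq hs (by norm_num) (by norm_num)
  · exact tab_abs hK' (by omega : K ≤ 30000) (508 / 10) _ (by norm_num) hnd tf 1 1 (by norm_num) (by norm_num) h3
      tf_eq hs (by norm_num) (by norm_num)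
  · exact tab_abs hK' (by omega : K ≤ 60000) (714 / 10) _ (by norm_num) hnd tf 1 1 (by norm_num) (by norm_num) h3
      tf_eq hs (by norm_num) (by norm_num)
  · exact tab_abs hK' (by omega : K ≤ 120000) (1006 / 10) _ (by norm_num) hnd tf 1 1 (by norm_num) (by norm_num) h3
      tf_eq hs (by norm_num) (by norm_num)
  · exact tab_rel 120000 (76 / 10000) (1 / 8) _ (by norm_num) (by norm_num) (by norm_num) (by omega) hnd tf 1 1
      (by norm_num) (by norm_num) h3 tf_eq (by norm_num) hr (by norm_num)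

/-- upright potential bits: `s ≤ Th 1599` and `s n ≤ 1/100` -/
theorem up_load {P : Multiset (ℕ × ℝ)} (hnd : (sl P).Nodup) (h3 : ∀ p ∈ P, 3 ≤ p.1)
    (hs : ∀ p ∈ P, p.2 ≤ Th (i0 - 1)) (hr : ∀ p ∈ P, p.2 * (p.1 : ℝ) ≤ 1 / 100) {K : ℕ} (hK : i0 ≤ K) :
    (53 / 50) * lenK K (P.map up) ≤ potU K * (3 / K) := by
  have hK' : 1600 ≤ K := hK
  unfold potU
  split_ifs with h1 h2 h3'
  · exact tab_abs hK' (by omega : K ≤ 6000) (325 / 10) _ (by norm_num) hnd tu 2 4 (by norm_num) (by norm_num) h3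
      tu_eq hs (by norm_num) (by norm_num)
  · exact tab_abs hK' (by omega : K ≤ 10000) (417 / 10) _ (by norm_num) hnd tu 2 4 (by norm_num) (by norm_num) h3
      tu_eq hs (by norm_num) (by norm_num)
  · exact tab_abs hK' (by omega : K ≤ 14000) (491 / 10) _ (by norm_num) hnd tu 2 4 (by norm_num) (by norm_num) h3
      tu_eq hs (by norm_num) (by norm_num)
  · exact tab_rel 14000 (222 / 10000) (1 / 100) _ (by norm_num) (by norm_num) (by norm_num) (by omega) hnd tu 2 4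
      (by norm_num) (by norm_num) h3 tu_eq (by norm_num) hr (by norm_num)

/-- all potential bits -/
theorem pot_load {P Q : Multiset (ℕ × ℝ)} (hnd : (sl (P + Q)).Nodup) (h3 : ∀ p ∈ P + Q, 3 ≤ p.1)
    (hs : ∀ p ∈ P + Q, p.2 ≤ Th (i0 - 1)) (hrP : ∀ p ∈ P, p.2 * (p.1 : ℝ) ≤ 1 / 8)
    (hrQ : ∀ p ∈ Q, p.2 * (p.1 : ℝ) ≤ 1 / 100) {K : ℕ} (hK : i0 ≤ K) :
    (53 / 50) * lenK K (P.map fl + Q.map up) ≤ (potF K + potU K) * (3 / K) := by
  rw [lenK_add, mul_add, add_mul]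
  exact add_le_add
    (flat_load (Multiset.nodup_of_le (sl_mono (Multiset.le_add_right P Q)) hnd)
      (fun p hp => h3 p (Multiset.mem_add.2 (Or.inl hp))) (fun p hp => hs p (Multiset.mem_add.2 (Or.inl hp))) hrP hK)
    (up_load (Multiset.nodup_of_le (sl_mono (Multiset.le_add_left Q P)) hnd)
      (fun p hp => h3 p (Multiset.mem_add.2 (Or.inr hp))) (fun p hp => hs p (Multiset.mem_add.2 (Or.inr hp))) hrQ hK)

end Pool.Agent.MM2.Pot
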