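import Pool.Agent.MP_94f265_co.ST.PotD
import Pool.Agent.MP_94f265_co.ST.Plan

/-!
# Potential bits of the start: chains
-/

namespace Pool.Agent.MM2.Pot

open Pool.Agent.MM2

/-- the object of a flat chain -/
noncomputable def chObj (w : ℝ) (k m : ℕ) : Obj :=
  ⟨w, (List.range m).map (fun j : ℕ => (1 / (((k + 2 * j : ℕ) : ℝ) + 1), MMS.Lg (k + 2 * j)))⟩

/-- the object of an upright chain -/
noncomputable def uchObj (w : ℝ) (k m : ℕ) : Obj :=
  ⟨w, (List.range m).map (fun j : ℕ => (MMS.Lg (k + 2 * j), 1 / (((k + 2 * j : ℕ) : ℝ) + 1)))⟩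

/-- places of the potential bits of a flat chain -/
noncomputable def flP (w : ℝ) (k m : ℕ) : List (ℕ × ℝ) :=
  (List.range (m - 1)).map (fun j : ℕ => (k + 2 * j + 2, w - 1 / (((k + 2 * j : ℕ) : ℝ) + 1)))

/-- places of the potential bits of an upright chain -/
noncomputable def upP (w : ℝ) (k m : ℕ) : List (ℕ × ℝ) :=
  (List.range (m - 1)).map (fun j : ℕ => (k + 2 * j + 2, w - MMS.Lg (k + 2 * j)))

theorem potL_range (t : ℝ) : ∀ (m : ℕ) (h L : ℕ → ℝ),
    Obj.potL t ((List.range (m + 1)).map (fun j => (h j, L j))) =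
      (List.range m).map (fun j => (h j - h (j + 1), t - h j)) := by
  intro m
  induction m with
  | zero => intro h L; simp [Obj.potL]
  | succ m ih =>
    intro h L
    have h1 : (List.range (m + 1 + 1)).map (fun j => (h j, L j)) =
        (h 0, L 0) :: (List.range (m + 1)).map (fun j => (h (j + 1), L (j + 1))) := by
      rw [List.range_succ_eq_map, List.map_cons, List.map_map]
      rfl
    have h2 : (List.range (m + 1)).map (fun j => (h (j + 1), L (j + 1))) =
        (h 1, L 1) :: (List.range m).map (fun j => (h (j + 2), L (j + 2))) := by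
      rw [List.range_succ_eq_map, List.map_cons, List.map_map]
      rfl
    have h3 : (List.range (m + 1)).map (fun j => (h j - h (j + 1), t - h j)) =
        (h 0 - h 1, t - h 0) :: (List.range m).map (fun j => (h (j + 1) - h (j + 2), t - h (j + 1))) := by
      rw [List.range_succ_eq_map, List.map_cons, List.map_map]
      rfl
    have ih' := ih (fun j => h (j + 1)) (fun j => L (j + 1))
    rw [h1, h3, ← ih', h2]
    rfl

theorem chObj_pot (w : ℝ) (k m : ℕ) (hk : 1 ≤ k) : (chObj w k m).pot = (flP w k m).map fl := by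
  unfold Obj.pot chObj flP
  rcases Nat.eq_zero_or_pos m with h | h
  · subst h; simp [Obj.potL]
  · obtain ⟨n, rfl⟩ : ∃ n, m = n + 1 := ⟨m - 1, by omega⟩
    simp only [Nat.add_sub_cancel]
    rw [potL_range, List.map_map]
    apply List.map_congr_left
    intro j _
    simp only [Function.comp, fl, tf]
    refine Prod.ext ?_ rfl
    simp only
    push_cast
    have hk' : (1 : ℝ) ≤ k := by exact_mod_cast hk
    have h1 : (k : ℝ) + 2 * j + 1 ≠ 0 := by positivity
    have h2 : (k : ℝ) + 2 * j + 3 ≠ 0 := by positivity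
    rw [show (k : ℝ) + 2 * (j + 1) + 1 = k + 2 * j + 3 by ring,
      show (k : ℝ) + 2 * j + 2 - 1 = k + 2 * j + 1 by ring, show (k : ℝ) + 2 * j + 2 + 1 = k + 2 * j + 3 by ring]
    field_simp
    ring

theorem uchObj_pot (w : ℝ) (k m : ℕ) (hk : 1 ≤ k) : (uchObj w k m).pot = (upP w k m).map up := by
  unfold Obj.pot uchObj upP
  rcases Nat.eq_zero_or_pos m with h | h
  · subst h; simp [Obj.potL]
  · obtain ⟨n, rfl⟩ : ∃ n, m = n + 1 := ⟨m - 1, by omega⟩
    simp only [Nat.add_sub_cancel]
    rw [potL_range, List.map_map]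
    apply List.map_congr_left
    intro j _
    simp only [Function.comp, up, tu, MMS.Lg]
    refine Prod.ext ?_ rfl
    simp only
    push_cast
    have hk' : (1 : ℝ) ≤ k := by exact_mod_cast hk
    have h0 : (k : ℝ) + 2 * j ≠ 0 := by positivity
    have h1 : (k : ℝ) + 2 * j + 2 ≠ 0 := by positivity
    have h2 : (k : ℝ) + 2 * j + 4 ≠ 0 := by positivity
    rw [show (k : ℝ) + 2 * (j + 1) + 2 = k + 2 * j + 4 by ring, show (k : ℝ) + 2 * (j + 1) = k + 2 * j + 2 by ring,
      show (k : ℝ) + 2 * j + 2 - 2 = k + 2 * j by ring, show (k : ℝ) + 2 * j + 2 + 2 = k + 2 * j + 4 by ring]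
    field_simp
    ring

/-- the units of the places of a chain -/
theorem sl_chain (k m : ℕ) (f : ℕ → ℝ) :
    sl (((List.range (m - 1)).map (fun j : ℕ => (k + 2 * j + 2, f j)) : List (ℕ × ℝ)) : Multiset (ℕ × ℝ)) ≤
      (List.range' k (2 * m) : Multiset ℕ) := by
  rcases Nat.eq_zero_or_pos m with h | h
  · subst h; simp [sl]
  · obtain ⟨n, rfl⟩ : ∃ n, m = n + 1 := ⟨m - 1, by omega⟩
    simp only [Nat.add_sub_cancel]
    have h1 : ∀ n : ℕ, sl (((List.range n).map (fun j : ℕ => (k + 2 * j + 2, f j)) : List (ℕ × ℝ)) :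
        Multiset (ℕ × ℝ)) = (List.range' (k + 2) (2 * n) : Multiset ℕ) := by
      intro n
      induction n with
      | zero => simp [sl]
      | succ n ih =>
        rw [List.range_succ, List.map_append, ← Multiset.coe_add]
        have h2 : ∀ A B : Multiset (ℕ × ℝ), sl (A + B) = sl A + sl B := by
          intro A B
          unfold sl
          rw [Multiset.map_add, Multiset.sum_add]
        rw [h2, ih, show 2 * (n + 1) = 2 * n + 2 by ring, List.range'_append_1.symm, ← Multiset.coe_add]
        congr 1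
        have e : k + 2 + 2 * n = k + 2 * n + 2 := by ring
        rw [e]
        simp [sl, List.range']
        rfl
    rw [h1, show 2 * (n + 1) = 2 + 2 * n by ring, ← List.range'_append_1, ← Multiset.coe_add]
    exact Multiset.le_add_left _ _

end Pool.Agent.MM2.Pot
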