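import Pool.Agent.MP_94f265_co.ST.PotE

/-!
# Potential bits of the start: all chains
-/

namespace Pool.Agent.MM2.Pot

open Pool.Agent.MM2

theorem potOf_add (Q R : Multiset Obj) : potOf (Q + R) = potOf Q + potOf R := by
  unfold potOf
  rw [Multiset.map_add, Multiset.sum_add]

theorem potOf_cons (o : Obj) (Q : Multiset Obj) : potOf (o ::ₘ Q) = (o.pot : Multiset (ℝ × ℝ)) + potOf Q := by
  unfold potOf
  rw [Multiset.map_cons, Multiset.sum_cons]

/-- a chain: thickness, first unit, number of dominoes -/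
abbrev Ch : Type := ℝ × ℕ × ℕ

/-- objects of flat chains -/
noncomputable def objF (c : Ch) : Obj := chObj c.1 c.2.1 c.2.2

/-- objects of upright chains -/
noncomputable def objU (c : Ch) : Obj := uchObj c.1 c.2.1 c.2.2

/-- all places -/
noncomputable def allF (C : Multiset Ch) : Multiset (ℕ × ℝ) := (C.map (fun c => (flP c.1 c.2.1 c.2.2 : Multiset (ℕ × ℝ)))).sum

noncomputable def allU (C : Multiset Ch) : Multiset (ℕ × ℝ) := (C.map (fun c => (upP c.1 c.2.1 c.2.2 : Multiset (ℕ × ℝ)))).sum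

/-- units of chains -/
def unitsC (C : Multiset Ch) : Multiset ℕ := (C.map (fun c => (List.range' c.2.1 (2 * c.2.2) : Multiset ℕ))).sum

theorem potOf_F (C : Multiset Ch) (hk : ∀ c ∈ C, 1 ≤ c.2.1) : potOf (C.map objF) = (allF C).map fl := by
  induction C using Multiset.induction_on with
  | empty => simp [potOf, allF]
  | cons c C ih =>
    rw [Multiset.map_cons, potOf_cons, ih (fun d hd => hk d (Multiset.mem_cons_of_mem hd))]
    have e1 : allF (c ::ₘ C) = (flP c.1 c.2.1 c.2.2 : Multiset (ℕ × ℝ)) + allF C := by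
      unfold allF
      rw [Multiset.map_cons, Multiset.sum_cons]
    rw [e1, Multiset.map_add]
    congr 1
    unfold objF
    rw [chObj_pot _ _ _ (hk c (Multiset.mem_cons_self _ _))]
    rfl

theorem potOf_U (C : Multiset Ch) (hk : ∀ c ∈ C, 1 ≤ c.2.1) : potOf (C.map objU) = (allU C).map up := by
  induction C using Multiset.induction_on with
  | empty => simp [potOf, allU]
  | cons c C ih =>
    rw [Multiset.map_cons, potOf_cons, ih (fun d hd => hk d (Multiset.mem_cons_of_mem hd))]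
    have e1 : allU (c ::ₘ C) = (upP c.1 c.2.1 c.2.2 : Multiset (ℕ × ℝ)) + allU C := by
      unfold allU
      rw [Multiset.map_cons, Multiset.sum_cons]
    rw [e1, Multiset.map_add]
    congr 1
    unfold objU
    rw [uchObj_pot _ _ _ (hk c (Multiset.mem_cons_self _ _))]
    rfl

theorem sl_add (A B : Multiset (ℕ × ℝ)) : sl (A + B) = sl A + sl B := by
  unfold sl
  rw [Multiset.map_add, Multiset.sum_add]

theorem sl_allF (C : Multiset Ch) : sl (allF C) ≤ unitsC C := by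
  induction C using Multiset.induction_on with
  | empty => simp [allF, sl]
  | cons c C ih =>
    unfold allF unitsC
    rw [Multiset.map_cons, Multiset.sum_cons, Multiset.map_cons, Multiset.sum_cons, sl_add]
    exact add_le_add (sl_chain c.2.1 c.2.2 _) ih

theorem sl_allU (C : Multiset Ch) : sl (allU C) ≤ unitsC C := by
  induction C using Multiset.induction_on with
  | empty => simp [allU, sl]
  | cons c C ih =>
    unfold allU unitsC
    rw [Multiset.map_cons, Multiset.sum_cons, Multiset.map_cons, Multiset.sum_cons, sl_add]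
    exact add_le_add (sl_chain c.2.1 c.2.2 _) ih

theorem mem_allF {C : Multiset Ch} {p : ℕ × ℝ} (h : p ∈ allF C) : ∃ c ∈ C, p ∈ flP c.1 c.2.1 c.2.2 := by
  unfold allF at h
  obtain ⟨s, hs, hp⟩ := Multiset.mem_join.1 h
  obtain ⟨c, hc, rfl⟩ := Multiset.mem_map.1 hs
  exact ⟨c, hc, hp⟩

theorem mem_allU {C : Multiset Ch} {p : ℕ × ℝ} (h : p ∈ allU C) : ∃ c ∈ C, p ∈ upP c.1 c.2.1 c.2.2 := by
  unfold allU at h
  obtain ⟨s, hs, hp⟩ := Multiset.mem_join.1 h
  obtain ⟨c, hc, rfl⟩ := Multiset.mem_map.1 hs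
  exact ⟨c, hc, hp⟩

/-- the test of a flat chain: thickness of the last cell -/
def OkF (c : Ch) : Prop :=
  c.1 - 1 / ((c.2.1 : ℝ) + 2 * c.2.2 - 1) ≤ Th (i0 - 1) ∧
  (c.1 - 1 / ((c.2.1 : ℝ) + 2 * c.2.2 - 1)) * ((c.2.1 : ℝ) + 2 * c.2.2) ≤ 1 / 8

/-- the test of an upright chain -/
def OkU (c : Ch) : Prop :=
  c.1 - MMS.Lg (c.2.1 + 2 * c.2.2 - 2) ≤ Th (i0 - 1) ∧
  (c.1 - MMS.Lg (c.2.1 + 2 * c.2.2 - 2)) * ((c.2.1 : ℝ) + 2 * c.2.2) ≤ 1 / 100

theorem mul_le_of_le {s S n M c : ℝ} (hn : 0 ≤ n) (hnM : n ≤ M) (hsS : s ≤ S) (h : S * M ≤ c) (hc : 0 ≤ c) :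
    s * n ≤ c := by
  rcases le_total s 0 with h1 | h1
  · nlinarith
  · calc s * n ≤ S * n := mul_le_mul_of_nonneg_right hsS hn
      _ ≤ S * M := mul_le_mul_of_nonneg_left hnM (h1.trans hsS)
      _ ≤ c := h

theorem flP_bounds {c : Ch} (hk : 1 ≤ c.2.1) (h : OkF c) {p : ℕ × ℝ} (hp : p ∈ flP c.1 c.2.1 c.2.2) :
    c.2.1 + 2 ≤ p.1 ∧ p.2 ≤ Th (i0 - 1) ∧ p.2 * (p.1 : ℝ) ≤ 1 / 8 := by
  unfold flP at hp
  obtain ⟨j, hj, rfl⟩ := List.mem_map.1 hp
  rw [List.mem_range] at hj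
  have hj' : ((j : ℝ) + 2) ≤ c.2.2 := by exact_mod_cast (by omega : j + 2 ≤ c.2.2)
  have hk' : (1 : ℝ) ≤ c.2.1 := by exact_mod_cast hk
  have hj0 : (0 : ℝ) ≤ j := Nat.cast_nonneg j
  have hle : c.1 - 1 / (((c.2.1 + 2 * j : ℕ) : ℝ) + 1) ≤ c.1 - 1 / ((c.2.1 : ℝ) + 2 * c.2.2 - 1) := by
    have : 1 / ((c.2.1 : ℝ) + 2 * c.2.2 - 1) ≤ 1 / (((c.2.1 + 2 * j : ℕ) : ℝ) + 1) := by
      push_cast
      exact div_le_div_of_nonneg_left (by norm_num) (by positivity) (by linarith)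
    linarith
  refine ⟨by simp only; omega, hle.trans h.1, ?_⟩
  simp only
  refine mul_le_of_le (by positivity) ?_ hle h.2 (by norm_num)
  push_cast
  linarith

theorem upP_bounds {c : Ch} (hk : 1 ≤ c.2.1) (h : OkU c) {p : ℕ × ℝ} (hp : p ∈ upP c.1 c.2.1 c.2.2) :
    c.2.1 + 2 ≤ p.1 ∧ p.2 ≤ Th (i0 - 1) ∧ p.2 * (p.1 : ℝ) ≤ 1 / 100 := by
  unfold upP at hp
  obtain ⟨j, hj, rfl⟩ := List.mem_map.1 hp
  rw [List.mem_range] at hj
  have hj' : ((j : ℝ) + 2) ≤ c.2.2 := by exact_mod_cast (by omega : j + 2 ≤ c.2.2)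
  have hk' : (1 : ℝ) ≤ c.2.1 := by exact_mod_cast hk
  have hj0 : (0 : ℝ) ≤ j := Nat.cast_nonneg j
  have hle : c.1 - MMS.Lg (c.2.1 + 2 * j) ≤ c.1 - MMS.Lg (c.2.1 + 2 * c.2.2 - 2) := by
    have : MMS.Lg (c.2.1 + 2 * c.2.2 - 2) ≤ MMS.Lg (c.2.1 + 2 * j) := by
      unfold MMS.Lg
      have e : ((c.2.1 + 2 * j : ℕ) : ℝ) ≤ ((c.2.1 + 2 * c.2.2 - 2 : ℕ) : ℝ) := by
        exact_mod_cast (by omega : c.2.1 + 2 * j ≤ c.2.1 + 2 * c.2.2 - 2)
      have e0 : (0 : ℝ) < ((c.2.1 + 2 * j : ℕ) : ℝ) := by push_cast; positivity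
      exact add_le_add (div_le_div_of_nonneg_left (by norm_num) e0 e)
        (div_le_div_of_nonneg_left (by norm_num) (by linarith) (by linarith))
    linarith
  refine ⟨by simp only; omega, hle.trans h.1, ?_⟩
  simp only
  refine mul_le_of_le (by positivity) ?_ hle h.2 (by norm_num)
  push_cast
  linarith

/-- everything about the potential bits of the start -/
theorem chains_pot (C D : Multiset Ch) (hk : ∀ c ∈ C + D, 34698 ≤ c.2.1) (hnd : (unitsC (C + D)).Nodup)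
    (hC : ∀ c ∈ C, OkF c) (hD : ∀ c ∈ D, OkU c) :
    (∀ K, i0 ≤ K → (53 / 50) * lenK K (potOf (C.map objF + D.map objU)) ≤ (potF K + potU K) * (3 / K)) ∧
    (∀ p ∈ potOf (C.map objF + D.map objU), i0 ≤ kc p.1) ∧
    (∀ a : ℕ, 34700 ≤ a → (∀ c ∈ C + D, a ≤ c.2.1 + 2) →
      ((potOf (C.map objF + D.map objU)).map (fun p => Th (kc p.1 - 1))).sum ≤ (201 / 100) / ((a : ℝ) - 1)) := by
  have hkC : ∀ c ∈ C, 34698 ≤ c.2.1 := fun c hc => hk c (Multiset.mem_add.2 (Or.inl hc))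
  have hkD : ∀ c ∈ D, 34698 ≤ c.2.1 := fun c hc => hk c (Multiset.mem_add.2 (Or.inr hc))
  have e : potOf (C.map objF + D.map objU) = (allF C).map fl + (allU D).map up := by
    rw [potOf_add, potOf_F C (fun c hc => by have := hkC c hc; omega),
      potOf_U D (fun c hc => by have := hkD c hc; omega)]
  have hnd' : (sl (allF C + allU D)).Nodup := by
    refine Multiset.nodup_of_le ?_ hnd
    rw [sl_add]
    have : unitsC (C + D) = unitsC C + unitsC D := by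
      unfold unitsC
      rw [Multiset.map_add, Multiset.sum_add]
    rw [this]
    exact add_le_add (sl_allF C) (sl_allU D)
  have hF : ∀ p ∈ allF C, ∃ c ∈ C, c.2.1 + 2 ≤ p.1 ∧ p.2 ≤ Th (i0 - 1) ∧ p.2 * (p.1 : ℝ) ≤ 1 / 8 := by
    intro p hp
    obtain ⟨c, hc, hp⟩ := mem_allF hp
    exact ⟨c, hc, flP_bounds (by have := hkC c hc; omega) (hC c hc) hp⟩
  have hU : ∀ p ∈ allU D, ∃ c ∈ D, c.2.1 + 2 ≤ p.1 ∧ p.2 ≤ Th (i0 - 1) ∧ p.2 * (p.1 : ℝ) ≤ 1 / 100 := by
    intro p hp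
    obtain ⟨c, hc, hp⟩ := mem_allU hp
    exact ⟨c, hc, upP_bounds (by have := hkD c hc; omega) (hD c hc) hp⟩
  have hge : ∀ a : ℕ, (∀ c ∈ C + D, a ≤ c.2.1 + 2) → ∀ p ∈ allF C + allU D, a ≤ p.1 := by
    intro a ha p hp
    rcases Multiset.mem_add.1 hp with hp | hp
    · obtain ⟨c, hc, h1, _⟩ := hF p hp
      exact (ha c (Multiset.mem_add.2 (Or.inl hc))).trans h1
    · obtain ⟨c, hc, h1, _⟩ := hU p hp
      exact (ha c (Multiset.mem_add.2 (Or.inr hc))).trans h1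
  have hge0 := hge 34700 (fun c hc => by have := hk c hc; omega)
  refine ⟨?_, ?_, ?_⟩
  · intro K hK
    rw [e]
    refine pot_load hnd' (fun p hp => by have := hge0 p hp; omega) ?_ ?_ ?_ hK
    · intro p hp
      rcases Multiset.mem_add.1 hp with hp | hp
      · obtain ⟨c, _, _, h2, _⟩ := hF p hp
        exact h2
      · obtain ⟨c, _, _, h2, _⟩ := hU p hp
        exact h2
    · intro p hp
      obtain ⟨c, _, _, _, h3⟩ := hF p hp
      exact h3
    · intro p hp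
      obtain ⟨c, _, _, _, h3⟩ := hU p hp
      exact h3
  · rw [e]
    exact potk_le (le_refl _) hge0
  · intro a ha h
    rw [e]
    exact price_le hnd' ha (hge a h)

end Pool.Agent.MM2.Pot
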