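import Pool.Agent.MP_94f265_co.ST.One

namespace Pool.Agent.MMS

open Pool.Agent.MM1

/-- the meaning of an accepted plan, for a list of contexts -/
def OkL (cs : List Ctx) (us : List (ℕ × ℕ)) (fr : List Ctx) (us' : List (ℕ × ℕ)) (fr' : List Ctx) : Prop :=
  ∃ ua fa, us' = ua ++ us ∧ fr' = fa ++ fr ∧
    ∀ G, RzL cs G → ∃ F A, RzL fa F ∧ A + owedL fa = (nums ua : Multiset ℕ) + owedL cs ∧ Cut G (unitsM A + F)

theorem RzL_single {c : Ctx} {G : Multiset (ℝ × ℝ)} (h : Rz c G) : RzL [c] G :=
  ⟨G, 0, h, rfl, by simp⟩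

theorem RzL_two {c1 c2 : Ctx} {G1 G2 : Multiset (ℝ × ℝ)} (h1 : Rz c1 G1) (h2 : Rz c2 G2) :
    RzL [c1, c2] (G1 + G2) :=
  ⟨G1, G2, h1, RzL_single h2, rfl⟩

theorem RzL_three {c1 c2 c3 : Ctx} {G1 G2 G3 : Multiset (ℝ × ℝ)} (h1 : Rz c1 G1) (h2 : Rz c2 G2)
    (h3 : Rz c3 G3) : RzL [c1, c2, c3] (G1 + (G2 + G3)) :=
  ⟨G1, G2 + G3, h1, RzL_two h2 h3, rfl⟩

theorem RzL_nil : RzL [] 0 := rfl

theorem OkL_nil (us : List (ℕ × ℕ)) (fr : List Ctx) : OkL [] us fr us fr := by
  refine ⟨[], [], rfl, rfl, fun G hG => ⟨0, 0, rfl, rfl, ?_⟩⟩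
  simp only [RzL] at hG
  subst hG
  exact Cut.of_eq (by simp [unitsM])

theorem OkL_cons {c : Ctx} {cs : List Ctx} {us us1 us2 : List (ℕ × ℕ)} {fr fr1 fr2 : List Ctx}
    (h1 : OkL [c] us fr us1 fr1) (h2 : OkL cs us1 fr1 us2 fr2) : OkL (c :: cs) us fr us2 fr2 := by
  obtain ⟨ua1, fa1, e1, e2, s1⟩ := h1
  obtain ⟨ua2, fa2, e3, e4, s2⟩ := h2
  refine ⟨ua2 ++ ua1, fa2 ++ fa1, by rw [e3, e1]; simp, by rw [e4, e2]; simp, ?_⟩
  rintro G ⟨G1, G2, r1, r2, rfl⟩
  obtain ⟨F1, A1, f1, a1, c1⟩ := s1 G1 (RzL_single r1)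
  obtain ⟨F2, A2, f2, a2, c2⟩ := s2 G2 r2
  refine ⟨F2 + F1, A1 + A2, RzL_append f2 f1, ?_, ?_⟩
  · rw [owedL_append, nums_append, ← Multiset.coe_add]
    simp only [owedL, add_zero] at a1 ⊢
    calc A1 + A2 + (owedL fa2 + owedL fa1) = (A1 + owedL fa1) + (A2 + owedL fa2) := by abel
      _ = _ := by rw [a1, a2]; abel
  · refine (Cut.add c1 c2).trans (Cut.of_eq ?_)
    rw [unitsM_add]
    abel

/-- the general step -/
theorem Ok_cut {c : Ctx} {cs fj : List Ctx} {u0 us us' : List (ℕ × ℕ)} {fr fr' : List Ctx}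
    (h : OkL cs (u0 ++ us) (fj ++ fr) us' fr')
    (hc : ∀ G, Rz c G → ∃ G1 G2 A0, RzL cs G1 ∧ RzL fj G2 ∧
      A0 + (owedL cs + owedL fj) = (nums u0 : Multiset ℕ) + owed c ∧ Cut G (unitsM A0 + (G1 + G2))) :
    OkL [c] us fr us' fr' := by
  obtain ⟨ua, fa, e1, e2, s⟩ := h
  refine ⟨ua ++ u0, fa ++ fj, by rw [e1]; simp, by rw [e2]; simp, ?_⟩
  rintro G ⟨G0, G0', r0, r0', rfl⟩
  simp only [RzL] at r0'
  subst r0'
  obtain ⟨G1, G2, A0, r1, r2, ha, hcut⟩ := hc G0 r0
  obtain ⟨F, A, f, a, cf⟩ := s G1 r1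
  refine ⟨F + G2, A0 + A, RzL_append f r2, ?_, ?_⟩
  · rw [owedL_append, nums_append, ← Multiset.coe_add]
    simp only [owedL, add_zero]
    calc A0 + A + (owedL fa + owedL fj) = (A + owedL fa) + (A0 + owedL fj) := by abel
      _ = (nums ua : Multiset ℕ) + (A0 + (owedL cs + owedL fj)) := by rw [a]; abel
      _ = _ := by rw [ha]; abel
  · rw [add_zero]
    refine hcut.trans (((Cut.add cf (Cut.refl G2)).add_left _).trans (Cut.of_eq ?_))
    rw [unitsM_add]
    abel

theorem nums_one (k m : ℕ) : (nums [(k, m)] : Multiset ℕ) = (List.range' k m : Multiset ℕ) := by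
  simp [nums]

theorem nums_wall (k x y : ℕ) : nums [(k, 2 * (x + y))] = List.range' k (2 * x) ++ List.range' (k + 2 * x) (2 * y) := by
  simp only [nums, List.append_nil]
  rw [List.range'_append_1]
  congr 1
  ring

theorem wall_cut {al ah bl bh k J K J2 K2 : ℕ} {ms : List Q4} {a b : ℝ} (ha : In al ah a) (hb : In bl bh b)
    (h1 : wok al k J K = true) (h2 : wok al (k + 2 * (J * K)) J2 K2 = true)
    (hm : mrg bl bh (K + K2) (wprof al ah k J K) (wprof al ah (k + 2 * (J * K)) J2 K2).reverse = some ms) :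
    ∃ G1 G2, Rz (.ls ms) G1 ∧ Rz (.ls (wendE al ah k J K ++ wendE al ah (k + 2 * (J * K)) J2 K2)) G2 ∧
      Cut {(a, b)} (units (nums [(k, 2 * (J * K + J2 * K2))]) +
        (G1 + (G2 + (wBits (wa k J) (wb k J) J K +
          wBits (wa (k + 2 * (J * K)) J2) (wb (k + 2 * (J * K)) J2) J2 K2)))) := by
  have w1 := wall_ok h1 ha
  have w2 := wall_ok h2 ha
  have p1 := prof_enc h1 ha
  have p2 := prof_enc h2 ha
  obtain ⟨pat, m1, m2⟩ := mrg_sound _ bl bh b _ _ ms _ _ hb p1 (List.rel_reverse p2) hm
  obtain ⟨l1, e1, e1'⟩ := ends_enc h1 ha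
  obtain ⟨l2, e2, e2'⟩ := ends_enc h2 ha
  have hw := wall_two w1 w2 pat m1
  refine ⟨_, ((l1 ++ l2 : List (ℝ × ℝ)) : Multiset (ℝ × ℝ)), ⟨_, m2, rfl⟩, ⟨_, List.rel_append e1 e2, rfl⟩, ?_⟩
  have i1 := items_units h1
  have i2 := items_units h2
  refine hw.trans ?_
  rw [nums_wall, units_append, ← Multiset.coe_add, ← e1', ← e2']
  refine (Cut.of_eq ?_).trans ((Cut.add (Cut.add i1 i2) (Cut.refl
    ((mids b pat (prof (wa k J) (wb k J) a J K)
        (prof (wa (k + 2 * (J * K)) J2) (wb (k + 2 * (J * K)) J2) a J2 K2).reverse : Multiset (ℝ × ℝ)) +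
      (wEnds (wa k J) (wb k J) a J K + wEnds (wa (k + 2 * (J * K)) J2) (wb (k + 2 * (J * K)) J2) a J2 K2 +
        (wBits (wa k J) (wb k J) J K + wBits (wa (k + 2 * (J * K)) J2) (wb (k + 2 * (J * K)) J2) J2 K2))))).trans
    (Cut.of_eq ?_))
  · abel
  · abel

theorem ls_split {l : List Q4} {G : Multiset (ℝ × ℝ)} (h : Rz (.ls l) G) (s : ℕ) :
    ∃ G1 G2, Rz (.ls (l.take s)) G1 ∧ Rz (.ls (l.drop s)) G2 ∧ G = G1 + G2 := by
  obtain ⟨l', h1, rfl⟩ := h
  refine ⟨(l'.take s : List (ℝ × ℝ)), (l'.drop s : List (ℝ × ℝ)), ⟨_, List.forall₂_take s h1, rfl⟩,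
    ⟨_, List.forall₂_drop s h1, rfl⟩, ?_⟩
  rw [Multiset.coe_add, List.take_append_drop]

theorem T_add (c s t : ℕ) : T c (s + t) = T c s + T (c + 2 * s) t := by
  unfold T
  rw [Finset.sum_range_add]
  congr 1
  refine Finset.sum_congr rfl fun j _ => ?_
  push_cast
  congr 1
  ring

theorem cut_two {w x y : ℝ} (hx : 0 ≤ x) (hy : 0 ≤ y) : Cut {(w, x + y)} ({(w, x)} + {(w, y)}) :=
  Cut.split' hx hy

theorem range'_split (k s m : ℕ) (h : s ≤ m) :
    (List.range' k (2 * m) : Multiset ℕ) = (List.range' k (2 * s) : Multiset ℕ) +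
      (List.range' (k + 2 * s) (2 * (m - s)) : Multiset ℕ) := by
  rw [Multiset.coe_add, List.range'_append_1]
  congr 2
  omega

theorem T_one (c : ℕ) : T c 1 = 1 / (c : ℝ) := by simp [T]

theorem Lg_anti2 {k k' : ℕ} (hk : 1 ≤ k) (h : k ≤ k') : Lg k' ≤ Lg k := by
  have h1 : (1 : ℝ) ≤ k := by exact_mod_cast hk
  have h2 : (k : ℝ) ≤ k' := by exact_mod_cast h
  unfold Lg
  have g1 : 1 / (k' : ℝ) ≤ 1 / (k : ℝ) := one_div_le_one_div_of_le (by linarith) h2
  have g2 : 1 / ((k' : ℝ) + 2) ≤ 1 / ((k : ℝ) + 2) := one_div_le_one_div_of_le (by linarith) (by linarith)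
  linarith

theorem inv_anti' {k k' : ℕ} (h : k ≤ k') : 1 / ((k' : ℝ) + 1) ≤ 1 / ((k : ℝ) + 1) := by
  have h2 : (k : ℝ) ≤ k' := by exact_mod_cast h
  have h0 : (0 : ℝ) ≤ k := Nat.cast_nonneg k
  exact one_div_le_one_div_of_le (by linarith) (by linarith)

/-- a domino at the beginning of a flat chain -/
theorem kid_flat {w : ℝ} {k m : ℕ} (hk : 1 ≤ k) (hm : 1 ≤ m) (hw : 1 / ((k : ℝ) + 1) ≤ w) :
    Cut {(w, T k m + T (k + 2) m)} (unitsM ((List.range' k 2 : List ℕ) : Multiset ℕ) +
      ({(w - 1 / ((k : ℝ) + 1), Lg k)} + {(w, T (k + 2) (m - 1) + T (k + 2 + 2) (m - 1))})) := by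
  have e : T k m + T (k + 2) m = Lg k + (T (k + 2) (m - 1) + T (k + 2 + 2) (m - 1)) := by
    obtain ⟨n, rfl⟩ : ∃ n, m = n + 1 := ⟨m - 1, by omega⟩
    rw [Nat.add_sub_cancel, T_succ, T_succ]
    unfold Lg
    push_cast
    ring
  rw [e]
  have n1 : 0 ≤ T (k + 2) (m - 1) + T (k + 2 + 2) (m - 1) := add_nonneg (T_nonneg _ _) (T_nonneg _ _)
  have h0 : 0 ≤ 1 / ((k : ℝ) + 1) := by positivity
  have h1 := cut_two (w := w) (Lg_nonneg k) n1
  have h2 : Cut {(w, Lg k)} ({(1 / ((k : ℝ) + 1), Lg k)} + {(w - 1 / ((k : ℝ) + 1), Lg k)}) := by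
    have h := Cut.split (a := 1 / ((k : ℝ) + 1)) (b := w - 1 / ((k : ℝ) + 1)) (c := Lg k) h0 (by linarith)
    rw [show 1 / ((k : ℝ) + 1) + (w - 1 / ((k : ℝ) + 1)) = w by ring] at h
    exact h
  have h4 := cut_domino k hk
  refine h1.trans ((Cut.add (h2.trans (Cut.add h4 (Cut.refl _))) (Cut.refl _)).trans (Cut.of_eq ?_))
  rw [← units_eq]
  have : List.range' k 2 = [k, k + 1] := rfl
  rw [this]
  abel

/-- a domino at the beginning of an upright chain -/
theorem kid_upright {w : ℝ} {k m : ℕ} (hk : 1 ≤ k) (hm : 1 ≤ m) (hw : Lg k ≤ w) :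
    Cut {(w, T (k + 1) m)} (unitsM ((List.range' k 2 : List ℕ) : Multiset ℕ) +
      ({(w - Lg k, 1 / ((k : ℝ) + 1))} + {(w, T (k + 2 + 1) (m - 1))})) := by
  have e : T (k + 1) m = 1 / ((k : ℝ) + 1) + T (k + 2 + 1) (m - 1) := by
    obtain ⟨n, rfl⟩ : ∃ n, m = n + 1 := ⟨m - 1, by omega⟩
    rw [Nat.add_sub_cancel, T_succ]
    push_cast
    rfl
  rw [e]
  have h0 : 0 ≤ 1 / ((k : ℝ) + 1) := by positivity
  have h1 := cut_two (w := w) h0 (T_nonneg (k + 2 + 1) (m - 1))
  have h2 : Cut {(w, 1 / ((k : ℝ) + 1))} ({(1 / ((k : ℝ) + 1), Lg k)} + {(w - Lg k, 1 / ((k : ℝ) + 1))}) := by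
    have h := Cut.split (a := Lg k) (b := w - Lg k) (c := 1 / ((k : ℝ) + 1)) (Lg_nonneg k) (by linarith)
    rw [show Lg k + (w - Lg k) = w by ring] at h
    exact h.trans (Cut.add (F := {(Lg k, 1 / ((k : ℝ) + 1))}) (G := {(1 / ((k : ℝ) + 1), Lg k)})
      (F' := {(w - Lg k, 1 / ((k : ℝ) + 1))}) (G' := {(w - Lg k, 1 / ((k : ℝ) + 1))}) (Cut.swap _ _) (Cut.refl _))
  have h4 := cut_domino k hk
  refine h1.trans ((Cut.add (h2.trans (Cut.add h4 (Cut.refl _))) (Cut.refl _)).trans (Cut.of_eq ?_))
  rw [← units_eq]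
  have : List.range' k 2 = [k, k + 1] := rfl
  rw [this]
  abel

theorem owed_aux (k m : ℕ) (hm : 1 ≤ m) :
    ((List.range' k 2 : List ℕ) : Multiset ℕ) + (List.range' (k + 2) (2 * (m - 1)) : Multiset ℕ) =
      (List.range' k (2 * m) : Multiset ℕ) := by
  rw [range'_split k 1 m hm]

theorem run_sound : ∀ (p : Plan) (c : Ctx) (us : List (ℕ × ℕ)) (fr : List Ctx) (us' : List (ℕ × ℕ))
    (fr' : List Ctx), run p c us fr = some (us', fr') → OkL [c] us fr us' fr' := by
  intro p
  induction p with
  | nil =>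
    intro c us fr us' fr' h
    simp only [run, Option.some.injEq, Prod.mk.injEq] at h
    obtain ⟨rfl, rfl⟩ := h
    refine ⟨[], [c], rfl, rfl, fun G hG => ⟨G, 0, hG, ?_, Cut.of_eq ?_⟩⟩
    · simp [nums]
    · simp [unitsM]
  | sw p ih =>
    intro c us fr us' fr' h
    cases c with
    | pc al ah bl bh =>
      simp only [run] at h
      refine Ok_cut (u0 := []) (fj := []) (OkL_cons (ih _ _ _ _ _ h) (OkL_nil _ _)) ?_
      rintro G ⟨a, b, ha, hb, rfl⟩
      refine ⟨{(b, a)}, 0, 0, RzL_single ⟨b, a, hb, ha, rfl⟩, RzL_nil, by simp [owedL, owed, nums],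
        (Cut.swap a b).trans (Cut.of_eq ?_)⟩
      simp [unitsM]
    | _ => simp [run] at h
  | cut hh p q ihp ihq =>
    intro c us fr us' fr' h
    cases c with
    | pc al ah bl bh =>
      simp only [run] at h
      by_cases hb : Nat.ble hh bl = true
      · rw [hb, cond_true] at h
        cases hr : run p (.pc al ah hh hh) us fr with
        | none => rw [hr] at h; exact absurd h (by simp)
        | some x =>
          obtain ⟨us1, fr1⟩ := x
          rw [hr] at h
          refine Ok_cut (u0 := []) (fj := []) (OkL_cons (ihp _ _ _ _ _ hr) (OkL_cons (ihq _ _ _ _ _ h) (OkL_nil _ _))) ?_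
          rintro G ⟨a, b, ha, hb', rfl⟩
          have hle : hh ≤ bl := Nat.le_of_ble_eq_true hb
          have hH : In hh hh ((hh : ℝ) / (SC : ℝ)) := by
            have := SC_pos
            constructor
            · rw [div_mul_cancel₀ _ (ne_of_gt this)]
            · rw [div_mul_cancel₀ _ (ne_of_gt this)]
          refine ⟨{(a, (hh : ℝ) / SC)} + {(a, b - (hh : ℝ) / SC)}, 0, 0,
            RzL_two ⟨a, _, ha, hH, rfl⟩ ⟨a, _, ha, In.sub hb' hH hle, rfl⟩, RzL_nil,
            by simp [owedL, owed, nums], ?_⟩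
          have h1 := Cut.split' (a := (hh : ℝ) / SC) (b := b - (hh : ℝ) / SC) (c := a) hH.nonneg
            (by have := In.le hb' hH hle; linarith)
          rw [show (hh : ℝ) / SC + (b - (hh : ℝ) / SC) = b by ring] at h1
          refine h1.trans (Cut.of_eq ?_)
          simp [unitsM]
      · simp only [Bool.not_eq_true] at hb
        rw [hb, cond_false] at h
        exact absurd h (by simp)
    | _ => simp [run] at h
  | item0 k p q ihp ihq =>
    intro c us fr us' fr' h
    cases c with
    | pc al ah bl bh =>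
      simp only [run] at h
      by_cases hb : (Nat.ble 1 k && (Nat.ble (uh k) al && Nat.ble (uh (k + 1)) bl)) = true
      · rw [hb, cond_true] at h
        cases hr : run p (.pc (al - uh k) (ah - ul k) bl bh) ((k, 1) :: us) fr with
        | none => rw [hr] at h; exact absurd h (by simp)
        | some x =>
          obtain ⟨us1, fr1⟩ := x
          rw [hr] at h
          refine Ok_cut (u0 := [(k, 1)]) (fj := []) (OkL_cons (ihp _ _ _ _ _ hr)
            (OkL_cons (ihq _ _ _ _ _ h) (OkL_nil _ _))) ?_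
          rintro G ⟨a, b, ha, hb', rfl⟩
          simp only [Bool.and_eq_true] at hb
          have hk : 1 ≤ k := Nat.le_of_ble_eq_true hb.1
          have h1 : uh k ≤ al := Nat.le_of_ble_eq_true hb.2.1
          have h2 : uh (k + 1) ≤ bl := Nat.le_of_ble_eq_true hb.2.2
          have hu := In_u k hk
          have hv := In_u (k + 1) (by omega)
          refine ⟨{(a - 1 / (k : ℝ), b)} + {(1 / (k : ℝ), b - 1 / ((k + 1 : ℕ) : ℝ))}, 0, {k},
            RzL_two ⟨_, b, In.sub ha hu h1, hb', rfl⟩ ⟨_, _, hu, In.sub hb' hv h2, rfl⟩, RzL_nil,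
            by simp [owedL, owed, nums], ?_⟩
          refine (cut_corner hu.nonneg (In.le ha hu h1) hv.nonneg (In.le hb' hv h2)).trans (Cut.of_eq ?_)
          simp [unitsM, U]
      · simp only [Bool.not_eq_true] at hb
        rw [hb, cond_false] at h
        exact absurd h (by simp)
    | _ => simp [run] at h
  | item1 k p q ihp ihq =>
    intro c us fr us' fr' h
    cases c with
    | pc al ah bl bh =>
      simp only [run] at h
      by_cases hb : (Nat.ble 1 k && (Nat.ble (uh (k + 1)) al && Nat.ble (uh k) bl)) = true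
      · rw [hb, cond_true] at h
        cases hr : run p (.pc (al - uh (k + 1)) (ah - ul (k + 1)) bl bh) ((k, 1) :: us) fr with
        | none => rw [hr] at h; exact absurd h (by simp)
        | some x =>
          obtain ⟨us1, fr1⟩ := x
          rw [hr] at h
          refine Ok_cut (u0 := [(k, 1)]) (fj := []) (OkL_cons (ihp _ _ _ _ _ hr)
            (OkL_cons (ihq _ _ _ _ _ h) (OkL_nil _ _))) ?_
          rintro G ⟨a, b, ha, hb', rfl⟩
          simp only [Bool.and_eq_true] at hb
          have hk : 1 ≤ k := Nat.le_of_ble_eq_true hb.1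
          have h1 : uh (k + 1) ≤ al := Nat.le_of_ble_eq_true hb.2.1
          have h2 : uh k ≤ bl := Nat.le_of_ble_eq_true hb.2.2
          have hu := In_u k hk
          have hv := In_u (k + 1) (by omega)
          refine ⟨{(a - 1 / ((k + 1 : ℕ) : ℝ), b)} + {(1 / ((k + 1 : ℕ) : ℝ), b - 1 / (k : ℝ))}, 0, {k},
            RzL_two ⟨_, b, In.sub ha hv h1, hb', rfl⟩ ⟨_, _, hv, In.sub hb' hu h2, rfl⟩, RzL_nil,
            by simp [owedL, owed, nums], ?_⟩
          refine (cut_corner hv.nonneg (In.le ha hv h1) hu.nonneg (In.le hb' hu h2)).trans ?_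
          refine Cut.add ((Cut.swap _ _).trans (Cut.of_eq ?_)) (Cut.of_eq (by abel))
          simp [unitsM, U]
      · simp only [Bool.not_eq_true] at hb
        rw [hb, cond_false] at h
        exact absurd h (by simp)
    | _ => simp [run] at h
  | dom k p q ihp ihq =>
    intro c us fr us' fr' h
    cases c with
    | pc al ah bl bh =>
      simp only [run] at h
      by_cases hb : (Nat.ble 1 k && (Nat.ble (uh (k + 1)) al && Nat.ble (Lh k) bl)) = true
      · rw [hb, cond_true] at h
        cases hr : run p (.pc (al - uh (k + 1)) (ah - ul (k + 1)) bl bh) ((k, 2) :: us) fr with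
        | none => rw [hr] at h; exact absurd h (by simp)
        | some x =>
          obtain ⟨us1, fr1⟩ := x
          rw [hr] at h
          refine Ok_cut (u0 := [(k, 2)]) (fj := []) (OkL_cons (ihp _ _ _ _ _ hr)
            (OkL_cons (ihq _ _ _ _ _ h) (OkL_nil _ _))) ?_
          rintro G ⟨a, b, ha, hb', rfl⟩
          simp only [Bool.and_eq_true] at hb
          have hk : 1 ≤ k := Nat.le_of_ble_eq_true hb.1
          have h1 : uh (k + 1) ≤ al := Nat.le_of_ble_eq_true hb.2.1
          have h2 : Lh k ≤ bl := Nat.le_of_ble_eq_true hb.2.2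
          have hu := In_u (k + 1) (by omega)
          have hv := In_L k hk
          refine ⟨{(a - 1 / ((k + 1 : ℕ) : ℝ), b)} + {(1 / ((k + 1 : ℕ) : ℝ), b - Lg k)}, 0,
            ((List.range' k 2 : List ℕ) : Multiset ℕ),
            RzL_two ⟨_, b, In.sub ha hu h1, hb', rfl⟩ ⟨_, _, hu, In.sub hb' hv h2, rfl⟩, RzL_nil,
            by simp [owedL, owed, nums], ?_⟩
          refine (cut_corner hu.nonneg (In.le ha hu h1) hv.nonneg (In.le hb' hv h2)).trans ?_
          refine Cut.add ((Cut.of_eq ?_).trans ((cut_domino k hk).trans (Cut.of_eq ?_))) (Cut.of_eq (by abel))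
          · push_cast; rfl
          · rw [← units_eq]
            rfl
      · simp only [Bool.not_eq_true] at hb
        rw [hb, cond_false] at h
        exact absurd h (by simp)
    | _ => simp [run] at h
  | strip k m p q ihp ihq =>
    intro c us fr us' fr' h
    cases c with
    | pc al ah bl bh =>
      simp only [run] at h
      by_cases hb : ((Nat.ble 1 k && Nat.ble 1 m) && (Nat.ble (uh (k + 1)) al &&
          Nat.ble (Thi k m + Thi (k + 2) m) bl)) = true
      · rw [hb, cond_true] at h
        cases hr : run p (.ch al ah k m) ((k, 2 * m) :: us) fr with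
        | none => rw [hr] at h; exact absurd h (by simp)
        | some x =>
          obtain ⟨us1, fr1⟩ := x
          rw [hr] at h
          refine Ok_cut (u0 := [(k, 2 * m)]) (fj := []) (OkL_cons (ihp _ _ _ _ _ hr)
            (OkL_cons (ihq _ _ _ _ _ h) (OkL_nil _ _))) ?_
          rintro G ⟨a, b, ha, hb', rfl⟩
          simp only [Bool.and_eq_true] at hb
          have hk : 1 ≤ k := Nat.le_of_ble_eq_true hb.1.1
          have hm : 1 ≤ m := Nat.le_of_ble_eq_true hb.1.2
          have h1 : uh (k + 1) ≤ al := Nat.le_of_ble_eq_true hb.2.1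
          have h2 : Thi k m + Thi (k + 2) m ≤ bl := Nat.le_of_ble_eq_true hb.2.2
          have hu := In_u (k + 1) (by omega)
          have hT := (In_T k m hk hm).add (In_T (k + 2) m (by omega) hm)
          have h3 := In.le ha hu h1
          push_cast at h3
          have h4 := In.le hb' hT h2
          refine ⟨{(a, T k m + T (k + 2) m)} + {(a, b - (T k m + T (k + 2) m))}, 0, 0,
            RzL_two ⟨a, ha, hk, h3, rfl⟩ ⟨a, _, ha, In.sub hb' hT h2, rfl⟩, RzL_nil,
            by simp [owedL, owed, nums], ?_⟩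
          have h5 := cut_two (w := a) (x := T k m + T (k + 2) m) (y := b - (T k m + T (k + 2) m))
            (add_nonneg (T_nonneg _ _) (T_nonneg _ _)) (by linarith)
          rw [show T k m + T (k + 2) m + (b - (T k m + T (k + 2) m)) = b by ring] at h5
          refine h5.trans (Cut.of_eq ?_)
          simp [unitsM]
      · simp only [Bool.not_eq_true] at hb
        rw [hb, cond_false] at h
        exact absurd h (by simp)
    | _ => simp [run] at h
  | ustrip k m p q ihp ihq =>
    intro c us fr us' fr' h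
    cases c with
    | pc al ah bl bh =>
      simp only [run] at h
      by_cases hb : ((Nat.ble 1 k && Nat.ble 1 m) && (Nat.ble (Lh k) al &&
          Nat.ble (Thi (k + 1) m) bl)) = true
      · rw [hb, cond_true] at h
        cases hr : run p (.uch al ah k m) ((k, 2 * m) :: us) fr with
        | none => rw [hr] at h; exact absurd h (by simp)
        | some x =>
          obtain ⟨us1, fr1⟩ := x
          rw [hr] at h
          refine Ok_cut (u0 := [(k, 2 * m)]) (fj := []) (OkL_cons (ihp _ _ _ _ _ hr)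
            (OkL_cons (ihq _ _ _ _ _ h) (OkL_nil _ _))) ?_
          rintro G ⟨a, b, ha, hb', rfl⟩
          simp only [Bool.and_eq_true] at hb
          have hk : 1 ≤ k := Nat.le_of_ble_eq_true hb.1.1
          have hm : 1 ≤ m := Nat.le_of_ble_eq_true hb.1.2
          have h1 : Lh k ≤ al := Nat.le_of_ble_eq_true hb.2.1
          have h2 : Thi (k + 1) m ≤ bl := Nat.le_of_ble_eq_true hb.2.2
          have hu := In_L k hk
          have hT := In_T (k + 1) m (by omega) hm
          have h4 := In.le hb' hT h2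
          refine ⟨{(a, T (k + 1) m)} + {(a, b - T (k + 1) m)}, 0, 0,
            RzL_two ⟨a, ha, hk, In.le ha hu h1, rfl⟩ ⟨a, _, ha, In.sub hb' hT h2, rfl⟩, RzL_nil,
            by simp [owedL, owed, nums], ?_⟩
          have h5 := cut_two (w := a) (x := T (k + 1) m) (y := b - T (k + 1) m)
            (T_nonneg _ _) (by linarith)
          rw [show T (k + 1) m + (b - T (k + 1) m) = b by ring] at h5
          refine h5.trans (Cut.of_eq ?_)
          simp [unitsM]
      · simp only [Bool.not_eq_true] at hb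
        rw [hb, cond_false] at h
        exact absurd h (by simp)
    | _ => simp [run] at h
  | wall k J K J2 K2 pm pe pb ihm ihe ihb =>
    intro c us fr us' fr' h
    cases c with
    | pc al ah bl bh =>
      simp only [run] at h
      by_cases hb : (wok al k J K && wok al (k + 2 * (J * K)) J2 K2) = true
      · rw [hb, cond_true] at h
        cases hm : mrg bl bh (K + K2) (wprof al ah k J K) (wprof al ah (k + 2 * (J * K)) J2 K2).reverse with
        | none => rw [hm] at h; exact absurd h (by simp)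
        | some ms =>
          rw [hm] at h
          simp only at h
          cases hr1 : run pm (.ls ms) ((k, 2 * (J * K + J2 * K2)) :: us) fr with
          | none => rw [hr1] at h; exact absurd h (by simp)
          | some x1 =>
            obtain ⟨us1, fr1⟩ := x1
            rw [hr1] at h
            simp only at h
            cases hr2 : run pe (.ls (wendE al ah k J K ++ wendE al ah (k + 2 * (J * K)) J2 K2)) us1 fr1 with
            | none => rw [hr2] at h; exact absurd h (by simp)
            | some x2 =>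
              obtain ⟨us2, fr2⟩ := x2
              rw [hr2] at h
              simp only at h
              refine Ok_cut (u0 := [(k, 2 * (J * K + J2 * K2))]) (fj := []) (OkL_cons (ihm _ _ _ _ _ hr1)
                (OkL_cons (ihe _ _ _ _ _ hr2) (OkL_cons (ihb _ _ _ _ _ h) (OkL_nil _ _)))) ?_
              rintro G ⟨a, b, ha, hb', rfl⟩
              simp only [Bool.and_eq_true] at hb
              obtain ⟨G1, G2, g1, g2, g3⟩ := wall_cut ha hb' hb.1 hb.2 hm
              obtain ⟨l1, b1, b1'⟩ := bits_enc hb.1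
              obtain ⟨l2, b2, b2'⟩ := bits_enc hb.2
              refine ⟨G1 + (G2 + ((l1 ++ l2 : List (ℝ × ℝ)) : Multiset (ℝ × ℝ))), 0,
                ((nums [(k, 2 * (J * K + J2 * K2))] : List ℕ) : Multiset ℕ), RzL_three g1 g2
                ⟨_, List.rel_append b1 b2, rfl⟩, RzL_nil, by simp [owedL, owed], ?_⟩
              rw [← Multiset.coe_add, ← b1', ← b2', ← units_eq, add_zero]
              exact g3
      · simp only [Bool.not_eq_true] at hb
        rw [hb, cond_false] at h
        exact absurd h (by simp)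
    | _ => simp [run] at h
  | wallj k J K J2 K2 pm pe ihm ihe =>
    intro c us fr us' fr' h
    cases c with
    | pc al ah bl bh =>
      simp only [run] at h
      by_cases hb : (wok al k J K && wok al (k + 2 * (J * K)) J2 K2) = true
      · rw [hb, cond_true] at h
        cases hm : mrg bl bh (K + K2) (wprof al ah k J K) (wprof al ah (k + 2 * (J * K)) J2 K2).reverse with
        | none => rw [hm] at h; exact absurd h (by simp)
        | some ms =>
          rw [hm] at h
          simp only at h
          cases hr1 : run pm (.ls ms) ((k, 2 * (J * K + J2 * K2)) :: us)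
              (.bt k J K :: .bt (k + 2 * (J * K)) J2 K2 :: fr) with
          | none => rw [hr1] at h; exact absurd h (by simp)
          | some x1 =>
            obtain ⟨us1, fr1⟩ := x1
            rw [hr1] at h
            simp only at h
            refine Ok_cut (u0 := [(k, 2 * (J * K + J2 * K2))])
              (fj := [.bt k J K, .bt (k + 2 * (J * K)) J2 K2]) (OkL_cons (ihm _ _ _ _ _ hr1)
              (OkL_cons (ihe _ _ _ _ _ h) (OkL_nil _ _))) ?_
            rintro G ⟨a, b, ha, hb', rfl⟩
            simp only [Bool.and_eq_true] at hb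
            obtain ⟨G1, G2, g1, g2, g3⟩ := wall_cut ha hb' hb.1 hb.2 hm
            refine ⟨G1 + G2, _, ((nums [(k, 2 * (J * K + J2 * K2))] : List ℕ) : Multiset ℕ), RzL_two g1 g2,
              RzL_two (c1 := .bt k J K) (c2 := .bt (k + 2 * (J * K)) J2 K2) rfl rfl, by simp [owedL, owed], ?_⟩
            rw [← units_eq]
            refine g3.trans (Cut.of_eq ?_)
            abel
      · simp only [Bool.not_eq_true] at hb
        rw [hb, cond_false] at h
        exact absurd h (by simp)
    | _ => simp [run] at h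
  | bwall k J K pm pl pe ihm ihl ihe =>
    intro c us fr us' fr' h
    cases c with
    | pc al ah bl bh =>
      simp only [run] at h
      by_cases hb : (wok al k J K && Nat.ble (Thi k J + Thi (k + 2) J) bl) = true
      · rw [hb, cond_true] at h
        cases hr1 : run pm (.mc bl bh k J (K - 1)) ((k, 2 * (J * K)) :: us) (.bt k J K :: fr) with
        | none => rw [hr1] at h; exact absurd h (by simp)
        | some x1 =>
          obtain ⟨us1, fr1⟩ := x1
          rw [hr1] at h
          simp only at h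
          cases hr2 : run pl (.pc (al - TShi (k + 1) (2 * J) (K - 1)) (ah - TSlo (k + 1) (2 * J) (K - 1))
            (bl - (Thi (k + 2 * ((K - 1) * J)) J + Thi (k + 2 * ((K - 1) * J) + 2) J))
            (bh - (Tlo (k + 2 * ((K - 1) * J)) J + Tlo (k + 2 * ((K - 1) * J) + 2) J))) us1 fr1 with
          | none => rw [hr2] at h; exact absurd h (by simp)
          | some x2 =>
            obtain ⟨us2, fr2⟩ := x2
            rw [hr2] at h
            simp only at h
            refine Ok_cut (u0 := [(k, 2 * (J * K))]) (fj := [.bt k J K]) (OkL_cons (ihm _ _ _ _ _ hr1)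
              (OkL_cons (ihl _ _ _ _ _ hr2) (OkL_cons (ihe _ _ _ _ _ h) (OkL_nil _ _)))) ?_
            rintro G ⟨a, b, ha, hb', rfl⟩
            simp only [Bool.and_eq_true] at hb
            obtain ⟨G1, G2, G3, g1, g2, g3, g4⟩ := bwall_cut ha hb' hb.1 (Nat.le_of_ble_eq_true hb.2)
            refine ⟨G1 + (G2 + G3), _, ((nums [(k, 2 * (J * K))] : List ℕ) : Multiset ℕ), RzL_three g1 g2 g3,
              RzL_single (c := .bt k J K) rfl, by simp [owedL, owed], ?_⟩
            rw [← units_eq]
            refine g4.trans (Cut.of_eq ?_)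
            abel
      · simp only [Bool.not_eq_true] at hb
        rw [hb, cond_false] at h
        exact absurd h (by simp)
    | _ => simp [run] at h
  | skip s p ih =>
    intro c us fr us' fr' h
    cases c with
    | pc => simp [run] at h
    | bt => simp [run] at h
    | mc Hl Hh k J m =>
      simp only [run] at h
      by_cases hb : Nat.ble s m = true
      · rw [hb, cond_true] at h
        have hle : s ≤ m := Nat.le_of_ble_eq_true hb
        refine Ok_cut (u0 := []) (fj := [.mc Hl Hh k J s]) (OkL_cons (ih _ _ _ _ _ h) (OkL_nil _ _)) ?_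
        rintro G ⟨H, hH, rfl⟩
        refine ⟨mcv H (k + 2 * (s * J)) J (m - s), mcv H k J s, 0, RzL_single ⟨H, hH, rfl⟩,
          RzL_single ⟨H, hH, rfl⟩, by simp [owedL, owed, nums], Cut.of_eq ?_⟩
        have e3 : mcv H k J m = mcv H k J s + mcv H (k + 2 * (s * J)) J (m - s) := by
          rw [← mcv_add, Nat.add_sub_cancel' hle]
        rw [e3, unitsM_zero]
        abel
      · simp only [Bool.not_eq_true] at hb
        rw [hb, cond_false] at h
        exact absurd h (by simp)
    | ls l =>
      simp only [run] at h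
      refine Ok_cut (u0 := []) (fj := [.ls (l.take s)]) (OkL_cons (ih _ _ _ _ _ h) (OkL_nil _ _)) ?_
      intro G hG
      obtain ⟨G1, G2, r1, r2, rfl⟩ := ls_split hG s
      refine ⟨G2, G1, 0, RzL_single r2, RzL_single r1, by simp [owedL, owed, nums], Cut.of_eq ?_⟩
      rw [unitsM_zero]
      abel
    | ch wl wh k m =>
      simp only [run] at h
      by_cases hb : Nat.ble s m = true
      · rw [hb, cond_true] at h
        have hle : s ≤ m := Nat.le_of_ble_eq_true hb
        refine Ok_cut (u0 := []) (fj := [.ch wl wh k s]) (OkL_cons (ih _ _ _ _ _ h) (OkL_nil _ _)) ?_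
        rintro G ⟨w, hw, hk, hw1, rfl⟩
        have e : T k m + T (k + 2) m = (T k s + T (k + 2) s) + (T (k + 2 * s) (m - s) + T (k + 2 * s + 2) (m - s)) := by
          have h1 := T_add k s (m - s)
          have h2 := T_add (k + 2) s (m - s)
          rw [Nat.add_sub_cancel' hle] at h1 h2
          rw [h1, h2, show k + 2 + 2 * s = k + 2 * s + 2 by ring]
          ring
        refine ⟨{(w, T (k + 2 * s) (m - s) + T (k + 2 * s + 2) (m - s))}, {(w, T k s + T (k + 2) s)}, 0,
          RzL_single ⟨w, hw, by omega, ?_, rfl⟩, RzL_single ⟨w, hw, hk, hw1, rfl⟩, ?_, ?_⟩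
        · exact (inv_anti' (by omega)).trans hw1
        · simp only [owedL, owed, nums, add_zero, zero_add, Multiset.coe_nil]
          rw [range'_split k s m hle]
          abel
        · rw [e]
          refine (cut_two (add_nonneg (T_nonneg _ _) (T_nonneg _ _)) (add_nonneg (T_nonneg _ _) (T_nonneg _ _))).trans
            (Cut.of_eq ?_)
          rw [unitsM_zero]
          abel
      · simp only [Bool.not_eq_true] at hb
        rw [hb, cond_false] at h
        exact absurd h (by simp)
    | uch wl wh k m =>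
      simp only [run] at h
      by_cases hb : Nat.ble s m = true
      · rw [hb, cond_true] at h
        have hle : s ≤ m := Nat.le_of_ble_eq_true hb
        refine Ok_cut (u0 := []) (fj := [.uch wl wh k s]) (OkL_cons (ih _ _ _ _ _ h) (OkL_nil _ _)) ?_
        rintro G ⟨w, hw, hk, hw1, rfl⟩
        have e : T (k + 1) m = T (k + 1) s + T (k + 2 * s + 1) (m - s) := by
          have h1 := T_add (k + 1) s (m - s)
          rw [Nat.add_sub_cancel' hle] at h1
          rw [h1, show k + 1 + 2 * s = k + 2 * s + 1 by ring]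
        refine ⟨{(w, T (k + 2 * s + 1) (m - s))}, {(w, T (k + 1) s)}, 0,
          RzL_single ⟨w, hw, by omega, ?_, rfl⟩, RzL_single ⟨w, hw, hk, hw1, rfl⟩, ?_, ?_⟩
        · exact (Lg_anti2 hk (by omega)).trans hw1
        · simp only [owedL, owed, nums, add_zero, zero_add, Multiset.coe_nil]
          rw [range'_split k s m hle]
          abel
        · rw [e]
          refine (cut_two (T_nonneg _ _) (T_nonneg _ _)).trans (Cut.of_eq ?_)
          rw [unitsM_zero]
          abel
      · simp only [Bool.not_eq_true] at hb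
        rw [hb, cond_false] at h
        exact absurd h (by simp)
  | kid p q ihp ihq =>
    intro c us fr us' fr' h
    cases c with
    | pc => simp [run] at h
    | bt => simp [run] at h
    | mc Hl Hh k J m =>
      simp only [run] at h
      by_cases hb : ((Nat.ble 1 m && Nat.ble 1 J) && (Nat.ble 1 k && Nat.ble (Thi k J + Thi (k + 2) J) Hl)) = true
      · rw [hb, cond_true] at h
        cases hr : run p (.pc (ul (k + 1)) (uh (k + 1)) (Hl - (Thi k J + Thi (k + 2) J))
          (Hh - (Tlo k J + Tlo (k + 2) J))) us fr with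
        | none => rw [hr] at h; exact absurd h (by simp)
        | some x =>
          obtain ⟨us1, fr1⟩ := x
          rw [hr] at h
          refine Ok_cut (u0 := []) (fj := []) (OkL_cons (ihp _ _ _ _ _ hr)
            (OkL_cons (ihq _ _ _ _ _ h) (OkL_nil _ _))) ?_
          rintro G ⟨H, hH, rfl⟩
          simp only [Bool.and_eq_true] at hb
          have hm : 1 ≤ m := Nat.le_of_ble_eq_true hb.1.1
          have hJ : 1 ≤ J := Nat.le_of_ble_eq_true hb.1.2
          have hk : 1 ≤ k := Nat.le_of_ble_eq_true hb.2.1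
          have h1 : Thi k J + Thi (k + 2) J ≤ Hl := Nat.le_of_ble_eq_true hb.2.2
          have hT := (In_T k J hk hJ).add (In_T (k + 2) J (by omega) hJ)
          refine ⟨{(1 / ((k + 1 : ℕ) : ℝ), H - (T k J + T (k + 2) J))} + mcv H (k + 2 * J) J (m - 1), 0, 0,
            RzL_two ⟨_, _, In_u (k + 1) (by omega), In.sub hH hT h1, rfl⟩ ⟨H, hH, rfl⟩, RzL_nil,
            by simp [owedL, owed, nums], Cut.of_eq ?_⟩
          have e3 : mcv H k J m = mcv H k J 1 + mcv H (k + 2 * (1 * J)) J (m - 1) := by
            rw [← mcv_add, Nat.add_sub_cancel' hm]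
          rw [e3, mcv_one]
          simp [unitsM]
      · simp only [Bool.not_eq_true] at hb
        rw [hb, cond_false] at h
        exact absurd h (by simp)
    | ls l =>
      cases l with
      | nil => simp [run] at h
      | cons e l =>
        obtain ⟨al, ah, bl, bh⟩ := e
        simp only [run] at h
        cases hr : run p (.pc al ah bl bh) us fr with
        | none => rw [hr] at h; exact absurd h (by simp)
        | some x =>
          obtain ⟨us1, fr1⟩ := x
          rw [hr] at h
          refine Ok_cut (u0 := []) (fj := []) (OkL_cons (ihp _ _ _ _ _ hr)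
            (OkL_cons (ihq _ _ _ _ _ h) (OkL_nil _ _))) ?_
          rintro G ⟨l', h1, rfl⟩
          cases h1 with
          | @cons _ d _ l' he hl =>
            obtain ⟨a, b⟩ := d
            refine ⟨{(a, b)} + (l' : Multiset (ℝ × ℝ)), 0, 0, RzL_two ⟨a, b, he.1, he.2, rfl⟩ ⟨l', hl, rfl⟩,
              RzL_nil, by simp [owedL, owed, nums], Cut.of_eq ?_⟩
            rw [unitsM_zero]
            simp only [zero_add, add_zero]
            rfl
    | ch wl wh k m =>
      simp only [run] at h
      by_cases hb : (Nat.ble 1 m && (Nat.ble 1 k && Nat.ble (uh (k + 1)) wl)) = true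
      · rw [hb, cond_true] at h
        cases hr : run p (.pc (wl - uh (k + 1)) (wh - ul (k + 1)) (Ll k) (Lh k)) us fr with
        | none => rw [hr] at h; exact absurd h (by simp)
        | some x =>
          obtain ⟨us1, fr1⟩ := x
          rw [hr] at h
          refine Ok_cut (u0 := []) (fj := []) (OkL_cons (ihp _ _ _ _ _ hr)
            (OkL_cons (ihq _ _ _ _ _ h) (OkL_nil _ _))) ?_
          rintro G ⟨w, hw, hk0, hw1, rfl⟩
          simp only [Bool.and_eq_true] at hb
          have hm : 1 ≤ m := Nat.le_of_ble_eq_true hb.1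
          have hk : 1 ≤ k := Nat.le_of_ble_eq_true hb.2.1
          have h1 : uh (k + 1) ≤ wl := Nat.le_of_ble_eq_true hb.2.2
          have hu := In_u (k + 1) (by omega)
          refine ⟨{(w - 1 / ((k + 1 : ℕ) : ℝ), Lg k)} + {(w, T (k + 2) (m - 1) + T (k + 2 + 2) (m - 1))}, 0,
            ((List.range' k 2 : List ℕ) : Multiset ℕ),
            RzL_two ⟨_, _, In.sub hw hu h1, In_L k hk, rfl⟩ ⟨w, hw, by omega, (inv_anti' (by omega)).trans hw1, rfl⟩,
            RzL_nil, ?_, ?_⟩
          · simp only [owedL, owed, nums, add_zero, zero_add, Multiset.coe_nil]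
            exact owed_aux k m hm
          · refine (kid_flat hk hm hw1).trans (Cut.of_eq ?_)
            push_cast
            abel
      · simp only [Bool.not_eq_true] at hb
        rw [hb, cond_false] at h
        exact absurd h (by simp)
    | uch wl wh k m =>
      simp only [run] at h
      by_cases hb : (Nat.ble 1 m && (Nat.ble 1 k && Nat.ble (Lh k) wl)) = true
      · rw [hb, cond_true] at h
        cases hr : run p (.pc (wl - Lh k) (wh - Ll k) (ul (k + 1)) (uh (k + 1))) us fr with
        | none => rw [hr] at h; exact absurd h (by simp)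
        | some x =>
          obtain ⟨us1, fr1⟩ := x
          rw [hr] at h
          refine Ok_cut (u0 := []) (fj := []) (OkL_cons (ihp _ _ _ _ _ hr)
            (OkL_cons (ihq _ _ _ _ _ h) (OkL_nil _ _))) ?_
          rintro G ⟨w, hw, hk0, hw1, rfl⟩
          simp only [Bool.and_eq_true] at hb
          have hm : 1 ≤ m := Nat.le_of_ble_eq_true hb.1
          have hk : 1 ≤ k := Nat.le_of_ble_eq_true hb.2.1
          have h1 : Lh k ≤ wl := Nat.le_of_ble_eq_true hb.2.2
          have hu := In_u (k + 1) (by omega)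
          refine ⟨{(w - Lg k, 1 / ((k + 1 : ℕ) : ℝ))} + {(w, T (k + 2 + 1) (m - 1))}, 0,
            ((List.range' k 2 : List ℕ) : Multiset ℕ),
            RzL_two ⟨_, _, In.sub hw (In_L k hk) h1, hu, rfl⟩ ⟨w, hw, by omega, (Lg_anti2 hk (by omega)).trans hw1, rfl⟩,
            RzL_nil, ?_, ?_⟩
          · simp only [owedL, owed, nums, add_zero, zero_add, Multiset.coe_nil]
            exact owed_aux k m hm
          · refine (kid_upright hk hm hw1).trans (Cut.of_eq ?_)
            push_cast
            abel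
      · simp only [Bool.not_eq_true] at hb
        rw [hb, cond_false] at h
        exact absurd h (by simp)

end Pool.Agent.MMS
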