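import Pool.Agent.MP_94f265_co.ST.Core

namespace Pool.Agent.MMS

/-- `1/c + 1/(c+2) + ... ` (`m` terms) -/
noncomputable def T (c m : ℕ) : ℝ := ∑ j ∈ Finset.range m, 1 / ((c : ℝ) + 2 * (j : ℝ))

theorem T_term (C e : ℝ) (hC : 0 < C) (he : 0 < C + e) :
    1 / (C + e) = 1 / C - e / C ^ 2 + e ^ 2 / C ^ 3 - e ^ 3 / C ^ 4 + e ^ 4 / (C ^ 4 * (C + e)) := by
  have h1 : C ≠ 0 := ne_of_gt hC
  have h2 : C + e ≠ 0 := ne_of_gt he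
  field_simp
  ring

theorem T_s1 (n : ℕ) (s : ℝ) : ∑ j ∈ Finset.range n, (2 * (j : ℝ) - s) = (n : ℝ) * ((n : ℝ) - 1) - s * n := by
  induction n with
  | zero => simp
  | succ n ih => rw [Finset.sum_range_succ, ih]; push_cast; ring

theorem T_s2 (n : ℕ) (s : ℝ) : ∑ j ∈ Finset.range n, (2 * (j : ℝ) - s) ^ 2 =
    2 * (n : ℝ) * ((n : ℝ) - 1) * (2 * (n : ℝ) - 1) / 3 - 2 * s * ((n : ℝ) * ((n : ℝ) - 1)) + s ^ 2 * n := by
  induction n with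
  | zero => simp
  | succ n ih => rw [Finset.sum_range_succ, ih]; push_cast; ring

theorem T_s3 (n : ℕ) (s : ℝ) : ∑ j ∈ Finset.range n, (2 * (j : ℝ) - s) ^ 3 =
    2 * ((n : ℝ) * ((n : ℝ) - 1)) ^ 2 - 3 * s * (2 * (n : ℝ) * ((n : ℝ) - 1) * (2 * (n : ℝ) - 1) / 3)
      + 3 * s ^ 2 * ((n : ℝ) * ((n : ℝ) - 1)) - s ^ 3 * n := by
  induction n with
  | zero => simp
  | succ n ih => rw [Finset.sum_range_succ, ih]; push_cast; ring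

/-- the midpoint expansion -/
theorem T_eq (c m : ℕ) (hc : 1 ≤ c) (hm : 1 ≤ m) :
    T c m = (m : ℝ) / ((c : ℝ) + m - 1) + (m : ℝ) * ((m : ℝ) ^ 2 - 1) / (3 * ((c : ℝ) + m - 1) ^ 3) +
      ∑ j ∈ Finset.range m, (2 * (j : ℝ) - ((m : ℝ) - 1)) ^ 4 /
        (((c : ℝ) + m - 1) ^ 4 * ((c : ℝ) + 2 * j)) := by
  have hc' : (1 : ℝ) ≤ c := by exact_mod_cast hc
  have hm' : (1 : ℝ) ≤ m := by exact_mod_cast hm
  set C : ℝ := (c : ℝ) + m - 1 with hC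
  have hC0 : 0 < C := by rw [hC]; linarith
  have hterm : ∀ j ∈ Finset.range m, 1 / ((c : ℝ) + 2 * (j : ℝ)) =
      1 / C - (2 * (j : ℝ) - ((m : ℝ) - 1)) / C ^ 2 + (2 * (j : ℝ) - ((m : ℝ) - 1)) ^ 2 / C ^ 3
        - (2 * (j : ℝ) - ((m : ℝ) - 1)) ^ 3 / C ^ 4
        + (2 * (j : ℝ) - ((m : ℝ) - 1)) ^ 4 / (C ^ 4 * ((c : ℝ) + 2 * j)) := by
    intro j _
    have h := T_term C (2 * (j : ℝ) - ((m : ℝ) - 1)) hC0 (by
      rw [hC]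
      have : (0 : ℝ) ≤ j := Nat.cast_nonneg j
      linarith)
    have e : C + (2 * (j : ℝ) - ((m : ℝ) - 1)) = (c : ℝ) + 2 * j := by rw [hC]; ring
    rw [e] at h
    exact h
  unfold T
  rw [Finset.sum_congr rfl hterm]
  rw [Finset.sum_add_distrib, Finset.sum_sub_distrib, Finset.sum_add_distrib, Finset.sum_sub_distrib,
    ← Finset.sum_div (Finset.range m) (fun j : ℕ => 2 * (j : ℝ) - ((m : ℝ) - 1)) (C ^ 2),
    ← Finset.sum_div (Finset.range m) (fun j : ℕ => (2 * (j : ℝ) - ((m : ℝ) - 1)) ^ 2) (C ^ 3),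
    ← Finset.sum_div (Finset.range m) (fun j : ℕ => (2 * (j : ℝ) - ((m : ℝ) - 1)) ^ 3) (C ^ 4),
    T_s1, T_s2, T_s3]
  simp only [Finset.sum_const, Finset.card_range, nsmul_eq_mul]
  have hCne : C ≠ 0 := ne_of_gt hC0
  have e1 : (m : ℝ) * ((m : ℝ) - 1) - ((m : ℝ) - 1) * m = 0 := by ring
  rw [e1]
  have e2 : 2 * (m : ℝ) * ((m : ℝ) - 1) * (2 * (m : ℝ) - 1) / 3 - 2 * ((m : ℝ) - 1) * ((m : ℝ) * ((m : ℝ) - 1)) +
      ((m : ℝ) - 1) ^ 2 * m = (m : ℝ) * ((m : ℝ) ^ 2 - 1) / 3 := by ring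
  rw [e2]
  have e3 : 2 * ((m : ℝ) * ((m : ℝ) - 1)) ^ 2 - 3 * ((m : ℝ) - 1) * (2 * (m : ℝ) * ((m : ℝ) - 1) * (2 * (m : ℝ) - 1) / 3) +
      3 * ((m : ℝ) - 1) ^ 2 * ((m : ℝ) * ((m : ℝ) - 1)) - ((m : ℝ) - 1) ^ 3 * m = 0 := by ring
  rw [e3]
  field_simp
  ring

theorem T_lo (c m : ℕ) (hc : 1 ≤ c) (hm : 1 ≤ m) :
    (m : ℝ) / ((c : ℝ) + m - 1) + (m : ℝ) * ((m : ℝ) ^ 2 - 1) / (3 * ((c : ℝ) + m - 1) ^ 3) ≤ T c m := by
  rw [T_eq c m hc hm]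
  have hc' : (1 : ℝ) ≤ c := by exact_mod_cast hc
  have hm' : (1 : ℝ) ≤ m := by exact_mod_cast hm
  have : 0 ≤ ∑ j ∈ Finset.range m, (2 * (j : ℝ) - ((m : ℝ) - 1)) ^ 4 /
      (((c : ℝ) + m - 1) ^ 4 * ((c : ℝ) + 2 * j)) := by
    refine Finset.sum_nonneg fun j _ => ?_
    have : (0 : ℝ) ≤ (c : ℝ) + m - 1 := by linarith
    positivity
  linarith

theorem T_hi (c m : ℕ) (hc : 1 ≤ c) (hm : 1 ≤ m) :
    T c m ≤ (m : ℝ) / ((c : ℝ) + m - 1) + (m : ℝ) * ((m : ℝ) ^ 2 - 1) / (3 * ((c : ℝ) + m - 1) ^ 3) +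
      (m : ℝ) * ((m : ℝ) ^ 2 - 1) * ((m : ℝ) - 1) ^ 2 / (3 * ((c : ℝ) + m - 1) ^ 4 * c) := by
  rw [T_eq c m hc hm]
  have hc' : (1 : ℝ) ≤ c := by exact_mod_cast hc
  have hm' : (1 : ℝ) ≤ m := by exact_mod_cast hm
  set C : ℝ := (c : ℝ) + m - 1 with hC
  have hC0 : 0 < C := by rw [hC]; linarith
  have hsum : ∑ j ∈ Finset.range m, (2 * (j : ℝ) - ((m : ℝ) - 1)) ^ 4 / (C ^ 4 * ((c : ℝ) + 2 * j)) ≤
      ∑ j ∈ Finset.range m, (((m : ℝ) - 1) ^ 2 / (C ^ 4 * c)) * (2 * (j : ℝ) - ((m : ℝ) - 1)) ^ 2 := by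
    refine Finset.sum_le_sum fun j hj => ?_
    have hj1 : (j : ℝ) + 1 ≤ m := by
      have := Finset.mem_range.1 hj
      exact_mod_cast this
    have hj0 : (0 : ℝ) ≤ j := Nat.cast_nonneg j
    have h1 : (2 * (j : ℝ) - ((m : ℝ) - 1)) ^ 2 ≤ ((m : ℝ) - 1) ^ 2 := by
      rw [sq_le_sq, abs_le]
      rw [abs_of_nonneg (show (0:ℝ) ≤ (m : ℝ) - 1 by linarith)]
      constructor <;> linarith
    have h2 : (2 * (j : ℝ) - ((m : ℝ) - 1)) ^ 4 ≤ ((m : ℝ) - 1) ^ 2 * (2 * (j : ℝ) - ((m : ℝ) - 1)) ^ 2 := by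
      have h0 : 0 ≤ (2 * (j : ℝ) - ((m : ℝ) - 1)) ^ 2 := sq_nonneg _
      calc (2 * (j : ℝ) - ((m : ℝ) - 1)) ^ 4 = (2 * (j : ℝ) - ((m : ℝ) - 1)) ^ 2 * (2 * (j : ℝ) - ((m : ℝ) - 1)) ^ 2 := by ring
        _ ≤ _ := mul_le_mul_of_nonneg_right h1 h0
    calc (2 * (j : ℝ) - ((m : ℝ) - 1)) ^ 4 / (C ^ 4 * ((c : ℝ) + 2 * j))
        ≤ (((m : ℝ) - 1) ^ 2 * (2 * (j : ℝ) - ((m : ℝ) - 1)) ^ 2) / (C ^ 4 * c) := by
          apply div_le_div₀ (by positivity) h2 (by positivity)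
          apply mul_le_mul_of_nonneg_left _ (by positivity)
          linarith
      _ = _ := by ring
  rw [← Finset.mul_sum, T_s2] at hsum
  have e2 : 2 * (m : ℝ) * ((m : ℝ) - 1) * (2 * (m : ℝ) - 1) / 3 - 2 * ((m : ℝ) - 1) * ((m : ℝ) * ((m : ℝ) - 1)) +
      ((m : ℝ) - 1) ^ 2 * m = (m : ℝ) * ((m : ℝ) ^ 2 - 1) / 3 := by ring
  rw [e2] at hsum
  have hcne : (c : ℝ) ≠ 0 := by positivity
  have hCne : C ≠ 0 := ne_of_gt hC0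
  have e3 : (((m : ℝ) - 1) ^ 2 / (C ^ 4 * c)) * ((m : ℝ) * ((m : ℝ) ^ 2 - 1) / 3) =
      (m : ℝ) * ((m : ℝ) ^ 2 - 1) * ((m : ℝ) - 1) ^ 2 / (3 * C ^ 4 * c) := by
    field_simp
  rw [e3] at hsum
  linarith

/-! integer enclosures; `c, m ≥ 1` -/

theorem In_TM (c m : ℕ) (hc : 1 ≤ c) (hm : 1 ≤ m) : In (TloM c m) (ThiM c m) (T c m) := by
  have hc' : (1 : ℝ) ≤ c := by exact_mod_cast hc
  have hm' : (1 : ℝ) ≤ m := by exact_mod_cast hm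
  have hCn : 1 ≤ c + m - 1 := by omega
  have hCc : ((c + m - 1 : ℕ) : ℝ) = (c : ℝ) + m - 1 := by
    rw [Nat.cast_sub (by omega)]; push_cast; ring
  have hmm : 1 ≤ m * m := Nat.mul_pos hm hm
  have hq : ((m * (m * m - 1) : ℕ) : ℝ) = (m : ℝ) * ((m : ℝ) ^ 2 - 1) := by
    rw [Nat.cast_mul, Nat.cast_sub hmm]; push_cast; ring
  have hm1 : ((m - 1 : ℕ) : ℝ) = (m : ℝ) - 1 := by
    rw [Nat.cast_sub hm]; push_cast; ring
  have hC0 : (0 : ℝ) < (c : ℝ) + m - 1 := by linarith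
  have hC : (c : ℝ) + m - 1 ≠ 0 := ne_of_gt hC0
  have hcne : (c : ℝ) ≠ 0 := by positivity
  have hlo : (m : ℝ) / ((c : ℝ) + m - 1) + (m : ℝ) * ((m : ℝ) ^ 2 - 1) / (3 * ((c : ℝ) + m - 1) ^ 3) =
      ((m * (3 * ((c + m - 1) * (c + m - 1)) + (m * m - 1)) : ℕ) : ℝ) /
        ((3 * ((c + m - 1) * (c + m - 1)) * (c + m - 1) : ℕ) : ℝ) := by
    have e : ((m * (3 * ((c + m - 1) * (c + m - 1)) + (m * m - 1)) : ℕ) : ℝ) =
        (m : ℝ) * (3 * (((c : ℝ) + m - 1) * ((c : ℝ) + m - 1)) + ((m : ℝ) ^ 2 - 1)) := by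
      rw [Nat.cast_mul, Nat.cast_add, Nat.cast_sub hmm]
      push_cast [hCc]
      ring
    rw [e]
    push_cast [hCc]
    field_simp
  have herr : (m : ℝ) * ((m : ℝ) ^ 2 - 1) * ((m : ℝ) - 1) ^ 2 / (3 * ((c : ℝ) + m - 1) ^ 4 * c) =
      ((m * (m * m - 1) * ((m - 1) * (m - 1)) : ℕ) : ℝ) /
        ((3 * ((c + m - 1) * (c + m - 1)) * ((c + m - 1) * (c + m - 1)) * c : ℕ) : ℝ) := by
    rw [Nat.cast_mul (m * (m * m - 1)), hq]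
    push_cast [hCc, hm1]
    congr 1
    · ring
    · ring
  have f1 := In_frac (m * (3 * ((c + m - 1) * (c + m - 1)) + (m * m - 1)))
    (3 * ((c + m - 1) * (c + m - 1)) * (c + m - 1)) (by positivity)
  have f2 := In_frac (m * (m * m - 1) * ((m - 1) * (m - 1)))
    (3 * ((c + m - 1) * (c + m - 1)) * ((c + m - 1) * (c + m - 1)) * c) (by positivity)
  rw [← hlo] at f1
  rw [← herr] at f2
  have h1 := T_lo c m hc hm
  have h2 := T_hi c m hc hm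
  have hce : ∀ p q : ℕ, 0 < q → ce p q ≤ fl p q + 1 := by
    intro p q hq
    unfold ce fl
    have a1 : p + q - 1 ≤ p + q := Nat.sub_le _ _
    calc (p + q - 1) / q ≤ (p + q) / q := Nat.div_le_div_right a1
      _ = p / q + 1 := Nat.add_div_right p hq
  have h3 := hce (SC * (m * (3 * ((c + m - 1) * (c + m - 1)) + (m * m - 1))))
    (3 * ((c + m - 1) * (c + m - 1)) * (c + m - 1)) (by positivity)
  have h3' : ((ce (SC * (m * (3 * ((c + m - 1) * (c + m - 1)) + (m * m - 1))))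
    (3 * ((c + m - 1) * (c + m - 1)) * (c + m - 1)) : ℕ) : ℝ) ≤
      (fl (SC * (m * (3 * ((c + m - 1) * (c + m - 1)) + (m * m - 1))))
    (3 * ((c + m - 1) * (c + m - 1)) * (c + m - 1)) : ℝ) + 1 := by exact_mod_cast h3
  have hs := SC_pos
  constructor
  · refine le_trans f1.1 ?_
    exact mul_le_mul_of_nonneg_right h1 (le_of_lt SC_pos)
  · refine le_trans (mul_le_mul_of_nonneg_right h2 (le_of_lt SC_pos)) ?_
    rw [add_mul]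
    unfold ThiM TloM TerM
    push_cast
    have g1 := f1.2
    have g2 := f2.2
    linarith

end Pool.Agent.MMS
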