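import Pool.Agent.MP_94f265_co.ST.Sum

namespace Pool.Agent.MMS

/-- `1/c + 1/(c+d) + ... ` (`m` terms) -/
noncomputable def TS (c d m : ℕ) : ℝ := ∑ j ∈ Finset.range m, 1 / ((c : ℝ) + (d : ℝ) * (j : ℝ))

theorem TS_eq (c d m : ℕ) (hc : 1 ≤ c) (hm : 1 ≤ m) :
    TS c d m = (m : ℝ) / ((c : ℝ) + d * ((m : ℝ) - 1) / 2)
      + (d : ℝ) ^ 2 * ((m : ℝ) * ((m : ℝ) ^ 2 - 1)) / (12 * ((c : ℝ) + d * ((m : ℝ) - 1) / 2) ^ 3) +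
      ∑ j ∈ Finset.range m, ((d : ℝ) / 2 * (2 * (j : ℝ) - ((m : ℝ) - 1))) ^ 4 /
        (((c : ℝ) + d * ((m : ℝ) - 1) / 2) ^ 4 * ((c : ℝ) + d * j)) := by
  have hc' : (1 : ℝ) ≤ c := by exact_mod_cast hc
  have hm' : (1 : ℝ) ≤ m := by exact_mod_cast hm
  have hd' : (0 : ℝ) ≤ d := Nat.cast_nonneg d
  set C : ℝ := (c : ℝ) + d * ((m : ℝ) - 1) / 2 with hC
  have hC0 : 0 < C := by
    rw [hC]
    have : 0 ≤ (d : ℝ) * ((m : ℝ) - 1) / 2 := by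
      have : 0 ≤ (m : ℝ) - 1 := by linarith
      positivity
    linarith
  have hterm : ∀ j ∈ Finset.range m, 1 / ((c : ℝ) + (d : ℝ) * (j : ℝ)) =
      1 / C - ((d : ℝ) / 2 * (2 * (j : ℝ) - ((m : ℝ) - 1))) / C ^ 2
        + ((d : ℝ) / 2 * (2 * (j : ℝ) - ((m : ℝ) - 1))) ^ 2 / C ^ 3
        - ((d : ℝ) / 2 * (2 * (j : ℝ) - ((m : ℝ) - 1))) ^ 3 / C ^ 4
        + ((d : ℝ) / 2 * (2 * (j : ℝ) - ((m : ℝ) - 1))) ^ 4 / (C ^ 4 * ((c : ℝ) + d * j)) := by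
    intro j _
    have e : C + ((d : ℝ) / 2 * (2 * (j : ℝ) - ((m : ℝ) - 1))) = (c : ℝ) + d * j := by rw [hC]; ring
    have h := T_term C ((d : ℝ) / 2 * (2 * (j : ℝ) - ((m : ℝ) - 1))) hC0 (by
      rw [e]
      have : (0 : ℝ) ≤ j := Nat.cast_nonneg j
      have := mul_nonneg hd' this
      linarith)
    rw [e] at h
    exact h
  unfold TS
  rw [Finset.sum_congr rfl hterm]
  rw [Finset.sum_add_distrib, Finset.sum_sub_distrib, Finset.sum_add_distrib, Finset.sum_sub_distrib,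
    ← Finset.sum_div (Finset.range m) (fun j : ℕ => (d : ℝ) / 2 * (2 * (j : ℝ) - ((m : ℝ) - 1))) (C ^ 2),
    ← Finset.sum_div (Finset.range m) (fun j : ℕ => ((d : ℝ) / 2 * (2 * (j : ℝ) - ((m : ℝ) - 1))) ^ 2) (C ^ 3),
    ← Finset.sum_div (Finset.range m) (fun j : ℕ => ((d : ℝ) / 2 * (2 * (j : ℝ) - ((m : ℝ) - 1))) ^ 3) (C ^ 4)]
  simp only [mul_pow]
  rw [← Finset.mul_sum, ← Finset.mul_sum, ← Finset.mul_sum, T_s1, T_s2, T_s3]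
  simp only [Finset.sum_const, Finset.card_range, nsmul_eq_mul]
  have hCne : C ≠ 0 := ne_of_gt hC0
  have e1 : (m : ℝ) * ((m : ℝ) - 1) - ((m : ℝ) - 1) * m = 0 := by ring
  rw [e1]
  have e2 : 2 * (m : ℝ) * ((m : ℝ) - 1) * (2 * (m : ℝ) - 1) / 3 - 2 * ((m : ℝ) - 1) * ((m : ℝ) * ((m : ℝ) - 1)) +
      ((m : ℝ) - 1) ^ 2 * m = (m : ℝ) * ((m : ℝ) ^ 2 - 1) / 3 := by ring
  rw [e2]
  have e3 : 2 * ((m : ℝ) * ((m : ℝ) - 1)) ^ 2 - 3 * ((m : ℝ) - 1) * (2 * (m : ℝ) * ((m : ℝ) - 1) * (2 * (m : ℝ) - 1) / 3) +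
      3 * ((m : ℝ) - 1) ^ 2 * ((m : ℝ) * ((m : ℝ) - 1)) - ((m : ℝ) - 1) ^ 3 * m = 0 := by ring
  rw [e3]
  field_simp
  ring

theorem TS_lo (c d m : ℕ) (hc : 1 ≤ c) (hm : 1 ≤ m) :
    (m : ℝ) / ((c : ℝ) + d * ((m : ℝ) - 1) / 2)
      + (d : ℝ) ^ 2 * ((m : ℝ) * ((m : ℝ) ^ 2 - 1)) / (12 * ((c : ℝ) + d * ((m : ℝ) - 1) / 2) ^ 3) ≤ TS c d m := by
  rw [TS_eq c d m hc hm]
  have hc' : (1 : ℝ) ≤ c := by exact_mod_cast hc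
  have hm' : (1 : ℝ) ≤ m := by exact_mod_cast hm
  have : 0 ≤ ∑ j ∈ Finset.range m, ((d : ℝ) / 2 * (2 * (j : ℝ) - ((m : ℝ) - 1))) ^ 4 /
        (((c : ℝ) + d * ((m : ℝ) - 1) / 2) ^ 4 * ((c : ℝ) + d * j)) := by
    refine Finset.sum_nonneg fun j _ => ?_
    positivity
  linarith

theorem TS_hi (c d m : ℕ) (hc : 1 ≤ c) (hm : 1 ≤ m) :
    TS c d m ≤ (m : ℝ) / ((c : ℝ) + d * ((m : ℝ) - 1) / 2)
      + (d : ℝ) ^ 2 * ((m : ℝ) * ((m : ℝ) ^ 2 - 1)) / (12 * ((c : ℝ) + d * ((m : ℝ) - 1) / 2) ^ 3) +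
      (d : ℝ) ^ 4 * ((m : ℝ) - 1) ^ 2 * ((m : ℝ) * ((m : ℝ) ^ 2 - 1)) /
        (48 * ((c : ℝ) + d * ((m : ℝ) - 1) / 2) ^ 4 * c) := by
  rw [TS_eq c d m hc hm]
  have hc' : (1 : ℝ) ≤ c := by exact_mod_cast hc
  have hm' : (1 : ℝ) ≤ m := by exact_mod_cast hm
  have hd' : (0 : ℝ) ≤ d := Nat.cast_nonneg d
  set C : ℝ := (c : ℝ) + d * ((m : ℝ) - 1) / 2 with hC
  have hC0 : 0 < C := by
    rw [hC]
    have : 0 ≤ (d : ℝ) * ((m : ℝ) - 1) / 2 := by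
      have : 0 ≤ (m : ℝ) - 1 := by linarith
      positivity
    linarith
  have hsum : ∑ j ∈ Finset.range m, ((d : ℝ) / 2 * (2 * (j : ℝ) - ((m : ℝ) - 1))) ^ 4 / (C ^ 4 * ((c : ℝ) + d * j)) ≤
      ∑ j ∈ Finset.range m, ((d : ℝ) ^ 4 / 16 * ((m : ℝ) - 1) ^ 2 / (C ^ 4 * c)) * (2 * (j : ℝ) - ((m : ℝ) - 1)) ^ 2 := by
    refine Finset.sum_le_sum fun j hj => ?_
    have hj1 : (j : ℝ) + 1 ≤ m := by
      have := Finset.mem_range.1 hj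
      exact_mod_cast this
    have hj0 : (0 : ℝ) ≤ j := Nat.cast_nonneg j
    have h1 : (2 * (j : ℝ) - ((m : ℝ) - 1)) ^ 2 ≤ ((m : ℝ) - 1) ^ 2 := by
      rw [sq_le_sq, abs_le]
      rw [abs_of_nonneg (show (0:ℝ) ≤ (m : ℝ) - 1 by linarith)]
      constructor <;> linarith
    have h0 : 0 ≤ (2 * (j : ℝ) - ((m : ℝ) - 1)) ^ 2 := sq_nonneg _
    have h2 : ((d : ℝ) / 2 * (2 * (j : ℝ) - ((m : ℝ) - 1))) ^ 4 ≤
        (d : ℝ) ^ 4 / 16 * ((m : ℝ) - 1) ^ 2 * (2 * (j : ℝ) - ((m : ℝ) - 1)) ^ 2 := by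
      calc ((d : ℝ) / 2 * (2 * (j : ℝ) - ((m : ℝ) - 1))) ^ 4
          = (d : ℝ) ^ 4 / 16 * ((2 * (j : ℝ) - ((m : ℝ) - 1)) ^ 2 * (2 * (j : ℝ) - ((m : ℝ) - 1)) ^ 2) := by ring
        _ ≤ (d : ℝ) ^ 4 / 16 * (((m : ℝ) - 1) ^ 2 * (2 * (j : ℝ) - ((m : ℝ) - 1)) ^ 2) := by
            apply mul_le_mul_of_nonneg_left (mul_le_mul_of_nonneg_right h1 h0) (by positivity)
        _ = _ := by ring
    have hdj : 0 ≤ (d : ℝ) * j := mul_nonneg hd' hj0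
    calc ((d : ℝ) / 2 * (2 * (j : ℝ) - ((m : ℝ) - 1))) ^ 4 / (C ^ 4 * ((c : ℝ) + d * j))
        ≤ ((d : ℝ) ^ 4 / 16 * ((m : ℝ) - 1) ^ 2 * (2 * (j : ℝ) - ((m : ℝ) - 1)) ^ 2) / (C ^ 4 * c) := by
          apply div_le_div₀ (by positivity) h2 (by positivity)
          apply mul_le_mul_of_nonneg_left _ (by positivity)
          linarith
      _ = _ := by ring
  rw [← Finset.mul_sum, T_s2] at hsum
  have e2 : 2 * (m : ℝ) * ((m : ℝ) - 1) * (2 * (m : ℝ) - 1) / 3 - 2 * ((m : ℝ) - 1) * ((m : ℝ) * ((m : ℝ) - 1)) +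
      ((m : ℝ) - 1) ^ 2 * m = (m : ℝ) * ((m : ℝ) ^ 2 - 1) / 3 := by ring
  rw [e2] at hsum
  have hcne : (c : ℝ) ≠ 0 := by positivity
  have hCne : C ≠ 0 := ne_of_gt hC0
  have e3 : ((d : ℝ) ^ 4 / 16 * ((m : ℝ) - 1) ^ 2 / (C ^ 4 * c)) * ((m : ℝ) * ((m : ℝ) ^ 2 - 1) / 3) =
      (d : ℝ) ^ 4 * ((m : ℝ) - 1) ^ 2 * ((m : ℝ) * ((m : ℝ) ^ 2 - 1)) / (48 * C ^ 4 * c) := by
    field_simp
    ring
  rw [e3] at hsum
  linarith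

theorem In_TSM (c d m : ℕ) (hc : 1 ≤ c) (hm : 1 ≤ m) : In (TSloM c d m) (TShiM c d m) (TS c d m) := by
  have hc' : (1 : ℝ) ≤ c := by exact_mod_cast hc
  have hm' : (1 : ℝ) ≤ m := by exact_mod_cast hm
  have hd' : (0 : ℝ) ≤ d := Nat.cast_nonneg d
  have hmm : 1 ≤ m * m := Nat.mul_pos hm hm
  have hq : ((m * (m * m - 1) : ℕ) : ℝ) = (m : ℝ) * ((m : ℝ) ^ 2 - 1) := by
    rw [Nat.cast_mul, Nat.cast_sub hmm]; push_cast; ring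
  have hm1 : ((m - 1 : ℕ) : ℝ) = (m : ℝ) - 1 := by
    rw [Nat.cast_sub hm]; push_cast; ring
  have hE : ((2 * c + d * (m - 1) : ℕ) : ℝ) = 2 * ((c : ℝ) + d * ((m : ℝ) - 1) / 2) := by
    push_cast [hm1]; ring
  have hEpos : 0 < 2 * c + d * (m - 1) := by omega
  set C : ℝ := (c : ℝ) + d * ((m : ℝ) - 1) / 2 with hC
  have hC0 : 0 < C := by
    rw [hC]
    have : 0 ≤ (d : ℝ) * ((m : ℝ) - 1) / 2 := by
      have : 0 ≤ (m : ℝ) - 1 := by linarith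
      positivity
    linarith
  have hCne : C ≠ 0 := ne_of_gt hC0
  have hcne : (c : ℝ) ≠ 0 := by positivity
  unfold TSloM TShiM
  generalize hEE : 2 * c + d * (m - 1) = E at *
  constructor
  · have h := (In_frac (6 * m * (E * E) + 2 * (d * d) * (m * (m * m - 1))) (3 * (E * (E * E))) (by positivity)).1
    refine le_trans h ?_
    apply mul_le_mul_of_nonneg_right _ (le_of_lt SC_pos)
    refine le_trans (le_of_eq ?_) (TS_lo c d m hc hm)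
    rw [Nat.cast_add, Nat.cast_mul (2 * (d * d)), hq]
    push_cast
    rw [hE, ← hC]
    field_simp
    ring
  · have h := (In_frac ((6 * m * (E * E) + 2 * (d * d) * (m * (m * m - 1))) * (E * c) +
        (d * d) * (d * d) * ((m - 1) * (m - 1)) * (m * (m * m - 1)))
      (3 * (E * E) * (E * E) * c) (by positivity)).2
    refine le_trans ?_ h
    apply mul_le_mul_of_nonneg_right _ (le_of_lt SC_pos)
    refine le_trans (TS_hi c d m hc hm) (le_of_eq ?_)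
    simp only [Nat.cast_add, Nat.cast_mul, hm1]
    rw [Nat.cast_sub hmm]
    push_cast
    rw [hE, ← hC]
    field_simp
    ring

end Pool.Agent.MMS
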