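import Pool.Agent.MP_94f265_co.ST.Sum2

/-!
# Enclosures of sums of unit fractions: direct below 100000, by the midpoint formula above
-/

namespace Pool.Agent.MMS

theorem TS_succ' (c d m : ℕ) : TS c d (m + 1) = 1 / (c : ℝ) + TS (c + d) d m := by
  unfold TS
  rw [Finset.sum_range_succ']
  simp only [Nat.cast_zero, mul_zero, add_zero]
  rw [add_comm]
  congr 1
  refine Finset.sum_congr rfl fun j _ => ?_
  push_cast
  congr 1
  ring

theorem In_Td (d m : ℕ) : ∀ c : ℕ, 1 ≤ c → In (Tdl d m c) (Tdh d m c) (TS c d m) := by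
  induction m with
  | zero => intro c _; simp [Tdl, Tdh, TS, In]
  | succ m ih =>
    intro c hc
    rw [TS_succ']
    exact (In_inv c hc).add (ih (c + d) (by omega))

theorem T_TS (c m : ℕ) : T c m = TS c 2 m := by
  unfold T TS
  simp

theorem In_T (c m : ℕ) (hc : 1 ≤ c) (hm : 1 ≤ m) : In (Tlo c m) (Thi c m) (T c m) := by
  unfold Tlo Thi
  cases h : Nat.ble c 99999 with
  | true => rw [cond_true, cond_true, T_TS]; exact In_Td 2 m c hc
  | false => rw [cond_false, cond_false]; exact In_TM c m hc hm

theorem In_TS (c d m : ℕ) (hc : 1 ≤ c) (hm : 1 ≤ m) : In (TSlo c d m) (TShi c d m) (TS c d m) := by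
  unfold TSlo TShi
  cases h : Nat.ble c 99999 with
  | true => rw [cond_true, cond_true]; exact In_Td d m c hc
  | false => rw [cond_false, cond_false]; exact In_TSM c d m hc hm

end Pool.Agent.MMS
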