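import Mathlib

/-!
# Vectors of 64-bit fields in one natural number
-/

namespace Pool.Agent.MMS

/-- the vector with the fields `f 0, ..., f (n - 1)` -/
def vec (n : ℕ) (f : ℕ → ℕ) : ℕ := ∑ i ∈ Finset.range n, f i * 2 ^ (64 * i)

theorem vec_zero (f : ℕ → ℕ) : vec 0 f = 0 := by simp [vec]

theorem vec_succ (n : ℕ) (f : ℕ → ℕ) : vec (n + 1) f = f 0 + 2 ^ 64 * vec n (fun i => f (i + 1)) := by
  have h1 : ∑ i ∈ Finset.range n, f (i + 1) * 2 ^ (64 * (i + 1)) =
      ∑ i ∈ Finset.range n, 2 ^ 64 * (f (i + 1) * 2 ^ (64 * i)) := by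
    apply Finset.sum_congr rfl
    intro i _
    rw [Nat.mul_succ, Nat.pow_add, Nat.mul_comm (2 ^ (64 * i)) (2 ^ 64), Nat.mul_left_comm]
  unfold vec
  rw [Finset.sum_range_succ', Finset.mul_sum, h1, Nat.mul_zero, Nat.pow_zero, Nat.mul_one, Nat.add_comm]

theorem vec_top (n : ℕ) (f : ℕ → ℕ) : vec (n + 1) f = vec n f + f n * 2 ^ (64 * n) := by
  unfold vec
  rw [Finset.sum_range_succ]

theorem vec_congr {n : ℕ} {f g : ℕ → ℕ} (h : ∀ i < n, f i = g i) : vec n f = vec n g := by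
  unfold vec
  apply Finset.sum_congr rfl
  intro i hi
  rw [h i (Finset.mem_range.1 hi)]

theorem vec_add (n : ℕ) (f g : ℕ → ℕ) : vec n f + vec n g = vec n (fun i => f i + g i) := by
  unfold vec
  rw [← Finset.sum_add_distrib]
  apply Finset.sum_congr rfl
  intro i _
  ring

theorem vec_mul (n : ℕ) (c : ℕ) (f : ℕ → ℕ) : c * vec n f = vec n (fun i => c * f i) := by
  unfold vec
  rw [Finset.mul_sum]
  apply Finset.sum_congr rfl
  intro i _
  ring

theorem vec_mul' (n : ℕ) (c : ℕ) (f : ℕ → ℕ) : vec n f * c = vec n (fun i => f i * c) := by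
  rw [Nat.mul_comm, vec_mul]
  apply vec_congr
  intro i _
  ring

theorem vec_sub (n : ℕ) (f g : ℕ → ℕ) (h : ∀ i < n, g i ≤ f i) :
    vec n f - vec n g = vec n (fun i => f i - g i) := by
  have h1 : vec n g + vec n (fun i => f i - g i) = vec n f := by
    rw [vec_add]
    apply vec_congr
    intro i hi
    have := h i hi
    omega
  omega

theorem vec_le (n : ℕ) (f g : ℕ → ℕ) (h : ∀ i < n, g i ≤ f i) : vec n g ≤ vec n f := by
  unfold vec
  apply Finset.sum_le_sum
  intro i hi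
  exact Nat.mul_le_mul_right _ (h i (Finset.mem_range.1 hi))

theorem vec_lt (n : ℕ) (f : ℕ → ℕ) (h : ∀ i < n, f i < 2 ^ 64) : vec n f < 2 ^ (64 * n) := by
  induction n with
  | zero => simp [vec_zero]
  | succ n ih =>
    rw [vec_top]
    have h1 := ih (fun i hi => h i (by omega))
    have h2 : f n + 1 ≤ 2 ^ 64 := h n (by omega)
    have h3 : (f n + 1) * 2 ^ (64 * n) ≤ 2 ^ 64 * 2 ^ (64 * n) := Nat.mul_le_mul_right _ h2
    rw [show 64 * (n + 1) = 64 + 64 * n by ring, pow_add]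
    nlinarith

theorem vec_append (a b : ℕ) (f : ℕ → ℕ) :
    vec (a + b) f = vec a f + 2 ^ (64 * a) * vec b (fun i => f (a + i)) := by
  unfold vec
  rw [Finset.sum_range_add, Finset.mul_sum]
  congr 1
  apply Finset.sum_congr rfl
  intro i _
  rw [show 64 * (a + i) = 64 * a + 64 * i by ring, pow_add]
  ring

/-- a window of a vector -/
theorem vec_window (N a L : ℕ) (f : ℕ → ℕ) (h : ∀ i < N, f i < 2 ^ 64) (haL : a + L ≤ N) :
    (vec N f >>> (64 * a)) % 2 ^ (64 * L) = vec L (fun i => f (a + i)) := by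
  obtain ⟨r, rfl⟩ := Nat.exists_eq_add_of_le haL
  rw [Nat.shiftRight_eq_div_pow]
  have h1 : vec (a + L + r) f = vec a f + 2 ^ (64 * a) * vec (L + r) (fun i => f (a + i)) := by
    rw [Nat.add_assoc, vec_append]
  have h2 : vec a f < 2 ^ (64 * a) := vec_lt a f (fun i hi => h i (by omega))
  have h3 : vec (a + L + r) f / 2 ^ (64 * a) = vec (L + r) (fun i => f (a + i)) := by
    rw [h1, Nat.add_mul_div_left _ _ (by positivity), Nat.div_eq_of_lt h2, Nat.zero_add]
  rw [h3, vec_append, Nat.add_mul_mod_self_left, Nat.mod_eq_of_lt]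
  exact vec_lt L _ (fun i hi => h (a + i) (by omega))

/-- the fields -/
theorem vec_digit (N i : ℕ) (f : ℕ → ℕ) (h : ∀ i < N, f i < 2 ^ 64) (hi : i < N) :
    (vec N f >>> (64 * i)) % 2 ^ 64 = f i := by
  have h1 := vec_window N i 1 f h (by omega)
  rw [show 64 * 1 = 64 by norm_num] at h1
  rw [h1, vec_succ, vec_zero]
  simp

/-- all fields are one -/
theorem vec_ones (L : ℕ) : (2 ^ (64 * L) - 1) / (2 ^ 64 - 1) = vec L (fun _ => 1) := by
  unfold vec
  simp only [Nat.one_mul]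
  rw [show (2 : ℕ) ^ (64 * L) = (2 ^ 64) ^ L by rw [← pow_mul], ← Nat.geomSum_eq (by norm_num) L]
  apply Finset.sum_congr rfl
  intro i _
  rw [← pow_mul]

/-- shift right inside the fields -/
theorem vec_shr (t : ℕ) (ht : t ≤ 64) (n : ℕ) (f : ℕ → ℕ) (h : ∀ i < n, f i < 2 ^ 64) :
    (vec n f >>> t) &&& vec n (fun _ => 2 ^ (64 - t) - 1) = vec n (fun i => f i / 2 ^ t) := by
  induction n generalizing f with
  | zero => simp [vec_zero]
  | succ n ih =>
    have ih' := ih (fun i => f (i + 1)) (fun i hi => h (i + 1) (by omega))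
    rw [vec_succ n f, vec_succ n (fun _ => 2 ^ (64 - t) - 1), vec_succ n (fun i => f i / 2 ^ t)]
    rw [← ih']
    set W := vec n (fun i => f (i + 1)) with hW
    set M := vec n (fun _ => 2 ^ (64 - t) - 1) with hM
    have h64 : (2 : ℕ) ^ 64 = 2 ^ t * 2 ^ (64 - t) := by
      rw [← pow_add]
      congr 1
      omega
    have hf0 : f 0 / 2 ^ t < 2 ^ (64 - t) := by
      rw [Nat.div_lt_iff_lt_mul (by positivity), Nat.mul_comm, ← h64]
      exact h 0 (by omega)
    have e1 : (f 0 + 2 ^ 64 * W) >>> t = 2 ^ (64 - t) * W + f 0 / 2 ^ t := by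
      rw [Nat.shiftRight_eq_div_pow, h64, Nat.mul_assoc, Nat.add_mul_div_left _ _ (by positivity),
        Nat.add_comm]
    rw [e1]
    apply Nat.eq_of_testBit_eq
    intro j
    rw [Nat.testBit_and, Nat.testBit_two_pow_mul_add W hf0 j]
    rw [show 2 ^ (64 - t) - 1 + 2 ^ 64 * M = 2 ^ 64 * M + (2 ^ (64 - t) - 1) by ring]
    have hm : 2 ^ (64 - t) - 1 < 2 ^ 64 := by
      have h1 : (2 : ℕ) ^ (64 - t) ≤ 2 ^ 64 := Nat.pow_le_pow_right (by norm_num) (by omega)
      have h2 : 1 ≤ (2 : ℕ) ^ (64 - t) := Nat.one_le_two_pow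
      omega
    have hq : f 0 / 2 ^ t < 2 ^ 64 :=
      lt_of_lt_of_le hf0 (Nat.pow_le_pow_right (by norm_num) (by omega))
    rw [Nat.testBit_two_pow_mul_add M hm j]
    rw [show f 0 / 2 ^ t + 2 ^ 64 * (W >>> t &&& M) = 2 ^ 64 * (W >>> t &&& M) + f 0 / 2 ^ t by ring]
    rw [Nat.testBit_two_pow_mul_add _ hq j]
    by_cases hj : j < 64 - t
    · rw [if_pos hj, if_pos (by omega), if_pos (by omega), Nat.testBit_two_pow_sub_one]
      simp [hj]
    · rw [if_neg hj]
      by_cases hj2 : j < 64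
      · rw [if_pos hj2, if_pos hj2, Nat.testBit_two_pow_sub_one]
        have h3 : (f 0 / 2 ^ t).testBit j = false := by
          apply Nat.testBit_lt_two_pow
          exact lt_of_lt_of_le hf0 (Nat.pow_le_pow_right (by norm_num) (by omega))
        simp [hj, h3]
      · rw [if_neg hj2, if_neg hj2, Nat.testBit_and, Nat.testBit_shiftRight]
        congr 2
        omega

end Pool.Agent.MMS
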