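import Pool.Agent.MP_94f265_co.ST.Plan

/-!
# Enclosures for the walls
-/

namespace Pool.Agent.MMS

open Pool.Agent.MM1

theorem In.sub' {lo hi lo' hi' : ℕ} {x y : ℝ} (h : In lo hi x) (h' : In lo' hi' y) (hle : y ≤ x) :
    In (lo - hi') (hi - lo') (x - y) := by
  obtain ⟨h1, h2⟩ := h
  obtain ⟨h3, h4⟩ := h'
  have h0 : y * (SC : ℝ) ≤ x * (SC : ℝ) := mul_le_mul_of_nonneg_right hle (le_of_lt SC_pos)
  have h5 : lo' ≤ hi := by
    have : (lo' : ℝ) ≤ (hi : ℝ) := by linarith
    exact_mod_cast this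
  constructor
  · rcases le_total hi' lo with h6 | h6
    · rw [Nat.cast_sub h6]; nlinarith
    · rw [Nat.sub_eq_zero_of_le h6, Nat.cast_zero]; nlinarith
  · rw [Nat.cast_sub h5]; nlinarith

theorem wok_iff {al k J K : ℕ} (h : wok al k J K = true) :
    1 ≤ k ∧ 1 ≤ J ∧ 2 ≤ K ∧ TShi (k + 1) (2 * J) K ≤ al := by
  simp only [wok, Bool.and_eq_true, Nat.ble_eq] at h
  exact ⟨h.1.1, h.1.2, h.2.1, h.2.2⟩

theorem Lg_anti {i j : ℕ} (hi : 1 ≤ i) (hij : i ≤ j) : Lg j ≤ Lg i := by
  have h1 : (1 : ℝ) ≤ i := by exact_mod_cast hi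
  have h2 : (i : ℝ) ≤ j := by exact_mod_cast hij
  unfold Lg
  have g1 : 1 / (j : ℝ) ≤ 1 / (i : ℝ) := one_div_le_one_div_of_le (by linarith) (by linarith)
  have g2 : 1 / ((j : ℝ) + 2) ≤ 1 / ((i : ℝ) + 2) := one_div_le_one_div_of_le (by linarith) (by linarith)
  linarith

theorem itm_ge (k J r t : ℕ) : k ≤ itm k J r t := by unfold itm; omega

theorem itm_anti (k J r r' t : ℕ) (h : r ≤ r') : itm k J r' t ≤ itm k J r t := by
  unfold itm
  have : J - 1 - r' ≤ J - 1 - r := by omega
  omega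

theorem itm_succ (k J r t : ℕ) : itm k J r (t + 1) = itm k J r t + 2 * J := by
  unfold itm
  ring

theorem wa_mono (k J r r' t : ℕ) (h : r ≤ r') : wa k J r t ≤ wa k J r' t := by
  unfold wa
  have h1 : (itm k J r' t : ℝ) ≤ itm k J r t := by exact_mod_cast itm_anti k J r r' t h
  exact one_div_le_one_div_of_le (by positivity) (by linarith)

theorem Xc_mono (k J r r' t : ℕ) (h : r ≤ r') : Xc (wa k J) r t ≤ Xc (wa k J) r' t :=
  Finset.sum_le_sum fun s _ => wa_mono k J r r' s h

theorem wa_nonneg (k J r t : ℕ) : 0 ≤ wa k J r t := by unfold wa; positivity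

theorem Xc_mono' (k J r t t' : ℕ) (h : t ≤ t') : Xc (wa k J) r t ≤ Xc (wa k J) r t' := by
  unfold Xc
  exact Finset.sum_le_sum_of_subset_of_nonneg (Finset.range_mono h) (fun s _ _ => wa_nonneg k J r s)

/-- row sums -/
theorem Xc_eq (k J r t : ℕ) : Xc (wa k J) r t = TS (k + 2 * (J - 1 - r) + 1) (2 * J) t := by
  unfold Xc TS
  refine Finset.sum_congr rfl fun s _ => ?_
  unfold wa itm
  congr 1
  push_cast
  ring

/-- column sums -/
theorem Hc_eq (k J r t : ℕ) (hr : r < J) :
    Hc (wb k J) (r + 1) t = T (itm k J r t) (r + 1) + T (itm k J r t + 2) (r + 1) := by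
  unfold Hc T
  rw [← Finset.sum_add_distrib, ← Finset.sum_range_reflect]
  refine Finset.sum_congr rfl fun j hj => ?_
  rw [Finset.mem_range] at hj
  have e : itm k J (r + 1 - 1 - j) t = itm k J r t + 2 * j := by
    unfold itm
    have : J - 1 - (r + 1 - 1 - j) = J - 1 - r + j := by omega
    rw [this]; ring
  unfold wb Lg
  rw [e]
  push_cast
  congr 2
  ring

theorem Hc_top (k J t : ℕ) (hJ : 1 ≤ J) :
    Hc (wb k J) J t = T (k + 2 * (t * J)) J + T (k + 2 * (t * J) + 2) J := by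
  have h := Hc_eq k J (J - 1) t (by omega)
  rw [show J - 1 + 1 = J by omega] at h
  rw [h]
  have : itm k J (J - 1) t = k + 2 * (t * J) := by
    unfold itm
    rw [show J - 1 - (J - 1) = 0 by omega, Nat.add_zero]
  rw [this]

theorem In_X (k J r t : ℕ) (ht : 1 ≤ t) :
    In (TSlo (k + 2 * (J - 1 - r) + 1) (2 * J) t) (TShi (k + 2 * (J - 1 - r) + 1) (2 * J) t)
      (Xc (wa k J) r t) := by
  rw [Xc_eq]
  exact In_TS _ _ _ (by omega) ht

theorem In_H (k J r t : ℕ) (hk : 1 ≤ k) (hr : r < J) :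
    In (Tlo (itm k J r t) (r + 1) + Tlo (itm k J r t + 2) (r + 1))
      (Thi (itm k J r t) (r + 1) + Thi (itm k J r t + 2) (r + 1)) (Hc (wb k J) (r + 1) t) := by
  rw [Hc_eq k J r t hr]
  have := itm_ge k J r t
  exact (In_T _ _ (by omega) (by omega)).add (In_T _ _ (by omega) (by omega))

theorem In_Htop (k J t : ℕ) (hk : 1 ≤ k) (hJ : 1 ≤ J) :
    In (Tlo (k + 2 * (t * J)) J + Tlo (k + 2 * (t * J) + 2) J)
      (Thi (k + 2 * (t * J)) J + Thi (k + 2 * (t * J) + 2) J) (Hc (wb k J) J t) := by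
  rw [Hc_top k J t hJ]
  exact (In_T _ _ (by omega) hJ).add (In_T _ _ (by omega) hJ)

theorem top_idx (k J : ℕ) : k + 2 * (J - 1 - (J - 1)) + 1 = k + 1 := by omega

theorem Xtop_le {al ah k J K : ℕ} {L : ℝ} (h : wok al k J K = true) (hL : In al ah L) :
    Xc (wa k J) (J - 1) K ≤ L := by
  obtain ⟨hk, hJ, hK, hle⟩ := wok_iff h
  have h1 := In_X k J (J - 1) K (by omega)
  rw [top_idx] at h1
  exact hL.le h1 hle

theorem wall_ok {al ah k J K : ℕ} {L : ℝ} (h : wok al k J K = true) (hL : In al ah L) :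
    WallOK (wa k J) (wb k J) L J K := by
  obtain ⟨hk, hJ, hK, hle⟩ := wok_iff h
  refine ⟨hJ, by omega, fun r _ t _ => wa_nonneg k J r t, fun r _ t _ => Lg_nonneg _,
    fun r _ t _ => Xc_mono k J r (r + 1) t (by omega), ?_, Xtop_le h hL⟩
  intro t _ r _
  refine Finset.sum_le_sum fun q _ => ?_
  unfold wb
  have := itm_ge k J q t
  exact Lg_anti (by omega) (by rw [itm_succ]; omega)

theorem forall₂_map_same {α β γ : Type*} {R : β → γ → Prop} {f : α → β} {g : α → γ} :
    ∀ {l : List α}, (∀ x ∈ l, R (f x) (g x)) → List.Forall₂ R (l.map f) (l.map g)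
  | [], _ => List.Forall₂.nil
  | _ :: _, h => List.Forall₂.cons (h _ List.mem_cons_self)
      (forall₂_map_same fun x hx => h x (List.mem_cons_of_mem _ hx))

theorem forall₂_app {β γ : Type*} {R : β → γ → Prop} {l₁ l₂ : List β} {m₁ m₂ : List γ}
    (h₁ : List.Forall₂ R l₁ m₁) (h₂ : List.Forall₂ R l₂ m₂) :
    List.Forall₂ R (l₁ ++ l₂) (m₁ ++ m₂) := by
  induction h₁ with
  | nil => exact h₂
  | cons h _ ih => exact List.Forall₂.cons h ih

theorem forall₂_flatMap {α β γ : Type*} {R : β → γ → Prop} {f : α → List β} {g : α → List γ} :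
    ∀ {l : List α}, (∀ x ∈ l, List.Forall₂ R (f x) (g x)) → List.Forall₂ R (l.flatMap f) (l.flatMap g)
  | [], _ => by simp
  | a :: l, h => by
      rw [List.flatMap_cons, List.flatMap_cons]
      exact forall₂_app (h a List.mem_cons_self)
        (forall₂_flatMap fun x hx => h x (List.mem_cons_of_mem _ hx))

theorem prof_enc {al ah k J K : ℕ} {L : ℝ} (h : wok al k J K = true) (hL : In al ah L) :
    List.Forall₂ In4 (wprof al ah k J K) (prof (wa k J) (wb k J) L J K) := by
  obtain ⟨hk, hJ, hK, hle⟩ := wok_iff h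
  unfold wprof prof
  refine forall₂_app (forall₂_map_same fun t _ => ?_) (List.Forall₂.cons ?_ List.Forall₂.nil)
  · refine ⟨?_, In_Htop k J t hk hJ⟩
    have h1 := In_u (k + 2 * (t * J) + 1) (by omega)
    have e : wa k J (J - 1) t = 1 / ((k + 2 * (t * J) + 1 : ℕ) : ℝ) := by
      unfold wa itm
      rw [show J - 1 - (J - 1) = 0 by omega, Nat.add_zero]
      push_cast
      rfl
    rw [← e] at h1
    exact h1
  · refine ⟨?_, In_Htop k J (K - 1) hk hJ⟩
    have h1 := In_X k J (J - 1) (K - 1) (by omega)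
    rw [top_idx] at h1
    exact hL.sub' h1 (le_trans (Xc_mono' k J (J - 1) (K - 1) K (by omega)) (Xtop_le h hL))

theorem ends_enc {al ah k J K : ℕ} {L : ℝ} (h : wok al k J K = true) (hL : In al ah L) :
    ∃ l : List (ℝ × ℝ), List.Forall₂ In4 (wendE al ah k J K) l ∧
      wEnds (wa k J) (wb k J) L J K = (l : Multiset (ℝ × ℝ)) := by
  obtain ⟨hk, hJ, hK, hle⟩ := wok_iff h
  refine ⟨(List.range J).map (fun r => (L - Xc (wa k J) r K, wb k J r (K - 1))), ?_, rfl⟩
  unfold wendE
  refine forall₂_map_same fun r hr => ⟨?_, ?_⟩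
  · rw [List.mem_range] at hr
    exact hL.sub' (In_X k J r K (by omega)) (le_trans (Xc_mono k J r (J - 1) K (by omega)) (Xtop_le h hL))
  · have := itm_ge k J r (K - 1)
    exact In_L _ (by omega)

theorem Hc_anti (k J r t : ℕ) (hk : 1 ≤ k) : Hc (wb k J) r (t + 1) ≤ Hc (wb k J) r t := by
  refine Finset.sum_le_sum fun q _ => ?_
  unfold wb
  have := itm_ge k J q t
  exact Lg_anti (by omega) (by rw [itm_succ]; omega)

theorem bits_enc {al k J K : ℕ} (h : wok al k J K = true) :
    ∃ l : List (ℝ × ℝ), List.Forall₂ In4 (wbitE k J K) l ∧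
      wBits (wa k J) (wb k J) J K = (l : Multiset (ℝ × ℝ)) := by
  obtain ⟨hk, hJ, hK, hle⟩ := wok_iff h
  refine ⟨(List.range (J - 1)).flatMap (fun r => (List.range (K - 1)).map (fun t =>
    (Xc (wa k J) (r + 1) (t + 1) - Xc (wa k J) r (t + 1),
      Hc (wb k J) (r + 1) t - Hc (wb k J) (r + 1) (t + 1)))), ?_, ?_⟩
  · unfold wbitE
    refine forall₂_flatMap fun r hr => forall₂_map_same fun t ht => ?_
    rw [List.mem_range] at hr ht
    refine ⟨?_, ?_⟩
    · exact (In_X k J (r + 1) (t + 1) (by omega)).sub' (In_X k J r (t + 1) (by omega))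
        (Xc_mono k J r (r + 1) (t + 1) (by omega))
    · exact (In_H k J r t hk (by omega)).sub' (In_H k J r (t + 1) hk (by omega)) (Hc_anti k J (r + 1) t hk)
  · unfold wBits
    change Multiset.map _ (Multiset.product (Multiset.range (J - 1)) (Multiset.range (K - 1))) = _
    change Multiset.map _ (((List.range (J - 1) : Multiset ℕ)) ×ˢ ((List.range (K - 1) : Multiset ℕ))) = _
    rw [Multiset.coe_product, Multiset.map_coe]
    congr 1
    rw [show (List.range (J - 1) ×ˢ List.range (K - 1)) =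
      (List.range (J - 1)).flatMap (fun r => (List.range (K - 1)).map (Prod.mk r)) from rfl, List.map_flatMap]
    refine List.flatMap_congr fun r _ => ?_
    rw [List.map_map]
    rfl

theorem bits_card (k J K : ℕ) : Multiset.card (wBits (wa k J) (wb k J) J K) = (J - 1) * (K - 1) := by
  unfold wBits
  rw [Multiset.card_map]
  change (Finset.range (J - 1) ×ˢ Finset.range (K - 1)).card = _
  rw [Finset.card_product, Finset.card_range, Finset.card_range]

theorem inv_diff {k i d : ℝ} (hk : 1 ≤ k) (hi : k ≤ i) (hd : 0 ≤ d) : 1 / i - 1 / (i + d) ≤ d / (k * k) := by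
  have hi0 : 0 < i := by linarith
  have hid : 0 < i + d := by linarith
  have e : 1 / i - 1 / (i + d) = d / (i * (i + d)) := by
    field_simp
    ring
  rw [e]
  apply div_le_div_of_nonneg_left hd (by positivity)
  nlinarith

theorem bits_le {al k J K : ℕ} (h : wok al k J K = true) (d : ℝ × ℝ) (hd : d ∈ wBits (wa k J) (wb k J) J K) :
    (0 ≤ d.1 ∧ d.1 * (SC : ℝ) ≤ bitB k J K) ∧ (0 ≤ d.2 ∧ d.2 * (SC : ℝ) ≤ bitB k J K) := by
  obtain ⟨hk, hJ, hK, hle⟩ := wok_iff h
  have hk' : (1 : ℝ) ≤ k := by exact_mod_cast hk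
  have hkk : 0 < k * k := Nat.mul_pos hk hk
  have hB := (In_frac (2 * K + 8 * (J * J)) (k * k) hkk).2
  have key : ∀ x : ℝ, x ≤ (2 * (K : ℝ) + 8 * ((J : ℝ) * J)) / ((k : ℝ) * k) → x * (SC : ℝ) ≤ bitB k J K := by
    intro x hx
    refine le_trans (mul_le_mul_of_nonneg_right ?_ (le_of_lt SC_pos)) hB
    push_cast
    exact hx
  unfold wBits at hd
  rw [Multiset.mem_map] at hd
  obtain ⟨⟨r, t⟩, hrt, rfl⟩ := hd
  rw [Finset.mem_val, Finset.mem_product, Finset.mem_range, Finset.mem_range] at hrt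
  obtain ⟨hr, ht⟩ := hrt
  simp only at hr ht ⊢
  have hkpos : (0 : ℝ) < (k : ℝ) * k := by positivity
  refine ⟨⟨?_, key _ ?_⟩, ⟨?_, key _ ?_⟩⟩
  · have := Xc_mono k J r (r + 1) (t + 1) (by omega)
    linarith
  · unfold Xc
    rw [← Finset.sum_sub_distrib]
    have hterm : ∀ s ∈ Finset.range (t + 1), wa k J (r + 1) s - wa k J r s ≤ 2 / ((k : ℝ) * k) := by
      intro s _
      have e : itm k J r s = itm k J (r + 1) s + 2 := by
        unfold itm
        have : J - 1 - r = J - 1 - (r + 1) + 1 := by omega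
        rw [this]; ring
      unfold wa
      rw [e]
      have hi : (k : ℝ) ≤ (itm k J (r + 1) s : ℝ) + 1 := by
        have : (k : ℝ) ≤ (itm k J (r + 1) s : ℝ) := by exact_mod_cast itm_ge k J (r + 1) s
        linarith
      have := inv_diff hk' hi (show (0 : ℝ) ≤ 2 by norm_num)
      push_cast
      rw [show (itm k J (r + 1) s : ℝ) + 2 + 1 = (itm k J (r + 1) s : ℝ) + 1 + 2 by ring]
      exact this
    refine le_trans (Finset.sum_le_sum hterm) ?_
    rw [Finset.sum_const, Finset.card_range, nsmul_eq_mul, ← mul_div_assoc]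
    apply div_le_div_of_nonneg_right _ (le_of_lt hkpos)
    have : (((t + 1 : ℕ)) : ℝ) ≤ K := by exact_mod_cast (by omega : t + 1 ≤ K)
    have : (0 : ℝ) ≤ (J : ℝ) * J := by positivity
    linarith
  · have := Hc_anti k J (r + 1) t hk
    linarith
  · unfold Hc
    rw [← Finset.sum_sub_distrib]
    have hterm : ∀ q ∈ Finset.range (r + 1), wb k J q t - wb k J q (t + 1) ≤ 4 * (J : ℝ) / ((k : ℝ) * k) := by
      intro q _
      unfold wb
      rw [itm_succ]
      unfold Lg
      have hi : (k : ℝ) ≤ (itm k J q t : ℝ) := by exact_mod_cast itm_ge k J q t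
      have h1 := inv_diff hk' hi (show (0 : ℝ) ≤ 2 * (J : ℝ) by positivity)
      have h2 := inv_diff hk' (show (k : ℝ) ≤ (itm k J q t : ℝ) + 2 by linarith) (show (0 : ℝ) ≤ 2 * (J : ℝ) by positivity)
      push_cast
      rw [show (itm k J q t : ℝ) + 2 * J + 2 = (itm k J q t : ℝ) + 2 + 2 * J by ring]
      have e : 4 * (J : ℝ) / ((k : ℝ) * k) = 2 * J / (k * k) + 2 * J / (k * k) := by ring
      rw [e]
      linarith
    refine le_trans (Finset.sum_le_sum hterm) ?_
    rw [Finset.sum_const, Finset.card_range, nsmul_eq_mul, ← mul_div_assoc]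
    apply div_le_div_of_nonneg_right _ (le_of_lt hkpos)
    have h1 : (((r + 1 : ℕ)) : ℝ) ≤ J := by exact_mod_cast (by omega : r + 1 ≤ J)
    have h2 : (0 : ℝ) ≤ (J : ℝ) := Nat.cast_nonneg J
    have h3 : (0 : ℝ) ≤ (K : ℝ) := Nat.cast_nonneg K
    have h4 : (((r + 1 : ℕ)) : ℝ) * (4 * J) ≤ J * (4 * J) := mul_le_mul_of_nonneg_right h1 (by positivity)
    nlinarith

theorem sum_single {α β : Type*} (s : Finset α) (f : α → β) : ∑ x ∈ s, ({f x} : Multiset β) = s.val.map f := by
  unfold Finset.sum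
  rw [show Multiset.map (fun x => ({f x} : Multiset β)) s.val = (s.val.map f).map (fun a => {a}) by
    rw [Multiset.map_map]; rfl]
  exact Multiset.sum_map_singleton _

/-- the dominoes of a wall -/
theorem items_list (k J K : ℕ) : wItems (wa k J) (wb k J) J K =
    ∑ n ∈ Finset.range (K * J), {(1 / (((k + 2 * n : ℕ) : ℝ) + 1), Lg (k + 2 * n))} := by
  unfold wItems
  rw [← sum_single, Finset.sum_product_right]
  induction K with
  | zero => simp
  | succ K ih =>
    rw [Finset.sum_range_succ, ih, Nat.succ_mul, Finset.sum_range_add]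
    congr 1
    rw [← Finset.sum_range_reflect]
    refine Finset.sum_congr rfl fun j hj => ?_
    rw [Finset.mem_range] at hj
    have e : itm k J (J - 1 - j) K = k + 2 * (K * J + j) := by
      unfold itm
      rw [show J - 1 - (J - 1 - j) = j by omega]
    simp only [wa, wb]
    rw [e]

theorem cut_dominoes (k N : ℕ) (hk : 1 ≤ k) :
    Cut (∑ n ∈ Finset.range N, {(1 / (((k + 2 * n : ℕ) : ℝ) + 1), Lg (k + 2 * n))})
      (units (List.range' k (2 * N))) := by
  induction N with
  | zero => exact Cut.refl _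
  | succ N ih =>
    rw [Finset.sum_range_succ]
    refine (Cut.add ih (cut_domino (k + 2 * N) (by omega))).trans (Cut.of_eq ?_)
    rw [← units_append]
    congr 1
    rw [show 2 * (N + 1) = 2 * N + 2 by ring, ← List.range'_append]
    simp [List.range']

theorem items_units {al k J K : ℕ} (h : wok al k J K = true) :
    Cut (wItems (wa k J) (wb k J) J K) (units (List.range' k (2 * (J * K)))) := by
  obtain ⟨hk, hJ, hK, hle⟩ := wok_iff h
  rw [items_list, Nat.mul_comm J K]
  exact cut_dominoes k (K * J) hk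

end Pool.Agent.MMS
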